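import Pool.Agent.LWG.Base

/-!
# Typed substitutions of words: the invariant is preserved

* **`Good.loc`**: what is known about long windows;
* `NoEv`: no event and no forbidden pattern between two child letters;
* **`good_sub`**: the child of a good typed word is good, if `NoEv` holds inside a block (`hB`), for two
  blocks at a distance `≤ 2 m` (`hS`), and for long windows (`hN`);
* `iterW`, `iterT`, **`good_iter`**: all iterates.
-/

namespace LWG

open LevelWords

/-! ### shifts -/

theorem agr_shift {F : ℤ → ℤ} {a : ℤ} : ∀ (v : List ℤ) (e : ℤ), Agr (fun y => F (a + y)) e v →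
    Agr F (a + e) v
  | [], _, _ => trivial
  | _ :: v, e, h => ⟨h.1, by
      have := agr_shift v (e + 1) h.2
      rwa [← add_assoc] at this⟩

theorem ev1_of {F : ℤ → ℤ} {a A B : ℤ} (h : Ev1 (a + A) (a + B) F) :
    Ev1 A B fun y => F (a + y) := by
  rcases h with ⟨h1, h2⟩ | ⟨h1, h2⟩
  · exact Or.inl ⟨by omega, fun w h3 h4 => h2 _ (by omega) (by omega)⟩
  · exact Or.inr ⟨by omega, fun w h3 h4 => h2 _ (by omega) (by omega)⟩

theorem ev2_of {F : ℤ → ℤ} {a A B : ℤ} (h : Ev2 (a + A) (a + B) F) :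
    Ev2 A B fun y => F (a + y) := by
  obtain ⟨h1, h2, y, h3, h4, h5⟩ := h
  refine ⟨by omega, h2, y - a, by omega, ?_, fun z hz => h5 _ (by omega)⟩
  simpa only [add_sub_cancel] using h4

theorem ev3_of {F : ℤ → ℤ} {a A B : ℤ} (h : Ev3 (a + A) (a + B) F) :
    Ev3 A B fun y => F (a + y) := by
  obtain ⟨h1, h2, y, h3, h4, h5⟩ := h
  refine ⟨by omega, ?_, y - a, by omega, ?_, fun z hz => h5 _ (by omega)⟩
  · simp only
    rwa [show a + (A - 1) = a + A - 1 by ring]
  · simpa only [add_sub_cancel] using h4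

/-! ### windows with letters added or removed -/

section win

variable {S : Tab} {W : ℤ → ℤ} {ty : ℤ → ℕ}

theorem posR_eq (h : S.Path W ty) (t : ℤ) : ∀ j : ℕ, j ≤ S.m → W (t + j) = W t + S.posR (ty t) j
  | 0, _ => by simp [Tab.posR]
  | j + 1, hj => by
    have h1 := posR_eq h t j (by omega)
    have h2 := h.step t j (by omega) (by omega)
    rw [Tab.posR, show (t + ((j + 1 : ℕ) : ℤ)) = t + j + 1 by push_cast; ring, h2, h1]
    ring

theorem posL_eq (h : S.Path W ty) (t : ℤ) : ∀ j : ℕ, j ≤ S.m → W (t - j) = W t + S.posL (ty t) j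
  | 0, _ => by simp [Tab.posL]
  | j + 1, hj => by
    have h1 := posL_eq h t j (by omega)
    have h2 := h.step t (-((j + 1 : ℕ) : ℤ)) (by omega) (by omega)
    rw [show t + -((j + 1 : ℕ) : ℤ) + 1 = t - j by push_cast; ring] at h2
    rw [Tab.posL, show (t - ((j + 1 : ℕ) : ℤ)) = t + -((j + 1 : ℕ) : ℤ) by ring]
    linarith

theorem dls_zero (p : ℕ → ℤ) (y : ℤ) : Tab.dls p 0 y = 0 := by simp [Tab.dls]

theorem dls_succ (p : ℕ → ℤ) (k : ℕ) (y : ℤ) : Tab.dls p (k + 1) y = Tab.dls p k y + dl (p k) y := by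
  simp [Tab.dls, List.range_succ]

theorem dl_at (a o y : ℤ) : dl (a + o) (a + y) = dl o y := by
  rw [dl_shift, show a + y - a = y by ring]

/-- letters added before the window -/
theorem E_addL (h : S.Path W ty) (s b y : ℤ) : ∀ k : ℕ, k ≤ S.m + 1 →
    E W (s + 1 - k) b (W s + y) = E W (s + 1) b (W s + y) + Tab.dls (S.posL (ty s)) k y
  | 0, _ => by simp [dls_zero]
  | k + 1, hk => by
    have h1 := E_addL h s b y k (by omega)
    have h2 := posL_eq h s k (by omega)
    rw [show s + 1 - ((k + 1 : ℕ) : ℤ) = s - k by push_cast; ring, E_left,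
      show s - (k : ℤ) + 1 = s + 1 - k by ring, h1, h2, dl_at, dls_succ]
    ring

/-- letters removed at the start of the window -/
theorem E_remL (h : S.Path W ty) (s b y : ℤ) : ∀ k : ℕ, k ≤ S.m →
    E W (s + 1 + k) b (W s + y) = E W (s + 1) b (W s + y) -
      Tab.dls (fun j => S.posR (ty s) (j + 1)) k y
  | 0, _ => by simp [dls_zero]
  | k + 1, hk => by
    have h1 := E_remL h s b y k (by omega)
    have h2 := posR_eq h s (k + 1) (by omega)
    have h3 := E_left W (s + 1 + k) b (W s + y)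
    rw [show s + 1 + (k : ℤ) = s + ((k + 1 : ℕ) : ℤ) by push_cast; ring, h2, dl_at] at h3
    rw [show s + 1 + (k : ℤ) = s + ((k + 1 : ℕ) : ℤ) by push_cast; ring] at h1
    rw [show s + 1 + ((k + 1 : ℕ) : ℤ) = s + ((k + 1 : ℕ) : ℤ) + 1 by ring, dls_succ]
    linarith

/-- letters added after the window -/
theorem E_addR (h : S.Path W ty) (a s e y : ℤ) : ∀ k : ℕ, k ≤ S.m + 1 →
    E W a (e + k) (W s + y) = E W a e (W s + y) +
      Tab.dls (fun j => W e - W s + S.posR (ty e) j) k y
  | 0, _ => by simp [dls_zero]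
  | k + 1, hk => by
    have h1 := E_addR h a s e y k (by omega)
    have h2 := posR_eq h e k (by omega)
    rw [show e + ((k + 1 : ℕ) : ℤ) = e + k + 1 by push_cast; ring, E_right, h1, h2, dls_succ]
    have h3 := dl_at (W s) (W e - W s + S.posR (ty e) k) y
    rw [show W s + (W e - W s + S.posR (ty e) k) = W e + S.posR (ty e) k by ring] at h3
    rw [h3]
    ring

/-- letters removed at the end of the window -/
theorem E_remR (h : S.Path W ty) (a s e y : ℤ) : ∀ k : ℕ, k ≤ S.m →
    E W a (e - k) (W s + y) = E W a e (W s + y) -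
      Tab.dls (fun j => W e - W s + S.posL (ty e) (j + 1)) k y
  | 0, _ => by simp [dls_zero]
  | k + 1, hk => by
    have h1 := E_remR h a s e y k (by omega)
    have h2 := posL_eq h e (k + 1) (by omega)
    have h3 := E_right W a (e - ((k + 1 : ℕ) : ℤ)) (W s + y)
    have h4 := dl_at (W s) (W e - W s + S.posL (ty e) (k + 1)) y
    rw [show W s + (W e - W s + S.posL (ty e) (k + 1)) = W e + S.posL (ty e) (k + 1) by ring] at h4
    rw [h2, h4, show e - ((k + 1 : ℕ) : ℤ) + 1 = e - k by push_cast; ring] at h3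
    rw [dls_succ]
    linarith

end win

/-- **long windows of a good word** -/
theorem Good.loc {S : Tab} {pats : ℕ → ℕ → List Pat} {W : ℤ → ℤ} {ty : ℤ → ℕ}
    (h : Good S pats W ty) {s e : ℤ} (hse : s + 2 * S.m + 1 ≤ e) :
    S.Loc pats (ty s) (ty e) (W e - W s) (Lw W s e) where
  pat P hP hd := h.pat s e (by omega) P hP hd
  adm l hl r hr := by
    have hL : ∃ a ≤ s + 1 + S.m, ∀ b y, E W a b (W s + y) = E W (s + 1) b (W s + y) + l y := by
      unfold Tab.lops at hl
      rw [List.mem_append, List.mem_map, List.mem_map] at hl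
      rcases hl with ⟨k, hk, rfl⟩ | ⟨k, hk, rfl⟩
      · rw [List.mem_range] at hk
        exact ⟨s + 1 - k, by omega, fun b y => E_addL h.path s b y k (by omega)⟩
      · rw [List.mem_range] at hk
        refine ⟨s + 1 + ((k + 1 : ℕ) : ℤ), by omega, fun b y => ?_⟩
        rw [E_remL h.path s b y (k + 1) (by omega)]
        ring
    have hR : ∃ b, e - S.m ≤ b ∧ ∀ a y, E W a b (W s + y) = E W a e (W s + y) + r y := by
      unfold Tab.rops at hr
      rw [List.mem_append, List.mem_map, List.mem_map] at hr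
      rcases hr with ⟨k, hk, rfl⟩ | ⟨k, hk, rfl⟩
      · rw [List.mem_range] at hk
        exact ⟨e + k, by omega, fun a y => E_addR h.path a s e y k (by omega)⟩
      · rw [List.mem_range] at hk
        refine ⟨e - ((k + 1 : ℕ) : ℤ), by omega, fun a y => ?_⟩
        rw [E_remR h.path a s e y (k + 1) (by omega)]
        ring
    obtain ⟨a, ha, hL⟩ := hL
    obtain ⟨b, hb, hR⟩ := hR
    have hU := h.uni a b (by omega)
    intro x y hxy
    have := hU (W s + x) (W s + y) (by omega)
    rw [hR, hR, hL, hL] at this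
    unfold Lw
    simp only
    rw [← add_assoc, ← add_assoc]
    exact this

/-- No event and no forbidden pattern between two letters of the types `c`, `c'`, at the positions
`A`, `B`; `F` are the differences of the letters strictly between. -/
structure NoEv (pats : ℕ → ℕ → List Pat) (c c' : ℕ) (A B : ℤ) (F : ℤ → ℤ) : Prop where
  e1 : ¬ Ev1 A B F
  e2 : ¬ Ev2 A B F
  e3 : ¬ Ev3 A B F
  pat : ∀ P ∈ pats c c', P.d = B - A → ¬ Agr F (A + P.e) P.v

section close

variable {S : Tab} {pats : ℕ → ℕ → List Pat}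

/-- **the invariant is preserved** -/
theorem good_sub (K : S.OK)
    (hB : ∀ c < S.T, ∀ i j, i < j → j < S.L →
      NoEv pats (S.chd c i) (S.chd c j) (S.off c i) (S.off c j) (S.part c (i + 1) j))
    (hS : ∀ W ty, S.Path W ty → ∀ s e : ℤ, s < e → e ≤ s + 2 * S.m → ∀ i < S.L, ∀ j < S.L,
      NoEv pats (S.chd (ty s) i) (S.chd (ty e) j) (S.off (ty s) i)
        (S.b * (W e - W s) + S.off (ty e) j) (S.Fn (ty s) i (ty e) j (W e - W s) (Lw W s e)))
    (hN : ∀ c < S.T, ∀ c' < S.T, ∀ d D, S.Loc pats c c' d D → ∀ i < S.L, ∀ j < S.L,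
      NoEv pats (S.chd c i) (S.chd c' j) (S.off c i) (S.b * d + S.off c' j) (S.Fn c i c' j d D))
    {W : ℤ → ℤ} {ty : ℤ → ℕ} (h : Good S pats W ty) :
    Good S pats (S.subW W ty) (S.subT ty) := by
  have key : ∀ s' e' : ℤ, s' < e' → ∃ (a A B : ℤ) (F : ℤ → ℤ),
      S.subW W ty s' = a + A ∧ S.subW W ty e' = a + B ∧
      (∀ y, E (S.subW W ty) (s' + 1) e' (a + y) = F y) ∧
      NoEv pats (S.subT ty s') (S.subT ty e') A B F := by
    intro s' e' hse'
    obtain ⟨s, i, hi, rfl⟩ := Tab.exists_pr K.L0 s'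
    obtain ⟨e, j, hj, rfl⟩ := Tab.exists_pr K.L0 e'
    have hL0 : (0 : ℤ) < S.L := by exact_mod_cast K.L0
    have hse : s ≤ e := by
      by_contra hc
      have h1 : e + 1 ≤ s := by omega
      have h2 : (S.L : ℤ) * (e + 1) ≤ S.L * s := mul_le_mul_of_nonneg_left h1 hL0.le
      have h3 : (S.L : ℤ) * (e + 1) = S.L * e + S.L := by ring
      omega
    rw [Tab.subT_eq ty s hi, Tab.subT_eq ty e hj]
    rcases eq_or_lt_of_le hse with h1 | h1
    · subst h1
      have hij : i < j := by omega
      refine ⟨S.b * W s, S.off (ty s) i, S.off (ty s) j, _, Tab.subW_eq W ty s hi,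
        Tab.subW_eq W ty s hj, fun y => ?_, hB _ (h.path.lt s) i j hij hj⟩
      rw [Tab.E_same s _ hij hj.le]
      congr 1
      ring
    · refine ⟨S.b * W s, S.off (ty s) i, S.b * (W e - W s) + S.off (ty e) j,
        S.Fn (ty s) i (ty e) j (W e - W s) (Lw W s e), Tab.subW_eq W ty s hi, ?_, fun y => ?_, ?_⟩
      · rw [Tab.subW_eq W ty e hj]
        ring
      · rw [K.E_window h.path.lt s e _ hi hj.le, Tab.comb_shift K.b0]
        unfold Tab.Fn
        rw [show S.b * W s + y - S.b * W s = y by ring,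
          show S.b * W s + y - S.b * W e = y - S.b * (W e - W s) by ring]
        rfl
      · rcases le_or_gt e (s + 2 * S.m) with h2 | h2
        · exact hS W ty h.path s e h1 h2 i hi j hj
        · exact hN _ (h.path.lt s) _ (h.path.lt e) _ _ (h.loc (by omega)) i hi j hj
  refine ⟨K.path h.path, ?_, ?_⟩
  · intro a b hab
    refine uni_all (fun s e hse hE => ?_) (fun s e hse hE => ?_) (fun s e hse hE => ?_)
      (b - a).toNat a b (by omega)
    · obtain ⟨a, A, B, F, h1, h2, h3, h4⟩ := key s e hse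
      rw [h1, h2] at hE
      refine h4.e1 ?_
      rw [show F = fun y => O (S.subW W ty) s e (a + y) from funext fun y => (h3 y).symm]
      exact ev1_of hE
    · obtain ⟨a, A, B, F, h1, h2, h3, h4⟩ := key s e hse
      rw [h1, h2] at hE
      refine h4.e2 ?_
      rw [show F = fun y => O (S.subW W ty) s e (a + y) from funext fun y => (h3 y).symm]
      exact ev2_of hE
    · obtain ⟨a, A, B, F, h1, h2, h3, h4⟩ := key s e hse
      rw [h1, h2] at hE
      refine h4.e3 ?_
      rw [show F = fun y => O (S.subW W ty) s e (a + y) from funext fun y => (h3 y).symm]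
      exact ev3_of hE
  · intro s e hse P hP hd hA
    obtain ⟨a, A, B, F, h1, h2, h3, h4⟩ := key s e hse
    refine h4.pat P hP (by rw [hd, h1, h2]; ring) (agr_shift _ _ ?_)
    have h5 : (fun y => F (A + y)) = Lw (S.subW W ty) s e := by
      funext y
      unfold Lw
      rw [h1, add_assoc, h3]
    rwa [h5]

/-- iterates of the substitution: the word -/
def iterW (S : Tab) (W : ℤ → ℤ) (ty : ℤ → ℕ) : ℕ → (ℤ → ℤ) × (ℤ → ℕ)
  | 0 => (W, ty)
  | k + 1 => (S.subW (iterW S W ty k).1 (iterW S W ty k).2, S.subT (iterW S W ty k).2)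

theorem good_iter {W : ℤ → ℤ} {ty : ℤ → ℕ}
    (hs : ∀ W ty, Good S pats W ty → Good S pats (S.subW W ty) (S.subT ty))
    (h : Good S pats W ty) : ∀ k, Good S pats (iterW S W ty k).1 (iterW S W ty k).2
  | 0 => h
  | k + 1 => hs _ _ (good_iter hs h k)

end close

end LWG
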