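import Pool.Agent.LWG.Defs

/-!
# Substitution words: a window with explicit differences

`okW` is an exact test for the three minimal violations of unimodality and for the forbidden
patterns, for differences which vanish outside `[-Z, Z]`; **`okW_sound`**.
-/

set_option autoImplicit false

namespace LWG

open LevelWords

/-- value at the edge `z` of a vector on the edges `z0, z0 + 1, ...` -/
def nzv (z0 : ℤ) (v : List ℤ) (z : ℤ) : ℤ := if z < z0 then .ofNat 0 else v.getD (z - z0).toNat (.ofNat 0)

/-- some value on `g, ..., g + n - 1` is not zero -/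
def nonz (F : ℤ → ℤ) : ℕ → ℤ → Bool
  | 0, _ => false
  | n + 1, g => decide (F g ≠ .ofNat 0) || nonz F n (g + 1)

/-- the values `vs` do not occur at `g, ...` -/
def difl (F : ℤ → ℤ) : ℤ → List ℤ → Bool
  | _, [] => false
  | g, v :: vs => decide (F g ≠ v) || difl F (g + 1) vs

/-- upwards from `g`, `n` values: a positive value right of `A` before any negative one -/
def scanU (F : ℤ → ℤ) (A : ℤ) : ℕ → ℤ → Bool
  | 0, _ => false
  | n + 1, g => if F g < .ofNat 0 then false else
      if A < g ∧ .ofNat 0 < F g then true else scanU F A n (g + 1)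

/-- downwards from `g`, `n` values: a negative value left of `A - 1` before any positive one -/
def scanD (F : ℤ → ℤ) (A : ℤ) : ℕ → ℤ → Bool
  | 0, _ => false
  | n + 1, g => if .ofNat 0 < F g then false else
      if g + 1 < A ∧ F g < .ofNat 0 then true else scanD F A n (g - 1)

/-- no event and no pattern in the window with end letters `A`, `B` and differences `F` -/
def okW (A B : ℤ) (Z : ℕ) (ps : List Pat) (F : ℤ → ℤ) : Bool :=
  (if A + 1 < B then nonz F (B - A).toNat A
    else if B + 1 < A then nonz F (A - B).toNat B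
    else if B = A then (decide (F A ≠ .ofNat 1) || !scanU F A (2 * Z + 1) (-Z)) &&
      (decide (F (A - 1) ≠ .negSucc 0) || !scanD F A (2 * Z + 1) Z)
    else true) &&
  ps.all fun P => decide (P.d ≠ B - A) || difl F (A + P.e) P.v

theorem nonz_sound {F : ℤ → ℤ} : ∀ (n : ℕ) (g : ℤ), nonz F n g = true →
    ∃ w, g ≤ w ∧ w < g + n ∧ F w ≠ 0
  | 0, _, h => by simp [nonz] at h
  | n + 1, g, h => by
    unfold nonz at h
    rw [Bool.or_eq_true, decide_eq_true_eq] at h
    rcases h with h | h
    · exact ⟨g, le_rfl, by push_cast; omega, h⟩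
    · obtain ⟨w, h1, h2, h3⟩ := nonz_sound n (g + 1) h
      exact ⟨w, by omega, by push_cast; omega, h3⟩

theorem difl_sound {F : ℤ → ℤ} : ∀ (vs : List ℤ) (g : ℤ), difl F g vs = true → ¬ Agr F g vs
  | [], _, h => by simp [difl] at h
  | v :: vs, g, h => by
    unfold difl at h
    rw [Bool.or_eq_true, decide_eq_true_eq] at h
    intro hA
    rcases h with h | h
    · exact h hA.1
    · exact difl_sound vs (g + 1) h hA.2

theorem scanU_true {F : ℤ → ℤ} {A : ℤ} : ∀ (n : ℕ) (g y : ℤ), g ≤ y → y < g + n → A < y → 0 < F y →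
    (∀ z, g ≤ z → z < y → 0 ≤ F z) → scanU F A n g = true
  | 0, g, y, h1, h2, _, _, _ => by push_cast at h2; omega
  | n + 1, g, y, h1, h2, h3, h4, h5 => by
    have hg : ¬ F g < 0 := by
      rcases eq_or_lt_of_le h1 with e | e
      · rw [e]; omega
      · have := h5 g le_rfl e
        omega
    have hg' : ¬ F g < .ofNat 0 := hg
    unfold scanU
    rw [if_neg hg']
    split_ifs with h6
    · rfl
    · have h6' : ¬ (A < g ∧ 0 < F g) := h6
      rcases eq_or_lt_of_le h1 with e | e
      · exact absurd ⟨e ▸ h3, e ▸ h4⟩ h6'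
      · exact scanU_true n (g + 1) y (by omega) (by push_cast at h2; omega) h3 h4
          fun z hz hzy => h5 z (by omega) hzy

theorem scanD_true {F : ℤ → ℤ} {A : ℤ} : ∀ (n : ℕ) (g y : ℤ), y ≤ g → g - n < y → y < A - 1 →
    F y < 0 → (∀ z, z ≤ g → y < z → F z ≤ 0) → scanD F A n g = true
  | 0, g, y, h1, h2, _, _, _ => by push_cast at h2; omega
  | n + 1, g, y, h1, h2, h3, h4, h5 => by
    have hg : ¬ 0 < F g := by
      rcases eq_or_lt_of_le h1 with e | e
      · rw [← e]; omega
      · have := h5 g le_rfl e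
        omega
    have hg' : ¬ .ofNat 0 < F g := hg
    unfold scanD
    rw [if_neg hg']
    split_ifs with h6
    · rfl
    · have h6' : ¬ (g + 1 < A ∧ F g < 0) := h6
      rcases eq_or_lt_of_le h1 with e | e
      · exact absurd ⟨by omega, e ▸ h4⟩ h6'
      · exact scanD_true n (g - 1) y (by omega) (by push_cast at h2; omega) h3 h4
          fun z hz hzy => h5 z (by omega) hzy

/-- what has to be shown for a window -/
structure OkF (A B : ℤ) (ps : List Pat) (F : ℤ → ℤ) : Prop where
  e1 : ¬ Ev1 A B F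
  e2 : ¬ Ev2 A B F
  e3 : ¬ Ev3 A B F
  pat : ∀ P ∈ ps, P.d = B - A → ¬ Agr F (A + P.e) P.v

theorem okW_sound {A B : ℤ} {Z : ℕ} {ps : List Pat} {F : ℤ → ℤ} (h : okW A B Z ps F = true)
    (hF : ∀ z, z < -(Z : ℤ) ∨ (Z : ℤ) < z → F z = 0) : OkF A B ps F := by
  unfold okW at h
  rw [Bool.and_eq_true, List.all_eq_true] at h
  obtain ⟨h1, h2⟩ := h
  have hP : ∀ P ∈ ps, P.d = B - A → ¬ Agr F (A + P.e) P.v := fun P hP hd => by
    have := h2 P hP
    rw [Bool.or_eq_true, decide_eq_true_eq] at this
    rcases this with h | h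
    · exact absurd hd h
    · exact difl_sound _ _ h
  refine ⟨?_, ?_, ?_, hP⟩
  · rintro (⟨h3, h4⟩ | ⟨h3, h4⟩)
    · rw [if_pos (by omega)] at h1
      obtain ⟨w, k1, k2, k3⟩ := nonz_sound _ _ h1
      exact k3 (h4 w k1 (by omega))
    · rw [if_neg (by omega), if_pos (by omega)] at h1
      obtain ⟨w, k1, k2, k3⟩ := nonz_sound _ _ h1
      exact k3 (h4 w k1 (by omega))
  · rintro ⟨h3, h4, y, h5, h6, h7⟩
    rw [if_neg (by omega), if_neg (by omega), if_pos h3, Bool.and_eq_true, Bool.or_eq_true,
      decide_eq_true_eq] at h1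
    have hy : ¬ (y < -(Z : ℤ) ∨ (Z : ℤ) < y) := fun e => by
      rw [hF y e] at h6
      omega
    rcases h1.1 with k | k
    · exact k h4
    · rw [scanU_true (2 * Z + 1) (-Z) y (by omega) (by push_cast; omega) h5 h6
        fun z _ hz => h7 z hz] at k
      simp at k
  · rintro ⟨h3, h4, y, h5, h6, h7⟩
    rw [if_neg (by omega), if_neg (by omega), if_pos h3, Bool.and_eq_true, Bool.or_eq_true,
      Bool.or_eq_true, decide_eq_true_eq] at h1
    have hy : ¬ (y < -(Z : ℤ) ∨ (Z : ℤ) < y) := fun e => by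
      rw [hF y e] at h6
      omega
    rcases h1.2 with k | k
    · rw [decide_eq_true_eq] at k
      exact k h4
    · rw [scanD_true (2 * Z + 1) Z y (by omega) (by push_cast; omega) h5 h6
        fun z _ hz => h7 z hz] at k
      simp at k

end LWG
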