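import Mathlib.Data.List.GetD
import Pool.Agent.LWG.Close
import Pool.Agent.LWG.OkW

/-!
# Substitution words: short windows

Windows from a block to a later one, with less than `2 m` coarse letters between the two blocks:
the typed paths are enumerated, the differences are explicit. **`short_sound`**, and **`hS_of`**: the
hypothesis `hS` of `good_sub`.
-/

set_option autoImplicit false

namespace LWG

open LevelWords

/-- A half block: offset and type of a letter, differences of the letters after it, resp. before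
it, on the edges `z0, z0 + 1, ...`. -/
structure Half where
  o : ℤ
  t : ℕ
  v : List ℤ

namespace Tab

variable (S : Tab)

/-- all typed paths with `k` steps from a letter of type `c` at `x`; `ps` lists the positions of the
letters after the first one, up to this one -/
def walks (chk : ℕ → ℤ → List ℤ → Bool) : ℕ → ℕ → ℤ → List ℤ → Bool
  | 0, _, _, _ => true
  | k + 1, c, x, ps => (S.nxt c).all fun c' => chk c' (x + S.step c 0) ps &&
      walks chk k c' (x + S.step c 0) ((x + S.step c 0) :: ps)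

/-- differences of explicit letters -/
def dps (ps : List ℤ) (y : ℤ) : ℤ := (ps.map fun p => dl p y).sum

/-- the refined differences of explicit letters, on the edges `-Z, ..., Z` -/
def cvec (Z : ℕ) (ps : List ℤ) : List ℤ := (List.range (2 * Z + 1)).map fun (k : ℕ) => S.comb (dps ps) (-Z + k)

/-- everything happens in `[-Z, Z]` -/
def inZ (z0 : ℤ) (wl Z : ℕ) (d : ℤ) (ps : List ℤ) : Bool :=
  decide (-(Z : ℤ) ≤ z0) && decide (z0 + wl ≤ Z + 1) && decide (-(Z : ℤ) ≤ S.b * d + z0) &&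
    decide (S.b * d + z0 + wl ≤ Z + 1) &&
    ps.all fun p => decide (-(Z : ℤ) ≤ S.b * (p - 1) + S.e0) && decide (S.b * p + S.e0 + S.e.length ≤ Z + 1)

/-- the windows between two blocks with the explicit letters `ps` between them -/
def chkTwo (pats : ℕ → ℕ → List Pat) (z0 : ℤ) (wl Z : ℕ) (A B : List Half) (d : ℤ) (ps : List ℤ)
    (cv : List ℤ) : Bool :=
  S.inZ z0 wl Z d ps && A.all fun a => B.all fun h =>
    okW a.o (S.b * d + h.o) Z (pats a.t h.t) fun z => nzv z0 a.v z + nzv (-Z) cv z + nzv z0 h.v (z - S.b * d)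

/-- short windows which begin in a block of type `c` -/
def chkShort (pats : ℕ → ℕ → List Pat) (z0 : ℤ) (wl Z : ℕ) (SA SB : ℕ → List Half) (c : ℕ) : Bool :=
  S.walks (fun c' d ps => S.chkTwo pats z0 wl Z (SA c) (SB c') d ps (S.cvec Z ps)) (2 * S.m) c 0 []

/-- the half blocks after the letters of a block of type `c` -/
def halfA (z0 : ℤ) (wl : ℕ) (c : ℕ) : List Half := (List.range S.L).map fun i =>
  ⟨S.off c i, S.chd c i, (List.range wl).map fun (k : ℕ) => S.part c (i + 1) S.L (z0 + k)⟩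

/-- the half blocks before the letters of a block of type `c` -/
def halfB (z0 : ℤ) (wl : ℕ) (c : ℕ) : List Half := (List.range S.L).map fun j =>
  ⟨S.off c j, S.chd c j, (List.range wl).map fun (k : ℕ) => S.part c 0 j (z0 + k)⟩

/-- the vectors of the half blocks are long enough -/
def chkOff (z0 : ℤ) (wl : ℕ) (c : ℕ) : Bool := (List.range S.L).all fun i =>
  decide (z0 + 1 ≤ S.off c i) && decide (S.off c i < z0 + wl)

variable {S}

theorem dps_zero {ps : List ℤ} {y : ℤ} (h : ∀ p ∈ ps, y ≠ p - 1 ∧ y ≠ p) : dps ps y = 0 := by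
  unfold dps
  refine List.sum_eq_zero fun x hx => ?_
  rw [List.mem_map] at hx
  obtain ⟨p, hp, rfl⟩ := hx
  have := h p hp
  rcases dl_cases p y with k | k | k <;> omega

theorem part_out {z0 : ℤ} {wl : ℕ} {c : ℕ} (h : S.chkOff z0 wl c = true) {i j : ℕ} (hj : j ≤ S.L)
    {y : ℤ} (hy : y < z0 ∨ z0 + wl ≤ y) : S.part c i j y = 0 := by
  unfold part
  refine List.sum_eq_zero fun x hx => ?_
  rw [List.mem_map] at hx
  obtain ⟨r, hr, rfl⟩ := hx
  rw [List.mem_range] at hr
  unfold chkOff at h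
  rw [List.all_eq_true] at h
  have := h (i + r) (List.mem_range.2 (by omega))
  rw [Bool.and_eq_true, decide_eq_true_eq, decide_eq_true_eq] at this
  rcases dl_cases (S.off c (i + r)) y with k | k | k <;> omega

theorem nzv_map {z0 : ℤ} {wl : ℕ} {f : ℤ → ℤ} (hf : ∀ y, y < z0 ∨ z0 + wl ≤ y → f y = 0) (z : ℤ) :
    nzv z0 ((List.range wl).map fun (k : ℕ) => f (z0 + k)) z = f z := by
  unfold nzv
  split_ifs with h
  · rw [hf z (Or.inl h)]
    rfl
  · rcases lt_or_ge z (z0 + wl) with h1 | h1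
    · have h2 : (z - z0).toNat < wl := by omega
      rw [List.getD_eq_getElem _ _ (by rw [List.length_map, List.length_range]; exact h2),
        List.getElem_map, List.getElem_range]
      congr 1
      omega
    · rw [hf z (Or.inr h1), List.getD_eq_default _ _ (by rw [List.length_map, List.length_range]; omega)]
      rfl

theorem comb_zero' {D : ℤ → ℤ} {g : ℤ} (h : ∀ y k : ℤ, 0 ≤ k → k < S.e.length →
    g = S.b * y + S.e0 + k → D y = 0) : S.comb D g = 0 := by
  unfold comb
  refine List.sum_eq_zero fun x hx => ?_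
  rw [List.mem_map] at hx
  obtain ⟨k, hk, rfl⟩ := hx
  rw [List.mem_range] at hk
  split_ifs with h1
  · rw [h ((g - S.e0 - k) / S.b) k (by omega) (by exact_mod_cast hk) ?_, mul_zero]
    have := Int.emod_add_mul_ediv (g - S.e0 - k) S.b
    rw [h1, zero_add] at this
    omega
  · rfl

theorem walks_sound {chk : ℕ → ℤ → List ℤ → Bool} {W : ℤ → ℤ} {ty : ℤ → ℕ} (hm : 1 ≤ S.m)
    (hP : S.Path W ty) (s : ℤ) : ∀ (k : ℕ) (r : ℕ) (ps : List ℤ),
    S.walks chk k (ty (s + r)) (W (s + r) - W s) ps = true →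
    (∀ y, E W (s + 1) (s + r + 1) (W s + y) = dps ps y) → ∀ n : ℕ, r < n → n ≤ r + k →
    ∃ qs, (∀ y, Lw W s (s + n) y = dps qs y) ∧ chk (ty (s + n)) (W (s + n) - W s) qs = true
  | 0, r, ps, _, _, n, h1, h2 => by omega
  | k + 1, r, ps, h, hE, n, h1, h2 => by
    unfold walks at h
    rw [List.all_eq_true] at h
    have h3 := h _ (hP.nxt (s + r))
    have h4 := hP.step (s + r) 0 (by omega) (by exact_mod_cast hm)
    rw [add_zero] at h4
    have h5 : W (s + r) - W s + S.step (ty (s + r)) 0 = W (s + r + 1) - W s := by rw [h4]; ring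
    rw [h5, Bool.and_eq_true] at h3
    rcases eq_or_lt_of_le (show r + 1 ≤ n by omega) with e | e
    · subst e
      refine ⟨ps, fun y => ?_, ?_⟩
      · unfold Lw
        rw [show s + ((r + 1 : ℕ) : ℤ) = s + r + 1 by push_cast; ring]
        exact hE y
      · rw [show s + ((r + 1 : ℕ) : ℤ) = s + r + 1 by push_cast; ring]
        exact h3.1
    · have e1 : s + ((r + 1 : ℕ) : ℤ) = s + r + 1 := by push_cast; ring
      refine walks_sound hm hP s k (r + 1) ((W (s + r + 1) - W s) :: ps) ?_ (fun y => ?_) n e (by omega)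
      · rw [e1]
        exact h3.2
      · rw [e1, E_right, hE y]
        unfold dps
        rw [List.map_cons, List.sum_cons, show dl (W (s + r + 1)) (W s + y) = dl (W (s + r + 1) - W s) y by
          have := dl_shift (W s) (W (s + r + 1) - W s) (W s + y)
          rw [show W s + (W (s + r + 1) - W s) = W (s + r + 1) by ring, add_sub_cancel_left] at this
          exact this]
        ring

/-- every half block of the first list occurs in the second one -/
def subH (A B : List Half) : Bool := A.all fun h => B.any fun g =>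
  decide (g.o = h.o) && decide (g.t = h.t) && decide (g.v = h.v)

theorem subH_sound {A B : List Half} (h : subH A B = true) {a : Half} (ha : a ∈ A) : a ∈ B := by
  unfold subH at h
  rw [List.all_eq_true] at h
  have := h a ha
  rw [List.any_eq_true] at this
  obtain ⟨g, hg, h1⟩ := this
  simp only [Bool.and_eq_true, decide_eq_true_eq] at h1
  obtain ⟨⟨h1, h2⟩, h3⟩ := h1
  obtain ⟨o, t, v⟩ := a
  obtain ⟨o', t', v'⟩ := g
  simp only at h1 h2 h3
  subst h1 h2 h3
  exact hg

theorem two_sound {pats : ℕ → ℕ → List Pat} {z0 : ℤ} {wl Z : ℕ} (hb : 0 < S.b) {c c' : ℕ}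
    (hc : S.chkOff z0 wl c = true) (hc' : S.chkOff z0 wl c' = true) {A B : List Half}
    (hA : subH (S.halfA z0 wl c) A = true) (hB : subH (S.halfB z0 wl c') B = true) {d : ℤ}
    {ps : List ℤ} (h : S.chkTwo pats z0 wl Z A B d ps (S.cvec Z ps) = true) {i j : ℕ}
    (hi : i < S.L) (hj : j < S.L) :
    OkF (S.off c i) (S.b * d + S.off c' j) (pats (S.chd c i) (S.chd c' j))
      (S.Fn c i c' j d (dps ps)) := by
  unfold chkTwo at h
  rw [Bool.and_eq_true, List.all_eq_true] at h
  obtain ⟨hZ, h⟩ := h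
  have ha : (⟨S.off c i, S.chd c i, (List.range wl).map fun (k : ℕ) => S.part c (i + 1) S.L (z0 + k)⟩ : Half) ∈ A :=
    subH_sound hA (List.mem_map.2 ⟨i, List.mem_range.2 hi, rfl⟩)
  have hh : (⟨S.off c' j, S.chd c' j, (List.range wl).map fun (k : ℕ) => S.part c' 0 j (z0 + k)⟩ : Half) ∈ B :=
    subH_sound hB (List.mem_map.2 ⟨j, List.mem_range.2 hj, rfl⟩)
  have h1 := h _ ha
  rw [List.all_eq_true] at h1
  have h2 := h1 _ hh
  unfold inZ at hZ
  simp only [Bool.and_eq_true, decide_eq_true_eq, List.all_eq_true] at hZ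
  obtain ⟨⟨⟨⟨z1, z2⟩, z3⟩, z4⟩, z5⟩ := hZ
  have pA : ∀ y, y < z0 ∨ z0 + wl ≤ y → S.part c (i + 1) S.L y = 0 := fun y hy => part_out hc le_rfl hy
  have pB : ∀ y, y < z0 ∨ z0 + wl ≤ y → S.part c' 0 j y = 0 := fun y hy => part_out hc' hj.le hy
  have pC : ∀ g, g < -(Z : ℤ) ∨ -(Z : ℤ) + (2 * Z + 1 : ℕ) ≤ g → S.comb (dps ps) g = 0 := by
    intro g hg
    refine comb_zero' fun y k hk0 hk1 hgy => dps_zero fun p hp => ?_
    obtain ⟨q1, q2⟩ := z5 p hp
    push_cast at hg
    refine ⟨fun e => ?_, fun e => ?_⟩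
    · subst e
      have : (S.b : ℤ) * p = S.b * (p - 1) + S.b := by ring
      omega
    · subst e
      have : (S.b : ℤ) * y = S.b * (y - 1) + S.b := by ring
      omega
  have hF : (fun z => nzv z0 ((List.range wl).map fun (k : ℕ) => S.part c (i + 1) S.L (z0 + k)) z +
      nzv (-Z) (S.cvec Z ps) z +
      nzv z0 ((List.range wl).map fun (k : ℕ) => S.part c' 0 j (z0 + k)) (z - S.b * d)) =
      S.Fn c i c' j d (dps ps) := by
    funext z
    unfold Fn cvec
    rw [nzv_map pA, nzv_map (f := S.comb (dps ps)) pC, nzv_map pB]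
  rw [hF] at h2
  refine okW_sound h2 fun z hz => ?_
  unfold Fn
  rw [pA z (by omega), pC z (by push_cast; omega), pB (z - S.b * d) (by omega)]
  rfl

/-- **Short windows.** -/
theorem short_sound {pats : ℕ → ℕ → List Pat} {z0 : ℤ} {wl Z : ℕ} {SA SB : ℕ → List Half}
    (hm : 1 ≤ S.m) (hb : 0 < S.b) (hO : ∀ c < S.T, S.chkOff z0 wl c = true)
    (hA : ∀ c < S.T, subH (S.halfA z0 wl c) (SA c) = true)
    (hB : ∀ c < S.T, subH (S.halfB z0 wl c) (SB c) = true)
    (h : ∀ c < S.T, S.chkShort pats z0 wl Z SA SB c = true)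
    {W : ℤ → ℤ} {ty : ℤ → ℕ} (hP : S.Path W ty) {s e : ℤ} (hse : s < e) (he : e ≤ s + 2 * S.m)
    {i j : ℕ} (hi : i < S.L) (hj : j < S.L) :
    OkF (S.off (ty s) i) (S.b * (W e - W s) + S.off (ty e) j) (pats (S.chd (ty s) i) (S.chd (ty e) j))
      (S.Fn (ty s) i (ty e) j (W e - W s) (Lw W s e)) := by
  have h1 := h _ (hP.lt s)
  unfold chkShort at h1
  obtain ⟨n, hn, rfl⟩ : ∃ n : ℕ, 0 < n ∧ e = s + n := ⟨(e - s).toNat, by omega, by omega⟩
  obtain ⟨qs, h2, h3⟩ := walks_sound hm hP s (2 * S.m) 0 [] (by simpa using h1)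
    (fun y => by simp [E_self, dps]) n hn (by omega)
  have h4 : Lw W s (s + n) = dps qs := funext h2
  rw [h4]
  exact two_sound hb (hO _ (hP.lt _)) (hO _ (hP.lt _)) (hA _ (hP.lt _)) (hB _ (hP.lt _)) h3 hi hj

/-- **The hypothesis `hS` of `good_sub`.** -/
theorem hS_of {pats : ℕ → ℕ → List Pat} {z0 : ℤ} {wl Z : ℕ} {SA SB : ℕ → List Half}
    (hm : 1 ≤ S.m) (hb : 0 < S.b) (hO : ∀ c < S.T, S.chkOff z0 wl c = true)
    (hA : ∀ c < S.T, subH (S.halfA z0 wl c) (SA c) = true)
    (hB : ∀ c < S.T, subH (S.halfB z0 wl c) (SB c) = true)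
    (h : ∀ c < S.T, S.chkShort pats z0 wl Z SA SB c = true)
    (W : ℤ → ℤ) (ty : ℤ → ℕ) (hP : S.Path W ty) (s e : ℤ) (hse : s < e) (he : e ≤ s + 2 * S.m)
    (i : ℕ) (hi : i < S.L) (j : ℕ) (hj : j < S.L) :
    NoEv pats (S.chd (ty s) i) (S.chd (ty e) j) (S.off (ty s) i)
      (S.b * (W e - W s) + S.off (ty e) j) (S.Fn (ty s) i (ty e) j (W e - W s) (Lw W s e)) := by
  obtain ⟨h1, h2, h3, h4⟩ := short_sound hm hb hO hA hB h hP hse he hi hj
  exact ⟨h1, h2, h3, h4⟩

end Tab

end LWG
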