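import Pool.Agent.LWG.OkW

/-!
# Substitution words: the start word

A periodic typed word: windows of up to `Q + 1` periods are checked, longer ones follow because their
differences differ from the checked ones only where these are larger than all values of patterns.
**`good_start`**.
-/

set_option autoImplicit false

namespace LWG

open LevelWords

/-- the letter number `t` of the periodic word, with its type -/
def pw (l : List (ℤ × ℕ)) (t : ℤ) : ℤ × ℕ := l.getD (t % l.length).toNat (0, 0)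

/-- position -/
def pW (l : List (ℤ × ℕ)) (t : ℤ) : ℤ := (pw l t).1

/-- type -/
def pT (l : List (ℤ × ℕ)) (t : ℤ) : ℕ := (pw l t).2

/-- differences of the window of `n` letters beginning with the letter `a` -/
def Dn (l : List (ℤ × ℕ)) (a : ℤ) (n : ℕ) (x : ℤ) : ℤ :=
  ((List.range n).map fun (k : ℕ) => dl (pW l (a + k)) x).sum

/-- no negative value left of a positive one on `[-Z, Z]` -/
def uniZ (Z : ℕ) (F : ℤ → ℤ) : Bool := (List.range (2 * Z + 1)).all fun (i : ℕ) =>
  (List.range i).all fun (j : ℕ) => decide (0 ≤ F (-Z + j)) || decide (F (-Z + i) ≤ 0)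

/-- the letters, their types and steps -/
def chkSt1 (S : Tab) (l : List (ℤ × ℕ)) (Z : ℕ) : Bool := decide (0 < l.length) &&
  (List.range l.length).all fun (a : ℕ) => decide (-(Z : ℤ) + 1 ≤ pW l a) && decide (pW l a ≤ Z) &&
    decide (pT l a < S.T) && (S.nxt (pT l a)).contains (pT l (a + 1)) &&
    (List.range (2 * S.m)).all fun (j : ℕ) =>
      decide (pW l (a + (j - S.m) + 1) = pW l (a + (j - S.m)) + S.step (pT l a) (j - S.m))

/-- windows of less than `N` letters -/
def chkSt2 (pats : ℕ → ℕ → List Pat) (l : List (ℤ × ℕ)) (Z N : ℕ) : Bool :=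
  (List.range l.length).all fun (a : ℕ) => (List.range N).all fun (n : ℕ) =>
    uniZ Z (Dn l a n) && (pats (pT l a) (pT l (a + 1 + n))).all fun P =>
      decide (P.d ≠ pW l (a + 1 + n) - pW l a) || difl (fun y => Dn l (a + 1) n (pW l a + y)) P.e P.v

/-- the windows of `N, ..., N + p - 1` letters are typical -/
def chkSt3 (pats : ℕ → ℕ → List Pat) (l : List (ℤ × ℕ)) (Z N : ℕ) (B : ℤ) : Bool :=
  (List.range l.length).all fun (a : ℕ) => (List.range l.length).all fun (r : ℕ) =>
    ((List.range (2 * Z + 1)).all fun (i : ℕ) => decide (Dn l 0 l.length (-Z + i) = 0) ||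
      (decide (0 < Dn l 0 l.length (-Z + i)) && decide (B < Dn l a (N + r) (-Z + i))) ||
      (decide (Dn l 0 l.length (-Z + i) < 0) && decide (Dn l a (N + r) (-Z + i) < -B))) &&
    (pats (pT l a) (pT l (a + 1 + (N + r : ℕ)))).all fun P => P.v.all fun v =>
      decide (-B ≤ v) && decide (v ≤ B)

/-- all checks for the start word; `Q` periods -/
def chkStart (S : Tab) (pats : ℕ → ℕ → List Pat) (l : List (ℤ × ℕ)) (Z Q : ℕ) (B : ℤ) : Bool :=
  decide (0 ≤ B) && chkSt1 S l Z && chkSt2 pats l Z (Q * l.length + l.length) &&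
    chkSt3 pats l Z (Q * l.length) B

theorem E_sum (W : ℤ → ℤ) (a x : ℤ) : ∀ n : ℕ, E W a (a + n) x =
    ((List.range n).map fun (k : ℕ) => dl (W (a + k)) x).sum
  | 0 => by simp [E_self]
  | n + 1 => by
    rw [show a + ((n + 1 : ℕ) : ℤ) = a + n + 1 by push_cast; ring, E_right, E_sum W a x n,
      List.range_succ, List.map_append, List.sum_append, List.map_singleton, List.sum_singleton]

theorem E_Dn (l : List (ℤ × ℕ)) (a x : ℤ) (n : ℕ) : E (pW l) a (a + n) x = Dn l a n x := E_sum _ _ _ _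

theorem pw_per (l : List (ℤ × ℕ)) (t k : ℤ) : pw l (t + l.length * k) = pw l t := by
  unfold pw
  rw [Int.add_mul_emod_self_left]

theorem pW_per (l : List (ℤ × ℕ)) (t k : ℤ) : pW l (t + l.length * k) = pW l t := by
  unfold pW
  rw [pw_per]

theorem pT_per (l : List (ℤ × ℕ)) (t k : ℤ) : pT l (t + l.length * k) = pT l t := by
  unfold pT
  rw [pw_per]

/-- the differences over `k` periods -/
theorem C_per (l : List (ℤ × ℕ)) (x t k : ℤ) :
    C (pW l) x (t + l.length * k) = C (pW l) x t + k * Dn l 0 l.length x := by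
  have h1 : ∀ t : ℤ, C (pW l) x (t + l.length) - C (pW l) x t =
      C (pW l) x (0 + l.length) - C (pW l) x 0 := by
    have hs : ∀ t : ℤ, C (pW l) x (t + 1 + l.length) - C (pW l) x (t + 1) =
        C (pW l) x (t + l.length) - C (pW l) x t := by
      intro t
      have := pW_per l t 1
      rw [mul_one] at this
      rw [show t + 1 + (l.length : ℤ) = t + l.length + 1 by ring, C_succ, C_succ, this]
      ring
    intro t
    induction t using Int.induction_on with
    | zero => rfl
    | succ n ih => rw [hs, ih]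
    | pred n ih =>
      have := hs (-(n : ℤ) - 1)
      rw [show -(n : ℤ) - 1 + 1 = -n by ring] at this
      rw [← this, ih]
  have h2 : C (pW l) x (0 + l.length) - C (pW l) x 0 = Dn l 0 l.length x := by
    rw [← E_Dn]
    rfl
  induction k using Int.induction_on with
  | zero => simp
  | succ n ih =>
    have := h1 (t + l.length * n)
    rw [show t + (l.length : ℤ) * (n + 1) = t + l.length * n + l.length by ring]
    rw [h2] at this
    linarith
  | pred n ih =>
    have := h1 (t + l.length * (-n - 1))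
    rw [show t + (l.length : ℤ) * (-n - 1) + l.length = t + l.length * (-n) by ring, h2] at this
    linarith

theorem E_per (l : List (ℤ × ℕ)) (a b x k : ℤ) :
    E (pW l) (a + l.length * k) (b + l.length * k) x = E (pW l) a b x := by
  unfold E
  rw [C_per, C_per]
  ring

theorem Dn_per (l : List (ℤ × ℕ)) (a x k : ℤ) (n : ℕ) :
    Dn l (a + l.length * k) n x = Dn l a n x := by
  rw [← E_Dn, ← E_Dn, show a + (l.length : ℤ) * k + n = a + n + l.length * k by ring, E_per]

theorem Dn_add (l : List (ℤ × ℕ)) (a x : ℤ) (n k : ℕ) :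
    Dn l a (n + l.length * k) x = Dn l a n x + k * Dn l 0 l.length x := by
  rw [← E_Dn, ← E_Dn l a x n, show a + ((n + l.length * k : ℕ) : ℤ) = a + n + l.length * k by
    push_cast; ring]
  unfold E
  rw [C_per]
  ring

theorem uniZ_sound {Z : ℕ} {F : ℤ → ℤ} (h : uniZ Z F = true)
    (hF : ∀ z, z < -(Z : ℤ) ∨ (Z : ℤ) < z → F z = 0) : Uni F := by
  intro x y hxy hx hy
  have hx' : ¬ (x < -(Z : ℤ) ∨ (Z : ℤ) < x) := fun e => by rw [hF x e] at hx; omega
  have hy' : ¬ (y < -(Z : ℤ) ∨ (Z : ℤ) < y) := fun e => by rw [hF y e] at hy; omega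
  unfold uniZ at h
  rw [List.all_eq_true] at h
  have h1 := h (y + Z).toNat (List.mem_range.2 (by omega))
  rw [List.all_eq_true] at h1
  have h2 := h1 (x + Z).toNat (List.mem_range.2 (by omega))
  rw [show -(Z : ℤ) + ((x + Z).toNat : ℕ) = x by omega, show -(Z : ℤ) + ((y + Z).toNat : ℕ) = y by omega,
    Bool.or_eq_true, decide_eq_true_eq, decide_eq_true_eq] at h2
  omega

section

variable {S : Tab} {l : List (ℤ × ℕ)} {Z : ℕ}

theorem St1 (h : chkSt1 S l Z = true) : 0 < l.length ∧ ∀ t : ℤ, (-(Z : ℤ) + 1 ≤ pW l t ∧ pW l t ≤ Z) ∧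
    pT l t < S.T ∧ pT l (t + 1) ∈ S.nxt (pT l t) ∧ ∀ j, -(S.m : ℤ) ≤ j → j < S.m →
      pW l (t + j + 1) = pW l (t + j) + S.step (pT l t) j := by
  unfold chkSt1 at h
  rw [Bool.and_eq_true, decide_eq_true_eq] at h
  obtain ⟨h0, h⟩ := h
  refine ⟨h0, fun t => ?_⟩
  rw [List.all_eq_true] at h
  obtain ⟨a, k, ha, rfl⟩ : ∃ (a : ℕ) (k : ℤ), a < l.length ∧ t = a + l.length * k := by
    have h1 := Int.emod_nonneg t (show (l.length : ℤ) ≠ 0 by omega)
    have h2 := Int.emod_lt_of_pos t (show (0 : ℤ) < l.length by omega)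
    refine ⟨(t % l.length).toNat, t / l.length, by omega, ?_⟩
    have := Int.emod_add_mul_ediv t l.length
    omega
  have := h a (List.mem_range.2 ha)
  simp only [Bool.and_eq_true, decide_eq_true_eq, List.contains_iff_mem, List.all_eq_true,
    List.mem_range] at this
  obtain ⟨⟨⟨⟨h1, h2⟩, h3⟩, h4⟩, h5⟩ := this
  rw [pW_per, pT_per, show (a : ℤ) + l.length * k + 1 = a + 1 + l.length * k by ring, pT_per]
  refine ⟨⟨h1, h2⟩, h3, h4, fun j hj1 hj2 => ?_⟩
  rw [show (a : ℤ) + l.length * k + j + 1 = a + j + 1 + l.length * k by ring,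
    show (a : ℤ) + l.length * k + j = a + j + l.length * k by ring, pW_per, pW_per]
  have := h5 (j + S.m).toNat (by omega)
  rw [show (((j + S.m).toNat : ℕ) : ℤ) - S.m = j by omega] at this
  exact this

theorem Dn_out (h : ∀ t : ℤ, -(Z : ℤ) + 1 ≤ pW l t ∧ pW l t ≤ Z) (a : ℤ) (n : ℕ) {z : ℤ}
    (hz : z < -(Z : ℤ) ∨ (Z : ℤ) < z) : Dn l a n z = 0 := by
  unfold Dn
  refine List.sum_eq_zero fun x hx => ?_
  rw [List.mem_map] at hx
  obtain ⟨k, -, rfl⟩ := hx
  have := h (a + k)
  rcases dl_cases (pW l (a + k)) z with e | e | e <;> omega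

theorem exists_red (h0 : 0 < l.length) (t : ℤ) : ∃ (a : ℕ) (k : ℤ), a < l.length ∧ t = a + l.length * k := by
  have h1 := Int.emod_nonneg t (show (l.length : ℤ) ≠ 0 by omega)
  have h2 := Int.emod_lt_of_pos t (show (0 : ℤ) < l.length by omega)
  refine ⟨(t % l.length).toNat, t / l.length, by omega, ?_⟩
  have := Int.emod_add_mul_ediv t l.length
  omega

variable {pats : ℕ → ℕ → List Pat} {N : ℕ} {B : ℤ}

theorem St2 (h1 : chkSt1 S l Z = true) (h : chkSt2 pats l Z N = true) (t : ℤ) {n : ℕ} (hn : n < N) :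
    Uni (Dn l t n) ∧ ∀ P ∈ pats (pT l t) (pT l (t + 1 + n)), P.d = pW l (t + 1 + n) - pW l t →
      ¬ Agr (fun y => Dn l (t + 1) n (pW l t + y)) P.e P.v := by
  obtain ⟨h0, h1⟩ := St1 h1
  obtain ⟨a, k, ha, rfl⟩ := exists_red h0 t
  unfold chkSt2 at h
  rw [List.all_eq_true] at h
  have h2 := h a (List.mem_range.2 ha)
  rw [List.all_eq_true] at h2
  have h3 := h2 n (List.mem_range.2 hn)
  rw [Bool.and_eq_true, List.all_eq_true] at h3
  have e1 : (a : ℤ) + l.length * k + 1 + n = a + 1 + n + l.length * k := by ring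
  have e2 : (a : ℤ) + l.length * k + 1 = a + 1 + l.length * k := by ring
  rw [e1, e2, pT_per, pT_per, pW_per, pW_per]
  refine ⟨?_, fun P hP hd => ?_⟩
  · have := uniZ_sound h3.1 fun z hz => Dn_out (fun t => (h1 t).1) a n hz
    have hh : Dn l (a + l.length * k) n = Dn l a n := funext fun x => Dn_per l a x k n
    rw [hh]
    exact this
  · have h4 := h3.2 P hP
    rw [Bool.or_eq_true, decide_eq_true_eq] at h4
    rcases h4 with h4 | h4
    · exact absurd hd h4
    · have h5 := difl_sound _ _ h4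
      have hh : (fun y => Dn l (a + 1 + l.length * k) n (pW l a + y)) =
          fun y => Dn l (a + 1) n (pW l a + y) := funext fun y => Dn_per l (a + 1) _ k n
      rw [hh]
      exact h5

theorem St3 (h1 : chkSt1 S l Z = true) (h : chkSt3 pats l Z N B = true) (t : ℤ) {r : ℕ}
    (hr : r < l.length) : (∀ x, Dn l 0 l.length x = 0 ∨ (0 < Dn l 0 l.length x ∧ B < Dn l t (N + r) x) ∨
      (Dn l 0 l.length x < 0 ∧ Dn l t (N + r) x < -B)) ∧
    ∀ P ∈ pats (pT l t) (pT l (t + 1 + (N + r : ℕ))), ∀ v ∈ P.v, -B ≤ v ∧ v ≤ B := by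
  obtain ⟨h0, h1⟩ := St1 h1
  obtain ⟨a, k, ha, rfl⟩ := exists_red h0 t
  unfold chkSt3 at h
  rw [List.all_eq_true] at h
  have h2 := h a (List.mem_range.2 ha)
  rw [List.all_eq_true] at h2
  have h3 := h2 r (List.mem_range.2 hr)
  rw [Bool.and_eq_true, List.all_eq_true, List.all_eq_true] at h3
  have e1 : (a : ℤ) + l.length * k + 1 + (N + r : ℕ) = a + 1 + (N + r : ℕ) + l.length * k := by ring
  rw [e1, pT_per, pT_per]
  refine ⟨fun x => ?_, fun P hP v hv => ?_⟩
  · rw [Dn_per]
    by_cases hx : x < -(Z : ℤ) ∨ (Z : ℤ) < x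
    · exact Or.inl (Dn_out (fun t => (h1 t).1) 0 _ hx)
    · have h4 := h3.1 (x + Z).toNat (List.mem_range.2 (by omega))
      rw [show -(Z : ℤ) + ((x + Z).toNat : ℕ) = x by omega] at h4
      simp only [Bool.or_eq_true, Bool.and_eq_true, decide_eq_true_eq] at h4
      tauto
  · have h4 := h3.2 P hP
    rw [List.all_eq_true] at h4
    have h5 := h4 v hv
    rw [Bool.and_eq_true, decide_eq_true_eq, decide_eq_true_eq] at h5
    exact h5

theorem agr_of {F F' : ℤ → ℤ} (hF : ∀ y, F' y = F y ∨ B < F' y ∨ F' y < -B) : ∀ (vs : List ℤ) (e : ℤ),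
    (∀ v ∈ vs, -B ≤ v ∧ v ≤ B) → Agr F' e vs → Agr F e vs
  | [], _, _, _ => trivial
  | v :: vs, e, hv, hA => by
    have h1 := hv v List.mem_cons_self
    have h2 := hF e
    have h3 : F' e = v := hA.1
    refine ⟨?_, agr_of hF vs (e + 1) (fun w hw => hv w (List.mem_cons_of_mem _ hw)) hA.2⟩
    rcases h2 with h2 | h2 | h2
    · rw [← h2]; exact h3
    · omega
    · omega

/-- **The start word satisfies the invariant.** -/
theorem good_start {Q : ℕ} (h : chkStart S pats l Z Q B = true) : Good S pats (pW l) (pT l) := by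
  unfold chkStart at h
  simp only [Bool.and_eq_true, decide_eq_true_eq] at h
  obtain ⟨⟨⟨hB, h1⟩, h2⟩, h3⟩ := h
  obtain ⟨h0, k1⟩ := St1 h1
  obtain ⟨N, hN⟩ : ∃ N, N = Q * l.length := ⟨_, rfl⟩
  rw [← hN] at h2 h3
  -- reduction of a long window
  have red : ∀ n : ℕ, n < N + l.length ∨ ∃ r k : ℕ, r < l.length ∧ n = N + r + l.length * k := by
    intro n
    rcases lt_or_ge n (N + l.length) with e | e
    · exact Or.inl e
    · right
      refine ⟨(n - N) % l.length, (n - N) / l.length, Nat.mod_lt _ h0, ?_⟩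
      have := Nat.mod_add_div (n - N) l.length
      omega
  have key : ∀ (t : ℤ) (r k : ℕ), r < l.length → ∀ x,
      Dn l t (N + r + l.length * k) x = Dn l t (N + r) x ∨
      (B < Dn l t (N + r + l.length * k) x ∧ B < Dn l t (N + r) x) ∨
      (Dn l t (N + r + l.length * k) x < -B ∧ Dn l t (N + r) x < -B) := by
    intro t r k hr x
    rw [Dn_add]
    rcases (St3 h1 h3 t hr).1 x with e | ⟨e1, e2⟩ | ⟨e1, e2⟩
    · left
      rw [e]
      ring
    · right; left
      have : 0 ≤ (k : ℤ) * Dn l 0 l.length x := by positivity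
      omega
    · right; right
      have : (k : ℤ) * Dn l 0 l.length x ≤ 0 :=
        mul_nonpos_of_nonneg_of_nonpos (by positivity) e1.le
      omega
  refine ⟨⟨fun t => (k1 t).2.1, fun t => (k1 t).2.2.1, fun t => (k1 t).2.2.2⟩, fun a b hab => ?_,
    fun s t hst P hP hd hA => ?_⟩
  · obtain ⟨n, rfl⟩ : ∃ n : ℕ, b = a + n := ⟨(b - a).toNat, by omega⟩
    have hE : E (pW l) a (a + n) = Dn l a n := funext fun x => E_Dn l a x n
    rw [hE]
    rcases red n with e | ⟨r, k, hr, rfl⟩
    · exact (St2 h1 h2 a e).1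
    · intro x y hxy hx hy
      have u := (St2 h1 h2 a (show N + r < N + l.length by omega)).1 x y hxy
      have q1 := key a r k hr x
      have q2 := key a r k hr y
      refine u ?_ ?_ <;> omega
  · obtain ⟨n, rfl⟩ : ∃ n : ℕ, t = s + 1 + n := ⟨(t - s - 1).toNat, by omega⟩
    have hL : Lw (pW l) s (s + 1 + n) = fun y => Dn l (s + 1) n (pW l s + y) := by
      funext y
      unfold Lw
      exact E_Dn l (s + 1) _ n
    rw [hL] at hA
    rcases red n with e | ⟨r, k, hr, rfl⟩
    · exact (St2 h1 h2 s e).2 P hP hd hA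
    · have e1 : s + 1 + ((N + r + l.length * k : ℕ) : ℤ) = s + 1 + (N + r : ℕ) + l.length * k := by
        push_cast; ring
      rw [e1, pT_per] at hP
      rw [e1, pW_per] at hd
      refine (St2 h1 h2 s (show N + r < N + l.length by omega)).2 P hP hd
        (agr_of (B := B) (fun y => ?_) _ _ ((St3 h1 h3 s hr).2 P hP) hA)
      rcases key (s + 1) r k hr (pW l s + y) with e | e | e
      · exact Or.inl e
      · exact Or.inr (Or.inl e.1)
      · exact Or.inr (Or.inr e.1)

end

end LWG
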