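import Pool.Agent.LWG.Close

/-!
# Typed substitutions of words: windows inside a block

* `gv`, `bump`: difference vectors as lists, one more letter; `okv`: no event, no pattern;
* **`hB_of`**: the check `chkBl c` for all `c < T` gives the hypothesis `hB` of `good_sub`.
-/

namespace LWG

open LevelWords

/-- value at the edge `z` of a difference vector on the edges `lo, lo + 1, ...` -/
def gv (lo : ℤ) (v : List ℤ) (z : ℤ) : ℤ := if z < lo then 0 else v.getD (z - lo).toNat 0

/-- one more letter, at `lo + n + 1` -/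
def bump : ℕ → List ℤ → List ℤ
  | 0, x :: y :: v => (x + 1) :: (y - 1) :: v
  | n + 1, x :: v => x :: bump n v
  | _, v => v

theorem length_bump : ∀ (n : ℕ) (v : List ℤ), (bump n v).length = v.length
  | 0, [] => rfl
  | 0, [_] => rfl
  | 0, _ :: _ :: _ => rfl
  | _ + 1, [] => rfl
  | n + 1, x :: v => by
    change (x :: bump n v).length = _
    rw [List.length_cons, length_bump n v, List.length_cons]

theorem getD_bump : ∀ (n : ℕ) (v : List ℤ) (k : ℕ), n + 1 < v.length →
    (bump n v).getD k 0 = v.getD k 0 + ((if k = n then 1 else 0) - if k = n + 1 then 1 else 0)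
  | 0, x :: y :: v, 0, _ => by simp [bump]
  | 0, x :: y :: v, 1, _ => by simp [bump]; ring
  | 0, x :: y :: v, k + 2, _ => by simp [bump]
  | n + 1, x :: v, 0, _ => by
    change x = x + _
    simp
  | n + 1, x :: v, k + 1, h => by
    have := getD_bump n v k (by simpa using h)
    change (bump n v).getD k 0 = v.getD k 0 + _
    rw [this]
    simp only [Nat.add_right_cancel_iff]
  | 0, [], _, h => by simp at h
  | 0, [_], _, h => by simp at h
  | _ + 1, [], _, h => by simp at h

theorem gv_bump {lo : ℤ} {n : ℕ} {v : List ℤ} (h : n + 1 < v.length) (z : ℤ) :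
    gv lo (bump n v) z = gv lo v z + dl (lo + n + 1) z := by
  unfold gv
  split_ifs with h1
  · rcases dl_cases (lo + n + 1) z with h' | h' | h' <;> omega
  · rw [getD_bump n v _ h]
    rcases dl_cases (lo + n + 1) z with h' | h' | h' <;> split_ifs <;> omega

theorem gv_out {lo : ℤ} {v : List ℤ} {z : ℤ} (h : z < lo ∨ lo + v.length ≤ z) : gv lo v z = 0 := by
  unfold gv
  split_ifs with h1
  · rfl
  · rw [List.getD_eq_getElem?_getD, List.getElem?_eq_none (by omega), Option.getD_none]

/-- all values are `0` at the edges `g, ..., g + n - 1` -/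
def allZ (F : ℤ → ℤ) : ℕ → ℤ → Bool
  | 0, _ => true
  | n + 1, g => decide (F g = 0) && allZ F n (g + 1)

theorem allZ_of {F : ℤ → ℤ} : ∀ (n : ℕ) (g : ℤ), (∀ z, g ≤ z → z < g + n → F z = 0) →
    allZ F n g = true
  | 0, _, _ => rfl
  | n + 1, g, h => by
    unfold allZ
    rw [Bool.and_eq_true, decide_eq_true_eq]
    exact ⟨h g le_rfl (by push_cast; omega), allZ_of n (g + 1) fun z h1 h2 => h z (by omega) (by
      push_cast; omega)⟩

/-- the values `v` at the edges `g, ...` -/
def agB (F : ℤ → ℤ) : ℤ → List ℤ → Bool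
  | _, [] => true
  | g, v :: vs => decide (F g = v) && agB F (g + 1) vs

theorem agB_of {F : ℤ → ℤ} : ∀ (vs : List ℤ) (g : ℤ), Agr F g vs → agB F g vs = true
  | [], _, _ => rfl
  | v :: vs, g, h => by
    unfold agB
    rw [Bool.and_eq_true, decide_eq_true_eq]
    exact ⟨h.1, agB_of vs (g + 1) h.2⟩

/-- no event and no pattern; `F` vanishes outside the edges `lo, ..., lo + n - 1` -/
def okv (ps : List Pat) (A B lo : ℤ) (n : ℕ) (F : ℤ → ℤ) : Bool :=
  (if 2 ≤ B - A then !allZ F (B - A).toNat A
    else if 2 ≤ A - B then !allZ F (A - B).toNat B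
    else if B = A then
      (decide (F A ≠ 1) || (List.range n).all fun k =>
        decide (lo + k ≤ A) || decide (F (lo + k) ≤ 0)) &&
      (decide (F (A - 1) ≠ -1) || (List.range n).all fun k =>
        decide (A - 1 ≤ lo + k) || decide (0 ≤ F (lo + k)))
    else true) &&
  ps.all fun P => decide (P.d ≠ B - A) || !agB F (A + P.e) P.v

theorem okv_sound {pats : ℕ → ℕ → List Pat} {c c' : ℕ} {A B lo : ℤ} {n : ℕ} {F : ℤ → ℤ}
    (h : okv (pats c c') A B lo n F = true) (hF : ∀ z, z < lo ∨ lo + n ≤ z → F z = 0) :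
    NoEv pats c c' A B F := by
  unfold okv at h
  rw [Bool.and_eq_true] at h
  obtain ⟨h1, h2⟩ := h
  refine ⟨?_, ?_, ?_, ?_⟩
  · rintro (⟨k1, k2⟩ | ⟨k1, k2⟩)
    · rw [if_pos k1, allZ_of _ _ fun z z1 z2 => k2 z z1 (by omega)] at h1
      simp at h1
    · rw [if_neg (by omega), if_pos k1, allZ_of _ _ fun z z1 z2 => k2 z z1 (by omega)] at h1
      simp at h1
  · rintro ⟨k1, k2, z, k3, k4, -⟩
    rw [if_neg (by omega), if_neg (by omega), if_pos k1, Bool.and_eq_true] at h1
    have h3 := h1.1
    rw [Bool.or_eq_true, decide_eq_true_eq, List.all_eq_true] at h3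
    rcases h3 with h3 | h3
    · exact h3 k2
    · have hz : ¬ (z < lo ∨ lo + n ≤ z) := fun hz => by
        rw [hF z hz] at k4
        omega
      have := h3 (z - lo).toNat (List.mem_range.2 (by omega))
      rw [show lo + (((z - lo).toNat : ℕ) : ℤ) = z by omega, Bool.or_eq_true, decide_eq_true_eq,
        decide_eq_true_eq] at this
      omega
  · rintro ⟨k1, k2, z, k3, k4, -⟩
    rw [if_neg (by omega), if_neg (by omega), if_pos k1, Bool.and_eq_true] at h1
    have h3 := h1.2
    rw [Bool.or_eq_true, decide_eq_true_eq, List.all_eq_true] at h3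
    rcases h3 with h3 | h3
    · exact h3 k2
    · have hz : ¬ (z < lo ∨ lo + n ≤ z) := fun hz => by
        rw [hF z hz] at k4
        omega
      have := h3 (z - lo).toNat (List.mem_range.2 (by omega))
      rw [show lo + (((z - lo).toNat : ℕ) : ℤ) = z by omega, Bool.or_eq_true, decide_eq_true_eq,
        decide_eq_true_eq] at this
      omega
  · intro P hP hd hA
    rw [List.all_eq_true] at h2
    have := h2 P hP
    rw [Bool.or_eq_true, decide_eq_true_eq, agB_of _ _ hA] at this
    rcases this with h3 | h3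
    · exact h3 hd
    · simp at h3

namespace Tab

variable (S : Tab)

/-- windows from the letter `i` of a block of type `c` to the letters `j`, `j + 1`, ..., `j + n - 1`;
`v` are the differences of the letters `i + 1, ..., j - 1` -/
def chkRow (pats : ℕ → ℕ → List Pat) (lo : ℤ) (c i : ℕ) : ℕ → ℕ → List ℤ → Bool
  | 0, _, _ => true
  | n + 1, j, v => okv (pats (S.chd c i) (S.chd c j)) (S.off c i) (S.off c j) lo v.length (gv lo v) &&
    decide ((S.off c j - 1 - lo).toNat + 1 < v.length) && decide (lo ≤ S.off c j - 1) &&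
    chkRow pats lo c i n (j + 1) (bump (S.off c j - 1 - lo).toNat v)

/-- windows inside a block of type `c`; all offsets are in `lo + 1, ..., lo + w - 1` -/
def chkBl (pats : ℕ → ℕ → List Pat) (lo : ℤ) (w c : ℕ) : Bool :=
  (List.range S.L).all fun i => S.chkRow pats lo c i (S.L - (i + 1)) (i + 1) (List.replicate w 0)

variable {S}

theorem chkRow_sound {pats : ℕ → ℕ → List Pat} {lo : ℤ} {c i : ℕ} : ∀ (n j : ℕ) (v : List ℤ),
    i < j → (∀ z, gv lo v z = S.part c (i + 1) j z) → S.chkRow pats lo c i n j v = true →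
    ∀ k, j ≤ k → k < j + n →
      NoEv pats (S.chd c i) (S.chd c k) (S.off c i) (S.off c k) (S.part c (i + 1) k)
  | 0, j, v, _, _, _, k, h1, h2 => by omega
  | n + 1, j, v, hij, hv, h, k, h1, h2 => by
    unfold chkRow at h
    rw [Bool.and_eq_true, Bool.and_eq_true, Bool.and_eq_true, decide_eq_true_eq,
      decide_eq_true_eq] at h
    obtain ⟨⟨⟨h3, h4⟩, h5⟩, h6⟩ := h
    rcases eq_or_lt_of_le h1 with e | e
    · subst e
      have := okv_sound h3 fun z hz => gv_out hz
      rwa [show gv lo v = S.part c (i + 1) j from funext hv] at this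
    · refine chkRow_sound n (j + 1) _ (by omega) (fun z => ?_) h6 k e (by omega)
      rw [gv_bump h4, hv, part_succ c hij]
      congr 2
      omega

/-- **windows inside a block** -/
theorem hB_of {pats : ℕ → ℕ → List Pat} {lo : ℤ} {w : ℕ}
    (h : ∀ c < S.T, S.chkBl pats lo w c = true) : ∀ c < S.T, ∀ i j, i < j → j < S.L →
      NoEv pats (S.chd c i) (S.chd c j) (S.off c i) (S.off c j) (S.part c (i + 1) j) := by
  intro c hc i j hij hj
  have h1 := h c hc
  unfold chkBl at h1
  rw [List.all_eq_true] at h1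
  refine chkRow_sound _ (i + 1) _ (by omega) (fun z => ?_) (h1 i (List.mem_range.2 (by omega))) j
    hij (by omega)
  rw [part_self]
  unfold gv
  split_ifs
  · rfl
  · rw [List.getD_eq_getElem?_getD, List.getElem?_replicate]
    split_ifs <;> rfl

end Tab

end LWG
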