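import Pool.Agent.LWG.Defs

/-!
# Typed substitutions: far windows

If two coarse letters are far apart, a flat part between two letters of their blocks comes from a
flat part between the coarse letters. No check of the single blocks is needed: the letters of one
site of a block cannot all come after (or before) one of them.
-/

namespace LWG

open LevelWords Finset

/-- indicator of an edge -/
def one (x y : ℤ) : ℤ := if y = x then 1 else 0

/-- tail sums of `dl` -/
theorem sum_dl (a o : ℤ) (n : ℕ) :
    ∑ k ∈ range n, dl a (o + k) = (if a = o + n then 1 else 0) - (if a = o then 1 else 0) := by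
  induction n with
  | zero => simp
  | succ n ih =>
    rw [sum_range_succ, ih, dl_def]
    push_cast
    rw [show o + (n : ℤ) + 1 = o + (n + 1) by ring]
    ring

theorem list_sum_range (f : ℕ → ℤ) (n : ℕ) :
    ((List.range n).map f).sum = ∑ k ∈ range n, f k := by
  induction n with
  | zero => simp
  | succ n ih => rw [List.range_succ, sum_range_succ, List.map_append, List.sum_append, ih]; simp

namespace Tab

variable (S : Tab)

/-- The offsets lie in `[lo, hi]`, the coefficients are not negative, whole blocks of all types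
have the same letter counts. -/
structure Nice (lo hi : ℤ) : Prop where
  b : 2 ≤ S.b
  e0 : S.e0 = lo + S.b - 1
  len : (S.e.length : ℤ) = hi - lo - S.b + 2
  pos : ∀ k, 0 ≤ S.e.getD k 0
  first : 0 < S.e.getD 0 0
  last : 0 < S.e.getD (S.e.length - 1) 0
  rng : ∀ c < S.T, ∀ r < S.L, lo ≤ S.off c r ∧ S.off c r ≤ hi
  full : ∀ c < S.T, ∀ y, S.part c 0 S.L y = S.comb (dl 0) y

theorem comb_eq (D : ℤ → ℤ) (g : ℤ) : S.comb D g = ∑ k ∈ range S.e.length,
    if (g - S.e0 - k) % S.b = 0 then S.e.getD k 0 * D ((g - S.e0 - k) / S.b) else 0 :=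
  list_sum_range _ _

theorem part_eq (c i j : ℕ) (y : ℤ) : S.part c i j y = ∑ r ∈ Ico i j, dl (S.off c r) y := by
  unfold part
  rw [list_sum_range, sum_Ico_eq_sum_range]

variable {S} {lo hi : ℤ} {D D' : ℤ → ℤ}

theorem Nice.rel (hN : S.Nice lo hi) {g : ℤ} {k : ℕ} (hk : k < S.e.length)
    (h : (g - S.e0 - k) % S.b = 0) : S.b * ((g - S.e0 - k) / S.b) = g - S.e0 - k ∧
    lo + S.b - 1 ≤ g - S.b * ((g - S.e0 - k) / S.b) ∧
    g - S.b * ((g - S.e0 - k) / S.b) ≤ hi := by
  have h1 := Int.mul_ediv_add_emod (g - S.e0 - k) S.b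
  have := hN.e0
  have := hN.len
  rw [h, add_zero] at h1
  refine ⟨h1, ?_, ?_⟩ <;> rw [h1] <;> omega

theorem Nice.comb_mono (hN : S.Nice lo hi) {g : ℤ}
    (h : ∀ x, lo + S.b - 1 ≤ g - S.b * x → g - S.b * x ≤ hi → D x ≤ D' x) :
    S.comb D g ≤ S.comb D' g := by
  rw [comb_eq, comb_eq]
  refine sum_le_sum fun k hk => ?_
  split_ifs with h1
  · obtain ⟨-, h2, h3⟩ := hN.rel (mem_range.1 hk) h1
    exact mul_le_mul_of_nonneg_left (h _ h2 h3) (hN.pos k)
  · rfl

theorem Nice.comb_congr (hN : S.Nice lo hi) {g : ℤ}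
    (h : ∀ x, lo + S.b - 1 ≤ g - S.b * x → g - S.b * x ≤ hi → D x = D' x) :
    S.comb D g = S.comb D' g :=
  le_antisymm (hN.comb_mono fun x h1 h2 => (h x h1 h2).le)
    (hN.comb_mono fun x h1 h2 => (h x h1 h2).ge)

theorem comb_neg (g : ℤ) : S.comb (fun y => - D y) g = - S.comb D g := by
  rw [comb_eq, comb_eq, ← sum_neg_distrib]
  refine sum_congr rfl fun k _ => ?_
  split_ifs <;> ring

theorem comb_sum {n : ℕ} (f : ℕ → ℤ) (G : ℕ → ℤ → ℤ) (g : ℤ) :
    S.comb (fun y => ∑ x ∈ range n, f x * G x y) g = ∑ x ∈ range n, f x * S.comb (G x) g := by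
  simp only [comb_eq, mul_sum]
  rw [sum_comm]
  refine sum_congr rfl fun k _ => ?_
  split_ifs
  · exact sum_congr rfl fun x _ => by ring
  · simp

theorem Nice.comb_shift (hN : S.Nice lo hi) (d g : ℤ) :
    S.comb D (S.b * d + g) = S.comb (fun y => D (d + y)) g := by
  have hb : (S.b : ℤ) ≠ 0 := by
    have := hN.b
    omega
  rw [comb_eq, comb_eq]
  refine sum_congr rfl fun k _ => ?_
  rw [show S.b * d + g - S.e0 - k = (g - S.e0 - k) + S.b * d by ring, Int.add_mul_emod_self_left,
    Int.add_mul_ediv_left _ _ hb, add_comm d]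

theorem Nice.comb_bot (hN : S.Nice lo hi) {x : ℤ}
    (h : ∀ x' < x, S.b * (x - x') < S.e.length → D x' = 0) :
    S.comb D (S.b * x + lo + S.b - 1) = S.e.getD 0 0 * D x := by
  have hb : (S.b : ℤ) ≠ 0 := by
    have := hN.b
    omega
  have hl : 0 < S.e.length := by
    by_contra h0
    have h1 := hN.first
    rw [List.getD_eq_getElem?_getD, List.getElem?_eq_none (by omega)] at h1
    simp at h1
  have e0 := hN.e0
  rw [comb_eq, sum_eq_single 0]
  · have e1 : S.b * x + lo + S.b - 1 - S.e0 - (0 : ℕ) = S.b * x := by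
      push_cast
      omega
    rw [e1, Int.mul_emod_right, if_pos rfl, Int.mul_ediv_cancel_left _ hb]
  · intro k hk hk0
    rw [mem_range] at hk
    split_ifs with h1
    · obtain ⟨h2, -, -⟩ := hN.rel hk h1
      have hbp := hN.b
      rw [h _ ?_ ?_, mul_zero]
      · by_contra hc
        have h3 : (S.b : ℤ) * x ≤ S.b * ((S.b * x + lo + S.b - 1 - S.e0 - k) / S.b) :=
          mul_le_mul_of_nonneg_left (not_lt.1 hc) (by omega)
        omega
      · rw [mul_sub, h2]
        omega
    · rfl
  · intro h0
    exact absurd (mem_range.2 hl) h0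

theorem Nice.comb_top (hN : S.Nice lo hi) {x : ℤ}
    (h : ∀ x', x < x' → S.b * (x' - x) < S.e.length → D x' = 0) :
    S.comb D (S.b * x + hi) = S.e.getD (S.e.length - 1) 0 * D x := by
  have hb : (S.b : ℤ) ≠ 0 := by
    have := hN.b
    omega
  have hl : 0 < S.e.length := by
    by_contra h0
    have h1 := hN.first
    rw [List.getD_eq_getElem?_getD, List.getElem?_eq_none (by omega)] at h1
    simp at h1
  have e0 := hN.e0
  have el := hN.len
  rw [comb_eq, sum_eq_single (S.e.length - 1)]
  · have e1 : S.b * x + hi - S.e0 - (S.e.length - 1 : ℕ) = S.b * x := by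
      push_cast [Nat.cast_sub (show 1 ≤ S.e.length from hl)]
      omega
    rw [e1, Int.mul_emod_right, if_pos rfl, Int.mul_ediv_cancel_left _ hb]
  · intro k hk hk0
    rw [mem_range] at hk
    split_ifs with h1
    · obtain ⟨h2, -, -⟩ := hN.rel hk h1
      have hbp := hN.b
      rw [h _ ?_ ?_, mul_zero]
      · by_contra hc
        have h3 : S.b * ((S.b * x + hi - S.e0 - k) / S.b) ≤ (S.b : ℤ) * x :=
          mul_le_mul_of_nonneg_left (not_lt.1 hc) (by omega)
        omega
      · rw [mul_sub, h2]
        omega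
    · rfl
  · intro h0
    exact absurd (mem_range.2 (by omega)) h0

theorem Nice.part_zero (hN : S.Nice lo hi) {c i j : ℕ} (hc : c < S.T) (hj : j ≤ S.L) {y : ℤ}
    (hy : y < lo - 1 ∨ hi < y) : S.part c i j y = 0 := by
  rw [part_eq]
  refine sum_eq_zero fun r hr => ?_
  have := hN.rng c hc r (by rw [mem_Ico] at hr; omega)
  rcases dl_cases (S.off c r) y with h | h | h <;> omega

/-- the left end of a far window -/
theorem Nice.left (hN : S.Nice lo hi) {c i : ℕ} (hc : c < S.T) (hi' : i < S.L) {s : Finset ℕ}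
    (hs : s ⊆ range S.L) (his : i ∉ s) (hU : Uni D)
    (h1 : ∀ x : ℤ, 0 < x → S.b * x < S.e.length → D x = 0)
    (hz : ∀ g, S.off c i ≤ g → g ≤ hi → ∑ r ∈ s, dl (S.off c r) g + S.comb D g = 0) :
    D 0 = 0 := by
  have e0 := hN.e0
  have el := hN.len
  have hb := hN.b
  have hr := hN.rng c hc
  rcases lt_trichotomy (D 0) 0 with h | h | h
  · exfalso
    have k1 := hz hi (hr i hi').2 le_rfl
    have k2 := hN.comb_top (D := D) (x := 0) fun x' hx h => h1 x' hx (by rwa [sub_zero] at h)
    rw [mul_zero, zero_add] at k2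
    have k3 : ∑ r ∈ s, dl (S.off c r) hi ≤ 0 := by
      refine sum_nonpos fun r hrs => ?_
      have := (hr r (mem_range.1 (hs hrs))).2
      rcases dl_cases (S.off c r) hi with h | h | h <;> omega
    have := mul_neg_of_pos_of_neg hN.last h
    omega
  · exact h
  · exfalso
    obtain ⟨n, hn⟩ : ∃ n : ℕ, hi = S.off c i + n - 1 :=
      ⟨(hi - S.off c i + 1).toNat, by have := (hr i hi').2; omega⟩
    have hneg : ∀ x < 0, 0 ≤ D x := fun x hx => by
      by_contra hc
      exact hU x 0 hx (not_le.1 hc) h
    have k1 : ∀ k ∈ range n, - S.comb (dl 0) (S.off c i + k) ≤ S.comb D (S.off c i + k) := by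
      intro k hk
      rw [mem_range] at hk
      rw [← comb_neg]
      refine hN.comb_mono fun x h2 h3 => ?_
      rcases lt_trichotomy x 0 with hx | hx | hx
      · have := hneg x hx
        rcases dl_cases 0 x with h | h | h <;> omega
      · subst hx
        rcases dl_cases 0 0 with h | h | h <;> omega
      · rw [h1 x hx (by omega)]
        rcases dl_cases 0 x with h | h | h <;> omega
    have k2 := sum_le_sum k1
    have k3 : ∑ k ∈ range n, (∑ r ∈ s, dl (S.off c r) (S.off c i + k) +
        S.comb D (S.off c i + k)) = 0 :=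
      sum_eq_zero fun k hk => hz _ (by omega) (by rw [mem_range] at hk; omega)
    rw [sum_add_distrib, sum_comm] at k3
    simp only [← hN.full c hc, part_eq] at k2
    rw [sum_neg_distrib, sum_comm] at k2
    simp only [sum_dl] at k2 k3
    have k4 : ∀ r ∈ range S.L, (if S.off c r = S.off c i + n then (1 : ℤ) else 0) = 0 := by
      intro r hr'
      have := (hr r (mem_range.1 hr')).2
      rw [if_neg (by omega)]
    have k5 : ∑ r ∈ s, ((if S.off c r = S.off c i + n then (1 : ℤ) else 0) -
        (if S.off c r = S.off c i then 1 else 0)) =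
        - ∑ r ∈ s, if S.off c r = S.off c i then (1 : ℤ) else 0 := by
      rw [← sum_neg_distrib]
      exact sum_congr rfl fun r hr' => by rw [k4 r (hs hr'), zero_sub]
    have k6 : ∑ r ∈ Ico 0 S.L, ((if S.off c r = S.off c i + n then (1 : ℤ) else 0) -
        (if S.off c r = S.off c i then 1 else 0)) =
        - ∑ r ∈ range S.L, if S.off c r = S.off c i then (1 : ℤ) else 0 := by
      rw [← sum_neg_distrib, range_eq_Ico]
      exact sum_congr rfl fun r hr' => by rw [k4 r (by rwa [range_eq_Ico]), zero_sub]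
    have k7 : ∑ r ∈ insert i s, (if S.off c r = S.off c i then (1 : ℤ) else 0) ≤
        ∑ r ∈ range S.L, if S.off c r = S.off c i then (1 : ℤ) else 0 := by
      refine sum_le_sum_of_subset_of_nonneg (insert_subset (mem_range.2 hi') hs) fun r _ _ => ?_
      split_ifs <;> norm_num
    rw [sum_insert his, if_pos rfl] at k7
    rw [k5] at k3
    rw [k6] at k2
    omega

/-- the right end of a far window -/
theorem Nice.right (hN : S.Nice lo hi) {c i : ℕ} (hc : c < S.T) (hi' : i < S.L) {s : Finset ℕ}
    (hs : s ⊆ range S.L) (his : i ∉ s) (hU : Uni D)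
    (h1 : ∀ x : ℤ, x < -1 → S.b * (-1 - x) < S.e.length → D x = 0)
    (hz : ∀ g, lo - 1 ≤ g → g < S.off c i → ∑ r ∈ s, dl (S.off c r) g + S.comb D g = 0) :
    D (-1) = 0 := by
  have e0 := hN.e0
  have el := hN.len
  have hb := hN.b
  have hr := hN.rng c hc
  rcases lt_trichotomy (D (-1)) 0 with h | h | h
  · exfalso
    obtain ⟨n, hn⟩ : ∃ n : ℕ, S.off c i = lo - 1 + n :=
      ⟨(S.off c i - lo + 1).toNat, by have := (hr i hi').1; omega⟩
    have hpos : ∀ x, 0 ≤ x → D x ≤ 0 := fun x hx => by
      by_contra hc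
      exact hU (-1) x (by omega) h (not_le.1 hc)
    have k1 : ∀ k ∈ range n, S.comb D (lo - 1 + k) ≤ - S.comb (dl 0) (lo - 1 + k) := by
      intro k hk
      rw [mem_range] at hk
      rw [← comb_neg]
      refine hN.comb_mono fun x h2 h3 => ?_
      rcases lt_trichotomy x (-1) with hx | hx | hx
      · have : S.b * (-1 - x) = - S.b - S.b * x := by ring
        rw [h1 x hx (by omega)]
        rcases dl_cases 0 x with h | h | h <;> omega
      · subst hx
        rcases dl_cases 0 (-1) with h | h | h <;> omega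
      · have := hpos x (by omega)
        rcases dl_cases 0 x with h | h | h <;> omega
    have k2 := sum_le_sum k1
    have k3 : ∑ k ∈ range n, (∑ r ∈ s, dl (S.off c r) (lo - 1 + k) +
        S.comb D (lo - 1 + k)) = 0 :=
      sum_eq_zero fun k hk => hz _ (by omega) (by rw [mem_range] at hk; omega)
    rw [sum_add_distrib, sum_comm] at k3
    simp only [← hN.full c hc, part_eq] at k2
    rw [sum_neg_distrib, sum_comm (s := range n)] at k2
    simp only [sum_dl, ← hn] at k2 k3
    have k4 : ∀ r ∈ range S.L, (if S.off c r = lo - 1 then (1 : ℤ) else 0) = 0 := by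
      intro r hr'
      have := (hr r (mem_range.1 hr')).1
      rw [if_neg (by omega)]
    have k5 : ∑ r ∈ s, ((if S.off c r = S.off c i then (1 : ℤ) else 0) -
        (if S.off c r = lo - 1 then 1 else 0)) =
        ∑ r ∈ s, if S.off c r = S.off c i then (1 : ℤ) else 0 :=
      sum_congr rfl fun r hr' => by rw [k4 r (hs hr'), sub_zero]
    have k6 : ∑ r ∈ Ico 0 S.L, ((if S.off c r = S.off c i then (1 : ℤ) else 0) -
        (if S.off c r = lo - 1 then 1 else 0)) =
        ∑ r ∈ range S.L, if S.off c r = S.off c i then (1 : ℤ) else 0 := by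
      rw [range_eq_Ico]
      exact sum_congr rfl fun r hr' => by rw [k4 r (by rwa [range_eq_Ico]), sub_zero]
    have k7 : ∑ r ∈ insert i s, (if S.off c r = S.off c i then (1 : ℤ) else 0) ≤
        ∑ r ∈ range S.L, if S.off c r = S.off c i then (1 : ℤ) else 0 := by
      refine sum_le_sum_of_subset_of_nonneg (insert_subset (mem_range.2 hi') hs) fun r _ _ => ?_
      split_ifs <;> norm_num
    rw [sum_insert his, if_pos rfl] at k7
    rw [k5] at k3
    rw [k6] at k2
    omega
  · exact h
  · exfalso
    have k1 := hz (lo - 1) le_rfl (by have := (hr i hi').1; omega)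
    have k2 := hN.comb_bot (D := D) (x := -1) fun x' hx h => h1 x' hx h
    rw [show (S.b : ℤ) * -1 + lo + S.b - 1 = lo - 1 by ring] at k2
    have k3 : 0 ≤ ∑ r ∈ s, dl (S.off c r) (lo - 1) := by
      refine sum_nonneg fun r hrs => ?_
      have := (hr r (mem_range.1 (hs hrs))).1
      rcases dl_cases (S.off c r) (lo - 1) with h | h | h <;> omega
    have := mul_pos hN.first h
    omega

variable (S) in
/-- Certificate: the equations without noise between blocks at the distance `n + 2` force the first
differences to be zero. -/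
def zrun (lo hi : ℤ) (n : ℕ) (zc : List (List ℤ)) : Bool :=
  decide ((S.e.length : ℤ) - 1 < S.b * (n + 1)) &&
  (List.range n).all fun x => decide ((S.e.length : ℤ) ≤ S.b * (x + 1)) ||
    (decide (hi + (zc.getD x []).length ≤ S.b * (n + 2) + lo - 2) &&
    (List.range n).all fun y =>
      let v := ((List.range (zc.getD x []).length).map fun k =>
        (zc.getD x []).getD k 0 * S.comb (one (y + 1)) (hi + 1 + k)).sum
      if x = y then v != 0 else v == 0)

theorem Nice.run (hN : S.Nice lo hi) {n : ℕ} {zc : List (List ℤ)} (h : S.zrun lo hi n zc = true)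
    (hz : ∀ g, hi < g → g ≤ S.b * (n + 2) + lo - 2 → S.comb D g = 0) {x : ℤ} (hx : 0 < x)
    (hxl : S.b * x < S.e.length) : D x = 0 := by
  have e0 := hN.e0
  have el := hN.len
  have hb := hN.b
  simp only [zrun, Bool.and_eq_true, Bool.or_eq_true, List.all_eq_true, List.mem_range,
    decide_eq_true_eq] at h
  obtain ⟨h0, h⟩ := h
  obtain ⟨k, rfl⟩ : ∃ k : ℕ, x = k + 1 := ⟨(x - 1).toNat, by omega⟩
  have hk : k < n := by
    have : (S.b : ℤ) * (k + 1) < S.b * (n + 1) := by omega
    have := lt_of_mul_lt_mul_left this (by omega)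
    omega
  rcases h k hk with h | ⟨h1, h2⟩
  · omega
  have key : ∀ g, hi < g → g ≤ S.b * (n + 2) + lo - 2 →
      S.comb D g = ∑ y ∈ range n, D (y + 1) * S.comb (one (y + 1)) g := by
    intro g g1 g2
    rw [← comb_sum (fun y : ℕ => D (y + 1)) (fun y : ℕ => one (y + 1))]
    refine hN.comb_congr fun x' h3 h4 => ?_
    have hx1 : 0 < x' := by
      by_contra hc
      have : (S.b : ℤ) * x' ≤ S.b * 0 := mul_le_mul_of_nonneg_left (not_lt.1 hc) (by omega)
      omega
    have hx2 : x' < n + 1 := by
      by_contra hc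
      have : (S.b : ℤ) * (n + 1) ≤ S.b * x' := mul_le_mul_of_nonneg_left (not_lt.1 hc) (by omega)
      have e : (S.b : ℤ) * (n + 2) = S.b * (n + 1) + S.b := by ring
      omega
    obtain ⟨y, rfl⟩ : ∃ y : ℕ, x' = y + 1 := ⟨(x' - 1).toNat, by omega⟩
    rw [sum_eq_single y]
    · simp [one]
    · intro z _ hzy
      simp [one, Ne.symm hzy]
    · intro hy
      rw [mem_range] at hy
      omega
  have k1 : ∑ j ∈ range (zc.getD k []).length, (zc.getD k []).getD j 0 *
      S.comb D (hi + 1 + j) = 0 := by
    refine sum_eq_zero fun j hj => ?_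
    rw [mem_range] at hj
    rw [hz _ (by omega) (by omega), mul_zero]
  have k2 : ∑ y ∈ range n, D (y + 1) * (∑ j ∈ range (zc.getD k []).length,
      (zc.getD k []).getD j 0 * S.comb (one (y + 1)) (hi + 1 + j)) = 0 := by
    refine Eq.trans ?_ k1
    simp only [mul_sum]
    rw [sum_comm]
    refine sum_congr rfl fun j hj => ?_
    rw [mem_range] at hj
    rw [key _ (by omega) (by omega), mul_sum]
    exact sum_congr rfl fun y _ => by ring
  rw [sum_eq_single k] at k2
  · have h3 := h2 k hk
    rw [if_pos rfl, list_sum_range] at h3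
    rcases mul_eq_zero.1 k2 with h4 | h4
    · exact h4
    · rw [h4] at h3
      simp at h3
  · intro y hy hyk
    have h3 := h2 y (mem_range.1 hy)
    rw [if_neg (Ne.symm hyk), list_sum_range, beq_iff_eq] at h3
    rw [h3, mul_zero]
  · intro h3
    exact absurd (mem_range.2 hk) h3

/-- between far blocks -/
theorem Nice.mid (hN : S.Nice lo hi) {n : ℕ} {zc : List (List ℤ)} (h : S.zrun lo hi n zc = true)
    {d : ℤ} (hd : n + 2 ≤ d) (hz : ∀ g, hi < g → g ≤ S.b * d + lo - 2 → S.comb D g = 0) :
    ∀ (k : ℕ), (k : ℤ) + 1 ≤ d - 2 → D (k + 1) = 0 := by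
  have e0 := hN.e0
  have el := hN.len
  have hb := hN.b
  have hdn : (S.b : ℤ) * (n + 2) ≤ S.b * d := mul_le_mul_of_nonneg_left hd (by omega)
  intro k
  induction k using Nat.strong_induction_on with
  | _ k ih =>
    intro hk
    rcases lt_or_ge ((S.b : ℤ) * (k + 1)) S.e.length with hl | hl
    · exact hN.run h (fun g g1 g2 => hz g g1 (by omega)) (by omega) hl
    have h1 : ∀ x' < (k : ℤ) + 1, S.b * (k + 1 - x') < S.e.length → D x' = 0 := by
      intro x' h2 h3
      have h4 : 0 < x' := by
        by_contra hc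
        have h5 : (S.b : ℤ) * (k + 1) ≤ S.b * (k + 1 - x') :=
          mul_le_mul_of_nonneg_left (by omega) (by omega)
        omega
      obtain ⟨y, rfl⟩ : ∃ y : ℕ, x' = y + 1 := ⟨(x' - 1).toNat, by omega⟩
      exact ih y (by omega) (by omega)
    have h2 := hN.comb_bot h1
    rw [hz _ (by omega) ?_] at h2
    · rcases mul_eq_zero.1 h2.symm with h3 | h3
      · have := hN.first
        omega
      · exact h3
    · have h3 : (S.b : ℤ) * (k + 1) ≤ S.b * (d - 2) := mul_le_mul_of_nonneg_left hk (by omega)
      have h4 : (S.b : ℤ) * (d - 2) = S.b * d - 2 * S.b := by ring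
      omega

theorem Nice.mid' (hN : S.Nice lo hi) {n : ℕ} {zc : List (List ℤ)} (h : S.zrun lo hi n zc = true)
    {d : ℤ} (hd : n + 2 ≤ d) (hz : ∀ g, hi < g → g ≤ S.b * d + lo - 2 → S.comb D g = 0)
    {x : ℤ} (h1 : 0 < x) (h2 : x ≤ d - 2) : D x = 0 := by
  obtain ⟨y, rfl⟩ : ∃ y : ℕ, x = y + 1 := ⟨(x - 1).toNat, by omega⟩
  exact hN.mid h hd hz y h2

theorem uni_shift (hU : Uni D) (d : ℤ) : Uni fun y => D (d + y) :=
  fun x y hxy => hU (d + x) (d + y) (by omega)

/-- A flat part between letters of far blocks comes from a flat part. -/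
theorem Nice.flat (hN : S.Nice lo hi) {n : ℕ} {zc : List (List ℤ)} (h : S.zrun lo hi n zc = true)
    {c c' i j : ℕ} (hc : c < S.T) (hc' : c' < S.T) (hi' : i < S.L) (hj : j < S.L) (hU : Uni D)
    {d : ℤ} (hd : n + 2 ≤ d ∨ d ≤ -(n + 2))
    (hE : Ev1 (S.off c i) (S.b * d + S.off c' j) (S.Fn c i c' j d D)) : Ev1 0 d D := by
  have e0 := hN.e0
  have el := hN.len
  have hb := hN.b
  have ri := hN.rng c hc i hi'
  have rj := hN.rng c' hc' j hj
  have hl : (S.e.length : ℤ) - 1 < S.b * (n + 1) := by
    simp only [zrun, Bool.and_eq_true, decide_eq_true_eq] at h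
    exact h.1
  have e1 : (S.b : ℤ) * (n + 2) = S.b * (n + 1) + S.b := by ring
  have sA : ∀ g, S.part c (i + 1) S.L g = ∑ r ∈ Ico (i + 1) S.L, dl (S.off c r) g :=
    fun g => part_eq S _ _ _ _
  have sB : ∀ g, S.part c' 0 j g = ∑ r ∈ range j, dl (S.off c' r) g :=
    fun g => by rw [part_eq, range_eq_Ico]
  have hsA : Ico (i + 1) S.L ⊆ range S.L := fun r hr => by
    rw [mem_Ico] at hr
    exact mem_range.2 hr.2
  have hsB : range j ⊆ range S.L := fun r hr => by
    rw [mem_range] at hr ⊢
    omega
  have niA : i ∉ Ico (i + 1) S.L := fun hr => by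
    rw [mem_Ico] at hr
    omega
  have niB : j ∉ range j := fun hr => by
    rw [mem_range] at hr
    omega
  rcases hd with hd | hd
  · have hdn : (S.b : ℤ) * (n + 2) ≤ S.b * d := mul_le_mul_of_nonneg_left hd (by omega)
    have hF : ∀ w, S.off c i ≤ w → w < S.b * d + S.off c' j → S.Fn c i c' j d D w = 0 := by
      rcases hE with ⟨-, hE⟩ | ⟨hE, -⟩
      · exact hE
      · omega
    have hm : ∀ x, 0 < x → x ≤ d - 2 → D x = 0 := fun x h1 h2 =>
      hN.mid' h hd (fun g g1 g2 => by
        have := hF g (by omega) (by omega)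
        unfold Fn at this
        rwa [hN.part_zero hc le_rfl (Or.inr g1), hN.part_zero hc' hj.le (Or.inl (by omega)),
          zero_add, add_zero] at this) h1 h2
    have hml : ∀ x : ℤ, 0 < x → S.b * x < S.e.length → D x = 0 := by
      intro x h1 h2
      refine hm x h1 ?_
      have : (S.b : ℤ) * x < S.b * (n + 1) := by omega
      have := lt_of_mul_lt_mul_left this (by omega)
      omega
    have z0 : D 0 = 0 := by
      refine hN.left hc hi' hsA niA hU hml fun g g1 g2 => ?_
      have := hF g g1 (by omega)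
      unfold Fn at this
      rwa [hN.part_zero hc' hj.le (Or.inl (by omega)), add_zero, sA] at this
    have z1 : D (d - 1) = 0 := by
      have := hN.right (D := fun y => D (d + y)) hc' hj hsB niB (uni_shift hU d) ?_ ?_
      · rwa [show d - 1 = d + -1 by ring]
      · intro x h1 h2
        refine hm _ ?_ (by omega)
        have : (S.b : ℤ) * (-1 - x) < S.b * (n + 1) := by omega
        have := lt_of_mul_lt_mul_left this (by omega)
        omega
      · intro g g1 g2
        have := hF (S.b * d + g) (by omega) (by omega)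
        unfold Fn at this
        rw [hN.part_zero hc le_rfl (Or.inr (by omega)), zero_add, hN.comb_shift,
          show (S.b : ℤ) * d + g - S.b * d = g by ring, sB] at this
        rw [add_comm]
        exact this
    left
    refine ⟨by omega, fun w h1 h2 => ?_⟩
    rcases eq_or_lt_of_le h1 with e | e
    · rw [← e]; exact z0
    rcases eq_or_lt_of_le (show w ≤ d - 1 by omega) with e' | e'
    · rw [e']; exact z1
    · exact hm w e (by omega)
  · have hdn : (S.b : ℤ) * (n + 2) ≤ S.b * (-d) :=
      mul_le_mul_of_nonneg_left (by omega) (by omega)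
    rw [mul_neg] at hdn
    have hF : ∀ w, S.b * d + S.off c' j ≤ w → w < S.off c i → S.Fn c i c' j d D w = 0 := by
      rcases hE with ⟨hE, -⟩ | ⟨-, hE⟩
      · omega
      · exact hE
    have hF' : ∀ w, S.off c' j ≤ w → S.b * d + w < S.off c i →
        S.part c (i + 1) S.L (S.b * d + w) + S.comb (fun y => D (d + y)) w +
          S.part c' 0 j w = 0 := by
      intro w h1 h2
      have := hF (S.b * d + w) (by omega) h2
      unfold Fn at this
      rwa [hN.comb_shift, show (S.b : ℤ) * d + w - S.b * d = w by ring] at this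
    have hm : ∀ x, 0 < x → x ≤ -d - 2 → D (d + x) = 0 := fun x h1 h2 =>
      hN.mid' (D := fun y => D (d + y)) h (d := -d) (by omega) (fun g g1 g2 => by
        rw [mul_neg] at g2
        have := hF' g (by omega) (by omega)
        rwa [hN.part_zero hc le_rfl (Or.inl (by omega)), hN.part_zero hc' hj.le (Or.inr g1),
          zero_add, add_zero] at this) h1 h2
    have hml : ∀ x : ℤ, 0 < x → S.b * x < S.e.length → D (d + x) = 0 := by
      intro x h1 h2
      refine hm x h1 ?_
      have : (S.b : ℤ) * x < S.b * (n + 1) := by omega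
      have := lt_of_mul_lt_mul_left this (by omega)
      omega
    have z0 : D d = 0 := by
      have := hN.left (D := fun y => D (d + y)) hc' hj hsB niB (uni_shift hU d) hml ?_
      · rwa [add_zero] at this
      · intro g g1 g2
        have := hF' g g1 (by omega)
        rw [hN.part_zero hc le_rfl (Or.inl (by omega)), zero_add, sB] at this
        rw [add_comm]
        exact this
    have z1 : D (-1) = 0 := by
      refine hN.right hc hi' hsA niA hU ?_ ?_
      · intro x h1 h2
        have h3 : -1 - x < n + 1 := by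
          have : (S.b : ℤ) * (-1 - x) < S.b * (n + 1) := by omega
          exact lt_of_mul_lt_mul_left this (by omega)
        have := hm (x - d) (by omega) (by omega)
        rwa [show d + (x - d) = x by ring] at this
      · intro g g1 g2
        have := hF g (by omega) g2
        unfold Fn at this
        rwa [hN.part_zero hc' hj.le (Or.inr (by omega)), add_zero, sA] at this
    right
    refine ⟨by omega, fun w h1 h2 => ?_⟩
    rcases eq_or_lt_of_le h1 with e | e
    · rw [← e]; exact z0
    rcases eq_or_lt_of_le (show w ≤ -1 by omega) with e' | e'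
    · rw [e']; exact z1
    · have := hm (w - d) (by omega) (by omega)
      rwa [show d + (w - d) = w by ring] at this

theorem Loc.not_ev1 {pats : ℕ → ℕ → List Pat} {c c' : ℕ} {d : ℤ} (h : S.Loc pats c c' d D) :
    ¬ Ev1 0 d D := by
  have hl : (fun y => dl 0 y) ∈ S.lops c := by
    unfold lops
    refine List.mem_append_left _ (List.mem_map.2 ⟨1, List.mem_range.2 (by omega), ?_⟩)
    funext y
    simp [dls, posL, List.range_succ]
  have hr : (fun y => dl d y) ∈ S.rops c' d := by
    unfold rops
    refine List.mem_append_left _ (List.mem_map.2 ⟨1, List.mem_range.2 (by omega), ?_⟩)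
    funext y
    simp [dls, posR, List.range_succ]
  have hU : ∀ x y, x < y → D x + (dl 0 x + dl d x) < 0 → ¬ 0 < D y + (dl 0 y + dl d y) :=
    h.adm _ hl _ hr
  rintro (⟨h1, h2⟩ | ⟨h1, h2⟩)
  · refine hU 0 (d - 1) (by omega) ?_ ?_
    · rw [h2 0 le_rfl (by omega)]
      rcases dl_cases 0 0 with h | h | h <;> rcases dl_cases d 0 with h' | h' | h' <;> omega
    · rw [h2 (d - 1) (by omega) (by omega)]
      rcases dl_cases 0 (d - 1) with h | h | h <;> rcases dl_cases d (d - 1) with h' | h' | h' <;>
        omega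
  · refine hU d (-1) (by omega) ?_ ?_
    · rw [h2 d le_rfl (by omega)]
      rcases dl_cases 0 d with h | h | h <;> rcases dl_cases d d with h' | h' | h' <;> omega
    · rw [h2 (-1) (by omega) (by omega)]
      rcases dl_cases 0 (-1) with h | h | h <;> rcases dl_cases d (-1) with h' | h' | h' <;> omega

theorem Loc.uni {pats : ℕ → ℕ → List Pat} {c c' : ℕ} {d : ℤ} (h : S.Loc pats c c' d D) :
    Uni D := by
  have hl : (fun _ => (0 : ℤ)) ∈ S.lops c := by
    unfold lops
    refine List.mem_append_left _ (List.mem_map.2 ⟨0, List.mem_range.2 (by omega), ?_⟩)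
    funext y
    simp [dls]
  have hr : (fun _ => (0 : ℤ)) ∈ S.rops c' d := by
    unfold rops
    refine List.mem_append_left _ (List.mem_map.2 ⟨0, List.mem_range.2 (by omega), ?_⟩)
    funext y
    simp [dls]
  have := h.adm _ hl _ hr
  simpa using this

/-- No flat part between letters of far blocks. -/
theorem Nice.far (hN : S.Nice lo hi) {n : ℕ} {zc : List (List ℤ)} (h : S.zrun lo hi n zc = true)
    {pats : ℕ → ℕ → List Pat} {c c' i j : ℕ} (hc : c < S.T) (hc' : c' < S.T) (hi' : i < S.L)
    (hj : j < S.L) {d : ℤ} (hL : S.Loc pats c c' d D) (hd : n + 2 ≤ d ∨ d ≤ -(n + 2)) :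
    ¬ Ev1 (S.off c i) (S.b * d + S.off c' j) (S.Fn c i c' j d D) ∧
      S.off c i ≠ S.b * d + S.off c' j := by
  refine ⟨fun hE => hL.not_ev1 (hN.flat h hc hc' hi' hj hL.uni hd hE), fun he => ?_⟩
  have hl : (S.e.length : ℤ) - 1 < S.b * (n + 1) := by
    simp only [zrun, Bool.and_eq_true, decide_eq_true_eq] at h
    exact h.1
  have e1 : (S.b : ℤ) * (n + 2) = S.b * (n + 1) + S.b := by ring
  have el := hN.len
  have hb := hN.b
  have ri := hN.rng c hc i hi'
  have rj := hN.rng c' hc' j hj
  rcases hd with hd | hd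
  · have hdn : (S.b : ℤ) * (n + 2) ≤ S.b * d := mul_le_mul_of_nonneg_left hd (by omega)
    omega
  · have hdn : (S.b : ℤ) * (n + 2) ≤ S.b * (-d) :=
      mul_le_mul_of_nonneg_left (by omega) (by omega)
    rw [mul_neg] at hdn
    omega

end Tab

end LWG
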