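import Pool.Agent.LWG.OkT
import Pool.Agent.LWG.Block
import Pool.Agent.LWG.Far

/-!
# Typed substitutions of words: assembly of the hypotheses of `good_sub`

* `okN`, `okR`, **`nice_of`**: the decidable form of `Tab.Nice`;
* `smallP`: all patterns of a pair of types have small distances; **`hN_of`**: the hypothesis `hN` of
  `good_sub` from its near part.
-/

namespace LWG

open LevelWords

namespace Tab

variable (S : Tab)

/-- general facts -/
def okN (lo hi : ℤ) : Bool :=
  decide (2 ≤ S.b) && decide (S.e0 = lo + S.b - 1) && decide ((S.e.length : ℤ) = hi - lo - S.b + 2) &&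
    S.e.all (fun x => decide (0 ≤ x)) && decide (0 < S.e.getD 0 0) &&
    decide (0 < S.e.getD (S.e.length - 1) 0)

/-- the offsets of the type `c` -/
def okR (lo hi : ℤ) (c : ℕ) : Bool :=
  (List.range S.L).all fun r => decide (lo ≤ S.off c r) && decide (S.off c r ≤ hi)

variable {S}

theorem getD_nonneg {l : List ℤ} (h : ∀ x ∈ l, 0 ≤ x) (k : ℕ) : 0 ≤ l.getD k 0 := by
  rw [List.getD_eq_getElem?_getD]
  rcases lt_or_ge k l.length with hk | hk
  · rw [List.getElem?_eq_getElem hk, Option.getD_some]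
    exact h _ (List.getElem_mem hk)
  · rw [List.getElem?_eq_none hk, Option.getD_none]

theorem nice_of (K : S.OK) {lo hi : ℤ} (h1 : S.okN lo hi = true)
    (h2 : ∀ c < S.T, S.okR lo hi c = true) : S.Nice lo hi := by
  unfold okN at h1
  simp only [Bool.and_eq_true, decide_eq_true_eq, List.all_eq_true] at h1
  obtain ⟨⟨⟨⟨⟨hb, he⟩, hl⟩, hp⟩, hf⟩, hla⟩ := h1
  refine ⟨hb, he, hl, getD_nonneg hp, hf, hla, fun c hc r hr => ?_, K.id⟩
  have := h2 c hc
  unfold okR at this
  simp only [List.all_eq_true, Bool.and_eq_true, decide_eq_true_eq, List.mem_range] at this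
  exact this r hr

/-- all patterns of the pair `c`, `c'` have distances of absolute value `< B` -/
def smallP (pats : ℕ → ℕ → List Pat) (B : ℤ) (c c' : ℕ) : Bool :=
  (pats c c').all fun P => decide (-B < P.d) && decide (P.d < B)

/-- **`hN` from its near part** -/
theorem hN_of {pats : ℕ → ℕ → List Pat} (K : S.OK) {lo hi : ℤ} (hS : S.Nice lo hi) {n : ℕ}
    {zc : List (List ℤ)} (hz : S.zrun lo hi n zc = true)
    (hsm : ∀ c < S.T, ∀ c' < S.T, smallP pats (S.b * (n + 2) - (hi - lo)) c c' = true)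
    (hnear : ∀ c < S.T, ∀ c' < S.T, ∀ d : ℤ, -((n : ℤ) + 1) ≤ d → d ≤ n + 1 → ∀ D,
      S.Loc pats c c' d D → ∀ i < S.L, ∀ j < S.L,
      NoEv pats (S.chd c i) (S.chd c' j) (S.off c i) (S.b * d + S.off c' j) (S.Fn c i c' j d D)) :
    ∀ c < S.T, ∀ c' < S.T, ∀ d D, S.Loc pats c c' d D → ∀ i < S.L, ∀ j < S.L,
      NoEv pats (S.chd c i) (S.chd c' j) (S.off c i) (S.b * d + S.off c' j)
        (S.Fn c i c' j d D) := by
  intro c hc c' hc' d D hL i hi' j hj
  by_cases hd : -((n : ℤ) + 1) ≤ d ∧ d ≤ n + 1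
  · exact hnear c hc c' hc' d hd.1 hd.2 D hL i hi' j hj
  have hd' : (n : ℤ) + 2 ≤ d ∨ d ≤ -(n + 2) := by omega
  obtain ⟨h1, h2⟩ := hS.far hz hc hc' hi' hj hL hd'
  refine ⟨h1, fun h => h2 h.1.symm, fun h => h2 h.1.symm, fun P hP hPd => ?_⟩
  exfalso
  have h3 := hsm _ (K.chd_lt c hc i hi') _ (K.chd_lt c' hc' j hj)
  unfold smallP at h3
  rw [List.all_eq_true] at h3
  have h4 := h3 P hP
  rw [Bool.and_eq_true, decide_eq_true_eq, decide_eq_true_eq] at h4
  have ri := hS.rng c hc i hi'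
  have rj := hS.rng c' hc' j hj
  have hb : (0 : ℤ) ≤ S.b := by omega
  rcases hd' with hd' | hd'
  · have := mul_le_mul_of_nonneg_left hd' hb
    omega
  · have := mul_le_mul_of_nonneg_left hd' hb
    rw [show (S.b : ℤ) * -(n + 2) = -(S.b * (n + 2)) by ring] at this
    omega

end Tab

end LWG
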