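import Pool.Agent.LWG.Defs

/-!
# Typed substitutions of words: the child word

* `Tab.OK`: the facts about a table, **`Tab.OK.path`**: the child of a typed path is a typed path;
* **`Tab.OK.Lw_same`**, **`Tab.OK.Lw_window`**: differences of the child word.
-/

namespace LWG

open LevelWords

namespace Tab

variable (S : Tab)

/-- positions of the letters of a block of type `c` and of the next block, of type `c'` -/
def two (c c' r : ℕ) : ℤ :=
  if r < S.L then S.off c r else S.b * S.step c 0 + S.off c' (r - S.L)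

/-- facts about a table -/
structure OK : Prop where
  L0 : 0 < S.L
  b0 : 0 < S.b
  m1 : 1 ≤ S.m
  mL : S.m ≤ S.L
  chd_lt : ∀ c < S.T, ∀ r < S.L, S.chd c r < S.T
  chd_nxt : ∀ c < S.T, ∀ r, r + 1 < S.L → S.chd c (r + 1) ∈ S.nxt (S.chd c r)
  chd_across : ∀ c < S.T, ∀ c' ∈ S.nxt c, S.chd c' 0 ∈ S.nxt (S.chd c (S.L - 1))
  stR : ∀ c < S.T, ∀ c' ∈ S.nxt c, ∀ r < S.L, ∀ j < S.m,
    S.step (S.chd c r) j = S.two c c' (r + j + 1) - S.two c c' (r + j)
  stL : ∀ c < S.T, ∀ c' ∈ S.nxt c, ∀ r < S.L, ∀ j < S.m,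
    S.step (S.chd c' r) (-(j + 1 : ℕ)) = S.two c c' (S.L + r - j) - S.two c c' (S.L + r - (j + 1))
  id : ∀ c < S.T, ∀ y, S.part c 0 S.L y = S.comb (dl 0) y

variable {S}

theorem exists_pr (hL : 0 < S.L) (t : ℤ) : ∃ (p : ℤ) (r : ℕ), r < S.L ∧ t = S.L * p + r := by
  have h0 : (0 : ℤ) < S.L := by exact_mod_cast hL
  refine ⟨t / S.L, (t % S.L).toNat, ?_, ?_⟩
  · have := Int.emod_lt_of_pos t h0
    have := Int.emod_nonneg t h0.ne'
    omega
  · have := Int.emod_nonneg t h0.ne'
    rw [Int.toNat_of_nonneg this]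
    exact (Int.mul_ediv_add_emod t S.L).symm

theorem div_pr (p : ℤ) {r : ℕ} (hr : r < S.L) : (S.L * p + r : ℤ) / S.L = p := by
  have h0 : (0 : ℤ) < S.L := by omega
  rw [Int.add_comm, Int.add_mul_ediv_left _ _ h0.ne', Int.ediv_eq_zero_of_lt (by omega) (by omega)]
  omega

theorem mod_pr (p : ℤ) {r : ℕ} (hr : r < S.L) : ((S.L * p + r : ℤ) % S.L).toNat = r := by
  rw [Int.add_comm, Int.add_mul_emod_self_left, Int.emod_eq_of_lt (by omega) (by omega)]
  omega

theorem subW_eq (W : ℤ → ℤ) (ty : ℤ → ℕ) (p : ℤ) {r : ℕ} (hr : r < S.L) :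
    S.subW W ty (S.L * p + r) = S.b * W p + S.off (ty p) r := by
  unfold subW
  rw [div_pr p hr, mod_pr p hr]

theorem subT_eq (ty : ℤ → ℕ) (p : ℤ) {r : ℕ} (hr : r < S.L) :
    S.subT ty (S.L * p + r) = S.chd (ty p) r := by
  unfold subT
  rw [div_pr p hr, mod_pr p hr]

/-! ### the child of a typed path -/

section path

variable {W : ℤ → ℤ} {ty : ℤ → ℕ}

theorem Path.step0 (h : S.Path W ty) (hm : 1 ≤ S.m) (t : ℤ) : W (t + 1) = W t + S.step (ty t) 0 := by
  have := h.step t 0 (by omega) (by omega)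
  rwa [add_zero] at this

theorem subW_two (h : S.Path W ty) (hm : 1 ≤ S.m) (p : ℤ) {r : ℕ} (hr : r < 2 * S.L) :
    S.subW W ty (S.L * p + r) = S.b * W p + S.two (ty p) (ty (p + 1)) r := by
  unfold two
  split_ifs with h1
  · exact subW_eq W ty p h1
  · have h2 : (S.L * p + r : ℤ) = S.L * (p + 1) + ((r - S.L : ℕ) : ℤ) := by
      have : ((r - S.L : ℕ) : ℤ) = r - S.L := by omega
      rw [this]
      ring
    rw [h2, subW_eq W ty (p + 1) (by omega), h.step0 hm p]
    ring

theorem OK.path (K : S.OK) (h : S.Path W ty) : S.Path (S.subW W ty) (S.subT ty) where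
  lt t := by
    obtain ⟨p, r, hr, rfl⟩ := exists_pr K.L0 t
    rw [subT_eq ty p hr]
    exact K.chd_lt _ (h.lt p) r hr
  nxt t := by
    obtain ⟨p, r, hr, rfl⟩ := exists_pr K.L0 t
    rw [subT_eq ty p hr]
    rcases lt_or_ge (r + 1) S.L with h1 | h1
    · rw [show (S.L * p + r + 1 : ℤ) = S.L * p + ((r + 1 : ℕ) : ℤ) by push_cast; ring,
        subT_eq ty p h1]
      exact K.chd_nxt _ (h.lt p) r h1
    · have h2 : r = S.L - 1 := by omega
      have h3 : (S.L * p + r + 1 : ℤ) = S.L * (p + 1) + ((0 : ℕ) : ℤ) := by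
        have : (r : ℤ) = S.L - 1 := by omega
        rw [this]
        push_cast
        ring
      rw [h3, subT_eq ty (p + 1) K.L0, h2]
      exact K.chd_across _ (h.lt p) _ (h.nxt p)
  step t j hj1 hj2 := by
    obtain ⟨p, r, hr, rfl⟩ := exists_pr K.L0 t
    have hmL := K.mL
    rw [subT_eq ty p hr]
    rcases lt_or_ge j 0 with h0 | h0
    · obtain ⟨i, hi⟩ : ∃ i : ℕ, j = -((i + 1 : ℕ) : ℤ) := ⟨(-j - 1).toNat, by omega⟩
      subst hi
      have him : i < S.m := by omega
      have e1 := K.stL _ (h.lt (p - 1)) _ (h.nxt (p - 1)) r hr i him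
      have e2 := subW_two h K.m1 (p - 1) (show S.L + r - i < 2 * S.L by omega)
      have e3 := subW_two h K.m1 (p - 1) (show S.L + r - (i + 1) < 2 * S.L by omega)
      rw [show p - 1 + 1 = p by ring] at e1 e2 e3
      have e4 : (S.L * p + r + -((i + 1 : ℕ) : ℤ) + 1 : ℤ) =
          S.L * (p - 1) + ((S.L + r - i : ℕ) : ℤ) := by
        have : ((S.L + r - i : ℕ) : ℤ) = S.L + r - i := by omega
        rw [this]
        push_cast
        ring
      have e5 : (S.L * p + r + -((i + 1 : ℕ) : ℤ) : ℤ) =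
          S.L * (p - 1) + ((S.L + r - (i + 1) : ℕ) : ℤ) := by
        have : ((S.L + r - (i + 1) : ℕ) : ℤ) = S.L + r - (i + 1) := by omega
        rw [this]
        push_cast
        ring
      rw [e4, e5, e2, e3, e1]
      ring
    · obtain ⟨i, rfl⟩ : ∃ i : ℕ, j = (i : ℤ) := ⟨j.toNat, by omega⟩
      have him : i < S.m := by omega
      have e1 := K.stR _ (h.lt p) _ (h.nxt p) r hr i him
      have e2 := subW_two h K.m1 p (show r + i + 1 < 2 * S.L by omega)
      have e3 := subW_two h K.m1 p (show r + i < 2 * S.L by omega)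
      rw [show (S.L * p + r + (i : ℤ) + 1 : ℤ) = S.L * p + ((r + i + 1 : ℕ) : ℤ) by push_cast; ring,
        show (S.L * p + r + (i : ℤ) : ℤ) = S.L * p + ((r + i : ℕ) : ℤ) by push_cast; ring,
        e2, e3, e1]
      ring

end path

/-! ### refinement -/

theorem comb_add (f g : ℤ → ℤ) (z : ℤ) :
    S.comb (fun x => f x + g x) z = S.comb f z + S.comb g z := by
  unfold comb
  rw [← List.sum_map_add]
  congr 1
  refine List.map_congr_left fun k _ => ?_
  split_ifs
  · ring
  · simp

theorem comb_opp (f : ℤ → ℤ) (z : ℤ) : S.comb (fun x => - f x) z = - S.comb f z := by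
  have h := comb_add (S := S) f (fun x => - f x) z
  have h0 : S.comb (fun x => f x + - f x) z = 0 := by
    unfold comb
    refine List.sum_eq_zero fun x hx => ?_
    obtain ⟨k, -, rfl⟩ := List.mem_map.1 hx
    split_ifs <;> simp
  rw [h0] at h
  linarith

theorem comb_sub (f g : ℤ → ℤ) (z : ℤ) :
    S.comb (fun x => f x - g x) z = S.comb f z - S.comb g z := by
  have h := comb_add (S := S) f (fun x => - g x) z
  rw [comb_opp] at h
  simpa only [sub_eq_add_neg] using h

theorem comb_shift (hb : 0 < S.b) (f : ℤ → ℤ) (a z : ℤ) :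
    S.comb f (S.b * a + z) = S.comb (fun y => f (a + y)) z := by
  unfold comb
  congr 1
  refine List.map_congr_left fun k _ => ?_
  have hb' : (S.b : ℤ) ≠ 0 := by exact_mod_cast hb.ne'
  have h1 : S.b * a + z - S.e0 - k = z - S.e0 - k + S.b * a := by ring
  rw [h1, Int.add_mul_emod_self_left, Int.add_mul_ediv_left _ _ hb']
  simp only [add_comm a]

theorem comb_congr {f g : ℤ → ℤ} (h : ∀ y, f y = g y) (z : ℤ) : S.comb f z = S.comb g z := by
  rw [funext h]

/-! ### partial blocks -/

theorem part_self (c i : ℕ) (y : ℤ) : S.part c i i y = 0 := by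
  unfold part
  simp

theorem part_succ (c : ℕ) {i j : ℕ} (hij : i ≤ j) (y : ℤ) :
    S.part c i (j + 1) y = S.part c i j y + dl (S.off c j) y := by
  unfold part
  rw [show j + 1 - i = j - i + 1 by omega, List.range_succ, List.map_append, List.sum_append]
  simp [show i + (j - i) = j by omega]

theorem part_add (c : ℕ) {i k : ℕ} (hik : i ≤ k) (y : ℤ) : ∀ j, k ≤ j →
    S.part c i k y + S.part c k j y = S.part c i j y := by
  intro j hj
  induction j, hj using Nat.le_induction with
  | base => rw [part_self, add_zero]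
  | succ j hj ih => rw [part_succ c hj, part_succ c (hik.trans hj), ← ih]; ring

section window

variable (W : ℤ → ℤ) (ty : ℤ → ℕ)

theorem C_block (p z : ℤ) : ∀ r : ℕ, r ≤ S.L → C (S.subW W ty) z (S.L * p + r) =
    C (S.subW W ty) z (S.L * p) + S.part (ty p) 0 r (z - S.b * W p)
  | 0, _ => by simp [part_self]
  | r + 1, hr => by
    rw [show (S.L * p + ((r + 1 : ℕ) : ℤ)) = S.L * p + r + 1 by push_cast; ring, C_succ,
      C_block p z r (by omega), subW_eq W ty p (by omega), dl_shift, part_succ _ (Nat.zero_le r)]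
    ring

theorem dl_comb (hb : 0 < S.b) (a z : ℤ) : S.comb (dl 0) (z - S.b * a) = S.comb (dl a) z := by
  have h := comb_shift (S := S) hb (dl a) a (z - S.b * a)
  rw [show S.b * a + (z - S.b * a) = z by ring] at h
  rw [h]
  refine comb_congr (fun y => ?_) _
  have := dl_shift a 0 (a + y)
  rw [add_zero, show a + y - a = y by ring] at this
  exact this.symm

variable {W ty}

theorem OK.C_next (K : S.OK) (h : ∀ t, ty t < S.T) (p z : ℤ) :
    C (S.subW W ty) z (S.L * (p + 1)) = C (S.subW W ty) z (S.L * p) + S.comb (dl (W p)) z := by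
  have := C_block (S := S) W ty p z S.L le_rfl
  rw [show (S.L * (p + 1) : ℤ) = S.L * p + (S.L : ℕ) by ring, this, K.id _ (h p), dl_comb K.b0]

theorem OK.C_comb (K : S.OK) (h : ∀ t, ty t < S.T) (a b z : ℤ) :
    C (S.subW W ty) z (S.L * b) - C (S.subW W ty) z (S.L * a) = S.comb (E W a b) z := by
  have key : ∀ p : ℤ, C (S.subW W ty) z (S.L * p) - S.comb (fun x => C W x p) z =
      C (S.subW W ty) z (S.L * 0) - S.comb (fun x => C W x 0) z := by
    have hs : ∀ p : ℤ, C (S.subW W ty) z (S.L * (p + 1)) - S.comb (fun x => C W x (p + 1)) z =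
        C (S.subW W ty) z (S.L * p) - S.comb (fun x => C W x p) z := by
      intro p
      have h1 : S.comb (fun x => C W x (p + 1)) z = S.comb (fun x => C W x p) z +
          S.comb (dl (W p)) z := by
        rw [← comb_add]
        exact comb_congr (fun x => C_succ W x p) _
      rw [K.C_next h, h1]
      ring
    intro p
    induction p using Int.induction_on with
    | zero => rfl
    | succ n ih => rw [hs, ih]
    | pred n ih =>
      have := hs (-(n : ℤ) - 1)
      rw [show -(n : ℤ) - 1 + 1 = -n by ring] at this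
      rw [← this, ih]
  have h1 := key a
  have h2 := key b
  have h3 : S.comb (E W a b) z = S.comb (fun x => C W x b) z - S.comb (fun x => C W x a) z := by
    rw [← comb_sub]
    rfl
  rw [h3]
  linarith

theorem OK.E_window (K : S.OK) (h : ∀ t, ty t < S.T) (s e z : ℤ) {i j : ℕ} (hi : i < S.L)
    (hj : j ≤ S.L) : E (S.subW W ty) (S.L * s + i + 1) (S.L * e + j) z =
    S.part (ty s) (i + 1) S.L (z - S.b * W s) + S.comb (E W (s + 1) e) z +
      S.part (ty e) 0 j (z - S.b * W e) := by
  have h1 := C_block (S := S) W ty s z (i + 1) hi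
  have h2 := C_block (S := S) W ty e z j hj
  have h3 := C_block (S := S) W ty s z S.L le_rfl
  have h4 := K.C_comb (W := W) h (s + 1) e z
  have h5 := part_add (S := S) (ty s) (Nat.zero_le (i + 1)) (z - S.b * W s) S.L hi
  rw [show (S.L * (s + 1) : ℤ) = S.L * s + (S.L : ℕ) by ring, h3] at h4
  rw [show (S.L * s + ((i + 1 : ℕ) : ℤ)) = S.L * s + i + 1 by push_cast; ring] at h1
  unfold E at h4 ⊢
  linarith

theorem E_same (s z : ℤ) {i j : ℕ} (hij : i < j) (hj : j ≤ S.L) :
    E (S.subW W ty) (S.L * s + i + 1) (S.L * s + j) z =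
    S.part (ty s) (i + 1) j (z - S.b * W s) := by
  have h1 := C_block (S := S) W ty s z (i + 1) (by omega)
  have h2 := C_block (S := S) W ty s z j hj
  have h5 := part_add (S := S) (ty s) (Nat.zero_le (i + 1)) (z - S.b * W s) j hij
  rw [show (S.L * s + ((i + 1 : ℕ) : ℤ)) = S.L * s + i + 1 by push_cast; ring] at h1
  unfold E
  linarith

/-- **differences between two letters of one block** -/
theorem Lw_same (s : ℤ) {i j : ℕ} (hij : i < j) (hj : j < S.L) (y : ℤ) :
    Lw (S.subW W ty) (S.L * s + i) (S.L * s + j) y =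
      S.part (ty s) (i + 1) j (S.off (ty s) i + y) := by
  unfold Lw
  rw [subW_eq W ty s (hij.trans hj), E_same s _ hij hj.le]
  congr 1
  ring

/-- **differences between letters of two blocks** -/
theorem OK.Lw_window (K : S.OK) (h : ∀ t, ty t < S.T) (s e : ℤ) {i j : ℕ} (hi : i < S.L)
    (hj : j < S.L) (y : ℤ) :
    Lw (S.subW W ty) (S.L * s + i) (S.L * e + j) y =
      S.Fn (ty s) i (ty e) j (W e - W s) (Lw W s e) (S.off (ty s) i + y) := by
  unfold Lw
  rw [subW_eq W ty s hi, K.E_window h s e _ hi hj.le]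
  unfold Fn
  rw [show S.b * W s + S.off (ty s) i + y - S.b * W s = S.off (ty s) i + y by ring,
    show S.b * W s + S.off (ty s) i + y - S.b * W e =
      S.off (ty s) i + y - S.b * (W e - W s) by ring,
    show S.b * W s + S.off (ty s) i + y = S.b * W s + (S.off (ty s) i + y) by ring, comb_shift K.b0]

end window

end Tab

end LWG
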