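import Pool.Agent.LWG.KNearE

/-!
# The loops of the near windows in pieces

* `kpatA`, **`kpatChkE_of`**: the loop over the patterns, the first letters in pieces;
* `kevA`, **`kevChkE_of`**: the same for the minimal violations.
-/

set_option autoImplicit false

namespace LWG

theorem all_chunk {α : Type} {p : α → Bool} {l : List α} (k m : ℕ) (hl : l.length ≤ m * k)
    (h : ∀ t < m, ((l.drop (t * k)).take k).all p = true) : l.all p = true := by
  rw [List.all_eq_true]
  intro x hx
  obtain ⟨i, hi, rfl⟩ := List.getElem_of_mem hx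
  have hk : 0 < k := by
    rcases Nat.eq_zero_or_pos k with h0 | h0
    · rw [h0, Nat.mul_zero] at hl
      omega
    · exact h0
  have h1 := h (i / k) (Nat.div_lt_of_lt_mul (by rw [Nat.mul_comm]; omega))
  rw [List.all_eq_true] at h1
  refine h1 _ ?_
  have h2 : i / k * k + i % k = i := by
    rw [Nat.mul_comm]
    exact Nat.div_add_mod i k
  have h3 := Nat.mod_lt i hk
  rw [List.mem_iff_getElem?]
  refine ⟨i % k, ?_⟩
  rw [List.getElem?_take, if_pos h3, List.getElem?_drop, h2, List.getElem?_eq_getElem hi]

/-- all patterns of the types `f`, `f'`, the first letters `As` -/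
def kpatA (T : Dat) (pats pats' : ℕ → ℕ → List PatE) (PB : ℕ → List Ltr) (n : ℕ) (DM : ℤ)
    (f f' : ℕ) (As : List Ltr) : Bool :=
  As.all fun A => (pats' f f').all fun P => (PB f').all fun B => cellPE T pats n DM P A B

theorem kpatChkE_of {T : Dat} {pats pats' : ℕ → ℕ → List PatE} {PA PB : ℕ → List Ltr} {n : ℕ}
    {DM : ℤ} {f f' : ℕ} (k m : ℕ) (hl : (PA f).length ≤ m * k)
    (h : ∀ t < m, kpatA T pats pats' PB n DM f f' (((PA f).drop (t * k)).take k) = true) :
    kpatChkE T pats pats' PA PB n DM f f' = true := by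
  have h1 := all_chunk (p := fun A => (pats' f f').all fun P => (PB f').all fun B =>
    cellPE T pats n DM P A B) k m hl h
  unfold kpatChkE
  simp only [List.all_eq_true] at h1 ⊢
  exact fun P hP A hA B hB => h1 A hA P hP B hB

/-- all near distances, the first letters `As` -/
def kevA (T : Dat) (pats : ℕ → ℕ → List PatE) (M : DatM) (gN gP : List ℤ) (LB : ℕ → List Ltr)
    (n c' : ℕ) (As : List Ltr) : Bool :=
  As.all fun A => (nearD n).all fun d => (LB c').all fun B => kcellEE T pats M gN gP d A B

theorem kevChkE_of {T : Dat} {pats : ℕ → ℕ → List PatE} {M : DatM} {gN gP : List ℤ}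
    {LA LB : ℕ → List Ltr} {n c c' : ℕ} (k m : ℕ) (hl : (LA c).length ≤ m * k)
    (h : ∀ t < m, kevA T pats M gN gP LB n c' (((LA c).drop (t * k)).take k) = true) :
    kevChkE T pats M gN gP LA LB n c c' = true := by
  have h1 := all_chunk (p := fun A => (nearD n).all fun d => (LB c').all fun B =>
    kcellEE T pats M gN gP d A B) k m hl h
  unfold kevChkE
  simp only [List.all_eq_true] at h1 ⊢
  exact fun d hd A hA B hB => h1 A hA d hd B hB

end LWG
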