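import Pool.Agent.LevelWords.Uni

/-!
# Typed substitutions of words: definitions

`LevelWords.Uni` gives `dl`, `C`, `E` (differences of the letter counts in a window) and `Uni`.
-/

namespace LWG

open LevelWords

/-- A typed substitution. A letter `x` of type `c` is replaced by the letters
`b * x + (blk c)[r].1`, of the types `(blk c)[r].2`, `r < L`. -/
structure Tab where
  /-- base -/
  b : ℕ
  /-- letters of a block -/
  L : ℕ
  /-- number of types -/
  T : ℕ
  /-- number of steps known before, and after, a letter -/
  m : ℕ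
  /-- first index of `e` -/
  e0 : ℤ
  /-- refinement coefficients: mask divided by `1 + z + ... + z ^ (b - 1)` -/
  e : List ℤ
  /-- blocks -/
  blk : ℕ → List (ℤ × ℕ)
  /-- the steps from the letter `t + j` to the letter `t + j + 1`, `j = -m, ..., m - 1`, around a
  letter `t` of type `c` -/
  st : ℕ → List ℤ
  /-- types which may follow a type -/
  nxt : ℕ → List ℕ

/-- a list of values at consecutive edges, beginning at the edge `x` -/
def Agr (D : ℤ → ℤ) : ℤ → List ℤ → Prop
  | _, [] => True
  | x, d :: ds => D x = d ∧ Agr D (x + 1) ds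

/-- Differences of the letters strictly between `s` and `t`; edges relative to the letter `s`. -/
def Lw (W : ℤ → ℤ) (s t y : ℤ) : ℤ := E W (s + 1) t (W s + y)

/-- A forbidden pattern of a window from a letter `s` to a letter `t`: `W t - W s = d`, and the
values `v` on the edges `e, e + 1, ...` relative to `W s`. -/
structure Pat where
  d : ℤ
  e : ℤ
  v : List ℤ

/-- A condition `lo ≤ F g ≤ hi` on the fine differences; `hi = none`: no upper bound,
`lo = none`: no lower bound. -/
structure Con where
  g : ℤ
  lo : Option ℤ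
  hi : Option ℤ

def Con.ok (F : ℤ → ℤ) (c : Con) : Prop := (∀ x ∈ c.lo, x ≤ F c.g) ∧ ∀ x ∈ c.hi, F c.g ≤ x

namespace Tab

variable (S : Tab)

/-- offset of the letter `r` of a block -/
def off (c r : ℕ) : ℤ := ((S.blk c).getD r (0, 0)).1

/-- type of the letter `r` of a block -/
def chd (c r : ℕ) : ℕ := ((S.blk c).getD r (0, 0)).2

/-- step `j` around a letter of type `c`, `-m ≤ j < m`; `step c 0` is the step to the next letter -/
def step (c : ℕ) (j : ℤ) : ℤ := (S.st c).getD (j + S.m).toNat 0

/-- position of the letter `j` steps after (`j ≥ 0`) a letter of type `c`, relative to this letter -/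
def posR (c : ℕ) : ℕ → ℤ
  | 0 => 0
  | j + 1 => posR c j + S.step c j

/-- position of the letter `j` steps before a letter of type `c`, relative to this letter -/
def posL (c : ℕ) : ℕ → ℤ
  | 0 => 0
  | j + 1 => posL c j - S.step c (-(j + 1 : ℕ))

/-- the child word -/
def subW (W : ℤ → ℤ) (ty : ℤ → ℕ) (t : ℤ) : ℤ :=
  S.b * W (t / S.L) + S.off (ty (t / S.L)) (t % S.L).toNat

/-- the types of the child word -/
def subT (ty : ℤ → ℕ) (t : ℤ) : ℕ := S.chd (ty (t / S.L)) (t % S.L).toNat

/-- A typed path. -/
structure Path (W : ℤ → ℤ) (ty : ℤ → ℕ) : Prop where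
  lt : ∀ t, ty t < S.T
  nxt : ∀ t, ty (t + 1) ∈ S.nxt (ty t)
  step : ∀ t j, -(S.m : ℤ) ≤ j → j < S.m → W (t + j + 1) = W (t + j) + S.step (ty t) j

/-- refinement of differences -/
def comb (D : ℤ → ℤ) (g : ℤ) : ℤ :=
  ((List.range S.e.length).map fun (k : ℕ) => if (g - S.e0 - k) % S.b = 0 then
    S.e.getD k 0 * D ((g - S.e0 - k) / S.b) else 0).sum

/-- differences of the letters `i, i + 1, ..., j - 1` of a block -/
def part (c i j : ℕ) (y : ℤ) : ℤ :=
  ((List.range (j - i)).map fun r => dl (S.off c (i + r)) y).sum

/-- Differences strictly between the letter `i` of a block of type `c` and the letter `j` of a later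
block of type `c'`, when `D` are the differences strictly between the coarse letters, and `d` their
distance. Edges relative to `b * (coarse letter)`. -/
def Fn (c i c' j : ℕ) (d : ℤ) (D : ℤ → ℤ) (g : ℤ) : ℤ :=
  S.part c (i + 1) S.L g + S.comb D g + S.part c' 0 j (g - S.b * d)

/-- sum of `dl (p j)`, `j < k` -/
def dls (p : ℕ → ℤ) (k : ℕ) (y : ℤ) : ℤ := ((List.range k).map fun j => dl (p j) y).sum

/-- Changes of a window at its start: the letters `s, s - 1, ..., s - m` are added, or the letters
`s + 1, ..., s + m` are removed. Edges relative to `W s`. -/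
def lops (c : ℕ) : List (ℤ → ℤ) :=
  ((List.range (S.m + 2)).map fun k => dls (S.posL c) k) ++
    (List.range S.m).map fun k y => - dls (fun j => S.posR c (j + 1)) (k + 1) y

/-- Changes of a window at its end `t`, at the distance `d`. -/
def rops (c : ℕ) (d : ℤ) : List (ℤ → ℤ) :=
  ((List.range (S.m + 2)).map fun k => dls (fun j => d + S.posR c j) k) ++
    (List.range S.m).map fun k y => - dls (fun j => d + S.posL c (j + 1)) (k + 1) y

/-- What is known about the differences strictly between two letters of the types `c`, `c'` at the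
distance `d`, if there are at least `2 m` letters between them. -/
structure Loc (pats : ℕ → ℕ → List Pat) (c c' : ℕ) (d : ℤ) (D : ℤ → ℤ) : Prop where
  adm : ∀ l ∈ S.lops c, ∀ r ∈ S.rops c' d, Uni fun y => D y + (l y + r y)
  pat : ∀ P ∈ pats c c', P.d = d → ¬ Agr D P.e P.v

end Tab

/-- The invariant. `pats c c'` are the forbidden patterns of windows between letters of types `c`
and `c'`. -/
structure Good (S : Tab) (pats : ℕ → ℕ → List Pat) (W : ℤ → ℤ) (ty : ℤ → ℕ) : Prop where
  path : S.Path W ty
  uni : ∀ a b, a ≤ b → Uni (E W a b)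
  pat : ∀ s t, s < t → ∀ P ∈ pats (ty s) (ty t), P.d = W t - W s → ¬ Agr (Lw W s t) P.e P.v

end LWG
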