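import Pool.Agent.LWG.Ref

/-!
# Substitution words: the events as systems of constraints

`F z = N z + K.comb D z` are the fine differences strictly between two letters `A`, `B`: `N` is the
known noise (differences of the partial blocks), `D` the coarse differences. The three minimal
violations of unimodality (`LevelWords.Ev1`, `Ev2`, `Ev3`) become systems `Holds`, which are refuted
by `go`; `Ev3` is `Ev2` of the mirror image.
-/

namespace LWG

open LevelWords (Uni Ev1 Ev2 Ev3 dl dl_cases)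

/-- the values at `z, ..., z + n - 1` are zero -/
def eqs (N : ℤ → ℤ) : ℕ → ℤ → List Cn
  | 0, _ => []
  | n + 1, z => .eq (- N z) :: eqs N n (z + 1)

/-- the values at `z, ..., z + n - 1` are zero until the first positive one -/
def zps (N : ℤ → ℤ) : ℕ → ℤ → List Cn
  | 0, _ => []
  | n + 1, z => .zp (- N z) :: zps N n (z + 1)

/-- mirror image of differences -/
def mir (D : ℤ → ℤ) (y : ℤ) : ℤ := - D (-1 - y)

theorem mir_mir (D : ℤ → ℤ) : mir (mir D) = D := by
  funext y
  unfold mir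
  rw [show -1 - (-1 - y) = y by ring, neg_neg]

variable {K : Co} {D F N : ℤ → ℤ}

theorem holds_eqs (hF : ∀ z, F z = N z + K.comb D z) : ∀ (n : ℕ) (z : ℤ),
    (∀ w, z ≤ w → w < z + n → F w = 0) → Holds K D True z (eqs N n z)
  | 0, _, _ => trivial
  | n + 1, z, h => by
    refine ⟨?_, holds_eqs hF n (z + 1) fun w h1 h2 => h w (by omega) (by push_cast; omega)⟩
    have h1 := h z le_rfl (by push_cast; omega)
    rw [hF] at h1
    omega

theorem holds_zps (hF : ∀ z, F z = N z + K.comb D z) {Z y : ℤ} (hN : ∀ z, Z < z → N z = 0)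
    (hy : 0 < F y) (h0 : ∀ z < y, 0 ≤ F z) : ∀ (n : ℕ) (z : ℤ), z ≤ y → Z < z + n →
    Holds K D (∃ y, Z < y ∧ 0 < K.comb D y) z (zps N n z)
  | 0, z, h1, h2 => by
    refine ⟨y, by push_cast at h2; omega, ?_⟩
    have := hF y
    rw [hN y (by push_cast at h2; omega)] at this
    omega
  | n + 1, z, h1, h2 => by
    have h3 := hF z
    rcases eq_or_lt_of_le h1 with h4 | h4
    · refine Or.inl ?_
      rw [h4] at h3 ⊢
      omega
    · rcases eq_or_lt_of_le (h0 z h4) with h5 | h5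
      · exact Or.inr ⟨by omega, holds_zps hF hN hy h0 n (z + 1) (by omega) (by push_cast at h2; omega)⟩
      · exact Or.inl (by omega)

/-- the constraints of the event `Ev2` -/
def ev2C (N : ℤ → ℤ) (A Z : ℤ) : List Cn := .eq (1 - N A) :: zps N (Z - A).toNat (A + 1)

theorem holds_ev2 (hF : ∀ z, F z = N z + K.comb D z) {A B Z : ℤ} (hN : ∀ z, Z < z → N z = 0)
    (h : Ev2 A B F) : Holds K D (∃ y, Z < y ∧ 0 < K.comb D y) A (ev2C N A Z) := by
  obtain ⟨-, h1, y, h2, h3, h4⟩ := h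
  rw [hF] at h1
  exact ⟨by omega, holds_zps hF hN h3 h4 _ _ (by omega) (by omega)⟩

theorem ev3_mir {A B : ℤ} (h : Ev3 A B F) : Ev2 (-A) (-B) (mir F) := by
  obtain ⟨h0, h1, y, h2, h3, h4⟩ := h
  refine ⟨by omega, ?_, -1 - y, by omega, ?_, fun z hz => ?_⟩
  · unfold mir
    rw [show -1 - -A = A - 1 by ring, h1]
    rfl
  · unfold mir
    rw [show -1 - (-1 - y) = y by ring]
    omega
  · have := h4 (-1 - z) (by omega)
    unfold mir
    omega

/-- The three events are impossible: `A`, `B` the two letters, `N` the noise, zero beyond `Z`, its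
mirror image zero beyond `Z'`. `R`, `U`, `Q1`, `Q2` are leaf functions for `D`, and `R'`, `U'`,
`Q2'` for the mirror image. -/
def chkEv (K K' : Co) (X : ℕ) (R U Q1 Q2 R' U' Q2' : ℤ → List En → Bool) (A B : ℤ) (N : ℤ → ℤ)
    (Z Z' : ℤ) : Bool :=
  if 2 ≤ B - A then go K X R U Q1 A (eqs N (B - A).toNat A)
  else if 2 ≤ A - B then go K X R U Q1 B (eqs N (A - B).toNat B)
  else if B = A then
    go K X R U Q2 A (ev2C N A Z) && go K' X R' U' Q2' (-A) (ev2C (mir N) (-A) Z')
  else true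

theorem chkEv_sound {K' : Co} {X : ℕ} {R U Q1 Q2 R' U' Q2' : ℤ → List En → Bool} {A B Z Z' : ℤ}
    (hK : K.Nn) (hK' : K'.Nn) (hm : ∀ z, K'.comb (mir D) z = mir (K.comb D) z)
    (hR : ∀ I vec, SatD D I vec → R I vec = true → False)
    (hU : ∀ I vec, SatD D I vec → U I vec = true → False)
    (hQ1 : ∀ I vec, SatD D I vec → Q1 I vec = true → False)
    (hQ2 : ∀ I vec, SatD D I vec → (∃ y, Z < y ∧ 0 < K.comb D y) → Q2 I vec = true → False)
    (hR' : ∀ I vec, SatD (mir D) I vec → R' I vec = true → False)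
    (hU' : ∀ I vec, SatD (mir D) I vec → U' I vec = true → False)
    (hQ2' : ∀ I vec, SatD (mir D) I vec → (∃ y, Z' < y ∧ 0 < K'.comb (mir D) y) →
      Q2' I vec = true → False)
    (hF : ∀ z, F z = N z + K.comb D z) (hN : ∀ z, Z < z → N z = 0)
    (hN' : ∀ z, Z' < z → mir N z = 0)
    (h : chkEv K K' X R U Q1 Q2 R' U' Q2' A B N Z Z' = true) :
    ¬ Ev1 A B F ∧ ¬ Ev2 A B F ∧ ¬ Ev3 A B F := by
  unfold chkEv at h
  have q1 : ∀ I vec, SatD D I vec → True → Q1 I vec = true → False := fun I vec h1 _ => hQ1 I vec h1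
  split_ifs at h with c1 c2 c3
  · refine ⟨?_, fun h1 => ?_, fun h1 => ?_⟩
    · rintro (⟨h1, h2⟩ | ⟨h1, h2⟩)
      · exact go_sound hR hU q1 hK
          (holds_eqs hF _ _ fun w h3 h4 => h2 w h3 (by omega)) h
      · omega
    · have := h1.1
      omega
    · have := h1.1
      omega
  · refine ⟨?_, fun h1 => ?_, fun h1 => ?_⟩
    · rintro (⟨h1, h2⟩ | ⟨h1, h2⟩)
      · omega
      · exact go_sound hR hU q1 hK
          (holds_eqs hF _ _ fun w h3 h4 => h2 w h3 (by omega)) h
    · have := h1.1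
      omega
    · have := h1.1
      omega
  · rw [Bool.and_eq_true] at h
    refine ⟨?_, fun h1 => ?_, fun h1 => ?_⟩
    · rintro (⟨h1, -⟩ | ⟨h1, -⟩) <;> omega
    · exact go_sound hR hU hQ2 hK (holds_ev2 hF hN h1) h.1
    · have hF' : ∀ z, mir F z = mir N z + K'.comb (mir D) z := fun z => by
        rw [hm]
        unfold mir
        rw [hF]
        ring
      exact go_sound hR' hU' hQ2' hK' (holds_ev2 hF' hN' (ev3_mir h1)) h.2
  · refine ⟨?_, fun h1 => ?_, fun h1 => ?_⟩
    · rintro (⟨h1, -⟩ | ⟨h1, -⟩) <;> omega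
    · exact c3 h1.1
    · exact c3 h1.1

/-! ## The noise -/

/-- The known part of the fine differences. -/
def Tab.noise (S : Tab) (c i c' j : ℕ) (d g : ℤ) : ℤ :=
  S.part c (i + 1) S.L g + S.part c' 0 j (g - S.b * d)

theorem Tab.Fn_eq (S : Tab) (c i c' j : ℕ) (d : ℤ) (D : ℤ → ℤ) (g : ℤ) :
    S.Fn c i c' j d D g = S.noise c i c' j d g + S.comb D g := by
  unfold Tab.Fn Tab.noise
  ring

theorem sum_range_dl_zero {f : ℕ → ℤ} {y : ℤ} : ∀ n : ℕ, (∀ r < n, y ≠ f r - 1 ∧ y ≠ f r) →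
    ((List.range n).map fun r => dl (f r) y).sum = 0
  | 0, _ => rfl
  | n + 1, h => by
    rw [List.range_succ, List.map_append, List.sum_append,
      sum_range_dl_zero n fun r hr => h r (by omega)]
    have := h n (by omega)
    rcases dl_cases (f n) y with h' | h' | h'
    · exact absurd h'.1 this.1
    · exact absurd h'.1 this.2
    · simp [h'.2.2]

theorem Tab.part_zero (S : Tab) {c i j : ℕ} {w1 w2 y : ℤ}
    (h : ∀ r, i ≤ r → r < j → w1 ≤ S.off c r ∧ S.off c r ≤ w2) (hy : y < w1 - 1 ∨ w2 < y) :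
    S.part c i j y = 0 := by
  refine sum_range_dl_zero _ fun r hr => ?_
  have := h (i + r) (by omega) (by omega)
  omega

/-- All offsets are between `w1` and `w2`. -/
def Tab.Bd (S : Tab) (w1 w2 : ℤ) : Prop :=
  ∀ c < S.T, ∀ r < S.L, w1 ≤ S.off c r ∧ S.off c r ≤ w2

theorem Tab.noise_right (S : Tab) {c i c' j : ℕ} {d w1 w2 : ℤ} (hB : S.Bd w1 w2) (hc : c < S.T)
    (hc' : c' < S.T) (hj : j ≤ S.L) {z : ℤ} (hz : max w2 (S.b * d + w2) < z) :
    S.noise c i c' j d z = 0 := by
  unfold Tab.noise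
  rw [S.part_zero (fun r _ h2 => hB c hc r h2) (Or.inr (by omega)),
    S.part_zero (fun r _ h2 => hB c' hc' r (by omega)) (Or.inr (by omega))]
  rfl

theorem Tab.noise_left (S : Tab) {c i c' j : ℕ} {d w1 w2 : ℤ} (hB : S.Bd w1 w2) (hc : c < S.T)
    (hc' : c' < S.T) (hj : j ≤ S.L) {z : ℤ} (hz : max (-w1) (-(S.b * d + w1)) < z) :
    mir (S.noise c i c' j d) z = 0 := by
  unfold mir Tab.noise
  rw [S.part_zero (fun r _ h2 => hB c hc r h2) (Or.inl (by omega)),
    S.part_zero (fun r _ h2 => hB c' hc' r (by omega)) (Or.inl (by omega))]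
  rfl

end LWG
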