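import Pool.Agent.LWG.Tie
import Pool.Agent.LWG.Close

/-!
# Substitution words: forbidden patterns of the child windows

* `NzOK`: noise vectors of the letters (`okNz`, a check);
* `Ltr`, `ParOK`: parents tables (`okPar`, a check);
* `cellP`: one pattern and one pair of parents, `patChk`: all, **`pat_near`**: no forbidden pattern
  between two child letters, if the coarse letters are near.
-/

namespace LWG

open LevelWords (Uni dl dl_cases)

variable {S : Tab}

/-! ## Noise vectors -/

/-- `NB c` lists the differences before the letters `0, ..., L` of a block, `NA c` those after the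
letters `0, ..., L - 1`; vectors on the edges `n0, ..., n0 + len - 1` -/
def Tab.okNz (S : Tab) (n0 : ℤ) (len : ℕ) (NA NB : ℕ → List (List ℤ)) (c : ℕ) : Bool :=
  ((List.range (S.L + 1)).all fun j => Nat.beq ((NB c).getD j []).length len) &&
  ((List.range len).all fun k => zeB (((NB c).getD 0 []).getD k 0)) &&
  ((List.range S.L).all fun j =>
    !negB (S.off c j - 1 - n0) && posB (n0 + len - S.off c j) &&
    (List.range len).all fun k => zeB (((NB c).getD j []).getD k 0 + dl (S.off c j) (n0 + k) -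
      ((NB c).getD (j + 1) []).getD k 0)) &&
  ((List.range S.L).all fun i => Nat.beq ((NA c).getD i []).length len &&
    (List.range len).all fun k => zeB (((NA c).getD i []).getD k 0 +
      ((NB c).getD (i + 1) []).getD k 0 - ((NB c).getD S.L []).getD k 0))

/-- the noise vectors of the letters -/
structure NzOK (S : Tab) (n0 : ℤ) (NA NB : ℕ → List (List ℤ)) : Prop where
  a : ∀ c < S.T, ∀ i < S.L, ∀ y, nz n0 ((NA c).getD i []) y = S.part c (i + 1) S.L y
  b : ∀ c < S.T, ∀ j < S.L, ∀ y, nz n0 ((NB c).getD j []) y = S.part c 0 j y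

theorem nz_out {n0 : ℤ} {v : List ℤ} {y : ℤ} (h : y < n0 ∨ n0 + v.length ≤ y) : nz n0 v y = 0 := by
  unfold nz
  rcases hy : y - n0 with n | n
  · have : y - n0 = (n : ℤ) := hy
    simp only
    rw [List.getD_eq_getElem?_getD, List.getElem?_eq_none (by omega)]
    rfl
  · rfl

theorem nz_in {n0 : ℤ} {v : List ℤ} {y : ℤ} (h : n0 ≤ y) : nz n0 v y = v.getD (y - n0).toNat 0 := by
  unfold nz
  rcases hy : y - n0 with n | n
  · rfl
  · have : y - n0 = Int.negSucc n := hy
    have := Int.negSucc_lt_zero n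
    omega

theorem negB_false {x : ℤ} (h : negB x = false) : 0 ≤ x := by
  by_contra hc
  rw [negB_iff.2 (by omega)] at h
  simp at h

theorem nzOK_of {n0 : ℤ} {len : ℕ} {NA NB : ℕ → List (List ℤ)}
    (h : ∀ c < S.T, S.okNz n0 len NA NB c = true) : NzOK S n0 NA NB := by
  have hb : ∀ c < S.T, ∀ j ≤ S.L, ∀ y, nz n0 ((NB c).getD j []) y = S.part c 0 j y := by
    intro c hc
    have h1 := h c hc
    simp only [Tab.okNz, Bool.and_eq_true, List.all_eq_true, List.mem_range, Nat.beq_eq,
      Bool.not_eq_true', posB_iff, zeB_iff] at h1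
    obtain ⟨⟨⟨h1, h2⟩, h3⟩, -⟩ := h1
    intro j
    induction j with
    | zero =>
      intro _ y
      rw [Tab.part_self]
      rcases lt_or_ge y n0 with h4 | h4
      · exact nz_out (Or.inl h4)
      · rcases lt_or_ge y (n0 + len) with h5 | h5
        · rw [nz_in h4]
          exact h2 _ (by omega)
        · exact nz_out (Or.inr (by rw [h1 0 (by omega)]; exact h5))
    | succ j ih =>
      intro hj y
      rw [Tab.part_succ c (Nat.zero_le j), ← ih (by omega)]
      obtain ⟨⟨h4, h5⟩, h6⟩ := h3 j (by omega)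
      have h4 := negB_false h4
      rcases lt_or_ge y n0 with h7 | h7
      · rw [nz_out (Or.inl h7), nz_out (Or.inl h7)]
        rcases dl_cases (S.off c j) y with h' | h' | h' <;> omega
      · rcases lt_or_ge y (n0 + len) with h8 | h8
        · rw [nz_in h7, nz_in h7]
          have := h6 (y - n0).toNat (by omega)
          rw [show n0 + ((y - n0).toNat : ℤ) = y by omega] at this
          omega
        · rw [nz_out (Or.inr (by rw [h1 (j + 1) (by omega)]; exact h8)),
            nz_out (Or.inr (by rw [h1 j (by omega)]; exact h8))]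
          rcases dl_cases (S.off c j) y with h' | h' | h' <;> omega
  refine ⟨fun c hc i hi y => ?_, fun c hc j hj => hb c hc j hj.le⟩
  have h1 := h c hc
  simp only [Tab.okNz, Bool.and_eq_true, List.all_eq_true, List.mem_range, Nat.beq_eq,
    Bool.not_eq_true', posB_iff, zeB_iff] at h1
  obtain ⟨⟨⟨h1, -⟩, -⟩, h2⟩ := h1
  obtain ⟨h3, h4⟩ := h2 i hi
  have h5 := Tab.part_add (S := S) c (Nat.zero_le (i + 1)) y S.L hi
  rw [← hb c hc (i + 1) hi, ← hb c hc S.L le_rfl] at h5
  rcases lt_or_ge y n0 with h7 | h7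
  · rw [nz_out (Or.inl h7), nz_out (Or.inl h7)] at h5
    rw [nz_out (Or.inl h7)]
    omega
  · rcases lt_or_ge y (n0 + len) with h8 | h8
    · rw [nz_in h7, nz_in h7] at h5
      rw [nz_in h7]
      have := h4 (y - n0).toNat (by omega)
      omega
    · rw [nz_out (Or.inr (by rw [h1 (i + 1) (by omega)]; exact h8)),
        nz_out (Or.inr (by rw [h1 S.L (by omega)]; exact h8))] at h5
      rw [nz_out (Or.inr (by rw [h3]; exact h8))]
      omega

/-! ## Parents -/

/-- a letter of a block: type of the block, offset, noise vector -/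
structure Ltr where
  c : ℕ
  o : ℤ
  v : List ℤ

def eqL : List ℤ → List ℤ → Bool
  | [], [] => true
  | a :: l, b :: l' => zeB (a - b) && eqL l l'
  | _, _ => false

theorem eqL_iff : ∀ {l l' : List ℤ}, eqL l l' = true → l = l'
  | [], [], _ => rfl
  | [], _ :: _, h => by simp [eqL] at h
  | _ :: _, [], h => by simp [eqL] at h
  | a :: l, b :: l', h => by
    simp only [eqL, Bool.and_eq_true, zeB_iff] at h
    rw [eqL_iff h.2, show a = b by omega]

def Ltr.eqb (A B : Ltr) : Bool := Nat.beq A.c B.c && zeB (A.o - B.o) && eqL A.v B.v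

theorem Ltr.eqb_iff {A B : Ltr} (h : A.eqb B = true) : A = B := by
  simp only [Ltr.eqb, Bool.and_eq_true, Nat.beq_eq, zeB_iff] at h
  obtain ⟨⟨h1, h2⟩, h3⟩ := h
  cases A
  cases B
  simp only at h1 h2 h3
  rw [h1, eqL_iff h3]
  congr 1
  omega

/-- `PA f` lists all letters of type `f`, with the noise after it, `PB f` with the noise before -/
structure ParOK (S : Tab) (NA NB : ℕ → List (List ℤ)) (PA PB : ℕ → List Ltr) : Prop where
  a : ∀ c < S.T, ∀ i < S.L, ⟨c, S.off c i, (NA c).getD i []⟩ ∈ PA (S.chd c i)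
  b : ∀ c < S.T, ∀ j < S.L, ⟨c, S.off c j, (NB c).getD j []⟩ ∈ PB (S.chd c j)

def Tab.okPar (S : Tab) (NA NB : ℕ → List (List ℤ)) (PA PB : ℕ → List Ltr) (c : ℕ) : Bool :=
  (List.range S.L).all fun i =>
    ((PA (S.chd c i)).any fun A => A.eqb ⟨c, S.off c i, (NA c).getD i []⟩) &&
    ((PB (S.chd c i)).any fun B => B.eqb ⟨c, S.off c i, (NB c).getD i []⟩)

theorem parOK_of {NA NB : ℕ → List (List ℤ)} {PA PB : ℕ → List Ltr}
    (h : ∀ c < S.T, S.okPar NA NB PA PB c = true) : ParOK S NA NB PA PB := by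
  refine ⟨fun c hc i hi => ?_, fun c hc i hi => ?_⟩ <;>
  · have h1 := h c hc
    simp only [Tab.okPar, List.all_eq_true, List.mem_range, Bool.and_eq_true, List.any_eq_true] at h1
    obtain ⟨⟨A, hA, hA'⟩, B, hB, hB'⟩ := h1 i hi
    first
      | rw [← Ltr.eqb_iff hA']; exact hA
      | rw [← Ltr.eqb_iff hB']; exact hB

/-! ## The cells -/

/-- the data of the refuter -/
structure Dat where
  K : Co
  /-- range of the enumeration of values -/
  X : ℕ
  /-- top edge of the vectors of changes -/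
  m : ℕ
  /-- first edge of the noise vectors -/
  n0 : ℤ
  /-- vectors of the changes at the start and at the end -/
  lv : ℕ → List (List ℤ)
  rv : ℕ → List (List ℤ)
  /-- certificates for the elimination -/
  σ : Sol

structure DatOK (S : Tab) (T : Dat) : Prop where
  tie : Tie S T.K
  sol : okSol T.K T.σ 5 = true
  pos : ∀ c < S.T, S.okPos T.m c = true
  lv : ∀ c < S.T, ∀ v ∈ T.lv c, v ∈ S.lvec T.m c
  rv : ∀ c < S.T, ∀ v ∈ T.rv c, v ∈ S.rvec T.m c

theorem DatOK.loc {T : Dat} (h : DatOK S T) {pats : ℕ → ℕ → List Pat} {c c' : ℕ} (hc : c < S.T)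
    (hc' : c' < S.T) {d : ℤ} {D : ℤ → ℤ} (hL : S.Loc pats c c' d D) :
    LocV T.m (T.lv c) (T.rv c') (pats c c') d D :=
  locV_of hL (h.pos c hc) (h.pos c' hc') (h.lv c hc) (h.rv c' hc')

/-- The pattern `P` does not occur between the child letters `A` and `B`, if the distance of the
coarse letters is at most `DM`. -/
def cellP (T : Dat) (pats : ℕ → ℕ → List Pat) (DM : ℤ) (P : Pat) (A B : Ltr) : Bool :=
  !zeB ((P.d - B.o + A.o) % T.K.b) ||
  posB ((P.d - B.o + A.o) / T.K.b - DM) || posB (-DM - (P.d - B.o + A.o) / T.K.b) ||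
  exV T.K T.σ T.X T.m (T.lv A.c) (T.rv B.c) (pats A.c B.c) ((P.d - B.o + A.o) / T.K.b) T.n0
    (P.d - B.o + A.o) (A.o + P.e) P.v A.v B.v

/-- all patterns of the types `f`, `f'`, all parents -/
def patChk (T : Dat) (pats : ℕ → ℕ → List Pat) (PA PB : ℕ → List Ltr) (DM : ℤ) (f f' : ℕ) : Bool :=
  (pats f f').all fun P => (PA f).all fun A => (PB f').all fun B => cellP T pats DM P A B

/-- **no forbidden pattern between two child letters** -/
theorem pat_near {T : Dat} (hT : DatOK S T) {NA NB : ℕ → List (List ℤ)} (hZ : NzOK S T.n0 NA NB)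
    {PA PB : ℕ → List Ltr} (hP : ParOK S NA NB PA PB) {pats : ℕ → ℕ → List Pat} {DM : ℤ}
    (hc : ∀ f < S.T, ∀ f' < S.T, ∀ P ∈ pats f f', ∀ A ∈ PA f, ∀ B ∈ PB f',
      cellP T pats DM P A B = true)
    (hchd : ∀ c < S.T, ∀ r < S.L, S.chd c r < S.T)
    {c c' : ℕ} (hc1 : c < S.T) (hc2 : c' < S.T) {d : ℤ} {D : ℤ → ℤ} (hL : S.Loc pats c c' d D)
    (hd1 : -DM ≤ d) (hd2 : d ≤ DM) {i j : ℕ} (hi : i < S.L) (hj : j < S.L) :
    ∀ P ∈ pats (S.chd c i) (S.chd c' j), P.d = S.b * d + S.off c' j - S.off c i →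
      ¬ Agr (S.Fn c i c' j d D) (S.off c i + P.e) P.v := by
  intro P hP1 hP2
  have h1 := hc _ (hchd c hc1 i hi) _ (hchd c' hc2 j hj) P hP1 _ (hP.a c hc1 i hi) _
    (hP.b c' hc2 j hj)
  have hb' : (S.b : ℤ) ≠ 0 := by exact_mod_cast hT.tie.b0.ne'
  have e1 : P.d - S.off c' j + S.off c i = S.b * d := by rw [hP2]; ring
  unfold cellP at h1
  simp only [e1, hT.tie.b, Int.mul_emod_right, Int.mul_ediv_cancel_left _ hb', Bool.or_eq_true,
    Bool.not_eq_true', posB_iff] at h1
  rcases h1 with ((h1 | h1) | h1) | h1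
  · exact absurd h1 (by decide)
  · omega
  · omega
  · refine exV_sound hT.tie.nn' hT.sol (hT.loc hc1 hc2 hL) (fun z => ?_) h1
    rw [hZ.a c hc1 i hi, hZ.b c' hc2 j hj, hT.tie.comb]
    rfl

end LWG
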