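import Pool.Agent.LWG.EvV
import Pool.Agent.LWG.Pat

/-!
# Substitution words: no events in the near windows

* `LocV.mirror`: what is known about the mirror image;
* **`ev_of`**: `evK` for one pair of letters gives no `Ev1`, `Ev2`, `Ev3`, in terms of `Tab.Fn`;
* `DatM`: data of the mirror image; `cellE`: one pair of letters; **`ev_near`**: no events between two
  child letters, if the coarse letters are near; **`noEv_near`**: the hypothesis `hN` of `good_sub` for
  near letters;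
* `evChk`: all letters of two blocks.
-/

namespace LWG

open LevelWords (Uni Ev1 Ev2 Ev3 dl)

variable {D : ℤ → ℤ}

/-! ## Mirror image -/

theorem uni_mir (h : Uni D) : Uni (mir D) := by
  intro x y hxy h1 h2
  unfold mir at h1 h2
  exact h (-1 - y) (-1 - x) (by omega) (by omega) (by omega)

theorem vf_mv {m : ℕ} {v : List ℤ} (hv : v.length = 2 * m + 2) (y : ℤ) :
    vf m (mv v) y = - vf m v (-1 - y) := by
  unfold vf
  rcases h : (m : ℤ) - y with n | n
  · have h1 : (m : ℤ) - y = (n : ℤ) := h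
    rcases h' : (m : ℤ) - (-1 - y) with k | k
    · have h2 : (m : ℤ) - (-1 - y) = (k : ℤ) := h'
      have hnk : k = v.length - 1 - n := by omega
      simp only [mv, List.getD_eq_getElem?_getD, List.getElem?_map]
      rw [List.getElem?_reverse (by omega), ← hnk, List.getElem?_eq_getElem (show k < v.length by omega)]
      rfl
    · have h2 : (m : ℤ) - (-1 - y) = -(k + 1 : ℤ) := by rw [h', Int.negSucc_eq]
      simp only
      rw [List.getD_eq_getElem?_getD, List.getElem?_eq_none (by rw [mv_length, hv]; omega)]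
      rfl
  · have h1 : (m : ℤ) - y = -(n + 1 : ℤ) := by rw [h, Int.negSucc_eq]
    rcases h' : (m : ℤ) - (-1 - y) with k | k
    · have h2 : (m : ℤ) - (-1 - y) = (k : ℤ) := h'
      simp only
      rw [List.getD_eq_getElem?_getD, List.getElem?_eq_none (by omega)]
      rfl
    · rfl

/-- mirror image of a pattern -/
def Pat.mr (P : Pat) : Pat := ⟨-P.d, -P.e - P.v.length, mv P.v⟩

theorem agr_append {F : ℤ → ℤ} : ∀ (l₁ l₂ : List ℤ) (x : ℤ), Agr F x (l₁ ++ l₂) ↔
    Agr F x l₁ ∧ Agr F (x + l₁.length) l₂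
  | [], l₂, x => by simp [Agr]
  | e :: l₁, l₂, x => by
    have ih := agr_append (F := F) l₁ l₂ (x + 1)
    simp only [List.cons_append, Agr, List.length_cons, ih]
    rw [show x + 1 + (l₁.length : ℤ) = x + ((l₁.length + 1 : ℕ) : ℤ) by push_cast; ring]
    tauto

theorem agr_mir : ∀ (v : List ℤ) (e : ℤ), Agr (mir D) (-e - v.length) (mv v) → Agr D e v
  | [], _, _ => trivial
  | a :: v, e, h => by
    unfold mv at h
    rw [List.reverse_cons, List.map_append, agr_append] at h
    obtain ⟨h1, h2, -⟩ := h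
    rw [List.length_map, List.length_reverse, List.length_cons] at h2
    refine ⟨?_, agr_mir v (e + 1) ?_⟩
    · unfold mir at h2
      rw [show -1 - (-e - ((v.length + 1 : ℕ) : ℤ) + v.length) = e by push_cast; ring] at h2
      exact neg_injective h2
    · unfold mv
      rwa [List.length_cons, show -e - ((v.length + 1 : ℕ) : ℤ) = -(e + 1) - v.length by
        push_cast; ring] at h1

/-- **what is known about the mirror image** -/
theorem LocV.mirror {m : ℕ} {lv rv : List (List ℤ)} {ps : List Pat} {d : ℤ}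
    (h : LocV m lv rv ps d D) (hl : ∀ v ∈ lv, v.length = 2 * m + 2)
    (hr : ∀ v ∈ rv, v.length = 2 * m + 2) :
    LocV m (lv.map mv) (rv.map mv) (ps.map Pat.mr) (-d) (mir D) where
  adm l hl' r hr' := by
    rw [List.mem_map] at hl' hr'
    obtain ⟨l, h1, rfl⟩ := hl'
    obtain ⟨r, h2, rfl⟩ := hr'
    have h3 := uni_mir (h.adm l h1 r h2)
    have h4 : (fun y => mir D y + (vf m (mv l) y + vf m (mv r) (y - -d))) =
        mir fun y => D y + (vf m l y + vf m r (y - d)) := by
      funext y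
      rw [vf_mv (hl l h1), vf_mv (hr r h2)]
      unfold mir
      rw [show -1 - (y - -d) = -1 - y - d by ring]
      ring
    rw [h4]
    exact h3
  pat P hP hd hA := by
    rw [List.mem_map] at hP
    obtain ⟨P, h1, rfl⟩ := hP
    have h2 : -P.d = -d := hd
    exact h.pat P h1 (by omega) (agr_mir _ _ hA)

theorem length_lvec {S : Tab} {m c : ℕ} {v : List ℤ} (h : v ∈ S.lvec m c) :
    v.length = 2 * m + 2 := by
  unfold Tab.lvec at h
  rw [List.mem_map] at h
  obtain ⟨f, -, rfl⟩ := h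
  simp [tabD]

theorem length_rvec {S : Tab} {m c : ℕ} {v : List ℤ} (h : v ∈ S.rvec m c) :
    v.length = 2 * m + 2 := by
  unfold Tab.rvec at h
  rw [List.mem_map] at h
  obtain ⟨f, -, rfl⟩ := h
  simp [tabD]

variable {S : Tab} {K K' : Co}

/-! ## One pair of letters -/

/-- maximum -/
def mx (a b : ℤ) : ℤ := bif negB (a - b) then b else a

theorem mx_ge (a b : ℤ) : a ≤ mx a b ∧ b ≤ mx a b := by
  unfold mx
  rcases h : negB (a - b) with _ | _
  · have : ¬ a - b < 0 := fun h' => by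
      rw [negB_iff.2 h'] at h
      simp at h
    simp only [cond_false]
    omega
  · have := negB_iff.1 h
    simp only [cond_true]
    omega

/-- No event between a letter `A` of the first block and a letter `B` of the last block, at the
coarse distance `d`, `bd = b * d`. `u`, `w`: noise vectors, of length `N`, listed from the edge `n0`
up. `lv`, `rv`, `ps`: what is known about the coarse differences, and the mirror images of it.
`nk`: the number of coefficients is at most `nk + 1`. -/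
def evK (K K' : Co) (σ σ' : Sol) (X : ℕ) (nk m : ℤ) (lv rv : List (List ℤ)) (ps : List Pat)
    (lv' rv' : List (List ℤ)) (ps' : List Pat) (d bd n0 : ℤ) (N : ℕ) (A : ℤ) (u : List ℤ) (B : ℤ)
    (w : List ℤ) : Bool :=
  evV K K' σ σ' X m lv rv ps m lv' rv' ps' d n0 N bd (mx (mx (n0 + N) (bd + n0 + N) - 1) (A + nk))
    (mx (mx (-n0) (-bd - n0) - 1) (nk - A)) nk A B u w

/-- the number of coefficients is at most `nk + 1` -/
def Co.ln (K : Co) (b : ℕ) (nk : ℤ) : Bool :=
  (List.range b).all fun r => decide (((K.cs r).length : ℤ) ≤ nk + 1)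

theorem Co.len_of (hT : Tie S K) {nk : ℤ} (h : K.ln S.b nk = true) (z : ℤ) :
    ((K.ks z).length : ℤ) ≤ nk + 1 := by
  simp only [Co.ln, List.all_eq_true, List.mem_range, decide_eq_true_eq] at h
  have hb' : (0 : ℤ) < S.b := by exact_mod_cast hT.b0
  have h0 := Int.emod_nonneg (z - K.e0) hb'.ne'
  have h1 := Int.emod_lt_of_pos (z - K.e0) hb'
  have := h ((z - K.e0) % S.b).toNat (by omega)
  rw [Int.toNat_of_nonneg h0] at this
  unfold Co.ks
  rw [hT.b]
  exact this

/-- **no event between two letters** -/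
theorem ev_of (hT : Tie S K) (hT' : Tie S.mirT K') {σ σ' : Sol} (hσ : okSol K σ 5 = true)
    (hσ' : okSol K' σ' 5 = true) {X : ℕ} {nk : ℤ} (hl : K.ln S.b nk = true)
    (hl' : K'.ln S.b nk = true) {pats : ℕ → ℕ → List Pat} {c c' i j m : ℕ} {d : ℤ}
    (h : S.Loc pats c c' d D) (hp : S.okPos m c = true) (hp' : S.okPos m c' = true)
    {lv rv : List (List ℤ)} (hlv : ∀ v ∈ lv, v ∈ S.lvec m c) (hrv : ∀ v ∈ rv, v ∈ S.rvec m c')
    {ps : List Pat} (hps : ∀ P ∈ ps, P ∈ pats c c') {n0 : ℤ} {N : ℕ} {u w : List ℤ}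
    (hu : u.length = N) (hw : w.length = N) (hu' : ∀ y, nz n0 u y = S.part c (i + 1) S.L y)
    (hw' : ∀ y, nz n0 w y = S.part c' 0 j y)
    (hc : evK K K' σ σ' X nk m lv rv ps (lv.map mv) (rv.map mv) (ps.map Pat.mr) d (S.b * d) n0 N
      (S.off c i) u (S.b * d + S.off c' j) w = true) :
    ¬ Ev1 (S.off c i) (S.b * d + S.off c' j) (S.Fn c i c' j d D) ∧
    ¬ Ev2 (S.off c i) (S.b * d + S.off c' j) (S.Fn c i c' j d D) ∧
    ¬ Ev3 (S.off c i) (S.b * d + S.off c' j) (S.Fn c i c' j d D) := by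
  have hV0 : LocV m lv rv (pats c c') d D := locV_of h hp hp' hlv hrv
  have hV : LocV m lv rv ps d D := ⟨hV0.adm, fun P hP => hV0.pat P (hps P hP)⟩
  have hb : 0 < K.b := by
    rw [hT.b]
    exact_mod_cast hT.b0
  have hb' : 0 < K'.b := by
    rw [hT'.b]
    exact_mod_cast hT'.b0
  have e1 := mx_ge (n0 + N) (S.b * d + n0 + N)
  have e2 := mx_ge (-n0) (-(S.b * d) - n0)
  have e3 := mx_ge (mx (n0 + N) (S.b * d + n0 + N) - 1) (S.off c i + nk)
  have e4 := mx_ge (mx (-n0) (-(S.b * d) - n0) - 1) (nk - S.off c i)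
  refine evV_sound hT.nn' hT'.nn' hσ hσ' hb hb' (Co.len_of hT hl) (Co.len_of hT' hl') (fun z => ?_) hV
    (hV.mirror (fun v hv => length_lvec (hlv v hv)) fun v hv => length_rvec (hrv v hv))
    (fun z => ?_) hu hw (by omega) (by omega) hc
  · rw [hT'.comb, comb_mir hT.b0]
    unfold mir
    rw [hT.comb]
  · rw [hu', hw', hT.comb]
    rfl

/-! ## All pairs of letters -/

/-- data of the mirror image, and bounds -/
structure DatM where
  K : Co
  /-- the number of coefficients is at most `nk + 1` -/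
  nk : ℤ
  /-- length of the noise vectors -/
  N : ℕ
  /-- mirror images of the vectors of changes -/
  lv : ℕ → List (List ℤ)
  rv : ℕ → List (List ℤ)
  /-- mirror images of the patterns -/
  ps : ℕ → ℕ → List Pat
  /-- certificates for the elimination -/
  σ : Sol

structure DatMOK (S : Tab) (T : Dat) (pats : ℕ → ℕ → List Pat) (NA NB : ℕ → List (List ℤ))
    (M : DatM) : Prop where
  tie : Tie S.mirT M.K
  sol : okSol M.K M.σ 5 = true
  ln : T.K.ln S.b M.nk = true
  ln' : M.K.ln S.b M.nk = true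
  na : ∀ c < S.T, ∀ i < S.L, ((NA c).getD i []).length = M.N
  nb : ∀ c < S.T, ∀ i < S.L, ((NB c).getD i []).length = M.N
  lv : ∀ c < S.T, M.lv c = (T.lv c).map mv
  rv : ∀ c < S.T, M.rv c = (T.rv c).map mv
  ps : ∀ c < S.T, ∀ c' < S.T, M.ps c c' = (pats c c').map Pat.mr

theorem okNz_na {n0 : ℤ} {len : ℕ} {NA NB : ℕ → List (List ℤ)} {c : ℕ}
    (h : S.okNz n0 len NA NB c = true) {i : ℕ} (hi : i < S.L) : ((NA c).getD i []).length = len := by
  simp only [Tab.okNz, Bool.and_eq_true, List.all_eq_true, List.mem_range, Nat.beq_eq] at h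
  exact (h.2 i hi).1

theorem okNz_nb {n0 : ℤ} {len : ℕ} {NA NB : ℕ → List (List ℤ)} {c : ℕ}
    (h : S.okNz n0 len NA NB c = true) {i : ℕ} (hi : i < S.L) : ((NB c).getD i []).length = len := by
  simp only [Tab.okNz, Bool.and_eq_true, List.all_eq_true, List.mem_range, Nat.beq_eq] at h
  exact h.1.1.1 i (by omega)

/-- no event between the letters `A` and `B`, at the coarse distance `d` -/
def cellE (T : Dat) (pats : ℕ → ℕ → List Pat) (M : DatM) (d : ℤ) (A B : Ltr) : Bool :=
  evK T.K M.K T.σ M.σ T.X M.nk T.m (T.lv A.c) (T.rv B.c) (pats A.c B.c) (M.lv A.c) (M.rv B.c) (M.ps A.c B.c)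
    d (T.K.b * d) T.n0 M.N A.o A.v (T.K.b * d + B.o) B.v

/-- **no event between two child letters** -/
theorem ev_near {T : Dat} (hT : DatOK S T) {NA NB : ℕ → List (List ℤ)} (hZ : NzOK S T.n0 NA NB)
    {pats : ℕ → ℕ → List Pat} {M : DatM} (hM : DatMOK S T pats NA NB M) {c c' : ℕ} (hc : c < S.T)
    (hc' : c' < S.T) {d : ℤ} {D : ℤ → ℤ} (hL : S.Loc pats c c' d D) {i j : ℕ} (hi : i < S.L)
    (hj : j < S.L)
    (h : cellE T pats M d ⟨c, S.off c i, (NA c).getD i []⟩ ⟨c', S.off c' j, (NB c').getD j []⟩ =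
      true) :
    ¬ Ev1 (S.off c i) (S.b * d + S.off c' j) (S.Fn c i c' j d D) ∧
    ¬ Ev2 (S.off c i) (S.b * d + S.off c' j) (S.Fn c i c' j d D) ∧
    ¬ Ev3 (S.off c i) (S.b * d + S.off c' j) (S.Fn c i c' j d D) := by
  unfold cellE at h
  simp only [hM.lv c hc, hM.rv c' hc', hM.ps c hc c' hc', hT.tie.b] at h
  exact ev_of hT.tie hM.tie hT.sol hM.sol hM.ln hM.ln' hL (hT.pos c hc) (hT.pos c' hc') (hT.lv c hc)
    (hT.rv c' hc') (fun P hP => hP) (hM.na c hc i hi) (hM.nb c' hc' j hj) (hZ.a c hc i hi)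
    (hZ.b c' hc' j hj) h

/-- **no event and no forbidden pattern between two child letters**, if the coarse letters are near -/
theorem noEv_near {T : Dat} (hT : DatOK S T) {NA NB : ℕ → List (List ℤ)}
    (hZ : NzOK S T.n0 NA NB) {PA PB : ℕ → List Ltr} (hP : ParOK S NA NB PA PB)
    {pats : ℕ → ℕ → List Pat} {M : DatM} (hM : DatMOK S T pats NA NB M) {DM : ℤ}
    (hc : ∀ f < S.T, ∀ f' < S.T, ∀ P ∈ pats f f', ∀ A ∈ PA f, ∀ B ∈ PB f',
      cellP T pats DM P A B = true)
    (hE : ∀ c < S.T, ∀ c' < S.T, ∀ d : ℤ, -DM ≤ d → d ≤ DM → ∀ i < S.L, ∀ j < S.L,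
      cellE T pats M d ⟨c, S.off c i, (NA c).getD i []⟩ ⟨c', S.off c' j, (NB c').getD j []⟩ = true)
    (hchd : ∀ c < S.T, ∀ r < S.L, S.chd c r < S.T) {c : ℕ} (hc1 : c < S.T) {c' : ℕ}
    (hc2 : c' < S.T) {d : ℤ} (hd1 : -DM ≤ d) (hd2 : d ≤ DM) {D : ℤ → ℤ}
    (hL : S.Loc pats c c' d D) {i : ℕ} (hi : i < S.L) {j : ℕ} (hj : j < S.L) :
    NoEv pats (S.chd c i) (S.chd c' j) (S.off c i) (S.b * d + S.off c' j)
      (S.Fn c i c' j d D) := by
  obtain ⟨h1, h2, h3⟩ := ev_near hT hZ hM hc1 hc2 hL hi hj (hE c hc1 c' hc2 d hd1 hd2 i hi j hj)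
  exact ⟨h1, h2, h3, pat_near hT hZ hP hc hchd hc1 hc2 hL hd1 hd2 hi hj⟩

/-! ## The loop -/

/-- near distances: `- n, ..., n` -/
def nearD : ℕ → List ℤ
  | 0 => [.ofNat 0]
  | n + 1 => .ofNat (n + 1) :: .negSucc n :: nearD n

theorem mem_nearD : ∀ (n : ℕ) {d : ℤ}, -(n : ℤ) ≤ d → d ≤ n → d ∈ nearD n
  | 0, d, h1, h2 => by
    have : d = 0 := by
      push_cast at h1 h2
      omega
    subst this
    exact List.mem_singleton.2 rfl
  | n + 1, d, h1, h2 => by
    push_cast at h1 h2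
    by_cases h3 : d = n + 1
    · subst h3
      exact List.mem_cons_self
    · by_cases h4 : d = -(n + 1 : ℤ)
      · subst h4
        refine List.mem_cons_of_mem _ ?_
        rw [show -((n : ℤ) + 1) = Int.negSucc n by rw [Int.negSucc_eq]]
        exact List.mem_cons_self
      · exact List.mem_cons_of_mem _ (List.mem_cons_of_mem _ (mem_nearD n (by omega) (by omega)))

/-- all letters of two blocks, all near distances; `LA c`, `LB c` list the letters of a block -/
def evChk (T : Dat) (pats : ℕ → ℕ → List Pat) (M : DatM) (LA LB : ℕ → List Ltr) (n c c' : ℕ) :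
    Bool :=
  (nearD n).all fun d => (LA c).all fun A => (LB c').all fun B => cellE T pats M d A B

/-- `LA`, `LB` list all letters of the blocks -/
structure LtrOK (S : Tab) (NA NB : ℕ → List (List ℤ)) (LA LB : ℕ → List Ltr) : Prop where
  a : ∀ c < S.T, ∀ i < S.L, ⟨c, S.off c i, (NA c).getD i []⟩ ∈ LA c
  b : ∀ c < S.T, ∀ j < S.L, ⟨c, S.off c j, (NB c).getD j []⟩ ∈ LB c

/-- all letters of a block, with the noise `NV` -/
def Tab.ltrs (S : Tab) (NV : ℕ → List (List ℤ)) (c : ℕ) : List Ltr :=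
  (List.range S.L).map fun i => ⟨c, S.off c i, (NV c).getD i []⟩

theorem ltrOK_of (S : Tab) (NA NB : ℕ → List (List ℤ)) :
    LtrOK S NA NB (S.ltrs NA) (S.ltrs NB) :=
  ⟨fun _ _ i hi => List.mem_map.2 ⟨i, List.mem_range.2 hi, rfl⟩,
    fun _ _ i hi => List.mem_map.2 ⟨i, List.mem_range.2 hi, rfl⟩⟩

theorem evChk_sound {T : Dat} {NA NB : ℕ → List (List ℤ)} {pats : ℕ → ℕ → List Pat} {M : DatM}
    {LA LB : ℕ → List Ltr} (hLt : LtrOK S NA NB LA LB) {n : ℕ}
    (h : ∀ c < S.T, ∀ c' < S.T, evChk T pats M LA LB n c c' = true) :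
    ∀ c < S.T, ∀ c' < S.T, ∀ d : ℤ, -(n : ℤ) ≤ d → d ≤ n → ∀ i < S.L, ∀ j < S.L,
      cellE T pats M d ⟨c, S.off c i, (NA c).getD i []⟩ ⟨c', S.off c' j, (NB c').getD j []⟩ =
        true := by
  intro c hc c' hc' d hd1 hd2 i hi j hj
  have h1 := h c hc c' hc'
  unfold evChk at h1
  simp only [List.all_eq_true] at h1
  exact h1 d (mem_nearD n hd1 hd2) _ (hLt.a c hc i hi) _ (hLt.b c' hc' j hj)

end LWG
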