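import Pool.Agent.LWG.Ker
import Pool.Agent.LWG.EvT

/-!
# Substitution words: the check of the minimal violations, with a kernel

`kevV`: the window from a letter `A` of the first block to a letter `B` of the last block, both
included, is not a minimal violation (`KEv`), for the noise vectors `u` at `0`, `w` at `bd` (both
letters included).
-/

namespace LWG

open LevelWords

variable {K K' : Co} {D F : ℤ → ℤ} {g : List ℤ}

/-! ## Constraints -/

/-- `-1`, then zeros, then a positive value -/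
def evS (N : ℤ → ℤ) (x Z : ℤ) : List Cn := .eq (-1 - N x) :: zps N (Z - x).toNat (x + 1)

theorem holds_zps' {N : ℤ → ℤ} (hF : ∀ z, F z = N z + K.comb D z) {Z y : ℤ}
    (hN : ∀ z, Z < z → N z = 0) (hy : 0 < F y) : ∀ (n : ℕ) (z : ℤ), z ≤ y → Z < z + n →
    (∀ w, z ≤ w → w < y → F w = 0) → Holds K D (∃ y, Z < y ∧ 0 < K.comb D y) z (zps N n z)
  | 0, z, h1, h2, _ => by
    refine ⟨y, by push_cast at h2; omega, ?_⟩
    have := hF y
    rw [hN y (by push_cast at h2; omega)] at this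
    omega
  | n + 1, z, h1, h2, h0 => by
    have h3 := hF z
    rcases eq_or_lt_of_le h1 with h4 | h4
    · refine Or.inl ?_
      rw [h4] at h3 ⊢
      omega
    · have h5 := h0 z le_rfl h4
      exact Or.inr ⟨by omega, holds_zps' hF hN hy n (z + 1) (by omega) (by push_cast at h2; omega)
        fun w h6 h7 => h0 w (by omega) h7⟩

theorem holds_evS {N : ℤ → ℤ} (hF : ∀ z, F z = N z + K.comb D z) {x y Z : ℤ}
    (hN : ∀ z, Z < z → N z = 0) (hxy : x < y) (hx : F x = -1) (hy : 0 < F y)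
    (h0 : ∀ z, x < z → z < y → F z = 0) :
    Holds K D (∃ y, Z < y ∧ 0 < K.comb D y) x (evS N x Z) :=
  ⟨by have := hF x; omega, holds_zps' hF hN hy _ _ (by omega) (by omega)
    fun w h1 h2 => h0 w (by omega) h2⟩

/-- zeros, then `1` -/
def eqO (N : ℤ → ℤ) : ℕ → ℤ → List Cn
  | 0, z => [.eq (1 - N z)]
  | n + 1, z => .eq (- N z) :: eqO N n (z + 1)

/-- `-1`, then `n` zeros, then `1` -/
def evX (N : ℤ → ℤ) (x : ℤ) (n : ℕ) : List Cn := .eq (-1 - N x) :: eqO N n (x + 1)

theorem holds_eqO {N : ℤ → ℤ} (hF : ∀ z, F z = N z + K.comb D z) : ∀ (n : ℕ) (z : ℤ),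
    F (z + n) = 1 → (∀ w, z ≤ w → w < z + n → F w = 0) → Holds K D True z (eqO N n z)
  | 0, z, h1, _ => by
    rw [Nat.cast_zero, add_zero] at h1
    exact ⟨by have := hF z; omega, trivial⟩
  | n + 1, z, h1, h0 => by
    refine ⟨?_, holds_eqO hF n (z + 1) ?_ fun w h2 h3 => h0 w (by omega) (by push_cast; omega)⟩
    · have := h0 z le_rfl (by push_cast; omega)
      rw [hF] at this
      omega
    · rw [show z + 1 + (n : ℤ) = z + ((n + 1 : ℕ) : ℤ) by push_cast; ring]
      exact h1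

theorem holds_evX {N : ℤ → ℤ} (hF : ∀ z, F z = N z + K.comb D z) {x y : ℤ} (hxy : x < y)
    (hx : F x = -1) (hy : F y = 1) (h0 : ∀ z, x < z → z < y → F z = 0) :
    Holds K D True x (evX N x (y - x - 1).toNat) := by
  refine ⟨by have := hF x; omega, holds_eqO hF _ _ ?_ fun w h1 h2 => h0 w (by omega) (by omega)⟩
  rw [show x + 1 + ((y - x - 1).toNat : ℤ) = y by omega]
  exact hy

/-! ## The same with noise vectors -/

def tgS (n : ℕ) (a b : List ℤ) : List Cn := .eq (.negSucc 0 - (hd a + hd b)) :: tgZ n a.tail b.tail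

def tgO : ℕ → List ℤ → List ℤ → List Cn
  | 0, a, b => [.eq (.ofNat 1 - (hd a + hd b))]
  | n + 1, a, b => .eq (-(hd a + hd b)) :: tgO n a.tail b.tail

def tgX (n : ℕ) (a b : List ℤ) : List Cn := .eq (.negSucc 0 - (hd a + hd b)) :: tgO n a.tail b.tail

theorem tgS_eq {N u w : ℤ → ℤ} (hN : ∀ z, N z = u z + w z) {x Z : ℤ} {a b : List ℤ}
    (ha : ValA u x a) (hb : ValA w x b) : tgS (Z - x).toNat a b = evS N x Z := by
  rw [tgS, evS, tgZ_eq hN _ ha.tail hb.tail, ha.hd, hb.hd, hN]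
  rfl

theorem tgO_eq {N u w : ℤ → ℤ} (hN : ∀ z, N z = u z + w z) : ∀ (n : ℕ) {x : ℤ} {a b : List ℤ},
    ValA u x a → ValA w x b → tgO n a b = eqO N n x
  | 0, x, a, b, ha, hb => by
    rw [tgO, eqO, ha.hd, hb.hd, hN]
    rfl
  | n + 1, x, a, b, ha, hb => by
    rw [tgO, eqO, tgO_eq hN n ha.tail hb.tail, ha.hd, hb.hd, hN]

theorem tgX_eq {N u w : ℤ → ℤ} (hN : ∀ z, N z = u z + w z) (n : ℕ) {x : ℤ} {a b : List ℤ}
    (ha : ValA u x a) (hb : ValA w x b) : tgX n a b = evX N x n := by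
  rw [tgX, evX, tgO_eq hN n ha.tail hb.tail, ha.hd, hb.hd, hN]
  rfl

/-- `-1` at `x`, zeros, a positive value: impossible -/
def kS (K : Co) (σ : Sol) (X : ℕ) (m : ℤ) (lv rv : List (List ℤ)) (ps : List Pat)
    (d n0 bd Z nk x : ℤ) (u w : List ℤ) : Bool :=
  goX K σ X (leaf m lv rv ps d) (inadm m lv rv d) (leafF m lv rv ps d (K.tp (Z + 1) - nk)) x
    (tgS (Z - x).toNat (sha n0 u x) (sha n0 w (x - bd)))

/-- `-1` at `x`, `n` zeros, `1`: impossible -/
def kX (K : Co) (σ : Sol) (X : ℕ) (m : ℤ) (lv rv : List (List ℤ)) (ps : List Pat)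
    (d n0 bd x : ℤ) (n : ℕ) (u w : List ℤ) : Bool :=
  goX K σ X (leaf m lv rv ps d) (inadm m lv rv d) (leaf m lv rv ps d) x
    (tgX n (sha n0 u x) (sha n0 w (x - bd)))

variable {m : ℤ} {lv rv : List (List ℤ)} {ps : List Pat} {d : ℤ}

theorem kS_sound (hN : K.Nn) {σ : Sol} (hσ : okSol K σ 5 = true) (hb : 0 < K.b) {nk : ℤ}
    (hl : ∀ z, ((K.ks z).length : ℤ) ≤ nk + 1) (h : LocV m lv rv ps d D) {X : ℕ}
    {n0 bd Z x : ℤ} {u w : List ℤ} (hF : ∀ z, F z = nz n0 u z + K.comb D z + nz n0 w (z - bd))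
    (hu : n0 + u.length ≤ Z + 1) (hw : bd + n0 + w.length ≤ Z + 1)
    (hc : kS K σ X m lv rv ps d n0 bd Z nk x u w = true) {y : ℤ} (hxy : x < y) (hx : F x = -1)
    (hy : 0 < F y) (h0 : ∀ z, x < z → z < y → F z = 0) : False := by
  unfold kS at hc
  rw [tgS_eq (N := fun z => nz n0 u z + nz n0 w (z - bd)) (fun _ => rfl) (val_sha n0 u x)
    (val_sha' n0 w x bd)] at hc
  have hZ : ∀ z, Z < z → nz n0 u z + nz n0 w (z - bd) = 0 := fun z hz => by
    rw [nz_zero (by omega), nz_zero (by omega)]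
    rfl
  exact goX_sound (P := ∃ y, Z < y ∧ 0 < K.comb D y) h.leaf (fun _ _ hv => h.inadm hv)
    (fun I vec hv hP => by
      obtain ⟨y, hy, hy'⟩ := hP
      exact h.leafF (comb_pos hN hb hl hy hy') I vec hv) hN
    hσ (holds_evS (F := F) (fun z => by rw [hF]; ring) hZ hxy hx hy h0) hc

theorem kX_sound (hN : K.Nn) {σ : Sol} (hσ : okSol K σ 5 = true) (h : LocV m lv rv ps d D) {X : ℕ}
    {n0 bd x : ℤ} {u w : List ℤ} (hF : ∀ z, F z = nz n0 u z + K.comb D z + nz n0 w (z - bd))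
    {y : ℤ} (hc : kX K σ X m lv rv ps d n0 bd x (y - x - 1).toNat u w = true) (hxy : x < y)
    (hx : F x = -1) (hy : F y = 1) (h0 : ∀ z, x < z → z < y → F z = 0) : False := by
  unfold kX at hc
  rw [tgX_eq (N := fun z => nz n0 u z + nz n0 w (z - bd)) (fun _ => rfl) _ (val_sha n0 u x)
    (val_sha' n0 w x bd)] at hc
  exact goX_sound (P := True) h.leaf (fun _ _ hv => h.inadm hv)
    (fun I vec hv _ => h.leaf I vec hv) hN
    hσ (holds_evX (F := F) (fun z => by rw [hF]; ring) hxy hx hy h0) hc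

/-! ## One pair of letters -/

/-- `x` is in the list -/
def memB (x : ℤ) : List ℤ → Bool
  | [] => false
  | a :: l => zeB (x - a) || memB x l

theorem memB_of {x : ℤ} : ∀ {l : List ℤ}, x ∈ l → memB x l = true
  | [], h => by simp at h
  | a :: l, h => by
    rw [memB, Bool.or_eq_true, zeB_iff]
    rcases List.mem_cons.1 h with h | h
    · exact Or.inl (by omega)
    · exact Or.inr (memB_of h)

/-- `gN`, `gP` list the edges where the letter `0` has the convolved difference `-1`, `1` -/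
structure Sgn (g : List ℤ) (gN gP : List ℤ) : Prop where
  n : ∀ y, prof g 0 y = -1 → y ∈ gN
  p : ∀ y, prof g 0 y = 1 → y ∈ gP

/-- No minimal violation between the letters `A`, `B` (included in the noise). The primed data
belong to the mirror image. -/
def kevV (K K' : Co) (σ σ' : Sol) (X : ℕ) (m : ℤ) (lv rv : List (List ℤ)) (ps : List Pat)
    (lv' rv' : List (List ℤ)) (ps' : List Pat) (d n0 : ℤ) (N : ℕ) (bd Z Z' nk : ℤ)
    (gN gP : List ℤ) (A B : ℤ) (u w : List ℤ) : Bool :=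
  (gN.all fun x => !memB (A + x - B) gN ||
    kS K σ X m lv rv ps d n0 bd (mx Z (A + x + nk)) nk (A + x) u w) &&
  (gP.all fun y => !memB (A + y - B) gP ||
    kS K' σ' X m lv' rv' ps' (-d) (-n0 - N) (-bd) (mx Z' (nk - 1 - (A + y))) nk (-1 - (A + y))
      (mv u) (mv w)) &&
  (gN.all fun x => gP.all fun y => (!posB (B + y - (A + x)) ||
    kX K σ X m lv rv ps d n0 bd (A + x) (B + y - (A + x) - 1).toNat u w) &&
    (!posB (A + y - (B + x)) ||
    kX K σ X m lv rv ps d n0 bd (B + x) (A + y - (B + x) - 1).toNat u w))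

theorem or_not {a b : Bool} (h : (!a || b) = true) (ha : a = true) : b = true := by
  rw [ha] at h
  simpa using h

theorem kevV_sound (hN : K.Nn) (hN' : K'.Nn) {σ σ' : Sol} (hσ : okSol K σ 5 = true)
    (hσ' : okSol K' σ' 5 = true) (hb : 0 < K.b) (hb' : 0 < K'.b) {nk : ℤ}
    (hl : ∀ z, ((K.ks z).length : ℤ) ≤ nk + 1) (hl' : ∀ z, ((K'.ks z).length : ℤ) ≤ nk + 1)
    (hm : ∀ z, K'.comb (mir D) z = mir (K.comb D) z) (h : LocV m lv rv ps d D)
    {lv' rv' : List (List ℤ)} {ps' : List Pat} (h' : LocV m lv' rv' ps' (-d) (mir D)) {X N : ℕ}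
    {n0 bd Z Z' A B : ℤ} {u w : List ℤ}
    (hF : ∀ z, F z = nz n0 u z + K.comb D z + nz n0 w (z - bd)) (hu : u.length = N)
    (hw : w.length = N) (hZ : max (n0 + N) (bd + n0 + N) ≤ Z + 1)
    (hZ' : max (-n0) (-bd - n0) ≤ Z' + 1) {gN gP : List ℤ} (hg : Sgn g gN gP)
    (hc : kevV K K' σ σ' X m lv rv ps lv' rv' ps' d n0 N bd Z Z' nk gN gP A B u w = true) :
    ¬ KEv g A B F := by
  unfold kevV at hc
  simp only [Bool.and_eq_true, List.all_eq_true] at hc
  obtain ⟨⟨hc1, hc2⟩, hc3⟩ := hc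
  rintro ⟨x, y, hxy, hx, hy, h0, hA, hB⟩
  simp only [prof_eq g A, prof_eq g B] at hA hB
  have e1 := mx_ge Z (x + nk)
  have e2 := mx_ge Z' (nk - 1 - y)
  rcases hA with ⟨a1, a2⟩ | ⟨a1, a2⟩ <;> rcases hB with ⟨b1, b2⟩ | ⟨b1, b2⟩
  · -- both negative at `x`
    have h1 := hc1 _ (hg.n _ a1)
    rw [show A + (x - A) = x by ring] at h1
    have h2 := or_not h1 (memB_of (hg.n _ b1))
    exact kS_sound hN hσ hb hl h hF (by omega) (by omega) h2 hxy a2 hy h0
  · -- negative at `x`, positive at `y`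
    have h1 := (hc3 _ (hg.n _ a1) _ (hg.p _ b1)).1
    rw [show A + (x - A) = x by ring, show B + (y - B) - x = y - x by ring] at h1
    exact kX_sound hN hσ h hF (or_not h1 (posB_iff.2 (by omega))) hxy a2 b2 h0
  · have h1 := (hc3 _ (hg.n _ b1) _ (hg.p _ a1)).2
    rw [show B + (x - B) = x by ring, show A + (y - A) - x = y - x by ring] at h1
    exact kX_sound hN hσ h hF (or_not h1 (posB_iff.2 (by omega))) hxy b2 a2 h0
  · -- both positive at `y`: mirror image
    have h1 := hc2 _ (hg.p _ a1)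
    rw [show A + (y - A) = y by ring] at h1
    have h2 := or_not h1 (memB_of (hg.p _ b1))
    have hF' : ∀ z, mir F z = nz (-n0 - N) (mv u) z + K'.comb (mir D) z +
        nz (-n0 - N) (mv w) (z - -bd) := fun z => by
      rw [hm, nz_mv hu, nz_mv hw]
      unfold mir
      rw [hF, show -1 - z - bd = -1 - (z - -bd) by ring]
      ring
    refine kS_sound hN' hσ' hb' hl' h' hF' ?_ ?_ h2 (y := -1 - x) (by omega) ?_ ?_ ?_
    · rw [mv_length, hu]
      omega
    · rw [mv_length, hw]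
      omega
    · unfold mir
      rw [show -1 - (-1 - y) = y by ring, a2]
    · unfold mir
      rw [show -1 - (-1 - x) = x by ring]
      omega
    · intro z h3 h4
      unfold mir
      rw [h0 (-1 - z) (by omega) (by omega)]
      rfl

end LWG
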