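import Pool.Agent.LWG.Ref2

/-!
# Substitution words: the leaves of the refuter

`inadm`: some change of the window (letters added or removed at its ends) is not unimodal.
`hits`: a forbidden pattern occurs. `far`: the same as `inadm` if there is a positive value far to
the right. `exV`: exact values on consecutive fine edges are impossible.
-/

namespace LWG

open LevelWords (Uni dl dl_shift)

variable {D : ℤ → ℤ}

/-! ## Vectors -/

/-- head -/
def hd : List ℤ → ℤ
  | [] => .ofNat 0
  | a :: _ => a

/-- the value at the edge `y` of a vector listed from the top edge `m` down -/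
def vf (m : ℤ) (v : List ℤ) (y : ℤ) : ℤ :=
  match m - y with
  | .ofNat n => v.getD n 0
  | .negSucc _ => 0

/-- the values at the edges `I, I - 1, ...` of a vector listed from the top edge `m` down -/
def shf (m : ℤ) (v : List ℤ) (I : ℤ) : List ℤ :=
  match m - I with
  | .ofNat n => v.drop n
  | .negSucc n => List.replicate (n + 1) (.ofNat 0) ++ v

/-- the value at the edge `y` of a vector listed from the edge `n0` up -/
def nz (n0 : ℤ) (v : List ℤ) (y : ℤ) : ℤ :=
  match y - n0 with
  | .ofNat n => v.getD n 0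
  | .negSucc _ => 0

/-- the values at the edges `g, g + 1, ...` of a vector listed from the edge `n0` up -/
def sha (n0 : ℤ) (v : List ℤ) (g : ℤ) : List ℤ :=
  match g - n0 with
  | .ofNat n => v.drop n
  | .negSucc n => List.replicate (n + 1) (.ofNat 0) ++ v

/-- `L` lists the values of `f` at `I, I - 1, ...` (zero beyond) -/
def Val (f : ℤ → ℤ) (I : ℤ) (L : List ℤ) : Prop := ∀ i : ℕ, L.getD i 0 = f (I - i)

/-- `L` lists the values of `f` at `g, g + 1, ...` (zero beyond) -/
def ValA (f : ℤ → ℤ) (g : ℤ) (L : List ℤ) : Prop := ∀ i : ℕ, L.getD i 0 = f (g + i)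

theorem hd_eq (L : List ℤ) : hd L = L.getD 0 0 := by cases L <;> rfl

theorem getD_tail (L : List ℤ) (i : ℕ) : L.tail.getD i 0 = L.getD (i + 1) 0 := by
  cases L <;> simp

theorem getD_drop' (L : List ℤ) (n i : ℕ) : (L.drop n).getD i 0 = L.getD (n + i) 0 := by
  simp [List.getD_eq_getElem?_getD, List.getElem?_drop]

theorem getD_rep (n : ℕ) (v : List ℤ) (i : ℕ) :
    (List.replicate n (0 : ℤ) ++ v).getD i 0 = if i < n then 0 else v.getD (i - n) 0 := by
  split_ifs with h
  · rw [List.getD_eq_getElem?_getD, List.getElem?_append_left (by simpa using h)]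
    simp [h]
  · rw [List.getD_eq_getElem?_getD, List.getElem?_append_right (by simpa using h)]
    simp [List.getD_eq_getElem?_getD]

theorem Val.hd {f : ℤ → ℤ} {I : ℤ} {L : List ℤ} (h : Val f I L) : hd L = f I := by
  rw [hd_eq, h 0]
  simp

theorem Val.tail {f : ℤ → ℤ} {I : ℤ} {L : List ℤ} (h : Val f I L) : Val f (I - 1) L.tail := by
  intro i
  rw [getD_tail, h (i + 1)]
  congr 1
  push_cast
  ring

theorem ValA.hd {f : ℤ → ℤ} {I : ℤ} {L : List ℤ} (h : ValA f I L) : LWG.hd L = f I := by
  rw [hd_eq, h 0]
  simp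

theorem ValA.tail {f : ℤ → ℤ} {I : ℤ} {L : List ℤ} (h : ValA f I L) : ValA f (I + 1) L.tail := by
  intro i
  rw [getD_tail, h (i + 1)]
  congr 1
  push_cast
  ring

theorem val_shf (m : ℤ) (v : List ℤ) (I : ℤ) : Val (vf m v) I (shf m v I) := by
  intro i
  unfold shf vf
  rcases h : m - I with n | n
  · have h' : m - I = (n : ℤ) := h
    rw [show m - (I - (i : ℤ)) = Int.ofNat (n + i) by
      change _ = ((n + i : ℕ) : ℤ)
      push_cast
      omega]
    exact getD_drop' v n i
  · have h' : m - I = -(n + 1 : ℤ) := by rw [h, Int.negSucc_eq]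
    change (List.replicate (n + 1) (0 : ℤ) ++ v).getD i 0 = _
    rw [getD_rep]
    split_ifs with hi
    · rw [show m - (I - (i : ℤ)) = Int.negSucc (n - i) by
        rw [Int.negSucc_eq]
        omega]
    · rw [show m - (I - (i : ℤ)) = Int.ofNat (i - (n + 1)) by
        change _ = ((i - (n + 1) : ℕ) : ℤ)
        omega]

theorem val_sha (m : ℤ) (v : List ℤ) (I : ℤ) : ValA (nz m v) I (sha m v I) := by
  intro i
  unfold sha nz
  rcases h : I - m with n | n
  · have h' : I - m = (n : ℤ) := h
    rw [show I + (i : ℤ) - m = Int.ofNat (n + i) by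
      change _ = ((n + i : ℕ) : ℤ)
      push_cast
      omega]
    exact getD_drop' v n i
  · have h' : I - m = -(n + 1 : ℤ) := by rw [h, Int.negSucc_eq]
    change (List.replicate (n + 1) (0 : ℤ) ++ v).getD i 0 = _
    rw [getD_rep]
    split_ifs with hi
    · rw [show I + (i : ℤ) - m = Int.negSucc (n - i) by
        rw [Int.negSucc_eq]
        omega]
    · rw [show I + (i : ℤ) - m = Int.ofNat (i - (n + 1)) by
        change _ = ((i - (n + 1) : ℕ) : ℤ)
        omega]

theorem vf_zero {m : ℤ} {v : List ℤ} {y : ℤ} (h : m < y) : vf m v y = 0 := by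
  unfold vf
  rcases h' : m - y with n | n
  · have : m - y = (n : ℤ) := h'
    omega
  · rfl

/-! ## Violations of unimodality -/

/-- certainly negative after the change `a` -/
def En.neg : En → ℤ → Bool
  | .ex n, a => negB (n + a)
  | .le n, a => negB (n + a)
  | _, _ => false

/-- certainly positive after the change `a` -/
def En.pos : En → ℤ → Bool
  | .ex n, a => posB (n + a)
  | .ge n, a => posB (n + a)
  | _, _ => false

theorem En.neg_sound {e : En} {a x : ℤ} (h : e.Sat x) (hn : e.neg a = true) : x + a < 0 := by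
  rcases e with n | n | n | _
  · have h : x = n := h
    have := negB_iff.1 hn
    omega
  · simp [En.neg] at hn
  · have h : x ≤ n := h
    have := negB_iff.1 hn
    omega
  · simp [En.neg] at hn

theorem En.pos_sound {e : En} {a x : ℤ} (h : e.Sat x) (hn : e.pos a = true) : 0 < x + a := by
  rcases e with n | n | n | _
  · have h : x = n := h
    have := posB_iff.1 hn
    omega
  · have h : n ≤ x := h
    have := posB_iff.1 hn
    omega
  · simp [En.pos] at hn
  · simp [En.pos] at hn

/-- a negative value left of a positive one, after the changes `L` and `R`; `p`: there is a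
positive one to the right -/
def viol : List ℤ → List ℤ → List En → Bool → Bool
  | _, _, [], _ => false
  | L, R, e :: es, p =>
    (p && e.neg (hd L + hd R)) || viol L.tail R.tail es (p || e.pos (hd L + hd R))

theorem viol_sound {l r : ℤ → ℤ} : ∀ (vec : List En) {I : ℤ} {L R : List ℤ} {p : Bool},
    Val l I L → Val r I R → SatD D I vec → viol L R vec p = true →
    (p = true → ∃ z > I, 0 < D z + (l z + r z)) →
    ∃ y z, y < z ∧ D y + (l y + r y) < 0 ∧ 0 < D z + (l z + r z)
  | [], I, L, R, p, _, _, _, h, _ => by simp [viol] at h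
  | e :: es, I, L, R, p, hL, hR, hv, h, hp => by
    simp only [viol, Bool.or_eq_true, Bool.and_eq_true, hL.hd, hR.hd] at h
    rcases h with ⟨h1, h2⟩ | h
    · obtain ⟨z, h3, h4⟩ := hp h1
      exact ⟨I, z, h3, En.neg_sound hv.1 h2, h4⟩
    · refine viol_sound es hL.tail hR.tail hv.2 h fun h1 => ?_
      rw [Bool.or_eq_true] at h1
      rcases h1 with h1 | h1
      · obtain ⟨z, h3, h4⟩ := hp h1
        exact ⟨z, by omega, h4⟩
      · exact ⟨I, by omega, En.pos_sound hv.1 h1⟩

/-- some change of the window is not unimodal; `m` is the top edge of the vectors, `d` the distance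
of the end -/
def inadm (m : ℤ) (lv rv : List (List ℤ)) (d I : ℤ) (vec : List En) : Bool :=
  lv.any fun l => rv.any fun r => viol (shf m l I) (shf m r (I - d)) vec false

/-- the same, if there is a positive value at an edge `≥ x` -/
def far (m : ℤ) (lv rv : List (List ℤ)) (d x I : ℤ) (vec : List En) : Bool :=
  posB (x - m) && posB (x - (m + d)) && !negB (I - (x - 1)) &&
  lv.any fun l => rv.any fun r =>
    viol (shf m l (x - 1)) (shf m r (x - 1 - d)) (vec.drop (I - (x - 1)).toNat) true

/-- the values `v` begin the list -/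
def occE : List ℤ → List En → Bool
  | [], _ => true
  | v :: vs, .ex n :: es => zeB (v - n) && occE vs es
  | _ :: _, _ => false

/-- a forbidden pattern occurs in the entries `asc` at the edges `x, x + 1, ...` -/
def hitA (ps : List Pat) (d x : ℤ) (asc : List En) : Bool :=
  ps.any fun P => zeB (P.d - d) &&
    match P.e - x with
    | .ofNat n => occE P.v (asc.drop n)
    | .negSucc _ => false

def hits (ps : List Pat) (d I : ℤ) (vec : List En) : Bool :=
  hitA ps d (I - vec.length + 1) vec.reverse

/-- the leaf: contradiction -/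
def leaf (m : ℤ) (lv rv : List (List ℤ)) (ps : List Pat) (d I : ℤ) (vec : List En) : Bool :=
  inadm m lv rv d I vec || hits ps d I vec

/-- What is known about the differences: `Tab.Loc` with the changes as vectors. -/
structure LocV (m : ℤ) (lv rv : List (List ℤ)) (ps : List Pat) (d : ℤ) (D : ℤ → ℤ) : Prop where
  adm : ∀ l ∈ lv, ∀ r ∈ rv, Uni fun y => D y + (vf m l y + vf m r (y - d))
  pat : ∀ P ∈ ps, P.d = d → ¬ Agr D P.e P.v

variable {m : ℤ} {lv rv : List (List ℤ)} {ps : List Pat} {d : ℤ}

theorem val_shf' (m : ℤ) (v : List ℤ) (I d : ℤ) :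
    Val (fun y => vf m v (y - d)) I (shf m v (I - d)) := by
  intro i
  have := val_shf m v (I - d) i
  rw [this]
  simp only
  congr 1
  ring

theorem LocV.inadm (h : LocV m lv rv ps d D) {I : ℤ} {vec : List En} (hv : SatD D I vec)
    (hi : inadm m lv rv d I vec = true) : False := by
  unfold LWG.inadm at hi
  rw [List.any_eq_true] at hi
  obtain ⟨l, hl, hi⟩ := hi
  rw [List.any_eq_true] at hi
  obtain ⟨r, hr, hi⟩ := hi
  obtain ⟨y, z, hyz, h1, h2⟩ := viol_sound vec (val_shf m l I) (val_shf' m r I d) hv hi
    (fun h => by simp at h)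
  exact h.adm l hl r hr y z hyz h1 h2

theorem LocV.far (h : LocV m lv rv ps d D) {I x : ℤ} {vec : List En} (hv : SatD D I vec)
    (hx : ∃ z, x ≤ z ∧ 0 < D z) (hi : far m lv rv d x I vec = true) : False := by
  unfold LWG.far at hi
  simp only [Bool.and_eq_true, posB_iff, Bool.not_eq_true', List.any_eq_true] at hi
  obtain ⟨⟨⟨h1, h2⟩, h3⟩, l, hl, r, hr, hi⟩ := hi
  have h3 : ¬ I - (x - 1) < 0 := fun h => by
    rw [negB_iff.2 h] at h3
    simp at h3
  have hv' := satD_drop (I - (x - 1)).toNat hv
  rw [show I - ((I - (x - 1)).toNat : ℤ) = x - 1 by omega] at hv'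
  obtain ⟨z, hz, hz'⟩ := hx
  obtain ⟨y, z, hyz, h1, h2⟩ := viol_sound _ (val_shf m l (x - 1)) (val_shf' m r (x - 1) d) hv' hi
    (fun _ => ⟨z, by omega, by
      rw [vf_zero (by omega), vf_zero (by omega)]
      omega⟩)
  exact h.adm l hl r hr y z hyz h1 h2

theorem satA_append : ∀ (l₁ l₂ : List En) (x : ℤ), SatA D x (l₁ ++ l₂) ↔
    SatA D x l₁ ∧ SatA D (x + l₁.length) l₂
  | [], l₂, x => by simp [SatA]
  | e :: l₁, l₂, x => by
    have ih := satA_append l₁ l₂ (x + 1)
    simp only [List.cons_append, SatA, List.length_cons, ih]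
    rw [show x + 1 + (l₁.length : ℤ) = x + ((l₁.length + 1 : ℕ) : ℤ) by push_cast; ring]
    tauto

theorem satD_reverse : ∀ (vec : List En) (I : ℤ), SatD D I vec →
    SatA D (I - vec.length + 1) vec.reverse
  | [], I, _ => by simp [SatA]
  | e :: es, I, h => by
    have ih := satD_reverse es (I - 1) h.2
    rw [List.reverse_cons, satA_append]
    refine ⟨?_, ?_, trivial⟩
    · rwa [show I - ((e :: es).length : ℤ) + 1 = I - 1 - es.length + 1 by
        rw [List.length_cons]; push_cast; ring]
    · rw [List.length_reverse, show I - ((e :: es).length : ℤ) + 1 + es.length = I by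
        rw [List.length_cons]; push_cast; ring]
      exact h.1

theorem satA_drop : ∀ (n : ℕ) {x : ℤ} {l : List En}, SatA D x l → SatA D (x + n) (l.drop n)
  | 0, x, l, h => by simpa using h
  | n + 1, x, [], _ => by simp [SatA]
  | n + 1, x, e :: es, h => by
    rw [List.drop_succ_cons, show x + ((n + 1 : ℕ) : ℤ) = x + 1 + n by push_cast; ring]
    exact satA_drop n h.2

theorem occE_sound : ∀ (v : List ℤ) (es : List En) (x : ℤ), SatA D x es → occE v es = true →
    Agr D x v
  | [], _, _, _, _ => trivial
  | v :: vs, [], x, _, h => by simp [occE] at h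
  | v :: vs, .ex n :: es, x, hs, h => by
    simp only [occE, Bool.and_eq_true, zeB_iff] at h
    have h1 : D x = n := hs.1
    exact ⟨by omega, occE_sound vs es (x + 1) hs.2 h.2⟩
  | v :: vs, .ge n :: es, x, _, h => by simp [occE] at h
  | v :: vs, .le n :: es, x, _, h => by simp [occE] at h
  | v :: vs, .un :: es, x, _, h => by simp [occE] at h

theorem LocV.hits (h : LocV m lv rv ps d D) {I : ℤ} {vec : List En} (hv : SatD D I vec)
    (hi : hits ps d I vec = true) : False := by
  have hA := satD_reverse vec I hv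
  unfold LWG.hits hitA at hi
  simp only [List.any_eq_true, Bool.and_eq_true, zeB_iff] at hi
  obtain ⟨P, hP, hd, hi⟩ := hi
  rcases hx : P.e - (I - vec.length + 1) with n | n
  · rw [hx] at hi
    have hx' : P.e - (I - vec.length + 1) = (n : ℤ) := hx
    have h1 := satA_drop n hA
    rw [show I - (vec.length : ℤ) + 1 + n = P.e by omega] at h1
    exact h.pat P hP (by omega) (occE_sound _ _ _ h1 hi)
  · rw [hx] at hi
    simp at hi

theorem LocV.leaf (h : LocV m lv rv ps d D) (I : ℤ) (vec : List En) (hv : SatD D I vec)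
    (hi : leaf m lv rv ps d I vec = true) : False := by
  unfold LWG.leaf at hi
  rw [Bool.or_eq_true] at hi
  exact hi.elim (h.inadm hv) (h.hits hv)

/-! ## Exact values -/

/-- targets: the values `vs` minus the noise -/
def tgE : List ℤ → List ℤ → List ℤ → List Cn
  | [], _, _ => []
  | v :: vs, a, b => .eq (v - (hd a + hd b)) :: tgE vs a.tail b.tail

theorem tgE_holds {K : Co} {f : ℤ → ℤ} {u w : ℤ → ℤ}
    (hf : ∀ z, f z = u z + K.comb D z + w z) : ∀ (vs : List ℤ) {g : ℤ} {a b : List ℤ},
    ValA u g a → ValA w g b → Agr f g vs → Holds K D True g (tgE vs a b)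
  | [], _, _, _, _, _, _ => trivial
  | v :: vs, g, a, b, ha, hb, h => by
    refine ⟨?_, tgE_holds hf vs ha.tail hb.tail h.2⟩
    rw [ha.hd, hb.hd, ← h.1, hf]
    ring

/-- The values `vs` on the fine edges `g, g + 1, ...` are impossible, for the noise vectors `u` at
`0` and `w` at `bd = b * d`, listed from the edge `n0`. -/
def exV (K : Co) (σ : Sol) (X : ℕ) (m : ℤ) (lv rv : List (List ℤ)) (ps : List Pat) (d n0 bd g : ℤ)
    (vs u w : List ℤ) : Bool :=
  goX K σ X (leaf m lv rv ps d) (inadm m lv rv d) (leaf m lv rv ps d) g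
    (tgE vs (sha n0 u g) (sha n0 w (g - bd)))

theorem val_sha' (n0 : ℤ) (v : List ℤ) (g c : ℤ) :
    ValA (fun y => nz n0 v (y - c)) g (sha n0 v (g - c)) := by
  intro i
  have := val_sha n0 v (g - c) i
  rw [this]
  simp only
  congr 1
  ring

theorem exV_sound {K : Co} (hN : K.Nn) {σ : Sol} (hσ : okSol K σ 5 = true) (h : LocV m lv rv ps d D) {X : ℕ} {n0 bd g : ℤ}
    {vs u w : List ℤ} {F : ℤ → ℤ} (hF : ∀ z, F z = nz n0 u z + K.comb D z + nz n0 w (z - bd))
    (hc : exV K σ X m lv rv ps d n0 bd g vs u w = true) : ¬ Agr F g vs := fun hA =>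
  goX_sound (P := True) h.leaf (fun _ _ hv => h.inadm hv) (fun I vec hv _ => h.leaf I vec hv) hN
    hσ (tgE_holds hF vs (val_sha n0 u g) (val_sha' n0 w g bd) hA) hc

end LWG
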