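import Pool.Agent.LWG.Ref

/-!
# Substitution words: the refuter with elimination

`goX` is `go` with a better start: the lowest unknown values are computed from linear combinations of
the first equations (`Sv`, certificates `Sol`, checked by `okSol`) where this is possible, and are
enumerated otherwise; `elim`: for the event `Ev2`, an inequality for them, without the top value.
-/

namespace LWG

variable {D : ℤ → ℤ} {K : Co}

/-! ## Sums with signs -/

def Sm.addS (s : Sm) (c : ℤ) (e : En) : Sm :=
  bif negB c then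
    (match e with
    | .ex n => ⟨s.v + c * n, s.lo, s.hi⟩
    | .ge n => ⟨s.v + c * n, false, s.hi⟩
    | .le n => ⟨s.v + c * n, s.lo, false⟩
    | .un => ⟨s.v, false, false⟩)
  else s.add c e

def dotS : List ℤ → List En → Sm
  | [], _ => ⟨.ofNat 0, true, true⟩
  | k :: ks, [] => bif zeB k then dotS ks [] else ⟨.ofNat 0, false, false⟩
  | k :: ks, e :: es => bif zeB k then dotS ks es else (dotS ks es).addS k e

/-- `s` bounds `y` -/
def Sm.Bd (s : Sm) (y : ℤ) : Prop := (s.lo = true → s.v ≤ y) ∧ (s.hi = true → y ≤ s.v)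

theorem Sm.Bd.addS {s : Sm} {y x c : ℤ} {e : En} (h : s.Bd y) (he : e.Sat x) :
    (s.addS c e).Bd (c * x + y) := by
  unfold Sm.addS
  rcases hc : negB c with _ | _
  · have hc0 : 0 ≤ c := by
      by_contra h'
      rw [negB_iff.2 (by omega)] at hc
      simp at hc
    rw [cond_false]
    rcases e with n | n | n | _
    · have h1 : x = n := he
      subst h1
      exact ⟨fun h2 => by have := h.1 h2; change s.v + c * x ≤ _; linarith,
        fun h2 => by have := h.2 h2; change _ ≤ s.v + c * x; linarith⟩
    · have h1 : n ≤ x := he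
      have h3 := mul_le_mul_of_nonneg_left h1 hc0
      exact ⟨fun h2 => by have := h.1 h2; change s.v + c * n ≤ _; linarith,
        fun h2 => by simp [Sm.add] at h2⟩
    · have h1 : x ≤ n := he
      have h3 := mul_le_mul_of_nonneg_left h1 hc0
      exact ⟨fun h2 => by simp [Sm.add] at h2,
        fun h2 => by have := h.2 h2; change _ ≤ s.v + c * n; linarith⟩
    · exact ⟨fun h2 => by simp [Sm.add] at h2, fun h2 => by simp [Sm.add] at h2⟩
  · have hc0 : c ≤ 0 := (negB_iff.1 hc).le
    rw [cond_true]
    rcases e with n | n | n | _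
    · have h1 : x = n := he
      subst h1
      exact ⟨fun h2 => by have := h.1 h2; change s.v + c * x ≤ _; linarith,
        fun h2 => by have := h.2 h2; change _ ≤ s.v + c * x; linarith⟩
    · have h1 : n ≤ x := he
      have h3 := mul_le_mul_of_nonpos_left h1 hc0
      exact ⟨fun h2 => by simp at h2,
        fun h2 => by have := h.2 h2; change _ ≤ s.v + c * n; linarith⟩
    · have h1 : x ≤ n := he
      have h3 := mul_le_mul_of_nonpos_left h1 hc0
      exact ⟨fun h2 => by have := h.1 h2; change s.v + c * n ≤ _; linarith,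
        fun h2 => by simp at h2⟩
    · exact ⟨fun h2 => by simp at h2, fun h2 => by simp at h2⟩

theorem dotS_sound : ∀ (ks : List ℤ) {I : ℤ} {vec : List En}, SatD D I vec →
    (dotS ks vec).Bd (dotZ D I ks)
  | [], I, vec, _ => ⟨fun _ => le_rfl, fun _ => le_rfl⟩
  | k :: ks, I, [], _ => by
    unfold dotS
    rcases h0 : zeB k with _ | _
    · exact ⟨fun h => by simp at h, fun h => by simp at h⟩
    · have ih := dotS_sound ks (I := I - 1) (vec := []) (show SatD D (I - 1) [] from trivial)
      have e : dotZ D I (k :: ks) = dotZ D (I - 1) ks := by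
        change k * D I + dotZ D (I - 1) ks = _
        rw [zeB_iff.1 h0, zero_mul, zero_add]
      rw [e]
      exact ih
  | k :: ks, I, e :: es, h => by
    have ih := dotS_sound ks h.2
    unfold dotS
    rcases h0 : zeB k with _ | _
    · exact ih.addS h.1
    · have e : dotZ D I (k :: ks) = dotZ D (I - 1) ks := by
        change k * D I + dotZ D (I - 1) ks = _
        rw [zeB_iff.1 h0, zero_mul, zero_add]
      rw [e]
      exact ih

/-! ## Linear forms in the coarse differences -/

/-- sum of lists, the shorter one filled with zeros -/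
def addL : List ℤ → List ℤ → List ℤ
  | [], l => l
  | a :: l, [] => a :: l
  | a :: l, b :: l' => (a + b) :: addL l l'

theorem dotZ_addL : ∀ (l l' : List ℤ) (x : ℤ), dotZ D x (addL l l') = dotZ D x l + dotZ D x l'
  | [], l, x => by simp [addL, dotZ]
  | a :: l, [], x => by simp [addL, dotZ]
  | a :: l, b :: l', x => by
    simp only [addL, dotZ, dotZ_addL l l' (x - 1)]
    ring

theorem dotZ_smul (c : ℤ) : ∀ (l : List ℤ) (x : ℤ), dotZ D x (l.map (c * ·)) = c * dotZ D x l
  | [], x => by simp [dotZ]
  | a :: l, x => by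
    simp only [List.map_cons, dotZ, dotZ_smul c l (x - 1)]
    ring

/-- zeros in front -/
def padz : ℕ → List ℤ → List ℤ
  | 0, l => l
  | n + 1, l => .ofNat 0 :: padz n l

theorem dotZ_padz : ∀ (n : ℕ) (l : List ℤ) (x : ℤ), dotZ D (x + n) (padz n l) = dotZ D x l
  | 0, l, x => by simp [padz]
  | n + 1, l, x => by
    change 0 * D _ + dotZ D (x + ((n + 1 : ℕ) : ℤ) - 1) (padz n l) = _
    rw [show x + ((n + 1 : ℕ) : ℤ) - 1 = x + n by push_cast; ring, dotZ_padz n l x]
    ring

theorem dotZ_zero : ∀ (l : List ℤ) (x : ℤ), (∀ a ∈ l, a = 0) → dotZ D x l = 0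
  | [], _, _ => rfl
  | a :: l, x, h => by
    simp only [dotZ, h a (by simp), dotZ_zero l (x - 1) fun b hb => h b (List.mem_cons_of_mem _ hb)]
    ring

/-- `∑ w_j F (z + j)` -/
def wdot (F : ℤ → ℤ) : ℤ → List ℤ → ℤ
  | _, [] => 0
  | z, w :: ws => w * F z + wdot F (z + 1) ws

/-- the combination `w` of the rows `r + j, r + j + 1, ...`, as a form with the top edge `T` -/
def formL (K : Co) (r : ℤ) (T : ℕ) : ℤ → List ℤ → List ℤ
  | _, [] => []
  | j, w :: ws => addL (padz (T - ((r + j) / K.b).toNat) ((K.cs ((r + j) % K.b)).map (w * ·)))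
      (formL K r T (j + 1) ws)

/-- all rows `r + j, ...` are at most at the top `T` -/
def topOk (K : Co) (r : ℤ) (T : ℕ) : ℤ → List ℤ → Bool
  | _, [] => true
  | j, _ :: ws => decide ((r + j) / K.b ≤ T) && decide (0 ≤ (r + j) / K.b) && topOk K r T (j + 1) ws

theorem formL_eq (hb : 0 < K.b) {z r : ℤ} (hr : (z - K.e0) % K.b = r) (T : ℕ) :
    ∀ (ws : List ℤ) (j : ℤ), topOk K r T j ws = true →
      dotZ D (K.tp z + T) (formL K r T j ws) = wdot (K.comb D) (z + j) ws
  | [], _, _ => rfl
  | w :: ws, j, h => by
    simp only [topOk, Bool.and_eq_true, decide_eq_true_eq] at h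
    have ih := formL_eq hb hr T ws (j + 1) h.2
    have e0 := Int.mul_ediv_add_emod (z - K.e0) K.b
    have e1 : z + j - K.e0 = r + j + K.b * K.tp z := by
      unfold Co.tp
      rw [← hr]
      linarith
    have e2 : K.tp (z + j) = (r + j) / K.b + K.tp z := by
      have : K.tp (z + j) = (z + j - K.e0) / K.b := rfl
      rw [this, e1, Int.add_mul_ediv_left _ _ hb.ne']
    have e3 : K.ks (z + j) = K.cs ((r + j) % K.b) := by
      unfold Co.ks
      rw [e1, Int.add_mul_emod_self_left]
    rw [formL, dotZ_addL, ih, wdot, add_assoc z j 1]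
    congr 1
    have e4 : K.tp z + T = K.tp (z + j) + ((T - ((r + j) / K.b).toNat : ℕ) : ℤ) := by omega
    rw [e4, dotZ_padz, dotZ_smul]
    unfold Co.comb
    rw [e3]

/-- A consequence of the equations: `δ D(J) + c_0 D(J - 1) + c_1 D(J - 2) + ... = ∑ w_j t_j`. -/
structure Sv where
  w : List ℤ
  δ : ℤ
  c : List ℤ

/-- certificates: for a residue and the number of equations, from the lowest value on; `none`:
enumeration -/
abbrev Sol := ℤ → ℕ → List (Option Sv)

/-- the consequence is right for the edge `tp z - o`, `r` the residue of `z` -/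
def Sv.Ok (K : Co) (r : ℤ) (o : ℕ) (s : Sv) : Prop :=
  0 < s.δ ∧ ∀ (D : ℤ → ℤ) (z : ℤ), (z - K.e0) % K.b = r →
    wdot (K.comb D) z s.w = dotZ D (K.tp z - o) (s.δ :: s.c)

/-- the check; `T` is the top of the last row -/
def Sv.ok (K : Co) (r : ℤ) (o : ℕ) (s : Sv) : Bool :=
  posB s.δ && topOk K r ((r + s.w.length - 1) / K.b).toNat 0 s.w &&
    (addL (formL K r ((r + s.w.length - 1) / K.b).toNat 0 s.w)
      ((padz (((r + s.w.length - 1) / K.b).toNat + o) (s.δ :: s.c)).map (.negSucc 0 * ·))).all zeB

theorem Sv.ok_sound (hb : 0 < K.b) {r : ℤ} {o : ℕ} {s : Sv} (h : s.ok K r o = true) :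
    s.Ok K r o := by
  unfold Sv.ok at h
  simp only [Bool.and_eq_true, posB_iff, List.all_eq_true, zeB_iff] at h
  obtain ⟨⟨h1, h2⟩, h3⟩ := h
  refine ⟨h1, fun D z hz => ?_⟩
  have e1 := formL_eq (D := D) hb hz _ s.w 0 h2
  have e2 := dotZ_zero (D := D) _ (K.tp z + ((r + s.w.length - 1) / K.b).toNat) h3
  rw [dotZ_addL, dotZ_smul, e1, add_zero] at e2
  have e3 := dotZ_padz (D := D) (((r + s.w.length - 1) / K.b).toNat + o) (s.δ :: s.c) (K.tp z - o)
  rw [show K.tp z - o + ((((r + s.w.length - 1) / K.b).toNat + o : ℕ) : ℤ) =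
    K.tp z + ((r + s.w.length - 1) / K.b).toNat by push_cast; ring] at e3
  rw [e3] at e2
  have e4 : (Int.negSucc 0 : ℤ) = -1 := rfl
  rw [e4] at e2
  linarith

/-- all steps of a list are right -/
def okSs (K : Co) (r : ℤ) : List (Option Sv) → Bool
  | [] => true
  | none :: ss => okSs K r ss
  | some s :: ss => s.ok K r (ss.length + 1) && okSs K r ss

/-- the certificates are right, for at most `n` equations -/
def okSol (K : Co) (σ : Sol) (n : ℕ) : Bool :=
  posB K.b && (List.range K.b.toNat).all fun r => (List.range (n + 1)).all fun k =>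
    okSs K r (σ r k)

/-! ## The start -/

/-- `∑ w_j t_j`, for equations -/
def wsum : List ℤ → List Cn → Option ℤ
  | [], _ => some (.ofNat 0)
  | w :: ws, .eq t :: cs =>
    match wsum ws cs with
    | some y => some (w * t + y)
    | none => none
  | _ :: _, _ => none

theorem wsum_sound {P : Prop} : ∀ (ws : List ℤ) (cs : List Cn) {z t : ℤ}, Holds K D P z cs →
    wsum ws cs = some t → wdot (K.comb D) z ws = t
  | [], cs, z, t, _, h => by
    simp only [wsum, Option.some.injEq] at h
    rw [← h]
    rfl
  | w :: ws, [], z, t, _, h => by simp [wsum] at h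
  | w :: ws, .zp _ :: cs, z, t, _, h => by simp [wsum] at h
  | w :: ws, .eq u :: cs, z, t, hH, h => by
    rcases h1 : wsum ws cs with _ | y
    · simp [wsum, h1] at h
    · simp only [wsum, h1, Option.some.injEq] at h
      have ih := wsum_sound ws cs hH.2 h1
      rw [wdot, ih, hH.1, h]

/-- values from the bottom up, by a step of the certificate or by enumeration; then `f` -/
def startS (X : ℕ) (U : ℤ → List En → Bool) (cs : List Cn) (f : List En → Bool) :
    List (Option Sv) → ℤ → List En → Bool
  | [], _, vec => f vec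
  | none :: ss, I, vec =>
    ((exs X).all fun e => startS X U cs f ss (I + 1) (e :: vec)) &&
    (U (I + 1) (.ge (.ofNat (X + 1)) :: vec) ||
      startS X U cs f ss (I + 1) (.ge (.ofNat (X + 1)) :: vec)) &&
    (U (I + 1) (.le (.negSucc X) :: vec) ||
      startS X U cs f ss (I + 1) (.le (.negSucc X) :: vec))
  | some s :: ss, I, vec =>
    match wsum s.w cs with
    | some t => ext (fun e => U (I + 1) (e :: vec)) s.δ (dotS s.c vec) t
        (fun e => startS X U cs f ss (I + 1) (e :: vec))
    | none => false

/-- coefficients after the elimination of the top value -/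
def elC (a k : ℤ) : List ℤ → List ℤ → List ℤ
  | [], l' => l'.map fun y => -(a * y)
  | x :: l, [] => k * x :: elC a k l []
  | x :: l, y :: l' => (k * x - a * y) :: elC a k l l'

theorem dotZ_elC (a k : ℤ) : ∀ (l l' : List ℤ) (x : ℤ),
    dotZ D x (elC a k l l') = k * dotZ D x l - a * dotZ D x l'
  | [], l', x => by
    have h := dotZ_smul (D := D) (-a) l' x
    rw [show (fun y : ℤ => -a * y) = fun y => -(a * y) by
      funext y
      ring] at h
    simp only [elC, dotZ, h]
    ring
  | b :: l, [], x => by
    simp only [elC, dotZ, dotZ_elC a k l [] (x - 1)]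
    ring
  | b :: l, y :: l', x => by
    simp only [elC, dotZ, dotZ_elC a k l l' (x - 1)]
    ring

/-- contradiction by the elimination of the top value from `= t0`, `≥ t1` -/
def elim (K : Co) (g : ℤ) (cs : List Cn) (vec : List En) : Bool :=
  match cs with
  | .eq t0 :: .zp t1 :: _ => zeB (K.tp (g + 1) - K.tp g) &&
    (match K.ks g with
    | a :: as =>
      match K.ks (g + 1) with
      | k :: ks => posB a && posB k && (dotS (elC a k as ks) vec).lo &&
          posB ((dotS (elC a k as ks) vec).v - (k * t0 - a * t1))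
      | _ => false
    | _ => false)
  | _ => false

/-- number of leading equations, at most `n` -/
def lead : ℕ → List Cn → ℕ
  | n + 1, .eq _ :: cs => lead n cs + 1
  | _, _ => 0

theorem lead_le : ∀ (n : ℕ) (cs : List Cn), lead n cs ≤ n
  | 0, _ => by simp [lead]
  | n + 1, [] => by simp [lead]
  | n + 1, .zp _ :: cs => by simp [lead]
  | n + 1, .eq _ :: cs => by
    have := lead_le n cs
    simp only [lead]
    omega

/-- the constraints `cs` at the fine edges `g, g + 1, ...` are impossible -/
def goX (K : Co) (σ : Sol) (X : ℕ) (R U Q : ℤ → List En → Bool) (g : ℤ) (cs : List Cn) : Bool :=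
  startS X U cs (fun vec => elim K g cs vec || run K R U Q (K.tp g - 1) vec g cs)
    (σ ((g - K.e0) % K.b) (lead 5 cs)) (K.tp g - 1 - (σ ((g - K.e0) % K.b) (lead 5 cs)).length) []

section sound

variable {R U Q : ℤ → List En → Bool} {P : Prop}
  (hR : ∀ I vec, SatD D I vec → R I vec = true → False)
  (hU : ∀ I vec, SatD D I vec → U I vec = true → False)
  (hQ : ∀ I vec, SatD D I vec → P → Q I vec = true → False)

theorem elim_sound {g : ℤ} {cs : List Cn} (hH : Holds K D P g cs) {vec : List En}
    (hv : SatD D (K.tp g - 1) vec) (h : elim K g cs vec = true) : False := by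
  unfold elim at h
  split at h
  · rename_i t0 t1 cs'
    rw [Bool.and_eq_true, zeB_iff] at h
    obtain ⟨h1, h⟩ := h
    split at h
    · rename_i a as ha
      split at h
      · rename_i k ks hk
        simp only [Bool.and_eq_true, posB_iff] at h
        obtain ⟨⟨⟨h2, h3⟩, h4⟩, h5⟩ := h
        have h6 := (dotS_sound (elC a k as ks) hv).1 h4
        rw [dotZ_elC] at h6
        have e0 : a * D (K.tp g) + dotZ D (K.tp g - 1) as = t0 := by
          rw [← hH.1]
          unfold Co.comb
          rw [ha]
          rfl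
        have e1 : t1 ≤ k * D (K.tp g) + dotZ D (K.tp g - 1) ks := by
          have e2 : K.comb D (g + 1) = k * D (K.tp g) + dotZ D (K.tp g - 1) ks := by
            unfold Co.comb
            rw [hk, show K.tp (g + 1) = K.tp g by omega]
            rfl
          rw [← e2]
          rcases hH.2 with h7 | h7
          · exact h7.le
          · exact h7.1.ge
        have e2 := mul_le_mul_of_nonneg_left e1 h2.le
        have e3 : k * (a * D (K.tp g) + dotZ D (K.tp g - 1) as) = k * t0 := by rw [e0]
        have e4 : k * dotZ D (K.tp g - 1) as - a * dotZ D (K.tp g - 1) ks ≤ k * t0 - a * t1 := by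
          linarith
        omega
      · simp at h
    · simp at h
  · simp at h

include hU in
theorem startS_sound {X : ℕ} {g : ℤ} {cs : List Cn} (hH : Holds K D P g cs) {f : List En → Bool}
    (hf : ∀ vec, SatD D (K.tp g - 1) vec → f vec = true → False) (hb : 0 < K.b) {r : ℤ}
    (hr : (g - K.e0) % K.b = r) : ∀ (ss : List (Option Sv)) (I : ℤ) (vec : List En),
    I + ss.length = K.tp g - 1 → okSs K r ss = true → SatD D I vec →
    startS X U cs f ss I vec = true → False
  | [], I, vec, hI, _, hv, h => by
    simp only [List.length_nil, Nat.cast_zero, add_zero] at hI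
    rw [hI] at hv
    exact hf vec hv h
  | none :: ss, I, vec, hI, hss, hv, h => by
    simp only [startS, Bool.and_eq_true, List.all_eq_true, Bool.or_eq_true] at h
    obtain ⟨⟨h4, h5⟩, h6⟩ := h
    have hI' : I + 1 + ss.length = K.tp g - 1 := by
      rw [List.length_cons] at hI
      push_cast at hI
      omega
    have hv' : ∀ e : En, e.Sat (D (I + 1)) → SatD D (I + 1) (e :: vec) := fun e he =>
      ⟨he, by rwa [show I + 1 - 1 = I by ring]⟩
    have ih := fun vec' h' => startS_sound (X := X) hH hf hb hr ss (I + 1) vec' hI' hss h'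
    rcases lt_or_ge (X : ℤ) (D (I + 1)) with h7 | h7
    · have h8 : (En.ge (.ofNat (X + 1))).Sat (D (I + 1)) := by
        change ((X + 1 : ℕ) : ℤ) ≤ _
        push_cast
        omega
      exact h5.elim (hU _ _ (hv' _ h8)) (ih _ (hv' _ h8))
    · rcases lt_or_ge (D (I + 1)) (-(X : ℤ)) with h9 | h9
      · have h8 : (En.le (.negSucc X)).Sat (D (I + 1)) := by
          change _ ≤ Int.negSucc X
          rw [Int.negSucc_eq]
          omega
        exact h6.elim (hU _ _ (hv' _ h8)) (ih _ (hv' _ h8))
      · obtain ⟨e, h10, h11⟩ := exs_mem X h9 h7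
        exact ih _ (hv' _ h11) (h4 e h10)
  | some s :: ss, I, vec, hI, hss, hv, h => by
    simp only [okSs, Bool.and_eq_true] at hss
    have hI' : I + 1 + ss.length = K.tp g - 1 := by
      rw [List.length_cons] at hI
      push_cast at hI
      omega
    rcases hw : wsum s.w cs with _ | t
    · simp [startS, hw] at h
    · simp only [startS, hw] at h
      obtain ⟨h1, h2⟩ := s.ok_sound hb hss.1
      have h3 := h2 D g hr
      rw [wsum_sound s.w cs hH hw, show K.tp g - ((ss.length + 1 : ℕ) : ℤ) = I + 1 by
        push_cast; omega] at h3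
      have hv' : ∀ e : En, e.Sat (D (I + 1)) → SatD D (I + 1) (e :: vec) := fun e he =>
        ⟨he, by rwa [show I + 1 - 1 = I by ring]⟩
      have h4 : s.δ * D (I + 1) + dotZ D I s.c = t := by
        rw [h3]
        change _ = s.δ * D (I + 1) + dotZ D (I + 1 - 1) s.c
        rw [show I + 1 - 1 = I by ring]
      exact ext_sound h1 (dotS_sound s.c hv) h4 (fun e he => hU _ _ (hv' e he))
        (fun e he => startS_sound hH hf hb hr ss (I + 1) _ hI' hss.2 (hv' e he)) h

include hR hU hQ in
/-- **Soundness of the refuter with elimination.** -/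
theorem goX_sound (hN : K.Nn) {σ : Sol} (hσ : okSol K σ 5 = true) {X : ℕ} {g : ℤ} {cs : List Cn}
    (h : Holds K D P g cs) (hg : goX K σ X R U Q g cs = true) : False := by
  simp only [okSol, Bool.and_eq_true, posB_iff, List.all_eq_true, List.mem_range] at hσ
  obtain ⟨hb, hσ⟩ := hσ
  have h0 := Int.emod_nonneg (g - K.e0) hb.ne'
  have h1 := Int.emod_lt_of_pos (g - K.e0) hb
  have h2 := lead_le 5 cs
  have h3 := hσ ((g - K.e0) % K.b).toNat (by omega) (lead 5 cs) (by omega)
  rw [Int.toNat_of_nonneg h0] at h3
  refine startS_sound hU h (fun vec hv hf => ?_) hb rfl _ _ _ ?_ h3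
    (show SatD D _ [] from trivial) hg
  · rw [Bool.or_eq_true] at hf
    exact hf.elim (elim_sound h hv) (run_sound hR hU hQ hN cs _ _ _ hv h)
  · ring

end sound

end LWG
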