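import Pool.Agent.LWG.Ev
import Pool.Agent.LWG.Leaf
import Pool.Agent.LWG.Ref2

/-!
# Substitution words: the check of the events

`evV`: none of the three events happens between a letter `A` of the first block and a letter `B` of
the last block, for the noise vectors `u` at `0`, `w` at `bd`.
-/

namespace LWG

open LevelWords (Uni Ev1 Ev2 Ev3)

variable {K K' : Co} {D : ℤ → ℤ}

/-- `n` constraints: zero until the first positive value -/
def tgZ : ℕ → List ℤ → List ℤ → List Cn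
  | 0, _, _ => []
  | n + 1, a, b => .zp (-(hd a + hd b)) :: tgZ n a.tail b.tail

/-- `n` constraints: zero -/
def tg0 : ℕ → List ℤ → List ℤ → List Cn
  | 0, _, _ => []
  | n + 1, a, b => .eq (-(hd a + hd b)) :: tg0 n a.tail b.tail

/-- the event `Ev2`: one, then zero until the first positive value -/
def tg2 (n : ℕ) (a b : List ℤ) : List Cn := .eq (1 - (hd a + hd b)) :: tgZ n a.tail b.tail

theorem tgZ_eq {N u w : ℤ → ℤ} (hN : ∀ z, N z = u z + w z) : ∀ (n : ℕ) {g : ℤ} {a b : List ℤ},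
    ValA u g a → ValA w g b → tgZ n a b = zps N n g
  | 0, _, _, _, _, _ => rfl
  | n + 1, g, a, b, ha, hb => by
    rw [tgZ, zps, tgZ_eq hN n ha.tail hb.tail, ha.hd, hb.hd, hN]

theorem tg0_eq {N u w : ℤ → ℤ} (hN : ∀ z, N z = u z + w z) : ∀ (n : ℕ) {g : ℤ} {a b : List ℤ},
    ValA u g a → ValA w g b → tg0 n a b = eqs N n g
  | 0, _, _, _, _, _ => rfl
  | n + 1, g, a, b, ha, hb => by
    rw [tg0, eqs, tg0_eq hN n ha.tail hb.tail, ha.hd, hb.hd, hN]

theorem tg2_eq {N u w : ℤ → ℤ} (hN : ∀ z, N z = u z + w z) {A Z : ℤ} {a b : List ℤ}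
    (ha : ValA u A a) (hb : ValA w A b) : tg2 (Z - A).toNat a b = ev2C N A Z := by
  rw [tg2, ev2C, tgZ_eq hN _ ha.tail hb.tail, ha.hd, hb.hd, hN]

/-- the leaf, if there is a positive value at an edge `≥ x` -/
def leafF (m : ℤ) (lv rv : List (List ℤ)) (ps : List Pat) (d x I : ℤ) (vec : List En) : Bool :=
  far m lv rv d x I vec || leaf m lv rv ps d I vec

/-- no event `Ev2` at the edge `A`; `Z`: last edge of the run; `nk`: bound for the number of
coefficients, minus one -/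
def ev2V (K : Co) (σ : Sol) (X : ℕ) (m : ℤ) (lv rv : List (List ℤ)) (ps : List Pat) (d n0 bd Z nk A : ℤ)
    (u w : List ℤ) : Bool :=
  goX K σ X (leaf m lv rv ps d) (inadm m lv rv d) (leafF m lv rv ps d (K.tp (Z + 1) - nk)) A
    (tg2 (Z - A).toNat (sha n0 u A) (sha n0 w (A - bd)))

/-- no event `Ev1`: zero at the edges `g, ..., g + n - 1` -/
def ev1V (K : Co) (σ : Sol) (X : ℕ) (m : ℤ) (lv rv : List (List ℤ)) (ps : List Pat) (d n0 bd g : ℤ) (n : ℕ)
    (u w : List ℤ) : Bool :=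
  goX K σ X (leaf m lv rv ps d) (inadm m lv rv d) (leaf m lv rv ps d) g
    (tg0 n (sha n0 u g) (sha n0 w (g - bd)))

theorem nz_zero {n0 : ℤ} {v : List ℤ} {y : ℤ} (h : n0 + v.length ≤ y) : nz n0 v y = 0 := by
  unfold nz
  rcases h' : y - n0 with n | n
  · have h1 : y - n0 = (n : ℤ) := h'
    simp only
    rw [List.getD_eq_getElem?_getD, List.getElem?_eq_none (by omega)]
    rfl
  · rfl

theorem dotZ_pos : ∀ (ks : List ℤ) {x : ℤ}, (∀ k ∈ ks, 0 ≤ k) → 0 < dotZ D x ks →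
    ∃ z, x - ks.length < z ∧ 0 < D z
  | [], x, _, h => by simp [dotZ] at h
  | k :: ks, x, hk, h => by
    rcases lt_or_ge 0 (D x) with h1 | h1
    · exact ⟨x, by rw [List.length_cons]; push_cast; omega, h1⟩
    · have h2 : k * D x ≤ 0 := mul_nonpos_of_nonneg_of_nonpos (hk k (by simp)) h1
      have h3 : dotZ D x (k :: ks) = k * D x + dotZ D (x - 1) ks := rfl
      obtain ⟨z, h4, h5⟩ := dotZ_pos ks (x := x - 1)
        (fun k' h' => hk k' (List.mem_cons_of_mem _ h')) (by omega)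
      exact ⟨z, by rw [List.length_cons]; push_cast; omega, h5⟩

theorem comb_pos (hN : K.Nn) (hb : 0 < K.b) {nk : ℤ} (hl : ∀ z, ((K.ks z).length : ℤ) ≤ nk + 1)
    {Z y : ℤ} (hy : Z < y) (h : 0 < K.comb D y) : ∃ z, K.tp (Z + 1) - nk ≤ z ∧ 0 < D z := by
  obtain ⟨z, h1, h2⟩ := dotZ_pos (K.ks y) (hN y) h
  refine ⟨z, ?_, h2⟩
  have h3 : K.tp (Z + 1) ≤ K.tp y := Int.ediv_le_ediv hb (by omega)
  have := hl y
  omega

variable {m : ℤ} {lv rv : List (List ℤ)} {ps : List Pat} {d : ℤ}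

theorem LocV.leafF (h : LocV m lv rv ps d D) {x : ℤ} (hx : ∃ z, x ≤ z ∧ 0 < D z) (I : ℤ)
    (vec : List En) (hv : SatD D I vec) (hi : leafF m lv rv ps d x I vec = true) : False := by
  unfold LWG.leafF at hi
  rw [Bool.or_eq_true] at hi
  exact hi.elim (h.far hv hx) (h.leaf I vec hv)

theorem ev1V_sound (hN : K.Nn) {σ : Sol} (hσ : okSol K σ 5 = true) (h : LocV m lv rv ps d D) {X n : ℕ} {n0 bd g : ℤ} {u w : List ℤ}
    {F : ℤ → ℤ} (hF : ∀ z, F z = nz n0 u z + K.comb D z + nz n0 w (z - bd))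
    (hc : ev1V K σ X m lv rv ps d n0 bd g n u w = true)
    (h0 : ∀ z, g ≤ z → z < g + n → F z = 0) : False := by
  unfold ev1V at hc
  rw [tg0_eq (N := fun z => nz n0 u z + nz n0 w (z - bd)) (fun _ => rfl) n (val_sha n0 u g)
    (val_sha' n0 w g bd)] at hc
  exact goX_sound (P := True) h.leaf (fun _ _ hv => h.inadm hv) (fun I vec hv _ => h.leaf I vec hv) hN
    hσ (holds_eqs (F := F) (fun z => by rw [hF]; ring) n g h0) hc

theorem ev2V_sound (hN : K.Nn) {σ : Sol} (hσ : okSol K σ 5 = true) (hb : 0 < K.b) {nk : ℤ}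
    (hl : ∀ z, ((K.ks z).length : ℤ) ≤ nk + 1) (h : LocV m lv rv ps d D) {X : ℕ}
    {n0 bd Z A B : ℤ} {u w : List ℤ} {F : ℤ → ℤ}
    (hF : ∀ z, F z = nz n0 u z + K.comb D z + nz n0 w (z - bd))
    (hu : n0 + u.length ≤ Z + 1) (hw : bd + n0 + w.length ≤ Z + 1)
    (hc : ev2V K σ X m lv rv ps d n0 bd Z nk A u w = true) : ¬ Ev2 A B F := fun hE => by
  unfold ev2V at hc
  rw [tg2_eq (N := fun z => nz n0 u z + nz n0 w (z - bd)) (fun _ => rfl) (val_sha n0 u A)
    (val_sha' n0 w A bd)] at hc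
  have hZ : ∀ z, Z < z → nz n0 u z + nz n0 w (z - bd) = 0 := fun z hz => by
    rw [nz_zero (by omega), nz_zero (by omega)]
    rfl
  exact goX_sound (P := ∃ y, Z < y ∧ 0 < K.comb D y) h.leaf (fun _ _ hv => h.inadm hv)
    (fun I vec hv hP => by
      obtain ⟨y, hy, hy'⟩ := hP
      exact h.leafF (comb_pos hN hb hl hy hy') I vec hv) hN
    hσ (holds_ev2 (F := F) (fun z => by rw [hF]; ring) hZ hE) hc

/-- mirror image of a noise vector -/
def mv (v : List ℤ) : List ℤ := v.reverse.map fun x => -x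

theorem mv_length (v : List ℤ) : (mv v).length = v.length := by simp [mv]

theorem nz_mv {n0 : ℤ} {v : List ℤ} {N : ℕ} (hv : v.length = N) (y : ℤ) :
    nz (-n0 - N) (mv v) y = - nz n0 v (-1 - y) := by
  by_cases h1 : y < -n0 - N
  · rw [nz_zero (y := -1 - y) (by omega)]
    unfold nz
    rcases h : y - (-n0 - N) with n | n
    · have h' : y - (-n0 - N) = (n : ℤ) := h
      omega
    · rfl
  by_cases h2 : -n0 ≤ y
  · rw [nz_zero (y := y) (by rw [mv_length, hv]; omega)]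
    unfold nz
    rcases h : -1 - y - n0 with n | n
    · have h' : -1 - y - n0 = (n : ℤ) := h
      omega
    · rfl
  obtain ⟨n, hn⟩ : ∃ n : ℕ, y - (-n0 - N) = n := ⟨(y - (-n0 - N)).toNat, by omega⟩
  obtain ⟨k, hk⟩ : ∃ k : ℕ, -1 - y - n0 = k := ⟨(-1 - y - n0).toNat, by omega⟩
  unfold nz
  rw [show y - (-n0 - (N : ℤ)) = Int.ofNat n from hn, show -1 - y - n0 = Int.ofNat k from hk]
  simp only [mv, List.getD_eq_getElem?_getD, List.getElem?_map]
  have hnk : k = v.length - 1 - n := by omega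
  rw [List.getElem?_reverse (by omega), ← hnk]
  rw [List.getElem?_eq_getElem (show k < v.length by omega)]
  rfl

/-- No event between the letters `A`, `B`. `N`: length of the noise vectors, `Z`, `Z'`: last edges of
the runs. The primed data belong to the mirror image. -/
def evV (K K' : Co) (σ σ' : Sol) (X : ℕ) (m : ℤ) (lv rv : List (List ℤ)) (ps : List Pat) (m' : ℤ)
    (lv' rv' : List (List ℤ)) (ps' : List Pat) (d n0 : ℤ) (N : ℕ) (bd Z Z' nk A B : ℤ)
    (u w : List ℤ) : Bool :=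
  bif posB (B - A - 1) then ev1V K σ X m lv rv ps d n0 bd A (B - A).toNat u w
  else bif posB (A - B - 1) then ev1V K σ X m lv rv ps d n0 bd B (A - B).toNat u w
  else bif zeB (B - A) then ev2V K σ X m lv rv ps d n0 bd Z nk A u w &&
    ev2V K' σ' X m' lv' rv' ps' (-d) (-n0 - N) (-bd) Z' nk (-A) (mv u) (mv w)
  else true

theorem evV_sound (hN : K.Nn) (hN' : K'.Nn) {σ σ' : Sol} (hσ : okSol K σ 5 = true)
    (hσ' : okSol K' σ' 5 = true) (hb : 0 < K.b) (hb' : 0 < K'.b) {nk : ℤ}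
    (hl : ∀ z, ((K.ks z).length : ℤ) ≤ nk + 1) (hl' : ∀ z, ((K'.ks z).length : ℤ) ≤ nk + 1)
    (hm : ∀ z, K'.comb (mir D) z = mir (K.comb D) z) (h : LocV m lv rv ps d D) {m' : ℤ}
    {lv' rv' : List (List ℤ)} {ps' : List Pat} (h' : LocV m' lv' rv' ps' (-d) (mir D)) {X N : ℕ}
    {n0 bd Z Z' A B : ℤ} {u w : List ℤ} {F : ℤ → ℤ}
    (hF : ∀ z, F z = nz n0 u z + K.comb D z + nz n0 w (z - bd)) (hu : u.length = N)
    (hw : w.length = N) (hZ : max (n0 + N) (bd + n0 + N) ≤ Z + 1)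
    (hZ' : max (-n0) (-bd - n0) ≤ Z' + 1)
    (hc : evV K K' σ σ' X m lv rv ps m' lv' rv' ps' d n0 N bd Z Z' nk A B u w = true) :
    ¬ Ev1 A B F ∧ ¬ Ev2 A B F ∧ ¬ Ev3 A B F := by
  unfold evV at hc
  have t1 : ∀ {x : Bool}, x = true ∨ x = false := fun {x} => by cases x <;> simp
  rcases t1 (x := posB (B - A - 1)) with c1 | c1
  · rw [c1, cond_true] at hc
    rw [posB_iff] at c1
    refine ⟨?_, fun h1 => ?_, fun h1 => ?_⟩
    · rintro (⟨h1, h2⟩ | ⟨h1, h2⟩)
      · exact ev1V_sound hN hσ h hF hc fun z h3 h4 => h2 z h3 (by omega)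
      · omega
    · have := h1.1
      omega
    · have := h1.1
      omega
  rw [c1, cond_false] at hc
  have n1 : ¬ 0 < B - A - 1 := fun h => by
    rw [posB_iff.2 h] at c1
    simp at c1
  rcases t1 (x := posB (A - B - 1)) with c2 | c2
  · rw [c2, cond_true] at hc
    rw [posB_iff] at c2
    refine ⟨?_, fun h1 => ?_, fun h1 => ?_⟩
    · rintro (⟨h1, h2⟩ | ⟨h1, h2⟩)
      · omega
      · exact ev1V_sound hN hσ h hF hc fun z h3 h4 => h2 z h3 (by omega)
    · have := h1.1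
      omega
    · have := h1.1
      omega
  rw [c2, cond_false] at hc
  have n2 : ¬ 0 < A - B - 1 := fun h => by
    rw [posB_iff.2 h] at c2
    simp at c2
  have e1 : ¬ Ev1 A B F := by
    rintro (⟨h1, -⟩ | ⟨h1, -⟩) <;> omega
  rcases t1 (x := zeB (B - A)) with c3 | c3
  · rw [c3, cond_true, Bool.and_eq_true] at hc
    refine ⟨e1, ?_, fun h1 => ?_⟩
    · exact ev2V_sound hN hσ hb hl h hF (by omega) (by omega) hc.1
    · have hF' : ∀ z, mir F z = nz (-n0 - N) (mv u) z + K'.comb (mir D) z +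
          nz (-n0 - N) (mv w) (z - -bd) := fun z => by
        rw [hm, nz_mv hu, nz_mv hw]
        unfold mir
        rw [hF, show -1 - z - bd = -1 - (z - -bd) by ring]
        ring
      refine ev2V_sound (B := -B) hN' hσ' hb' hl' h' hF' ?_ ?_ hc.2 (ev3_mir h1)
      · rw [mv_length, hu]
        omega
      · rw [mv_length, hw]
        omega
  · have n3 : ¬ B - A = 0 := fun h => by
      rw [zeB_iff.2 h] at c3
      simp at c3
    refine ⟨e1, fun h1 => ?_, fun h1 => ?_⟩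
    · have := h1.1
      omega
    · have := h1.1
      omega

end LWG
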