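import Pool.Agent.LevelWords.Seq
import Pool.Agent.LevelPseudo.Final

/-!
# From heights to pseudolines with a level of complexity `c n ^ e`

* **`kseq_heights`**: columns with heights `F t i`, the differences of two times have one change of sign;
* `RefOp Op A B w`: refinement operators on difference vectors; `RefOp.id`, `RefOp.comp`, `RefOp.iter`, **`RefOp.re`**
  (base `B`, finitely many coefficients `e z`, the first one not zero);
* **`kseq_op`**: words whose windows have one change of sign after a refinement;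
* **`growth_exact`**: `KSeq s (h H ^ K) T`, `T ≥ C R ^ K` for all `K` gives `N ≥ c n ^ e`, `H ^ e = R`;
* **`lines_exact`**: pseudolines.
-/

set_option autoImplicit false

open Finset LevelLower LevelPseudo LevelWords

namespace LWG

/-! ### heights -/

theorem sum_fin_Ico (R : ℕ) (f : ℤ → ℤ) :
    ∑ τ : Fin (2 * R), f ((τ : ℤ) - R) = ∑ i ∈ Ico (-(R : ℤ)) R, f i := by
  refine Finset.sum_bij (fun τ _ => ((τ : ℕ) : ℤ) - R) (fun τ _ => ?_) (fun τ _ τ' _ h => ?_)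
    (fun i hi => ?_) fun τ _ => rfl
  · have := τ.2
    rw [mem_Ico]
    omega
  · apply Fin.ext
    have h' : ((τ : ℕ) : ℤ) - R = ((τ' : ℕ) : ℤ) - R := h
    omega
  · rw [mem_Ico] at hi
    refine ⟨⟨(i + R).toNat, by omega⟩, mem_univ _, ?_⟩
    show (((i + R).toNat : ℕ) : ℤ) - R = i
    omega

/-- **heights**: for two times the difference of the heights is first negative, then positive -/
theorem kseq_heights {T R M : ℕ} (F : ℕ → ℤ → ℤ)
    (hM : ∀ t ≤ T, ∀ i, -(M : ℤ) ≤ F t i ∧ F t i ≤ M)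
    (hsum : ∀ t ≤ T, ∑ i ∈ Ico (-(R : ℤ)) R, F t i = ∑ i ∈ Ico (-(R : ℤ)) R, F 0 i)
    (hne : ∀ t < T, ∃ i, -(R : ℤ) ≤ i ∧ i < R ∧ F t i ≠ F (t + 1) i)
    (hU : ∀ t' t, t' < t → t ≤ T → ∀ i i', i < i' → F t' i < F t i → F t i' < F t' i' → False) :
    KSeq 1 (4 * R * M) T := by
  obtain ⟨G, hG⟩ : ∃ G : ℕ → ℤ → ℤ, G = fun t i => F (min t T) i := ⟨_, rfl⟩
  have g1 : ∀ t i, -(M : ℤ) ≤ G t i ∧ G t i ≤ M := fun t i => by
    subst hG
    exact hM _ (min_le_right _ _) i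
  have gU : ∀ t' t, t' < t → ∀ i i', i < i' → G t' i < G t i → G t i' < G t' i' → False := by
    intro t' t htt i i' hi h1 h2
    subst hG
    simp only at h1 h2
    rcases le_or_gt T t' with h | h
    · rw [min_eq_right h, min_eq_right (h.trans htt.le)] at h1
      exact lt_irrefl _ h1
    · exact hU (min t' T) (min t T) (by omega) (min_le_right _ _) i i' hi h1 h2
  have gF : ∀ t ≤ T, ∀ i, G t i = F t i := fun t ht i => by
    subst hG
    show F (min t T) i = F t i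
    rw [min_eq_left ht]
  refine kseq_of_heights (n := 2 * R) (N := T) (s := 1) (M := 4 * R * M)
    (k := (∑ i ∈ Ico (-(R : ℤ)) R, F 0 i + (2 * R : ℕ) * M).toNat) (fun _ => 2 * M)
    (fun τ t => (G t ((τ : ℤ) - R) + M).toNat) (fun τ t _ => ?_) (fun t ht => ?_) (fun t ht => ?_)
    (fun τ τ' hττ θ θ' => ?_) ?_
  · have := g1 t ((τ : ℤ) - R)
    omega
  · have e1 : ((∑ τ : Fin (2 * R), (G t ((τ : ℤ) - R) + M).toNat : ℕ) : ℤ) =
        ∑ i ∈ Ico (-(R : ℤ)) R, F 0 i + (2 * R : ℕ) * M := by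
      rw [Nat.cast_sum]
      have e2 : ∀ τ : Fin (2 * R), (((G t ((τ : ℤ) - R) + M).toNat : ℕ) : ℤ) =
          G t ((τ : ℤ) - R) + M := fun τ => by
        have := g1 t ((τ : ℤ) - R)
        omega
      rw [sum_congr rfl fun τ _ => e2 τ, sum_add_distrib, sum_fin_Ico R (G t), sum_const,
        card_univ, Fintype.card_fin, nsmul_eq_mul, ← hsum t ht,
        sum_congr rfl fun i _ => gF t ht i]
    omega
  · obtain ⟨i, h1, h2, h3⟩ := hne t ht
    refine ⟨⟨(i + R).toNat, by omega⟩, ?_⟩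
    have e1 : (((⟨(i + R).toNat, by omega⟩ : Fin (2 * R)) : ℕ) : ℤ) - R = i := by
      show (((i + R).toNat : ℕ) : ℤ) - R = i
      omega
    rw [e1, gF t ht.le, gF (t + 1) ht]
    have a1 := hM t ht.le i
    have a2 := hM (t + 1) ht i
    omega
  · refine ⟨0, ph_of_no (fun t' t htt h1 h2 => ?_) _ _⟩
    have hi : ((τ : ℕ) : ℤ) - R < ((τ' : ℕ) : ℤ) - R := by
      have : (τ : ℕ) < τ' := hττ
      omega
    refine gU t' t htt _ _ hi ?_ ?_
    · simp only [vl] at h1 h2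
      split_ifs at h1 h2 <;> omega
    · simp only [vl] at h1 h2
      split_ifs at h1 h2 <;> omega
  · rw [sum_const, card_univ, Fintype.card_fin, smul_eq_mul]
    exact le_of_eq (by ring)

/-! ### refinement operators -/

/-- operators on difference vectors: bound `A`, base `B`, overlap `w` -/
structure RefOp (Op : (ℤ → ℤ) → ℤ → ℤ) (A B w : ℕ) : Prop where
  sub : ∀ f g : ℤ → ℤ, Op (fun x => f x - g x) = fun x => Op f x - Op g x
  bd : ∀ (f : ℤ → ℤ) (M : ℕ), (∀ x, |f x| ≤ M) → ∀ y, |Op f y| ≤ (A * M : ℕ)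
  supp : ∀ (f : ℤ → ℤ) (R : ℕ), (∀ x, f x ≠ 0 → -(R : ℤ) ≤ x ∧ x < R) →
    ∀ y, Op f y ≠ 0 → -((B * R + w : ℕ) : ℤ) ≤ y ∧ y < (B * R + w : ℕ)
  sum : ∀ (f : ℤ → ℤ) (R : ℕ), (∀ x, f x ≠ 0 → -(R : ℤ) ≤ x ∧ x < R) →
    ∑ x ∈ Ico (-(R : ℤ)) R, f x = 0 →
    ∑ y ∈ Ico (-((B * R + w : ℕ) : ℤ)) (B * R + w : ℕ), Op f y = 0
  ne : ∀ (f : ℤ → ℤ) (R : ℕ), (∀ x, f x ≠ 0 → -(R : ℤ) ≤ x ∧ x < R) → (∃ x, f x ≠ 0) →
    ∃ y, Op f y ≠ 0

theorem RefOp.id : RefOp (fun f => f) 1 1 0 where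
  sub _ _ := rfl
  bd f M h y := by rw [one_mul]; exact h y
  supp f R h y hy := by rw [one_mul, add_zero]; exact h y hy
  sum f R _ h := by rw [one_mul, add_zero]; exact h
  ne _ _ _ h := h

theorem RefOp.comp {Op Op' : (ℤ → ℤ) → ℤ → ℤ} {A B w A' B' w' : ℕ} (h : RefOp Op A B w)
    (h' : RefOp Op' A' B' w') : RefOp (fun f => Op' (Op f)) (A' * A) (B' * B) (B' * w + w') where
  sub f g := by rw [h.sub, h'.sub]
  bd f M hM y := by
    rw [mul_assoc]
    exact h'.bd _ _ (h.bd f M hM) y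
  supp f R hf y hy := by
    have e : B' * B * R + (B' * w + w') = B' * (B * R + w) + w' := by ring
    rw [e]
    exact h'.supp _ _ (h.supp f R hf) y hy
  sum f R hf h0 := by
    have e : B' * B * R + (B' * w + w') = B' * (B * R + w) + w' := by ring
    rw [e]
    exact h'.sum _ _ (h.supp f R hf) (h.sum f R hf h0)
  ne f R hf h0 := h'.ne _ _ (h.supp f R hf) (h.ne f R hf h0)

/-- `j` refinements -/
theorem RefOp.iter {Op : (ℤ → ℤ) → ℤ → ℤ} {A B w : ℕ} (h : RefOp Op A B w) (j : ℕ) :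
    ∃ w', RefOp (fun f => Op^[j] f) (A ^ j) (B ^ j) w' := by
  induction j with
  | zero => exact ⟨0, by simpa using RefOp.id⟩
  | succ j ih =>
    obtain ⟨w', h'⟩ := ih
    refine ⟨B * w' + w, ?_⟩
    have h1 := h'.comp h
    have e1 : (fun f => Op^[j + 1] f) = fun f => Op (Op^[j] f) := by
      funext f
      rw [Function.iterate_succ', Function.comp]
    rw [e1, pow_succ', pow_succ']
    exact h1

/-- refinement of a difference vector: base `B`, coefficients `e z`, `lo ≤ z ≤ hi` -/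
noncomputable def Re (B : ℕ) (lo hi : ℤ) (e : ℤ → ℤ) (f : ℤ → ℤ) (y : ℤ) : ℤ :=
  ∑ z ∈ Icc lo hi, if (B : ℤ) ∣ y + 1 - B - z then e z * f ((y + 1 - B - z) / B) else 0

theorem RefOp.re {B : ℕ} (hB : 0 < B) {lo hi : ℤ} (hlo : lo ≤ hi) {e : ℤ → ℤ} (he : e lo ≠ 0) :
    RefOp (Re B lo hi e) (∑ z ∈ Icc lo hi, |e z|).toNat B (lo.natAbs + hi.natAbs + B) where
  sub f g := by
    funext y
    unfold Re
    rw [← sum_sub_distrib]
    refine sum_congr rfl fun z _ => ?_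
    split_ifs
    · ring
    · ring
  bd f M hM y := by
    have h1 : |Re B lo hi e f y| ≤ ∑ z ∈ Icc lo hi, |e z| * M := by
      refine (abs_sum_le_sum_abs _ _).trans (sum_le_sum fun z _ => ?_)
      split_ifs
      · rw [abs_mul]
        exact mul_le_mul_of_nonneg_left (hM _) (abs_nonneg _)
      · rw [abs_zero]
        exact mul_nonneg (abs_nonneg _) (Int.natCast_nonneg M)
    have h2 : 0 ≤ ∑ z ∈ Icc lo hi, |e z| := sum_nonneg fun _ _ => abs_nonneg _
    rw [← sum_mul] at h1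
    rw [Nat.cast_mul, Int.toNat_of_nonneg h2]
    exact h1
  supp f R hf y hy := by
    obtain ⟨z, hz, h1⟩ := exists_ne_zero_of_sum_ne_zero hy
    rw [mem_Icc] at hz
    rw [ne_eq, ite_eq_right_iff, not_forall] at h1
    obtain ⟨h2, h3⟩ := h1
    obtain ⟨x, hx⟩ := h2
    have hB' : (B : ℤ) ≠ 0 := by omega
    rw [hx, Int.mul_ediv_cancel_left _ hB'] at h3
    obtain ⟨h4, h5⟩ := hf x (right_ne_zero_of_mul h3)
    have e1 : (B : ℤ) * x ≤ B * (R - 1) := mul_le_mul_of_nonneg_left (by omega) (by omega)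
    have e2 : (B : ℤ) * (-R) ≤ B * x := mul_le_mul_of_nonneg_left h4 (by omega)
    push_cast
    have e3 : (B : ℤ) * (R - 1) = B * R - B := by ring
    have e4 : (B : ℤ) * (-R) = -(B * R) := by ring
    rw [e3] at e1
    rw [e4] at e2
    have q1 := neg_abs_le lo
    have q2 := le_abs_self hi
    have q3 := abs_nonneg lo
    have q4 := abs_nonneg hi
    omega
  sum f R hf h0 := by
    unfold Re
    rw [sum_comm]
    refine sum_eq_zero fun z hz => ?_
    rw [mem_Icc] at hz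
    have hB' : (B : ℤ) ≠ 0 := by omega
    rw [← sum_filter]
    have e1 : ∑ y ∈ (Ico (-((B * R + (lo.natAbs + hi.natAbs + B) : ℕ) : ℤ))
        (B * R + (lo.natAbs + hi.natAbs + B) : ℕ)).filter (fun y => (B : ℤ) ∣ y + 1 - B - z),
        e z * f ((y + 1 - B - z) / B) = ∑ x ∈ Ico (-(R : ℤ)) R, e z * f x := by
      symm
      refine sum_of_injOn (fun x => B * x + B - 1 + z) (fun x _ x' _ hxx => ?_) (fun x hx => ?_)
        (fun y hy hy' => ?_) fun x hx => ?_
      · have h1 : (B : ℤ) * x + B - 1 + z = B * x' + B - 1 + z := hxx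
        have h2 : (B : ℤ) * x = B * x' := by linarith
        exact mul_left_cancel₀ hB' h2
      · rw [mem_coe, mem_Ico] at hx
        rw [mem_coe, mem_filter, mem_Ico]
        have e1 : (B : ℤ) * x ≤ B * (R - 1) := mul_le_mul_of_nonneg_left (by omega) (by omega)
        have e2 : (B : ℤ) * (-R) ≤ B * x := mul_le_mul_of_nonneg_left hx.1 (by omega)
        have e3 : (B : ℤ) * (R - 1) = B * R - B := by ring
        have e4 : (B : ℤ) * (-R) = -(B * R) := by ring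
        rw [e3] at e1
        rw [e4] at e2
        have q1 := neg_abs_le lo
        have q2 := le_abs_self hi
        have q3 := abs_nonneg lo
        have q4 := abs_nonneg hi
        push_cast
        exact ⟨by omega, ⟨x, by ring⟩⟩
      · rw [mem_filter] at hy
        obtain ⟨-, x, hx⟩ := hy
        have h1 : f ((y + 1 - B - z) / B) = 0 := by
          rw [hx, Int.mul_ediv_cancel_left _ hB']
          by_contra h2
          obtain ⟨h3, h4⟩ := hf x h2
          refine hy' ⟨x, ?_, ?_⟩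
          · rw [mem_coe, mem_Ico]
            exact ⟨h3, h4⟩
          · show (B : ℤ) * x + B - 1 + z = y
            linarith
        rw [h1, mul_zero]
      · show e z * f x = e z * f ((B * x + B - 1 + z + 1 - B - z) / B)
        have e2 : (B : ℤ) * x + B - 1 + z + 1 - B - z = B * x := by ring
        rw [e2, Int.mul_ediv_cancel_left _ hB']
    rw [e1, ← mul_sum, h0, mul_zero]
  ne f R hf h0 := by
    have hB' : (B : ℤ) ≠ 0 := by omega
    -- the first place where `f` is not zero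
    obtain ⟨x, hx, hmin⟩ : ∃ x, f x ≠ 0 ∧ ∀ y < x, f y = 0 := by
      obtain ⟨x, hx, hm⟩ := Int.exists_least_of_bdd (P := fun x => f x ≠ 0)
        ⟨-(R : ℤ), fun z hz => (hf z hz).1⟩ h0
      exact ⟨x, hx, fun y hy => by
        by_contra h
        exact absurd (hm y h) (by omega)⟩
    refine ⟨B * x + B - 1 + lo, ?_⟩
    unfold Re
    rw [sum_eq_single_of_mem lo (mem_Icc.2 ⟨le_rfl, hlo⟩)]
    · have e2 : (B : ℤ) * x + B - 1 + lo + 1 - B - lo = B * x := by ring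
      rw [e2, if_pos (dvd_mul_right _ _), Int.mul_ediv_cancel_left _ hB']
      exact mul_ne_zero he hx
    · intro z hz hzl
      rw [mem_Icc] at hz
      split_ifs with h
      · obtain ⟨x', hx'⟩ := h
        rw [hx', Int.mul_ediv_cancel_left _ hB', hmin x' ?_, mul_zero]
        have h1 : (B : ℤ) * x' < B * x := by
          rw [← hx']
          have : lo < z := lt_of_le_of_ne hz.1 (Ne.symm hzl)
          omega
        exact lt_of_mul_lt_mul_left h1 (by omega)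
      · rfl

/-! ### words -/

theorem C_zero (W : ℤ → ℤ) (x : ℤ) : C W x 0 = 0 := rfl

theorem dl_supp {a x : ℤ} (h : dl a x ≠ 0) : x = a - 1 ∨ x = a := by
  rcases dl_cases a x with h1 | h1 | h1 <;> omega

theorem dl_ne (a : ℤ) : dl a a ≠ 0 := by
  rcases dl_cases a a with h1 | h1 | h1 <;> omega

theorem sum_dl_Ico {R : ℕ} {a : ℤ} (h1 : -(R : ℤ) ≤ a - 1) (h2 : a < R) :
    ∑ x ∈ Ico (-(R : ℤ)) R, dl a x = 0 := by
  have e1 : ∑ x ∈ Ico (-(R : ℤ)) R, dl a x = ∑ x ∈ ({a - 1, a} : Finset ℤ), dl a x := by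
    symm
    refine sum_subset (fun x hx => ?_) fun x _ hx => ?_
    · rw [mem_insert, mem_singleton] at hx
      rw [mem_Ico]
      omega
    · by_contra h
      apply hx
      rw [mem_insert, mem_singleton]
      exact dl_supp h
  rw [e1, sum_pair (by omega)]
  have d1 : dl a (a - 1) = 1 := by rcases dl_cases a (a - 1) with h | h | h <;> omega
  have d2 : dl a a = -1 := by rcases dl_cases a a with h | h | h <;> omega
  omega

/-- **words whose windows have one change of sign after a refinement** -/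
theorem kseq_op {Op : (ℤ → ℤ) → ℤ → ℤ} {A B w : ℕ} (h : RefOp Op A B w) {W : ℤ → ℤ}
    {T R M : ℕ} (hR : ∀ t : ℕ, t < T → -(R : ℤ) ≤ W t - 1 ∧ W t < R)
    (hM : ∀ t : ℕ, t ≤ T → ∀ x, |C W x t| ≤ M)
    (hU : ∀ a b : ℕ, a < b → b ≤ T → Uni (Op (E W a b))) :
    KSeq 1 (4 * (B * R + w + 1) * (A * M)) T := by
  obtain ⟨G, hG⟩ : ∃ G : ℕ → ℤ → ℤ, G = fun t : ℕ => Op fun x => C W x (t : ℤ) := ⟨_, rfl⟩
  have hd : ∀ (t' t : ℕ) y, G t y - G t' y = Op (E W t' t) y := fun t' t y => by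
    have h1 := congrFun (h.sub (fun x => C W x t) fun x => C W x t') y
    rw [hG]
    exact h1.symm
  have h1s : ∀ t : ℕ, t < T → ∀ x, E W t (t + 1 : ℕ) x = dl (W t) x := fun t _ x => by
    unfold E
    rw [show ((t + 1 : ℕ) : ℤ) = (t : ℤ) + 1 by push_cast; ring, C_succ]
    ring
  have hC : ∀ t : ℕ, t ≤ T → (∀ x, C W x t ≠ 0 → -(R : ℤ) ≤ x ∧ x < R) ∧
      ∑ x ∈ Ico (-(R : ℤ)) R, C W x t = 0 := by
    intro t
    induction t with
    | zero =>
      intro _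
      exact ⟨fun x hx => absurd (C_zero W x) hx, sum_eq_zero fun x _ => C_zero W x⟩
    | succ t ih =>
      intro ht
      obtain ⟨i1, i2⟩ := ih (by omega)
      have hr := hR t (by omega)
      have e1 : ∀ x, C W x (t + 1 : ℕ) = C W x t + dl (W t) x := fun x => by
        rw [show ((t + 1 : ℕ) : ℤ) = (t : ℤ) + 1 by push_cast; ring, C_succ]
      refine ⟨fun x hx => ?_, ?_⟩
      · rw [e1] at hx
        by_cases h2 : C W x t = 0
        · rw [h2, zero_add] at hx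
          rcases dl_supp hx with h3 | h3 <;> omega
        · exact i1 x h2
      · rw [sum_congr rfl fun x _ => e1 x, sum_add_distrib, i2, sum_dl_Ico hr.1 hr.2, add_zero]
  have hS : ∀ t : ℕ, t ≤ T → ∑ i ∈ Ico (-((B * R + w + 1 : ℕ) : ℤ)) (B * R + w + 1 : ℕ),
      -G t (i - 1) = 0 := by
    intro t ht
    obtain ⟨c1, c2⟩ := hC t ht
    have h2 := h.sum _ R c1 c2
    have h3 := h.supp _ R c1
    have e1 : ∑ i ∈ Ico (-((B * R + w + 1 : ℕ) : ℤ)) (B * R + w + 1 : ℕ), -G t (i - 1) =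
        ∑ y ∈ Ico (-((B * R + w : ℕ) : ℤ)) (B * R + w : ℕ), -G t y := by
      symm
      refine sum_of_injOn (fun y => y + 1) (fun x _ x' _ hxx => ?_) (fun y hy => ?_)
        (fun i hi hi' => ?_) fun y _ => ?_
      · have : x + 1 = x' + 1 := hxx
        omega
      · rw [mem_coe, mem_Ico] at hy
        rw [mem_coe, mem_Ico]
        show -((B * R + w + 1 : ℕ) : ℤ) ≤ y + 1 ∧ y + 1 < (B * R + w + 1 : ℕ)
        omega
      · rw [neg_eq_zero]
        by_contra h4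
        rw [hG] at h4
        obtain ⟨h5, h6⟩ := h3 _ h4
        refine hi' ⟨i - 1, ?_, ?_⟩
        · rw [mem_coe, mem_Ico]
          exact ⟨h5, h6⟩
        · show i - 1 + 1 = i
          ring
      · show -G t y = -G t (y + 1 - 1)
        rw [add_sub_cancel_right]
    rw [e1, sum_neg_distrib, neg_eq_zero, hG]
    exact h2
  refine kseq_heights (T := T) (R := B * R + w + 1) (M := A * M) (fun t i => -G t (i - 1))
    (fun t ht i => ?_) (fun t ht => ?_) (fun t ht => ?_) (fun t' t htt ht i i' hi h1 h2 => ?_)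
  · have h2 := h.bd _ M (hM t ht) (i - 1)
    have h3 : |G t (i - 1)| ≤ (A * M : ℕ) := by
      rw [hG]
      exact h2
    rw [abs_le] at h3
    constructor <;> omega
  · rw [hS t ht, hS 0 (Nat.zero_le _)]
  · have hr := hR t ht
    have hs : ∀ x, E W t (t + 1 : ℕ) x ≠ 0 → -(R : ℤ) ≤ x ∧ x < R := fun x hx => by
      rw [h1s t ht] at hx
      rcases dl_supp hx with h3 | h3 <;> omega
    obtain ⟨y, hy⟩ := h.ne _ R hs ⟨W t, by rw [h1s t ht]; exact dl_ne _⟩
    obtain ⟨h4, h5⟩ := h.supp _ R hs y hy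
    have h6 := hd t (t + 1) y
    refine ⟨y + 1, by omega, by omega, ?_⟩
    show -G t (y + 1 - 1) ≠ -G (t + 1) (y + 1 - 1)
    rw [add_sub_cancel_right]
    intro h7
    apply hy
    have h8 : Op (E W t (t + 1 : ℕ)) y = G (t + 1) y - G t y := h6.symm
    omega
  · have h3 := hd t' t (i - 1)
    have h4 := hd t' t (i' - 1)
    refine hU t' t htt ht (i - 1) (i' - 1) (by omega) ?_ ?_
    · show Op (E W t' t) (i - 1) < 0
      have h1' : -G t' (i - 1) < -G t (i - 1) := h1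
      omega
    · show 0 < Op (E W t' t) (i' - 1)
      have h2' : -G t (i' - 1) < -G t' (i' - 1) := h2
      omega

/-! ### growth -/

/-- a recursion with factor `q ≥ 2` -/
theorem rec_bd {a : ℕ → ℕ} {q c : ℕ} (hq : 2 ≤ q) (h : ∀ k, a (k + 1) ≤ q * a k + c) (k : ℕ) :
    a k + c ≤ (a 0 + c) * q ^ k := by
  induction k with
  | zero => simp
  | succ k ih =>
    calc a (k + 1) + c ≤ q * a k + c + c := Nat.add_le_add_right (h k) c
      _ ≤ q * (a k + c) := by nlinarith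
      _ ≤ q * ((a 0 + c) * q ^ k) := Nat.mul_le_mul_left q ih
      _ = (a 0 + c) * q ^ (k + 1) := by ring

/-- **growth with the exact exponent** -/
theorem growth_exact {s h H R D : ℕ} {e : ℝ} (hD : 0 < D) (hR : 0 < R) (hH : 2 ≤ H) (hh : 0 < h)
    (he : (H : ℝ) ^ e = R) (he0 : 0 ≤ e)
    (hsys : ∀ K, ∃ T, D * R ^ K ≤ T ∧ KSeq s (h * H ^ K) T) :
    ∃ c : ℝ, 0 < c ∧ ∀ n ≥ h, ∃ N : ℕ, 1 ≤ N ∧ c * (n : ℝ) ^ e ≤ N ∧ KSeq s n N := by
  have hH0 : (0 : ℝ) < H := by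
    have : 0 < H := by omega
    exact_mod_cast this
  have hh0 : (0 : ℝ) < h := by exact_mod_cast hh
  have hD0 : (0 : ℝ) < D := by exact_mod_cast hD
  have hp : 0 < ((h : ℝ) * H) ^ e := Real.rpow_pos_of_pos (mul_pos hh0 hH0) _
  refine ⟨D / ((h : ℝ) * H) ^ e, div_pos hD0 hp, fun n hn => ?_⟩
  obtain ⟨K, hK⟩ : ∃ K, K = Nat.log H (n / h) := ⟨_, rfl⟩
  have hn1 : n / h ≠ 0 := by
    have := (Nat.one_le_div_iff hh).2 hn
    omega
  have k1 : h * H ^ K ≤ n := by
    have h1 := Nat.pow_log_le_self H hn1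
    rw [← hK] at h1
    calc h * H ^ K ≤ h * (n / h) := Nat.mul_le_mul_left h h1
      _ ≤ n := Nat.mul_div_le n h
  have k2 : n < h * H ^ (K + 1) := by
    have h1 := Nat.lt_pow_succ_log_self (b := H) (by omega) (n / h)
    rw [← hK] at h1
    rw [mul_comm]
    exact (Nat.div_lt_iff_lt_mul hh).1 h1
  obtain ⟨T, hT, hT2⟩ := hsys K
  have h1 : 1 ≤ D * R ^ K := Nat.mul_pos hD (pow_pos hR K)
  refine ⟨T, h1.trans hT, ?_, hT2.mono le_rfl k1 le_rfl⟩
  have h2 : (n : ℝ) ^ e ≤ ((h : ℝ) * H ^ (K + 1)) ^ e := by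
    apply Real.rpow_le_rpow (Nat.cast_nonneg n) _ he0
    have : (n : ℝ) ≤ ((h * H ^ (K + 1) : ℕ) : ℝ) := by exact_mod_cast k2.le
    push_cast at this
    exact this
  have h3 : ((h : ℝ) * H ^ (K + 1)) ^ e = ((h : ℝ) * H) ^ e * (R : ℝ) ^ K := by
    rw [pow_succ', ← mul_assoc, Real.mul_rpow (by positivity) (by positivity), ← he,
      ← Real.rpow_natCast ((H : ℝ) ^ e), ← Real.rpow_natCast (H : ℝ) K, ← Real.rpow_mul hH0.le,
      ← Real.rpow_mul hH0.le, mul_comm e]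
  calc (D : ℝ) / ((h : ℝ) * H) ^ e * (n : ℝ) ^ e
      ≤ (D : ℝ) / ((h : ℝ) * H) ^ e * (((h : ℝ) * H) ^ e * (R : ℝ) ^ K) := by
        rw [← h3]
        exact mul_le_mul_of_nonneg_left h2 (by positivity)
    _ = D * (R : ℝ) ^ K := by
        field_simp
    _ ≤ T := by exact_mod_cast hT

/-- pseudolines with a level of complexity `c n ^ e` -/
theorem lines_exact {e c : ℝ} {n₀ : ℕ}
    (hk : ∀ n ≥ n₀, ∃ N : ℕ, 1 ≤ N ∧ c * (n : ℝ) ^ e ≤ N ∧ KSeq 1 n N) : ∀ n ≥ n₀,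
    (∃ f : Fin n → ℝ → ℝ, (∀ i, Continuous (f i)) ∧
      (∀ i j, i ≠ j → ∃ x, Crosses (f i) (f j) x) ∧
      ∃ k < n, c * (n : ℝ) ^ e ≤ psiT f k) ∧
    ∀ s ≥ 1, c * (n : ℝ) ^ e ≤ Psi s n := by
  intro n hn
  obtain ⟨N, h1, h2, h3⟩ := hk n hn
  obtain ⟨f, f1, f2, k, hk, f3⟩ := lines_of_seq h3 h1
  have h4 : c * (n : ℝ) ^ e ≤ psiT f k := h2.trans (by exact_mod_cast f3)
  refine ⟨⟨f, f1, f2, k, hk, h4⟩, fun s hs => h4.trans ?_⟩
  have hs' : ∀ i j, i ≠ j → (common f i j).encard ≤ s := by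
    intro i j hij
    obtain ⟨x, hx⟩ := f2 i j hij
    rw [hx.common, Set.encard_singleton]
    exact_mod_cast hs
  exact_mod_cast psiT_le_Psi f1 hs' hk

/-- **from a family of words to pseudolines**: `W k` with `L ^ k` letters, range `r b ^ k`, heights `m q ^ k`, all
windows with one change of sign after the refinement `Op`, exponent `e` with `(b q) ^ e = L` -/
theorem words_exact {Op : (ℤ → ℤ) → ℤ → ℤ} {A B w : ℕ} (h : RefOp Op A B w) (W : ℕ → ℤ → ℤ)
    {L b q r m : ℕ} {e : ℝ} (hL : 0 < L) (hb : 0 < b) (hq : 0 < q) (hbq : 2 ≤ b * q)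
    (he : ((b * q : ℕ) : ℝ) ^ e = L) (he0 : 0 ≤ e)
    (hR : ∀ k (t : ℕ), t < L ^ k → -((r * b ^ k : ℕ) : ℤ) ≤ W k t - 1 ∧ W k t < (r * b ^ k : ℕ))
    (hM : ∀ k (t : ℕ), t ≤ L ^ k → ∀ x, |C (W k) x t| ≤ (m * q ^ k : ℕ))
    (hU : ∀ k (i j : ℕ), i < j → j ≤ L ^ k → Uni (Op (E (W k) i j))) :
    ∃ c : ℝ, 0 < c ∧ ∃ n₀ : ℕ, ∀ n ≥ n₀,
    (∃ f : Fin n → ℝ → ℝ, (∀ i, Continuous (f i)) ∧
      (∀ i j, i ≠ j → ∃ x, Crosses (f i) (f j) x) ∧
      ∃ k < n, c * (n : ℝ) ^ e ≤ psiT f k) ∧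
    ∀ s ≥ 1, c * (n : ℝ) ^ e ≤ Psi s n := by
  have size : ∀ K, 4 * (B * (r * b ^ K) + w + 1) * (A * (m * q ^ K)) ≤
      4 * (B * r + w + 1) * (A * m + 1) * (b * q) ^ K := by
    intro K
    have hb1 : 1 ≤ b ^ K := Nat.one_le_pow _ _ hb
    have hq1 : 1 ≤ q ^ K := Nat.one_le_pow _ _ hq
    have e1 : B * (r * b ^ K) + w + 1 ≤ (B * r + w + 1) * b ^ K := by nlinarith
    have e2 : A * (m * q ^ K) ≤ (A * m + 1) * q ^ K := by nlinarith
    calc 4 * (B * (r * b ^ K) + w + 1) * (A * (m * q ^ K))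
        ≤ 4 * ((B * r + w + 1) * b ^ K) * ((A * m + 1) * q ^ K) :=
          Nat.mul_le_mul (Nat.mul_le_mul_left 4 e1) e2
      _ = _ := by
          rw [mul_pow]
          ring
  obtain ⟨c, hc, h1⟩ := growth_exact (s := 1) (h := 4 * (B * r + w + 1) * (A * m + 1)) (H := b * q)
    (R := L) (D := 1) Nat.one_pos hL hbq (by positivity) he he0 (fun K => ⟨L ^ K, by rw [one_mul],
      (kseq_op h (hR K) (hM K) (hU K)).mono le_rfl (size K) le_rfl⟩)
  exact ⟨c, hc, _, lines_exact h1⟩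

/-- the exponent `4 / 3` -/
theorem eight_pow : ((2 * 4 : ℕ) : ℝ) ^ (4 / 3 : ℝ) = (16 : ℕ) := by
  have e1 : ((2 * 4 : ℕ) : ℝ) = (2 : ℝ) ^ (3 : ℝ) := by norm_num
  rw [e1, ← Real.rpow_mul (by norm_num)]
  norm_num

end LWG
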