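import Pool.Agent.LWG.GrowTab

/-!
# Growth with recorded times

Only the windows between two recorded times have to be unimodal (after a refinement `Op`); the number of vertices of
the level is the number of recorded times.

* `E_ne`: a window which is not empty has a difference which is not zero;
* **`kseq_rec`**: one word, recorded times `S`;
* `growth_real`: growth `ρ ^ K`, `ρ` real; **`rec_exact`**: a family of words;
* `Tab.Bas`: the facts about a table which are needed here (no steps); `rcs`, `recd`: the recorded letters of a block, the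
  recorded times of the iterates; `recd_weight`; **`lines_rec`**: weights `v` with `ρ₁ v c ≤ ρ₂ ∑ v (recorded children)`.
-/

set_option autoImplicit false

open Finset LevelLower LevelPseudo LevelWords

namespace LWG

/-! ### one word -/

theorem E_self_zero (W : ℤ → ℤ) (a x : ℤ) : E W a a x = 0 := by
  unfold E
  ring

theorem E_nat_succ (W : ℤ → ℤ) (a : ℤ) (b : ℤ) (x : ℤ) : E W a (b + 1) x = E W a b x + dl (W b) x := by
  unfold E
  rw [C_succ]
  ring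

/-- a window with letters: the differences begin with a positive value -/
theorem E_lead (W : ℤ → ℤ) (a n : ℕ) :
    ∃ x, 0 < E W a (a + n + 1 : ℕ) x ∧ ∀ y < x, E W a (a + n + 1 : ℕ) y = 0 := by
  induction n with
  | zero =>
    have e : ∀ y, E W a (a + 0 + 1 : ℕ) y = dl (W a) y := fun y => by
      rw [show ((a + 0 + 1 : ℕ) : ℤ) = (a : ℤ) + 1 by push_cast; ring, E_nat_succ, E_self_zero,
        zero_add]
    refine ⟨W a - 1, ?_, fun y hy => ?_⟩
    · rw [e]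
      rcases dl_cases (W a) (W a - 1) with h | h | h <;> omega
    · rw [e]
      rcases dl_cases (W a) y with h | h | h <;> omega
  | succ n ih =>
    obtain ⟨x, h1, h2⟩ := ih
    have e : ∀ y, E W a (a + (n + 1) + 1 : ℕ) y = E W a (a + n + 1 : ℕ) y +
        dl (W (a + n + 1 : ℕ)) y := fun y => by
      rw [show ((a + (n + 1) + 1 : ℕ) : ℤ) = ((a + n + 1 : ℕ) : ℤ) + 1 by push_cast; ring,
        E_nat_succ]
    obtain ⟨w, hw⟩ : ∃ w, w = W (a + n + 1 : ℕ) := ⟨_, rfl⟩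
    rw [← hw] at e
    rcases lt_trichotomy x (w - 1) with h | h | h
    · refine ⟨x, ?_, fun y hy => ?_⟩
      · rw [e]
        rcases dl_cases w x with h3 | h3 | h3 <;> omega
      · rw [e, h2 y hy]
        rcases dl_cases w y with h3 | h3 | h3 <;> omega
    · refine ⟨x, ?_, fun y hy => ?_⟩
      · rw [e]
        rcases dl_cases w x with h3 | h3 | h3 <;> omega
      · rw [e, h2 y hy]
        rcases dl_cases w y with h3 | h3 | h3 <;> omega
    · refine ⟨w - 1, ?_, fun y hy => ?_⟩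
      · rw [e, h2 _ h]
        rcases dl_cases w (w - 1) with h3 | h3 | h3 <;> omega
      · rw [e, h2 y (by omega)]
        rcases dl_cases w y with h3 | h3 | h3 <;> omega

/-- **one word, recorded times `S`** -/
theorem kseq_rec {Op : (ℤ → ℤ) → ℤ → ℤ} {A B w : ℕ} (h : RefOp Op A B w) {W : ℤ → ℤ}
    {T R M : ℕ} (hR : ∀ t : ℕ, t < T → -(R : ℤ) ≤ W t - 1 ∧ W t < R)
    (hM : ∀ t : ℕ, t ≤ T → ∀ x, |C W x t| ≤ M) (S : Finset ℕ) (hS : ∀ t ∈ S, t ≤ T)
    (hU : ∀ a ∈ S, ∀ b ∈ S, a < b → Uni (Op (E W a b))) :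
    KSeq 1 (4 * (B * R + w + 1) * (A * M)) (S.card - 1) := by
  rcases Nat.eq_zero_or_pos S.card with h0 | h0
  · rw [h0]
    exact ⟨0, fun _ => ∅, fun _ _ => card_empty, fun t ht => absurd ht (Nat.not_lt_zero t),
      fun a b _ => ⟨0, fun _ => 0, monotone_const, fun t => ⟨le_rfl, Nat.zero_le _⟩,
        fun t _ _ => by simp⟩⟩
  obtain ⟨m, hm⟩ : ∃ m, S.card = m + 1 := ⟨S.card - 1, by omega⟩
  obtain ⟨a, ha⟩ : ∃ a : ℕ → ℕ, a = fun j => if hj : j < m + 1 then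
    S.orderEmbOfFin hm ⟨j, hj⟩ else 0 := ⟨_, rfl⟩
  have haS : ∀ j ≤ m, a j ∈ S := fun j hj => by
    rw [ha]
    simp only
    rw [dif_pos (by omega)]
    exact orderEmbOfFin_mem S hm _
  have hlt : ∀ i j, i < j → j ≤ m → a i < a j := fun i j hij hj => by
    rw [ha]
    simp only
    rw [dif_pos (by omega), dif_pos (by omega)]
    exact (S.orderEmbOfFin hm).strictMono hij
  obtain ⟨G, hG⟩ : ∃ G : ℕ → ℤ → ℤ, G = fun t : ℕ => Op fun x => C W x (t : ℤ) := ⟨_, rfl⟩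
  have hd : ∀ (t' t : ℕ) y, G t y - G t' y = Op (E W t' t) y := fun t' t y => by
    have h1 := congrFun (h.sub (fun x => C W x t) fun x => C W x t') y
    rw [hG]
    exact h1.symm
  have hC : ∀ t : ℕ, t ≤ T → (∀ x, C W x t ≠ 0 → -(R : ℤ) ≤ x ∧ x < R) ∧
      ∑ x ∈ Ico (-(R : ℤ)) R, C W x t = 0 := by
    intro t
    induction t with
    | zero =>
      intro _
      exact ⟨fun x hx => absurd (C_zero W x) hx, sum_eq_zero fun x _ => C_zero W x⟩
    | succ t ih =>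
      intro ht
      obtain ⟨i1, i2⟩ := ih (by omega)
      have hr := hR t (by omega)
      have e1 : ∀ x, C W x (t + 1 : ℕ) = C W x t + dl (W t) x := fun x => by
        rw [show ((t + 1 : ℕ) : ℤ) = (t : ℤ) + 1 by push_cast; ring, C_succ]
      refine ⟨fun x hx => ?_, ?_⟩
      · rw [e1] at hx
        by_cases h2 : C W x t = 0
        · rw [h2, zero_add] at hx
          rcases dl_supp hx with h3 | h3 <;> omega
        · exact i1 x h2
      · rw [sum_congr rfl fun x _ => e1 x, sum_add_distrib, i2, sum_dl_Ico hr.1 hr.2, add_zero]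
  have hSum : ∀ t : ℕ, t ≤ T → ∑ i ∈ Ico (-((B * R + w + 1 : ℕ) : ℤ)) (B * R + w + 1 : ℕ),
      -G t (i - 1) = 0 := by
    intro t ht
    obtain ⟨c1, c2⟩ := hC t ht
    have h2 := h.sum _ R c1 c2
    have h3 := h.supp _ R c1
    have e1 : ∑ i ∈ Ico (-((B * R + w + 1 : ℕ) : ℤ)) (B * R + w + 1 : ℕ), -G t (i - 1) =
        ∑ y ∈ Ico (-((B * R + w : ℕ) : ℤ)) (B * R + w : ℕ), -G t y := by
      symm
      refine sum_of_injOn (fun y => y + 1) (fun x _ x' _ hxx => ?_) (fun y hy => ?_)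
        (fun i hi hi' => ?_) fun y _ => ?_
      · have : x + 1 = x' + 1 := hxx
        omega
      · rw [mem_coe, mem_Ico] at hy
        rw [mem_coe, mem_Ico]
        show -((B * R + w + 1 : ℕ) : ℤ) ≤ y + 1 ∧ y + 1 < (B * R + w + 1 : ℕ)
        omega
      · rw [neg_eq_zero]
        by_contra h4
        rw [hG] at h4
        obtain ⟨h5, h6⟩ := h3 _ h4
        refine hi' ⟨i - 1, ?_, ?_⟩
        · rw [mem_coe, mem_Ico]
          exact ⟨h5, h6⟩
        · show i - 1 + 1 = i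
          ring
      · show -G t y = -G t (y + 1 - 1)
        rw [add_sub_cancel_right]
    rw [e1, sum_neg_distrib, neg_eq_zero, hG]
    exact h2
  have haT : ∀ j ≤ m, a j ≤ T := fun j hj => hS _ (haS j hj)
  rw [hm, Nat.add_sub_cancel]
  refine kseq_heights (T := m) (R := B * R + w + 1) (M := A * M) (fun t i => -G (a t) (i - 1))
    (fun t ht i => ?_) (fun t ht => ?_) (fun t ht => ?_) (fun t' t htt ht i i' hi h1 h2 => ?_)
  · have h2 := h.bd _ M (hM (a t) (haT t ht)) (i - 1)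
    have h3 : |G (a t) (i - 1)| ≤ (A * M : ℕ) := by
      rw [hG]
      exact h2
    rw [abs_le] at h3
    constructor <;> omega
  · show ∑ i ∈ _, -G (a t) (i - 1) = ∑ i ∈ _, -G (a 0) (i - 1)
    rw [hSum (a t) (haT t ht), hSum (a 0) (haT 0 (Nat.zero_le _))]
  · have hab := hlt t (t + 1) (Nat.lt_succ_self t) ht
    obtain ⟨n, hn⟩ : ∃ n, a (t + 1) = a t + n + 1 := ⟨a (t + 1) - a t - 1, by omega⟩
    have hs : ∀ x, E W (a t) (a (t + 1)) x ≠ 0 → -(R : ℤ) ≤ x ∧ x < R := fun x hx => by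
      by_cases h5 : C W x (a (t + 1)) = 0
      · refine (hC (a t) (haT t (by omega))).1 x fun h6 => hx ?_
        unfold E
        rw [h5, h6, sub_zero]
      · exact (hC (a (t + 1)) (haT (t + 1) (by omega))).1 x h5
    obtain ⟨x, hx, -⟩ := E_lead W (a t) n
    rw [← hn] at hx
    obtain ⟨y, hy⟩ := h.ne _ R hs ⟨x, hx.ne'⟩
    obtain ⟨h4, h5⟩ := h.supp _ R hs y hy
    have h6 := hd (a t) (a (t + 1)) y
    refine ⟨y + 1, by omega, by omega, ?_⟩
    show -G (a t) (y + 1 - 1) ≠ -G (a (t + 1)) (y + 1 - 1)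
    rw [add_sub_cancel_right]
    intro h7
    apply hy
    omega
  · have h3 := hd (a t') (a t) (i - 1)
    have h4 := hd (a t') (a t) (i' - 1)
    refine hU (a t') (haS t' (by omega)) (a t) (haS t ht) (hlt t' t htt ht) (i - 1) (i' - 1)
      (by omega) ?_ ?_
    · have h1' : -G (a t') (i - 1) < -G (a t) (i - 1) := h1
      omega
    · have h2' : -G (a t) (i' - 1) < -G (a t') (i' - 1) := h2
      omega

/-! ### growth -/

/-- **growth with a real factor** -/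
theorem growth_real {s h H : ℕ} {D ρ e : ℝ} (hD : 0 < D) (hρ : 0 < ρ) (hH : 2 ≤ H) (hh : 0 < h)
    (he : (H : ℝ) ^ e = ρ) (he0 : 0 ≤ e)
    (hsys : ∀ K : ℕ, ∃ T : ℕ, 1 ≤ T ∧ D * ρ ^ K ≤ T ∧ KSeq s (h * H ^ K) T) :
    ∃ c : ℝ, 0 < c ∧ ∀ n ≥ h, ∃ N : ℕ, 1 ≤ N ∧ c * (n : ℝ) ^ e ≤ N ∧ KSeq s n N := by
  have hH0 : (0 : ℝ) < H := by
    have : 0 < H := by omega
    exact_mod_cast this
  have hh0 : (0 : ℝ) < h := by exact_mod_cast hh
  have hp : 0 < ((h : ℝ) * H) ^ e := Real.rpow_pos_of_pos (mul_pos hh0 hH0) _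
  refine ⟨D / ((h : ℝ) * H) ^ e, div_pos hD hp, fun n hn => ?_⟩
  obtain ⟨K, hK⟩ : ∃ K, K = Nat.log H (n / h) := ⟨_, rfl⟩
  have hn1 : n / h ≠ 0 := by
    have := (Nat.one_le_div_iff hh).2 hn
    omega
  have k1 : h * H ^ K ≤ n := by
    have h1 := Nat.pow_log_le_self H hn1
    rw [← hK] at h1
    calc h * H ^ K ≤ h * (n / h) := Nat.mul_le_mul_left h h1
      _ ≤ n := Nat.mul_div_le n h
  have k2 : n < h * H ^ (K + 1) := by
    have h1 := Nat.lt_pow_succ_log_self (b := H) (by omega) (n / h)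
    rw [← hK] at h1
    rw [mul_comm]
    exact (Nat.div_lt_iff_lt_mul hh).1 h1
  obtain ⟨T, h1, hT, hT2⟩ := hsys K
  refine ⟨T, h1, ?_, hT2.mono le_rfl k1 le_rfl⟩
  have h2 : (n : ℝ) ^ e ≤ ((h : ℝ) * H ^ (K + 1)) ^ e := by
    apply Real.rpow_le_rpow (Nat.cast_nonneg n) _ he0
    have : (n : ℝ) ≤ ((h * H ^ (K + 1) : ℕ) : ℝ) := by exact_mod_cast k2.le
    push_cast at this
    exact this
  have h3 : ((h : ℝ) * H ^ (K + 1)) ^ e = ((h : ℝ) * H) ^ e * ρ ^ K := by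
    rw [pow_succ', ← mul_assoc, Real.mul_rpow (by positivity) (by positivity), ← he,
      ← Real.rpow_natCast ((H : ℝ) ^ e), ← Real.rpow_natCast (H : ℝ) K, ← Real.rpow_mul hH0.le,
      ← Real.rpow_mul hH0.le, mul_comm e]
  calc D / ((h : ℝ) * H) ^ e * (n : ℝ) ^ e
      ≤ D / ((h : ℝ) * H) ^ e * (((h : ℝ) * H) ^ e * ρ ^ K) := by
        rw [← h3]
        exact mul_le_mul_of_nonneg_left h2 (by positivity)
    _ = D * ρ ^ K := by
        field_simp
    _ ≤ T := hT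

/-- **a family of words with recorded times**: `W k`, times `≤ T k`, range `r b ^ k`, heights `m q ^ k`, recorded times
`S k` with `D ρ ^ k + 1 ≤ #(S k)` -/
theorem rec_exact {Op : (ℤ → ℤ) → ℤ → ℤ} {A B w : ℕ} (h : RefOp Op A B w) (W : ℕ → ℤ → ℤ)
    (T : ℕ → ℕ) {b q r m : ℕ} {e ρ D : ℝ} (hb : 0 < b) (hq : 0 < q) (hbq : 2 ≤ b * q)
    (hD : 0 < D) (hρ : 0 < ρ) (he : ((b * q : ℕ) : ℝ) ^ e = ρ) (he0 : 0 ≤ e)
    (hR : ∀ k (t : ℕ), t < T k → -((r * b ^ k : ℕ) : ℤ) ≤ W k t - 1 ∧ W k t < (r * b ^ k : ℕ))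
    (hM : ∀ k (t : ℕ), t ≤ T k → ∀ x, |C (W k) x t| ≤ (m * q ^ k : ℕ)) (S : ℕ → Finset ℕ)
    (hS : ∀ k, ∀ t ∈ S k, t ≤ T k) (hc : ∀ k, 2 ≤ (S k).card ∧ D * ρ ^ k + 1 ≤ (S k).card)
    (hU : ∀ k, ∀ i ∈ S k, ∀ j ∈ S k, i < j → Uni (Op (E (W k) i j))) :
    ∃ c : ℝ, 0 < c ∧ ∃ n₀ : ℕ, ∀ n ≥ n₀,
    (∃ f : Fin n → ℝ → ℝ, (∀ i, Continuous (f i)) ∧
      (∀ i j, i ≠ j → ∃ x, Crosses (f i) (f j) x) ∧
      ∃ k < n, c * (n : ℝ) ^ e ≤ psiT f k) ∧
    ∀ s ≥ 1, c * (n : ℝ) ^ e ≤ Psi s n := by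
  have size : ∀ K, 4 * (B * (r * b ^ K) + w + 1) * (A * (m * q ^ K)) ≤
      4 * (B * r + w + 1) * (A * m + 1) * (b * q) ^ K := by
    intro K
    have hb1 : 1 ≤ b ^ K := Nat.one_le_pow _ _ hb
    have hq1 : 1 ≤ q ^ K := Nat.one_le_pow _ _ hq
    have e1 : B * (r * b ^ K) + w + 1 ≤ (B * r + w + 1) * b ^ K := by nlinarith
    have e2 : A * (m * q ^ K) ≤ (A * m + 1) * q ^ K := by nlinarith
    calc 4 * (B * (r * b ^ K) + w + 1) * (A * (m * q ^ K))
        ≤ 4 * ((B * r + w + 1) * b ^ K) * ((A * m + 1) * q ^ K) :=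
          Nat.mul_le_mul (Nat.mul_le_mul_left 4 e1) e2
      _ = _ := by
          rw [mul_pow]
          ring
  obtain ⟨c, hc', h1⟩ := growth_real (s := 1) (h := 4 * (B * r + w + 1) * (A * m + 1)) (H := b * q)
    hD hρ hbq (by positivity) he he0 (fun K => ⟨(S K).card - 1, by have := (hc K).1; omega, by
      have h2 := (hc K).2
      have h3 : (((S K).card - 1 : ℕ) : ℝ) = (S K).card - 1 := by
        rw [Nat.cast_sub (by have := (hc K).1; omega), Nat.cast_one]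
      rw [h3]
      linarith, (kseq_rec h (hR K) (hM K) (S K) (hS K) (hU K)).mono le_rfl (size K) le_rfl⟩)
  exact ⟨c, hc', _, lines_exact h1⟩

/-! ### tables -/

namespace Tab

variable (S : Tab)

/-- facts about a table, without steps -/
structure Bas : Prop where
  L0 : 0 < S.L
  b2 : 2 ≤ S.b
  chd_lt : ∀ c < S.T, ∀ r < S.L, S.chd c r < S.T
  id : ∀ c < S.T, ∀ y, S.part c 0 S.L y = S.comb (dl 0) y

variable {S} {W : ℤ → ℤ} {ty : ℤ → ℕ}

theorem OK.bas (K : S.OK) (hb : 2 ≤ S.b) : S.Bas := ⟨K.L0, hb, K.chd_lt, K.id⟩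

theorem Bas.b0 (K : S.Bas) : 0 < S.b := by
  have := K.b2
  omega

theorem Bas.sub_lt (K : S.Bas) (h : ∀ t, ty t < S.T) (t : ℤ) : S.subT ty t < S.T := by
  obtain ⟨p, r, hr, rfl⟩ := exists_pr K.L0 t
  rw [subT_eq ty p hr]
  exact K.chd_lt _ (h p) r hr

theorem Bas.C_next (K : S.Bas) (h : ∀ t, ty t < S.T) (p z : ℤ) :
    C (S.subW W ty) z (S.L * (p + 1)) = C (S.subW W ty) z (S.L * p) + S.comb (dl (W p)) z := by
  have := C_block (S := S) W ty p z S.L le_rfl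
  rw [show (S.L * (p + 1) : ℤ) = S.L * p + (S.L : ℕ) by ring, this, K.id _ (h p), dl_comb K.b0]

theorem Bas.C_mul (K : S.Bas) (h : ∀ t, ty t < S.T) (p : ℕ) (z : ℤ) :
    C (S.subW W ty) z (S.L * p) = S.comb (fun x => C W x p) z := by
  induction p with
  | zero =>
    have h0 : S.comb (fun x => C W x ((0 : ℕ) : ℤ)) z = 0 := by
      unfold comb
      refine List.sum_eq_zero fun x hx => ?_
      obtain ⟨k, -, rfl⟩ := List.mem_map.1 hx
      split_ifs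
      · exact mul_zero _
      · rfl
    rw [h0, show ((S.L : ℤ) * ((0 : ℕ) : ℤ)) = 0 by push_cast; ring]
    rfl
  | succ p ih =>
    have h1 : S.comb (fun x => C W x ((p + 1 : ℕ) : ℤ)) z = S.comb (fun x => C W x p) z +
        S.comb (dl (W p)) z := by
      rw [← comb_add]
      refine comb_congr (fun x => ?_) _
      rw [show ((p + 1 : ℕ) : ℤ) = (p : ℤ) + 1 by push_cast; ring, C_succ]
    rw [h1, ← ih, show ((p + 1 : ℕ) : ℤ) = (p : ℤ) + 1 by push_cast; ring, K.C_next h]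

end Tab

open Tab

section iter

variable {S : Tab} {W0 : ℤ → ℤ} {ty0 : ℤ → ℕ}

theorem bas_ty (K : S.Bas) (h : ∀ t, ty0 t < S.T) : ∀ k t, (iterW S W0 ty0 k).2 t < S.T
  | 0 => h
  | k + 1 => K.sub_lt (bas_ty K h k)

/-- range of the iterates -/
theorem bas_bdW (K : S.Bas) (h : ∀ t, ty0 t < S.T) {w A0 : ℕ} (hw : S.okOff w = true)
    (h0 : ∀ t, |W0 t| ≤ A0) (k : ℕ) (t : ℤ) :
    |(iterW S W0 ty0 k).1 t| + w ≤ ((A0 + w) * S.b ^ k : ℕ) := by
  induction k generalizing t with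
  | zero =>
    have := h0 t
    show |W0 t| + w ≤ _
    push_cast
    rw [pow_zero, mul_one]
    omega
  | succ k ih =>
    obtain ⟨p, r, hr, rfl⟩ := exists_pr K.L0 t
    show |S.subW (iterW S W0 ty0 k).1 (iterW S W0 ty0 k).2 (S.L * p + r)| + w ≤ _
    rw [subW_eq _ _ p hr]
    have h1 := ih p
    have h2 := off_le hw (bas_ty (W0 := W0) K h k p) hr
    have hb' : (2 : ℤ) ≤ S.b := by exact_mod_cast K.b2
    have h3 : |(S.b : ℤ) * (iterW S W0 ty0 k).1 p + S.off ((iterW S W0 ty0 k).2 p) r| ≤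
        S.b * |(iterW S W0 ty0 k).1 p| + w := by
      refine (abs_add_le _ _).trans (add_le_add (le_of_eq ?_) h2)
      rw [abs_mul, abs_of_nonneg (by omega : (0 : ℤ) ≤ S.b)]
    have h4 : (S.b : ℤ) * (|(iterW S W0 ty0 k).1 p| + w) ≤ S.b * ((A0 + w) * S.b ^ k : ℕ) :=
      mul_le_mul_of_nonneg_left h1 (by omega)
    have h5 : (2 : ℤ) * w ≤ S.b * w := mul_le_mul_of_nonneg_right hb' (Int.natCast_nonneg w)
    push_cast at h4 ⊢
    rw [pow_succ]
    nlinarith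

/-- heights of the iterates -/
theorem bas_bdC (K : S.Bas) (h : ∀ t, ty0 t < S.T) {q : ℕ} (hq : 2 ≤ q) (hc : S.okCol q = true)
    (k : ℕ) (t : ℕ) (ht : t ≤ S.L ^ k) (x : ℤ) :
    |C (iterW S W0 ty0 k).1 x t| + S.L ≤ ((1 + S.L) * q ^ k : ℕ) := by
  induction k generalizing t x with
  | zero =>
    rw [pow_zero] at ht
    show |C W0 x t| + S.L ≤ _
    rw [pow_zero, mul_one]
    have : t = 0 ∨ t = 1 := by omega
    rcases this with rfl | rfl
    · rw [show C W0 x ((0 : ℕ) : ℤ) = 0 from rfl]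
      push_cast
      rw [abs_zero]
      omega
    · have h2 := C_succ W0 x 0
      rw [show (0 : ℤ) + 1 = ((1 : ℕ) : ℤ) by norm_num, show C W0 x 0 = 0 from rfl, zero_add] at h2
      rw [h2]
      have := abs_dl_le (W0 0) x
      push_cast
      omega
  | succ k ih =>
    have hL := K.L0
    obtain ⟨p, r, hr, e⟩ : ∃ p r : ℕ, r < S.L ∧ t = S.L * p + r :=
      ⟨t / S.L, t % S.L, Nat.mod_lt _ hL, (Nat.div_add_mod t S.L).symm⟩
    have hp : p ≤ S.L ^ k := by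
      rw [pow_succ', e] at ht
      have : S.L * p ≤ S.L * S.L ^ k := by omega
      exact Nat.le_of_mul_le_mul_left this hL
    show |C (S.subW (iterW S W0 ty0 k).1 (iterW S W0 ty0 k).2) x t| + S.L ≤ _
    rw [e, show ((S.L * p + r : ℕ) : ℤ) = S.L * (p : ℤ) + r by push_cast; ring,
      C_block _ _ (p : ℤ) x r hr.le, K.C_mul (bas_ty K h k)]
    have h2 : ∀ y, |C (iterW S W0 ty0 k).1 y p| ≤ ((1 + S.L) * q ^ k - S.L : ℕ) := fun y => by
      have h3 := ih p hp y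
      omega
    have h3 := comb_bd K.b0 hc h2 x
    have h4 := part_bd (S := S) ((iterW S W0 ty0 k).2 (p : ℤ)) r (x - S.b * (iterW S W0 ty0 k).1 (p : ℤ))
    have h5 := abs_add_le (S.comb (fun y => C (iterW S W0 ty0 k).1 y p) x)
      (S.part ((iterW S W0 ty0 k).2 (p : ℤ)) 0 r (x - S.b * (iterW S W0 ty0 k).1 (p : ℤ)))
    have h6 : S.L ≤ (1 + S.L) * q ^ k := by
      have : 1 ≤ q ^ k := Nat.one_le_pow _ _ (by omega)
      nlinarith
    have h7 : q * ((1 + S.L) * q ^ k - S.L) + q * S.L = (1 + S.L) * q ^ (k + 1) := by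
      rw [← mul_add, Nat.sub_add_cancel h6]
      ring
    have h8 : 2 * S.L ≤ q * S.L := Nat.mul_le_mul_right _ hq
    omega

variable (S) (rc : ℕ → ℕ → Bool)

/-- recorded letters of a block -/
def rcs (c : ℕ) : Finset ℕ := (range S.L).filter fun r => rc c r = true

/-- recorded times of the iterates -/
def recd (W0 : ℤ → ℤ) (ty0 : ℤ → ℕ) : ℕ → Finset ℕ
  | 0 => {0}
  | k + 1 => (recd W0 ty0 k).biUnion fun t =>
      (rcs S rc ((iterW S W0 ty0 k).2 t)).image fun r => S.L * t + r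

variable {S} {rc}

theorem recd_lt (K : S.Bas) : ∀ k, ∀ t ∈ recd S rc W0 ty0 k, t < S.L ^ k
  | 0, t, ht => by
    have : t = 0 := by simpa [recd] using ht
    rw [this]
    exact Nat.one_pos
  | k + 1, t, ht => by
    rw [recd, mem_biUnion] at ht
    obtain ⟨p, hp, ht⟩ := ht
    rw [mem_image] at ht
    obtain ⟨r, hr, rfl⟩ := ht
    rw [rcs, mem_filter, mem_range] at hr
    have h1 := recd_lt K k p hp
    rw [pow_succ']
    have h2 : S.L * (p + 1) ≤ S.L * S.L ^ k := Nat.mul_le_mul_left _ h1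
    have h3 : S.L * (p + 1) = S.L * p + S.L := by ring
    omega

theorem sum_recd (K : S.Bas) (k : ℕ) (f : ℕ → ℕ) : ∑ t ∈ recd S rc W0 ty0 (k + 1), f t =
    ∑ t ∈ recd S rc W0 ty0 k, ∑ r ∈ rcs S rc ((iterW S W0 ty0 k).2 t), f (S.L * t + r) := by
  have hinj : ∀ p r p' r' : ℕ, r < S.L → r' < S.L → S.L * p + r = S.L * p' + r' →
      p = p' ∧ r = r' := by
    intro p r p' r' hr hr' h
    have h1 : (S.L * p + r) / S.L = p := by
      rw [Nat.add_comm, Nat.add_mul_div_left _ _ K.L0, Nat.div_eq_of_lt hr, zero_add]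
    have h2 : (S.L * p' + r') / S.L = p' := by
      rw [Nat.add_comm, Nat.add_mul_div_left _ _ K.L0, Nat.div_eq_of_lt hr', zero_add]
    have h3 : p = p' := by rw [← h1, ← h2, h]
    subst h3
    exact ⟨rfl, by omega⟩
  rw [recd, sum_biUnion]
  · refine sum_congr rfl fun t _ => ?_
    rw [sum_image]
    intro r hr r' hr' hrr
    rw [mem_coe, rcs, mem_filter, mem_range] at hr hr'
    exact (hinj t r t r' hr.1 hr'.1 hrr).2
  · intro t _ t' _ htt
    refine disjoint_left.2 fun x hx hx' => htt ?_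
    rw [mem_image] at hx hx'
    obtain ⟨r, hr, rfl⟩ := hx
    obtain ⟨r', hr', e⟩ := hx'
    rw [rcs, mem_filter, mem_range] at hr hr'
    exact (hinj t' r' t r hr'.1 hr.1 e).1.symm

theorem recd_weight (K : S.Bas) (h : ∀ t, ty0 t < S.T) {v : ℕ → ℕ} {ρ₁ ρ₂ : ℕ}
    (hv : ∀ c < S.T, ρ₁ * v c ≤ ρ₂ * ∑ r ∈ rcs S rc c, v (S.chd c r)) (k : ℕ) :
    ρ₁ ^ k * v (ty0 0) ≤ ρ₂ ^ k * ∑ t ∈ recd S rc W0 ty0 k, v ((iterW S W0 ty0 k).2 t) := by
  induction k with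
  | zero =>
    rw [recd, sum_singleton]
    exact le_rfl
  | succ k ih =>
    rw [sum_recd K k fun t => v ((iterW S W0 ty0 (k + 1)).2 t)]
    have h1 : ∀ t ∈ recd S rc W0 ty0 k, ρ₁ * v ((iterW S W0 ty0 k).2 t) ≤
        ρ₂ * ∑ r ∈ rcs S rc ((iterW S W0 ty0 k).2 t),
          v ((iterW S W0 ty0 (k + 1)).2 ((S.L * t + r : ℕ) : ℤ)) := by
      intro t _
      refine (hv _ (bas_ty (W0 := W0) K h k t)).trans (Nat.mul_le_mul_left _ (le_of_eq ?_))
      refine sum_congr rfl fun r hr => ?_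
      rw [rcs, mem_filter, mem_range] at hr
      show v (S.chd ((iterW S W0 ty0 k).2 t) r) = v (S.subT (iterW S W0 ty0 k).2 ((S.L * t + r : ℕ) : ℤ))
      rw [show ((S.L * t + r : ℕ) : ℤ) = S.L * (t : ℤ) + r by push_cast; ring,
        subT_eq _ (t : ℤ) hr.1]
    have h2 := sum_le_sum h1
    rw [← mul_sum, ← mul_sum] at h2
    calc ρ₁ ^ (k + 1) * v (ty0 0) = ρ₁ * (ρ₁ ^ k * v (ty0 0)) := by ring
      _ ≤ ρ₁ * (ρ₂ ^ k * ∑ t ∈ recd S rc W0 ty0 k, v ((iterW S W0 ty0 k).2 t)) :=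
        Nat.mul_le_mul_left _ ih
      _ = ρ₂ ^ k * (ρ₁ * ∑ t ∈ recd S rc W0 ty0 k, v ((iterW S W0 ty0 k).2 t)) := by ring
      _ ≤ ρ₂ ^ k * (ρ₂ * _) := Nat.mul_le_mul_left _ h2
      _ = _ := by ring

/-- **pseudolines from a table with recorded letters**: weights `1 ≤ v ≤ V`, factor `ρ₁ / ρ₂` -/
theorem lines_rec (K : S.Bas) (h : ∀ t, ty0 t < S.T) {q w A0 : ℕ} (hq : 2 ≤ q)
    (hc : S.okCol q = true) (hw : S.okOff w = true) (h0 : ∀ t, |W0 t| ≤ A0)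
    {v : ℕ → ℕ} {V ρ₁ ρ₂ : ℕ} (hρ₂ : 0 < ρ₂) (hρ : ρ₂ < ρ₁) (hv1 : ∀ c < S.T, 1 ≤ v c ∧ v c ≤ V)
    (hv : ∀ c < S.T, ρ₁ * v c ≤ ρ₂ * ∑ r ∈ rcs S rc c, v (S.chd c r))
    (h2 : ∀ c < S.T, 2 ≤ (rcs S rc c).card)
    {Op : (ℤ → ℤ) → ℤ → ℤ} {A B u : ℕ} (hOp : RefOp Op A B u)
    (hU : ∀ k, ∀ i ∈ recd S rc W0 ty0 k, ∀ j ∈ recd S rc W0 ty0 k, i < j →
      Uni (Op (E (iterW S W0 ty0 k).1 i j))) {e : ℝ}
    (he : ((S.b * q : ℕ) : ℝ) ^ e = (ρ₁ : ℝ) / ρ₂) (he0 : 0 ≤ e) :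
    ∃ c : ℝ, 0 < c ∧ ∃ n₀ : ℕ, ∀ n ≥ n₀,
    (∃ f : Fin n → ℝ → ℝ, (∀ i, Continuous (f i)) ∧
      (∀ i j, i ≠ j → ∃ x, Crosses (f i) (f j) x) ∧
      ∃ k < n, c * (n : ℝ) ^ e ≤ psiT f k) ∧
    ∀ s ≥ 1, c * (n : ℝ) ^ e ≤ Psi s n := by
  have hb := K.b2
  have hρ₂' : (0 : ℝ) < ρ₂ := by exact_mod_cast hρ₂
  have hρ' : (ρ₂ : ℝ) < ρ₁ := by exact_mod_cast hρ
  have hρ0 : (0 : ℝ) < (ρ₁ : ℝ) / ρ₂ := div_pos (by linarith) hρ₂'
  have hV : 1 ≤ V := by
    have := hv1 _ (h 0)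
    omega
  have hV' : (1 : ℝ) ≤ V := by exact_mod_cast hV
  -- cardinalities
  have card2 : ∀ k, 2 ^ k ≤ (recd S rc W0 ty0 k).card := by
    intro k
    induction k with
    | zero => exact le_of_eq (by rw [recd, card_singleton, pow_zero])
    | succ k ih =>
      rw [card_eq_sum_ones, sum_recd K k fun _ => 1, pow_succ]
      calc 2 ^ k * 2 ≤ (recd S rc W0 ty0 k).card * 2 := Nat.mul_le_mul_right 2 ih
        _ = ∑ t ∈ recd S rc W0 ty0 k, 2 := by rw [sum_const, smul_eq_mul]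
        _ ≤ _ := sum_le_sum fun t _ => by
          rw [← card_eq_sum_ones]
          exact h2 _ (bas_ty K h k t)
  have cardW : ∀ k, ((ρ₁ : ℝ) / ρ₂) ^ k ≤ V * (recd S rc W0 ty0 k).card := by
    intro k
    have h3 := recd_weight (W0 := W0) K h hv k
    have h4 : ∑ t ∈ recd S rc W0 ty0 k, v ((iterW S W0 ty0 k).2 t) ≤
        (recd S rc W0 ty0 k).card * V := by
      rw [← smul_eq_mul, ← sum_const]
      exact sum_le_sum fun t _ => (hv1 _ (bas_ty K h k t)).2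
    have h5 : ρ₁ ^ k ≤ ρ₂ ^ k * ((recd S rc W0 ty0 k).card * V) := by
      calc ρ₁ ^ k ≤ ρ₁ ^ k * v (ty0 0) := Nat.le_mul_of_pos_right _ (hv1 _ (h 0)).1
        _ ≤ _ := h3.trans (Nat.mul_le_mul_left _ h4)
    have h6 : (ρ₁ : ℝ) ^ k ≤ (ρ₂ : ℝ) ^ k * ((recd S rc W0 ty0 k).card * V) := by
      exact_mod_cast h5
    rw [div_pow, div_le_iff₀ (by positivity)]
    linarith
  refine rec_exact hOp (fun k => (iterW S W0 ty0 (k + 1)).1) (fun k => S.L ^ (k + 1)) (b := S.b)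
    (q := q) (r := (A0 + w + 1) * S.b) (m := (1 + S.L) * q) (ρ := (ρ₁ : ℝ) / ρ₂)
    (D := ((ρ₁ : ℝ) / ρ₂) / (2 * V)) (by omega) (by omega) (by nlinarith)
    (div_pos hρ0 (by linarith)) hρ0 he he0
    (fun k t _ => ?_) (fun k t ht x => ?_) (fun k => recd S rc W0 ty0 (k + 1))
    (fun k t ht => (recd_lt K _ t ht).le) (fun k => ?_) (fun k => hU (k + 1))
  · have h3 := bas_bdW K h hw h0 (k + 1) (t : ℤ)
    have h4 := neg_abs_le ((iterW S W0 ty0 (k + 1)).1 (t : ℤ))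
    have h5 := le_abs_self ((iterW S W0 ty0 (k + 1)).1 (t : ℤ))
    have hb1 : 1 ≤ S.b ^ (k + 1) := Nat.one_le_pow _ _ (by omega)
    have h6 : (A0 + w) * S.b ^ (k + 1) + 1 ≤ (A0 + w + 1) * S.b ^ (k + 1) := by nlinarith
    have h7 : (A0 + w + 1) * S.b * S.b ^ k = (A0 + w + 1) * S.b ^ (k + 1) := by ring
    constructor <;> omega
  · have h3 := bas_bdC (W0 := W0) K h hq hc (k + 1) t ht x
    have h7 : (1 + S.L) * q * q ^ k = (1 + S.L) * q ^ (k + 1) := by ring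
    omega
  · have h3 := card2 (k + 1)
    have h4 := cardW (k + 1)
    have h5 : 1 ≤ 2 ^ k := Nat.one_le_two_pow
    have h6 : 2 ≤ (recd S rc W0 ty0 (k + 1)).card := by
      rw [pow_succ] at h3
      omega
    have h7 : (2 : ℝ) ≤ (recd S rc W0 ty0 (k + 1)).card := by exact_mod_cast h6
    refine ⟨h6, ?_⟩
    have h8 : (ρ₁ : ℝ) / ρ₂ / (2 * V) * (ρ₁ / ρ₂) ^ k = ((ρ₁ : ℝ) / ρ₂) ^ (k + 1) / (2 * V) := by
      rw [pow_succ]
      ring
    rw [h8]
    have h9 : ((ρ₁ : ℝ) / ρ₂) ^ (k + 1) / (2 * V) ≤ (recd S rc W0 ty0 (k + 1)).card / 2 := by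
      rw [div_le_div_iff₀ (by positivity) (by norm_num)]
      nlinarith
    linarith

end iter

end LWG
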