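import Pool.Agent.LWG.Sim

/-!
# Growth, the sum version of the count of lines

The number of lines is the sum over the columns of the range of the heights. The sum of the heights grows by the factor
`Q = ∑ |e|` per level (`Q` may be smaller than `b q`, `q` = the largest column sum of `|e|`), if `b < Q`.

* **`kseq_heights_sum`**, `SumOp` (`id`, `re`, `cv`), **`kseq_rec_sum`**, `rec_exact_sum`;
* `Tab.okSum S Q`: `∑ |e| ≤ Q`; `bas_sumC`: the sum of the heights of the iterates;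
* **`lines_rec_sum`**, **`lines_tab_sum`**, **`lines_tab_sum_rat`**.
-/

set_option autoImplicit false

open Finset LevelLower LevelPseudo LevelWords

namespace LWG

/-! ### heights -/

/-- **heights** with bounds `μ i` which depend on the column -/
theorem kseq_heights_sum {T R : ℕ} (F : ℕ → ℤ → ℤ) (μ : ℤ → ℕ)
    (hM : ∀ t ≤ T, ∀ i, -(μ i : ℤ) ≤ F t i ∧ F t i ≤ μ i)
    (hsum : ∀ t ≤ T, ∑ i ∈ Ico (-(R : ℤ)) R, F t i = ∑ i ∈ Ico (-(R : ℤ)) R, F 0 i)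
    (hne : ∀ t < T, ∃ i, -(R : ℤ) ≤ i ∧ i < R ∧ F t i ≠ F (t + 1) i)
    (hU : ∀ t' t, t' < t → t ≤ T → ∀ i i', i < i' → F t' i < F t i → F t i' < F t' i' → False) :
    KSeq 1 (2 * ∑ i ∈ Ico (-(R : ℤ)) R, μ i) T := by
  obtain ⟨G, hG⟩ : ∃ G : ℕ → ℤ → ℤ, G = fun t i => F (min t T) i := ⟨_, rfl⟩
  have g1 : ∀ t i, -(μ i : ℤ) ≤ G t i ∧ G t i ≤ μ i := fun t i => by
    subst hG
    exact hM _ (min_le_right _ _) i
  have gU : ∀ t' t, t' < t → ∀ i i', i < i' → G t' i < G t i → G t i' < G t' i' → False := by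
    intro t' t htt i i' hi h1 h2
    subst hG
    simp only at h1 h2
    rcases le_or_gt T t' with h | h
    · rw [min_eq_right h, min_eq_right (h.trans htt.le)] at h1
      exact lt_irrefl _ h1
    · exact hU (min t' T) (min t T) (by omega) (min_le_right _ _) i i' hi h1 h2
  have gF : ∀ t ≤ T, ∀ i, G t i = F t i := fun t ht i => by
    subst hG
    show F (min t T) i = F t i
    rw [min_eq_left ht]
  refine kseq_of_heights (n := 2 * R) (N := T) (s := 1) (M := 2 * ∑ i ∈ Ico (-(R : ℤ)) R, μ i)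
    (k := (∑ i ∈ Ico (-(R : ℤ)) R, F 0 i + ∑ i ∈ Ico (-(R : ℤ)) R, (μ i : ℤ)).toNat)
    (fun τ => 2 * μ ((τ : ℤ) - R))
    (fun τ t => (G t ((τ : ℤ) - R) + μ ((τ : ℤ) - R)).toNat) (fun τ t _ => ?_) (fun t ht => ?_)
    (fun t ht => ?_) (fun τ τ' hττ θ θ' => ?_) ?_
  · have := g1 t ((τ : ℤ) - R)
    omega
  · have e1 : ((∑ τ : Fin (2 * R), (G t ((τ : ℤ) - R) + μ ((τ : ℤ) - R)).toNat : ℕ) : ℤ) =
        ∑ i ∈ Ico (-(R : ℤ)) R, F 0 i + ∑ i ∈ Ico (-(R : ℤ)) R, (μ i : ℤ) := by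
      rw [Nat.cast_sum]
      have e2 : ∀ τ : Fin (2 * R), (((G t ((τ : ℤ) - R) + μ ((τ : ℤ) - R)).toNat : ℕ) : ℤ) =
          G t ((τ : ℤ) - R) + μ ((τ : ℤ) - R) := fun τ => by
        have := g1 t ((τ : ℤ) - R)
        omega
      rw [sum_congr rfl fun τ _ => e2 τ, sum_add_distrib, sum_fin_Ico R (G t),
        sum_fin_Ico R (fun i => (μ i : ℤ)), ← hsum t ht, sum_congr rfl fun i _ => gF t ht i]
    omega
  · obtain ⟨i, h1, h2, h3⟩ := hne t ht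
    refine ⟨⟨(i + R).toNat, by omega⟩, ?_⟩
    have e1 : (((⟨(i + R).toNat, by omega⟩ : Fin (2 * R)) : ℕ) : ℤ) - R = i := by
      show (((i + R).toNat : ℕ) : ℤ) - R = i
      omega
    rw [e1, gF t ht.le, gF (t + 1) ht]
    have a1 := hM t ht.le i
    have a2 := hM (t + 1) ht i
    omega
  · refine ⟨0, ph_of_no (fun t' t htt h1 h2 => ?_) _ _⟩
    have hi : ((τ : ℕ) : ℤ) - R < ((τ' : ℕ) : ℤ) - R := by
      have : (τ : ℕ) < τ' := hττ
      omega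
    have a1 := g1 t ((τ : ℤ) - R)
    have a2 := g1 t' ((τ : ℤ) - R)
    have a3 := g1 t ((τ' : ℤ) - R)
    have a4 := g1 t' ((τ' : ℤ) - R)
    refine gU t' t htt _ _ hi ?_ ?_
    · simp only [vl] at h1 h2
      split_ifs at h1 h2 <;> omega
    · simp only [vl] at h1 h2
      split_ifs at h1 h2 <;> omega
  · have e1 : ((∑ τ : Fin (2 * R), 2 * μ ((τ : ℤ) - R) : ℕ) : ℤ) =
        ((2 * ∑ i ∈ Ico (-(R : ℤ)) R, μ i : ℕ) : ℤ) := by
      rw [← mul_sum]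
      push_cast
      rw [sum_fin_Ico R (fun i => (μ i : ℤ))]
    exact le_of_eq (by exact_mod_cast e1)

/-! ### operators -/

/-- operators on difference vectors: the sum of the bounds grows by the factor `A` at most -/
def SumOp (Op : (ℤ → ℤ) → ℤ → ℤ) (A B w : ℕ) : Prop :=
  ∀ (μ : ℤ → ℕ) (R : ℕ), (∀ x, μ x ≠ 0 → -(R : ℤ) ≤ x ∧ x < R) → ∃ ν : ℤ → ℕ,
    (∀ f : ℤ → ℤ, (∀ x, |f x| ≤ μ x) → ∀ y, |Op f y| ≤ ν y) ∧
    (∀ y, ν y ≠ 0 → -((B * R + w : ℕ) : ℤ) ≤ y ∧ y < (B * R + w : ℕ)) ∧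
    ∑ y ∈ Ico (-((B * R + w : ℕ) : ℤ)) (B * R + w : ℕ), ν y ≤ A * ∑ x ∈ Ico (-(R : ℤ)) R, μ x

theorem SumOp.id : SumOp (fun f => f) 1 1 0 := fun μ R h =>
  ⟨μ, fun _ hf => hf, fun y hy => by rw [one_mul, add_zero]; exact h y hy, by
    rw [one_mul, one_mul, add_zero]⟩

/-- a sum over the points `x` of a residue class -/
theorem sum_inj_le {R : ℕ} {μ : ℤ → ℕ} (h : ∀ x, μ x ≠ 0 → -(R : ℤ) ≤ x ∧ x < R) {b : ℕ} (hb : 0 < b)
    (a : ℤ) (s : Finset ℤ) : ∑ y ∈ s, (if (b : ℤ) ∣ y - a then μ ((y - a) / b) else 0) ≤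
      ∑ x ∈ Ico (-(R : ℤ)) R, μ x := by
  have hb' : (b : ℤ) ≠ 0 := by omega
  rw [← sum_filter]
  have h1 : ∑ y ∈ s.filter (fun y => (b : ℤ) ∣ y - a), μ ((y - a) / b) =
      ∑ x ∈ (s.filter (fun y => (b : ℤ) ∣ y - a)).image (fun y => (y - a) / b), μ x := by
    rw [sum_image]
    intro y hy y' hy' hyy
    rw [mem_coe, mem_filter] at hy hy'
    obtain ⟨x, hx⟩ := hy.2
    obtain ⟨x', hx'⟩ := hy'.2
    have h2 : (y - a) / b = (y' - a) / b := hyy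
    rw [hx, hx', Int.mul_ediv_cancel_left _ hb', Int.mul_ediv_cancel_left _ hb'] at h2
    subst h2
    linarith
  rw [h1]
  exact sum_le_sum_of_ne_zero fun x _ hx => mem_Ico.2 (h x hx)

theorem SumOp.re {B : ℕ} (hB : 0 < B) (lo hi : ℤ) (e : ℤ → ℤ) :
    SumOp (Re B lo hi e) (∑ z ∈ Icc lo hi, |e z|).toNat B (lo.natAbs + hi.natAbs + B) := by
  intro μ R h
  have hB' : (B : ℤ) ≠ 0 := by omega
  obtain ⟨ν, hν⟩ : ∃ ν : ℤ → ℕ, ν = fun y => ∑ z ∈ Icc lo hi, (e z).natAbs *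
    (if (B : ℤ) ∣ y - (B - 1 + z) then μ ((y - (B - 1 + z)) / B) else 0) := ⟨_, rfl⟩
  refine ⟨ν, fun f hf y => ?_, fun y hy => ?_, ?_⟩
  · rw [hν]
    unfold Re
    refine (abs_sum_le_sum_abs _ _).trans ?_
    push_cast
    refine sum_le_sum fun z _ => ?_
    rw [show y + 1 - B - z = y - (B - 1 + z) by ring]
    split_ifs
    · rw [abs_mul]
      exact mul_le_mul_of_nonneg_left (hf _) (abs_nonneg _)
    · rw [abs_zero]
      positivity
  · rw [hν] at hy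
    obtain ⟨z, hz, h1⟩ := exists_ne_zero_of_sum_ne_zero hy
    rw [mem_Icc] at hz
    have h2 := right_ne_zero_of_mul h1
    rw [ne_eq, ite_eq_right_iff, not_forall] at h2
    obtain ⟨⟨x, hx⟩, h3⟩ := h2
    rw [hx, Int.mul_ediv_cancel_left _ hB'] at h3
    obtain ⟨h4, h5⟩ := h x h3
    have e1 : (B : ℤ) * x ≤ B * (R - 1) := mul_le_mul_of_nonneg_left (by omega) (by omega)
    have e2 : (B : ℤ) * (-R) ≤ B * x := mul_le_mul_of_nonneg_left h4 (by omega)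
    push_cast
    have e3 : (B : ℤ) * (R - 1) = B * R - B := by ring
    have e4 : (B : ℤ) * (-R) = -(B * R) := by ring
    rw [e3] at e1
    rw [e4] at e2
    have q1 := neg_abs_le lo
    have q2 := le_abs_self hi
    have q3 := abs_nonneg lo
    have q4 := abs_nonneg hi
    omega
  · rw [hν, sum_comm]
    have e1 : (∑ z ∈ Icc lo hi, |e z|).toNat = ∑ z ∈ Icc lo hi, (e z).natAbs := by
      have h2 : (∑ z ∈ Icc lo hi, |e z|) = ((∑ z ∈ Icc lo hi, (e z).natAbs : ℕ) : ℤ) := by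
        push_cast
        rfl
      rw [h2, Int.toNat_natCast]
    rw [e1, sum_mul]
    refine sum_le_sum fun z _ => ?_
    rw [← mul_sum]
    exact Nat.mul_le_mul_left _ (sum_inj_le h hB _ _)

/-- **convolution** -/
theorem sumOp_cv {g : List ℤ} (h0 : g.getD 0 0 ≠ 0) :
    ∃ A B w, RefOp (cv g) A B w ∧ SumOp (cv g) A B w := by
  have hl : 0 < g.length := by
    rcases Nat.eq_zero_or_pos g.length with h | h
    · rw [List.length_eq_zero_iff.1 h] at h0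
      exact absurd rfl h0
    · exact h
  have h1 := RefOp.re (B := 1) Nat.one_pos (lo := 0) (hi := (g.length : ℤ) - 1) (by omega)
    (e := fun z => g.getD z.toNat 0) h0
  have h2 := SumOp.re (B := 1) Nat.one_pos 0 ((g.length : ℤ) - 1) (fun z => g.getD z.toNat 0)
  have e1 : Re 1 0 ((g.length : ℤ) - 1) (fun z => g.getD z.toNat 0) = cv g :=
    funext fun f => funext fun y => (cv_re g f y).symm
  rw [e1] at h1 h2
  exact ⟨_, _, _, h1, h2⟩

/-! ### one word -/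

/-- the counts vanish outside of the range of the letters -/
theorem C_supp {W : ℤ → ℤ} {T R : ℕ} (hR : ∀ t : ℕ, t < T → -(R : ℤ) ≤ W t - 1 ∧ W t < R) :
    ∀ t : ℕ, t ≤ T → ∀ x, C W x t ≠ 0 → -(R : ℤ) ≤ x ∧ x < R := by
  intro t
  induction t with
  | zero =>
    intro _ x hx
    exact absurd (C_zero W x) hx
  | succ t ih =>
    intro ht x hx
    have hr := hR t (by omega)
    have e1 : C W x (t + 1 : ℕ) = C W x t + dl (W t) x := by
      rw [show ((t + 1 : ℕ) : ℤ) = (t : ℤ) + 1 by push_cast; ring, C_succ]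
    rw [e1] at hx
    by_cases h2 : C W x t = 0
    · rw [h2, zero_add] at hx
      rcases dl_supp hx with h3 | h3 <;> omega
    · exact ih (by omega) x h2

theorem C_sum0 {W : ℤ → ℤ} {T R : ℕ} (hR : ∀ t : ℕ, t < T → -(R : ℤ) ≤ W t - 1 ∧ W t < R) :
    ∀ t : ℕ, t ≤ T → ∑ x ∈ Ico (-(R : ℤ)) R, C W x t = 0 := by
  intro t
  induction t with
  | zero =>
    intro _
    exact sum_eq_zero fun x _ => C_zero W x
  | succ t ih =>
    intro ht
    have hr := hR t (by omega)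
    have e1 : ∀ x, C W x (t + 1 : ℕ) = C W x t + dl (W t) x := fun x => by
      rw [show ((t + 1 : ℕ) : ℤ) = (t : ℤ) + 1 by push_cast; ring, C_succ]
    rw [sum_congr rfl fun x _ => e1 x, sum_add_distrib, ih (by omega), sum_dl_Ico hr.1 hr.2, add_zero]

theorem sum_lrS {f : ℕ → ℤ} (n : ℕ) : ((List.range n).map f).sum = ∑ k ∈ range n, f k := by
  induction n with
  | zero => simp
  | succ n ih =>
    rw [List.range_succ, List.map_append, List.sum_append, ih, sum_range_succ]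
    simp

/-- a sum over a shifted range -/
theorem sum_shift {N : ℕ} {β : Type} [AddCommMonoid β] (f : ℤ → β)
    (h : ∀ y, f y ≠ 0 → -(N : ℤ) ≤ y ∧ y < N) :
    ∑ i ∈ Ico (-((N + 1 : ℕ) : ℤ)) (N + 1 : ℕ), f (i - 1) = ∑ y ∈ Ico (-(N : ℤ)) N, f y := by
  symm
  refine sum_of_injOn (fun y => y + 1) (fun x _ x' _ hxx => ?_) (fun y hy => ?_)
    (fun i hi hi' => ?_) fun y _ => ?_
  · have : x + 1 = x' + 1 := hxx
    omega
  · rw [mem_coe, mem_Ico] at hy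
    rw [mem_coe, mem_Ico]
    show -((N + 1 : ℕ) : ℤ) ≤ y + 1 ∧ y + 1 < (N + 1 : ℕ)
    omega
  · by_contra h4
    obtain ⟨h5, h6⟩ := h _ h4
    refine hi' ⟨i - 1, ?_, ?_⟩
    · rw [mem_coe, mem_Ico]
      exact ⟨h5, h6⟩
    · show i - 1 + 1 = i
      ring
  · show f y = f (y + 1 - 1)
    rw [add_sub_cancel_right]

/-- **one word, recorded times `S`, the sum of the heights** -/
theorem kseq_rec_sum {Op : (ℤ → ℤ) → ℤ → ℤ} {A A' B w : ℕ} (h : RefOp Op A' B w)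
    (h' : SumOp Op A B w) {W : ℤ → ℤ} {T R : ℕ} {μ : ℤ → ℕ}
    (hR : ∀ t : ℕ, t < T → -(R : ℤ) ≤ W t - 1 ∧ W t < R)
    (hM : ∀ t : ℕ, t ≤ T → ∀ x, |C W x t| ≤ μ x) (hμ : ∀ x, μ x ≠ 0 → -(R : ℤ) ≤ x ∧ x < R)
    (S : Finset ℕ) (hS : ∀ t ∈ S, t ≤ T)
    (hU : ∀ a ∈ S, ∀ b ∈ S, a < b → Uni (Op (E W a b))) :
    KSeq 1 (2 * (A * ∑ x ∈ Ico (-(R : ℤ)) R, μ x)) (S.card - 1) := by
  rcases Nat.eq_zero_or_pos S.card with h0 | h0
  · rw [h0]
    exact ⟨0, fun _ => ∅, fun _ _ => card_empty, fun t ht => absurd ht (Nat.not_lt_zero t),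
      fun a b _ => ⟨0, fun _ => 0, monotone_const, fun t => ⟨le_rfl, Nat.zero_le _⟩,
        fun t _ _ => by simp⟩⟩
  obtain ⟨m, hm⟩ : ∃ m, S.card = m + 1 := ⟨S.card - 1, by omega⟩
  obtain ⟨a, ha⟩ : ∃ a : ℕ → ℕ, a = fun j => if hj : j < m + 1 then
    S.orderEmbOfFin hm ⟨j, hj⟩ else 0 := ⟨_, rfl⟩
  have haS : ∀ j ≤ m, a j ∈ S := fun j hj => by
    rw [ha]
    simp only
    rw [dif_pos (by omega)]
    exact orderEmbOfFin_mem S hm _
  have hlt : ∀ i j, i < j → j ≤ m → a i < a j := fun i j hij hj => by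
    rw [ha]
    simp only
    rw [dif_pos (by omega), dif_pos (by omega)]
    exact (S.orderEmbOfFin hm).strictMono hij
  obtain ⟨G, hG⟩ : ∃ G : ℕ → ℤ → ℤ, G = fun t : ℕ => Op fun x => C W x (t : ℤ) := ⟨_, rfl⟩
  have hd : ∀ (t' t : ℕ) y, G t y - G t' y = Op (E W t' t) y := fun t' t y => by
    have h1 := congrFun (h.sub (fun x => C W x t) fun x => C W x t') y
    rw [hG]
    exact h1.symm
  have c1 := C_supp hR
  have c2 := C_sum0 hR
  have hSum : ∀ t : ℕ, t ≤ T → ∑ i ∈ Ico (-((B * R + w + 1 : ℕ) : ℤ)) (B * R + w + 1 : ℕ),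
      -G t (i - 1) = 0 := by
    intro t ht
    have h2 := h.sum _ R (c1 t ht) (c2 t ht)
    have h3 := h.supp _ R (c1 t ht)
    have e1 := sum_shift (N := B * R + w) (fun y => -G t y) fun y hy => by
      refine h3 y ?_
      rw [hG] at hy
      simpa using hy
    rw [e1, sum_neg_distrib, neg_eq_zero, hG]
    exact h2
  have haT : ∀ j ≤ m, a j ≤ T := fun j hj => hS _ (haS j hj)
  obtain ⟨ν, n1, n2, n3⟩ := h' μ R hμ
  rw [hm, Nat.add_sub_cancel]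
  have key : KSeq 1 (2 * ∑ i ∈ Ico (-((B * R + w + 1 : ℕ) : ℤ)) (B * R + w + 1 : ℕ), ν (i - 1)) m := by
    refine kseq_heights_sum (T := m) (R := B * R + w + 1) (fun t i => -G (a t) (i - 1))
      (fun i => ν (i - 1)) (fun t ht i => ?_) (fun t ht => ?_) (fun t ht => ?_)
      (fun t' t htt ht i i' hi h1 h2 => ?_)
    · have h3 : |G (a t) (i - 1)| ≤ ν (i - 1) := by
        rw [hG]
        exact n1 _ (hM (a t) (haT t ht)) (i - 1)
      rw [abs_le] at h3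
      constructor <;> omega
    · show ∑ i ∈ _, -G (a t) (i - 1) = ∑ i ∈ _, -G (a 0) (i - 1)
      rw [hSum (a t) (haT t ht), hSum (a 0) (haT 0 (Nat.zero_le _))]
    · have hab := hlt t (t + 1) (Nat.lt_succ_self t) ht
      obtain ⟨n, hn⟩ : ∃ n, a (t + 1) = a t + n + 1 := ⟨a (t + 1) - a t - 1, by omega⟩
      have hs : ∀ x, E W (a t) (a (t + 1)) x ≠ 0 → -(R : ℤ) ≤ x ∧ x < R := fun x hx => by
        by_cases h5 : C W x (a (t + 1)) = 0
        · refine c1 (a t) (haT t (by omega)) x fun h6 => hx ?_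
          unfold E
          rw [h5, h6, sub_zero]
        · exact c1 (a (t + 1)) (haT (t + 1) (by omega)) x h5
      obtain ⟨x, hx, -⟩ := E_lead W (a t) n
      rw [← hn] at hx
      obtain ⟨y, hy⟩ := h.ne _ R hs ⟨x, hx.ne'⟩
      obtain ⟨h4, h5⟩ := h.supp _ R hs y hy
      have h6 := hd (a t) (a (t + 1)) y
      refine ⟨y + 1, by omega, by omega, ?_⟩
      show -G (a t) (y + 1 - 1) ≠ -G (a (t + 1)) (y + 1 - 1)
      rw [add_sub_cancel_right]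
      intro h7
      apply hy
      omega
    · have h3 := hd (a t') (a t) (i - 1)
      have h4 := hd (a t') (a t) (i' - 1)
      refine hU (a t') (haS t' (by omega)) (a t) (haS t ht) (hlt t' t htt ht) (i - 1) (i' - 1)
        (by omega) ?_ ?_
      · have h1' : -G (a t') (i - 1) < -G (a t) (i - 1) := h1
        omega
      · have h2' : -G (a t) (i' - 1) < -G (a t') (i' - 1) := h2
        omega
  rw [sum_shift (N := B * R + w) ν n2] at key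
  exact key.mono le_rfl (Nat.mul_le_mul_left 2 n3) le_rfl

/-- **a family of words with recorded times, the sum of the heights**: `W k`, times `≤ T k`, heights with the sum
`m Q ^ k`, recorded times `S k` with `D ρ ^ k + 1 ≤ #(S k)` -/
theorem rec_exact_sum {Op : (ℤ → ℤ) → ℤ → ℤ} {A A' B w : ℕ} (h : RefOp Op A' B w)
    (h' : SumOp Op A B w) (W : ℕ → ℤ → ℤ) (T : ℕ → ℕ) {Q m : ℕ} {e ρ D : ℝ} (hQ : 2 ≤ Q)
    (hD : 0 < D) (hρ : 0 < ρ) (he : (Q : ℝ) ^ e = ρ) (he0 : 0 ≤ e) (R : ℕ → ℕ)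
    (hR : ∀ k (t : ℕ), t < T k → -(R k : ℤ) ≤ W k t - 1 ∧ W k t < R k) (μ : ℕ → ℤ → ℕ)
    (hM : ∀ k (t : ℕ), t ≤ T k → ∀ x, |C (W k) x t| ≤ μ k x)
    (hμ : ∀ k x, μ k x ≠ 0 → -(R k : ℤ) ≤ x ∧ x < R k)
    (hμs : ∀ k, ∑ x ∈ Ico (-(R k : ℤ)) (R k), μ k x ≤ m * Q ^ k) (S : ℕ → Finset ℕ)
    (hS : ∀ k, ∀ t ∈ S k, t ≤ T k) (hc : ∀ k, 2 ≤ (S k).card ∧ D * ρ ^ k + 1 ≤ (S k).card)
    (hU : ∀ k, ∀ i ∈ S k, ∀ j ∈ S k, i < j → Uni (Op (E (W k) i j))) :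
    ∃ c : ℝ, 0 < c ∧ ∃ n₀ : ℕ, ∀ n ≥ n₀,
    (∃ f : Fin n → ℝ → ℝ, (∀ i, Continuous (f i)) ∧
      (∀ i j, i ≠ j → ∃ x, Crosses (f i) (f j) x) ∧
      ∃ k < n, c * (n : ℝ) ^ e ≤ psiT f k) ∧
    ∀ s ≥ 1, c * (n : ℝ) ^ e ≤ Psi s n := by
  have size : ∀ K, 2 * (A * ∑ x ∈ Ico (-(R K : ℤ)) (R K), μ K x) ≤ (2 * (A * m) + 1) * Q ^ K := by
    intro K
    have h1 := Nat.mul_le_mul_left 2 (Nat.mul_le_mul_left A (hμs K))
    calc 2 * (A * ∑ x ∈ Ico (-(R K : ℤ)) (R K), μ K x) ≤ 2 * (A * (m * Q ^ K)) := h1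
      _ ≤ (2 * (A * m) + 1) * Q ^ K := by nlinarith [Nat.zero_le (Q ^ K)]
  obtain ⟨c, hc', h1⟩ := growth_real (s := 1) (h := 2 * (A * m) + 1) (H := Q)
    hD hρ hQ (by positivity) he he0 (fun K => ⟨(S K).card - 1, by have := (hc K).1; omega, by
      have h2 := (hc K).2
      have h3 : (((S K).card - 1 : ℕ) : ℝ) = (S K).card - 1 := by
        rw [Nat.cast_sub (by have := (hc K).1; omega), Nat.cast_one]
      rw [h3]
      linarith, (kseq_rec_sum h h' (hR K) (hM K) (hμ K) (S K) (hS K) (hU K)).mono le_rfl (size K)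
        le_rfl⟩)
  exact ⟨c, hc', _, lines_exact h1⟩

/-! ### tables -/

namespace Tab

variable (S : Tab)

/-- the sum of the absolute values of the coefficients is at most `Q` -/
def okSum (Q : ℕ) : Bool := decide (((List.range S.e.length).map fun (k : ℕ) => |S.e.getD k 0|).sum ≤ Q)

variable {S}

/-- the bound of the refined heights -/
def cmu (S : Tab) (μ : ℤ → ℕ) (x : ℤ) : ℕ := ∑ k ∈ range S.e.length,
  (S.e.getD k 0).natAbs * (if (S.b : ℤ) ∣ x - (S.e0 + k) then μ ((x - (S.e0 + k)) / S.b) else 0)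

theorem comb_mu {D : ℤ → ℤ} {μ : ℤ → ℕ} (hD : ∀ x, |D x| ≤ μ x) (x : ℤ) :
    |S.comb D x| ≤ S.cmu μ x := by
  unfold comb cmu
  rw [sum_lrS]
  refine (abs_sum_le_sum_abs _ _).trans ?_
  push_cast
  refine sum_le_sum fun k _ => ?_
  rw [show x - S.e0 - (k : ℤ) = x - (S.e0 + k) by ring]
  by_cases h : (S.b : ℤ) ∣ x - (S.e0 + k)
  · rw [if_pos (Int.emod_eq_zero_of_dvd h), if_pos h, abs_mul]
    exact mul_le_mul_of_nonneg_left (hD _) (abs_nonneg _)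
  · rw [if_neg (fun h' => h (Int.dvd_of_emod_eq_zero h')), abs_zero]
    positivity

theorem sum_cmu {Q : ℕ} (hb : 0 < S.b) (hc : S.okSum Q = true) {R : ℕ} {μ : ℤ → ℕ}
    (h : ∀ x, μ x ≠ 0 → -(R : ℤ) ≤ x ∧ x < R) (s : Finset ℤ) :
    ∑ x ∈ s, S.cmu μ x ≤ Q * ∑ x ∈ Ico (-(R : ℤ)) R, μ x := by
  have h1 : ∑ k ∈ range S.e.length, (S.e.getD k 0).natAbs ≤ Q := by
    unfold okSum at hc
    rw [decide_eq_true_eq, sum_lrS] at hc
    have h2 : (∑ k ∈ range S.e.length, |S.e.getD k 0|) =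
        ((∑ k ∈ range S.e.length, (S.e.getD k 0).natAbs : ℕ) : ℤ) := by
      push_cast
      rfl
    rw [h2] at hc
    exact_mod_cast hc
  unfold cmu
  rw [sum_comm]
  refine le_trans ?_ (Nat.mul_le_mul_right _ h1)
  rw [sum_mul]
  refine sum_le_sum fun k _ => ?_
  rw [← mul_sum]
  exact Nat.mul_le_mul_left _ (sum_inj_le h hb _ _)

end Tab

open Tab

section iter

variable {S : Tab} {W0 : ℤ → ℤ} {ty0 : ℤ → ℕ}

/-- **the sum of the heights of the iterates** -/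
theorem bas_sumC (K : S.Bas) (h : ∀ t, ty0 t < S.T) {Q w A0 : ℕ} (hQ : S.b < Q)
    (hc : S.okSum Q = true) (hw : S.okOff w = true) (h0 : ∀ t, |W0 t| ≤ A0) (k : ℕ) :
    ∃ μ : ℤ → ℕ, (∀ t : ℕ, t ≤ S.L ^ k → ∀ x, |C (iterW S W0 ty0 k).1 x t| ≤ μ x) ∧
      (∀ x, μ x ≠ 0 → -(((A0 + w + 1) * S.b ^ k : ℕ) : ℤ) ≤ x ∧ x < ((A0 + w + 1) * S.b ^ k : ℕ)) ∧
      ∑ x ∈ Ico (-(((A0 + w + 1) * S.b ^ k : ℕ) : ℤ)) ((A0 + w + 1) * S.b ^ k : ℕ), μ x +
        2 * (A0 + w + 1) * S.L * S.b * S.b ^ k ≤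
        (2 * (A0 + w + 1) + 2 * (A0 + w + 1) * S.L * S.b) * Q ^ k := by
  have hb := K.b2
  -- the range of the letters
  have hR : ∀ k (t : ℕ), -(((A0 + w + 1) * S.b ^ k : ℕ) : ℤ) ≤ (iterW S W0 ty0 k).1 t - 1 ∧
      (iterW S W0 ty0 k).1 t < ((A0 + w + 1) * S.b ^ k : ℕ) := by
    intro k t
    have h3 := bas_bdW K h hw h0 k (t : ℤ)
    have h4 := neg_abs_le ((iterW S W0 ty0 k).1 (t : ℤ))
    have h5 := le_abs_self ((iterW S W0 ty0 k).1 (t : ℤ))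
    have hb1 : 1 ≤ S.b ^ k := Nat.one_le_pow _ _ (by omega)
    have h6 : (A0 + w) * S.b ^ k + 1 ≤ (A0 + w + 1) * S.b ^ k := by nlinarith
    constructor <;> omega
  induction k with
  | zero =>
    refine ⟨fun x => if -(((A0 + w + 1) * S.b ^ 0 : ℕ) : ℤ) ≤ x ∧ x < ((A0 + w + 1) * S.b ^ 0 : ℕ)
      then 1 else 0, fun t ht x => ?_, fun x hx => ?_, ?_⟩
    · have h2 : |C (iterW S W0 ty0 0).1 x t| ≤ 1 := by
        rw [pow_zero] at ht
        have : t = 0 ∨ t = 1 := by omega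
        rcases this with rfl | rfl
        · rw [show C (iterW S W0 ty0 0).1 x ((0 : ℕ) : ℤ) = 0 from rfl, abs_zero]
          norm_num
        · have h2 := C_succ (iterW S W0 ty0 0).1 x 0
          rw [show (0 : ℤ) + 1 = ((1 : ℕ) : ℤ) by norm_num,
            show C (iterW S W0 ty0 0).1 x 0 = 0 from rfl, zero_add] at h2
          rw [h2]
          exact abs_dl_le _ x
      show _ ≤ ((if _ then _ else _ : ℕ) : ℤ)
      split_ifs with h3
      · exact_mod_cast h2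
      · by_contra h4
        refine h3 (C_supp (T := S.L ^ 0) (fun t _ => hR 0 t) t ht x fun h5 => h4 ?_)
        rw [h5, abs_zero]
        norm_num
    · by_contra h3
      exact hx (if_neg h3)
    · have h2 : ∑ x ∈ Ico (-(((A0 + w + 1) * S.b ^ 0 : ℕ) : ℤ)) ((A0 + w + 1) * S.b ^ 0 : ℕ),
          (if -(((A0 + w + 1) * S.b ^ 0 : ℕ) : ℤ) ≤ x ∧ x < ((A0 + w + 1) * S.b ^ 0 : ℕ) then 1 else 0) =
          2 * (A0 + w + 1) := by
        rw [sum_congr rfl fun x hx => if_pos (mem_Ico.1 hx), sum_const, smul_eq_mul, mul_one,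
          Int.card_Ico, pow_zero, mul_one]
        omega
      rw [h2, pow_zero, mul_one, pow_zero, mul_one]
  | succ k ih =>
    obtain ⟨μ, m1, m2, m3⟩ := ih
    obtain ⟨R, hRR⟩ : ∃ R : ℕ, R = (A0 + w + 1) * S.b ^ (k + 1) := ⟨_, rfl⟩
    rw [← hRR]
    refine ⟨fun x => if -(R : ℤ) ≤ x ∧ x < R then S.cmu μ x + S.L else 0, fun t ht x => ?_,
      fun x hx => ?_, ?_⟩
    · have h2 : |C (iterW S W0 ty0 (k + 1)).1 x t| ≤ S.cmu μ x + S.L := by
        have hL := K.L0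
        obtain ⟨p, r, hr, e⟩ : ∃ p r : ℕ, r < S.L ∧ t = S.L * p + r :=
          ⟨t / S.L, t % S.L, Nat.mod_lt _ hL, (Nat.div_add_mod t S.L).symm⟩
        have hp : p ≤ S.L ^ k := by
          rw [pow_succ', e] at ht
          have : S.L * p ≤ S.L * S.L ^ k := by omega
          exact Nat.le_of_mul_le_mul_left this hL
        show |C (S.subW (iterW S W0 ty0 k).1 (iterW S W0 ty0 k).2) x t| ≤ _
        rw [e, show ((S.L * p + r : ℕ) : ℤ) = S.L * (p : ℤ) + r by push_cast; ring,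
          C_block _ _ (p : ℤ) x r hr.le, K.C_mul (bas_ty K h k)]
        have h3 := comb_mu (S := S) (m1 p hp) x
        have h4 := part_bd (S := S) ((iterW S W0 ty0 k).2 (p : ℤ)) r
          (x - S.b * (iterW S W0 ty0 k).1 (p : ℤ))
        have h5 := abs_add_le (S.comb (fun y => C (iterW S W0 ty0 k).1 y p) x)
          (S.part ((iterW S W0 ty0 k).2 (p : ℤ)) 0 r (x - S.b * (iterW S W0 ty0 k).1 (p : ℤ)))
        omega
      show _ ≤ ((if _ then _ else _ : ℕ) : ℤ)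
      split_ifs with h3
      · exact_mod_cast h2
      · by_contra h4
        rw [hRR] at h3
        refine h3 (C_supp (T := S.L ^ (k + 1)) (fun t _ => hR (k + 1) t) t ht x fun h5 => h4 ?_)
        rw [h5, abs_zero]
        norm_num
    · by_contra h3
      exact hx (if_neg h3)
    · rw [sum_congr rfl fun x hx => if_pos (mem_Ico.1 hx), sum_add_distrib, sum_const, smul_eq_mul,
        Int.card_Ico, show ((R : ℤ) - -(R : ℤ)).toNat = 2 * R by omega]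
      have h2 := sum_cmu K.b0 hc m2 (Ico (-(R : ℤ)) R)
      have h3 := Nat.mul_le_mul_left Q m3
      obtain ⟨s, hs⟩ : ∃ s, s = ∑ x ∈ Ico (-(((A0 + w + 1) * S.b ^ k : ℕ) : ℤ))
        ((A0 + w + 1) * S.b ^ k : ℕ), μ x := ⟨_, rfl⟩
      rw [← hs] at h2 h3
      obtain ⟨c, hc'⟩ : ∃ c, c = 2 * (A0 + w + 1) * S.L := ⟨_, rfl⟩
      have e1 : 2 * R * S.L = c * S.b * S.b ^ k := by
        rw [hRR, hc', pow_succ]
        ring
      have e2 : 2 * (A0 + w + 1) * S.L * S.b * S.b ^ (k + 1) = c * S.b * S.b ^ k * S.b := by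
        rw [hc', pow_succ]
        ring
      have e3 : (2 * (A0 + w + 1) + 2 * (A0 + w + 1) * S.L * S.b) * Q ^ (k + 1) =
          Q * ((2 * (A0 + w + 1) + 2 * (A0 + w + 1) * S.L * S.b) * Q ^ k) := by
        rw [pow_succ]
        ring
      rw [e1, e2, e3]
      refine le_trans ?_ h3
      rw [← hc']
      have h4 : c * S.b * S.b ^ k * (S.b + 1) ≤ c * S.b * S.b ^ k * Q := Nat.mul_le_mul_left _ hQ
      nlinarith

variable {rc : ℕ → ℕ → Bool}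

/-- **pseudolines from a table with recorded letters, sum version**: weights `1 ≤ v ≤ V`, factor `ρ₁ / ρ₂`, exponent
`Q ^ e = ρ₁ / ρ₂`, `Q` = sum of the coefficients -/
theorem lines_rec_sum (K : S.Bas) (h : ∀ t, ty0 t < S.T) {Q w A0 : ℕ} (hQ : S.b < Q)
    (hc : S.okSum Q = true) (hw : S.okOff w = true) (h0 : ∀ t, |W0 t| ≤ A0)
    {v : ℕ → ℕ} {V ρ₁ ρ₂ : ℕ} (hρ₂ : 0 < ρ₂) (hρ : ρ₂ < ρ₁) (hv1 : ∀ c < S.T, 1 ≤ v c ∧ v c ≤ V)
    (hv : ∀ c < S.T, ρ₁ * v c ≤ ρ₂ * ∑ r ∈ rcs S rc c, v (S.chd c r))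
    (h2 : ∀ c < S.T, 2 ≤ (rcs S rc c).card)
    {Op : (ℤ → ℤ) → ℤ → ℤ} {A A' B u : ℕ} (hOp : RefOp Op A' B u) (hOs : SumOp Op A B u)
    (hU : ∀ k, ∀ i ∈ recd S rc W0 ty0 k, ∀ j ∈ recd S rc W0 ty0 k, i < j →
      Uni (Op (E (iterW S W0 ty0 k).1 i j))) {e : ℝ}
    (he : (Q : ℝ) ^ e = (ρ₁ : ℝ) / ρ₂) (he0 : 0 ≤ e) :
    ∃ c : ℝ, 0 < c ∧ ∃ n₀ : ℕ, ∀ n ≥ n₀,
    (∃ f : Fin n → ℝ → ℝ, (∀ i, Continuous (f i)) ∧
      (∀ i j, i ≠ j → ∃ x, Crosses (f i) (f j) x) ∧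
      ∃ k < n, c * (n : ℝ) ^ e ≤ psiT f k) ∧
    ∀ s ≥ 1, c * (n : ℝ) ^ e ≤ Psi s n := by
  have hb := K.b2
  have hρ₂' : (0 : ℝ) < ρ₂ := by exact_mod_cast hρ₂
  have hρ' : (ρ₂ : ℝ) < ρ₁ := by exact_mod_cast hρ
  have hρ0 : (0 : ℝ) < (ρ₁ : ℝ) / ρ₂ := div_pos (by linarith) hρ₂'
  have hV : 1 ≤ V := by
    have := hv1 _ (h 0)
    omega
  have hV' : (1 : ℝ) ≤ V := by exact_mod_cast hV
  -- cardinalities
  have card2 : ∀ k, 2 ^ k ≤ (recd S rc W0 ty0 k).card := by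
    intro k
    induction k with
    | zero => exact le_of_eq (by rw [recd, card_singleton, pow_zero])
    | succ k ih =>
      rw [card_eq_sum_ones, sum_recd K k fun _ => 1, pow_succ]
      calc 2 ^ k * 2 ≤ (recd S rc W0 ty0 k).card * 2 := Nat.mul_le_mul_right 2 ih
        _ = ∑ t ∈ recd S rc W0 ty0 k, 2 := by rw [sum_const, smul_eq_mul]
        _ ≤ _ := sum_le_sum fun t _ => by
          rw [← card_eq_sum_ones]
          exact h2 _ (bas_ty K h k t)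
  have cardW : ∀ k, ((ρ₁ : ℝ) / ρ₂) ^ k ≤ V * (recd S rc W0 ty0 k).card := by
    intro k
    have h3 := recd_weight (W0 := W0) K h hv k
    have h4 : ∑ t ∈ recd S rc W0 ty0 k, v ((iterW S W0 ty0 k).2 t) ≤
        (recd S rc W0 ty0 k).card * V := by
      rw [← smul_eq_mul, ← sum_const]
      exact sum_le_sum fun t _ => (hv1 _ (bas_ty K h k t)).2
    have h5 : ρ₁ ^ k ≤ ρ₂ ^ k * ((recd S rc W0 ty0 k).card * V) := by
      calc ρ₁ ^ k ≤ ρ₁ ^ k * v (ty0 0) := Nat.le_mul_of_pos_right _ (hv1 _ (h 0)).1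
        _ ≤ _ := h3.trans (Nat.mul_le_mul_left _ h4)
    have h6 : (ρ₁ : ℝ) ^ k ≤ (ρ₂ : ℝ) ^ k * ((recd S rc W0 ty0 k).card * V) := by
      exact_mod_cast h5
    rw [div_pow, div_le_iff₀ (by positivity)]
    linarith
  choose μ m1 m2 m3 using fun k => bas_sumC K h hQ hc hw h0 k
  refine rec_exact_sum hOp hOs (fun k => (iterW S W0 ty0 (k + 1)).1) (fun k => S.L ^ (k + 1))
    (Q := Q) (m := (2 * (A0 + w + 1) + 2 * (A0 + w + 1) * S.L * S.b) * Q) (ρ := (ρ₁ : ℝ) / ρ₂)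
    (D := ((ρ₁ : ℝ) / ρ₂) / (2 * V)) (by omega)
    (div_pos hρ0 (by linarith)) hρ0 he he0 (fun k => (A0 + w + 1) * S.b ^ (k + 1))
    (fun k t _ => ?_) (fun k => μ (k + 1)) (fun k => m1 (k + 1)) (fun k => m2 (k + 1)) (fun k => ?_)
    (fun k => recd S rc W0 ty0 (k + 1)) (fun k t ht => (recd_lt K _ t ht).le) (fun k => ?_)
    (fun k => hU (k + 1))
  · have h3 := bas_bdW K h hw h0 (k + 1) (t : ℤ)
    have h4 := neg_abs_le ((iterW S W0 ty0 (k + 1)).1 (t : ℤ))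
    have h5 := le_abs_self ((iterW S W0 ty0 (k + 1)).1 (t : ℤ))
    have hb1 : 1 ≤ S.b ^ (k + 1) := Nat.one_le_pow _ _ (by omega)
    have h6 : (A0 + w) * S.b ^ (k + 1) + 1 ≤ (A0 + w + 1) * S.b ^ (k + 1) := by nlinarith
    constructor <;> omega
  · have h3 := m3 (k + 1)
    have h4 : (2 * (A0 + w + 1) + 2 * (A0 + w + 1) * S.L * S.b) * Q ^ (k + 1) =
        (2 * (A0 + w + 1) + 2 * (A0 + w + 1) * S.L * S.b) * Q * Q ^ k := by
      rw [pow_succ]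
      ring
    rw [← h4]
    exact le_trans (Nat.le_add_right _ _) h3
  · have h3 := card2 (k + 1)
    have h4 := cardW (k + 1)
    have h5 : 1 ≤ 2 ^ k := Nat.one_le_two_pow
    have h6 : 2 ≤ (recd S rc W0 ty0 (k + 1)).card := by
      rw [pow_succ] at h3
      omega
    have h7 : (2 : ℝ) ≤ (recd S rc W0 ty0 (k + 1)).card := by exact_mod_cast h6
    refine ⟨h6, ?_⟩
    have h8 : (ρ₁ : ℝ) / ρ₂ / (2 * V) * (ρ₁ / ρ₂) ^ k = ((ρ₁ : ℝ) / ρ₂) ^ (k + 1) / (2 * V) := by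
      rw [pow_succ]
      ring
    rw [h8]
    have h9 : ((ρ₁ : ℝ) / ρ₂) ^ (k + 1) / (2 * V) ≤ (recd S rc W0 ty0 (k + 1)).card / 2 := by
      rw [div_le_div_iff₀ (by positivity) (by norm_num)]
      nlinarith
    linarith

/-- **pseudolines, all letters recorded, exact exponent** `Q ^ e = L` -/
theorem lines_tab_sum (K : S.Bas) (hL : 2 ≤ S.L) (h : ∀ t, ty0 t < S.T) {Q w A0 : ℕ} (hQ : S.b < Q)
    (hc : S.okSum Q = true) (hw : S.okOff w = true) (h0 : ∀ t, |W0 t| ≤ A0)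
    {Op : (ℤ → ℤ) → ℤ → ℤ} {A A' B u : ℕ} (hOp : RefOp Op A' B u) (hOs : SumOp Op A B u)
    (hU : ∀ k a b, a ≤ b → Uni (Op (E (iterW S W0 ty0 k).1 a b))) {e : ℝ}
    (he : (Q : ℝ) ^ e = S.L) (he0 : 0 ≤ e) :
    ∃ c : ℝ, 0 < c ∧ ∃ n₀ : ℕ, ∀ n ≥ n₀,
    (∃ f : Fin n → ℝ → ℝ, (∀ i, Continuous (f i)) ∧
      (∀ i j, i ≠ j → ∃ x, Crosses (f i) (f j) x) ∧
      ∃ k < n, c * (n : ℝ) ^ e ≤ psiT f k) ∧
    ∀ s ≥ 1, c * (n : ℝ) ^ e ≤ Psi s n := by
  have hcard : ∀ c, (rcs S (fun _ _ => true) c).card = S.L := fun c => by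
    unfold rcs
    rw [filter_true_of_mem fun _ _ => rfl, card_range]
  refine lines_rec_sum K h hQ hc hw h0 (rc := fun _ _ => true) (v := fun _ => 1) (V := 1) (ρ₁ := S.L)
    (ρ₂ := 1) one_pos (by omega) (fun _ _ => ⟨le_rfl, le_rfl⟩) (fun c _ => ?_)
    (fun c _ => by rw [hcard]; exact hL) hOp hOs
    (fun k i _ j _ hij => hU k i j (by exact_mod_cast hij.le)) (by rw [he]; simp) he0
  rw [sum_const, hcard, smul_eq_mul, mul_one, one_mul]

/-- from an exact exponent to a smaller exponent without a constant -/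
theorem lines_lt {e e' : ℝ} (hee : e' < e)
    (h : ∃ c : ℝ, 0 < c ∧ ∃ n₀ : ℕ, ∀ n ≥ n₀,
      (∃ f : Fin n → ℝ → ℝ, (∀ i, Continuous (f i)) ∧
        (∀ i j, i ≠ j → ∃ x, Crosses (f i) (f j) x) ∧
        ∃ k < n, c * (n : ℝ) ^ e ≤ psiT f k) ∧
      ∀ s ≥ 1, c * (n : ℝ) ^ e ≤ Psi s n) :
    ∃ n₀ : ℕ, ∀ n ≥ n₀,
    (∃ f : Fin n → ℝ → ℝ, (∀ i, Continuous (f i)) ∧
      (∀ i j, i ≠ j → ∃ x, Crosses (f i) (f j) x) ∧
      ∃ k < n, (n : ℝ) ^ e' ≤ psiT f k) ∧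
    ∀ s ≥ 1, (n : ℝ) ^ e' ≤ Psi s n := by
  obtain ⟨c, hc, n₀, h1⟩ := h
  have h2 : Filter.Tendsto (fun n : ℕ => (n : ℝ) ^ (e - e')) Filter.atTop Filter.atTop :=
    (tendsto_rpow_atTop (by linarith)).comp tendsto_natCast_atTop_atTop
  obtain ⟨n₁, h3⟩ := Filter.eventually_atTop.1 (h2.eventually_ge_atTop (1 / c))
  refine ⟨max (max n₀ n₁) 1, fun n hn => ?_⟩
  have hn0 : n₀ ≤ n := (le_max_left _ _).trans ((le_max_left _ _).trans hn)
  have hn1 : n₁ ≤ n := (le_max_right _ _).trans ((le_max_left _ _).trans hn)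
  have hn2 : 1 ≤ n := (le_max_right _ _).trans hn
  have hpos : (0 : ℝ) < n := by exact_mod_cast hn2
  have h4 : (n : ℝ) ^ e' ≤ c * (n : ℝ) ^ e := by
    have h5 := h3 n hn1
    rw [div_le_iff₀ hc] at h5
    have h6 : (n : ℝ) ^ e = (n : ℝ) ^ (e - e') * (n : ℝ) ^ e' := by
      rw [← Real.rpow_add hpos]
      congr 1
      ring
    rw [h6]
    have h7 : 0 ≤ (n : ℝ) ^ e' := (Real.rpow_pos_of_pos hpos _).le
    nlinarith
  obtain ⟨⟨f, f1, f2, k, hk, f3⟩, h5⟩ := h1 n hn0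
  exact ⟨⟨f, f1, f2, k, hk, h4.trans f3⟩, fun s hs => h4.trans (h5 s hs)⟩

/-- the exponent of `Q ^ x < L ^ y` -/
theorem exp_lt {Q L x y : ℕ} (hQ : 2 ≤ Q) (hy : 0 < y) (h : Q ^ x < L ^ y) :
    ∃ e : ℝ, (Q : ℝ) ^ e = L ∧ (x : ℝ) / y < e ∧ 0 ≤ e := by
  have hL : 1 ≤ L := by
    rcases Nat.eq_zero_or_pos L with h0 | h0
    · rw [h0, zero_pow (by omega)] at h
      exact absurd h (Nat.not_lt_zero _)
    · exact h0
  have hQ1 : (1 : ℝ) < Q := by exact_mod_cast hQ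
  have hL1 : (1 : ℝ) ≤ L := by exact_mod_cast hL
  have hlQ : 0 < Real.log Q := Real.log_pos hQ1
  have hy' : (0 : ℝ) < y := by exact_mod_cast hy
  refine ⟨Real.log L / Real.log Q, ?_, ?_, div_nonneg (Real.log_nonneg hL1) hlQ.le⟩
  · rw [Real.rpow_def_of_pos (by linarith), mul_div_cancel₀ _ hlQ.ne', Real.exp_log (by linarith)]
  · rw [div_lt_div_iff₀ hy' hlQ]
    have h1 : ((Q : ℝ) ^ x) < (L : ℝ) ^ y := by exact_mod_cast h
    have h2 := Real.log_lt_log (by positivity) h1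
    rw [Real.log_pow, Real.log_pow] at h2
    linarith

/-- **pseudolines, all letters recorded, a rational exponent** -/
theorem lines_tab_sum_rat (K : S.Bas) (hL : 2 ≤ S.L) (h : ∀ t, ty0 t < S.T) {Q w A0 : ℕ}
    (hQ : S.b < Q) (hc : S.okSum Q = true) (hw : S.okOff w = true) (h0 : ∀ t, |W0 t| ≤ A0)
    {Op : (ℤ → ℤ) → ℤ → ℤ} {A A' B u : ℕ} (hOp : RefOp Op A' B u) (hOs : SumOp Op A B u)
    (hU : ∀ k a b, a ≤ b → Uni (Op (E (iterW S W0 ty0 k).1 a b))) {x y : ℕ} (hy : 0 < y)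
    (he : Q ^ x < S.L ^ y) :
    ∃ n₀ : ℕ, ∀ n ≥ n₀,
    (∃ f : Fin n → ℝ → ℝ, (∀ i, Continuous (f i)) ∧
      (∀ i j, i ≠ j → ∃ x, Crosses (f i) (f j) x) ∧
      ∃ k < n, (n : ℝ) ^ ((x : ℝ) / y) ≤ psiT f k) ∧
    ∀ s ≥ 1, (n : ℝ) ^ ((x : ℝ) / y) ≤ Psi s n := by
  have hb := K.b2
  obtain ⟨e, e1, e2, e3⟩ := exp_lt (by omega) hy he
  exact lines_lt e2 (lines_tab_sum K hL h hQ hc hw h0 hOp hOs hU e1 e3)

end iter

end LWG
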