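import Pool.Agent.LWG.Close
import Pool.Agent.LWG.Grow

/-!
# Growth for the iterates of a typed substitution

* `okCol S q`: in every residue class the coefficients `|e|` have a sum at most `q`; `okOff S w`: the offsets are at
  most `w`;
* `iter_bdW`, `iter_bdC`: range and heights of the iterates;
* **`kseq_tab`**: `KSeq 1 (h (b q) ^ k) (L ^ k)`; **`lines_tab`**: exact exponent `(b q) ^ e = L`;
  **`lines_tab_rat`**: any rational exponent below.
-/

set_option autoImplicit false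

open LevelLower LevelPseudo LevelWords

namespace LWG

namespace Tab

variable (S : Tab)

/-- column sums of the coefficients -/
def col (g : ℤ) : ℤ :=
  ((List.range S.e.length).map fun (k : ℕ) => if (g - S.e0 - k) % S.b = 0 then
    |S.e.getD k 0| else 0).sum

/-- the column sums are at most `q` -/
def okCol (q : ℕ) : Bool := (List.range S.b).all fun g => decide (S.col g ≤ q)

/-- the offsets are at most `w` -/
def okOff (w : ℕ) : Bool :=
  (List.range S.T).all fun c => (List.range S.L).all fun r => decide (|S.off c r| ≤ w)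

variable {S}

theorem col_mod (_hb : 0 < S.b) (g : ℤ) : S.col g = S.col (g % S.b) := by
  unfold col
  congr 1
  refine List.map_congr_left fun k _ => ?_
  have e1 : (g - S.e0 - k) % S.b = (g % S.b - S.e0 - k) % S.b := by
    have e2 : g - S.e0 - k = g % S.b - S.e0 - k + S.b * (g / S.b) := by
      have := Int.mul_ediv_add_emod g S.b
      linarith
    rw [e2, Int.add_mul_emod_self_left]
  rw [e1]

theorem col_le {q : ℕ} (hb : 0 < S.b) (h : S.okCol q = true) (g : ℤ) : S.col g ≤ q := by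
  rw [col_mod hb]
  have h0 : (0 : ℤ) < S.b := by exact_mod_cast hb
  have h1 := Int.emod_nonneg g h0.ne'
  have h2 := Int.emod_lt_of_pos g h0
  unfold okCol at h
  rw [List.all_eq_true] at h
  have h3 := h (g % S.b).toNat (List.mem_range.2 (by omega))
  rw [decide_eq_true_eq, Int.toNat_of_nonneg h1] at h3
  exact h3

theorem off_le {w : ℕ} (h : S.okOff w = true) {c r : ℕ} (hc : c < S.T) (hr : r < S.L) :
    |S.off c r| ≤ w := by
  unfold okOff at h
  rw [List.all_eq_true] at h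
  have h1 := h c (List.mem_range.2 hc)
  rw [List.all_eq_true] at h1
  have h2 := h1 r (List.mem_range.2 hr)
  rwa [decide_eq_true_eq] at h2

theorem abs_list_sum_le (l : List ℕ) (f g : ℕ → ℤ) (h : ∀ k ∈ l, |f k| ≤ g k) :
    |(l.map f).sum| ≤ (l.map g).sum := by
  induction l with
  | nil => simp
  | cons a l ih =>
    simp only [List.map_cons, List.sum_cons]
    refine (abs_add_le _ _).trans (add_le_add (h a (by simp)) (ih fun k hk => h k (by simp [hk])))

theorem comb_bd {q M : ℕ} (hb : 0 < S.b) (h : S.okCol q = true) {D : ℤ → ℤ}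
    (hD : ∀ x, |D x| ≤ M) (g : ℤ) : |S.comb D g| ≤ (q * M : ℕ) := by
  have h1 : |S.comb D g| ≤ ((List.range S.e.length).map fun (k : ℕ) =>
      (if (g - S.e0 - k) % S.b = 0 then |S.e.getD k 0| else 0) * (M : ℤ)).sum := by
    unfold comb
    refine abs_list_sum_le _ _ _ fun k _ => ?_
    split_ifs
    · rw [abs_mul]
      exact mul_le_mul_of_nonneg_left (hD _) (abs_nonneg _)
    · simp
  rw [List.sum_map_mul_right] at h1
  have h2 := col_le hb h g
  have h3 : S.col g * M ≤ q * M := mul_le_mul_of_nonneg_right h2 (Int.natCast_nonneg M)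
  push_cast
  exact h1.trans h3

theorem abs_dl_le (a x : ℤ) : |dl a x| ≤ 1 := by
  rcases dl_cases a x with h | h | h
  · rw [h.2]; norm_num
  · rw [h.2]; norm_num
  · rw [h.2.2]; norm_num

theorem part_bd (c r : ℕ) (y : ℤ) : |S.part c 0 r y| ≤ r := by
  induction r with
  | zero => rw [part_self]; simp
  | succ r ih =>
    rw [part_succ c (Nat.zero_le r)]
    refine (abs_add_le _ _).trans ?_
    have := abs_dl_le (S.off c r) y
    push_cast
    omega

end Tab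

open Tab

section iter

variable {S : Tab} {W0 : ℤ → ℤ} {ty0 : ℤ → ℕ}

theorem iter_ty (K : S.OK) (h : S.Path W0 ty0) : ∀ k, S.Path (iterW S W0 ty0 k).1 (iterW S W0 ty0 k).2
  | 0 => h
  | k + 1 => K.path (iter_ty K h k)

/-- range of the iterates -/
theorem iter_bdW (K : S.OK) (hb : 2 ≤ S.b) (h : S.Path W0 ty0) {w A0 : ℕ} (hw : S.okOff w = true)
    (h0 : ∀ t, |W0 t| ≤ A0) (k : ℕ) (t : ℤ) :
    |(iterW S W0 ty0 k).1 t| + w ≤ ((A0 + w) * S.b ^ k : ℕ) := by
  induction k generalizing t with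
  | zero =>
    have := h0 t
    show |W0 t| + w ≤ _
    push_cast
    rw [pow_zero, mul_one]
    omega
  | succ k ih =>
    obtain ⟨p, r, hr, rfl⟩ := exists_pr K.L0 t
    show |S.subW (iterW S W0 ty0 k).1 (iterW S W0 ty0 k).2 (S.L * p + r)| + w ≤ _
    rw [subW_eq _ _ p hr]
    have h1 := ih p
    have h2 := off_le hw ((iter_ty K h k).lt p) hr
    have hb' : (2 : ℤ) ≤ S.b := by exact_mod_cast hb
    have h3 : |(S.b : ℤ) * (iterW S W0 ty0 k).1 p + S.off ((iterW S W0 ty0 k).2 p) r| ≤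
        S.b * |(iterW S W0 ty0 k).1 p| + w := by
      refine (abs_add_le _ _).trans (add_le_add (le_of_eq ?_) h2)
      rw [abs_mul, abs_of_nonneg (by omega : (0 : ℤ) ≤ S.b)]
    have h4 : (S.b : ℤ) * (|(iterW S W0 ty0 k).1 p| + w) ≤ S.b * ((A0 + w) * S.b ^ k : ℕ) :=
      mul_le_mul_of_nonneg_left h1 (by omega)
    have h5 : (2 : ℤ) * w ≤ S.b * w := mul_le_mul_of_nonneg_right hb' (Int.natCast_nonneg w)
    push_cast at h4 ⊢
    rw [pow_succ]
    nlinarith

/-- heights of the iterates -/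
theorem iter_bdC (K : S.OK) (h : S.Path W0 ty0) {q : ℕ} (hq : 2 ≤ q) (hc : S.okCol q = true)
    (k : ℕ) (t : ℕ) (ht : t ≤ S.L ^ k) (x : ℤ) :
    |C (iterW S W0 ty0 k).1 x t| + S.L ≤ ((1 + S.L) * q ^ k : ℕ) := by
  induction k generalizing t x with
  | zero =>
    rw [pow_zero] at ht
    show |C W0 x t| + S.L ≤ _
    rw [pow_zero, mul_one]
    have : t = 0 ∨ t = 1 := by omega
    rcases this with rfl | rfl
    · rw [show C W0 x ((0 : ℕ) : ℤ) = 0 from rfl]
      push_cast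
      rw [abs_zero]
      omega
    · have h2 := C_succ W0 x 0
      rw [show (0 : ℤ) + 1 = ((1 : ℕ) : ℤ) by norm_num, show C W0 x 0 = 0 from rfl, zero_add] at h2
      rw [h2]
      have := abs_dl_le (W0 0) x
      push_cast
      omega
  | succ k ih =>
    have hL := K.L0
    obtain ⟨p, r, hr, e⟩ : ∃ p r : ℕ, r < S.L ∧ t = S.L * p + r :=
      ⟨t / S.L, t % S.L, Nat.mod_lt _ hL, (Nat.div_add_mod t S.L).symm⟩
    have hp : p ≤ S.L ^ k := by
      rw [pow_succ', e] at ht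
      have : S.L * p ≤ S.L * S.L ^ k := by omega
      exact Nat.le_of_mul_le_mul_left this hL
    show |C (S.subW (iterW S W0 ty0 k).1 (iterW S W0 ty0 k).2) x t| + S.L ≤ _
    rw [e, show ((S.L * p + r : ℕ) : ℤ) = S.L * (p : ℤ) + r by push_cast; ring,
      C_block _ _ (p : ℤ) x r hr.le]
    have h1 := K.C_comb (W := (iterW S W0 ty0 k).1) (iter_ty K h k).lt 0 (p : ℤ) x
    rw [mul_zero, show C (S.subW (iterW S W0 ty0 k).1 (iterW S W0 ty0 k).2) x 0 = 0 from rfl,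
      sub_zero] at h1
    have h2 : ∀ y, |E (iterW S W0 ty0 k).1 0 p y| ≤ ((1 + S.L) * q ^ k - S.L : ℕ) := fun y => by
      have h3 := ih p hp y
      have h4 : E (iterW S W0 ty0 k).1 0 p y = C (iterW S W0 ty0 k).1 y p := by
        unfold E
        rw [show C (iterW S W0 ty0 k).1 y 0 = 0 from rfl, sub_zero]
      rw [h4]
      omega
    have h3 := comb_bd K.b0 hc h2 x
    have h4 := part_bd (S := S) ((iterW S W0 ty0 k).2 (p : ℤ)) r (x - S.b * (iterW S W0 ty0 k).1 (p : ℤ))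
    have h5 := abs_add_le (S.comb (E (iterW S W0 ty0 k).1 0 p) x)
      (S.part ((iterW S W0 ty0 k).2 (p : ℤ)) 0 r (x - S.b * (iterW S W0 ty0 k).1 (p : ℤ)))
    rw [h1]
    have h6 : S.L ≤ (1 + S.L) * q ^ k := by
      have : 1 ≤ q ^ k := Nat.one_le_pow _ _ (by omega)
      nlinarith
    have h7 : q * ((1 + S.L) * q ^ k - S.L) + q * S.L = (1 + S.L) * q ^ (k + 1) := by
      rw [← mul_add, Nat.sub_add_cancel h6]
      ring
    have h8 : 2 * S.L ≤ q * S.L := Nat.mul_le_mul_right _ hq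
    omega

/-- **sequences of sets from the iterates** -/
theorem kseq_tab (K : S.OK) (hb : 2 ≤ S.b) (h : S.Path W0 ty0) {q w A0 : ℕ} (hq : 2 ≤ q)
    (hc : S.okCol q = true) (hw : S.okOff w = true) (h0 : ∀ t, |W0 t| ≤ A0)
    {Op : (ℤ → ℤ) → ℤ → ℤ} {A B v : ℕ} (hOp : RefOp Op A B v)
    (hU : ∀ k a b, a ≤ b → Uni (Op (E (iterW S W0 ty0 k).1 a b))) (k : ℕ) :
    KSeq 1 (4 * (B * (A0 + w + 1) + v + 1) * (A * (1 + S.L) + 1) * (S.b * q) ^ k) (S.L ^ k) := by
  have hb1 : 1 ≤ S.b ^ k := Nat.one_le_pow _ _ (by omega)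
  have hq1 : 1 ≤ q ^ k := Nat.one_le_pow _ _ (by omega)
  have h1 := kseq_op hOp (W := (iterW S W0 ty0 k).1) (T := S.L ^ k) (R := (A0 + w + 1) * S.b ^ k)
    (M := (1 + S.L) * q ^ k) (fun t _ => ?_) (fun t ht x => ?_)
    (fun a b hab _ => hU k a b (by omega))
  · refine h1.mono le_rfl ?_ le_rfl
    have e1 : B * ((A0 + w + 1) * S.b ^ k) + v + 1 ≤ (B * (A0 + w + 1) + v + 1) * S.b ^ k := by
      nlinarith
    have e2 : A * ((1 + S.L) * q ^ k) ≤ (A * (1 + S.L) + 1) * q ^ k := by nlinarith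
    calc 4 * (B * ((A0 + w + 1) * S.b ^ k) + v + 1) * (A * ((1 + S.L) * q ^ k))
        ≤ 4 * ((B * (A0 + w + 1) + v + 1) * S.b ^ k) * ((A * (1 + S.L) + 1) * q ^ k) :=
          Nat.mul_le_mul (Nat.mul_le_mul_left 4 e1) e2
      _ = _ := by
          rw [mul_pow]
          ring
  · have h2 := iter_bdW K hb h hw h0 k (t : ℤ)
    have h3 := neg_abs_le ((iterW S W0 ty0 k).1 (t : ℤ))
    have h4 := le_abs_self ((iterW S W0 ty0 k).1 (t : ℤ))
    have h5 : (A0 + w) * S.b ^ k + 1 ≤ (A0 + w + 1) * S.b ^ k := by nlinarith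
    constructor <;> omega
  · have h2 := iter_bdC K h hq hc k t ht x
    omega

/-- **pseudolines, exact exponent** -/
theorem lines_tab (K : S.OK) (hb : 2 ≤ S.b) (h : S.Path W0 ty0) {q w A0 : ℕ} (hq : 2 ≤ q)
    (hc : S.okCol q = true) (hw : S.okOff w = true) (h0 : ∀ t, |W0 t| ≤ A0)
    {Op : (ℤ → ℤ) → ℤ → ℤ} {A B v : ℕ} (hOp : RefOp Op A B v)
    (hU : ∀ k a b, a ≤ b → Uni (Op (E (iterW S W0 ty0 k).1 a b))) {e : ℝ}
    (he : ((S.b * q : ℕ) : ℝ) ^ e = S.L) (he0 : 0 ≤ e) :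
    ∃ c : ℝ, 0 < c ∧ ∃ n₀ : ℕ, ∀ n ≥ n₀,
    (∃ f : Fin n → ℝ → ℝ, (∀ i, Continuous (f i)) ∧
      (∀ i j, i ≠ j → ∃ x, Crosses (f i) (f j) x) ∧
      ∃ k < n, c * (n : ℝ) ^ e ≤ psiT f k) ∧
    ∀ s ≥ 1, c * (n : ℝ) ^ e ≤ Psi s n := by
  have hbq : 2 ≤ S.b * q := by nlinarith
  obtain ⟨c, hc', h1⟩ := growth_exact (s := 1) (D := 1) Nat.one_pos K.L0 hbq (by positivity) he he0
    (fun k => ⟨S.L ^ k, by rw [one_mul], kseq_tab K hb h hq hc hw h0 hOp hU k⟩)
  exact ⟨c, hc', _, lines_exact h1⟩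

/-- **pseudolines, a rational exponent** -/
theorem lines_tab_rat (K : S.OK) (hb : 2 ≤ S.b) (h : S.Path W0 ty0) {q w A0 : ℕ} (hq : 2 ≤ q)
    (hc : S.okCol q = true) (hw : S.okOff w = true) (h0 : ∀ t, |W0 t| ≤ A0)
    {Op : (ℤ → ℤ) → ℤ → ℤ} {A B v : ℕ} (hOp : RefOp Op A B v)
    (hU : ∀ k a b, a ≤ b → Uni (Op (E (iterW S W0 ty0 k).1 a b))) {x y : ℕ} (hy : 0 < y)
    (he : (S.b * q) ^ x < S.L ^ y) :
    ∃ n₀ : ℕ, ∀ n ≥ n₀,
    (∃ f : Fin n → ℝ → ℝ, (∀ i, Continuous (f i)) ∧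
      (∀ i j, i ≠ j → ∃ x, Crosses (f i) (f j) x) ∧
      ∃ k < n, (n : ℝ) ^ ((x : ℝ) / y) ≤ psiT f k) ∧
    ∀ s ≥ 1, (n : ℝ) ^ ((x : ℝ) / y) ≤ Psi s n := by
  have hbq : 2 ≤ S.b * q := by nlinarith
  obtain ⟨n₀, h1⟩ := growthK (s := 1) (C := 1) (R := S.L) Nat.one_pos hbq (by positivity)
    (fun k => ⟨S.L ^ k, by rw [one_mul], kseq_tab K hb h hq hc hw h0 hOp hU k⟩) hy he
  have h2 := lines_exact (e := (x : ℝ) / y) (c := 1) (n₀ := n₀) fun n hn => by
    obtain ⟨N, a1, a2, a3⟩ := h1 n hn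
    exact ⟨N, a1, by rw [one_mul]; exact a2, a3⟩
  refine ⟨n₀, fun n hn => ?_⟩
  simpa only [one_mul] using h2 n hn

end iter

end LWG
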