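import Pool.Agent.LWG.KNearE

/-!
# Words with a kernel, patterns with inequalities: windows inside a block

`chkBlE`: for two letters of a block, the window with both letters is unimodal, and no forbidden
pattern occurs strictly between; **`hB_ofE`**: the hypothesis `hB` of `kgood_subE`, `kgood_subI`.
-/

set_option autoImplicit false

namespace LWG

open LevelWords (Uni)

/-- difference of two lists, the shorter one filled with zeros -/
def subL : List ℤ → List ℤ → List ℤ
  | l, [] => l
  | [], b :: l' => -b :: subL [] l'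
  | a :: l, b :: l' => (a - b) :: subL l l'

theorem getD_subL : ∀ (l l' : List ℤ) (k : ℕ), (subL l l').getD k 0 = l.getD k 0 - l'.getD k 0
  | l, [], k => by simp [subL]
  | [], b :: l', 0 => by simp [subL]
  | [], b :: l', k + 1 => by
    have := getD_subL [] l' k
    simp only [subL, List.getD_cons_succ, List.getD_nil] at this ⊢
    exact this
  | a :: l, b :: l', 0 => by simp [subL]
  | a :: l, b :: l', k + 1 => by
    have := getD_subL l l' k
    simp only [subL, List.getD_cons_succ] at this ⊢
    exact this

theorem nz_subL (n0 : ℤ) (l l' : List ℤ) (y : ℤ) : nz n0 (subL l l') y = nz n0 l y - nz n0 l' y := by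
  unfold nz
  rcases y - n0 with n | n
  · exact getD_subL l l' n
  · rfl

/-- the list is unimodal; the flag: there was a negative value -/
def uniV : Bool → List ℤ → Bool
  | _, [] => true
  | s, a :: l => !(s && posB a) && uniV (s || negB a) l

theorem uniV_neg : ∀ (l : List ℤ) (k : ℕ), uniV true l = true → l.getD k 0 ≤ 0
  | [], k, _ => by simp
  | a :: l, k, h => by
    simp only [uniV, Bool.true_and, Bool.true_or, Bool.and_eq_true, Bool.not_eq_true'] at h
    rcases k with _ | k
    · exact posB_false h.1
    · rw [List.getD_cons_succ]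
      exact uniV_neg l k h.2

theorem uniV_sound : ∀ (l : List ℤ) (s : Bool), uniV s l = true → ∀ i j : ℕ, i < j →
    l.getD i 0 < 0 → l.getD j 0 ≤ 0
  | [], s, _, i, j, _, h => by simp at h
  | a :: l, s, h, i, j, hij, hi => by
    simp only [uniV, Bool.and_eq_true] at h
    obtain ⟨k, rfl⟩ : ∃ k, j = k + 1 := ⟨j - 1, by omega⟩
    rw [List.getD_cons_succ]
    rcases i with _ | i
    · have h1 : a < 0 := hi
      have h2 := h.2
      rw [negB_iff.2 h1, Bool.or_true] at h2
      exact uniV_neg l k h2
    · rw [List.getD_cons_succ] at hi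
      exact uniV_sound l _ h.2 i k (by omega) hi

theorem uni_nz {n0 : ℤ} {l : List ℤ} (h : uniV false l = true) : Uni (nz n0 l) := by
  intro x y hxy hx hy
  unfold nz at hx hy
  rcases h1 : x - n0 with i | i
  · rcases h2 : y - n0 with j | j
    · rw [h1] at hx
      rw [h2] at hy
      have h3 : x - n0 = (i : ℤ) := h1
      have h4 : y - n0 = (j : ℤ) := h2
      have := uniV_sound l false h i j (by omega) hx
      simp only at hy
      omega
    · rw [h2] at hy
      simp at hy
  · rw [h1] at hx
    simp at hx

/-- the value satisfies the entry -/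
def En.test (e : En) (x : ℤ) : Bool :=
  match e with
  | .ex n => zeB (x - n)
  | .ge n => !negB (x - n)
  | .le n => !posB (x - n)
  | .un => true

theorem En.test_of {e : En} {x : ℤ} (h : e.Sat x) : e.test x = true := by
  rcases e with n | n | n | _
  · have h : x = n := h
    exact zeB_iff.2 (by omega)
  · have h : n ≤ x := h
    change (!negB (x - n)) = true
    rcases hn : negB (x - n) with _ | _
    · rfl
    · have := negB_iff.1 hn
      omega
  · have h : x ≤ n := h
    change (!posB (x - n)) = true
    rcases hn : posB (x - n) with _ | _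
    · rfl
    · have := posB_iff.1 hn
      omega
  · rfl

/-- the values satisfy the entries -/
def satL : List En → List ℤ → Bool
  | [], _ => true
  | e :: v, a => e.test (hd a) && satL v a.tail

theorem satL_of {f : ℤ → ℤ} : ∀ (v : List En) {g : ℤ} {a : List ℤ}, ValA f g a → SatA f g v →
    satL v a = true
  | [], _, _, _, _ => rfl
  | e :: v, g, a, ha, h => by
    simp only [satL, Bool.and_eq_true]
    refine ⟨?_, satL_of v ha.tail h.2⟩
    rw [ha.hd]
    exact En.test_of h.1

/-- one pair of letters of a block; `v`: the values with both letters, `w`: strictly between -/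
def chkPrE (pats : ℕ → ℕ → List PatE) (n0 : ℤ) (c c' : ℕ) (A B : ℤ) (v w : List ℤ) : Bool :=
  uniV false v && (psD (B - A) (pats c c')).all fun P => !satL P.v (sha n0 w (A + P.e))

theorem mem_psD_of {d : ℤ} {P : PatE} (hd : P.d = d) : ∀ {ps : List PatE}, P ∈ ps → P ∈ psD d ps
  | [], h => by simp at h
  | Q :: ps, h => by
    unfold psD
    rcases List.mem_cons.1 h with h | h
    · subst h
      rw [zeB_iff.2 (show P.d - d = 0 by omega), cond_true]
      exact List.mem_cons_self
    · rcases zeB (Q.d - d) with _ | _
      · exact mem_psD_of hd h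
      · exact List.mem_cons_of_mem _ (mem_psD_of hd h)

theorem noKE_ofV {g : List ℤ} {pats : ℕ → ℕ → List PatE} {n0 : ℤ} {c c' : ℕ} {A B : ℤ}
    {v w : List ℤ} {Fi F : ℤ → ℤ} (hv : ∀ y, Fi y = nz n0 v y) (hw : ∀ y, F y = nz n0 w y)
    (h : chkPrE pats n0 c c' A B v w = true) : NoKEE g pats c c' A B Fi F := by
  unfold chkPrE at h
  rw [Bool.and_eq_true, List.all_eq_true] at h
  obtain ⟨h1, h2⟩ := h
  refine ⟨?_, fun P hP hd hA => ?_⟩
  · rintro ⟨x, y, k1, k2, k3, -⟩
    rw [hv] at k2 k3
    exact uni_nz h1 x y k1 k2 k3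
  · have h3 := h2 P (mem_psD_of hd hP)
    rw [satL_of P.v (val_sha n0 w (A + P.e)) (satA_congr hw _ _ hA)] at h3
    exact absurd h3 (by decide)

/-- all pairs of letters of a block of type `c` -/
def Tab.chkBlE (S : Tab) (pats : ℕ → ℕ → List PatE) (n0 : ℤ) (NB : ℕ → List (List ℤ)) (c : ℕ) :
    Bool :=
  (List.range S.L).all fun j => (List.range j).all fun i =>
    chkPrE pats n0 (S.chd c i) (S.chd c j) (S.off c i) (S.off c j)
      (subL ((NB c).getD (j + 1) []) ((NB c).getD i []))
      (subL ((NB c).getD j []) ((NB c).getD (i + 1) []))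

/-- **windows inside a block** -/
theorem hB_ofE {S : Tab} {K : Ker} {pats : ℕ → ℕ → List PatE} {n0 : ℤ}
    {NA NB : ℕ → List (List ℤ)} (hZ : KNzOK S K n0 NA NB)
    (h : ∀ c < S.T, S.chkBlE pats n0 NB c = true) :
    ∀ c < S.T, ∀ i j, i < j → j < S.L →
      NoKEE K.g pats (S.chd c i) (S.chd c j) (S.off c i) (S.off c j)
        (fun y => S.kpre K c (j + 1) y - S.kpre K c i y)
        (fun y => S.kpre K c j y - S.kpre K c (i + 1) y) := by
  intro c hc i j hij hj
  have h1 := h c hc
  simp only [Tab.chkBlE, List.all_eq_true, List.mem_range] at h1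
  refine noKE_ofV (fun y => ?_) (fun y => ?_) (h1 j hj i hij)
  · rw [nz_subL, hZ.b c hc (j + 1) hj, hZ.b c hc i (by omega)]
  · rw [nz_subL, hZ.b c hc j hj.le, hZ.b c hc (i + 1) (by omega)]

end LWG
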