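import Pool.Agent.LWG.Ker
import Pool.Agent.LWG.Close

/-!
# Typed substitutions of words, with a kernel: the invariant is preserved

As `LWG.Close`, for differences convolved with a kernel.

* `KGood`, `KLoc`, **`KGood.loc`**;
* `Tab.kFn`: convolved differences of a child window;
* `NoKE`, **`kgood_sub`**, **`kgood_iter`**.
-/

namespace LWG

open LevelWords

/-- convolved differences strictly between `s` and `t`; edges relative to the letter `s` -/
def kLw (g : List ℤ) (W : ℤ → ℤ) (s t y : ℤ) : ℤ := cv g (E W (s + 1) t) (W s + y)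

/-- What is known about the convolved differences strictly between two letters of the types `c`,
`c'` at the distance `d`, if there are at least `2 m` letters between them. -/
structure KLoc (S : Tab) (g : List ℤ) (pats : ℕ → ℕ → List Pat) (c c' : ℕ) (d : ℤ) (D : ℤ → ℤ) :
    Prop where
  adm : ∀ l ∈ S.lops c, ∀ r ∈ S.rops c' d, Uni fun y => D y + (cv g l y + cv g r y)
  pat : ∀ P ∈ pats c c', P.d = d → ¬ Agr D P.e P.v

/-- The invariant. -/
structure KGood (S : Tab) (g : List ℤ) (pats : ℕ → ℕ → List Pat) (W : ℤ → ℤ) (ty : ℤ → ℕ) :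
    Prop where
  path : S.Path W ty
  uni : ∀ a b, a ≤ b → Uni (cv g (E W a b))
  pat : ∀ s t, s < t → ∀ P ∈ pats (ty s) (ty t), P.d = W t - W s → ¬ Agr (kLw g W s t) P.e P.v

theorem cv_at (g : List ℤ) (f : ℤ → ℤ) (a y : ℤ) : cv g f (a + y) = cv g (fun z => f (a + z)) y := by
  have := cv_shift g f (-a) y
  rw [show y - -a = a + y by ring] at this
  rw [← this]
  exact cv_congr g (fun z => by rw [show z - -a = a + z by ring]) y

/-- **long windows of a good word** -/
theorem KGood.loc {S : Tab} {g : List ℤ} {pats : ℕ → ℕ → List Pat} {W : ℤ → ℤ} {ty : ℤ → ℕ}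
    (h : KGood S g pats W ty) {s e : ℤ} (hse : s + 2 * S.m + 1 ≤ e) :
    KLoc S g pats (ty s) (ty e) (W e - W s) (kLw g W s e) where
  pat P hP hd := h.pat s e (by omega) P hP hd
  adm l hl r hr := by
    have hL : ∃ a ≤ s + 1 + S.m, ∀ b y, E W a b (W s + y) = E W (s + 1) b (W s + y) + l y := by
      unfold Tab.lops at hl
      rw [List.mem_append, List.mem_map, List.mem_map] at hl
      rcases hl with ⟨k, hk, rfl⟩ | ⟨k, hk, rfl⟩
      · rw [List.mem_range] at hk
        exact ⟨s + 1 - k, by omega, fun b y => E_addL h.path s b y k (by omega)⟩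
      · rw [List.mem_range] at hk
        refine ⟨s + 1 + ((k + 1 : ℕ) : ℤ), by omega, fun b y => ?_⟩
        rw [E_remL h.path s b y (k + 1) (by omega)]
        ring
    have hR : ∃ b, e - S.m ≤ b ∧ ∀ a y, E W a b (W s + y) = E W a e (W s + y) + r y := by
      unfold Tab.rops at hr
      rw [List.mem_append, List.mem_map, List.mem_map] at hr
      rcases hr with ⟨k, hk, rfl⟩ | ⟨k, hk, rfl⟩
      · rw [List.mem_range] at hk
        exact ⟨e + k, by omega, fun a y => E_addR h.path a s e y k (by omega)⟩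
      · rw [List.mem_range] at hk
        refine ⟨e - ((k + 1 : ℕ) : ℤ), by omega, fun a y => ?_⟩
        rw [E_remR h.path a s e y (k + 1) (by omega)]
        ring
    obtain ⟨a, ha, hL⟩ := hL
    obtain ⟨b, hb, hR⟩ := hR
    have hU := h.uni a b (by omega)
    have hc : ∀ y, cv g (E W a b) (W s + y) = kLw g W s e y + (cv g l y + cv g r y) := fun y => by
      unfold kLw
      rw [cv_at, cv_at, ← cv_add, ← cv_add]
      refine cv_congr g (fun z => ?_) y
      rw [hR, hL]
      ring
    intro x y hxy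
    have := hU (W s + x) (W s + y) (by omega)
    rw [hc, hc] at this
    exact this

/-- Convolved differences from the letter `i` of a block of type `c` (included) to the letter `j` of
a later block of type `c'` (excluded), when `D` are those strictly between the coarse letters. Edges
relative to `b * (coarse letter)`. -/
def Tab.kFn (S : Tab) (K : Ker) (c i c' j : ℕ) (d : ℤ) (D : ℤ → ℤ) (y : ℤ) : ℤ :=
  (S.kpre K c S.L y - S.kpre K c i y) + (S.ref K).comb D y + S.kpre K c' j (y - S.b * d)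

/-- No minimal violation and no forbidden pattern between two letters of the types `c`, `c'`, at the
positions `A`, `B`; `Fi`, `F` are the convolved differences with both letters, and strictly
between. -/
structure NoKE (g : List ℤ) (pats : ℕ → ℕ → List Pat) (c c' : ℕ) (A B : ℤ) (Fi F : ℤ → ℤ) :
    Prop where
  ev : ¬ KEv g A B Fi
  pat : ∀ P ∈ pats c c', P.d = B - A → ¬ Agr F (A + P.e) P.v

theorem kev_shift {g : List ℤ} {a A B : ℤ} {F : ℤ → ℤ} (h : KEv g (a + A) (a + B) F) :
    KEv g A B fun y => F (a + y) := by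
  obtain ⟨x, y, h1, h2, h3, h4, h5, h6⟩ := h
  have e1 : ∀ o z : ℤ, prof g o (z - a) = prof g (a + o) z := fun o z => (prof_shift g a o z).symm
  refine ⟨x - a, y - a, by omega, ?_, ?_, fun z hz1 hz2 => h4 _ (by omega) (by omega), ?_, ?_⟩
  · simpa using h2
  · simpa using h3
  · simpa [e1] using h5
  · simpa [e1] using h6

section close

variable {S : Tab} {K : Ker} {pats : ℕ → ℕ → List Pat}

/-- a later block -/
theorem Tab.KOK.kwindow (H : S.KOK K) {W : ℤ → ℤ} {ty : ℤ → ℕ} (h : ∀ t, ty t < S.T) {s e : ℤ}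
    (hse : s < e) (y : ℤ) {r r' : ℕ} (hr : r ≤ S.L) (hr' : r' ≤ S.L) :
    cv K.g (E (S.subW W ty) (S.L * s + r) (S.L * e + r')) (S.b * W s + y) =
      S.kFn K (ty s) r (ty e) r' (W e - W s) (kLw K.g W s e) y := by
  rw [H.window h hse.le y hr hr']
  unfold Tab.kF Tab.kFn
  have h1 : ∀ x, cv K.g (E W s e) (W s + x) = kLw K.g W s e x + cv K.g (dl 0) x := fun x => by
    rw [cv_E_left]
    unfold kLw
    have := prof_shift K.g (W s) 0 (W s + x)
    rw [add_zero, show W s + x - W s = x by ring] at this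
    rw [this]
    rfl
  rw [Tab.comb_congr (S := S.ref K) h1, Tab.comb_add, ← H.id _ (h s) y]
  ring

/-- **the invariant is preserved** -/
theorem kgood_sub (hO : S.OK) (H : S.KOK K) (hk : OKer K.g)
    (hB : ∀ c < S.T, ∀ i j, i < j → j < S.L →
      NoKE K.g pats (S.chd c i) (S.chd c j) (S.off c i) (S.off c j)
        (fun y => S.kpre K c (j + 1) y - S.kpre K c i y)
        (fun y => S.kpre K c j y - S.kpre K c (i + 1) y))
    (hS : ∀ W ty, S.Path W ty → ∀ s e : ℤ, s < e → e ≤ s + 2 * S.m → ∀ i < S.L, ∀ j < S.L,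
      NoKE K.g pats (S.chd (ty s) i) (S.chd (ty e) j) (S.off (ty s) i)
        (S.b * (W e - W s) + S.off (ty e) j)
        (S.kFn K (ty s) i (ty e) (j + 1) (W e - W s) (kLw K.g W s e))
        (S.kFn K (ty s) (i + 1) (ty e) j (W e - W s) (kLw K.g W s e)))
    (hN : ∀ c < S.T, ∀ c' < S.T, ∀ d D, KLoc S K.g pats c c' d D → ∀ i < S.L, ∀ j < S.L,
      NoKE K.g pats (S.chd c i) (S.chd c' j) (S.off c i) (S.b * d + S.off c' j)
        (S.kFn K c i c' (j + 1) d D) (S.kFn K c (i + 1) c' j d D))
    {W : ℤ → ℤ} {ty : ℤ → ℕ} (h : KGood S K.g pats W ty) :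
    KGood S K.g pats (S.subW W ty) (S.subT ty) := by
  have key : ∀ s' e' : ℤ, s' < e' → ∃ (a A B : ℤ) (Fi F : ℤ → ℤ),
      S.subW W ty s' = a + A ∧ S.subW W ty e' = a + B ∧
      (∀ y, cv K.g (E (S.subW W ty) s' (e' + 1)) (a + y) = Fi y) ∧
      (∀ y, cv K.g (E (S.subW W ty) (s' + 1) e') (a + y) = F y) ∧
      NoKE K.g pats (S.subT ty s') (S.subT ty e') A B Fi F := by
    intro s' e' hse'
    obtain ⟨s, i, hi, rfl⟩ := Tab.exists_pr hO.L0 s'
    obtain ⟨e, j, hj, rfl⟩ := Tab.exists_pr hO.L0 e'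
    have hL0 : (0 : ℤ) < S.L := by exact_mod_cast hO.L0
    have hse : s ≤ e := by
      by_contra hc
      have h1 : e + 1 ≤ s := by omega
      have h2 : (S.L : ℤ) * (e + 1) ≤ S.L * s := mul_le_mul_of_nonneg_left h1 hL0.le
      have h3 : (S.L : ℤ) * (e + 1) = S.L * e + S.L := by ring
      omega
    have c1 : (S.L * s + i + 1 : ℤ) = S.L * s + ((i + 1 : ℕ) : ℤ) := by push_cast; ring
    have c2 : (S.L * e + j + 1 : ℤ) = S.L * e + ((j + 1 : ℕ) : ℤ) := by push_cast; ring
    rw [Tab.subT_eq ty s hi, Tab.subT_eq ty e hj]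
    rcases eq_or_lt_of_le hse with h1 | h1
    · subst h1
      have hij : i < j := by omega
      refine ⟨S.b * W s, S.off (ty s) i, S.off (ty s) j, _, _, Tab.subW_eq W ty s hi,
        Tab.subW_eq W ty s hj, fun y => ?_, fun y => ?_, hB _ (h.path.lt s) i j hij hj⟩
      · rw [c2, Tab.window_same s y hi.le (show j + 1 ≤ S.L from hj)]
      · rw [c1, Tab.window_same s y (show i + 1 ≤ S.L from hi) hj.le]
    · refine ⟨S.b * W s, S.off (ty s) i, S.b * (W e - W s) + S.off (ty e) j,
        S.kFn K (ty s) i (ty e) (j + 1) (W e - W s) (kLw K.g W s e),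
        S.kFn K (ty s) (i + 1) (ty e) j (W e - W s) (kLw K.g W s e), Tab.subW_eq W ty s hi, ?_,
        fun y => ?_, fun y => ?_, ?_⟩
      · rw [Tab.subW_eq W ty e hj]
        ring
      · rw [c2, H.kwindow h.path.lt h1 y hi.le (show j + 1 ≤ S.L from hj)]
      · rw [c1, H.kwindow h.path.lt h1 y (show i + 1 ≤ S.L from hi) hj.le]
      · rcases le_or_gt e (s + 2 * S.m) with h2 | h2
        · exact hS W ty h.path s e h1 h2 i hi j hj
        · exact hN _ (h.path.lt s) _ (h.path.lt e) _ _ (h.loc (by omega)) i hi j hj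
  refine ⟨hO.path h.path, ?_, ?_⟩
  · intro a b hab
    refine kuni_all hk (fun s e hse hE => ?_) (b - a).toNat a b (by omega)
    obtain ⟨a, A, B, Fi, F, h1, h2, h3, -, h5⟩ := key s e hse
    rw [h1, h2] at hE
    refine h5.ev ?_
    rw [show Fi = fun y => cv K.g (E (S.subW W ty) s (e + 1)) (a + y) from
      funext fun y => (h3 y).symm]
    exact kev_shift hE
  · intro s e hse P hP hd hA
    obtain ⟨a, A, B, Fi, F, h1, h2, -, h4, h5⟩ := key s e hse
    refine h5.pat P hP (by rw [hd, h1, h2]; ring) (agr_shift _ _ ?_)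
    have h6 : (fun y => F (A + y)) = kLw K.g (S.subW W ty) s e := by
      funext y
      unfold kLw
      rw [h1, add_assoc, h4]
    rwa [h6]

theorem kgood_iter {W : ℤ → ℤ} {ty : ℤ → ℕ} {g : List ℤ}
    (hs : ∀ W ty, KGood S g pats W ty → KGood S g pats (S.subW W ty) (S.subT ty))
    (h : KGood S g pats W ty) : ∀ k, KGood S g pats (iterW S W ty k).1 (iterW S W ty k).2
  | 0 => h
  | k + 1 => hs _ _ (kgood_iter hs h k)

end close

end LWG
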