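import Pool.Agent.LWG.Tie
import Pool.Agent.LWG.Pat
import Pool.Agent.LWG.KClose

/-!
# Words with a kernel: changes and noise as vectors

* `Tab.klvec`, `Tab.krvec`, **`klocV_of`**: `KLoc` gives `LocV`;
* `Tab.kokNz` (a check), `KNzOK`: noise vectors of the letters;
* `okKer`, **`oker_of`**, **`sgn_of`**: checks of a kernel.
-/

namespace LWG

open LevelWords (Uni dl dl_cases)

variable {S : Tab} {K : Ker} {g : List ℤ} {D : ℤ → ℤ}

/-! ## Support of a convolution -/

theorem cv_out {f : ℤ → ℤ} {y : ℤ} (h : ∀ z, y - g.length < z → z ≤ y → f z = 0) :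
    cv g f y = 0 := by
  unfold cv
  refine List.sum_eq_zero fun x hx => ?_
  obtain ⟨k, hk, rfl⟩ := List.mem_map.1 hx
  rw [List.mem_range] at hk
  rw [h (y - k) (by omega) (by omega), mul_zero]

/-- a function which vanishes outside `[-m - 1, m]` -/
theorem cv_range {f : ℤ → ℤ} {m n : ℕ} (hm : m + g.length ≤ n + 1)
    (hf : ∀ y, y < -(m : ℤ) - 1 ∨ (m : ℤ) < y → f y = 0) (y : ℤ)
    (hy : y < -(n : ℤ) - 1 ∨ (n : ℤ) < y) : cv g f y = 0 := by
  rcases Nat.eq_zero_or_pos g.length with h0 | h0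
  · exact cv_out fun z h1 h2 => by omega
  · refine cv_out fun z h1 h2 => hf z ?_
    omega

theorem prof_out {o y : ℤ} (h : y < o - 1 ∨ o + g.length ≤ y) : prof g o y = 0 := by
  unfold prof
  refine cv_out fun z h1 h2 => ?_
  rcases dl_cases o z with h' | h' | h'
  · omega
  · omega
  · exact h'.2.2

/-! ## The changes -/

/-- the vectors of the convolved changes at the start -/
def Tab.klvec (S : Tab) (g : List ℤ) (m c : ℕ) : List (List ℤ) :=
  (S.lops c).map fun l => tabD m (cv g l)

/-- the vectors of the convolved changes at the end -/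
def Tab.krvec (S : Tab) (g : List ℤ) (m c : ℕ) : List (List ℤ) :=
  (S.rops c 0).map fun r => tabD m (cv g r)

theorem lops_out {m c : ℕ} (hp : S.okPos m c = true) {l : ℤ → ℤ} (hl : l ∈ S.lops c) (y : ℤ)
    (hy : y < -(m : ℤ) - 1 ∨ (m : ℤ) < y) : l y = 0 := by
  simp only [Tab.okPos, List.all_eq_true, List.mem_range, Bool.and_eq_true, decide_eq_true_eq] at hp
  unfold Tab.lops at hl
  rw [List.mem_append, List.mem_map, List.mem_map] at hl
  rcases hl with ⟨k, hk, rfl⟩ | ⟨k, hk, rfl⟩
  · rw [List.mem_range] at hk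
    exact dls_out (fun j hj => by have := hp j (by omega); omega) y hy
  · rw [List.mem_range] at hk
    have := dls_out (p := fun j => S.posR c (j + 1)) (k := k + 1)
      (fun j hj => by have := hp (j + 1) (by omega); omega) y hy
    simp only
    rw [this, neg_zero]

theorem rops_out {m c : ℕ} (hp : S.okPos m c = true) {l : ℤ → ℤ} (hl : l ∈ S.rops c 0) (y : ℤ)
    (hy : y < -(m : ℤ) - 1 ∨ (m : ℤ) < y) : l y = 0 := by
  simp only [Tab.okPos, List.all_eq_true, List.mem_range, Bool.and_eq_true, decide_eq_true_eq] at hp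
  unfold Tab.rops at hl
  rw [List.mem_append, List.mem_map, List.mem_map] at hl
  rcases hl with ⟨k, hk, rfl⟩ | ⟨k, hk, rfl⟩
  · rw [List.mem_range] at hk
    exact dls_out (p := fun j => (0 : ℤ) + S.posR c j) (k := k)
      (fun j hj => by have := hp j (by omega); omega) y hy
  · rw [List.mem_range] at hk
    have := dls_out (p := fun j => (0 : ℤ) + S.posL c (j + 1)) (k := k + 1)
      (fun j hj => by have := hp (j + 1) (by omega); omega) y hy
    simp only
    rw [this, neg_zero]

/-- changes at the end, at the distance `d` -/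
theorem rops_shift {c : ℕ} {r : ℤ → ℤ} (hr : r ∈ S.rops c 0) (d : ℤ) :
    (fun y => r (y - d)) ∈ S.rops c d := by
  unfold Tab.rops at hr ⊢
  rw [List.mem_append, List.mem_map, List.mem_map] at hr
  rcases hr with ⟨k, hk, rfl⟩ | ⟨k, hk, rfl⟩
  · refine List.mem_append.2 (Or.inl (List.mem_map.2 ⟨k, hk, ?_⟩))
    funext y
    rw [dls_shift, dls_shift, sub_zero]
  · refine List.mem_append.2 (Or.inr (List.mem_map.2 ⟨k, hk, ?_⟩))
    funext y
    simp only
    rw [dls_shift (fun j => S.posL c (j + 1)) (k + 1) 0,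
      dls_shift (fun j => S.posL c (j + 1)) (k + 1) d, sub_zero]

theorem lops_of_kvec {mp m c : ℕ} (hm : mp + g.length ≤ m + 1) (hp : S.okPos mp c = true)
    {v : List ℤ} (hv : v ∈ S.klvec g m c) : ∃ l ∈ S.lops c, ∀ y, vf m v y = cv g l y := by
  unfold Tab.klvec at hv
  rw [List.mem_map] at hv
  obtain ⟨l, hl, rfl⟩ := hv
  exact ⟨l, hl, vf_tabD (cv_range hm (lops_out hp hl))⟩

theorem rops_of_kvec {mp m c : ℕ} (hm : mp + g.length ≤ m + 1) (hp : S.okPos mp c = true)
    {v : List ℤ} (hv : v ∈ S.krvec g m c) (d : ℤ) :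
    ∃ r ∈ S.rops c d, ∀ y, vf m v (y - d) = cv g r y := by
  unfold Tab.krvec at hv
  rw [List.mem_map] at hv
  obtain ⟨r, hr, rfl⟩ := hv
  refine ⟨_, rops_shift hr d, fun y => ?_⟩
  rw [vf_tabD (cv_range hm (rops_out hp hr)), cv_shift]

/-- **what is known about long windows, with vectors** -/
theorem klocV_of {pats : ℕ → ℕ → List Pat} {c c' mp m : ℕ} {d : ℤ} (h : KLoc S g pats c c' d D)
    (hm : mp + g.length ≤ m + 1) (hp : S.okPos mp c = true) (hp' : S.okPos mp c' = true)
    {lv rv : List (List ℤ)} (hl : ∀ v ∈ lv, v ∈ S.klvec g m c) (hr : ∀ v ∈ rv, v ∈ S.krvec g m c') :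
    LocV m lv rv (pats c c') d D where
  adm l hl' r hr' := by
    obtain ⟨l', h1, h2⟩ := lops_of_kvec hm hp (hl l hl')
    obtain ⟨r', h3, h4⟩ := rops_of_kvec hm hp' (hr r hr') d
    have := h.adm l' h1 r' h3
    simpa only [h2, h4] using this
  pat := h.pat

theorem length_klvec {m c : ℕ} {v : List ℤ} (h : v ∈ S.klvec g m c) : v.length = 2 * m + 2 := by
  unfold Tab.klvec at h
  rw [List.mem_map] at h
  obtain ⟨f, -, rfl⟩ := h
  simp [tabD]

theorem length_krvec {m c : ℕ} {v : List ℤ} (h : v ∈ S.krvec g m c) : v.length = 2 * m + 2 := by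
  unfold Tab.krvec at h
  rw [List.mem_map] at h
  obtain ⟨f, -, rfl⟩ := h
  simp [tabD]

/-! ## Noise vectors -/

/-- `NB c` lists the convolved differences of the first `j` letters of a block, `NA c` those of the
letters from the letter `i` on, `i, j = 0, ..., L`; vectors on the edges `n0, ..., n0 + len - 1` -/
def Tab.kokNz (S : Tab) (g : List ℤ) (n0 : ℤ) (len : ℕ) (NA NB : ℕ → List (List ℤ)) (c : ℕ) :
    Bool :=
  ((List.range (S.L + 1)).all fun j => Nat.beq ((NB c).getD j []).length len) &&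
  ((List.range len).all fun k => zeB (((NB c).getD 0 []).getD k 0)) &&
  ((List.range S.L).all fun j =>
    !negB (S.off c j - 1 - n0) && !negB (n0 + len - (S.off c j + g.length)) &&
    (List.range len).all fun k => zeB (((NB c).getD j []).getD k 0 + prof g (S.off c j) (n0 + k) -
      ((NB c).getD (j + 1) []).getD k 0)) &&
  ((List.range (S.L + 1)).all fun i => Nat.beq ((NA c).getD i []).length len &&
    (List.range len).all fun k => zeB (((NA c).getD i []).getD k 0 +
      ((NB c).getD i []).getD k 0 - ((NB c).getD S.L []).getD k 0))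

/-- the noise vectors of the letters -/
structure KNzOK (S : Tab) (K : Ker) (n0 : ℤ) (NA NB : ℕ → List (List ℤ)) : Prop where
  a : ∀ c < S.T, ∀ i ≤ S.L, ∀ y, nz n0 ((NA c).getD i []) y = S.kpre K c S.L y - S.kpre K c i y
  b : ∀ c < S.T, ∀ j ≤ S.L, ∀ y, nz n0 ((NB c).getD j []) y = S.kpre K c j y

theorem kpre_zero (c : ℕ) (y : ℤ) : S.kpre K c 0 y = 0 := by
  unfold Tab.kpre
  rw [cv_congr K.g (fun z => Tab.part_self c 0 z)]
  exact cv_zero _ _

theorem kpre_succ (c j : ℕ) (y : ℤ) :
    S.kpre K c (j + 1) y = S.kpre K c j y + prof K.g (S.off c j) y := by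
  unfold Tab.kpre prof
  rw [← cv_add]
  exact cv_congr K.g (fun z => Tab.part_succ c (Nat.zero_le j) z) y

theorem knzOK_of {n0 : ℤ} {len : ℕ} {NA NB : ℕ → List (List ℤ)}
    (h : ∀ c < S.T, S.kokNz K.g n0 len NA NB c = true) : KNzOK S K n0 NA NB := by
  have hb : ∀ c < S.T, ∀ j ≤ S.L, ∀ y, nz n0 ((NB c).getD j []) y = S.kpre K c j y := by
    intro c hc
    have h1 := h c hc
    simp only [Tab.kokNz, Bool.and_eq_true, List.all_eq_true, List.mem_range, Nat.beq_eq,
      Bool.not_eq_true', zeB_iff] at h1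
    obtain ⟨⟨⟨h1, h2⟩, h3⟩, -⟩ := h1
    intro j
    induction j with
    | zero =>
      intro _ y
      rw [kpre_zero]
      rcases lt_or_ge y n0 with h4 | h4
      · exact nz_out (Or.inl h4)
      · rcases lt_or_ge y (n0 + len) with h5 | h5
        · rw [nz_in h4]
          exact h2 _ (by omega)
        · exact nz_out (Or.inr (by rw [h1 0 (by omega)]; exact h5))
    | succ j ih =>
      intro hj y
      rw [kpre_succ, ← ih (by omega)]
      obtain ⟨⟨h4, h5⟩, h6⟩ := h3 j (by omega)
      have h4 := negB_false h4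
      have h5 := negB_false h5
      rcases lt_or_ge y n0 with h7 | h7
      · rw [nz_out (Or.inl h7), nz_out (Or.inl h7), prof_out (Or.inl (by omega)), add_zero]
      · rcases lt_or_ge y (n0 + len) with h8 | h8
        · rw [nz_in h7, nz_in h7]
          have := h6 (y - n0).toNat (by omega)
          rw [show n0 + ((y - n0).toNat : ℤ) = y by omega] at this
          omega
        · rw [nz_out (Or.inr (by rw [h1 (j + 1) (by omega)]; exact h8)),
            nz_out (Or.inr (by rw [h1 j (by omega)]; exact h8)), prof_out (Or.inr (by omega)),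
            add_zero]
  refine ⟨fun c hc i hi y => ?_, fun c hc j hj => hb c hc j hj⟩
  have h1 := h c hc
  simp only [Tab.kokNz, Bool.and_eq_true, List.all_eq_true, List.mem_range, Nat.beq_eq,
    Bool.not_eq_true', zeB_iff] at h1
  obtain ⟨⟨⟨h1, -⟩, -⟩, h2⟩ := h1
  obtain ⟨h3, h4⟩ := h2 i (by omega)
  rw [← hb c hc i hi, ← hb c hc S.L le_rfl]
  rcases lt_or_ge y n0 with h7 | h7
  · rw [nz_out (Or.inl h7), nz_out (Or.inl h7), nz_out (Or.inl h7), sub_zero]
  · rcases lt_or_ge y (n0 + len) with h8 | h8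
    · rw [nz_in h7, nz_in h7, nz_in h7]
      have := h4 (y - n0).toNat (by omega)
      omega
    · rw [nz_out (Or.inr (by rw [h3]; exact h8)),
        nz_out (Or.inr (by rw [h1 S.L (by omega)]; exact h8)),
        nz_out (Or.inr (by rw [h1 i (by omega)]; exact h8)), sub_zero]

theorem kokNz_na {n0 : ℤ} {len : ℕ} {NA NB : ℕ → List (List ℤ)} {c : ℕ}
    (h : S.kokNz g n0 len NA NB c = true) {i : ℕ} (hi : i ≤ S.L) :
    ((NA c).getD i []).length = len := by
  simp only [Tab.kokNz, Bool.and_eq_true, List.all_eq_true, List.mem_range, Nat.beq_eq] at h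
  exact (h.2 i (by omega)).1

theorem kokNz_nb {n0 : ℤ} {len : ℕ} {NA NB : ℕ → List (List ℤ)} {c : ℕ}
    (h : S.kokNz g n0 len NA NB c = true) {i : ℕ} (hi : i ≤ S.L) :
    ((NB c).getD i []).length = len := by
  simp only [Tab.kokNz, Bool.and_eq_true, List.all_eq_true, List.mem_range, Nat.beq_eq] at h
  exact h.1.1.1 i (by omega)

/-! ## The kernel -/

/-- the convolved differences of the letter `0`, at the edges `-1, ..., g.length - 1` -/
def profL (g : List ℤ) : List ℤ := (List.range (g.length + 1)).map fun k : ℕ => prof g 0 (k - 1)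

/-- the values are in `{-1, 0, 1}`, and unimodal -/
def okKer (g : List ℤ) : Bool :=
  (List.range (g.length + 1)).all fun k : ℕ =>
    decide (-1 ≤ prof g 0 (k - 1)) && decide (prof g 0 (k - 1) ≤ 1) &&
    (List.range (g.length + 1)).all fun k' : ℕ =>
      decide (k' ≤ k) || decide (0 ≤ prof g 0 (k - 1)) || decide (prof g 0 (k' - 1) ≤ 0)

theorem oker_of (h : okKer g = true) : OKer g := by
  simp only [okKer, List.all_eq_true, List.mem_range, Bool.and_eq_true, Bool.or_eq_true,
    decide_eq_true_eq] at h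
  have h0 : ∀ y, prof g 0 y ≠ 0 → ∃ k : ℕ, k < g.length + 1 ∧ y = k - 1 := fun y hy => by
    refine ⟨(y + 1).toNat, ?_, ?_⟩ <;>
    · by_contra hc
      exact hy (prof_out (by omega))
  refine ⟨fun y => ?_, fun y => ?_, fun x y hxy hx hy => ?_⟩
  · by_cases hy : prof g 0 y = 0
    · omega
    · obtain ⟨k, hk, rfl⟩ := h0 y hy
      exact (h k hk).1.1
  · by_cases hy : prof g 0 y = 0
    · omega
    · obtain ⟨k, hk, rfl⟩ := h0 y hy
      exact (h k hk).1.2
  · obtain ⟨k, hk, rfl⟩ := h0 x (by omega)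
    obtain ⟨k', hk', rfl⟩ := h0 y (by omega)
    rcases (h k hk).2 k' hk' with (h1 | h1) | h1 <;> omega

end LWG
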