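import Pool.Agent.LWG.Pat

/-!
# Patterns with inequalities

A pattern `PatE` lists entries `En` (exact values, lower and upper bounds) at consecutive edges.

* `satA_shift`, `satA_congr`;
* `PatE.mr`, **`satA_mir`**: mirror images;
* `En.imp`, `occEn`, `hitsE`: a forbidden pattern is implied by what is known.
-/

set_option autoImplicit false

namespace LWG

open LevelWords (Uni)

/-- forbidden entries `v` at the edges `e, e + 1, ...` relative to the first letter, if the distance
of the two letters is `d` -/
structure PatE where
  d : ℤ
  e : ℤ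
  v : List En

variable {D : ℤ → ℤ}

theorem satA_shift {F : ℤ → ℤ} {a : ℤ} : ∀ (v : List En) (e : ℤ), SatA (fun y => F (a + y)) e v →
    SatA F (a + e) v
  | [], _, _ => trivial
  | _ :: v, e, h => ⟨h.1, by
      have := satA_shift v (e + 1) h.2
      rwa [← add_assoc] at this⟩

theorem satA_unshift {F : ℤ → ℤ} {a : ℤ} : ∀ (v : List En) (e : ℤ), SatA F (a + e) v →
    SatA (fun y => F (a + y)) e v
  | [], _, _ => trivial
  | _ :: v, e, h => ⟨h.1, satA_unshift v (e + 1) (by
      have := h.2
      rwa [add_assoc] at this)⟩

theorem satA_congr {F G : ℤ → ℤ} (h : ∀ y, F y = G y) : ∀ (v : List En) (e : ℤ), SatA F e v →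
    SatA G e v
  | [], _, _ => trivial
  | _ :: v, e, h' => ⟨by have := h'.1; rwa [h] at this, satA_congr h v (e + 1) h'.2⟩

/-- mirror image of a pattern -/
def PatE.mr (P : PatE) : PatE := ⟨-P.d, -P.e - P.v.length, P.v.reverse.map En.mr⟩

theorem En.sat_of_mr {e : En} {x : ℤ} (h : e.mr.Sat x) : e.Sat (-x) := by
  rcases e with n | n | n | _
  · have h : x = -n := h
    change -x = n
    omega
  · have h : x ≤ -n := h
    change n ≤ -x
    omega
  · have h : -n ≤ x := h
    change -x ≤ n
    omega
  · trivial

theorem En.mr_mr (e : En) : e.mr.mr = e := by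
  rcases e with n | n | n | _ <;> simp [En.mr]

/-- a mirror image occurs in the mirror image -/
theorem satA_mir : ∀ (v : List En) (e : ℤ), SatA (mir D) (-e - v.length) (v.reverse.map En.mr) →
    SatA D e v
  | [], _, _ => trivial
  | a :: v, e, h => by
    rw [List.reverse_cons, List.map_append, satA_append] at h
    obtain ⟨h1, h2, -⟩ := h
    rw [List.length_map, List.length_reverse, List.length_cons] at h2
    refine ⟨?_, satA_mir v (e + 1) ?_⟩
    · have h3 := En.sat_of_mr h2
      unfold mir at h3
      rwa [show -1 - (-e - ((v.length + 1 : ℕ) : ℤ) + v.length) = e by push_cast; ring,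
        neg_neg] at h3
    · rwa [List.length_cons, show -e - ((v.length + 1 : ℕ) : ℤ) = -(e + 1) - v.length by
        push_cast; ring] at h1

/-- the converse -/
theorem satA_mir' : ∀ (v : List En) (e : ℤ), SatA D e v →
    SatA (mir D) (-e - v.length) (v.reverse.map En.mr)
  | [], _, _ => trivial
  | a :: v, e, h => by
    rw [List.reverse_cons, List.map_append, satA_append]
    refine ⟨?_, ?_, trivial⟩
    · have := satA_mir' v (e + 1) h.2
      rwa [List.length_cons, show -e - ((v.length + 1 : ℕ) : ℤ) = -(e + 1) - v.length by
        push_cast; ring]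
    · rw [List.length_map, List.length_reverse, List.length_cons]
      refine En.mr_sat ?_
      unfold mir
      rw [show -1 - (-e - ((v.length + 1 : ℕ) : ℤ) + v.length) = e by push_cast; ring, neg_neg]
      exact h.1

/-! ## Hits -/

/-- the pattern entry `p` follows from the known entry -/
def En.imp : En → En → Bool
  | .ex n, .ex k => zeB (k - n)
  | .ex n, .ge k => !negB (n - k)
  | .ge n, .ge k => !negB (n - k)
  | .ex n, .le k => !posB (n - k)
  | .le n, .le k => !posB (n - k)
  | _, .un => true
  | _, _ => false

theorem posB_false {x : ℤ} (h : posB x = false) : x ≤ 0 := by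
  by_contra hc
  rw [posB_iff.2 (by omega)] at h
  simp at h

theorem En.imp_sound {a p : En} {x : ℤ} (h : a.Sat x) (hi : a.imp p = true) : p.Sat x := by
  rcases p with k | k | k | _
  · rcases a with n | n | n | _
    · have h : x = n := h
      have := zeB_iff.1 hi
      change x = k
      omega
    all_goals simp [En.imp] at hi
  · rcases a with n | n | n | _
    · have h : x = n := h
      have := negB_false (Bool.not_eq_true' _ ▸ hi)
      change k ≤ x
      omega
    · have h : n ≤ x := h
      have := negB_false (Bool.not_eq_true' _ ▸ hi)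
      change k ≤ x
      omega
    all_goals simp [En.imp] at hi
  · rcases a with n | n | n | _
    · have h : x = n := h
      have := posB_false (Bool.not_eq_true' _ ▸ hi)
      change x ≤ k
      omega
    · simp [En.imp] at hi
    · have h : x ≤ n := h
      have := posB_false (Bool.not_eq_true' _ ▸ hi)
      change x ≤ k
      omega
    · simp [En.imp] at hi
  · trivial

/-- the pattern `v` follows from the known entries, at the start of the list -/
def occEn : List En → List En → Bool
  | [], _ => true
  | p :: vs, a :: es => a.imp p && occEn vs es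
  | _ :: _, [] => false

theorem occEn_sound : ∀ (v es : List En) (x : ℤ), SatA D x es → occEn v es = true → SatA D x v
  | [], _, _, _, _ => trivial
  | p :: vs, [], x, _, h => by simp [occEn] at h
  | p :: vs, a :: es, x, hs, h => by
    simp only [occEn, Bool.and_eq_true] at h
    exact ⟨En.imp_sound hs.1 h.1, occEn_sound vs es (x + 1) hs.2 h.2⟩

/-- a forbidden pattern occurs in the entries `asc` at the edges `x, x + 1, ...` -/
def hitAE (ps : List PatE) (d x : ℤ) (asc : List En) : Bool :=
  ps.any fun P => zeB (P.d - d) &&
    match P.e - x with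
    | .ofNat n => occEn P.v (asc.drop n)
    | .negSucc _ => false

def hitsE (ps : List PatE) (d I : ℤ) (vec : List En) : Bool :=
  hitAE ps d (I - vec.length + 1) vec.reverse

/-- What is known about the differences: `LocV` with patterns `PatE`. -/
structure LocE (m : ℤ) (lv rv : List (List ℤ)) (ps : List PatE) (d : ℤ) (D : ℤ → ℤ) : Prop where
  base : LocV m lv rv [] d D
  pat : ∀ P ∈ ps, P.d = d → ¬ SatA D P.e P.v

variable {m : ℤ} {lv rv : List (List ℤ)} {ps : List PatE} {d : ℤ}

theorem LocE.hits (h : LocE m lv rv ps d D) {I : ℤ} {vec : List En} (hv : SatD D I vec)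
    (hi : hitsE ps d I vec = true) : False := by
  have hA := satD_reverse vec I hv
  unfold hitsE hitAE at hi
  simp only [List.any_eq_true, Bool.and_eq_true, zeB_iff] at hi
  obtain ⟨P, hP, hd, hi⟩ := hi
  rcases hx : P.e - (I - vec.length + 1) with n | n
  · rw [hx] at hi
    have hx' : P.e - (I - vec.length + 1) = (n : ℤ) := hx
    have h1 := satA_drop n hA
    rw [show I - (vec.length : ℤ) + 1 + n = P.e by omega] at h1
    exact h.pat P hP (by omega) (occEn_sound _ _ _ h1 hi)
  · rw [hx] at hi
    simp at hi

/-- the leaf: contradiction -/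
def leafE (m : ℤ) (lv rv : List (List ℤ)) (ps : List PatE) (d I : ℤ) (vec : List En) : Bool :=
  inadm m lv rv d I vec || hitsE ps d I vec

theorem LocE.leaf (h : LocE m lv rv ps d D) (I : ℤ) (vec : List En) (hv : SatD D I vec)
    (hi : leafE m lv rv ps d I vec = true) : False := by
  unfold leafE at hi
  rw [Bool.or_eq_true] at hi
  exact hi.elim (h.base.inadm hv) (h.hits hv)

/-- the leaf, if there is a positive value at an edge `≥ x` -/
def leafFE (m : ℤ) (lv rv : List (List ℤ)) (ps : List PatE) (d x I : ℤ) (vec : List En) : Bool :=
  far m lv rv d x I vec || leafE m lv rv ps d I vec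

theorem LocE.leafF (h : LocE m lv rv ps d D) {x : ℤ} (hx : ∃ z, x ≤ z ∧ 0 < D z) (I : ℤ)
    (vec : List En) (hv : SatD D I vec) (hi : leafFE m lv rv ps d x I vec = true) : False := by
  unfold leafFE at hi
  rw [Bool.or_eq_true] at hi
  exact hi.elim (h.base.far hv hx) (h.leaf I vec hv)

end LWG
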