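import Pool.Agent.LWG.KCloseP
import Pool.Agent.LWG.KVec
import Pool.Agent.LWG.PatE

/-!
# Substitution words with a kernel, patterns with inequalities: the invariant is preserved

As `LWG.KClose` and `LWG.KCloseP`, with forbidden patterns `PatE`.

* `KLocE`, `KGoodE`, `NoKEE`, **`KGoodE.loc`**, **`KLocE.locE`**;
* **`kgood_subE`**: the invariant is preserved, two tables;
* **`kgood_iterE`**: the iterates.
-/

set_option autoImplicit false

namespace LWG

open LevelWords

/-- What is known about the convolved differences strictly between two letters of the types `c`,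
`c'` at the distance `d`, if there are at least `2 m` letters between them. -/
structure KLocE (S : Tab) (g : List ℤ) (pats : ℕ → ℕ → List PatE) (c c' : ℕ) (d : ℤ) (D : ℤ → ℤ) :
    Prop where
  base : KLoc S g (fun _ _ => []) c c' d D
  pat : ∀ P ∈ pats c c', P.d = d → ¬ SatA D P.e P.v

/-- The invariant. -/
structure KGoodE (S : Tab) (g : List ℤ) (pats : ℕ → ℕ → List PatE) (W : ℤ → ℤ) (ty : ℤ → ℕ) :
    Prop where
  path : S.Path W ty
  uni : ∀ a b, a ≤ b → Uni (cv g (E W a b))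
  pat : ∀ s t, s < t → ∀ P ∈ pats (ty s) (ty t), P.d = W t - W s → ¬ SatA (kLw g W s t) P.e P.v

/-- No minimal violation and no forbidden pattern between two letters of the types `c`, `c'`, at the
positions `A`, `B`; `Fi`, `F` are the convolved differences with both letters, and strictly
between. -/
structure NoKEE (g : List ℤ) (pats : ℕ → ℕ → List PatE) (c c' : ℕ) (A B : ℤ) (Fi F : ℤ → ℤ) :
    Prop where
  ev : ¬ KEv g A B Fi
  pat : ∀ P ∈ pats c c', P.d = B - A → ¬ SatA F (A + P.e) P.v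

theorem KGoodE.base {S : Tab} {g : List ℤ} {pats : ℕ → ℕ → List PatE} {W : ℤ → ℤ} {ty : ℤ → ℕ}
    (h : KGoodE S g pats W ty) : KGood S g (fun _ _ => []) W ty :=
  ⟨h.path, h.uni, fun _ _ _ _ hP => absurd hP List.not_mem_nil⟩

/-- **long windows of a good word** -/
theorem KGoodE.loc {S : Tab} {g : List ℤ} {pats : ℕ → ℕ → List PatE} {W : ℤ → ℤ} {ty : ℤ → ℕ}
    (h : KGoodE S g pats W ty) {s e : ℤ} (hse : s + 2 * S.m + 1 ≤ e) :
    KLocE S g pats (ty s) (ty e) (W e - W s) (kLw g W s e) :=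
  ⟨h.base.loc hse, fun P hP hd => h.pat s e (by omega) P hP hd⟩

/-- **what is known about long windows, with vectors** -/
theorem KLocE.locE {S : Tab} {g : List ℤ} {D : ℤ → ℤ} {pats : ℕ → ℕ → List PatE} {c c' mp m : ℕ}
    {d : ℤ} (h : KLocE S g pats c c' d D) (hm : mp + g.length ≤ m + 1)
    (hp : S.okPos mp c = true) (hp' : S.okPos mp c' = true) {lv rv : List (List ℤ)}
    (hl : ∀ v ∈ lv, v ∈ S.klvec g m c) (hr : ∀ v ∈ rv, v ∈ S.krvec g m c') :
    LocE m lv rv (pats c c') d D :=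
  ⟨klocV_of h.base hm hp hp' hl hr, h.pat⟩

section close

variable {S S' : Tab} {K : Ker} {pats pats' : ℕ → ℕ → List PatE}

/-- **the invariant is preserved**, child types of another table -/
theorem kgood_subE (hO : OKP S S') (H : KId S K) (hk : OKer K.g)
    (hB : ∀ c < S.T, ∀ i j, i < j → j < S.L →
      NoKEE K.g pats' (S.chd c i) (S.chd c j) (S.off c i) (S.off c j)
        (fun y => S.kpre K c (j + 1) y - S.kpre K c i y)
        (fun y => S.kpre K c j y - S.kpre K c (i + 1) y))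
    (hS : ∀ W ty, S.Path W ty → ∀ s e : ℤ, s < e → e ≤ s + 2 * S.m → ∀ i < S.L, ∀ j < S.L,
      NoKEE K.g pats' (S.chd (ty s) i) (S.chd (ty e) j) (S.off (ty s) i)
        (S.b * (W e - W s) + S.off (ty e) j)
        (S.kFn K (ty s) i (ty e) (j + 1) (W e - W s) (kLw K.g W s e))
        (S.kFn K (ty s) (i + 1) (ty e) j (W e - W s) (kLw K.g W s e)))
    (hN : ∀ c < S.T, ∀ c' < S.T, ∀ d D, KLocE S K.g pats c c' d D → ∀ i < S.L, ∀ j < S.L,
      NoKEE K.g pats' (S.chd c i) (S.chd c' j) (S.off c i) (S.b * d + S.off c' j)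
        (S.kFn K c i c' (j + 1) d D) (S.kFn K c (i + 1) c' j d D))
    {W : ℤ → ℤ} {ty : ℤ → ℕ} (h : KGoodE S K.g pats W ty) :
    KGoodE S' K.g pats' (S.subW W ty) (S.subT ty) := by
  have key : ∀ s' e' : ℤ, s' < e' → ∃ (a A B : ℤ) (Fi F : ℤ → ℤ),
      S.subW W ty s' = a + A ∧ S.subW W ty e' = a + B ∧
      (∀ y, cv K.g (E (S.subW W ty) s' (e' + 1)) (a + y) = Fi y) ∧
      (∀ y, cv K.g (E (S.subW W ty) (s' + 1) e') (a + y) = F y) ∧
      NoKEE K.g pats' (S.subT ty s') (S.subT ty e') A B Fi F := by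
    intro s' e' hse'
    obtain ⟨s, i, hi, rfl⟩ := Tab.exists_pr hO.L0 s'
    obtain ⟨e, j, hj, rfl⟩ := Tab.exists_pr hO.L0 e'
    have hL0 : (0 : ℤ) < S.L := by exact_mod_cast hO.L0
    have hse : s ≤ e := by
      by_contra hc
      have h1 : e + 1 ≤ s := by omega
      have h2 : (S.L : ℤ) * (e + 1) ≤ S.L * s := mul_le_mul_of_nonneg_left h1 hL0.le
      have h3 : (S.L : ℤ) * (e + 1) = S.L * e + S.L := by ring
      omega
    have c1 : (S.L * s + i + 1 : ℤ) = S.L * s + ((i + 1 : ℕ) : ℤ) := by push_cast; ring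
    have c2 : (S.L * e + j + 1 : ℤ) = S.L * e + ((j + 1 : ℕ) : ℤ) := by push_cast; ring
    rw [Tab.subT_eq ty s hi, Tab.subT_eq ty e hj]
    rcases eq_or_lt_of_le hse with h1 | h1
    · subst h1
      have hij : i < j := by omega
      refine ⟨S.b * W s, S.off (ty s) i, S.off (ty s) j, _, _, Tab.subW_eq W ty s hi,
        Tab.subW_eq W ty s hj, fun y => ?_, fun y => ?_, hB _ (h.path.lt s) i j hij hj⟩
      · rw [c2, Tab.window_same s y hi.le (show j + 1 ≤ S.L from hj)]
      · rw [c1, Tab.window_same s y (show i + 1 ≤ S.L from hi) hj.le]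
    · refine ⟨S.b * W s, S.off (ty s) i, S.b * (W e - W s) + S.off (ty e) j,
        S.kFn K (ty s) i (ty e) (j + 1) (W e - W s) (kLw K.g W s e),
        S.kFn K (ty s) (i + 1) (ty e) j (W e - W s) (kLw K.g W s e), Tab.subW_eq W ty s hi, ?_,
        fun y => ?_, fun y => ?_, ?_⟩
      · rw [Tab.subW_eq W ty e hj]
        ring
      · rw [c2, H.kwindow h.path.lt h1 y hi.le (show j + 1 ≤ S.L from hj)]
      · rw [c1, H.kwindow h.path.lt h1 y (show i + 1 ≤ S.L from hi) hj.le]
      · rcases le_or_gt e (s + 2 * S.m) with h2 | h2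
        · exact hS W ty h.path s e h1 h2 i hi j hj
        · exact hN _ (h.path.lt s) _ (h.path.lt e) _ _ (h.loc (by omega)) i hi j hj
  refine ⟨hO.path h.path, ?_, ?_⟩
  · intro a b hab
    refine kuni_all hk (fun s e hse hE => ?_) (b - a).toNat a b (by omega)
    obtain ⟨a, A, B, Fi, F, h1, h2, h3, -, h5⟩ := key s e hse
    rw [h1, h2] at hE
    refine h5.ev ?_
    rw [show Fi = fun y => cv K.g (E (S.subW W ty) s (e + 1)) (a + y) from
      funext fun y => (h3 y).symm]
    exact kev_shift hE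
  · intro s e hse P hP hd hA
    obtain ⟨a, A, B, Fi, F, h1, h2, -, h4, h5⟩ := key s e hse
    refine h5.pat P hP (by rw [hd, h1, h2]; ring) (satA_shift _ _ ?_)
    have h6 : (fun y => F (A + y)) = kLw K.g (S.subW W ty) s e := by
      funext y
      unfold kLw
      rw [h1, add_assoc, h4]
    rwa [h6]

/-- the iterates, several tables in turn -/
theorem kgood_iterE {S : ℕ → Tab} {pats : ℕ → ℕ → ℕ → List PatE} {W : ℤ → ℤ} {ty : ℤ → ℕ}
    {g : List ℤ} (hs : ∀ k W ty, KGoodE (S k) g (pats k) W ty →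
      KGoodE (S (k + 1)) g (pats (k + 1)) ((S k).subW W ty) ((S k).subT ty))
    (h : KGoodE (S 0) g (pats 0) W ty) :
    ∀ k, KGoodE (S k) g (pats k) (iterP S W ty k).1 (iterP S W ty k).2
  | 0 => h
  | k + 1 => hs _ _ _ (kgood_iterE hs h k)

/-- the iterates, one table -/
theorem kgood_iterE1 {W : ℤ → ℤ} {ty : ℤ → ℕ} {g : List ℤ}
    (hs : ∀ W ty, KGoodE S g pats W ty → KGoodE S g pats (S.subW W ty) (S.subT ty))
    (h : KGoodE S g pats W ty) : ∀ k, KGoodE S g pats (iterW S W ty k).1 (iterW S W ty k).2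
  | 0 => h
  | k + 1 => hs _ _ (kgood_iterE1 hs h k)

end close

end LWG
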