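import Pool.Agent.LWG.KCloseE

/-!
# Substitution words with a kernel: all windows inside the word of one letter

As `LWG.KCloseE`, for tables without steps (`S.m = 0`: nothing is known about the neighbours of a
letter; the changes of a window are the two letters at its ends) and for finite words: only windows
inside `[0, N)` are considered. Several tables in turn.

* `KGoodI`, **`KGoodI.loc`**, `kuni_allI`;
* **`kgood_subI`**: the invariant is preserved, `N` becomes `L * N`;
* `kgood_one`: one letter; `lenP`, **`kgood_iterI`**: the iterates.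
-/

set_option autoImplicit false

namespace LWG

open LevelWords

/-- The invariant of a word of `N` letters. -/
structure KGoodI (S : Tab) (g : List ℤ) (pats : ℕ → ℕ → List PatE) (N : ℤ) (W : ℤ → ℤ)
    (ty : ℤ → ℕ) : Prop where
  lt : ∀ t, ty t < S.T
  uni : ∀ a b, 0 ≤ a → a ≤ b → b ≤ N → Uni (cv g (E W a b))
  pat : ∀ s t, 0 ≤ s → s < t → t < N → ∀ P ∈ pats (ty s) (ty t), P.d = W t - W s →
    ¬ SatA (kLw g W s t) P.e P.v

/-- **all windows** -/
theorem KGoodI.loc {S : Tab} {g : List ℤ} {pats : ℕ → ℕ → List PatE} {N : ℤ} {W : ℤ → ℤ}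
    {ty : ℤ → ℕ} (h : KGoodI S g pats N W ty) (hm : S.m = 0) {s e : ℤ} (hs : 0 ≤ s) (hse : s < e)
    (he : e < N) : KLocE S g pats (ty s) (ty e) (W e - W s) (kLw g W s e) := by
  refine ⟨⟨fun l hl r hr => ?_, fun _ hP => absurd hP List.not_mem_nil⟩,
    fun P hP hd => h.pat s e hs hse he P hP hd⟩
  have hL : ∃ a, 0 ≤ a ∧ a ≤ s + 1 ∧ ∀ b y, E W a b (W s + y) = E W (s + 1) b (W s + y) + l y := by
    unfold Tab.lops at hl
    rw [hm, List.range_zero, List.map_nil, List.append_nil, List.mem_map] at hl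
    obtain ⟨k, hk, rfl⟩ := hl
    rw [List.mem_range] at hk
    rcases k with _ | _ | k
    · exact ⟨s + 1, by omega, le_rfl, fun b y => by rw [dls_zero, add_zero]⟩
    · refine ⟨s, hs, by omega, fun b y => ?_⟩
      rw [E_left, dls_succ, dls_zero]
      have := dl_at (W s) 0 y
      rw [add_zero] at this
      rw [this]
      change _ = _ + (0 + dl 0 y)
      ring
    · omega
  have hR : ∃ b, e ≤ b ∧ b ≤ N ∧ ∀ a y, E W a b (W s + y) = E W a e (W s + y) + r y := by
    unfold Tab.rops at hr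
    rw [hm, List.range_zero, List.map_nil, List.append_nil, List.mem_map] at hr
    obtain ⟨k, hk, rfl⟩ := hr
    rw [List.mem_range] at hk
    rcases k with _ | _ | k
    · exact ⟨e, le_rfl, by omega, fun a y => by rw [dls_zero, add_zero]⟩
    · refine ⟨e + 1, by omega, by omega, fun a y => ?_⟩
      rw [E_right, dls_succ, dls_zero]
      have := dl_at (W s) (W e - W s) y
      rw [show W s + (W e - W s) = W e by ring] at this
      rw [this]
      change _ = _ + (0 + dl (W e - W s + 0) y)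
      rw [add_zero]
      ring
    · omega
  obtain ⟨a, ha0, ha, hL⟩ := hL
  obtain ⟨b, hb, hb0, hR⟩ := hR
  have hU := h.uni a b ha0 (by omega) hb0
  have hc : ∀ y, cv g (E W a b) (W s + y) = kLw g W s e y + (cv g l y + cv g r y) := fun y => by
    unfold kLw
    rw [cv_at, cv_at, ← cv_add, ← cv_add]
    refine cv_congr g (fun z => ?_) y
    rw [hR, hL]
    ring
  intro x y hxy
  have := hU (W s + x) (W s + y) (by omega)
  rw [hc, hc] at this
  exact this

/-- **all windows in `[0, N)` are unimodal, if there is no minimal violation** -/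
theorem kuni_allI {g : List ℤ} (K : OKer g) {W : ℤ → ℤ} {N : ℤ}
    (h : ∀ s e, 0 ≤ s → s < e → e < N → ¬ KEv g (W s) (W e) (cv g (E W s (e + 1)))) :
    ∀ (n : ℕ) (a b : ℤ), b - a = n → 0 ≤ a → b ≤ N → Uni (cv g (E W a b)) := by
  intro n
  induction n using Nat.strong_induction_on with
  | _ n ih =>
  intro a b hab ha hb x y hxy hx hy
  rcases n with _ | _ | n
  · have : b = a := by omega
    subst this
    have h0 : cv g (E W b b) x = 0 := by
      rw [cv_congr g (fun z => E_self W b z)]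
      exact cv_zero g x
    omega
  · have hb : b = a + 1 := by omega
    subst hb
    have h0 : ∀ z, cv g (E W (a + 1) (a + 1)) z = 0 := fun z => by
      rw [cv_congr g (fun z => E_self W (a + 1) z)]
      exact cv_zero g z
    rw [cv_E_left, h0, prof_eq] at hx hy
    exact K.uni (x - W a) (y - W a) (by omega) (by simpa using hx) (by simpa using hy)
  · obtain ⟨e, rfl⟩ : ∃ e, b = e + 1 := ⟨b - 1, by omega⟩
    obtain ⟨x', y', -, h1, -, h2, h3, h4⟩ :=
      exists_close (y - x).toNat (by omega) hxy hx hy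
    have kA := ih (n + 1) (by omega) (a + 1) (e + 1) (by omega) (by omega) hb
    have kB := ih (n + 1) (by omega) a e (by omega) ha (by omega)
    refine h a e ha (by omega) (by omega) ⟨x', y', h1, h2, h3, h4, ?_, ?_⟩
    · exact K.cases kA (fun z => cv_E_left W a (e + 1) z) h1 h2 h3
    · exact K.cases kB (fun z => cv_E_right W a e z) h1 h2 h3

section close

variable {S S' : Tab} {K : Ker} {pats pats' : ℕ → ℕ → List PatE}

/-- **the invariant is preserved** -/
theorem kgood_subI (hL : 0 < S.L) (hm : S.m = 0) (hchd : ∀ c < S.T, ∀ r < S.L, S.chd c r < S'.T)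
    (H : KId S K) (hk : OKer K.g)
    (hB : ∀ c < S.T, ∀ i j, i < j → j < S.L →
      NoKEE K.g pats' (S.chd c i) (S.chd c j) (S.off c i) (S.off c j)
        (fun y => S.kpre K c (j + 1) y - S.kpre K c i y)
        (fun y => S.kpre K c j y - S.kpre K c (i + 1) y))
    (hN : ∀ c < S.T, ∀ c' < S.T, ∀ d D, KLocE S K.g pats c c' d D → ∀ i < S.L, ∀ j < S.L,
      NoKEE K.g pats' (S.chd c i) (S.chd c' j) (S.off c i) (S.b * d + S.off c' j)
        (S.kFn K c i c' (j + 1) d D) (S.kFn K c (i + 1) c' j d D))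
    {N : ℤ} {W : ℤ → ℤ} {ty : ℤ → ℕ} (h : KGoodI S K.g pats N W ty) :
    KGoodI S' K.g pats' (S.L * N) (S.subW W ty) (S.subT ty) := by
  have key : ∀ s' e' : ℤ, 0 ≤ s' → s' < e' → e' < S.L * N → ∃ (a A B : ℤ) (Fi F : ℤ → ℤ),
      S.subW W ty s' = a + A ∧ S.subW W ty e' = a + B ∧
      (∀ y, cv K.g (E (S.subW W ty) s' (e' + 1)) (a + y) = Fi y) ∧
      (∀ y, cv K.g (E (S.subW W ty) (s' + 1) e') (a + y) = F y) ∧
      NoKEE K.g pats' (S.subT ty s') (S.subT ty e') A B Fi F := by
    intro s' e' hs' hse' he'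
    obtain ⟨s, i, hi, rfl⟩ := Tab.exists_pr hL s'
    obtain ⟨e, j, hj, rfl⟩ := Tab.exists_pr hL e'
    have hL0 : (0 : ℤ) < S.L := by exact_mod_cast hL
    have hse : s ≤ e := by
      by_contra hc
      have h1 : e + 1 ≤ s := by omega
      have h2 : (S.L : ℤ) * (e + 1) ≤ S.L * s := mul_le_mul_of_nonneg_left h1 hL0.le
      have h3 : (S.L : ℤ) * (e + 1) = S.L * e + S.L := by ring
      omega
    have hs : 0 ≤ s := by
      by_contra hc
      have h1 : s ≤ -1 := by omega
      have h2 : (S.L : ℤ) * s ≤ S.L * (-1) := mul_le_mul_of_nonneg_left h1 hL0.le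
      omega
    have he : e < N := by
      by_contra hc
      have h2 : (S.L : ℤ) * N ≤ S.L * e := mul_le_mul_of_nonneg_left (by omega) hL0.le
      omega
    have c1 : (S.L * s + i + 1 : ℤ) = S.L * s + ((i + 1 : ℕ) : ℤ) := by push_cast; ring
    have c2 : (S.L * e + j + 1 : ℤ) = S.L * e + ((j + 1 : ℕ) : ℤ) := by push_cast; ring
    rw [Tab.subT_eq ty s hi, Tab.subT_eq ty e hj]
    rcases eq_or_lt_of_le hse with h1 | h1
    · subst h1
      have hij : i < j := by omega
      refine ⟨S.b * W s, S.off (ty s) i, S.off (ty s) j, _, _, Tab.subW_eq W ty s hi,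
        Tab.subW_eq W ty s hj, fun y => ?_, fun y => ?_, hB _ (h.lt s) i j hij hj⟩
      · rw [c2, Tab.window_same s y hi.le (show j + 1 ≤ S.L from hj)]
      · rw [c1, Tab.window_same s y (show i + 1 ≤ S.L from hi) hj.le]
    · refine ⟨S.b * W s, S.off (ty s) i, S.b * (W e - W s) + S.off (ty e) j,
        S.kFn K (ty s) i (ty e) (j + 1) (W e - W s) (kLw K.g W s e),
        S.kFn K (ty s) (i + 1) (ty e) j (W e - W s) (kLw K.g W s e), Tab.subW_eq W ty s hi, ?_,
        fun y => ?_, fun y => ?_, hN _ (h.lt s) _ (h.lt e) _ _ (h.loc hm hs h1 he) i hi j hj⟩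
      · rw [Tab.subW_eq W ty e hj]
        ring
      · rw [c2, H.kwindow h.lt h1 y hi.le (show j + 1 ≤ S.L from hj)]
      · rw [c1, H.kwindow h.lt h1 y (show i + 1 ≤ S.L from hi) hj.le]
  refine ⟨fun t => ?_, ?_, ?_⟩
  · obtain ⟨p, r, hr, rfl⟩ := Tab.exists_pr hL t
    rw [Tab.subT_eq ty p hr]
    exact hchd _ (h.lt p) r hr
  · intro a b ha hab hb
    refine kuni_allI hk (N := S.L * N) (fun s e hs hse he hE => ?_) (b - a).toNat a b (by omega)
      ha hb
    obtain ⟨a, A, B, Fi, F, h1, h2, h3, -, h5⟩ := key s e hs hse he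
    rw [h1, h2] at hE
    refine h5.ev ?_
    rw [show Fi = fun y => cv K.g (E (S.subW W ty) s (e + 1)) (a + y) from
      funext fun y => (h3 y).symm]
    exact kev_shift hE
  · intro s e hs hse he P hP hd hA
    obtain ⟨a, A, B, Fi, F, h1, h2, -, h4, h5⟩ := key s e hs hse he
    refine h5.pat P hP (by rw [hd, h1, h2]; ring) (satA_shift _ _ ?_)
    have h6 : (fun y => F (A + y)) = kLw K.g (S.subW W ty) s e := by
      funext y
      unfold kLw
      rw [h1, add_assoc, h4]
    rwa [h6]

end close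

/-- one letter -/
theorem kgood_one {S : Tab} {g : List ℤ} (hk : OKer g) (pats : ℕ → ℕ → List PatE) {c : ℕ}
    (hc : c < S.T) : KGoodI S g pats 1 (fun _ => 0) (fun _ => c) where
  lt _ := hc
  uni a b ha hab hb := by
    refine kuni_allI hk (N := 1) (fun s e hs hse he => ?_) (b - a).toNat a b (by omega) ha hb
    omega
  pat s t hs hst ht := by omega

/-- number of letters of the `k`-th iterate -/
def lenP (S : ℕ → Tab) (N : ℤ) : ℕ → ℤ
  | 0 => N
  | k + 1 => (S k).L * lenP S N k

/-- **the iterates** -/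
theorem kgood_iterI {S : ℕ → Tab} {pats : ℕ → ℕ → ℕ → List PatE} {N : ℤ} {W : ℤ → ℤ}
    {ty : ℤ → ℕ} {g : List ℤ}
    (hs : ∀ k N W ty, KGoodI (S k) g (pats k) N W ty →
      KGoodI (S (k + 1)) g (pats (k + 1)) ((S k).L * N) ((S k).subW W ty) ((S k).subT ty))
    (h : KGoodI (S 0) g (pats 0) N W ty) :
    ∀ k, KGoodI (S k) g (pats k) (lenP S N k) (iterP S W ty k).1 (iterP S W ty k).2
  | 0 => h
  | k + 1 => hs _ _ _ _ (kgood_iterI hs h k)

end LWG
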