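import Pool.Agent.LWG.GrowSum

/-!
# Typed substitutions with phases

The level `k` is refined by the table `S k`; the types of the children of `S k` are types of `S (k + 1)`.

* `iterP`: the iterates; `Tab.Bas2 S S'`: facts about a table whose children have types of `S'`;
* `bas2_ty`, `bas2_bdW`, `bas2_sumC`: types, range, sum of the heights;
* **`lines_phase_sum`**, **`lines_phase_sum_rat`**: cyclic tables, lines `∏ Q p`, vertices `∏ L p` per period.
-/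

set_option autoImplicit false

open Finset LevelLower LevelPseudo LevelWords

namespace LWG

open Tab

/-- the iterates with phases -/
def iterP (S : ℕ → Tab) (W0 : ℤ → ℤ) (ty0 : ℤ → ℕ) : ℕ → (ℤ → ℤ) × (ℤ → ℕ)
  | 0 => (W0, ty0)
  | k + 1 => ((S k).subW (iterP S W0 ty0 k).1 (iterP S W0 ty0 k).2, (S k).subT (iterP S W0 ty0 k).2)

namespace Tab

/-- facts about a table, the children have types of the table `S'` -/
structure Bas2 (S S' : Tab) : Prop where
  L0 : 0 < S.L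
  b2 : 2 ≤ S.b
  chd_lt : ∀ c < S.T, ∀ r < S.L, S.chd c r < S'.T
  id : ∀ c < S.T, ∀ y, S.part c 0 S.L y = S.comb (dl 0) y

variable {S S' : Tab} {W : ℤ → ℤ} {ty : ℤ → ℕ}

theorem Bas.bas2 (K : S.Bas) : S.Bas2 S := ⟨K.L0, K.b2, K.chd_lt, K.id⟩

theorem Bas2.b0 (K : S.Bas2 S') : 0 < S.b := by
  have := K.b2
  omega

theorem Bas2.sub_lt (K : S.Bas2 S') (h : ∀ t, ty t < S.T) (t : ℤ) : S.subT ty t < S'.T := by
  obtain ⟨p, r, hr, rfl⟩ := exists_pr K.L0 t
  rw [subT_eq ty p hr]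
  exact K.chd_lt _ (h p) r hr

theorem Bas2.C_next (K : S.Bas2 S') (h : ∀ t, ty t < S.T) (p z : ℤ) :
    C (S.subW W ty) z (S.L * (p + 1)) = C (S.subW W ty) z (S.L * p) + S.comb (dl (W p)) z := by
  have := C_block (S := S) W ty p z S.L le_rfl
  rw [show (S.L * (p + 1) : ℤ) = S.L * p + (S.L : ℕ) by ring, this, K.id _ (h p), dl_comb K.b0]

theorem Bas2.C_mul (K : S.Bas2 S') (h : ∀ t, ty t < S.T) (p : ℕ) (z : ℤ) :
    C (S.subW W ty) z (S.L * p) = S.comb (fun x => C W x p) z := by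
  induction p with
  | zero =>
    have h0 : S.comb (fun x => C W x ((0 : ℕ) : ℤ)) z = 0 := by
      unfold comb
      refine List.sum_eq_zero fun x hx => ?_
      obtain ⟨k, -, rfl⟩ := List.mem_map.1 hx
      split_ifs
      · exact mul_zero _
      · rfl
    rw [h0, show ((S.L : ℤ) * ((0 : ℕ) : ℤ)) = 0 by push_cast; ring]
    rfl
  | succ p ih =>
    have h1 : S.comb (fun x => C W x ((p + 1 : ℕ) : ℤ)) z = S.comb (fun x => C W x p) z +
        S.comb (dl (W p)) z := by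
      rw [← comb_add]
      refine comb_congr (fun x => ?_) _
      rw [show ((p + 1 : ℕ) : ℤ) = (p : ℤ) + 1 by push_cast; ring, C_succ]
    rw [h1, ← ih, show ((p + 1 : ℕ) : ℤ) = (p : ℤ) + 1 by push_cast; ring, K.C_next h]

end Tab

section phases

variable {S : ℕ → Tab} {W0 : ℤ → ℤ} {ty0 : ℤ → ℕ}

theorem bas2_ty (K : ∀ k, (S k).Bas2 (S (k + 1))) (h : ∀ t, ty0 t < (S 0).T) :
    ∀ k t, (iterP S W0 ty0 k).2 t < (S k).T
  | 0 => h
  | k + 1 => (K k).sub_lt (bas2_ty K h k)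

/-- range of the iterates -/
theorem bas2_bdW (K : ∀ k, (S k).Bas2 (S (k + 1))) (h : ∀ t, ty0 t < (S 0).T) {w A0 : ℕ}
    (hw : ∀ k, (S k).okOff w = true) (h0 : ∀ t, |W0 t| ≤ A0) (k : ℕ) (t : ℤ) :
    |(iterP S W0 ty0 k).1 t| + w ≤ ((A0 + w) * ∏ j ∈ range k, (S j).b : ℕ) := by
  induction k generalizing t with
  | zero =>
    have := h0 t
    show |W0 t| + w ≤ _
    rw [range_zero, prod_empty, mul_one]
    push_cast
    omega
  | succ k ih =>
    obtain ⟨p, r, hr, rfl⟩ := exists_pr (K k).L0 t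
    show |(S k).subW (iterP S W0 ty0 k).1 (iterP S W0 ty0 k).2 ((S k).L * p + r)| + w ≤ _
    rw [subW_eq _ _ p hr]
    have h1 := ih p
    have h2 := off_le (hw k) (bas2_ty (W0 := W0) K h k p) hr
    have hb' : (2 : ℤ) ≤ (S k).b := by exact_mod_cast (K k).b2
    have h3 : |((S k).b : ℤ) * (iterP S W0 ty0 k).1 p + (S k).off ((iterP S W0 ty0 k).2 p) r| ≤
        (S k).b * |(iterP S W0 ty0 k).1 p| + w := by
      refine (abs_add_le _ _).trans (add_le_add (le_of_eq ?_) h2)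
      rw [abs_mul, abs_of_nonneg (by omega : (0 : ℤ) ≤ (S k).b)]
    obtain ⟨N, hN⟩ : ∃ N, N = (A0 + w) * ∏ j ∈ range k, (S j).b := ⟨_, rfl⟩
    have e1 : (A0 + w) * ∏ j ∈ range (k + 1), (S j).b = (S k).b * N := by
      rw [prod_range_succ, hN]
      ring
    rw [← hN] at h1
    rw [e1]
    have h4 : ((S k).b : ℤ) * (|(iterP S W0 ty0 k).1 p| + w) ≤ (S k).b * (N : ℤ) :=
      mul_le_mul_of_nonneg_left h1 (by omega)
    have h5 : (2 : ℤ) * w ≤ (S k).b * w := mul_le_mul_of_nonneg_right hb' (Int.natCast_nonneg w)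
    push_cast
    nlinarith

/-- **the sum of the heights of the iterates** -/
theorem bas2_sumC (K : ∀ k, (S k).Bas2 (S (k + 1))) (h : ∀ t, ty0 t < (S 0).T) {Q : ℕ → ℕ} {w A0 c : ℕ}
    (hQ : ∀ k, (S k).b < Q k) (hc : ∀ k, (S k).okSum (Q k) = true) (hw : ∀ k, (S k).okOff w = true)
    (h0 : ∀ t, |W0 t| ≤ A0) (hcc : ∀ k, 2 * (A0 + w + 1) * (S k).L * (S k).b ≤ c) (k : ℕ) :
    ∃ μ : ℤ → ℕ, (∀ t : ℕ, t ≤ ∏ j ∈ range k, (S j).L → ∀ x, |C (iterP S W0 ty0 k).1 x t| ≤ μ x) ∧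
      (∀ x, μ x ≠ 0 → -(((A0 + w + 1) * ∏ j ∈ range k, (S j).b : ℕ) : ℤ) ≤ x ∧
        x < ((A0 + w + 1) * ∏ j ∈ range k, (S j).b : ℕ)) ∧
      ∑ x ∈ Ico (-(((A0 + w + 1) * ∏ j ∈ range k, (S j).b : ℕ) : ℤ))
        ((A0 + w + 1) * ∏ j ∈ range k, (S j).b : ℕ), μ x + c * ∏ j ∈ range k, (S j).b ≤
        (2 * (A0 + w + 1) + c) * ∏ j ∈ range k, Q j := by
  -- the range of the letters
  have hR : ∀ k (t : ℕ), -(((A0 + w + 1) * ∏ j ∈ range k, (S j).b : ℕ) : ℤ) ≤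
      (iterP S W0 ty0 k).1 t - 1 ∧
      (iterP S W0 ty0 k).1 t < ((A0 + w + 1) * ∏ j ∈ range k, (S j).b : ℕ) := by
    intro k t
    have h3 := bas2_bdW K h hw h0 k (t : ℤ)
    have h4 := neg_abs_le ((iterP S W0 ty0 k).1 (t : ℤ))
    have h5 := le_abs_self ((iterP S W0 ty0 k).1 (t : ℤ))
    have hb1 : 1 ≤ ∏ j ∈ range k, (S j).b := Nat.one_le_iff_ne_zero.2 (prod_ne_zero_iff.2 fun j _ => by
      have := (K j).b2
      omega)
    have h6 : (A0 + w) * ∏ j ∈ range k, (S j).b + 1 ≤ (A0 + w + 1) * ∏ j ∈ range k, (S j).b := by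
      nlinarith
    constructor <;> omega
  induction k with
  | zero =>
    rw [range_zero, prod_empty, prod_empty, prod_empty]
    refine ⟨fun x => if -(((A0 + w + 1) * 1 : ℕ) : ℤ) ≤ x ∧ x < ((A0 + w + 1) * 1 : ℕ)
      then 1 else 0, fun t ht x => ?_, fun x hx => ?_, ?_⟩
    · have h2 : |C (iterP S W0 ty0 0).1 x t| ≤ 1 := by
        have : t = 0 ∨ t = 1 := by omega
        rcases this with rfl | rfl
        · rw [show C (iterP S W0 ty0 0).1 x ((0 : ℕ) : ℤ) = 0 from rfl, abs_zero]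
          norm_num
        · have h2 := C_succ (iterP S W0 ty0 0).1 x 0
          rw [show (0 : ℤ) + 1 = ((1 : ℕ) : ℤ) by norm_num,
            show C (iterP S W0 ty0 0).1 x 0 = 0 from rfl, zero_add] at h2
          rw [h2]
          exact abs_dl_le _ x
      show _ ≤ ((if _ then _ else _ : ℕ) : ℤ)
      split_ifs with h3
      · exact_mod_cast h2
      · by_contra h4
        have h6 := C_supp (T := 1) (fun t _ => hR 0 t) t ht x fun h5 => h4 (by
          rw [h5, abs_zero]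
          norm_num)
        rw [range_zero, prod_empty] at h6
        exact h3 h6
    · by_contra h3
      exact hx (if_neg h3)
    · have h2 : ∑ x ∈ Ico (-(((A0 + w + 1) * 1 : ℕ) : ℤ)) ((A0 + w + 1) * 1 : ℕ),
          (if -(((A0 + w + 1) * 1 : ℕ) : ℤ) ≤ x ∧ x < ((A0 + w + 1) * 1 : ℕ) then 1 else 0) =
          2 * (A0 + w + 1) := by
        rw [sum_congr rfl fun x hx => if_pos (mem_Ico.1 hx), sum_const, smul_eq_mul, mul_one,
          Int.card_Ico, mul_one]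
        omega
      rw [h2, mul_one, mul_one]
  | succ k ih =>
    obtain ⟨μ, m1, m2, m3⟩ := ih
    obtain ⟨Bk, hBk⟩ : ∃ Bk, Bk = ∏ j ∈ range k, (S j).b := ⟨_, rfl⟩
    have eB : ∏ j ∈ range (k + 1), (S j).b = Bk * (S k).b := by
      rw [prod_range_succ, hBk]
    have hR' := hR (k + 1)
    rw [eB] at hR'
    rw [← hBk] at m2 m3
    rw [eB, prod_range_succ (fun j => (S j).L), prod_range_succ Q]
    obtain ⟨R, hRR⟩ : ∃ R : ℕ, R = (A0 + w + 1) * (Bk * (S k).b) := ⟨_, rfl⟩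
    rw [← hRR] at hR' ⊢
    refine ⟨fun x => if -(R : ℤ) ≤ x ∧ x < R then (S k).cmu μ x + (S k).L else 0, fun t ht x => ?_,
      fun x hx => ?_, ?_⟩
    · have h2 : |C (iterP S W0 ty0 (k + 1)).1 x t| ≤ (S k).cmu μ x + (S k).L := by
        have hL := (K k).L0
        obtain ⟨p, r, hr, e⟩ : ∃ p r : ℕ, r < (S k).L ∧ t = (S k).L * p + r :=
          ⟨t / (S k).L, t % (S k).L, Nat.mod_lt _ hL, (Nat.div_add_mod t (S k).L).symm⟩
        have hp : p ≤ ∏ j ∈ range k, (S j).L := by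
          rw [mul_comm, e] at ht
          have : (S k).L * p ≤ (S k).L * ∏ j ∈ range k, (S j).L := by omega
          exact Nat.le_of_mul_le_mul_left this hL
        show |C ((S k).subW (iterP S W0 ty0 k).1 (iterP S W0 ty0 k).2) x t| ≤ _
        rw [e, show (((S k).L * p + r : ℕ) : ℤ) = (S k).L * (p : ℤ) + r by push_cast; ring,
          C_block _ _ (p : ℤ) x r hr.le, (K k).C_mul (bas2_ty K h k)]
        have h3 := comb_mu (S := S k) (m1 p hp) x
        have h4 := part_bd (S := S k) ((iterP S W0 ty0 k).2 (p : ℤ)) r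
          (x - (S k).b * (iterP S W0 ty0 k).1 (p : ℤ))
        have h5 := abs_add_le ((S k).comb (fun y => C (iterP S W0 ty0 k).1 y p) x)
          ((S k).part ((iterP S W0 ty0 k).2 (p : ℤ)) 0 r (x - (S k).b * (iterP S W0 ty0 k).1 (p : ℤ)))
        omega
      show _ ≤ ((if _ then _ else _ : ℕ) : ℤ)
      split_ifs with h3
      · exact_mod_cast h2
      · by_contra h4
        refine h3 (C_supp (T := t) (fun t _ => hR' t) t le_rfl x fun h5 => h4 ?_)
        rw [h5, abs_zero]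
        norm_num
    · by_contra h3
      exact hx (if_neg h3)
    · rw [sum_congr rfl fun x hx => if_pos (mem_Ico.1 hx), sum_add_distrib, sum_const, smul_eq_mul,
        Int.card_Ico, show ((R : ℤ) - -(R : ℤ)).toNat = 2 * R by omega]
      have h2 := sum_cmu (K k).b0 (hc k) m2 (Ico (-(R : ℤ)) R)
      have h3 := Nat.mul_le_mul_left (Q k) m3
      obtain ⟨s, hs⟩ : ∃ s, s = ∑ x ∈ Ico (-(((A0 + w + 1) * Bk : ℕ) : ℤ))
        ((A0 + w + 1) * Bk : ℕ), μ x := ⟨_, rfl⟩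
      rw [← hs] at h2 h3
      have e1 : 2 * R * (S k).L = 2 * (A0 + w + 1) * (S k).L * (S k).b * Bk := by
        rw [hRR]
        ring
      have e3 : (2 * (A0 + w + 1) + c) * ((∏ j ∈ range k, Q j) * Q k) =
          Q k * ((2 * (A0 + w + 1) + c) * ∏ j ∈ range k, Q j) := by ring
      rw [e1, e3]
      refine le_trans ?_ h3
      have h4 : 2 * (A0 + w + 1) * (S k).L * (S k).b * Bk ≤ c * Bk := Nat.mul_le_mul_right _ (hcc k)
      have h5 : c * Bk * ((S k).b + 1) ≤ c * Bk * Q k := Nat.mul_le_mul_left _ (hQ k)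
      nlinarith

theorem prod_period {f : ℕ → ℕ} {P : ℕ} (hf : Function.Periodic f P) (k : ℕ) :
    ∏ j ∈ range (P * k), f j = (∏ j ∈ range P, f j) ^ k := by
  induction k with
  | zero => simp
  | succ k ih =>
    rw [Nat.mul_succ, prod_range_add, ih, pow_succ]
    congr 1
    refine prod_congr rfl fun j _ => ?_
    have := hf.nat_mul k j
    rw [add_comm, mul_comm]
    exact this

/-- **pseudolines from tables with phases, exact exponent** -/
theorem lines_phase_sum {P : ℕ} (hP : 0 < P) (hS : Function.Periodic S P) {Q : ℕ → ℕ}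
    (hQp : Function.Periodic Q P) (K : ∀ k, (S k).Bas2 (S (k + 1))) (h : ∀ t, ty0 t < (S 0).T)
    {w A0 : ℕ} (hQ : ∀ k, (S k).b < Q k) (hc : ∀ k, (S k).okSum (Q k) = true)
    (hw : ∀ k, (S k).okOff w = true) (h0 : ∀ t, |W0 t| ≤ A0)
    {Op : (ℤ → ℤ) → ℤ → ℤ} {A A' B u : ℕ} (hOp : RefOp Op A' B u) (hOs : SumOp Op A B u)
    (hU : ∀ k a b, a ≤ b → Uni (Op (E (iterP S W0 ty0 k).1 a b))) {e : ℝ}
    (he : ((∏ p ∈ range P, Q p : ℕ) : ℝ) ^ e = ((∏ p ∈ range P, (S p).L : ℕ) : ℝ)) (he0 : 0 ≤ e) :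
    ∃ c : ℝ, 0 < c ∧ ∃ n₀ : ℕ, ∀ n ≥ n₀,
    (∃ f : Fin n → ℝ → ℝ, (∀ i, Continuous (f i)) ∧
      (∀ i j, i ≠ j → ∃ x, Crosses (f i) (f j) x) ∧
      ∃ k < n, c * (n : ℝ) ^ e ≤ psiT f k) ∧
    ∀ s ≥ 1, c * (n : ℝ) ^ e ≤ Psi s n := by
  obtain ⟨ρ, hρ⟩ : ∃ ρ, ρ = ∏ p ∈ range P, (S p).L := ⟨_, rfl⟩
  obtain ⟨H, hH⟩ : ∃ H, H = ∏ p ∈ range P, Q p := ⟨_, rfl⟩
  have hρ0 : 0 < ρ := by
    rw [hρ]
    exact Nat.pos_of_ne_zero (prod_ne_zero_iff.2 fun p _ => (K p).L0.ne')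
  have hH2 : 2 ≤ H := by
    have h1 : Q 0 ≤ H := by
      rw [hH]
      exact Nat.le_of_dvd (Nat.pos_of_ne_zero (prod_ne_zero_iff.2 fun p _ => by
        have := hQ p
        omega)) (dvd_prod_of_mem Q (mem_range.2 hP))
    have := hQ 0
    have := (K 0).b2
    omega
  -- a common bound
  obtain ⟨c, hcc⟩ : ∃ c, ∀ k, 2 * (A0 + w + 1) * (S k).L * (S k).b ≤ c := by
    refine ⟨∑ p ∈ range P, 2 * (A0 + w + 1) * (S p).L * (S p).b, fun k => ?_⟩
    have h1 : S (k % P) = S k := hS.map_mod_nat k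
    rw [← h1]
    exact single_le_sum (f := fun p => 2 * (A0 + w + 1) * (S p).L * (S p).b) (fun _ _ => Nat.zero_le _)
      (mem_range.2 (Nat.mod_lt _ hP))
  have hSb : ∀ f : Tab → ℕ, Function.Periodic (fun k => f (S k)) P := fun f k => by
    show f (S (k + P)) = f (S k)
    rw [hS]
  choose μ m1 m2 m3 using fun k => bas2_sumC (W0 := W0) K h hQ hc hw h0 hcc k
  refine rec_exact_sum hOp hOs (fun k => (iterP S W0 ty0 (P * k)).1)
    (fun k => ∏ j ∈ range (P * k), (S j).L) (Q := H) (m := 2 * (A0 + w + 1) + c) (ρ := (ρ : ℝ))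
    (D := 1) hH2 one_pos (by exact_mod_cast hρ0) (by rw [hH, hρ]; exact he) he0
    (fun k => (A0 + w + 1) * ∏ j ∈ range (P * k), (S j).b) (fun k t _ => ?_) (fun k => μ (P * k))
    (fun k => m1 (P * k)) (fun k => m2 (P * k)) (fun k => ?_)
    (fun k => range (∏ j ∈ range (P * k), (S j).L + 1)) (fun k t ht => by
      have := mem_range.1 ht
      omega) (fun k => ?_) (fun k i _ j _ hij => hU (P * k) i j (by exact_mod_cast hij.le))
  · have h3 := bas2_bdW K h hw h0 (P * k) (t : ℤ)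
    have h4 := neg_abs_le ((iterP S W0 ty0 (P * k)).1 (t : ℤ))
    have h5 := le_abs_self ((iterP S W0 ty0 (P * k)).1 (t : ℤ))
    have hb1 : 1 ≤ ∏ j ∈ range (P * k), (S j).b :=
      Nat.one_le_iff_ne_zero.2 (prod_ne_zero_iff.2 fun j _ => by
        have := (K j).b2
        omega)
    have h6 : (A0 + w) * ∏ j ∈ range (P * k), (S j).b + 1 ≤
        (A0 + w + 1) * ∏ j ∈ range (P * k), (S j).b := by nlinarith
    constructor <;> omega
  · have h3 := m3 (P * k)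
    rw [prod_period hQp k, ← hH] at h3
    exact le_trans (Nat.le_add_right _ _) h3
  · rw [card_range, prod_period (hSb fun T => T.L) k, ← hρ]
    have h3 : 1 ≤ ρ ^ k := Nat.one_le_pow _ _ hρ0
    refine ⟨by omega, ?_⟩
    push_cast
    linarith

/-- **pseudolines from tables with phases, a rational exponent** -/
theorem lines_phase_sum_rat {P : ℕ} (hP : 0 < P) (hS : Function.Periodic S P) {Q : ℕ → ℕ}
    (hQp : Function.Periodic Q P) (K : ∀ k, (S k).Bas2 (S (k + 1))) (h : ∀ t, ty0 t < (S 0).T)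
    {w A0 : ℕ} (hQ : ∀ k, (S k).b < Q k) (hc : ∀ k, (S k).okSum (Q k) = true)
    (hw : ∀ k, (S k).okOff w = true) (h0 : ∀ t, |W0 t| ≤ A0)
    {Op : (ℤ → ℤ) → ℤ → ℤ} {A A' B u : ℕ} (hOp : RefOp Op A' B u) (hOs : SumOp Op A B u)
    (hU : ∀ k a b, a ≤ b → Uni (Op (E (iterP S W0 ty0 k).1 a b))) {x y : ℕ} (hy : 0 < y)
    (he : (∏ p ∈ range P, Q p) ^ x < (∏ p ∈ range P, (S p).L) ^ y) :
    ∃ n₀ : ℕ, ∀ n ≥ n₀,
    (∃ f : Fin n → ℝ → ℝ, (∀ i, Continuous (f i)) ∧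
      (∀ i j, i ≠ j → ∃ x, Crosses (f i) (f j) x) ∧
      ∃ k < n, (n : ℝ) ^ ((x : ℝ) / y) ≤ psiT f k) ∧
    ∀ s ≥ 1, (n : ℝ) ^ ((x : ℝ) / y) ≤ Psi s n := by
  have hH2 : 2 ≤ ∏ p ∈ range P, Q p := by
    have h1 : Q 0 ≤ ∏ p ∈ range P, Q p :=
      Nat.le_of_dvd (Nat.pos_of_ne_zero (prod_ne_zero_iff.2 fun p _ => by
        have := hQ p
        omega)) (dvd_prod_of_mem Q (mem_range.2 hP))
    have := hQ 0
    have := (K 0).b2
    omega
  obtain ⟨e, e1, e2, e3⟩ := exp_lt hH2 hy he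
  exact lines_lt e2 (lines_phase_sum hP hS hQp K h hQ hc hw h0 hOp hOs hU e1 e3)

end phases

end LWG
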