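import Pool.Agent.LWG.KClose
import Pool.Agent.LWG.Phase

/-!
# Substitution words with a kernel: several tables in turn

`LWG.KClose` for words of one table which are refined with another one: the letters of a word of
phase `p` have types of the table `S p`, and the blocks of `S p` have letters with types of
`S (p + 1)`.

* `OKP S S'`: facts about a table `S` with child types of `S'`, **`OKP.path`**;
* `KId`: facts about a table with a kernel (`Tab.KOK` without the condition on the child types);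
* **`kgood_subP`**: the invariant is preserved;
* **`kgood_iterP`**: the iterates.
-/

set_option autoImplicit false

namespace LWG

open LevelWords

/-- facts about a table `S`, whose blocks have letters with types of `S'` -/
structure OKP (S S' : Tab) : Prop where
  L0 : 0 < S.L
  b0 : 0 < S.b
  m1 : 1 ≤ S.m
  mL : S'.m ≤ S.L
  chd_lt : ∀ c < S.T, ∀ r < S.L, S.chd c r < S'.T
  chd_nxt : ∀ c < S.T, ∀ r, r + 1 < S.L → S.chd c (r + 1) ∈ S'.nxt (S.chd c r)
  chd_across : ∀ c < S.T, ∀ c' ∈ S.nxt c, S.chd c' 0 ∈ S'.nxt (S.chd c (S.L - 1))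
  stR : ∀ c < S.T, ∀ c' ∈ S.nxt c, ∀ r < S.L, ∀ j < S'.m,
    S'.step (S.chd c r) j = S.two c c' (r + j + 1) - S.two c c' (r + j)
  stL : ∀ c < S.T, ∀ c' ∈ S.nxt c, ∀ r < S.L, ∀ j < S'.m,
    S'.step (S.chd c' r) (-(j + 1 : ℕ)) = S.two c c' (S.L + r - j) - S.two c c' (S.L + r - (j + 1))

theorem Tab.OK.okp {S : Tab} (h : S.OK) : OKP S S :=
  ⟨h.L0, h.b0, h.m1, h.mL, h.chd_lt, h.chd_nxt, h.chd_across, h.stR, h.stL⟩

section path

open Tab

variable {S S' : Tab} {W : ℤ → ℤ} {ty : ℤ → ℕ}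

theorem OKP.path (K : OKP S S') (h : S.Path W ty) : S'.Path (S.subW W ty) (S.subT ty) where
  lt t := by
    obtain ⟨p, r, hr, rfl⟩ := exists_pr K.L0 t
    rw [subT_eq ty p hr]
    exact K.chd_lt _ (h.lt p) r hr
  nxt t := by
    obtain ⟨p, r, hr, rfl⟩ := exists_pr K.L0 t
    rw [subT_eq ty p hr]
    rcases lt_or_ge (r + 1) S.L with h1 | h1
    · rw [show (S.L * p + r + 1 : ℤ) = S.L * p + ((r + 1 : ℕ) : ℤ) by push_cast; ring,
        subT_eq ty p h1]
      exact K.chd_nxt _ (h.lt p) r h1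
    · have h2 : r = S.L - 1 := by omega
      have h3 : (S.L * p + r + 1 : ℤ) = S.L * (p + 1) + ((0 : ℕ) : ℤ) := by
        have : (r : ℤ) = S.L - 1 := by omega
        rw [this]
        push_cast
        ring
      rw [h3, subT_eq ty (p + 1) K.L0, h2]
      exact K.chd_across _ (h.lt p) _ (h.nxt p)
  step t j hj1 hj2 := by
    obtain ⟨p, r, hr, rfl⟩ := exists_pr K.L0 t
    have hmL := K.mL
    rw [subT_eq ty p hr]
    rcases lt_or_ge j 0 with h0 | h0
    · obtain ⟨i, hi⟩ : ∃ i : ℕ, j = -((i + 1 : ℕ) : ℤ) := ⟨(-j - 1).toNat, by omega⟩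
      subst hi
      have him : i < S'.m := by omega
      have e1 := K.stL _ (h.lt (p - 1)) _ (h.nxt (p - 1)) r hr i him
      have e2 := subW_two h K.m1 (p - 1) (show S.L + r - i < 2 * S.L by omega)
      have e3 := subW_two h K.m1 (p - 1) (show S.L + r - (i + 1) < 2 * S.L by omega)
      rw [show p - 1 + 1 = p by ring] at e1 e2 e3
      have e4 : (S.L * p + r + -((i + 1 : ℕ) : ℤ) + 1 : ℤ) =
          S.L * (p - 1) + ((S.L + r - i : ℕ) : ℤ) := by
        have : ((S.L + r - i : ℕ) : ℤ) = S.L + r - i := by omega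
        rw [this]
        push_cast
        ring
      have e5 : (S.L * p + r + -((i + 1 : ℕ) : ℤ) : ℤ) =
          S.L * (p - 1) + ((S.L + r - (i + 1) : ℕ) : ℤ) := by
        have : ((S.L + r - (i + 1) : ℕ) : ℤ) = S.L + r - (i + 1) := by omega
        rw [this]
        push_cast
        ring
      rw [e4, e5, e2, e3, e1]
      ring
    · obtain ⟨i, rfl⟩ : ∃ i : ℕ, j = (i : ℤ) := ⟨j.toNat, by omega⟩
      have him : i < S'.m := by omega
      have e1 := K.stR _ (h.lt p) _ (h.nxt p) r hr i him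
      have e2 := subW_two h K.m1 p (show r + i + 1 < 2 * S.L by omega)
      have e3 := subW_two h K.m1 p (show r + i < 2 * S.L by omega)
      rw [show (S.L * p + r + (i : ℤ) + 1 : ℤ) = S.L * p + ((r + i + 1 : ℕ) : ℤ) by
        push_cast; ring, show (S.L * p + r + (i : ℤ) : ℤ) = S.L * p + ((r + i : ℕ) : ℤ) by
        push_cast; ring, e2, e3, e1]
      ring

end path

/-! ### The kernel -/

/-- facts about a table with a kernel -/
structure KId (S : Tab) (K : Ker) : Prop where
  b0 : 0 < S.b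
  L0 : 0 < S.L
  id : ∀ c < S.T, ∀ y, S.kpre K c S.L y = (S.ref K).comb (cv K.g (dl 0)) y

theorem Tab.KOK.kid {S : Tab} {K : Ker} (h : S.KOK K) : KId S K := ⟨h.bas.b0, h.bas.L0, h.id⟩

section window

open Tab

variable {S : Tab} {K : Ker} {W : ℤ → ℤ} {ty : ℤ → ℕ}

/-- convolved differences of whole blocks -/
theorem KId.cv_next (H : KId S K) (h : ∀ t, ty t < S.T) (p y : ℤ) :
    cv K.g (fun z => S.part (ty p) 0 S.L (z - S.b * W p)) y =
      (S.ref K).comb (cv K.g (dl (W p))) y := by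
  rw [cv_shift, show cv K.g (S.part (ty p) 0 S.L) = S.kpre K (ty p) S.L from rfl, H.id _ (h p)]
  have h1 := Tab.comb_shift (S := S.ref K) H.b0 (cv K.g (dl (W p))) (W p) (y - S.b * W p)
  have h2 : ((S.ref K).b : ℤ) = S.b := rfl
  rw [h2, show S.b * W p + (y - S.b * W p) = y by ring] at h1
  rw [h1]
  refine Tab.comb_congr (fun x => ?_) _
  rw [show cv K.g (dl (W p)) = cv K.g (fun z => dl 0 (z - W p)) from
    funext fun z => cv_congr K.g (fun z => by rw [← dl_shift, add_zero]) z, cv_shift]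
  congr 1
  ring

theorem KId.cv_blocks (H : KId S K) (h : ∀ t, ty t < S.T) (i y : ℤ) : ∀ n : ℕ,
    cv K.g (E (S.subW W ty) (S.L * i) (S.L * (i + n))) y =
      (S.ref K).comb (cv K.g (E W i (i + n))) y
  | 0 => by
    have h1 : E (S.subW W ty) (S.L * i) (S.L * (i + (0 : ℕ))) = fun _ => 0 := by
      funext z
      rw [show (S.L * (i + (0 : ℕ)) : ℤ) = S.L * i by push_cast; ring, E_self]
    have h2 : cv K.g (E W i (i + (0 : ℕ))) = fun _ => 0 := by
      funext z
      rw [show E W i (i + (0 : ℕ)) = fun _ => 0 from funext fun z => by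
        rw [show (i + (0 : ℕ) : ℤ) = i by push_cast; ring, E_self]]
      exact cv_zero _ _
    rw [h1, h2, cv_zero]
    unfold Tab.comb
    refine (List.sum_eq_zero fun x hx => ?_).symm
    obtain ⟨k, -, rfl⟩ := List.mem_map.1 hx
    split_ifs <;> simp
  | n + 1 => by
    have h1 : E (S.subW W ty) (S.L * i) (S.L * (i + (n + 1 : ℕ))) = fun z =>
        E (S.subW W ty) (S.L * i) (S.L * (i + n)) z +
          S.part (ty (i + n)) 0 S.L (z - S.b * W (i + n)) := by
      funext z
      have h2 := C_block (S := S) W ty (i + n) z S.L le_rfl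
      unfold E
      rw [show (S.L * (i + (n + 1 : ℕ)) : ℤ) = S.L * (i + n) + (S.L : ℕ) by push_cast; ring, h2]
      ring
    have h3 : ∀ x, cv K.g (E W i (i + (n + 1 : ℕ))) x =
        cv K.g (E W i (i + n)) x + cv K.g (dl (W (i + n))) x := by
      intro x
      rw [← cv_add]
      refine cv_congr K.g (fun z => ?_) x
      rw [show (i + (n + 1 : ℕ) : ℤ) = i + n + 1 by push_cast; ring, E_right]
    rw [h1, cv_add, KId.cv_blocks H h i y n, KId.cv_next H h, ← Tab.comb_add]
    exact (Tab.comb_congr h3 _).symm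

/-- **convolved differences of a child window** -/
theorem KId.window (H : KId S K) (h : ∀ t, ty t < S.T) {i j : ℤ} (hij : i ≤ j) (y : ℤ) {r r' : ℕ}
    (hr : r ≤ S.L) (hr' : r' ≤ S.L) :
    cv K.g (E (S.subW W ty) (S.L * i + r) (S.L * j + r')) (S.b * W i + y) =
      S.kF K (ty i) r (ty j) r' (W j - W i) (fun x => cv K.g (E W i j) (W i + x)) y := by
  obtain ⟨n, rfl⟩ : ∃ n : ℕ, j = i + n := ⟨(j - i).toNat, by omega⟩
  have h1 : E (S.subW W ty) (S.L * i + r) (S.L * (i + n) + r') = fun z =>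
      E (S.subW W ty) (S.L * i) (S.L * (i + n)) z - S.part (ty i) 0 r (z - S.b * W i) +
        S.part (ty (i + n)) 0 r' (z - S.b * W (i + n)) := funext fun z => E_block i (i + n) z hr hr'
  rw [h1, cv_add, cv_sub, H.cv_blocks h, cv_shift, cv_shift]
  unfold Tab.kF Tab.kpre
  have h2 := Tab.comb_shift (S := S.ref K) H.b0 (cv K.g (E W i (i + n))) (W i) y
  have h3 : ((S.ref K).b : ℤ) = S.b := rfl
  rw [h3] at h2
  rw [h2, show S.b * W i + y - S.b * W i = y by ring,
    show S.b * W i + y - S.b * W (i + n) = y - S.b * (W (i + n) - W i) by ring]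

/-- a later block -/
theorem KId.kwindow (H : KId S K) {W : ℤ → ℤ} {ty : ℤ → ℕ} (h : ∀ t, ty t < S.T) {s e : ℤ}
    (hse : s < e) (y : ℤ) {r r' : ℕ} (hr : r ≤ S.L) (hr' : r' ≤ S.L) :
    cv K.g (E (S.subW W ty) (S.L * s + r) (S.L * e + r')) (S.b * W s + y) =
      S.kFn K (ty s) r (ty e) r' (W e - W s) (kLw K.g W s e) y := by
  rw [H.window h hse.le y hr hr']
  unfold Tab.kF Tab.kFn
  have h1 : ∀ x, cv K.g (E W s e) (W s + x) = kLw K.g W s e x + cv K.g (dl 0) x := fun x => by
    rw [cv_E_left]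
    unfold kLw
    have := prof_shift K.g (W s) 0 (W s + x)
    rw [add_zero, show W s + x - W s = x by ring] at this
    rw [this]
    rfl
  rw [Tab.comb_congr (S := S.ref K) h1, Tab.comb_add, ← H.id _ (h s) y]
  ring

end window

/-! ### The invariant -/

section close

variable {S S' : Tab} {K : Ker} {pats pats' : ℕ → ℕ → List Pat}

/-- **the invariant is preserved**, child types of another table -/
theorem kgood_subP (hO : OKP S S') (H : KId S K) (hk : OKer K.g)
    (hB : ∀ c < S.T, ∀ i j, i < j → j < S.L →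
      NoKE K.g pats' (S.chd c i) (S.chd c j) (S.off c i) (S.off c j)
        (fun y => S.kpre K c (j + 1) y - S.kpre K c i y)
        (fun y => S.kpre K c j y - S.kpre K c (i + 1) y))
    (hS : ∀ W ty, S.Path W ty → ∀ s e : ℤ, s < e → e ≤ s + 2 * S.m → ∀ i < S.L, ∀ j < S.L,
      NoKE K.g pats' (S.chd (ty s) i) (S.chd (ty e) j) (S.off (ty s) i)
        (S.b * (W e - W s) + S.off (ty e) j)
        (S.kFn K (ty s) i (ty e) (j + 1) (W e - W s) (kLw K.g W s e))
        (S.kFn K (ty s) (i + 1) (ty e) j (W e - W s) (kLw K.g W s e)))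
    (hN : ∀ c < S.T, ∀ c' < S.T, ∀ d D, KLoc S K.g pats c c' d D → ∀ i < S.L, ∀ j < S.L,
      NoKE K.g pats' (S.chd c i) (S.chd c' j) (S.off c i) (S.b * d + S.off c' j)
        (S.kFn K c i c' (j + 1) d D) (S.kFn K c (i + 1) c' j d D))
    {W : ℤ → ℤ} {ty : ℤ → ℕ} (h : KGood S K.g pats W ty) :
    KGood S' K.g pats' (S.subW W ty) (S.subT ty) := by
  have key : ∀ s' e' : ℤ, s' < e' → ∃ (a A B : ℤ) (Fi F : ℤ → ℤ),
      S.subW W ty s' = a + A ∧ S.subW W ty e' = a + B ∧
      (∀ y, cv K.g (E (S.subW W ty) s' (e' + 1)) (a + y) = Fi y) ∧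
      (∀ y, cv K.g (E (S.subW W ty) (s' + 1) e') (a + y) = F y) ∧
      NoKE K.g pats' (S.subT ty s') (S.subT ty e') A B Fi F := by
    intro s' e' hse'
    obtain ⟨s, i, hi, rfl⟩ := Tab.exists_pr hO.L0 s'
    obtain ⟨e, j, hj, rfl⟩ := Tab.exists_pr hO.L0 e'
    have hL0 : (0 : ℤ) < S.L := by exact_mod_cast hO.L0
    have hse : s ≤ e := by
      by_contra hc
      have h1 : e + 1 ≤ s := by omega
      have h2 : (S.L : ℤ) * (e + 1) ≤ S.L * s := mul_le_mul_of_nonneg_left h1 hL0.le
      have h3 : (S.L : ℤ) * (e + 1) = S.L * e + S.L := by ring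
      omega
    have c1 : (S.L * s + i + 1 : ℤ) = S.L * s + ((i + 1 : ℕ) : ℤ) := by push_cast; ring
    have c2 : (S.L * e + j + 1 : ℤ) = S.L * e + ((j + 1 : ℕ) : ℤ) := by push_cast; ring
    rw [Tab.subT_eq ty s hi, Tab.subT_eq ty e hj]
    rcases eq_or_lt_of_le hse with h1 | h1
    · subst h1
      have hij : i < j := by omega
      refine ⟨S.b * W s, S.off (ty s) i, S.off (ty s) j, _, _, Tab.subW_eq W ty s hi,
        Tab.subW_eq W ty s hj, fun y => ?_, fun y => ?_, hB _ (h.path.lt s) i j hij hj⟩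
      · rw [c2, Tab.window_same s y hi.le (show j + 1 ≤ S.L from hj)]
      · rw [c1, Tab.window_same s y (show i + 1 ≤ S.L from hi) hj.le]
    · refine ⟨S.b * W s, S.off (ty s) i, S.b * (W e - W s) + S.off (ty e) j,
        S.kFn K (ty s) i (ty e) (j + 1) (W e - W s) (kLw K.g W s e),
        S.kFn K (ty s) (i + 1) (ty e) j (W e - W s) (kLw K.g W s e), Tab.subW_eq W ty s hi, ?_,
        fun y => ?_, fun y => ?_, ?_⟩
      · rw [Tab.subW_eq W ty e hj]
        ring
      · rw [c2, H.kwindow h.path.lt h1 y hi.le (show j + 1 ≤ S.L from hj)]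
      · rw [c1, H.kwindow h.path.lt h1 y (show i + 1 ≤ S.L from hi) hj.le]
      · rcases le_or_gt e (s + 2 * S.m) with h2 | h2
        · exact hS W ty h.path s e h1 h2 i hi j hj
        · exact hN _ (h.path.lt s) _ (h.path.lt e) _ _ (h.loc (by omega)) i hi j hj
  refine ⟨hO.path h.path, ?_, ?_⟩
  · intro a b hab
    refine kuni_all hk (fun s e hse hE => ?_) (b - a).toNat a b (by omega)
    obtain ⟨a, A, B, Fi, F, h1, h2, h3, -, h5⟩ := key s e hse
    rw [h1, h2] at hE
    refine h5.ev ?_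
    rw [show Fi = fun y => cv K.g (E (S.subW W ty) s (e + 1)) (a + y) from
      funext fun y => (h3 y).symm]
    exact kev_shift hE
  · intro s e hse P hP hd hA
    obtain ⟨a, A, B, Fi, F, h1, h2, -, h4, h5⟩ := key s e hse
    refine h5.pat P hP (by rw [hd, h1, h2]; ring) (agr_shift _ _ ?_)
    have h6 : (fun y => F (A + y)) = kLw K.g (S.subW W ty) s e := by
      funext y
      unfold kLw
      rw [h1, add_assoc, h4]
    rwa [h6]

end close

/-! ### Iteration -/

theorem kgood_iterP {S : ℕ → Tab} {pats : ℕ → ℕ → ℕ → List Pat} {W : ℤ → ℤ} {ty : ℤ → ℕ}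
    {g : List ℤ} (hs : ∀ k W ty, KGood (S k) g (pats k) W ty →
      KGood (S (k + 1)) g (pats (k + 1)) ((S k).subW W ty) ((S k).subT ty))
    (h : KGood (S 0) g (pats 0) W ty) :
    ∀ k, KGood (S k) g (pats k) (iterP S W ty k).1 (iterP S W ty k).2
  | 0 => h
  | k + 1 => hs _ _ _ (kgood_iterP hs h k)

end LWG
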