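import Pool.Agent.LWG.KClose
import Pool.Agent.LWG.EvK
import Pool.Agent.LWG.Asm

/-!
# Substitution words with a kernel: far windows

A minimal violation between far letters begins with `-1` near the left letter and ends with `1` near
the right letter, with zeros between. Near the left letter this is refuted if all windows with
changes `l` at the start have `D + l ≥ 0` there (`half`); near the right letter it is the mirror
image. So some `D + l` is negative on the left and some `D + r` is positive on the right.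

* **`half_sound`**, **`cross`**;
* `FarK`: the checks, **`kfar`**: no minimal violation in far windows; **`khN_of`**: the hypothesis
  `hN` of `kgood_sub` from its near part.
-/

set_option autoImplicit false

namespace LWG

open LevelWords

variable {D F : ℤ → ℤ}

/-! ## The leaf -/

/-- some entry is negative after the change -/
def anyNeg : List ℤ → List En → Bool
  | _, [] => false
  | L, e :: es => e.neg (hd L) || anyNeg L.tail es

theorem anyNeg_sound {l : ℤ → ℤ} : ∀ (vec : List En) {I : ℤ} {L : List ℤ}, Val l I L →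
    SatD D I vec → anyNeg L vec = true → ∃ y ≤ I, D y + l y < 0
  | [], I, L, _, _, h => by simp [anyNeg] at h
  | e :: es, I, L, hL, hv, h => by
    simp only [anyNeg, Bool.or_eq_true, hL.hd] at h
    rcases h with h | h
    · exact ⟨I, le_rfl, En.neg_sound hv.1 h⟩
    · obtain ⟨y, h1, h2⟩ := anyNeg_sound es hL.tail hv.2 h
      exact ⟨y, by omega, h2⟩

/-- some change gives a negative entry at an edge `≤ Y` -/
def nneg (m : ℤ) (lv : List (List ℤ)) (Y I : ℤ) (vec : List En) : Bool :=
  lv.any fun l => match I - Y with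
    | .ofNat n => anyNeg (shf m l Y) (vec.drop n)
    | .negSucc _ => anyNeg (shf m l I) vec

theorem nneg_sound {m : ℤ} {lv : List (List ℤ)} {Y I : ℤ} {vec : List En} (hv : SatD D I vec)
    (hD : ∀ l ∈ lv, ∀ y ≤ Y, 0 ≤ D y + vf m l y) (h : nneg m lv Y I vec = true) : False := by
  unfold nneg at h
  rw [List.any_eq_true] at h
  obtain ⟨l, hl, h⟩ := h
  rcases hI : I - Y with n | n
  · simp only [hI] at h
    have hI' : I - Y = (n : ℤ) := hI
    have h1 := satD_drop n hv
    rw [show I - (n : ℤ) = Y by omega] at h1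
    obtain ⟨y, h2, h3⟩ := anyNeg_sound _ (val_shf m l Y) h1 h
    have := hD l hl y h2
    omega
  · simp only [hI] at h
    have hI' := Int.negSucc_lt_zero n
    obtain ⟨y, h2, h3⟩ := anyNeg_sound _ (val_shf m l I) hv h
    have := hD l hl y (by omega)
    omega

/-- the leaf: contradiction to `D + l ≥ 0` at the edges `≤ Y`, or to the unimodality of `D + l` -/
def leafH (m : ℤ) (lv : List (List ℤ)) (Y I : ℤ) (vec : List En) : Bool :=
  nneg m lv Y I vec || inadm m lv [[]] (.ofNat 0) I vec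

theorem leafH_sound {m : ℤ} {lv : List (List ℤ)} {Y I : ℤ} {vec : List En}
    (hU : ∀ l ∈ lv, Uni fun y => D y + vf m l y) (hD : ∀ l ∈ lv, ∀ y ≤ Y, 0 ≤ D y + vf m l y)
    (hv : SatD D I vec) (h : leafH m lv Y I vec = true) : False := by
  unfold leafH at h
  rw [Bool.or_eq_true] at h
  rcases h with h | h
  · exact nneg_sound hv hD h
  · have hL : LocV m lv [[]] [] 0 D := by
      refine ⟨fun l hl r hr => ?_, fun P hP => by simp at hP⟩
      rw [List.mem_singleton] at hr
      subst hr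
      have h0 : ∀ y, vf m [] y = 0 := fun y => by
        unfold vf
        rcases m - y with n | n <;> simp
      simp only [h0, add_zero]
      exact hU l hl
    exact hL.inadm hv h

/-! ## The half check -/

/-- zeros -/
def tgH : ℕ → List ℤ → List Cn
  | 0, _ => []
  | n + 1, L => .eq (-hd L) :: tgH n L.tail

theorem holds_tgH {K : Co} {u : ℤ → ℤ} : ∀ (n : ℕ) {z : ℤ} {L : List ℤ}, ValA u z L →
    (∀ w, z ≤ w → w < z + n → F w = u w + K.comb D w) → (∀ w, z ≤ w → w < z + n → F w = 0) →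
    Holds K D True z (tgH n L)
  | 0, _, _, _, _, _ => trivial
  | n + 1, z, L, hL, hF, h0 => by
    refine ⟨?_, holds_tgH n hL.tail (fun w h1 h2 => hF w (by omega) (by push_cast; omega))
      fun w h1 h2 => h0 w (by omega) (by push_cast; omega)⟩
    have h1 := hF z le_rfl (by push_cast; omega)
    have h2 := h0 z le_rfl (by push_cast; omega)
    rw [hL.hd]
    omega

/-- `-1` at `x`, zeros up to `Z`, and `D + l ≥ 0` for all changes `l`, at the edges `≤ Y`:
impossible -/
def half (K : Co) (σ : Sol) (X : ℕ) (m : ℤ) (lv : List (List ℤ)) (Y n0 Z x : ℤ) (u : List ℤ) :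
    Bool :=
  goX K σ X (leafH m lv Y) (leafH m lv Y) (leafH m lv Y) x
    (.eq (.negSucc 0 - hd (sha n0 u x)) :: tgH (Z - x).toNat (sha n0 u x).tail)

theorem half_sound {K : Co} (hN : K.Nn) {σ : Sol} (hσ : okSol K σ 5 = true) {X : ℕ} {m : ℤ}
    {lv : List (List ℤ)} {Y n0 Z x : ℤ} {u : List ℤ} (hU : ∀ l ∈ lv, Uni fun y => D y + vf m l y)
    (hD : ∀ l ∈ lv, ∀ y ≤ Y, 0 ≤ D y + vf m l y)
    (hF : ∀ z ≤ Z, F z = nz n0 u z + K.comb D z) (hxZ : x ≤ Z) (hx : F x = -1)
    (h0 : ∀ z, x < z → z ≤ Z → F z = 0) (hc : half K σ X m lv Y n0 Z x u = true) : False := by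
  unfold half at hc
  have hv := val_sha n0 u x
  have e1 : K.comb D x = .negSucc 0 - hd (sha n0 u x) := by
    have h1 := hF x hxZ
    rw [hv.hd, show (Int.negSucc 0 : ℤ) = -1 from rfl]
    omega
  have e2 : Holds K D True (x + 1) (tgH (Z - x).toNat (sha n0 u x).tail) :=
    holds_tgH (F := F) _ hv.tail (fun w h1 h2 => hF w (by omega))
      fun w h1 h2 => h0 w (by omega) (by omega)
  have e3 : Holds K D True x (.eq (.negSucc 0 - hd (sha n0 u x)) ::
      tgH (Z - x).toNat (sha n0 u x).tail) := ⟨e1, e2⟩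
  exact goX_sound (P := True) (fun _ _ hv h => leafH_sound hU hD hv h)
    (fun _ _ hv h => leafH_sound hU hD hv h) (fun _ _ hv _ h => leafH_sound hU hD hv h) hN hσ e3 hc

/-! ## Both halves -/

section cross

variable {S : Tab} {K K' : Co}

/-- **A violation with `-1` near the left letter and `1` near the right letter, at the distance
`d`.** -/
theorem cross (hT : Tie S K) (hT' : Tie S.mirT K') {σ σ' : Sol} (hσ : okSol K σ 5 = true)
    (hσ' : okSol K' σ' 5 = true) {X m N : ℕ} {lv rv rv' : List (List ℤ)} {d : ℤ}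
    (hl : ∀ v ∈ rv, v.length = 2 * m + 2) (hr : rv' = rv.map mv)
    (hadm : ∀ l ∈ lv, ∀ r ∈ rv, Uni fun y => D y + (vf m l y + vf m r (y - d)))
    (hlU : ∀ l ∈ lv, Uni fun y => D y + vf m l y)
    (hrU : ∀ r ∈ rv, Uni fun y => D y + vf m r (y - d)) {n0 Y Z Z' n : ℤ} (hn : n ≤ d)
    (hY1 : 2 * Y + 1 < n) (hY2 : m + 1 + Y < n) (hZ : Z + 1 ≤ S.b * n + n0)
    (hZ' : Z' + 1 + n0 + N ≤ S.b * n) {u w : List ℤ} (hu : u.length = N) (hw : w.length = N)
    (hF : ∀ z, F z = nz n0 u z + S.comb D z + nz n0 w (z - S.b * d)) {x y : ℤ} (hxZ : x ≤ Z)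
    (hyZ : S.b * d - 1 - y ≤ Z') (hx : F x = -1) (hy : F y = 1)
    (h0 : ∀ z, x < z → z < y → F z = 0) (hZy : Z < y) (hZx : x < S.b * d - 1 - Z')
    (c1 : half K σ X m lv Y n0 Z x u = true)
    (c2 : half K' σ' X m rv' Y (-n0 - N) Z' (S.b * d - 1 - y) (mv w) = true) : False := by
  have hb := hT.b0
  have hbn : (S.b : ℤ) * n ≤ S.b * d := mul_le_mul_of_nonneg_left hn (by positivity)
  -- a negative value on the left
  obtain ⟨l, hl1, y0, hy0, hn0⟩ : ∃ l ∈ lv, ∃ y0 ≤ Y, D y0 + vf m l y0 < 0 := by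
    by_contra hc
    push Not at hc
    refine half_sound hT.nn' hσ hlU hc (F := F) (fun z hz => ?_) hxZ hx
      (fun z h1 h2 => h0 z h1 (by omega)) c1
    rw [hF, ← hT.comb]
    have : nz n0 w (z - S.b * d) = 0 := by
      unfold nz
      rcases h : z - S.b * d - n0 with k | k
      · have h' : z - S.b * d - n0 = (k : ℤ) := h
        omega
      · rfl
    rw [this, add_zero]
  -- a positive value on the right
  obtain ⟨r, hr1, y1, hy1, hn1⟩ : ∃ r ∈ rv, ∃ y1, d - 1 - Y ≤ y1 ∧ 0 < D y1 + vf m r (y1 - d) := by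
    by_contra hc
    push Not at hc
    have key : ∀ (v : List ℤ), v ∈ rv → ∀ z, - D (d - 1 - z) + vf m (mv v) z =
        -(D (d - 1 - z) + vf m v (d - 1 - z - d)) := fun v hv z => by
      rw [vf_mv (hl v hv), show d - 1 - z - d = -1 - z by ring]
      ring
    refine half_sound (D := fun z => - D (d - 1 - z)) (F := fun z => - F (S.b * d - 1 - z))
      hT'.nn' hσ' (lv := rv') (Y := Y) ?_ ?_ (fun z hz => ?_) hyZ ?_ (fun z h1 h2 => ?_) c2
    · intro v hv
      rw [hr, List.mem_map] at hv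
      obtain ⟨v, hv, rfl⟩ := hv
      intro a c hac ha hc'
      simp only [key v hv] at ha hc'
      exact hrU v hv (d - 1 - c) (d - 1 - a) (by omega) (by simp only; omega)
        (by simp only; omega)
    · intro v hv a ha
      rw [hr, List.mem_map] at hv
      obtain ⟨v, hv, rfl⟩ := hv
      rw [key v hv]
      have := hc v hv (d - 1 - a) (by omega)
      omega
    · rw [hF, hT'.comb, nz_mv hw]
      have e1 : nz n0 u (S.b * d - 1 - z) = 0 := nz_zero (by omega)
      have e2 : S.mirT.comb (fun z => - D (d - 1 - z)) z = - S.comb D (S.b * d - 1 - z) := by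
        have h1 := comb_mir (S := S) hb D (S.b * (-d) + z)
        have h2 := Tab.comb_shift (S := S.mirT) (show 0 < S.mirT.b from hb) (mir D) (-d) z
        have h3 : (S.mirT.b : ℤ) = S.b := rfl
        rw [h3] at h2
        rw [h2] at h1
        unfold mir at h1
        rw [show -1 - (S.b * (-d) + z) = S.b * d - 1 - z by ring] at h1
        rw [← h1]
        exact Tab.comb_congr (fun t => by rw [show -1 - (-d + t) = d - 1 - t by ring]) z
      rw [e1, e2, show S.b * d - 1 - z - S.b * d = -1 - z by ring]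
      ring
    · rw [show S.b * d - 1 - (S.b * d - 1 - y) = y by ring, hy]
    · rw [h0 _ (by omega) (by omega), neg_zero]
  refine hadm l hl1 r hr1 y0 y1 (by omega) ?_ ?_
  · have : vf m r (y0 - d) = 0 := by
      unfold vf
      rcases h : (m : ℤ) - (y0 - d) with k | k
      · have h' : (m : ℤ) - (y0 - d) = (k : ℤ) := h
        simp only
        rw [List.getD_eq_getElem?_getD, List.getElem?_eq_none (by rw [hl r hr1]; omega)]
        rfl
      · rfl
    simp only
    omega
  · have : vf m l y1 = 0 := vf_zero (by omega)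
    simp only
    omega

end cross

/-! ## The checks -/

/-- Data for the far windows: the windows with `|d| ≤ n + 1` are not far. -/
structure FarD where
  /-- enumeration up to `X` -/
  X : ℕ
  /-- top edge of the vectors of changes -/
  m : ℕ
  /-- length of the noise vectors -/
  N : ℕ
  n : ℕ
  /-- the differences are supposed to be nonnegative up to the coarse edge `Y` -/
  Y : ℤ
  /-- first edge of the noise vectors -/
  n0 : ℤ
  /-- zeros up to the fine edge `Z`, `Z'` for the mirror image -/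
  Z : ℤ
  Z' : ℤ
  /-- bounds for the edges of one letter -/
  lo : ℤ
  hi : ℤ
  K : Co
  K' : Co
  σ : Sol
  σ' : Sol
  /-- vectors of changes -/
  lv : ℕ → List (List ℤ)
  rv : ℕ → List (List ℤ)
  lv' : ℕ → List (List ℤ)
  rv' : ℕ → List (List ℤ)
  /-- noise of the first and the last block, with the letter -/
  NA : ℕ → List (List ℤ)
  NB : ℕ → List (List ℤ)
  gN : List ℤ
  gP : List ℤ

variable (S : Tab) (Kr : Ker) (P : FarD)

/-- bounds -/
def FarD.num : Bool :=
  decide (2 * P.Y + 1 < P.n + 2) && decide (P.m + 1 + P.Y < P.n + 2) &&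
  decide (P.Z + 1 ≤ S.b * (P.n + 2) + P.n0) && decide (P.Z' + 1 + P.n0 + P.N ≤ S.b * (P.n + 2)) &&
  decide (P.hi ≤ P.Z) && decide (-1 - P.lo ≤ P.Z') && decide (P.Z < S.b * (P.n + 2) + P.lo) &&
  decide (P.hi + 1 + P.Z' < S.b * (P.n + 2))

/-- edges of the letter `i` of a block of type `c` -/
def FarD.rng (c i : ℕ) : Bool :=
  (P.gN ++ P.gP).all fun e => decide (P.lo ≤ S.off c i + e) && decide (S.off c i + e ≤ P.hi)

/-- the change zero is there -/
def FarD.zer (c : ℕ) : Bool :=
  (P.lv c).any (fun v => v.all zeB) && (P.rv c).any fun v => v.all zeB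

/-- the letter at the offset `o`, the noise `u`, the changes `lv` -/
def FarD.lft (lv : List (List ℤ)) (o : ℤ) (u : List ℤ) : Bool :=
  P.gN.all fun e => half P.K P.σ P.X P.m lv P.Y P.n0 P.Z (o + e) u

/-- the mirror image -/
def FarD.rgt (lv : List (List ℤ)) (o : ℤ) (u : List ℤ) : Bool :=
  P.gP.all fun e => half P.K' P.σ' P.X P.m lv P.Y (-P.n0 - P.N) P.Z' (-1 - (o + e)) (mv u)

/-- all checks for a letter of a block of type `c` -/
def FarD.chk (c : ℕ) (o : ℤ) (u w : List ℤ) : Bool :=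
  P.lft (P.lv c) o u && P.lft (P.rv c) o w && P.rgt (P.lv' c) o u && P.rgt (P.rv' c) o w

/-- the data are right, and all checks hold -/
structure FarOK : Prop where
  tie : Tie (S.ref Kr) P.K
  tie' : Tie (S.ref Kr).mirT P.K'
  sol : okSol P.K P.σ 5 = true
  sol' : okSol P.K' P.σ' 5 = true
  sgn : Sgn Kr.g P.gN P.gP
  num : P.num S = true
  rng : ∀ c < S.T, ∀ i < S.L, P.rng S c i = true
  zer : ∀ c < S.T, P.zer c = true
  len : ∀ c < S.T, ∀ v ∈ P.lv c, v.length = 2 * P.m + 2
  len' : ∀ c < S.T, ∀ v ∈ P.rv c, v.length = 2 * P.m + 2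
  lv : ∀ c < S.T, P.lv' c = (P.lv c).map mv
  rv : ∀ c < S.T, P.rv' c = (P.rv c).map mv
  na : ∀ c < S.T, ∀ i < S.L, ((P.NA c).getD i []).length = P.N ∧
    ∀ y, nz P.n0 ((P.NA c).getD i []) y = S.kpre Kr c S.L y - S.kpre Kr c i y
  nb : ∀ c < S.T, ∀ j < S.L, ((P.NB c).getD j []).length = P.N ∧
    ∀ y, nz P.n0 ((P.NB c).getD j []) y = S.kpre Kr c (j + 1) y
  chk : ∀ c < S.T, ∀ i < S.L,
    P.chk c (S.off c i) ((P.NA c).getD i []) ((P.NB c).getD i []) = true

variable {S Kr P}

theorem vf_zer {m : ℤ} {v : List ℤ} (h : v.all zeB = true) (y : ℤ) : vf m v y = 0 := by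
  rw [List.all_eq_true] at h
  unfold vf
  rcases m - y with k | k
  · simp only
    rw [List.getD_eq_getElem?_getD]
    rcases lt_or_ge k v.length with hk | hk
    · rw [List.getElem?_eq_getElem hk]
      exact zeB_iff.1 (h _ (List.getElem_mem hk))
    · rw [List.getElem?_eq_none hk]
      rfl
  · rfl

/-- **no minimal violation in the far windows** -/
theorem FarOK.kev (H : FarOK S Kr P) {c c' i j : ℕ} (hc : c < S.T) (hc' : c' < S.T) (hi : i < S.L)
    (hj : j < S.L) {ps : List Pat} {d : ℤ} (hd : (P.n : ℤ) + 2 ≤ d ∨ d ≤ -((P.n : ℤ) + 2))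
    (hV : LocV P.m (P.lv c) (P.rv c') ps d D) :
    ¬ KEv Kr.g (S.off c i) (S.b * d + S.off c' j) (S.kFn Kr c i c' (j + 1) d D) := by
  obtain ⟨⟨⟨⟨⟨⟨⟨n1, n2⟩, n3⟩, n4⟩, n5⟩, n6⟩, n7⟩, n8⟩ :
      ((((((2 * P.Y + 1 < (P.n : ℤ) + 2 ∧ P.m + 1 + P.Y < (P.n : ℤ) + 2) ∧
      P.Z + 1 ≤ S.b * ((P.n : ℤ) + 2) + P.n0) ∧ P.Z' + 1 + P.n0 + P.N ≤ S.b * ((P.n : ℤ) + 2)) ∧
      P.hi ≤ P.Z) ∧ -1 - P.lo ≤ P.Z') ∧ P.Z < S.b * ((P.n : ℤ) + 2) + P.lo) ∧
      P.hi + 1 + P.Z' < S.b * ((P.n : ℤ) + 2) := by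
    have := H.num
    unfold FarD.num at this
    simpa only [Bool.and_eq_true, decide_eq_true_eq] using this
  have rng : ∀ c < S.T, ∀ i < S.L, ∀ e, e ∈ P.gN ∨ e ∈ P.gP →
      P.lo ≤ S.off c i + e ∧ S.off c i + e ≤ P.hi := fun c hc i hi e he => by
    have := H.rng c hc i hi
    unfold FarD.rng at this
    rw [List.all_eq_true] at this
    have := this e (List.mem_append.2 he)
    simpa only [Bool.and_eq_true, decide_eq_true_eq] using this
  have zl : ∀ c < S.T, ∃ v ∈ P.lv c, ∀ y, vf P.m v y = 0 := fun c hc => by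
    have := H.zer c hc
    unfold FarD.zer at this
    rw [Bool.and_eq_true, List.any_eq_true, List.any_eq_true] at this
    obtain ⟨⟨v, h1, h2⟩, -⟩ := this
    exact ⟨v, h1, vf_zer h2⟩
  have zr : ∀ c < S.T, ∃ v ∈ P.rv c, ∀ y, vf P.m v y = 0 := fun c hc => by
    have := H.zer c hc
    unfold FarD.zer at this
    rw [Bool.and_eq_true, List.any_eq_true, List.any_eq_true] at this
    obtain ⟨-, v, h1, h2⟩ := this
    exact ⟨v, h1, vf_zer h2⟩
  have chk : ∀ c < S.T, ∀ i < S.L,
      (((P.lft (P.lv c) (S.off c i) ((P.NA c).getD i []) = true ∧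
      P.lft (P.rv c) (S.off c i) ((P.NB c).getD i []) = true) ∧
      P.rgt (P.lv' c) (S.off c i) ((P.NA c).getD i []) = true) ∧
      P.rgt (P.rv' c) (S.off c i) ((P.NB c).getD i []) = true) := fun c hc i hi => by
    have := H.chk c hc i hi
    unfold FarD.chk at this
    simpa only [Bool.and_eq_true] using this
  have hb0 : (0 : ℤ) < S.b := by exact_mod_cast H.tie.b0
  obtain ⟨vl, hvl, hvl0⟩ := zl c hc
  obtain ⟨vr, hvr, hvr0⟩ := zr c' hc'
  have hlU : ∀ l ∈ P.lv c, Uni fun y => D y + vf P.m l y := fun l hl => by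
    have := hV.adm l hl vr hvr
    simpa only [hvr0, add_zero] using this
  have hrU : ∀ r ∈ P.rv c', Uni fun y => D y + vf P.m r (y - d) := fun r hr => by
    have := hV.adm vl hvl r hr
    simpa only [hvl0, zero_add] using this
  have hF : ∀ z, S.kFn Kr c i c' (j + 1) d D z = nz P.n0 ((P.NA c).getD i []) z +
      (S.ref Kr).comb D z + nz P.n0 ((P.NB c').getD j []) (z - S.b * d) := fun z => by
    rw [(H.na c hc i hi).2, (H.nb c' hc' j hj).2]
    rfl
  rintro ⟨x, y, hxy, hx, hy, h0, hA, hB⟩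
  simp only [prof_eq Kr.g (S.off c i), prof_eq Kr.g (S.b * d + S.off c' j)] at hA hB
  rcases hd with hd | hd
  · have hbd : (S.b : ℤ) * ((P.n : ℤ) + 2) ≤ S.b * d := mul_le_mul_of_nonneg_left hd hb0.le
    rcases hA with ⟨a1, a2⟩ | ⟨a1, a2⟩ <;> rcases hB with ⟨b1, b2⟩ | ⟨b1, b2⟩
    · have h1 := rng c hc i hi _ (Or.inl (H.sgn.n _ a1))
      have h2 := rng c' hc' j hj _ (Or.inl (H.sgn.n _ b1))
      omega
    · have h1 := rng c hc i hi _ (Or.inl (H.sgn.n _ a1))
      have h2 := rng c' hc' j hj _ (Or.inr (H.sgn.p _ b1))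
      have c1 := (chk c hc i hi).1.1.1
      have c2 := (chk c' hc' j hj).2
      unfold FarD.lft at c1
      unfold FarD.rgt at c2
      rw [List.all_eq_true] at c1 c2
      have c1 := c1 _ (H.sgn.n _ a1)
      have c2 := c2 _ (H.sgn.p _ b1)
      rw [show S.off c i + (x - S.off c i) = x by ring] at c1
      rw [show -1 - (S.off c' j + (y - (S.b * d + S.off c' j))) = S.b * d - 1 - y by ring] at c2
      exact cross (S := S.ref Kr) H.tie H.tie' H.sol H.sol' (H.len' c' hc') (H.rv c' hc') hV.adm hlU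
        hrU (n := P.n + 2) hd n1 n2 n3 n4 (H.na c hc i hi).1 (H.nb c' hc' j hj).1 hF
        (x := x) (y := y) (by omega) (show S.b * d - 1 - y ≤ P.Z' by omega) a2 b2 h0 (by omega)
        (show x < S.b * d - 1 - P.Z' by omega) c1 c2
    · have h1 := rng c hc i hi _ (Or.inr (H.sgn.p _ a1))
      have h2 := rng c' hc' j hj _ (Or.inl (H.sgn.n _ b1))
      omega
    · have h1 := rng c hc i hi _ (Or.inr (H.sgn.p _ a1))
      have h2 := rng c' hc' j hj _ (Or.inr (H.sgn.p _ b1))
      omega
  · have hbd : (S.b : ℤ) * ((P.n : ℤ) + 2) ≤ S.b * (-d) :=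
      mul_le_mul_of_nonneg_left (by omega) hb0.le
    have hbm : (S.b : ℤ) * (-d) = -(S.b * d) := by ring
    rcases hA with ⟨a1, a2⟩ | ⟨a1, a2⟩ <;> rcases hB with ⟨b1, b2⟩ | ⟨b1, b2⟩
    · have h1 := rng c hc i hi _ (Or.inl (H.sgn.n _ a1))
      have h2 := rng c' hc' j hj _ (Or.inl (H.sgn.n _ b1))
      omega
    · have h1 := rng c hc i hi _ (Or.inl (H.sgn.n _ a1))
      have h2 := rng c' hc' j hj _ (Or.inr (H.sgn.p _ b1))
      omega
    · have h1 := rng c hc i hi _ (Or.inr (H.sgn.p _ a1))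
      have h2 := rng c' hc' j hj _ (Or.inl (H.sgn.n _ b1))
      have c1 := (chk c' hc' j hj).1.1.2
      have c2 := (chk c hc i hi).1.2
      unfold FarD.lft at c1
      unfold FarD.rgt at c2
      rw [List.all_eq_true] at c1 c2
      have c1 := c1 _ (H.sgn.n _ b1)
      have c2 := c2 _ (H.sgn.p _ a1)
      rw [show S.off c' j + (x - (S.b * d + S.off c' j)) = x - S.b * d by ring] at c1
      rw [show -1 - (S.off c i + (y - S.off c i)) = S.b * (-d) - 1 - (y - S.b * d) by ring] at c2
      refine cross (S := S.ref Kr) (D := fun y => D (d + y))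
        (F := fun z => S.kFn Kr c i c' (j + 1) d D (S.b * d + z)) H.tie H.tie' H.sol H.sol'
        (H.len c hc) (H.lv c hc) (fun l hl r hr => ?_) (fun l hl => ?_) (fun r hr => ?_)
        (n := P.n + 2) (d := -d) (by omega) n1 n2 n3 n4 (H.nb c' hc' j hj).1 (H.na c hc i hi).1
        (fun z => ?_) (x := x - S.b * d) (y := y - S.b * d) (by omega)
        (show S.b * (-d) - 1 - (y - S.b * d) ≤ P.Z' by omega) ?_ ?_ (fun z h1 h2 => ?_) (by omega)
        (show x - S.b * d < S.b * (-d) - 1 - P.Z' by omega) c1 c2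
      · have h3 := hV.adm r hr l hl
        intro a b hab h4 h5
        refine h3 (d + a) (d + b) (by omega) ?_ ?_
        · simp only at h4 ⊢
          rw [show a - -d = d + a by ring] at h4
          rw [show d + a - d = a by ring]
          omega
        · simp only at h5 ⊢
          rw [show b - -d = d + b by ring] at h5
          rw [show d + b - d = b by ring]
          omega
      · intro a b hab h4 h5
        refine hrU l hl (d + a) (d + b) (by omega) ?_ ?_
        · simp only at h4 ⊢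
          rwa [show d + a - d = a by ring]
        · simp only at h5 ⊢
          rwa [show d + b - d = b by ring]
      · intro a b hab h4 h5
        refine hlU r hr (d + a) (d + b) (by omega) ?_ ?_
        · simp only at h4 ⊢
          rwa [show a - -d = d + a by ring] at h4
        · simp only at h5 ⊢
          rwa [show b - -d = d + b by ring] at h5
      · have h3 := Tab.comb_shift (S := S.ref Kr) (show 0 < (S.ref Kr).b from H.tie.b0) D d z
        have h4 : ((S.ref Kr).b : ℤ) = S.b := rfl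
        rw [h4] at h3
        rw [hF, h3, h4, show S.b * d + z - S.b * d = z by ring,
          show z - S.b * -d = S.b * d + z by ring]
        ring
      · rwa [show S.b * d + (x - S.b * d) = x by ring]
      · rwa [show S.b * d + (y - S.b * d) = y by ring]
      · exact h0 _ (by omega) (by omega)
    · have h1 := rng c hc i hi _ (Or.inr (H.sgn.p _ a1))
      have h2 := rng c' hc' j hj _ (Or.inr (H.sgn.p _ b1))
      omega

/-- **the hypothesis `hN` of `kgood_sub` from its near part** -/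
theorem khN_of {pats : ℕ → ℕ → List Pat} (hO : S.OK) (H : FarOK S Kr P) {lo hi : ℤ}
    (hrng : ∀ c < S.T, S.okR lo hi c = true)
    (hsm : ∀ c < S.T, ∀ c' < S.T, Tab.smallP pats (S.b * (P.n + 2) - (hi - lo)) c c' = true)
    (hV : ∀ c < S.T, ∀ c' < S.T, ∀ d D, KLoc S Kr.g pats c c' d D →
      LocV P.m (P.lv c) (P.rv c') (pats c c') d D)
    (hnear : ∀ c < S.T, ∀ c' < S.T, ∀ d : ℤ, -((P.n : ℤ) + 1) ≤ d → d ≤ P.n + 1 → ∀ D,
      KLoc S Kr.g pats c c' d D → ∀ i < S.L, ∀ j < S.L,
      NoKE Kr.g pats (S.chd c i) (S.chd c' j) (S.off c i) (S.b * d + S.off c' j)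
        (S.kFn Kr c i c' (j + 1) d D) (S.kFn Kr c (i + 1) c' j d D)) :
    ∀ c < S.T, ∀ c' < S.T, ∀ d D, KLoc S Kr.g pats c c' d D → ∀ i < S.L, ∀ j < S.L,
      NoKE Kr.g pats (S.chd c i) (S.chd c' j) (S.off c i) (S.b * d + S.off c' j)
        (S.kFn Kr c i c' (j + 1) d D) (S.kFn Kr c (i + 1) c' j d D) := by
  intro c hc c' hc' d D hL i hi' j hj
  by_cases hd : -((P.n : ℤ) + 1) ≤ d ∧ d ≤ P.n + 1
  · exact hnear c hc c' hc' d hd.1 hd.2 D hL i hi' j hj
  have hd' : (P.n : ℤ) + 2 ≤ d ∨ d ≤ -(P.n + 2) := by omega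
  refine ⟨H.kev hc hc' hi' hj hd' (hV c hc c' hc' d D hL), fun Q hQ hQd => ?_⟩
  exfalso
  have h3 := hsm _ (hO.chd_lt c hc i hi') _ (hO.chd_lt c' hc' j hj)
  unfold Tab.smallP at h3
  rw [List.all_eq_true] at h3
  have h4 := h3 Q hQ
  rw [Bool.and_eq_true, decide_eq_true_eq, decide_eq_true_eq] at h4
  have ri : lo ≤ S.off c i ∧ S.off c i ≤ hi := by
    have := hrng c hc
    unfold Tab.okR at this
    simp only [List.all_eq_true, Bool.and_eq_true, decide_eq_true_eq, List.mem_range] at this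
    exact this i hi'
  have rj : lo ≤ S.off c' j ∧ S.off c' j ≤ hi := by
    have := hrng c' hc'
    unfold Tab.okR at this
    simp only [List.all_eq_true, Bool.and_eq_true, decide_eq_true_eq, List.mem_range] at this
    exact this j hj
  have hb : (0 : ℤ) ≤ S.b := by omega
  rcases hd' with hd' | hd'
  · have := mul_le_mul_of_nonneg_left hd' hb
    omega
  · have := mul_le_mul_of_nonneg_left hd' hb
    rw [show (S.b : ℤ) * -(P.n + 2) = -(S.b * (P.n + 2)) by ring] at this
    omega

end LWG
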