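import Pool.Agent.LWG.EvK
import Pool.Agent.LWG.KVec

/-!
# Words with a kernel: the near windows

* `okSgn`, **`sgn_of`**: edges where a letter has the convolved difference `-1`, `1`;
* `KParOK` (`kokPar`), `KDatOK`, `KDatMOK`: parents, data of the refuter, mirror image;
* **`kpat_near`**: no forbidden pattern between two child letters;
* `kcellE`: one pair of letters, **`kev_near`**: no minimal violation;
* **`noKE_near`**: the hypothesis `hN` of `kgood_sub` for near coarse letters;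
* `kevChk`, **`kevChk_sound`**: the loop.
-/

namespace LWG

open LevelWords (Uni dl)

variable {S : Tab} {K : Ker} {D : ℤ → ℤ}

/-! ## Signs -/

/-- `gN`, `gP` contain all edges where the letter `0` has the convolved difference `-1`, `1` -/
def okSgn (g gN gP : List ℤ) : Bool :=
  (List.range (g.length + 1)).all fun k : ℕ =>
    (decide (prof g 0 (k - 1) ≠ -1) || memB (k - 1) gN) &&
    (decide (prof g 0 (k - 1) ≠ 1) || memB (k - 1) gP)

theorem mem_of_memB {x : ℤ} : ∀ {l : List ℤ}, memB x l = true → x ∈ l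
  | [], h => by simp [memB] at h
  | a :: l, h => by
    rw [memB, Bool.or_eq_true, zeB_iff] at h
    rcases h with h | h
    · rw [show x = a by omega]
      exact List.mem_cons_self
    · exact List.mem_cons_of_mem _ (mem_of_memB h)

theorem sgn_of {g gN gP : List ℤ} (h : okSgn g gN gP = true) : Sgn g gN gP := by
  simp only [okSgn, List.all_eq_true, List.mem_range, Bool.and_eq_true, Bool.or_eq_true,
    decide_eq_true_eq] at h
  have h0 : ∀ y, prof g 0 y ≠ 0 → ∃ k : ℕ, k < g.length + 1 ∧ y = k - 1 := fun y hy => by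
    refine ⟨(y + 1).toNat, ?_, ?_⟩ <;>
    · by_contra hc
      exact hy (prof_out (by omega))
  refine ⟨fun y hy => ?_, fun y hy => ?_⟩
  · obtain ⟨k, hk, rfl⟩ := h0 y (by omega)
    exact mem_of_memB (((h k hk).1).resolve_left fun h' => h' hy)
  · obtain ⟨k, hk, rfl⟩ := h0 y (by omega)
    exact mem_of_memB (((h k hk).2).resolve_left fun h' => h' hy)

/-! ## Data -/

/-- `PA f` lists all letters of type `f`, with the noise after it, `PB f` with the noise before -/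
structure KParOK (S : Tab) (NA NB : ℕ → List (List ℤ)) (PA PB : ℕ → List Ltr) : Prop where
  a : ∀ c < S.T, ∀ i < S.L, ⟨c, S.off c i, (NA c).getD (i + 1) []⟩ ∈ PA (S.chd c i)
  b : ∀ c < S.T, ∀ j < S.L, ⟨c, S.off c j, (NB c).getD j []⟩ ∈ PB (S.chd c j)

def Tab.kokPar (S : Tab) (NA NB : ℕ → List (List ℤ)) (PA PB : ℕ → List Ltr) (c : ℕ) : Bool :=
  (List.range S.L).all fun i =>
    ((PA (S.chd c i)).any fun A => A.eqb ⟨c, S.off c i, (NA c).getD (i + 1) []⟩) &&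
    ((PB (S.chd c i)).any fun B => B.eqb ⟨c, S.off c i, (NB c).getD i []⟩)

theorem kparOK_of {NA NB : ℕ → List (List ℤ)} {PA PB : ℕ → List Ltr}
    (h : ∀ c < S.T, S.kokPar NA NB PA PB c = true) : KParOK S NA NB PA PB := by
  refine ⟨fun c hc i hi => ?_, fun c hc i hi => ?_⟩ <;>
  · have h1 := h c hc
    simp only [Tab.kokPar, List.all_eq_true, List.mem_range, Bool.and_eq_true,
      List.any_eq_true] at h1
    obtain ⟨⟨A, hA, hA'⟩, B, hB, hB'⟩ := h1 i hi
    first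
      | rw [← Ltr.eqb_iff hA']; exact hA
      | rw [← Ltr.eqb_iff hB']; exact hB

/-- data of the refuter; `mp`: all known positions are between `- mp` and `mp` -/
structure KDatOK (S : Tab) (K : Ker) (mp : ℕ) (T : Dat) : Prop where
  tie : Tie (S.ref K) T.K
  sol : okSol T.K T.σ 5 = true
  top : mp + K.g.length ≤ T.m + 1
  pos : ∀ c < S.T, S.okPos mp c = true
  lv : ∀ c < S.T, ∀ v ∈ T.lv c, v ∈ S.klvec K.g T.m c
  rv : ∀ c < S.T, ∀ v ∈ T.rv c, v ∈ S.krvec K.g T.m c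

theorem KDatOK.loc {mp : ℕ} {T : Dat} (h : KDatOK S K mp T) {pats : ℕ → ℕ → List Pat} {c c' : ℕ}
    (hc : c < S.T) (hc' : c' < S.T) {d : ℤ} (hL : KLoc S K.g pats c c' d D) :
    LocV T.m (T.lv c) (T.rv c') (pats c c') d D :=
  klocV_of hL h.top (h.pos c hc) (h.pos c' hc') (h.lv c hc) (h.rv c' hc')

/-- data of the mirror image -/
structure KDatMOK (S : Tab) (K : Ker) (T : Dat) (pats : ℕ → ℕ → List Pat)
    (NA NB : ℕ → List (List ℤ)) (M : DatM) : Prop where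
  tie : Tie (S.ref K).mirT M.K
  sol : okSol M.K M.σ 5 = true
  ln : T.K.ln S.b M.nk = true
  ln' : M.K.ln S.b M.nk = true
  na : ∀ c < S.T, ∀ i ≤ S.L, ((NA c).getD i []).length = M.N
  nb : ∀ c < S.T, ∀ i ≤ S.L, ((NB c).getD i []).length = M.N
  lv : ∀ c < S.T, M.lv c = (T.lv c).map mv
  rv : ∀ c < S.T, M.rv c = (T.rv c).map mv
  ps : ∀ c < S.T, ∀ c' < S.T, M.ps c c' = (pats c c').map Pat.mr

/-! ## Patterns -/

/-- **no forbidden pattern between two child letters**; `pats'`: patterns of the children, whose types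
are `< T'` -/
theorem kpat_near2 {mp : ℕ} {T : Dat} (hT : KDatOK S K mp T) {NA NB : ℕ → List (List ℤ)}
    (hZ : KNzOK S K T.n0 NA NB) {PA PB : ℕ → List Ltr} (hP : KParOK S NA NB PA PB)
    {pats pats' : ℕ → ℕ → List Pat} {T' : ℕ} {DM : ℤ}
    (hc : ∀ f < T', ∀ f' < T', ∀ P ∈ pats' f f', ∀ A ∈ PA f, ∀ B ∈ PB f',
      cellP T pats DM P A B = true)
    (hchd : ∀ c < S.T, ∀ r < S.L, S.chd c r < T')
    {c c' : ℕ} (hc1 : c < S.T) (hc2 : c' < S.T) {d : ℤ} {D : ℤ → ℤ}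
    (hL : KLoc S K.g pats c c' d D) (hd1 : -DM ≤ d) (hd2 : d ≤ DM) {i j : ℕ} (hi : i < S.L)
    (hj : j < S.L) :
    ∀ P ∈ pats' (S.chd c i) (S.chd c' j), P.d = S.b * d + S.off c' j - S.off c i →
      ¬ Agr (S.kFn K c (i + 1) c' j d D) (S.off c i + P.e) P.v := by
  intro P hP1 hP2
  have h1 := hc _ (hchd c hc1 i hi) _ (hchd c' hc2 j hj) P hP1 _ (hP.a c hc1 i hi) _
    (hP.b c' hc2 j hj)
  have hb' : (S.b : ℤ) ≠ 0 := by exact_mod_cast hT.tie.b0.ne'
  have hb2 : T.K.b = (S.b : ℤ) := hT.tie.b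
  have e1 : P.d - S.off c' j + S.off c i = S.b * d := by rw [hP2]; ring
  unfold cellP at h1
  simp only [e1, hb2, Int.mul_emod_right, Int.mul_ediv_cancel_left _ hb', Bool.or_eq_true,
    Bool.not_eq_true', posB_iff] at h1
  rcases h1 with ((h1 | h1) | h1) | h1
  · exact absurd h1 (by decide)
  · omega
  · omega
  · refine exV_sound hT.tie.nn' hT.sol (hT.loc hc1 hc2 hL) (fun z => ?_) h1
    rw [hZ.a c hc1 (i + 1) hi, hZ.b c' hc2 j hj.le, hT.tie.comb]
    rfl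

/-- **no forbidden pattern between two child letters** -/
theorem kpat_near {mp : ℕ} {T : Dat} (hT : KDatOK S K mp T) {NA NB : ℕ → List (List ℤ)}
    (hZ : KNzOK S K T.n0 NA NB) {PA PB : ℕ → List Ltr} (hP : KParOK S NA NB PA PB)
    {pats : ℕ → ℕ → List Pat} {DM : ℤ}
    (hc : ∀ f < S.T, ∀ f' < S.T, ∀ P ∈ pats f f', ∀ A ∈ PA f, ∀ B ∈ PB f',
      cellP T pats DM P A B = true)
    (hchd : ∀ c < S.T, ∀ r < S.L, S.chd c r < S.T)
    {c c' : ℕ} (hc1 : c < S.T) (hc2 : c' < S.T) {d : ℤ} {D : ℤ → ℤ}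
    (hL : KLoc S K.g pats c c' d D) (hd1 : -DM ≤ d) (hd2 : d ≤ DM) {i j : ℕ} (hi : i < S.L)
    (hj : j < S.L) :
    ∀ P ∈ pats (S.chd c i) (S.chd c' j), P.d = S.b * d + S.off c' j - S.off c i →
      ¬ Agr (S.kFn K c (i + 1) c' j d D) (S.off c i + P.e) P.v :=
  kpat_near2 hT hZ hP hc hchd hc1 hc2 hL hd1 hd2 hi hj

/-! ## Minimal violations -/

/-- no minimal violation between the letters `A` and `B`, at the coarse distance `d` -/
def kcellE (T : Dat) (pats : ℕ → ℕ → List Pat) (M : DatM) (gN gP : List ℤ) (d : ℤ) (A B : Ltr) :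
    Bool :=
  kevV T.K M.K T.σ M.σ T.X T.m (T.lv A.c) (T.rv B.c) (pats A.c B.c) (M.lv A.c) (M.rv B.c)
    (M.ps A.c B.c) d T.n0 M.N (T.K.b * d) (mx (T.n0 + M.N) (T.K.b * d + T.n0 + M.N) - 1)
    (mx (-T.n0) (-(T.K.b * d) - T.n0) - 1) M.nk gN gP A.o (T.K.b * d + B.o) A.v B.v

/-- **no minimal violation between two child letters** -/
theorem kev_near {mp : ℕ} {T : Dat} (hT : KDatOK S K mp T) {NA NB : ℕ → List (List ℤ)}
    (hZ : KNzOK S K T.n0 NA NB) {pats : ℕ → ℕ → List Pat} {M : DatM}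
    (hM : KDatMOK S K T pats NA NB M) {gN gP : List ℤ} (hg : Sgn K.g gN gP) {c c' : ℕ}
    (hc : c < S.T) (hc' : c' < S.T) {d : ℤ} {D : ℤ → ℤ} (hL : KLoc S K.g pats c c' d D) {i j : ℕ}
    (hi : i < S.L) (hj : j < S.L)
    (h : kcellE T pats M gN gP d ⟨c, S.off c i, (NA c).getD i []⟩
      ⟨c', S.off c' j, (NB c').getD (j + 1) []⟩ = true) :
    ¬ KEv K.g (S.off c i) (S.b * d + S.off c' j) (S.kFn K c i c' (j + 1) d D) := by
  unfold kcellE at h
  simp only [hM.lv c hc, hM.rv c' hc', hM.ps c hc c' hc'] at h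
  have hV := hT.loc hc hc' hL
  have hb2 : T.K.b = (S.b : ℤ) := hT.tie.b
  have hb2' : M.K.b = (S.b : ℤ) := hM.tie.b
  have hb0 : (0 : ℤ) < S.b := by exact_mod_cast hT.tie.b0
  have e1 := mx_ge (T.n0 + M.N) (T.K.b * d + T.n0 + M.N)
  have e2 := mx_ge (-T.n0) (-(T.K.b * d) - T.n0)
  rw [← hb2]
  refine kevV_sound hT.tie.nn' hM.tie.nn' hT.sol hM.sol (by rw [hb2]; exact hb0)
    (by rw [hb2']; exact hb0) (Co.len_of hT.tie hM.ln) (Co.len_of hM.tie hM.ln')
    (fun z => ?_) hV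
    (hV.mirror (fun v hv => length_klvec (hT.lv c hc v hv))
      fun v hv => length_krvec (hT.rv c' hc' v hv))
    (fun z => ?_) (hM.na c hc i hi.le) (hM.nb c' hc' (j + 1) hj) (by omega) (by omega) hg h
  · rw [hM.tie.comb, comb_mir hT.tie.b0]
    unfold mir
    rw [hT.tie.comb]
  · rw [hZ.a c hc i hi.le, hZ.b c' hc' (j + 1) hj, hT.tie.comb, hb2]
    rfl

/-- **no minimal violation and no forbidden pattern between two child letters**, if the coarse
letters are near; `pats'`: patterns of the children, whose types are `< T'` -/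
theorem noKE_near2 {mp : ℕ} {T : Dat} (hT : KDatOK S K mp T) {NA NB : ℕ → List (List ℤ)}
    (hZ : KNzOK S K T.n0 NA NB) {PA PB : ℕ → List Ltr} (hP : KParOK S NA NB PA PB)
    {pats pats' : ℕ → ℕ → List Pat} {T' : ℕ} {M : DatM} (hM : KDatMOK S K T pats NA NB M)
    {gN gP : List ℤ} (hg : Sgn K.g gN gP) {DM : ℤ}
    (hc : ∀ f < T', ∀ f' < T', ∀ P ∈ pats' f f', ∀ A ∈ PA f, ∀ B ∈ PB f',
      cellP T pats DM P A B = true)
    (hE : ∀ c < S.T, ∀ c' < S.T, ∀ d : ℤ, -DM ≤ d → d ≤ DM → ∀ i < S.L, ∀ j < S.L,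
      kcellE T pats M gN gP d ⟨c, S.off c i, (NA c).getD i []⟩
        ⟨c', S.off c' j, (NB c').getD (j + 1) []⟩ = true)
    (hchd : ∀ c < S.T, ∀ r < S.L, S.chd c r < T') {c : ℕ} (hc1 : c < S.T) {c' : ℕ}
    (hc2 : c' < S.T) {d : ℤ} (hd1 : -DM ≤ d) (hd2 : d ≤ DM) {D : ℤ → ℤ}
    (hL : KLoc S K.g pats c c' d D) {i : ℕ} (hi : i < S.L) {j : ℕ} (hj : j < S.L) :
    NoKE K.g pats' (S.chd c i) (S.chd c' j) (S.off c i) (S.b * d + S.off c' j)
      (S.kFn K c i c' (j + 1) d D) (S.kFn K c (i + 1) c' j d D) :=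
  ⟨kev_near hT hZ hM hg hc1 hc2 hL hi hj (hE c hc1 c' hc2 d hd1 hd2 i hi j hj),
    kpat_near2 hT hZ hP hc hchd hc1 hc2 hL hd1 hd2 hi hj⟩

/-- **no minimal violation and no forbidden pattern between two child letters**, if the coarse
letters are near -/
theorem noKE_near {mp : ℕ} {T : Dat} (hT : KDatOK S K mp T) {NA NB : ℕ → List (List ℤ)}
    (hZ : KNzOK S K T.n0 NA NB) {PA PB : ℕ → List Ltr} (hP : KParOK S NA NB PA PB)
    {pats : ℕ → ℕ → List Pat} {M : DatM} (hM : KDatMOK S K T pats NA NB M) {gN gP : List ℤ}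
    (hg : Sgn K.g gN gP) {DM : ℤ}
    (hc : ∀ f < S.T, ∀ f' < S.T, ∀ P ∈ pats f f', ∀ A ∈ PA f, ∀ B ∈ PB f',
      cellP T pats DM P A B = true)
    (hE : ∀ c < S.T, ∀ c' < S.T, ∀ d : ℤ, -DM ≤ d → d ≤ DM → ∀ i < S.L, ∀ j < S.L,
      kcellE T pats M gN gP d ⟨c, S.off c i, (NA c).getD i []⟩
        ⟨c', S.off c' j, (NB c').getD (j + 1) []⟩ = true)
    (hchd : ∀ c < S.T, ∀ r < S.L, S.chd c r < S.T) {c : ℕ} (hc1 : c < S.T) {c' : ℕ}
    (hc2 : c' < S.T) {d : ℤ} (hd1 : -DM ≤ d) (hd2 : d ≤ DM) {D : ℤ → ℤ}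
    (hL : KLoc S K.g pats c c' d D) {i : ℕ} (hi : i < S.L) {j : ℕ} (hj : j < S.L) :
    NoKE K.g pats (S.chd c i) (S.chd c' j) (S.off c i) (S.b * d + S.off c' j)
      (S.kFn K c i c' (j + 1) d D) (S.kFn K c (i + 1) c' j d D) :=
  noKE_near2 hT hZ hP hM hg hc hE hchd hc1 hc2 hd1 hd2 hL hi hj

/-! ## The loop -/

/-- all letters of two blocks, all near distances; `LA c`, `LB c` list the letters of a block, with
the noise from the letter on, and up to the letter -/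
def kevChk (T : Dat) (pats : ℕ → ℕ → List Pat) (M : DatM) (gN gP : List ℤ) (LA LB : ℕ → List Ltr)
    (n c c' : ℕ) : Bool :=
  (nearD n).all fun d => (LA c).all fun A => (LB c').all fun B => kcellE T pats M gN gP d A B

/-- `LA`, `LB` list all letters of the blocks -/
structure KLtrOK (S : Tab) (NA NB : ℕ → List (List ℤ)) (LA LB : ℕ → List Ltr) : Prop where
  a : ∀ c < S.T, ∀ i < S.L, ⟨c, S.off c i, (NA c).getD i []⟩ ∈ LA c
  b : ∀ c < S.T, ∀ j < S.L, ⟨c, S.off c j, (NB c).getD (j + 1) []⟩ ∈ LB c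

/-- the letters of a block, with the noise from the letter on -/
def Tab.kltrA (S : Tab) (NA : ℕ → List (List ℤ)) (c : ℕ) : List Ltr :=
  (List.range S.L).map fun i => ⟨c, S.off c i, (NA c).getD i []⟩

/-- the letters of a block, with the noise up to the letter -/
def Tab.kltrB (S : Tab) (NB : ℕ → List (List ℤ)) (c : ℕ) : List Ltr :=
  (List.range S.L).map fun j => ⟨c, S.off c j, (NB c).getD (j + 1) []⟩

theorem kltrOK_of (S : Tab) (NA NB : ℕ → List (List ℤ)) :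
    KLtrOK S NA NB (S.kltrA NA) (S.kltrB NB) :=
  ⟨fun _ _ i hi => List.mem_map.2 ⟨i, List.mem_range.2 hi, rfl⟩,
    fun _ _ i hi => List.mem_map.2 ⟨i, List.mem_range.2 hi, rfl⟩⟩

theorem kevChk_sound {T : Dat} {NA NB : ℕ → List (List ℤ)} {pats : ℕ → ℕ → List Pat} {M : DatM}
    {gN gP : List ℤ} {LA LB : ℕ → List Ltr} (hLt : KLtrOK S NA NB LA LB) {n : ℕ}
    (h : ∀ c < S.T, ∀ c' < S.T, kevChk T pats M gN gP LA LB n c c' = true) :
    ∀ c < S.T, ∀ c' < S.T, ∀ d : ℤ, -(n : ℤ) ≤ d → d ≤ n → ∀ i < S.L, ∀ j < S.L,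
      kcellE T pats M gN gP d ⟨c, S.off c i, (NA c).getD i []⟩
        ⟨c', S.off c' j, (NB c').getD (j + 1) []⟩ = true := by
  intro c hc c' hc' d hd1 hd2 i hi j hj
  have h1 := h c hc c' hc'
  unfold kevChk at h1
  simp only [List.all_eq_true] at h1
  exact h1 d (mem_nearD n hd1 hd2) _ (hLt.a c hc i hi) _ (hLt.b c' hc' j hj)

end LWG
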