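import Pool.Agent.LWG.PatE

/-!
# The refuter for boxes

`goE` refutes constraints `Cz` for `Co.comb D` at consecutive fine edges: entries `En` (exact values,
bounds, nothing), or zero until the first positive value. It starts with a run of exact values
(`startE`, certificates `Sol`), goes up (`runE`) and then down (`lowE`); a new coarse value is exact,
or it is bounded on one side and then split (`brG`, `brL`, `brU`) where this is necessary. There may
be fine edges without coefficients.
-/

set_option autoImplicit false

namespace LWG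

variable {D : ℤ → ℤ} {K : Co}

/-! ## One value -/

/-- a value bounded by `s` does not satisfy the entry -/
def exclE (s : Sm) : En → Bool
  | .ex t => excl s t
  | .ge t => s.hi && negB (s.v - t)
  | .le t => s.lo && posB (s.v - t)
  | .un => false

theorem exclE_sound {s : Sm} {x : ℤ} {c : En} (h : s.Bd x) (hc : c.Sat x)
    (he : exclE s c = true) : False := by
  rcases c with t | t | t | _
  · exact excl_sound h he hc
  · simp only [exclE, Bool.and_eq_true, negB_iff] at he
    have h1 := h.2 he.1
    have h2 : t ≤ x := hc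
    omega
  · simp only [exclE, Bool.and_eq_true, posB_iff] at he
    have h1 := h.1 he.1
    have h2 : x ≤ t := hc
    omega
  · simp [exclE] at he

/-- `f` refutes all values `≥ y` -/
def brG (f : En → Bool) : ℕ → ℤ → Bool
  | 0, y => f (.ge y)
  | n + 1, y => f (.ge y) || (f (.ex y) && brG f n (y + 1))

/-- `f` refutes all values `≤ y` -/
def brL (f : En → Bool) : ℕ → ℤ → Bool
  | 0, y => f (.le y)
  | n + 1, y => f (.le y) || (f (.ex y) && brL f n (y - 1))

/-- `f` refutes all values -/
def brU (f : En → Bool) (n : ℕ) : Bool :=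
  f .un || (f (.ex (.ofNat 0)) && brG f n (.ofNat 1) && brL f n (.negSucc 0))

theorem brG_sound {f : En → Bool} {x : ℤ} (hf : ∀ e : En, e.Sat x → f e = true → False) :
    ∀ (n : ℕ) (y : ℤ), y ≤ x → brG f n y = true → False
  | 0, y, h1, h2 => hf (.ge y) h1 h2
  | n + 1, y, h1, h2 => by
    simp only [brG, Bool.or_eq_true, Bool.and_eq_true] at h2
    rcases h2 with h2 | ⟨h2, h3⟩
    · exact hf (.ge y) h1 h2
    · rcases eq_or_lt_of_le h1 with h4 | h4
      · exact hf (.ex y) h4.symm h2
      · exact brG_sound hf n (y + 1) (by omega) h3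

theorem brL_sound {f : En → Bool} {x : ℤ} (hf : ∀ e : En, e.Sat x → f e = true → False) :
    ∀ (n : ℕ) (y : ℤ), x ≤ y → brL f n y = true → False
  | 0, y, h1, h2 => hf (.le y) h1 h2
  | n + 1, y, h1, h2 => by
    simp only [brL, Bool.or_eq_true, Bool.and_eq_true] at h2
    rcases h2 with h2 | ⟨h2, h3⟩
    · exact hf (.le y) h1 h2
    · rcases eq_or_lt_of_le h1 with h4 | h4
      · exact hf (.ex y) h4 h2
      · exact brL_sound hf n (y - 1) (by omega) h3

theorem brU_sound {f : En → Bool} {x : ℤ} (hf : ∀ e : En, e.Sat x → f e = true → False) {n : ℕ}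
    (h : brU f n = true) : False := by
  simp only [brU, Bool.or_eq_true, Bool.and_eq_true] at h
  rcases h with h | ⟨⟨h1, h2⟩, h3⟩
  · exact hf .un trivial h
  · rcases lt_trichotomy x 0 with h4 | h4 | h4
    · exact brL_sound hf n _ (show x ≤ Int.negSucc 0 by rw [Int.negSucc_eq]; omega) h3
    · exact hf (.ex (.ofNat 0)) h4 h1
    · exact brG_sound hf n _ (show Int.ofNat 1 ≤ x by change ((1 : ℕ) : ℤ) ≤ x; omega) h2

/-- `k x + y` satisfies the entry, `s` bounds `y`: `f` refutes all `x` -/
def extE (n : ℕ) (k : ℤ) (s : Sm) (c : En) (f : En → Bool) : Bool :=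
  match c with
  | .ex t =>
    bif s.lo then
      (bif s.hi then (bif zeB ((t - s.v) % k) then f (.ex ((t - s.v) / k)) else true)
      else brL f n ((t - s.v) / k))
    else bif s.hi then brG f n (-((s.v - t) / k))
    else brU f n
  | .ge t => bif s.hi then brG f n (-((s.v - t) / k)) else brU f n
  | .le t => bif s.lo then brL f n ((t - s.v) / k) else brU f n
  | .un => brU f n

theorem extE_sound {f : En → Bool} {n : ℕ} {k x y : ℤ} {s : Sm} {c : En} (hk : 0 < k)
    (hs : s.Bd y) (ht : c.Sat (k * x + y)) (hf : ∀ e : En, e.Sat x → f e = true → False)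
    (h : extE n k s c f = true) : False := by
  have hG : ∀ t, s.hi = true → t ≤ k * x + y → -((s.v - t) / k) ≤ x := fun t h1 h2 => by
    have h3 := hs.2 h1
    have : -x ≤ (s.v - t) / k := by
      rw [Int.le_ediv_iff_mul_le hk]
      linarith
    omega
  have hL : ∀ t, s.lo = true → k * x + y ≤ t → x ≤ (t - s.v) / k := fun t h1 h2 => by
    have h3 := hs.1 h1
    rw [Int.le_ediv_iff_mul_le hk]
    linarith
  unfold extE at h
  rcases c with t | t | t | _
  · have ht : k * x + y = t := ht
    rcases c1 : s.lo with _ | _ <;> rcases c2 : s.hi with _ | _ <;>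
      simp only [c1, c2, cond_true, cond_false] at h
    · exact brU_sound hf h
    · exact brG_sound hf n _ (hG t c2 ht.ge) h
    · exact brL_sound hf n _ (hL t c1 ht.le) h
    · have e1 := hs.1 c1
      have e2 := hs.2 c2
      have e3 : t - s.v = k * x := by linarith
      rcases c3 : zeB ((t - s.v) % k) with _ | _
      · rw [← Bool.not_eq_true, zeB_iff, e3] at c3
        exact c3 (Int.mul_emod_right _ _)
      · rw [c3, cond_true] at h
        refine hf (.ex ((t - s.v) / k)) ?_ h
        change x = (t - s.v) / k
        rw [e3, Int.mul_ediv_cancel_left _ hk.ne']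
  · have ht : t ≤ k * x + y := ht
    rcases c2 : s.hi with _ | _ <;> simp only [c2, cond_true, cond_false] at h
    · exact brU_sound hf h
    · exact brG_sound hf n _ (hG t c2 ht) h
  · have ht : k * x + y ≤ t := ht
    rcases c1 : s.lo with _ | _ <;> simp only [c1, cond_true, cond_false] at h
    · exact brU_sound hf h
    · exact brL_sound hf n _ (hL t c1 ht) h
  · exact brU_sound hf h

/-! ## Upwards -/

/-- a constraint at a fine edge: an entry; or the value is at least `t`, and if it is more then
nothing else is known -/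
inductive Cz where
  | e (c : En)
  | zp (t : ℤ)

/-- the constraints hold; `P` if none stops -/
def HoldsZ (K : Co) (D : ℤ → ℤ) (P : Prop) : ℤ → List Cz → Prop
  | _, [] => P
  | z, .e c :: cs => c.Sat (K.comb D z) ∧ HoldsZ K D P (z + 1) cs
  | z, .zp t :: cs => t < K.comb D z ∨ (K.comb D z = t ∧ HoldsZ K D P (z + 1) cs)

/-- entries as constraints -/
theorem holdsZ_map : ∀ (cs : List En) (z : ℤ), SatA (K.comb D) z cs →
    HoldsZ K D True z (cs.map Cz.e)
  | [], _, _ => trivial
  | _ :: cs, z, h => ⟨h.1, holdsZ_map cs (z + 1) h.2⟩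

/-- the value, if the constraint does not stop -/
def Cz.en : Cz → En
  | .e c => c
  | .zp t => .ex t

/-- the constraint does not stop here; `s` is the sum, all summands are known -/
def stopKE (R : ℤ → List En → Bool) (I : ℤ) (vec : List En) (s : Sm) : Cz → Bool
  | .e _ => true
  | .zp t => (s.hi && !posB (s.v - t)) || R I vec

/-- the constraint does not stop here; `s` is the sum without the top edge `I + 1` -/
def stopNE (R : ℤ → List En → Bool) (I : ℤ) (vec : List En) (k : ℤ) (s : Sm) : Cz → Bool
  | .e _ => true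
  | .zp t => bif s.hi then pos R R (I + 1) vec 9 (-((s.v - t - 1) / k)) else R I vec

/-- the constraints `cs` at the fine edges `z, z + 1, ...` are impossible; `vec` lists the entries at
the coarse edges `I, I - 1, ...` -/
def runE (K : Co) (n : ℕ) (R Q : ℤ → List En → Bool) : ℤ → List En → ℤ → List Cz → Bool
  | I, vec, _, [] => Q I vec
  | I, vec, z, c :: cs =>
    match I - K.tp z with
    | .ofNat j => stopKE R I vec (dot (K.ks z) (vec.drop j)) c &&
        (exclE (dot (K.ks z) (vec.drop j)) c.en || runE K n R Q I vec (z + 1) cs)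
    | .negSucc 0 =>
      match K.ks z with
      | [] => stopKE R I vec (dot [] vec) c &&
          (exclE (dot [] vec) c.en || runE K n R Q (I + 1) (.un :: vec) (z + 1) cs)
      | k :: ks =>
        bif posB k then stopNE R I vec k (dot ks vec) c && extE n k (dot ks vec) c.en
          (fun e => R (I + 1) (e :: vec) || runE K n R Q (I + 1) (e :: vec) (z + 1) cs)
        else stopKE R I vec (dot ks vec) c &&
          (exclE (dot ks vec) c.en || runE K n R Q (I + 1) (.un :: vec) (z + 1) cs)
    | .negSucc (_ + 1) => false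

section

variable {R Q : ℤ → List En → Bool} {P : Prop}
  (hR : ∀ I vec, SatD D I vec → R I vec = true → False)
  (hQ : ∀ I vec, SatD D I vec → P → Q I vec = true → False)

/-- continuing or stopping -/
theorem HoldsZ.cases {c : Cz} {cs : List Cz} {z : ℤ} (h : HoldsZ K D P z (c :: cs)) :
    (c.en.Sat (K.comb D z) ∧ HoldsZ K D P (z + 1) cs) ∨ ∃ t, c = .zp t ∧ t < K.comb D z := by
  rcases c with c | t
  · exact Or.inl h
  · rcases h with h | h
    · exact Or.inr ⟨t, rfl, h⟩
    · exact Or.inl h

include hR in
theorem stopKE_sound {I : ℤ} {vec : List En} {s : Sm} {t x : ℤ} (hv : SatD D I vec) (hs : s.Bd x)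
    (ht : t < x) (h : stopKE R I vec s (.zp t) = true) : False := by
  simp only [stopKE, Bool.or_eq_true, Bool.and_eq_true, Bool.not_eq_true'] at h
  rcases h with h | h
  · have h7 := hs.2 h.1
    have h8 : 0 < s.v - t := by omega
    rw [← posB_iff, h.2] at h8
    exact absurd h8 (by simp)
  · exact hR _ _ hv h

include hR hQ in
theorem runE_sound (hN : K.Nn) {n : ℕ} : ∀ (cs : List Cz) (I : ℤ) (vec : List En) (z : ℤ),
    SatD D I vec → HoldsZ K D P z cs → runE K n R Q I vec z cs = true → False
  | [], I, vec, z, h1, h2, h3 => hQ _ _ h1 h2 h3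
  | c :: cs, I, vec, z, h1, h2, h3 => by
    have hcs := h2.cases
    have hv : ∀ e : En, e.Sat (D (I + 1)) → SatD D (I + 1) (e :: vec) := fun e he =>
      ⟨he, by rwa [show I + 1 - 1 = I by ring]⟩
    -- all summands known
    have known : ∀ {s : Sm} {I' : ℤ} {vec' : List En}, s.Bd (K.comb D z) → SatD D I' vec' →
        (stopKE R I vec s c && (exclE s c.en || runE K n R Q I' vec' (z + 1) cs)) = true →
        (∀ (I : ℤ) (vec : List En), SatD D I vec → HoldsZ K D P (z + 1) cs →
          runE K n R Q I vec (z + 1) cs = true → False) → False := by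
      intro s I' vec' hs hv' h ih
      rw [Bool.and_eq_true, Bool.or_eq_true] at h
      rcases hcs with ⟨h4, h5⟩ | ⟨t, rfl, h4⟩
      · rcases h.2 with h6 | h6
        · exact exclE_sound hs h4 h6
        · exact ih _ _ hv' h5 h6
      · exact stopKE_sound hR h1 hs h4 h.1
    have ih := fun I vec h h' => runE_sound hN (n := n) cs I vec (z + 1) h h'
    unfold runE at h3
    rcases hz : I - K.tp z with j | _ | j
    · have hz' : I - (j : ℤ) = K.tp z := by
        have : I - K.tp z = (j : ℤ) := hz
        omega
      have hk : (dot (K.ks z) (vec.drop j)).Bd (K.comb D z) := by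
        have h4 := satD_drop j h1
        rw [hz'] at h4
        exact dot_sound _ (hN z) h4
      rw [hz] at h3
      exact known hk h1 h3 ih
    · have hz' : K.tp z = I + 1 := by
        have : I - K.tp z = -1 := hz
        omega
      rw [hz] at h3
      simp only at h3
      rcases hks : K.ks z with _ | ⟨k, ks⟩
      · rw [hks] at h3
        have hc : K.comb D z = 0 := by
          unfold Co.comb
          rw [hks]
          rfl
        refine known (s := dot [] vec) ?_ (hv .un trivial) h3 ih
        rw [hc]
        exact ⟨fun _ => le_rfl, fun _ => le_rfl⟩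
      rw [hks] at h3
      have hks0 : ∀ k ∈ ks, 0 ≤ k := fun k' h =>
        hN z k' (by rw [hks]; exact List.mem_cons_of_mem _ h)
      have hd := dot_sound (D := D) ks hks0 h1
      have hc : K.comb D z = k * D (I + 1) + dotZ D I ks := by
        unfold Co.comb
        rw [hks, hz']
        change k * D (I + 1) + dotZ D (I + 1 - 1) ks = _
        rw [show I + 1 - 1 = I by ring]
      simp only at h3
      rcases hp : posB k with _ | _
      · rw [hp, cond_false] at h3
        have hk0 : k = 0 := by
          have := hN z k (by rw [hks]; exact List.mem_cons_self)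
          by_contra h
          rw [posB_iff.2 (by omega)] at hp
          simp at hp
        refine known (s := dot ks vec) ?_ (hv .un trivial) h3 ih
        rw [hc, hk0, zero_mul, zero_add]
        exact hd
      rw [hp, cond_true, Bool.and_eq_true] at h3
      have hk0 := posB_iff.1 hp
      rcases hcs with ⟨h4, h5⟩ | ⟨t, rfl, h4⟩
      · refine extE_sound hk0 hd (hc ▸ h4) (fun e he h => ?_) h3.2
        rw [Bool.or_eq_true] at h
        exact h.elim (hR _ _ (hv e he)) (ih _ _ (hv e he) h5)
      · have h3 := h3.1
        unfold stopNE at h3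
        rcases c1 : (dot ks vec).hi with _ | _
        · rw [c1] at h3
          exact hR _ _ h1 h3
        · rw [c1] at h3
          have e1 := hd.2 c1
          refine pos_sound hR hR (by rwa [show I + 1 - 1 = I by ring]) 9 _ ?_ h3
          have : - D (I + 1) ≤ ((dot ks vec).v - t - 1) / k := by
            rw [Int.le_ediv_iff_mul_le hk0]
            rw [hc] at h4
            linarith
          omega
    · rw [hz] at h3
      simp at h3

end

/-! ## Downwards -/

/-- coefficients beyond the known entries -/
def remK : List ℤ → List En → List ℤ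
  | ks, [] => ks
  | [], _ :: _ => []
  | _ :: ks, _ :: es => remK ks es

/-- the sum of the known summands -/
def dotK : List ℤ → List En → Sm
  | [], _ => ⟨.ofNat 0, true, true⟩
  | _ :: _, [] => ⟨.ofNat 0, true, true⟩
  | k :: ks, e :: es => bif zeB k then dotK ks es else (dotK ks es).add k e

theorem Sm.Bd.add {s : Sm} {y x c : ℤ} {e : En} (hc : 0 ≤ c) (h : s.Bd y) (he : e.Sat x) :
    (s.add c e).Bd (c * x + y) := by
  have h1 := h.addS (c := c) he
  unfold Sm.addS at h1
  rcases hn : negB c with _ | _
  · rwa [hn, cond_false] at h1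
  · have := negB_iff.1 hn
    omega

theorem dotK_sound : ∀ (ks : List ℤ) {I : ℤ} {es : List En}, (∀ k ∈ ks, 0 ≤ k) → SatD D I es →
    ∃ y, (dotK ks es).Bd y ∧ dotZ D I ks = dotZ D (I - es.length) (remK ks es) + y
  | [], I, es, _, _ => by
    refine ⟨0, ⟨fun _ => le_rfl, fun _ => le_rfl⟩, ?_⟩
    rcases es with _ | ⟨e, es⟩ <;> simp [remK, dotZ]
  | k :: ks, I, [], _, _ => ⟨0, ⟨fun _ => le_rfl, fun _ => le_rfl⟩, by simp [remK]⟩
  | k :: ks, I, e :: es, hk, h => by
    have hk0 : 0 ≤ k := hk k (by simp)
    obtain ⟨y, h1, h2⟩ := dotK_sound ks (fun k h => hk k (List.mem_cons_of_mem _ h)) h.2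
    have e1 : dotZ D I (k :: ks) = k * D I + dotZ D (I - 1) ks := rfl
    have e2 : I - ((e :: es).length : ℤ) = I - 1 - es.length := by
      rw [List.length_cons]
      push_cast
      ring
    unfold dotK remK
    rw [e1, e2, h2]
    rcases h0 : zeB k with _ | _
    · exact ⟨k * D I + y, h1.add hk0 h.1, by ring⟩
    · refine ⟨y, h1, ?_⟩
      rw [zeB_iff.1 h0]
      ring

/-- the entries `cs` at the fine edges `z, z - 1, ...` are impossible -/
def lowE (K : Co) (n : ℕ) (U Q : ℤ → List En → Bool) : ℤ → List En → ℤ → List En → Bool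
  | I, vec, _, [] => Q I vec
  | I, vec, z, c :: cs =>
    match I - K.tp z with
    | .ofNat j =>
      match remK (K.ks z) (vec.drop j) with
      | [] => exclE (dotK (K.ks z) (vec.drop j)) c || lowE K n U Q I vec (z - 1) cs
      | [k] => Nat.ble j vec.length && posB k && extE n k (dotK (K.ks z) (vec.drop j)) c
          (fun e => U I (vec ++ [e]) || lowE K n U Q I (vec ++ [e]) (z - 1) cs)
      | _ => Q I vec
    | .negSucc _ => Q I vec

section

variable {U Q : ℤ → List En → Bool} {P : Prop}
  (hU : ∀ I vec, SatD D I vec → U I vec = true → False)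
  (hQ : ∀ I vec, SatD D I vec → P → Q I vec = true → False)

include hU hQ in
theorem lowE_sound (hN : K.Nn) (hP : P) {n : ℕ} : ∀ (cs : List En) (I : ℤ) (vec : List En)
    (z : ℤ), SatD D I vec → SatD (K.comb D) z cs → lowE K n U Q I vec z cs = true → False
  | [], I, vec, z, h1, _, h3 => hQ _ _ h1 hP h3
  | c :: cs, I, vec, z, h1, h2, h3 => by
    unfold lowE at h3
    rcases hz : I - K.tp z with j | j
    · have hz' : I - (j : ℤ) = K.tp z := by
        have : I - K.tp z = (j : ℤ) := hz
        omega
      have h4 := satD_drop j h1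
      rw [hz'] at h4
      obtain ⟨y, h5, h6⟩ := dotK_sound (K.ks z) (hN z) h4
      change K.comb D z = _ at h6
      rw [hz] at h3
      simp only at h3
      rcases hr : remK (K.ks z) (vec.drop j) with _ | ⟨k, _ | ⟨k', ks⟩⟩
      · rw [hr] at h3
        simp only [Bool.or_eq_true] at h3
        rcases h3 with h3 | h3
        · refine exclE_sound (x := K.comb D z) ?_ h2.1 h3
          rw [h6, hr]
          simpa [dotZ] using h5
        · exact lowE_sound hN hP cs I vec (z - 1) h1 h2.2 h3
      · rw [hr] at h3
        simp only [Bool.and_eq_true, posB_iff, Nat.ble_eq] at h3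
        obtain ⟨⟨hj, hk0⟩, h7⟩ := h3
        have e1 : K.tp z - ((vec.drop j).length : ℤ) = I - vec.length := by
          rw [List.length_drop]
          omega
        have e2 : K.comb D z = k * D (I - vec.length) + y := by
          rw [h6, hr, e1]
          simp [dotZ]
        have hv : ∀ e : En, e.Sat (D (I - vec.length)) → SatD D I (vec ++ [e]) := fun e he =>
          (satD_append vec [e] I).2 ⟨h1, he, trivial⟩
        refine extE_sound hk0 h5 (e2 ▸ h2.1) (fun e he h => ?_) h7
        rw [Bool.or_eq_true] at h
        exact h.elim (hU _ _ (hv e he)) (lowE_sound hN hP cs _ _ _ (hv e he) h2.2)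
      · rw [hr] at h3
        exact hQ _ _ h1 hP h3
    · rw [hz] at h3
      exact hQ _ _ h1 hP h3

end

/-! ## The start -/

/-- `∑ w_j t_j`, for exact entries -/
def wsumE : List ℤ → List Cz → Option ℤ
  | [], _ => some (.ofNat 0)
  | w :: ws, .e (.ex t) :: cs =>
    match wsumE ws cs with
    | some y => some (w * t + y)
    | none => none
  | _ :: _, _ => none

theorem wsumE_sound {P : Prop} : ∀ (ws : List ℤ) (cs : List Cz) {z t : ℤ}, HoldsZ K D P z cs →
    wsumE ws cs = some t → wdot (K.comb D) z ws = t
  | [], cs, z, t, _, h => by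
    simp only [wsumE, Option.some.injEq] at h
    rw [← h]
    rfl
  | w :: ws, [], z, t, _, h => by simp [wsumE] at h
  | w :: ws, .zp _ :: cs, z, t, _, h => by simp [wsumE] at h
  | w :: ws, .e (.ge _) :: cs, z, t, _, h => by simp [wsumE] at h
  | w :: ws, .e (.le _) :: cs, z, t, _, h => by simp [wsumE] at h
  | w :: ws, .e .un :: cs, z, t, _, h => by simp [wsumE] at h
  | w :: ws, .e (.ex u) :: cs, z, t, hH, h => by
    rcases h1 : wsumE ws cs with _ | y
    · simp [wsumE, h1] at h
    · simp only [wsumE, h1, Option.some.injEq] at h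
      have ih := wsumE_sound ws cs hH.2 h1
      have h2 : K.comb D z = u := hH.1
      rw [wdot, ih, h2, h]

/-- number of leading exact entries, at most `n` -/
def leadE : ℕ → List Cz → ℕ
  | n + 1, .e (.ex _) :: cs => leadE n cs + 1
  | _, _ => 0

theorem leadE_le : ∀ (n : ℕ) (cs : List Cz), leadE n cs ≤ n
  | 0, _ => by simp [leadE]
  | n + 1, [] => by simp [leadE]
  | n + 1, .zp _ :: cs => by simp [leadE]
  | n + 1, .e (.ge _) :: cs => by simp [leadE]
  | n + 1, .e (.le _) :: cs => by simp [leadE]
  | n + 1, .e .un :: cs => by simp [leadE]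
  | n + 1, .e (.ex _) :: cs => by
    have := leadE_le n cs
    simp only [leadE]
    omega

/-- contradiction by the elimination of the top value from `= t0`, `≥ t1` -/
def elimE (K : Co) (g : ℤ) (cs : List Cz) (vec : List En) : Bool :=
  match cs with
  | .e (.ex t0) :: .zp t1 :: _ => elim K g [.eq t0, .zp t1] vec
  | _ => false

theorem elimE_sound {P : Prop} {g : ℤ} {cs : List Cz} (hH : HoldsZ K D P g cs) {vec : List En}
    (hv : SatD D (K.tp g - 1) vec) (h : elimE K g cs vec = true) : False := by
  unfold elimE at h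
  split at h
  · rename_i t0 t1 cs'
    refine elim_sound (P := True) (cs := [.eq t0, .zp t1]) ⟨hH.1, ?_⟩ hv h
    rcases hH.2 with h1 | h1
    · exact Or.inl h1
    · exact Or.inr ⟨h1.1, trivial⟩
  · simp at h

/-- values from the bottom up, by a step of the certificate or by enumeration; then `f` -/
def startE (X n : ℕ) (U : ℤ → List En → Bool) (cs : List Cz) (f : List En → Bool) :
    List (Option Sv) → ℤ → List En → Bool
  | [], _, vec => f vec
  | none :: ss, I, vec =>
    ((exs X).all fun e => startE X n U cs f ss (I + 1) (e :: vec)) &&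
    (U (I + 1) (.ge (.ofNat (X + 1)) :: vec) ||
      startE X n U cs f ss (I + 1) (.ge (.ofNat (X + 1)) :: vec)) &&
    (U (I + 1) (.le (.negSucc X) :: vec) ||
      startE X n U cs f ss (I + 1) (.le (.negSucc X) :: vec))
  | some s :: ss, I, vec =>
    match wsumE s.w cs with
    | some t => extE n s.δ (dotS s.c vec) (.ex t)
        (fun e => U (I + 1) (e :: vec) || startE X n U cs f ss (I + 1) (e :: vec))
    | none => false

/-- The constraints `cs` at the fine edges `g, g + 1, ...` and the entries `lows` at
`g - 1, g - 2, ...` are impossible. -/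
def goE (K : Co) (σ : Sol) (X n : ℕ) (R Q : ℤ → List En → Bool) (g : ℤ) (cs : List Cz)
    (lows : List En) : Bool :=
  startE X n R cs (fun vec => elimE K g cs vec ||
      runE K n R (fun I vec => lowE K n R Q I vec (g - 1) lows) (K.tp g - 1) vec g cs)
    (σ ((g - K.e0) % K.b) (leadE 5 cs))
    (K.tp g - 1 - (σ ((g - K.e0) % K.b) (leadE 5 cs)).length) []

section

variable {R Q : ℤ → List En → Bool} {P : Prop}
  (hR : ∀ I vec, SatD D I vec → R I vec = true → False)
  (hQ : ∀ I vec, SatD D I vec → P → Q I vec = true → False)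

include hR in
theorem startE_sound {X n : ℕ} {g : ℤ} {cs : List Cz} (hH : HoldsZ K D P g cs)
    {f : List En → Bool} (hf : ∀ vec, SatD D (K.tp g - 1) vec → f vec = true → False)
    (hb : 0 < K.b) {r : ℤ} (hr : (g - K.e0) % K.b = r) :
    ∀ (ss : List (Option Sv)) (I : ℤ) (vec : List En),
    I + ss.length = K.tp g - 1 → okSs K r ss = true → SatD D I vec →
    startE X n R cs f ss I vec = true → False
  | [], I, vec, hI, _, hv, h => by
    simp only [List.length_nil, Nat.cast_zero, add_zero] at hI
    rw [hI] at hv
    exact hf vec hv h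
  | none :: ss, I, vec, hI, hss, hv, h => by
    simp only [startE, Bool.and_eq_true, List.all_eq_true, Bool.or_eq_true] at h
    obtain ⟨⟨h4, h5⟩, h6⟩ := h
    have hI' : I + 1 + ss.length = K.tp g - 1 := by
      rw [List.length_cons] at hI
      push_cast at hI
      omega
    have hv' : ∀ e : En, e.Sat (D (I + 1)) → SatD D (I + 1) (e :: vec) := fun e he =>
      ⟨he, by rwa [show I + 1 - 1 = I by ring]⟩
    have ih := fun vec' h' => startE_sound (X := X) (n := n) hH hf hb hr ss (I + 1) vec' hI' hss h'
    rcases lt_or_ge (X : ℤ) (D (I + 1)) with h7 | h7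
    · have h8 : (En.ge (.ofNat (X + 1))).Sat (D (I + 1)) := by
        change ((X + 1 : ℕ) : ℤ) ≤ _
        push_cast
        omega
      exact h5.elim (hR _ _ (hv' _ h8)) (ih _ (hv' _ h8))
    · rcases lt_or_ge (D (I + 1)) (-(X : ℤ)) with h9 | h9
      · have h8 : (En.le (.negSucc X)).Sat (D (I + 1)) := by
          change _ ≤ Int.negSucc X
          rw [Int.negSucc_eq]
          omega
        exact h6.elim (hR _ _ (hv' _ h8)) (ih _ (hv' _ h8))
      · obtain ⟨e, h10, h11⟩ := exs_mem X h9 h7
        exact ih _ (hv' _ h11) (h4 e h10)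
  | some s :: ss, I, vec, hI, hss, hv, h => by
    simp only [okSs, Bool.and_eq_true] at hss
    have hI' : I + 1 + ss.length = K.tp g - 1 := by
      rw [List.length_cons] at hI
      push_cast at hI
      omega
    rcases hw : wsumE s.w cs with _ | t
    · simp [startE, hw] at h
    · simp only [startE, hw] at h
      obtain ⟨h1, h2⟩ := s.ok_sound hb hss.1
      have h3 := h2 D g hr
      rw [wsumE_sound s.w cs hH hw, show K.tp g - ((ss.length + 1 : ℕ) : ℤ) = I + 1 by
        push_cast; omega] at h3
      have hv' : ∀ e : En, e.Sat (D (I + 1)) → SatD D (I + 1) (e :: vec) := fun e he =>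
        ⟨he, by rwa [show I + 1 - 1 = I by ring]⟩
      have h4 : (En.ex t).Sat (s.δ * D (I + 1) + dotZ D I s.c) := by
        change s.δ * D (I + 1) + dotZ D I s.c = t
        rw [h3]
        change _ = s.δ * D (I + 1) + dotZ D (I + 1 - 1) s.c
        rw [show I + 1 - 1 = I by ring]
      refine extE_sound h1 (dotS_sound s.c hv) h4 (fun e he h' => ?_) h
      rw [Bool.or_eq_true] at h'
      exact h'.elim (hR _ _ (hv' e he))
        (startE_sound hH hf hb hr ss (I + 1) _ hI' hss.2 (hv' e he))

include hR hQ in
/-- **Soundness of the refuter.** -/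
theorem goE_sound (hN : K.Nn) {σ : Sol} (hσ : okSol K σ 5 = true) {X n : ℕ} {g : ℤ}
    {cs : List Cz} {lows : List En} (h : HoldsZ K D P g cs) (h' : SatD (K.comb D) (g - 1) lows)
    (hg : goE K σ X n R Q g cs lows = true) : False := by
  simp only [okSol, Bool.and_eq_true, posB_iff, List.all_eq_true, List.mem_range] at hσ
  obtain ⟨hb, hσ⟩ := hσ
  have h0 := Int.emod_nonneg (g - K.e0) hb.ne'
  have h1 := Int.emod_lt_of_pos (g - K.e0) hb
  have h2 := leadE_le 5 cs
  have h3 := hσ ((g - K.e0) % K.b).toNat (by omega) (leadE 5 cs) (by omega)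
  rw [Int.toNat_of_nonneg h0] at h3
  refine startE_sound hR h (fun vec hv hf => ?_) hb rfl _ _ _ ?_ h3
    (show SatD D _ [] from trivial) hg
  · rw [Bool.or_eq_true] at hf
    exact hf.elim (elimE_sound h hv) (runE_sound hR (P := P)
      (fun I vec hv hP hq => lowE_sound hR hQ hN hP lows I vec (g - 1) hv h' hq) hN cs _ _ _ hv h)
  · ring

end

/-! ## Boxes with noise -/

/-- the entry minus `a` -/
def En.sub (e : En) (a : ℤ) : En :=
  match e with
  | .ex n => .ex (n - a)
  | .ge n => .ge (n - a)
  | .le n => .le (n - a)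
  | .un => .un

theorem En.sub_sat {e : En} {a x : ℤ} (h : e.Sat (x + a)) : (e.sub a).Sat x := by
  rcases e with n | n | n | _
  · have h : x + a = n := h
    change x = n - a
    omega
  · have h : n ≤ x + a := h
    change n - a ≤ x
    omega
  · have h : x + a ≤ n := h
    change x ≤ n - a
    omega
  · trivial

/-- targets: the entries minus the noise -/
def tgB : List En → List ℤ → List ℤ → List En
  | [], _, _ => []
  | e :: v, a, b => e.sub (hd a + hd b) :: tgB v a.tail b.tail

theorem tgB_sat {F u w : ℤ → ℤ} (hF : ∀ z, F z = u z + K.comb D z + w z) :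
    ∀ (v : List En) {g : ℤ} {a b : List ℤ}, ValA u g a → ValA w g b → SatA F g v →
    SatA (K.comb D) g (tgB v a b)
  | [], _, _, _, _, _, _ => trivial
  | e :: v, g, a, b, ha, hb, h => by
    refine ⟨En.sub_sat ?_, tgB_sat hF v ha.tail hb.tail h.2⟩
    rw [ha.hd, hb.hd]
    have := h.1
    rw [hF] at this
    rwa [show K.comb D g + (u g + w g) = u g + K.comb D g + w g by ring]

/-- the number of leading exact entries -/
def runX : List En → ℕ
  | .ex _ :: v => runX v + 1
  | _ => 0

/-- start of a longest run of exact entries; `i` place, `j`, `m` best start and length up to now -/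
def bestX : ℕ → ℕ → ℕ → List En → ℕ
  | _, j, _, [] => j
  | i, j, m, e :: v =>
    bif Nat.ble (runX (e :: v)) m then bestX (i + 1) j m v else bestX (i + 1) i (runX (e :: v)) v

theorem satA_take : ∀ (n : ℕ) {x : ℤ} {l : List En}, SatA D x l → SatA D x (l.take n)
  | 0, _, _, _ => by simp [SatA]
  | n + 1, _, [], _ => by simp [SatA]
  | n + 1, _, _ :: _, h => ⟨h.1, satA_take n h.2⟩

theorem satA_reverse : ∀ (l : List En) (x : ℤ), SatA D x l → SatD D (x + l.length - 1) l.reverse
  | [], x, _ => by simp [SatD]
  | e :: l, x, h => by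
    have ih := satA_reverse l (x + 1) h.2
    rw [List.reverse_cons, satD_append]
    refine ⟨?_, ?_, trivial⟩
    · rwa [show x + ((e :: l).length : ℤ) - 1 = x + 1 + l.length - 1 by
        rw [List.length_cons]; push_cast; ring]
    · rw [List.length_reverse, show x + ((e :: l).length : ℤ) - 1 - l.length = x by
        rw [List.length_cons]; push_cast; ring]
      exact h.1

/-- `goE`, split at the place `i` -/
def goAt (K : Co) (σ : Sol) (X n : ℕ) (U : ℤ → List En → Bool) (g : ℤ) (i : ℕ) (cs : List En) :
    Bool :=
  Nat.ble i cs.length && goE K σ X n U U (g + i) ((cs.drop i).map Cz.e) (cs.take i).reverse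

theorem goAt_sound {U : ℤ → List En → Bool}
    (hU : ∀ I vec, SatD D I vec → U I vec = true → False) (hN : K.Nn) {σ : Sol}
    (hσ : okSol K σ 5 = true) {X n : ℕ} {g : ℤ} {i : ℕ} {cs : List En}
    (h : SatA (K.comb D) g cs) (hg : goAt K σ X n U g i cs = true) : False := by
  unfold goAt at hg
  rw [Bool.and_eq_true, Nat.ble_eq] at hg
  obtain ⟨hi, hg⟩ := hg
  refine goE_sound (P := True) hU (fun I vec hv _ => hU I vec hv) hN hσ
    (holdsZ_map _ _ (satA_drop i h)) ?_ hg
  have := satA_reverse _ _ (satA_take i h)
  rwa [List.length_take, min_eq_left hi] at this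

end LWG
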