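import Pool.Agent.LWG.KCloseE
import Pool.Agent.LWG.KNear
import Pool.Agent.LWG.RefE

/-!
# Words with a kernel, patterns with inequalities: the near windows

As `LWG.EvK` and `LWG.KNear`, with forbidden patterns `PatE`.

* `psD`: the patterns at one distance; `LocE.mirror`;
* `boxV`: a box is impossible, `cellPE`, **`kpat_nearE`**: no forbidden pattern between two child
  letters;
* `kSE`, `kXE`, `kevVE`, `kcellEE`, **`kev_nearE`**: no minimal violation;
* **`noKE_nearE`**: the hypothesis `hN` of `kgood_subE` for near coarse letters;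
* `kpatChkE`, `kevChkE`: the loops.
-/

set_option autoImplicit false

namespace LWG

open LevelWords (Uni dl)

variable {S : Tab} {Kr : Ker} {K K' : Co} {D F : ℤ → ℤ} {g : List ℤ}

/-! ## Patterns -/

/-- the patterns at the distance `d` -/
def psD (d : ℤ) : List PatE → List PatE
  | [] => []
  | P :: ps => bif zeB (P.d - d) then P :: psD d ps else psD d ps

theorem mem_psD {d : ℤ} {P : PatE} : ∀ {ps : List PatE}, P ∈ psD d ps → P ∈ ps
  | [], h => by simp [psD] at h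
  | Q :: ps, h => by
    unfold psD at h
    rcases hz : zeB (Q.d - d) with _ | _
    · rw [hz, cond_false] at h
      exact List.mem_cons_of_mem _ (mem_psD h)
    · rw [hz, cond_true, List.mem_cons] at h
      rcases h with h | h
      · rw [h]
        exact List.mem_cons_self
      · exact List.mem_cons_of_mem _ (mem_psD h)

theorem LocE.psD {m : ℤ} {lv rv : List (List ℤ)} {ps : List PatE} {d : ℤ}
    (h : LocE m lv rv ps d D) : LocE m lv rv (psD d ps) d D :=
  ⟨h.base, fun P hP => h.pat P (mem_psD hP)⟩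

/-- **what is known about the mirror image** -/
theorem LocE.mirror {m : ℕ} {lv rv : List (List ℤ)} {ps : List PatE} {d : ℤ}
    (h : LocE m lv rv ps d D) (hl : ∀ v ∈ lv, v.length = 2 * m + 2)
    (hr : ∀ v ∈ rv, v.length = 2 * m + 2) :
    LocE m (lv.map mv) (rv.map mv) (ps.map PatE.mr) (-d) (mir D) where
  base := h.base.mirror hl hr
  pat P hP hd hA := by
    rw [List.mem_map] at hP
    obtain ⟨P, h1, rfl⟩ := hP
    have h2 : -P.d = -d := hd
    exact h.pat P h1 (by omega) (satA_mir _ _ hA)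

variable {m : ℤ} {lv rv : List (List ℤ)} {ps : List PatE} {d : ℤ}

/-- The entries `v` on the fine edges `g, g + 1, ...` are impossible, for the noise vectors `u` at
`0` and `w` at `bd = b * d`, listed from the edge `n0`. -/
def boxV (K : Co) (σ : Sol) (X n : ℕ) (m : ℤ) (lv rv : List (List ℤ)) (ps : List PatE)
    (d n0 bd g : ℤ) (v : List En) (u w : List ℤ) : Bool :=
  goAt K σ X n (leafE m lv rv ps d) g (bestX 0 0 0 v) (tgB v (sha n0 u g) (sha n0 w (g - bd)))

theorem boxV_sound (hN : K.Nn) {σ : Sol} (hσ : okSol K σ 5 = true) (h : LocE m lv rv ps d D)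
    {X n : ℕ} {n0 bd g : ℤ} {v : List En} {u w : List ℤ}
    (hF : ∀ z, F z = nz n0 u z + K.comb D z + nz n0 w (z - bd))
    (hc : boxV K σ X n m lv rv ps d n0 bd g v u w = true) : ¬ SatA F g v := fun hA =>
  goAt_sound h.leaf hN hσ (tgB_sat hF v (val_sha n0 u g) (val_sha' n0 w g bd) hA) hc

/-- The pattern `P` does not occur between the child letters `A` and `B`, if the distance of the
coarse letters is at most `DM`; `n`: bound for the splittings. -/
def cellPE (T : Dat) (pats : ℕ → ℕ → List PatE) (n : ℕ) (DM : ℤ) (P : PatE) (A B : Ltr) : Bool :=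
  !zeB ((P.d - B.o + A.o) % T.K.b) ||
  posB ((P.d - B.o + A.o) / T.K.b - DM) || posB (-DM - (P.d - B.o + A.o) / T.K.b) ||
  boxV T.K T.σ T.X n T.m (T.lv A.c) (T.rv B.c)
    (psD ((P.d - B.o + A.o) / T.K.b) (pats A.c B.c)) ((P.d - B.o + A.o) / T.K.b) T.n0
    (P.d - B.o + A.o) (A.o + P.e) P.v A.v B.v

theorem KDatOK.locE {mp : ℕ} {T : Dat} (h : KDatOK S Kr mp T) {pats : ℕ → ℕ → List PatE}
    {c c' : ℕ} (hc : c < S.T) (hc' : c' < S.T) {d : ℤ} (hL : KLocE S Kr.g pats c c' d D) :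
    LocE T.m (T.lv c) (T.rv c') (pats c c') d D :=
  hL.locE h.top (h.pos c hc) (h.pos c' hc') (h.lv c hc) (h.rv c' hc')

/-- **no forbidden pattern between two child letters**; `pats'`: patterns of the children, whose types
are `< T'` -/
theorem kpat_nearE {mp : ℕ} {T : Dat} (hT : KDatOK S Kr mp T) {NA NB : ℕ → List (List ℤ)}
    (hZ : KNzOK S Kr T.n0 NA NB) {PA PB : ℕ → List Ltr} (hP : KParOK S NA NB PA PB)
    {pats pats' : ℕ → ℕ → List PatE} {T' n : ℕ} {DM : ℤ}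
    (hc : ∀ f < T', ∀ f' < T', ∀ P ∈ pats' f f', ∀ A ∈ PA f, ∀ B ∈ PB f',
      cellPE T pats n DM P A B = true)
    (hchd : ∀ c < S.T, ∀ r < S.L, S.chd c r < T')
    {c c' : ℕ} (hc1 : c < S.T) (hc2 : c' < S.T) {d : ℤ} {D : ℤ → ℤ}
    (hL : KLocE S Kr.g pats c c' d D) (hd1 : -DM ≤ d) (hd2 : d ≤ DM) {i j : ℕ} (hi : i < S.L)
    (hj : j < S.L) :
    ∀ P ∈ pats' (S.chd c i) (S.chd c' j), P.d = S.b * d + S.off c' j - S.off c i →
      ¬ SatA (S.kFn Kr c (i + 1) c' j d D) (S.off c i + P.e) P.v := by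
  intro P hP1 hP2
  have h1 := hc _ (hchd c hc1 i hi) _ (hchd c' hc2 j hj) P hP1 _ (hP.a c hc1 i hi) _
    (hP.b c' hc2 j hj)
  have hb' : (S.b : ℤ) ≠ 0 := by exact_mod_cast hT.tie.b0.ne'
  have hb2 : T.K.b = (S.b : ℤ) := hT.tie.b
  have e1 : P.d - S.off c' j + S.off c i = S.b * d := by rw [hP2]; ring
  unfold cellPE at h1
  simp only [e1, hb2, Int.mul_emod_right, Int.mul_ediv_cancel_left _ hb', Bool.or_eq_true,
    Bool.not_eq_true', posB_iff] at h1
  rcases h1 with ((h1 | h1) | h1) | h1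
  · exact absurd h1 (by decide)
  · omega
  · omega
  · refine boxV_sound hT.tie.nn' hT.sol (hT.locE hc1 hc2 hL).psD (fun z => ?_) h1
    rw [hZ.a c hc1 (i + 1) hi, hZ.b c' hc2 j hj.le, hT.tie.comb]
    rfl

/-! ## Minimal violations -/

/-- a constraint of `goX` as a constraint of `goE` -/
def Cn.z : Cn → Cz
  | .eq t => .e (.ex t)
  | .zp t => .zp t

theorem holdsZ_of {P : Prop} : ∀ (cs : List Cn) {z : ℤ}, Holds K D P z cs →
    HoldsZ K D P z (cs.map Cn.z)
  | [], _, h => h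
  | .eq _ :: cs, _, h => ⟨h.1, holdsZ_of cs h.2⟩
  | .zp _ :: cs, _, h => by
    rcases h with h | h
    · exact Or.inl h
    · exact Or.inr ⟨h.1, holdsZ_of cs h.2⟩

/-- `-1` at `x`, zeros, a positive value: impossible -/
def kSE (K : Co) (σ : Sol) (X : ℕ) (m : ℤ) (lv rv : List (List ℤ)) (ps : List PatE)
    (d n0 bd Z nk x : ℤ) (u w : List ℤ) : Bool :=
  goE K σ X 3 (leafE m lv rv ps d) (leafFE m lv rv ps d (K.tp (Z + 1) - nk)) x
    ((tgS (Z - x).toNat (sha n0 u x) (sha n0 w (x - bd))).map Cn.z) []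

/-- `-1` at `x`, `n` zeros, `1`: impossible -/
def kXE (K : Co) (σ : Sol) (X : ℕ) (m : ℤ) (lv rv : List (List ℤ)) (ps : List PatE)
    (d n0 bd x : ℤ) (n : ℕ) (u w : List ℤ) : Bool :=
  goE K σ X 3 (leafE m lv rv ps d) (leafE m lv rv ps d) x
    ((tgX n (sha n0 u x) (sha n0 w (x - bd))).map Cn.z) []

theorem kSE_sound (hN : K.Nn) {σ : Sol} (hσ : okSol K σ 5 = true) (hb : 0 < K.b) {nk : ℤ}
    (hl : ∀ z, ((K.ks z).length : ℤ) ≤ nk + 1) (h : LocE m lv rv ps d D) {X : ℕ}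
    {n0 bd Z x : ℤ} {u w : List ℤ} (hF : ∀ z, F z = nz n0 u z + K.comb D z + nz n0 w (z - bd))
    (hu : n0 + u.length ≤ Z + 1) (hw : bd + n0 + w.length ≤ Z + 1)
    (hc : kSE K σ X m lv rv ps d n0 bd Z nk x u w = true) {y : ℤ} (hxy : x < y) (hx : F x = -1)
    (hy : 0 < F y) (h0 : ∀ z, x < z → z < y → F z = 0) : False := by
  unfold kSE at hc
  rw [tgS_eq (N := fun z => nz n0 u z + nz n0 w (z - bd)) (fun _ => rfl) (val_sha n0 u x)
    (val_sha' n0 w x bd)] at hc
  have hZ : ∀ z, Z < z → nz n0 u z + nz n0 w (z - bd) = 0 := fun z hz => by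
    rw [nz_zero (by omega), nz_zero (by omega)]
    rfl
  exact goE_sound (P := ∃ y, Z < y ∧ 0 < K.comb D y) h.leaf
    (fun I vec hv hP => by
      obtain ⟨y, hy, hy'⟩ := hP
      exact h.leafF (comb_pos hN hb hl hy hy') I vec hv) hN
    hσ (holdsZ_of _ (holds_evS (F := F) (fun z => by rw [hF]; ring) hZ hxy hx hy h0))
      (show SatD (K.comb D) (x - 1) [] from trivial) hc

theorem kXE_sound (hN : K.Nn) {σ : Sol} (hσ : okSol K σ 5 = true) (h : LocE m lv rv ps d D)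
    {X : ℕ} {n0 bd x : ℤ} {u w : List ℤ}
    (hF : ∀ z, F z = nz n0 u z + K.comb D z + nz n0 w (z - bd))
    {y : ℤ} (hc : kXE K σ X m lv rv ps d n0 bd x (y - x - 1).toNat u w = true) (hxy : x < y)
    (hx : F x = -1) (hy : F y = 1) (h0 : ∀ z, x < z → z < y → F z = 0) : False := by
  unfold kXE at hc
  rw [tgX_eq (N := fun z => nz n0 u z + nz n0 w (z - bd)) (fun _ => rfl) _ (val_sha n0 u x)
    (val_sha' n0 w x bd)] at hc
  exact goE_sound (P := True) h.leaf (fun I vec hv _ => h.leaf I vec hv) hN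
    hσ (holdsZ_of _ (holds_evX (F := F) (fun z => by rw [hF]; ring) hxy hx hy h0))
      (show SatD (K.comb D) (x - 1) [] from trivial) hc

/-- No minimal violation between the letters `A`, `B` (included in the noise). The primed data
belong to the mirror image. -/
def kevVE (K K' : Co) (σ σ' : Sol) (X : ℕ) (m : ℤ) (lv rv : List (List ℤ)) (ps : List PatE)
    (lv' rv' : List (List ℤ)) (ps' : List PatE) (d n0 : ℤ) (N : ℕ) (bd Z Z' nk : ℤ)
    (gN gP : List ℤ) (A B : ℤ) (u w : List ℤ) : Bool :=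
  (gN.all fun x => !memB (A + x - B) gN ||
    kSE K σ X m lv rv ps d n0 bd (mx Z (A + x + nk)) nk (A + x) u w) &&
  (gP.all fun y => !memB (A + y - B) gP ||
    kSE K' σ' X m lv' rv' ps' (-d) (-n0 - N) (-bd) (mx Z' (nk - 1 - (A + y))) nk (-1 - (A + y))
      (mv u) (mv w)) &&
  (gN.all fun x => gP.all fun y => (!posB (B + y - (A + x)) ||
    kXE K σ X m lv rv ps d n0 bd (A + x) (B + y - (A + x) - 1).toNat u w) &&
    (!posB (A + y - (B + x)) ||
    kXE K σ X m lv rv ps d n0 bd (B + x) (A + y - (B + x) - 1).toNat u w))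

theorem kevVE_sound (hN : K.Nn) (hN' : K'.Nn) {σ σ' : Sol} (hσ : okSol K σ 5 = true)
    (hσ' : okSol K' σ' 5 = true) (hb : 0 < K.b) (hb' : 0 < K'.b) {nk : ℤ}
    (hl : ∀ z, ((K.ks z).length : ℤ) ≤ nk + 1) (hl' : ∀ z, ((K'.ks z).length : ℤ) ≤ nk + 1)
    (hm : ∀ z, K'.comb (mir D) z = mir (K.comb D) z) (h : LocE m lv rv ps d D)
    {lv' rv' : List (List ℤ)} {ps' : List PatE} (h' : LocE m lv' rv' ps' (-d) (mir D)) {X N : ℕ}
    {n0 bd Z Z' A B : ℤ} {u w : List ℤ}
    (hF : ∀ z, F z = nz n0 u z + K.comb D z + nz n0 w (z - bd)) (hu : u.length = N)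
    (hw : w.length = N) (hZ : max (n0 + N) (bd + n0 + N) ≤ Z + 1)
    (hZ' : max (-n0) (-bd - n0) ≤ Z' + 1) {gN gP : List ℤ} (hg : Sgn g gN gP)
    (hc : kevVE K K' σ σ' X m lv rv ps lv' rv' ps' d n0 N bd Z Z' nk gN gP A B u w = true) :
    ¬ KEv g A B F := by
  unfold kevVE at hc
  simp only [Bool.and_eq_true, List.all_eq_true] at hc
  obtain ⟨⟨hc1, hc2⟩, hc3⟩ := hc
  rintro ⟨x, y, hxy, hx, hy, h0, hA, hB⟩
  simp only [prof_eq g A, prof_eq g B] at hA hB
  have e1 := mx_ge Z (x + nk)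
  have e2 := mx_ge Z' (nk - 1 - y)
  rcases hA with ⟨a1, a2⟩ | ⟨a1, a2⟩ <;> rcases hB with ⟨b1, b2⟩ | ⟨b1, b2⟩
  · -- both negative at `x`
    have h1 := hc1 _ (hg.n _ a1)
    rw [show A + (x - A) = x by ring] at h1
    have h2 := or_not h1 (memB_of (hg.n _ b1))
    exact kSE_sound hN hσ hb hl h hF (by omega) (by omega) h2 hxy a2 hy h0
  · -- negative at `x`, positive at `y`
    have h1 := (hc3 _ (hg.n _ a1) _ (hg.p _ b1)).1
    rw [show A + (x - A) = x by ring, show B + (y - B) - x = y - x by ring] at h1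
    exact kXE_sound hN hσ h hF (or_not h1 (posB_iff.2 (by omega))) hxy a2 b2 h0
  · have h1 := (hc3 _ (hg.n _ b1) _ (hg.p _ a1)).2
    rw [show B + (x - B) = x by ring, show A + (y - A) - x = y - x by ring] at h1
    exact kXE_sound hN hσ h hF (or_not h1 (posB_iff.2 (by omega))) hxy b2 a2 h0
  · -- both positive at `y`: mirror image
    have h1 := hc2 _ (hg.p _ a1)
    rw [show A + (y - A) = y by ring] at h1
    have h2 := or_not h1 (memB_of (hg.p _ b1))
    have hF' : ∀ z, mir F z = nz (-n0 - N) (mv u) z + K'.comb (mir D) z +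
        nz (-n0 - N) (mv w) (z - -bd) := fun z => by
      rw [hm, nz_mv hu, nz_mv hw]
      unfold mir
      rw [hF, show -1 - z - bd = -1 - (z - -bd) by ring]
      ring
    refine kSE_sound hN' hσ' hb' hl' h' hF' ?_ ?_ h2 (y := -1 - x) (by omega) ?_ ?_ ?_
    · rw [mv_length, hu]
      omega
    · rw [mv_length, hw]
      omega
    · unfold mir
      rw [show -1 - (-1 - y) = y by ring, a2]
    · unfold mir
      rw [show -1 - (-1 - x) = x by ring]
      omega
    · intro z h3 h4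
      unfold mir
      rw [h0 (-1 - z) (by omega) (by omega)]
      rfl

/-- no minimal violation between the letters `A` and `B`, at the coarse distance `d` -/
def kcellEE (T : Dat) (pats : ℕ → ℕ → List PatE) (M : DatM) (gN gP : List ℤ) (d : ℤ)
    (A B : Ltr) : Bool :=
  kevVE T.K M.K T.σ M.σ T.X T.m (T.lv A.c) (T.rv B.c) (psD d (pats A.c B.c)) (M.lv A.c)
    (M.rv B.c) ((psD d (pats A.c B.c)).map PatE.mr) d T.n0 M.N (T.K.b * d)
    (mx (T.n0 + M.N) (T.K.b * d + T.n0 + M.N) - 1)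
    (mx (-T.n0) (-(T.K.b * d) - T.n0) - 1) M.nk gN gP A.o (T.K.b * d + B.o) A.v B.v

/-- **no minimal violation between two child letters** -/
theorem kev_nearE {mp : ℕ} {T : Dat} (hT : KDatOK S Kr mp T) {NA NB : ℕ → List (List ℤ)}
    (hZ : KNzOK S Kr T.n0 NA NB) {pats : ℕ → ℕ → List PatE} {M : DatM}
    (hM : KDatMOK S Kr T (fun _ _ => []) NA NB M) {gN gP : List ℤ} (hg : Sgn Kr.g gN gP)
    {c c' : ℕ} (hc : c < S.T) (hc' : c' < S.T) {d : ℤ} {D : ℤ → ℤ}
    (hL : KLocE S Kr.g pats c c' d D) {i j : ℕ} (hi : i < S.L) (hj : j < S.L)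
    (h : kcellEE T pats M gN gP d ⟨c, S.off c i, (NA c).getD i []⟩
      ⟨c', S.off c' j, (NB c').getD (j + 1) []⟩ = true) :
    ¬ KEv Kr.g (S.off c i) (S.b * d + S.off c' j) (S.kFn Kr c i c' (j + 1) d D) := by
  unfold kcellEE at h
  simp only [hM.lv c hc, hM.rv c' hc'] at h
  have hV := (hT.locE hc hc' hL).psD
  have hb2 : T.K.b = (S.b : ℤ) := hT.tie.b
  have hb2' : M.K.b = (S.b : ℤ) := hM.tie.b
  have hb0 : (0 : ℤ) < S.b := by exact_mod_cast hT.tie.b0
  have e1 := mx_ge (T.n0 + M.N) (T.K.b * d + T.n0 + M.N)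
  have e2 := mx_ge (-T.n0) (-(T.K.b * d) - T.n0)
  rw [← hb2]
  refine kevVE_sound hT.tie.nn' hM.tie.nn' hT.sol hM.sol (by rw [hb2]; exact hb0)
    (by rw [hb2']; exact hb0) (Co.len_of hT.tie hM.ln) (Co.len_of hM.tie hM.ln')
    (fun z => ?_) hV
    (hV.mirror (fun v hv => length_klvec (hT.lv c hc v hv))
      fun v hv => length_krvec (hT.rv c' hc' v hv))
    (fun z => ?_) (hM.na c hc i hi.le) (hM.nb c' hc' (j + 1) hj) (by omega) (by omega) hg h
  · rw [hM.tie.comb, comb_mir hT.tie.b0]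
    unfold mir
    rw [hT.tie.comb]
  · rw [hZ.a c hc i hi.le, hZ.b c' hc' (j + 1) hj, hT.tie.comb, hb2]
    rfl

/-- **no minimal violation and no forbidden pattern between two child letters**, if the coarse
letters are near; `pats'`: patterns of the children, whose types are `< T'` -/
theorem noKE_nearE {mp : ℕ} {T : Dat} (hT : KDatOK S Kr mp T) {NA NB : ℕ → List (List ℤ)}
    (hZ : KNzOK S Kr T.n0 NA NB) {PA PB : ℕ → List Ltr} (hP : KParOK S NA NB PA PB)
    {pats pats' : ℕ → ℕ → List PatE} {T' n : ℕ} {M : DatM}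
    (hM : KDatMOK S Kr T (fun _ _ => []) NA NB M) {gN gP : List ℤ} (hg : Sgn Kr.g gN gP) {DM : ℤ}
    (hc : ∀ f < T', ∀ f' < T', ∀ P ∈ pats' f f', ∀ A ∈ PA f, ∀ B ∈ PB f',
      cellPE T pats n DM P A B = true)
    (hE : ∀ c < S.T, ∀ c' < S.T, ∀ d : ℤ, -DM ≤ d → d ≤ DM → ∀ i < S.L, ∀ j < S.L,
      kcellEE T pats M gN gP d ⟨c, S.off c i, (NA c).getD i []⟩
        ⟨c', S.off c' j, (NB c').getD (j + 1) []⟩ = true)
    (hchd : ∀ c < S.T, ∀ r < S.L, S.chd c r < T') {c : ℕ} (hc1 : c < S.T) {c' : ℕ}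
    (hc2 : c' < S.T) {d : ℤ} (hd1 : -DM ≤ d) (hd2 : d ≤ DM) {D : ℤ → ℤ}
    (hL : KLocE S Kr.g pats c c' d D) {i : ℕ} (hi : i < S.L) {j : ℕ} (hj : j < S.L) :
    NoKEE Kr.g pats' (S.chd c i) (S.chd c' j) (S.off c i) (S.b * d + S.off c' j)
      (S.kFn Kr c i c' (j + 1) d D) (S.kFn Kr c (i + 1) c' j d D) where
  ev := kev_nearE hT hZ hM hg hc1 hc2 hL hi hj (hE c hc1 c' hc2 d hd1 hd2 i hi j hj)
  pat P hP1 hP2 := kpat_nearE hT hZ hP hc hchd hc1 hc2 hL hd1 hd2 hi hj P hP1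
    (by rw [hP2])

/-! ## The loops -/

/-- all patterns of the types `f`, `f'`, all parents -/
def kpatChkE (T : Dat) (pats pats' : ℕ → ℕ → List PatE) (PA PB : ℕ → List Ltr) (n : ℕ) (DM : ℤ)
    (f f' : ℕ) : Bool :=
  (pats' f f').all fun P => (PA f).all fun A => (PB f').all fun B => cellPE T pats n DM P A B

theorem kpatChkE_sound {T : Dat} {pats pats' : ℕ → ℕ → List PatE} {PA PB : ℕ → List Ltr} {n : ℕ}
    {DM : ℤ} {T' : ℕ} (h : ∀ f < T', ∀ f' < T', kpatChkE T pats pats' PA PB n DM f f' = true) :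
    ∀ f < T', ∀ f' < T', ∀ P ∈ pats' f f', ∀ A ∈ PA f, ∀ B ∈ PB f',
      cellPE T pats n DM P A B = true := by
  intro f hf f' hf' P hP A hA B hB
  have h1 := h f hf f' hf'
  unfold kpatChkE at h1
  simp only [List.all_eq_true] at h1
  exact h1 P hP A hA B hB

/-- all letters of two blocks, all near distances -/
def kevChkE (T : Dat) (pats : ℕ → ℕ → List PatE) (M : DatM) (gN gP : List ℤ)
    (LA LB : ℕ → List Ltr) (n c c' : ℕ) : Bool :=
  (nearD n).all fun d => (LA c).all fun A => (LB c').all fun B => kcellEE T pats M gN gP d A B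

theorem kevChkE_sound {T : Dat} {NA NB : ℕ → List (List ℤ)} {pats : ℕ → ℕ → List PatE} {M : DatM}
    {gN gP : List ℤ} {LA LB : ℕ → List Ltr} (hLt : KLtrOK S NA NB LA LB) {n : ℕ}
    (h : ∀ c < S.T, ∀ c' < S.T, kevChkE T pats M gN gP LA LB n c c' = true) :
    ∀ c < S.T, ∀ c' < S.T, ∀ d : ℤ, -(n : ℤ) ≤ d → d ≤ n → ∀ i < S.L, ∀ j < S.L,
      kcellEE T pats M gN gP d ⟨c, S.off c i, (NA c).getD i []⟩
        ⟨c', S.off c' j, (NB c').getD (j + 1) []⟩ = true := by
  intro c hc c' hc' d hd1 hd2 i hi j hj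
  have h1 := h c hc c' hc'
  unfold kevChkE at h1
  simp only [List.all_eq_true] at h1
  exact h1 d (mem_nearD n hd1 hd2) _ (hLt.a c hc i hi) _ (hLt.b c' hc' j hj)

end LWG
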