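import Pool.Agent.LWG.Base

/-!
# Typed substitutions of words: the decidable check of a table

**`Tab.ok_of`**: `okG N` and `okC N c` for all `c < T` give `Tab.OK`. `N` bounds the offsets.
-/

namespace LWG

open LevelWords

namespace Tab

variable (S : Tab)

/-- general facts about a table -/
def okG (N : ℕ) : Bool :=
  decide (0 < S.L) && decide (0 < S.b) && decide (1 ≤ S.m) && decide (S.m ≤ S.L) &&
    decide (-(N : ℤ) ≤ S.e0 - S.b) && decide (S.e0 + S.e.length ≤ (N : ℤ))

/-- facts about the block of the type `c` -/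
def okC (N c : ℕ) : Bool :=
  (List.range S.L).all (fun r => decide (S.chd c r < S.T)) &&
  (List.range (S.L - 1)).all (fun r => decide (S.chd c (r + 1) ∈ S.nxt (S.chd c r))) &&
  (S.nxt c).all (fun c' => decide (S.chd c' 0 ∈ S.nxt (S.chd c (S.L - 1))) &&
    (List.range S.L).all fun r => (List.range S.m).all fun j =>
      decide (S.step (S.chd c r) j = S.two c c' (r + j + 1) - S.two c c' (r + j)) &&
      decide (S.step (S.chd c' r) (-(j + 1 : ℕ)) =
        S.two c c' (S.L + r - j) - S.two c c' (S.L + r - (j + 1)))) &&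
  (List.range S.L).all (fun r => decide (-(N : ℤ) ≤ S.off c r - 1) &&
    decide (S.off c r < (N : ℤ))) &&
  (List.range (2 * N)).all fun k => decide (S.part c 0 S.L ((k : ℤ) - N) =
    S.comb (dl 0) ((k : ℤ) - N))

variable {S}

theorem part_nil {c : ℕ} {y : ℤ} : ∀ j : ℕ, (∀ r < j, dl (S.off c r) y = 0) →
    S.part c 0 j y = 0
  | 0, _ => part_self c 0 y
  | j + 1, h => by
    rw [part_succ c (Nat.zero_le j), part_nil j fun r hr => h r (by omega), h j (by omega),
      add_zero]

theorem comb_dl_zero {y : ℤ} (hb : 0 < S.b) (h : y < S.e0 - S.b ∨ S.e0 + S.e.length ≤ y) :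
    S.comb (dl 0) y = 0 := by
  unfold comb
  refine List.sum_eq_zero fun x hx => ?_
  obtain ⟨k, hk, rfl⟩ := List.mem_map.1 hx
  rw [List.mem_range] at hk
  split_ifs with hd
  · have hb' : (0 : ℤ) < S.b := by exact_mod_cast hb
    obtain ⟨q, hq⟩ := Int.dvd_of_emod_eq_zero hd
    rw [hq, Int.mul_ediv_cancel_left _ hb'.ne']
    have hq' : q < -1 ∨ 0 < q := by
      rcases h with h | h
      · left
        by_contra hc
        have : -1 ≤ q := by omega
        have : (S.b : ℤ) * (-1) ≤ S.b * q := mul_le_mul_of_nonneg_left this hb'.le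
        omega
      · right
        by_contra hc
        have : q ≤ 0 := by omega
        have : (S.b : ℤ) * q ≤ S.b * 0 := mul_le_mul_of_nonneg_left this hb'.le
        omega
    rcases dl_cases 0 q with h' | h' | h'
    · omega
    · omega
    · rw [h'.2.2, mul_zero]
  · rfl

/-- **the check of a table is sound** -/
theorem ok_of {N : ℕ} (hG : S.okG N = true) (hC : ∀ c < S.T, S.okC N c = true) : S.OK := by
  unfold okG at hG
  simp only [Bool.and_eq_true, decide_eq_true_eq] at hG
  obtain ⟨⟨⟨⟨⟨hL, hb⟩, hm⟩, hmL⟩, he1⟩, he2⟩ := hG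
  have key : ∀ c < S.T, _ := fun c hc => hC c hc
  simp only [okC, Bool.and_eq_true, List.all_eq_true, decide_eq_true_eq, List.mem_range] at key
  refine ⟨hL, hb, hm, hmL, fun c hc r hr => (key c hc).1.1.1.1 r hr,
    fun c hc r hr => (key c hc).1.1.1.2 r (by omega),
    fun c hc c' hc' => ((key c hc).1.1.2 c' hc').1,
    fun c hc c' hc' r hr j hj => (((key c hc).1.1.2 c' hc').2 r hr j hj).1,
    fun c hc c' hc' r hr j hj => (((key c hc).1.1.2 c' hc').2 r hr j hj).2, fun c hc y => ?_⟩
  have h1 := (key c hc).1.2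
  have h2 := (key c hc).2
  rcases lt_or_ge y (-(N : ℤ)) with h | h
  · rw [part_nil S.L fun r hr => ?_, comb_dl_zero hb (Or.inl (by omega))]
    have := h1 r hr
    rcases dl_cases (S.off c r) y with h' | h' | h' <;> omega
  rcases lt_or_ge y N with h' | h'
  · have := h2 (y + N).toNat (by omega)
    rwa [show (((y + N).toNat : ℕ) : ℤ) - N = y by omega] at this
  · rw [part_nil S.L fun r hr => ?_, comb_dl_zero hb (Or.inr (by omega))]
    have := h1 r hr
    rcases dl_cases (S.off c r) y with h'' | h'' | h'' <;> omega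

end Tab

end LWG
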