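import Pool.Agent.LWG.KVec
import Pool.Agent.LWG.OkT

/-!
# Words with a kernel: the decidable check of the kernel

**`Tab.kok_of`**: `kokG K N` and `kokC K N c` for all `c < T` give `Tab.KOK`. `N` bounds the edges.
-/

namespace LWG

open LevelWords

namespace Tab

variable (S : Tab) (K : Ker)

/-- general facts about a kernel -/
def kokG (N : ℕ) : Bool :=
  decide (K.g.getD 0 0 ≠ 0) && decide (-(N : ℤ) ≤ K.e0 - S.b) &&
    decide (K.e0 + K.e.length + S.b * (K.g.length - 1 : ℕ) ≤ (N : ℤ))

/-- the convolved differences of the block of type `c` -/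
def kokC (N c : ℕ) : Bool :=
  (List.range S.L).all (fun r => decide (-(N : ℤ) ≤ S.off c r - 1) &&
    decide (S.off c r + K.g.length ≤ (N : ℤ))) &&
  (List.range (2 * N)).all fun k => decide (S.kpre K c S.L ((k : ℤ) - N) =
    (S.ref K).comb (cv K.g (dl 0)) ((k : ℤ) - N))

variable {S} {K}

theorem kpre_nil {c : ℕ} {y : ℤ} : ∀ j : ℕ, (∀ r < j, prof K.g (S.off c r) y = 0) →
    S.kpre K c j y = 0
  | 0, _ => kpre_zero c y
  | j + 1, h => by
    rw [kpre_succ, kpre_nil j fun r hr => h r (by omega), h j (by omega), add_zero]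

theorem comb_cv_zero {y : ℤ} (hb : 0 < S.b) (h0 : K.g.getD 0 0 ≠ 0)
    (h : y < K.e0 - S.b ∨ K.e0 + K.e.length + S.b * (K.g.length - 1 : ℕ) ≤ y) :
    (S.ref K).comb (cv K.g (dl 0)) y = 0 := by
  have hl : 0 < K.g.length := by
    rcases Nat.eq_zero_or_pos K.g.length with h | h
    · rw [List.length_eq_zero_iff.1 h] at h0
      exact absurd rfl h0
    · exact h
  unfold comb
  refine List.sum_eq_zero fun x hx => ?_
  obtain ⟨k, hk, rfl⟩ := List.mem_map.1 hx
  rw [List.mem_range] at hk
  have hk : k < K.e.length := hk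
  change (if (y - K.e0 - (k : ℤ)) % (S.b : ℤ) = 0 then
    K.e.getD k 0 * cv K.g (dl 0) ((y - K.e0 - (k : ℤ)) / (S.b : ℤ)) else 0) = 0
  split_ifs with hd
  · have hb' : (0 : ℤ) < S.b := by exact_mod_cast hb
    obtain ⟨q, hq⟩ := Int.dvd_of_emod_eq_zero hd
    rw [hq, Int.mul_ediv_cancel_left _ hb'.ne']
    have hq' : q < 0 - 1 ∨ 0 + (K.g.length : ℤ) ≤ q := by
      rcases h with h | h
      · left
        by_contra hc
        have : -1 ≤ q := by omega
        have : (S.b : ℤ) * (-1) ≤ S.b * q := mul_le_mul_of_nonneg_left this hb'.le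
        omega
      · right
        by_contra hc
        have : q ≤ ((K.g.length - 1 : ℕ) : ℤ) := by omega
        have : (S.b : ℤ) * q ≤ S.b * ((K.g.length - 1 : ℕ) : ℤ) :=
          mul_le_mul_of_nonneg_left this hb'.le
        omega
    rw [show cv K.g (dl 0) q = prof K.g 0 q from rfl, prof_out hq', mul_zero]
  · rfl

/-- **the check of a kernel is sound** -/
theorem kok_of (hB : S.Bas) {N : ℕ} (hG : S.kokG K N = true)
    (hC : ∀ c < S.T, S.kokC K N c = true) : S.KOK K := by
  simp only [kokG, Bool.and_eq_true, decide_eq_true_eq] at hG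
  obtain ⟨⟨h0, h1⟩, h2⟩ := hG
  refine ⟨hB, h0, fun c hc y => ?_⟩
  have h3 := hC c hc
  simp only [kokC, Bool.and_eq_true, List.all_eq_true, decide_eq_true_eq, List.mem_range] at h3
  obtain ⟨h3, h4⟩ := h3
  rcases lt_or_ge y (-(N : ℤ)) with h | h
  · rw [kpre_nil S.L fun r hr => prof_out (by have := h3 r hr; omega),
      comb_cv_zero hB.b0 h0 (Or.inl (by omega))]
  rcases lt_or_ge y N with h' | h'
  · have := h4 (y + N).toNat (by omega)
    rwa [show (((y + N).toNat : ℕ) : ℤ) - N = y by omega] at this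
  · rw [kpre_nil S.L fun r hr => prof_out (by have := h3 r hr; omega),
      comb_cv_zero hB.b0 h0 (Or.inr (by omega))]

end Tab

end LWG
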