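import Mathlib.Tactic
import Mathlib.Data.List.GetD
import Mathlib.Algebra.BigOperators.Ring.Finset

/-!
# Packed vectors: natural numbers with digits of `K` bits

* `pf K N f`: the number with the digits `f 0, ..., f (N - 1)`, `pkL K l`: the same for a list;
* `pf_digits`: `(x >>> K s) mod 2 ^ (K w)` are the digits `s, ..., s + w - 1`;
* **`uniN_sound`**: one test with natural numbers for the unimodality of a packed vector.
-/

set_option autoImplicit false

open Finset

namespace LWG

/-- the number with the digits `f 0, ..., f (N - 1)` -/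
def pf (K N : ℕ) (f : ℕ → ℕ) : ℕ := ∑ k ∈ range N, f k * 2 ^ (K * k)

/-- the number with the digits of a list -/
def pkL (K : ℕ) : List ℕ → ℕ
  | [] => 0
  | a :: l => Nat.add a (Nat.shiftLeft (pkL K l) K)

theorem pf_zero (K : ℕ) (f : ℕ → ℕ) : pf K 0 f = 0 := rfl

theorem pf_succ (K N : ℕ) (f : ℕ → ℕ) :
    pf K (N + 1) f = f 0 + 2 ^ K * pf K N fun k => f (k + 1) := by
  unfold pf
  rw [sum_range_succ', mul_sum, add_comm, Nat.mul_zero, pow_zero, mul_one]
  congr 1
  refine sum_congr rfl fun k _ => ?_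
  rw [Nat.mul_succ, pow_add]
  ring

theorem pf_add (K : ℕ) {N : ℕ} (f g : ℕ → ℕ) : pf K N (fun k => f k + g k) = pf K N f + pf K N g := by
  unfold pf
  rw [← sum_add_distrib]
  exact sum_congr rfl fun k _ => by ring

theorem pf_congr {K N : ℕ} {f g : ℕ → ℕ} (h : ∀ k < N, f k = g k) : pf K N f = pf K N g :=
  sum_congr rfl fun k hk => by rw [h k (mem_range.1 hk)]

theorem pf_mul (K N c : ℕ) (f : ℕ → ℕ) : pf K N (fun k => c * f k) = c * pf K N f := by
  unfold pf
  rw [mul_sum]
  exact sum_congr rfl fun k _ => by ring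

theorem pf_split (K a b : ℕ) (f : ℕ → ℕ) :
    pf K (a + b) f = pf K a f + 2 ^ (K * a) * pf K b fun k => f (a + k) := by
  unfold pf
  rw [sum_range_add, mul_sum]
  congr 1
  refine sum_congr rfl fun k _ => ?_
  rw [Nat.mul_add, pow_add]
  ring

theorem pf_lt {K : ℕ} : ∀ {N : ℕ} {f : ℕ → ℕ}, (∀ k < N, f k < 2 ^ K) → pf K N f < 2 ^ (K * N)
  | 0, f, _ => by simp [pf_zero]
  | N + 1, f, h => by
    have h1 := pf_lt (N := N) (f := fun k => f (k + 1)) fun k hk => h (k + 1) (by omega)
    have h2 := h 0 (by omega)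
    rw [pf_succ, Nat.mul_succ, pow_add]
    have h3 : 2 ^ K * (pf K N fun k => f (k + 1)) + 2 ^ K ≤ 2 ^ K * 2 ^ (K * N) := by
      rw [← Nat.mul_succ]
      exact Nat.mul_le_mul_left _ h1
    rw [mul_comm (2 ^ (K * N))]
    omega

/-- **digits of a packed vector** -/
theorem pf_digits {K N s w : ℕ} {f : ℕ → ℕ} (h : ∀ k < N, f k < 2 ^ K) (hs : s + w ≤ N) :
    pf K N f / 2 ^ (K * s) % 2 ^ (K * w) = pf K w fun k => f (s + k) := by
  obtain ⟨r, rfl⟩ : ∃ r, N = s + (w + r) := ⟨N - s - w, by omega⟩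
  rw [pf_split, Nat.add_mul_div_left _ _ (Nat.two_pow_pos _),
    Nat.div_eq_of_lt (pf_lt fun k hk => h k (by omega)), zero_add, pf_split,
    Nat.add_mul_mod_self_left, Nat.mod_eq_of_lt (pf_lt fun k hk => h (s + k) (by omega))]

theorem pf_digit {K N s : ℕ} {f : ℕ → ℕ} (h : ∀ k < N, f k < 2 ^ K) (hs : s < N) :
    pf K N f / 2 ^ (K * s) % 2 ^ K = f s := by
  have := pf_digits (w := 1) h (by omega : s + 1 ≤ N)
  rw [mul_one] at this
  rw [this, pf_succ, pf_zero]
  simp

theorem pf_testBit {K N s r : ℕ} {f : ℕ → ℕ} (h : ∀ k < N, f k < 2 ^ K) (hs : s < N) (hr : r < K) :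
    (pf K N f).testBit (K * s + r) = (f s).testBit r := by
  rw [← pf_digit h hs, Nat.testBit_mod_two_pow, Nat.testBit_div_two_pow, Nat.add_comm r]
  simp [hr]

theorem testBit_top {k y : ℕ} (h : y < 2 ^ (k + 1)) : y.testBit k = decide (2 ^ k ≤ y) := by
  rw [Nat.testBit_eq_decide_div_mod_eq]
  have h0 := Nat.two_pow_pos k
  rcases lt_or_ge y (2 ^ k) with h1 | h1
  · rw [Nat.div_eq_of_lt h1]
    simp [h1]
  · have h2 : y / 2 ^ k = 1 := by
      rw [Nat.div_eq_iff h0]
      rw [pow_succ] at h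
      constructor <;> omega
    rw [h2]
    simp [h1]

/-! ### lists -/

theorem pkL_eq (K : ℕ) : ∀ l : List ℕ, pkL K l = pf K l.length fun k => l.getD k 0
  | [] => rfl
  | a :: l => by
    unfold pkL
    rw [List.length_cons, pf_succ, pkL_eq K l]
    change a + (pf K l.length fun k => l.getD k 0) <<< K = _
    rw [Nat.shiftLeft_eq, mul_comm]
    rfl

/-- digits of a list, shifted -/
def dg (s : ℕ) (l : List ℕ) (k : ℕ) : ℕ := if s ≤ k then l.getD (k - s) 0 else 0

theorem pkL_shift {K N s : ℕ} {l : List ℕ} (h : s + l.length ≤ N) :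
    Nat.shiftLeft (pkL K l) (K * s) = pf K N (dg s l) := by
  obtain ⟨r, rfl⟩ : ∃ r, N = s + (l.length + r) := ⟨N - s - l.length, by omega⟩
  have h1 : pf K s (dg s l) = 0 := by
    unfold pf
    refine sum_eq_zero fun k hk => ?_
    unfold dg
    rw [if_neg (by rw [mem_range] at hk; omega), zero_mul]
  have h2 : (pf K r fun k => dg s l (s + (l.length + k))) = 0 := by
    unfold pf
    refine sum_eq_zero fun k _ => ?_
    unfold dg
    simp only
    rw [if_pos (by omega), List.getD_eq_default _ _ (by omega), zero_mul]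
  change pkL K l <<< (K * s) = _
  rw [Nat.shiftLeft_eq, pf_split, h1, pf_split, h2, mul_zero, add_zero, zero_add, pkL_eq, mul_comm]
  congr 1
  refine pf_congr fun k _ => ?_
  unfold dg
  rw [if_pos (by omega), Nat.add_sub_cancel_left]

/-- `n` digits `1` -/
def rp (K n : ℕ) : ℕ := pkL K (List.replicate n 1)

theorem rp_eq (K n : ℕ) : rp K n = pf K n fun _ => 1 := by
  unfold rp
  rw [pkL_eq, List.length_replicate]
  refine pf_congr fun k hk => ?_
  rw [List.getD_eq_getElem?_getD, List.getElem?_replicate, if_pos hk, Option.getD_some]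

/-! ### unimodality -/

/-- No digit below the middle before one above it. `M` are the top bits, `R` is `rp`. -/
def uniN (M R x : ℕ) : Bool :=
  Nat.beq (Nat.land (Nat.land (Nat.sub x R) M) (Nat.sub (Nat.xor M (Nat.land x M)) 1))
    (Nat.land (Nat.sub x R) M)

/-- subtracting `1` does not change the bits above a bit which is `1` -/
theorem testBit_pred {n a b : ℕ} (hab : a < b) (h : n.testBit a = true) :
    (n - 1).testBit b = n.testBit b := by
  have h1 : 0 < n % 2 ^ b := by
    have h2 : (n % 2 ^ b).testBit a = true := by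
      rw [Nat.testBit_mod_two_pow, h]
      simp [hab]
    by_contra hc
    rw [not_lt, Nat.le_zero] at hc
    rw [hc] at h2
    simp at h2
  have h3 : (n - 1) / 2 ^ b = n / 2 ^ b := by
    have h4 := Nat.div_add_mod n (2 ^ b)
    have h5 := Nat.mod_lt n (Nat.two_pow_pos b)
    refine Nat.div_eq_of_lt_le ?_ ?_
    · rw [mul_comm]
      omega
    · rw [Nat.succ_mul, mul_comm]
      omega
  rw [Nat.testBit_eq_decide_div_mod_eq, Nat.testBit_eq_decide_div_mod_eq, h3]

/-- **the test for unimodality** -/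
theorem uniN_sound {K N : ℕ} {f : ℕ → ℕ} (h0 : ∀ k < N, 1 ≤ f k) (h1 : ∀ k < N, f k < 2 ^ (K + 1))
    {M R : ℕ} (hM : M = pf (K + 1) N fun _ => 2 ^ K) (hR : R = pf (K + 1) N fun _ => 1)
    (h : uniN M R (pf (K + 1) N f) = true) {u v : ℕ} (huv : u < v) (hv : v < N) (hu : f u < 2 ^ K) :
    f v ≤ 2 ^ K := by
  by_contra hc
  rw [not_le] at hc
  have hsub : pf (K + 1) N f - R = pf (K + 1) N fun k => f k - 1 := by
    rw [hR, Nat.sub_eq_iff_eq_add (by
      unfold pf
      exact sum_le_sum fun k hk => Nat.mul_le_mul_right _ (h0 k (mem_range.1 hk))), ← pf_add]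
    exact pf_congr fun k hk => by
      have := h0 k hk
      omega
  have hMl : ∀ k < N, (fun _ : ℕ => 2 ^ K) k < 2 ^ (K + 1) := fun k _ =>
    Nat.pow_lt_pow_right (by norm_num) (by omega)
  have hMb : ∀ k < N, M.testBit ((K + 1) * k + K) = true := fun k hk => by
    rw [hM, pf_testBit hMl hk (by omega)]
    simp
  have hP : (Nat.land (Nat.sub (pf (K + 1) N f) R) M).testBit ((K + 1) * v + K) = true := by
    change ((pf (K + 1) N f - R) &&& M).testBit _ = true
    rw [Nat.testBit_and, hMb v hv, hsub, pf_testBit (fun k hk => by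
      have := h1 k hk
      have := h0 k hk
      omega) hv (by omega), testBit_top (by have := h1 v hv; omega)]
    simp only [Bool.and_true, decide_eq_true_eq]
    omega
  have hX : ∀ k < N, (Nat.xor M (Nat.land (pf (K + 1) N f) M)).testBit ((K + 1) * k + K) =
      decide (f k < 2 ^ K) := fun k hk => by
    change (M ^^^ (pf (K + 1) N f &&& M)).testBit _ = _
    rw [Nat.testBit_xor, Nat.testBit_and, hMb k hk, pf_testBit h1 hk (by omega),
      testBit_top (h1 k hk)]
    by_cases hk : f k < 2 ^ K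
    · simp [hk]
    · simp [hk, not_lt.1 hk]
  have hlt : (K + 1) * u + K < (K + 1) * v + K := by
    have : (K + 1) * u < (K + 1) * v := Nat.mul_lt_mul_of_pos_left huv (by omega)
    omega
  have h2 : (Nat.sub (Nat.xor M (Nat.land (pf (K + 1) N f) M)) 1).testBit ((K + 1) * v + K) =
      false := by
    have := testBit_pred hlt (by rw [hX u (by omega)]; simpa using hu)
    change (Nat.xor M (Nat.land (pf (K + 1) N f) M) - 1).testBit _ = _
    rw [this, hX v hv]
    simpa using hc.le
  unfold uniN at h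
  have h3 := Nat.eq_of_beq_eq_true h
  have h4 : (Nat.land (Nat.land (Nat.sub (pf (K + 1) N f) R) M)
      (Nat.sub (Nat.xor M (Nat.land (pf (K + 1) N f) M)) 1)).testBit ((K + 1) * v + K) = false := by
    change ((Nat.land (Nat.sub (pf (K + 1) N f) R) M) &&&
      (Nat.sub (Nat.xor M (Nat.land (pf (K + 1) N f) M)) 1)).testBit _ = false
    rw [Nat.testBit_and, h2, Bool.and_false]
  rw [h3, hP] at h4
  exact absurd h4 (by simp)

end LWG
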