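import Pool.Agent.LWG.OkW
import Pool.Agent.LWG.Pack

/-!
# Packed windows

A window is a half block, explicit letters `ps` and a half block; all its differences in one number.

* `base`: the number of the explicit letters, prepared for two half blocks;
* **`win_eq`**: `base` and two half blocks give the number with the digits `F z + 2 ^ K`;
* `Ev_of_uni`: if the closed window is unimodal, there is no event.
-/

set_option autoImplicit false

namespace LWG

open LevelWords Finset

/-- **a closed unimodal window has no event** -/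
theorem ev_of_uni {A B : ℤ} {F : ℤ → ℤ} (h : Uni fun y => F y + dl A y + dl B y) :
    ¬ Ev1 A B F ∧ ¬ Ev2 A B F ∧ ¬ Ev3 A B F := by
  refine ⟨?_, ?_, ?_⟩
  · rintro (⟨h1, h2⟩ | ⟨h1, h2⟩)
    · have e1 := h2 A le_rfl (by omega)
      have e2 := h2 (B - 1) (by omega) (by omega)
      refine h A (B - 1) (by omega) ?_ ?_ <;> simp only
      · rcases dl_cases A A with k | k | k <;> rcases dl_cases B A with k' | k' | k' <;> omega
      · rcases dl_cases A (B - 1) with k | k | k <;> rcases dl_cases B (B - 1) with k' | k' | k' <;> omega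
    · have e1 := h2 B le_rfl (by omega)
      have e2 := h2 (A - 1) (by omega) (by omega)
      refine h B (A - 1) (by omega) ?_ ?_ <;> simp only
      · rcases dl_cases A B with k | k | k <;> rcases dl_cases B B with k' | k' | k' <;> omega
      · rcases dl_cases A (A - 1) with k | k | k <;> rcases dl_cases B (A - 1) with k' | k' | k' <;> omega
  · rintro ⟨rfl, h1, y, h2, h3, -⟩
    refine h B y h2 ?_ ?_ <;> simp only
    · rcases dl_cases B B with k | k | k <;> omega
    · rcases dl_cases B y with k | k | k <;> omega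
  · rintro ⟨rfl, h1, y, h2, h3, -⟩
    refine h y (B - 1) h2 ?_ ?_ <;> simp only
    · rcases dl_cases B y with k | k | k <;> omega
    · rcases dl_cases B (B - 1) with k | k | k <;> omega

/-- a value with a bias -/
def bias (B : ℕ) (x : ℤ) : ℕ := (x + B).toNat

/-- a list, shifted by `q + b p` for all `p ∈ ps` -/
def shs (K1 X b : ℕ) (q : ℤ) : List ℤ → ℕ
  | [] => 0
  | p :: ps => Nat.add (Nat.shiftLeft X (Nat.mul K1 (q + b * p).toNat)) (shs K1 X b q ps)

theorem shs_eq {K1 b N : ℕ} {q : ℤ} {l : List ℕ} : ∀ {ps : List ℤ},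
    (∀ p ∈ ps, 0 ≤ q + b * p ∧ q + b * p + l.length ≤ N) →
    shs K1 (pkL K1 l) b q ps = pf K1 N fun k => (ps.map fun p => dg (q + b * p).toNat l k).sum
  | [], _ => by
    unfold shs pf
    simp
  | p :: ps, h => by
    have h1 := h p (by simp)
    unfold shs
    rw [shs_eq fun p' hp' => h p' (by simp [hp'])]
    have h2 := pkL_shift (K := K1) (N := N) (s := (q + b * p).toNat) (l := l) (by omega)
    change (pkL K1 l).shiftLeft (K1 * (q + b * p).toNat) + _ = _
    rw [h2, ← pf_add]
    rfl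

/-- value of a list of letters -/
def lets (L0 : ℤ → ℤ) (b : ℕ) (ps : List ℤ) (z : ℤ) : ℤ := (ps.map fun p => L0 (z - b * p)).sum

theorem getD_map0 {α β : Type} (f : α → β) (a : α) (l : List α) (i : ℕ) :
    (l.map f).getD i (f a) = f (l.getD i a) := by
  rw [List.getD_eq_getElem?_getD, List.getD_eq_getElem?_getD, List.getElem?_map]
  cases l[i]? <;> rfl

theorem dg_pm {e1 z : ℤ} {ev : List ℤ} {s k : ℕ} (h : (k : ℤ) - s = z - e1) :
    (dg s (ev.map Int.toNat) k : ℤ) - dg s (ev.map fun x => (-x).toNat) k = nzv e1 ev z := by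
  unfold dg nzv
  by_cases hk : s ≤ k
  · rw [if_pos hk, if_pos hk, if_neg (by omega)]
    have e : (z - e1).toNat = k - s := by omega
    rw [e]
    have h1 := getD_map0 Int.toNat 0 ev (k - s)
    have h2 := getD_map0 (fun x : ℤ => (-x).toNat) 0 ev (k - s)
    rw [Int.toNat_zero] at h1
    simp only [neg_zero, Int.toNat_zero] at h2
    rw [h1, h2]
    exact Int.toNat_sub_toNat_neg _
  · rw [if_neg hk, if_neg hk, if_pos (by omega)]
    rfl

theorem dg_half {z0 z : ℤ} {v : List ℤ} {s k B : ℕ} (h : (k : ℤ) - s = z - z0)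
    (hB : ∀ x ∈ v, -(B : ℤ) ≤ x) :
    (dg s (v.map (bias B)) k : ℤ) - dg s (List.replicate v.length B) k = nzv z0 v z := by
  unfold dg nzv
  by_cases hk : s ≤ k
  · rw [if_pos hk, if_pos hk, if_neg (by omega)]
    have e : (z - z0).toNat = k - s := by omega
    rw [e, List.getD_eq_getElem?_getD, List.getD_eq_getElem?_getD, List.getD_eq_getElem?_getD,
      List.getElem?_map, List.getElem?_replicate]
    rcases lt_or_ge (k - s) v.length with h1 | h1
    · have := hB _ (List.getElem_mem h1)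
      rw [List.getElem?_eq_getElem h1, if_pos h1]
      simp only [Option.map_some, Option.getD_some]
      unfold bias
      omega
    · rw [List.getElem?_eq_none h1, if_neg (by omega)]
      rfl
  · rw [if_neg hk, if_neg hk, if_pos (by omega)]
    rfl

theorem dg_le {s k B : ℕ} {l : List ℕ} (h : ∀ x ∈ l, x ≤ B) : dg s l k ≤ B := by
  unfold dg
  split_ifs
  · rw [List.getD_eq_getElem?_getD]
    rcases lt_or_ge (k - s) l.length with h1 | h1
    · rw [List.getElem?_eq_getElem h1]
      exact h _ (List.getElem_mem h1)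
    · rw [List.getElem?_eq_none h1]
      exact Nat.zero_le _
  · exact Nat.zero_le _

theorem nzv_abs {z0 z : ℤ} {v : List ℤ} {B : ℤ} (h0 : 0 ≤ B) (h : ∀ x ∈ v, |x| ≤ B) :
    |nzv z0 v z| ≤ B := by
  unfold nzv
  split_ifs
  · change |(0 : ℤ)| ≤ B
    simpa using h0
  · rw [List.getD_eq_getElem?_getD]
    rcases lt_or_ge ((z - z0).toNat) v.length with h1 | h1
    · rw [List.getElem?_eq_getElem h1]
      exact h _ (List.getElem_mem h1)
    · rw [List.getElem?_eq_none h1]
      change |(0 : ℤ)| ≤ B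
      simpa using h0

theorem sum_abs_le {B : ℤ} {f : ℤ → ℤ} (h : ∀ p, |f p| ≤ B) : ∀ ps : List ℤ,
    |(ps.map f).sum| ≤ ps.length * B
  | [] => by simp
  | p :: ps => by
    rw [List.map_cons, List.sum_cons, List.length_cons]
    have h1 := sum_abs_le h ps
    have h2 := h p
    have h3 := abs_add_le (f p) (ps.map f).sum
    push_cast
    linarith

theorem sum_le_len {B : ℕ} {f : ℤ → ℕ} (h : ∀ p, f p ≤ B) : ∀ ps : List ℤ,
    (ps.map f).sum ≤ ps.length * B
  | [] => by simp
  | p :: ps => by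
    rw [List.map_cons, List.sum_cons, List.length_cons, Nat.succ_mul]
    have h1 := sum_le_len h ps
    have h2 := h p
    omega

theorem sum_sub' {f g : ℤ → ℕ} {h : ℤ → ℤ} : ∀ (ps : List ℤ), (∀ p ∈ ps, (f p : ℤ) - g p = h p) →
    ((ps.map f).sum : ℤ) - (ps.map g).sum = (ps.map h).sum
  | [], _ => by simp
  | p :: ps, hp => by
    have h1 := sum_sub' ps fun q hq => hp q (by simp [hq])
    have h2 := hp p (by simp)
    rw [List.map_cons, List.map_cons, List.map_cons, List.sum_cons, List.sum_cons, List.sum_cons,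
      ← h2, ← h1]
    push_cast
    ring

/-- The explicit letters of a window, prepared for two half blocks: `K + 1` bits for a digit, `N`
digits, `HA` is the bias of the half blocks, `wl` their length, `EP`, `EM` the positive and the
negative part of a letter, `q` the index of its first digit for the letter `0`. -/
def base (K N HA wl EP EM b : ℕ) (q : ℤ) (sA sB : ℕ) (ps : List ℤ) : ℕ :=
  Nat.sub (Nat.add (Nat.mul (Nat.pow 2 K) (rp (K + 1) N)) (shs (K + 1) EP b q ps))
    (Nat.add (shs (K + 1) EM b q ps) (Nat.add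
      (Nat.shiftLeft (Nat.mul HA (rp (K + 1) wl)) (Nat.mul (K + 1) sA))
      (Nat.shiftLeft (Nat.mul HA (rp (K + 1) wl)) (Nat.mul (K + 1) sB))))

theorem rep_eq (K H n : ℕ) : Nat.mul H (rp K n) = pkL K (List.replicate n H) := by
  change H * rp K n = _
  rw [rp_eq, pkL_eq, List.length_replicate, ← pf_mul]
  refine pf_congr fun k hk => ?_
  rw [List.getD_eq_getElem?_getD, List.getElem?_replicate, if_pos hk, Option.getD_some, mul_one]

/-- **the number of a window** -/
theorem win_eq {K N HA Em b Z : ℕ} {z0 e1 bd : ℤ} {ev va vb : List ℤ} {ps : List ℤ}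
    (hps : ∀ p ∈ ps, 0 ≤ Z + e1 + b * p ∧ Z + e1 + b * p + ev.length ≤ N)
    (hA0 : 0 ≤ Z + z0) (hA1 : Z + z0 + va.length ≤ N) (hB0 : 0 ≤ Z + z0 + bd)
    (hB1 : Z + z0 + bd + va.length ≤ N) (hlen : vb.length = va.length)
    (hEm : ∀ x ∈ ev, |x| ≤ Em) (hva : ∀ x ∈ va, |x| ≤ HA) (hvb : ∀ x ∈ vb, |x| ≤ HA)
    (hsum : ps.length * Em + HA + HA < 2 ^ K) :
    base K N HA va.length (pkL (K + 1) (ev.map Int.toNat)) (pkL (K + 1) (ev.map fun x => (-x).toNat))
        b (Z + e1) (Z + z0).toNat (Z + z0 + bd).toNat ps +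
      Nat.shiftLeft (pkL (K + 1) (va.map (bias HA))) ((K + 1) * (Z + z0).toNat) +
      Nat.shiftLeft (pkL (K + 1) (vb.map (bias HA))) ((K + 1) * (Z + z0 + bd).toNat) =
    pf (K + 1) N fun k => (nzv z0 va ((k : ℤ) - Z) + lets (nzv e1 ev) b ps ((k : ℤ) - Z) +
      nzv z0 vb ((k : ℤ) - Z - bd) + 2 ^ K).toNat := by
  have i1 : shs (K + 1) (pkL (K + 1) (ev.map Int.toNat)) b (Z + e1) ps = _ :=
    shs_eq (N := N) fun p hp => by
      rw [List.length_map]
      exact hps p hp
  have i2 : shs (K + 1) (pkL (K + 1) (ev.map fun x => (-x).toNat)) b (Z + e1) ps = _ :=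
    shs_eq (N := N) fun p hp => by
      rw [List.length_map]
      exact hps p hp
  have i3 := pkL_shift (K := K + 1) (N := N) (s := (Z + z0).toNat)
    (l := List.replicate va.length HA) (by rw [List.length_replicate]; omega)
  have i4 := pkL_shift (K := K + 1) (N := N) (s := (Z + z0 + bd).toNat)
    (l := List.replicate va.length HA) (by rw [List.length_replicate]; omega)
  have i5 := pkL_shift (K := K + 1) (N := N) (s := (Z + z0).toNat)
    (l := va.map (bias HA)) (by rw [List.length_map]; omega)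
  have i6 := pkL_shift (K := K + 1) (N := N) (s := (Z + z0 + bd).toNat)
    (l := vb.map (bias HA)) (by rw [List.length_map]; omega)
  have i0 : Nat.mul (Nat.pow 2 K) (rp (K + 1) N) = pf (K + 1) N fun _ => 2 ^ K := by
    change 2 ^ K * rp (K + 1) N = _
    rw [rp_eq, ← pf_mul]
    simp
  have bE : ∀ x ∈ ev, x.toNat ≤ Em ∧ (-x).toNat ≤ Em := fun x hx => by
    have := abs_le.1 (hEm x hx)
    omega
  obtain ⟨dP, hdP⟩ : ∃ dP : ℕ → ℕ, dP = fun k =>
    (ps.map fun p => dg ((Z + e1 + b * p : ℤ)).toNat (ev.map Int.toNat) k).sum := ⟨_, rfl⟩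
  obtain ⟨dM, hdM⟩ : ∃ dM : ℕ → ℕ, dM = fun k =>
    (ps.map fun p => dg ((Z + e1 + b * p : ℤ)).toNat (ev.map fun x => (-x).toNat) k).sum := ⟨_, rfl⟩
  have bM : ∀ k, dM k ≤ ps.length * Em := fun k => by
    rw [hdM]
    refine sum_le_len (fun p => dg_le fun x hx => ?_) ps
    obtain ⟨y, hy, rfl⟩ := List.mem_map.1 hx
    exact (bE y hy).2
  obtain ⟨dA, hdA⟩ : ∃ dA : ℕ → ℕ, dA = dg (Z + z0).toNat (List.replicate va.length HA) := ⟨_, rfl⟩
  obtain ⟨dB, hdB⟩ : ∃ dB : ℕ → ℕ, dB = dg (Z + z0 + bd).toNat (List.replicate va.length HA) :=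
    ⟨_, rfl⟩
  have bA : ∀ k, dA k ≤ HA := fun k => by
    rw [hdA]
    exact dg_le fun x hx => (List.eq_of_mem_replicate hx).le
  have bB : ∀ k, dB k ≤ HA := fun k => by
    rw [hdB]
    exact dg_le fun x hx => (List.eq_of_mem_replicate hx).le
  rw [i5, i6]
  unfold base
  rw [i1, i2, rep_eq (K + 1) HA va.length]
  change (Nat.mul (Nat.pow 2 K) (rp (K + 1) N) + _ - (_ + ((pkL (K + 1) (List.replicate va.length HA)).shiftLeft
    ((K + 1) * (Z + z0).toNat) + (pkL (K + 1) (List.replicate va.length HA)).shiftLeft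
    ((K + 1) * (Z + z0 + bd).toNat)))) + _ + _ = _
  rw [i0, i3, i4, ← hdP, ← hdM, ← hdA, ← hdB]
  have hpoint : pf (K + 1) N (fun _ => 2 ^ K) + pf (K + 1) N dP =
      pf (K + 1) N (fun k => 2 ^ K + dP k - (dM k + (dA k + dB k))) +
        (pf (K + 1) N dM + (pf (K + 1) N dA + pf (K + 1) N dB)) := by
    rw [← pf_add, ← pf_add, ← pf_add, ← pf_add]
    refine pf_congr fun k _ => ?_
    have := bM k
    have := bA k
    have := bB k
    omega
  rw [hpoint, Nat.add_sub_cancel, ← pf_add, ← pf_add]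
  refine pf_congr fun k hk => ?_
  have c1 : ((dP k : ℕ) : ℤ) - dM k = lets (nzv e1 ev) b ps ((k : ℤ) - Z) := by
    rw [hdP, hdM]
    refine sum_sub' ps fun p hp => ?_
    refine dg_pm ?_
    have := (hps p hp).1
    omega
  have c2 : (dg (Z + z0).toNat (va.map (bias HA)) k : ℤ) - dA k =
      nzv z0 va ((k : ℤ) - Z) := by
    rw [hdA]
    exact dg_half (by omega) fun x hx => (abs_le.1 (hva x hx)).1
  have c3 : (dg (Z + z0 + bd).toNat (vb.map (bias HA)) k : ℤ) - dB k =
      nzv z0 vb ((k : ℤ) - Z - bd) := by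
    rw [hdB, ← hlen]
    exact dg_half (by omega) fun x hx => (abs_le.1 (hvb x hx)).1
  have := bM k
  have := bA k
  have := bB k
  have h2 : ((2 ^ K : ℕ) : ℤ) = 2 ^ K := by push_cast; rfl
  omega

/-- the digits are in the right range -/
theorem win_abs {K HA Em b : ℕ} {z0 e1 bd z : ℤ} {ev va vb : List ℤ} {ps : List ℤ}
    (hEm : ∀ x ∈ ev, |x| ≤ Em) (hva : ∀ x ∈ va, |x| ≤ HA) (hvb : ∀ x ∈ vb, |x| ≤ HA)
    (hsum : ps.length * Em + HA + HA < 2 ^ K) :
    |nzv z0 va z + lets (nzv e1 ev) b ps z + nzv z0 vb (z - bd)| < 2 ^ K := by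
  have h1 := nzv_abs (z0 := z0) (z := z) (by positivity) hva
  have h2 := nzv_abs (z0 := z0) (z := z - bd) (by positivity) hvb
  have h3 : |lets (nzv e1 ev) b ps z| ≤ ps.length * (Em : ℤ) :=
    sum_abs_le (f := fun p => nzv e1 ev (z - b * p)) (fun p => nzv_abs (by positivity) hEm) ps
  have h4 := abs_add_le (nzv z0 va z + lets (nzv e1 ev) b ps z) (nzv z0 vb (z - bd))
  have h5 := abs_add_le (nzv z0 va z) (lets (nzv e1 ev) b ps z)
  have h6 : ((ps.length * Em + HA + HA : ℕ) : ℤ) < ((2 ^ K : ℕ) : ℤ) := by exact_mod_cast hsum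
  push_cast at h6
  linarith

end LWG
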