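import Pool.Agent.LWG.Ops
import Pool.Agent.LWG.Short
import Pool.Agent.LWG.Win

/-!
# Substitution words: short windows, fast version

As in `Short`, but a window is one natural number. **`hS_ofN`**: the hypothesis `hS` of `good_sub`.
-/

set_option autoImplicit false

namespace LWG

open LevelWords

/-- A half block: offset `+ O`, type, differences of the letters from this one on, resp. up to this
one (this one included), packed. -/
structure HalfN where
  o : ℕ
  t : ℕ
  x : ℕ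

/-- A pattern: `e + Z - O`, length, packed values of the closed window. -/
structure PatN where
  s : ℕ
  w : ℕ
  r : ℕ

/-- Parameters: `K + 1` bits for a digit, bounds `HA` for half blocks and `Em` for one letter, `2 Z + 1`
edges, half blocks live on `wl` edges from `z0` on, `O` and `D` make offsets and distances natural. -/
structure Prm where
  K : ℕ
  HA : ℕ
  Em : ℕ
  Z : ℕ
  wl : ℕ
  O : ℕ
  D : ℕ
  z0 : ℤ

/-- values of a closed window with a pattern -/
def adj (d H : ℤ) : ℤ → List ℤ → List ℕ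
  | _, [] => []
  | g, v :: vs => (v + dl 0 g + dl d g + H).toNat :: adj d H (g + 1) vs

theorem adj_length (d H : ℤ) : ∀ (g : ℤ) (l : List ℤ), (adj d H g l).length = l.length
  | _, [] => rfl
  | g, _ :: vs => by
    unfold adj
    rw [List.length_cons, List.length_cons, adj_length d H (g + 1) vs]

theorem adj_getD {F : ℤ → ℤ} {a d H : ℤ} : ∀ (l : List ℤ) (g : ℤ), Agr F (a + g) l → ∀ k < l.length,
    (adj d H g l).getD k 0 = (F (a + g + k) + dl 0 (g + k) + dl d (g + k) + H).toNat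
  | [], _, _, k, hk => by simp at hk
  | v :: vs, g, h, 0, _ => by
    unfold adj
    rw [List.getD_cons_zero, Nat.cast_zero, add_zero, add_zero, h.1]
  | v :: vs, g, h, k + 1, hk => by
    unfold adj
    rw [List.getD_cons_succ, adj_getD vs (g + 1) (by rw [← add_assoc]; exact h.2) k (by simpa using hk)]
    rw [show a + (g + 1) + (k : ℤ) = a + g + ((k + 1 : ℕ) : ℤ) by push_cast; ring,
      show g + 1 + (k : ℤ) = g + ((k + 1 : ℕ) : ℤ) by push_cast; ring]

/-- packed form of a pattern -/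
def codePat (q : Prm) (P : Pat) : PatN :=
  ⟨(P.e + q.Z - q.O).toNat, P.v.length, pkL (q.K + 1) (adj P.d (2 ^ q.K : ℕ) P.e P.v)⟩

/-- a pattern does not occur in the window `x` from a letter at `oA` -/
noncomputable def patOk (K1 N x oA : ℕ) (P : PatN) : Bool :=
  Bool.rec (motive := fun _ => Bool) false
    (Bool.rec (motive := fun _ => Bool) true false (Nat.beq (Nat.mod (Nat.shiftRight x
      (Nat.mul K1 (Nat.add oA P.s))) (Nat.pow 2 (Nat.mul K1 P.w))) P.r))
      (Nat.ble (Nat.add (Nat.add oA P.s) P.w) N)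

/-- a window is unimodal and has no pattern -/
noncomputable def winOk (K1 N M R x oA : ℕ) (l : List PatN) : Bool :=
  Bool.rec (motive := fun _ => Bool) false (allL (patOk K1 N x oA) l) (uniN M R x)

namespace Tab

variable (S : Tab)

/-- differences of a block for the letter `0` -/
def evl : List ℤ := (List.range (S.e.length + S.b)).map fun (k : ℕ) => S.comb (dl 0) (S.e0 - S.b + k)

/-- everything happens in `[-Z, Z]`, and the digits are small -/
def inZN (q : Prm) (d : ℤ) (ps : List ℤ) : Bool :=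
  decide (0 ≤ q.Z + q.z0) && decide (q.Z + q.z0 + q.wl ≤ 2 * q.Z + 1) &&
    decide (0 ≤ q.Z + q.z0 + S.b * d) && decide (q.Z + q.z0 + S.b * d + q.wl ≤ 2 * q.Z + 1) &&
    decide (0 ≤ S.b * d + q.D) && decide (ps.length * q.Em + q.HA + q.HA < 2 ^ q.K) &&
    ps.all fun p => decide (0 ≤ q.Z + (S.e0 - S.b) + S.b * p) &&
      decide (q.Z + (S.e0 - S.b) + S.b * p + (S.e.length + S.b) ≤ 2 * q.Z + 1)

/-- the windows between two blocks with the explicit letters `ps` between them; `EP`, `EM`: positive and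
negative part of `evl`, packed; `M`: top bits, `R`: ones -/
noncomputable def chkTwoN (q : Prm) (pn : ℕ → ℕ → ℕ → List PatN) (EP EM M R : ℕ) (A B : List HalfN) (d : ℤ)
    (ps : List ℤ) : Bool :=
  Bool.rec (motive := fun _ => Bool) false
    (allL (fun a => allL (fun h => winOk (q.K + 1) (2 * q.Z + 1) M R (Nat.add (Nat.add
      (base q.K (2 * q.Z + 1) q.HA q.wl EP EM S.b (q.Z + (S.e0 - S.b)) (q.Z + q.z0).toNat
        (q.Z + q.z0 + S.b * d).toNat ps)
      (Nat.shiftLeft a.x (Nat.mul (q.K + 1) (q.Z + q.z0).toNat)))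
      (Nat.shiftLeft h.x (Nat.mul (q.K + 1) (q.Z + q.z0 + S.b * d).toNat)))
      a.o (pn a.t h.t (Nat.sub (Nat.add (S.b * d + q.D).toNat h.o) a.o))) B) A)
    (S.inZN q d ps)

/-- short windows which begin in a block of type `c` -/
noncomputable def chkShortN (q : Prm) (pn : ℕ → ℕ → ℕ → List PatN) (EP EM M R : ℕ)
    (SA SB : ℕ → List HalfN) (c : ℕ) : Bool :=
  S.walks (fun c' d ps => S.chkTwoN q pn EP EM M R (SA c) (SB c') d ps) (2 * S.m) c 0 []

/-- the half blocks after the letters of a block of type `c` -/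
def halfAN (q : Prm) (c : ℕ) : List HalfN := (List.range S.L).map fun i =>
  ⟨(S.off c i + q.O).toNat, S.chd c i,
    pkL (q.K + 1) (((List.range q.wl).map fun (k : ℕ) => S.part c i S.L (q.z0 + k)).map (bias q.HA))⟩

/-- the half blocks before the letters of a block of type `c` -/
def halfBN (q : Prm) (c : ℕ) : List HalfN := (List.range S.L).map fun j =>
  ⟨(S.off c j + q.O).toNat, S.chd c j,
    pkL (q.K + 1) (((List.range q.wl).map fun (k : ℕ) => S.part c 0 (j + 1) (q.z0 + k)).map (bias q.HA))⟩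

/-- bounds for a block of type `c` -/
def chkBdN (q : Prm) (c : ℕ) : Bool := (List.range S.L).all fun i =>
  decide (0 ≤ S.off c i + q.O) && (List.range q.wl).all fun k =>
    decide (S.part c i S.L (q.z0 + k) ≤ q.HA) && decide (-(q.HA : ℤ) ≤ S.part c i S.L (q.z0 + k)) &&
    decide (S.part c 0 (i + 1) (q.z0 + k) ≤ q.HA) && decide (-(q.HA : ℤ) ≤ S.part c 0 (i + 1) (q.z0 + k))

/-- every half block of the first list occurs in the second one -/
def subHN (A B : List HalfN) : Bool := A.all fun h => B.any fun g =>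
  Nat.beq g.o h.o && Nat.beq g.t h.t && Nat.beq g.x h.x

/-- the packed patterns -/
def chkPN (q : Prm) (pats : ℕ → ℕ → List Pat) (pn : ℕ → ℕ → ℕ → List PatN) (c c' : ℕ) : Bool :=
  (pats c c').all fun P => decide (0 ≤ P.e + q.Z - q.O) && (pn c c' (P.d + q.D).toNat).any fun p =>
    Nat.beq p.s (codePat q P).s && Nat.beq p.w (codePat q P).w && Nat.beq p.r (codePat q P).r

/-- the constants -/
def chkCN (q : Prm) (EP EM M R : ℕ) : Bool :=
  Nat.beq EP (pkL (q.K + 1) (S.evl.map Int.toNat)) &&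
    Nat.beq EM (pkL (q.K + 1) (S.evl.map fun x => (-x).toNat)) &&
    Nat.beq M (pkL (q.K + 1) (List.replicate (2 * q.Z + 1) (2 ^ q.K))) &&
    Nat.beq R (rp (q.K + 1) (2 * q.Z + 1)) && S.evl.all fun x => decide (x ≤ q.Em) && decide (-(q.Em : ℤ) ≤ x)

variable {S}

theorem subHN_sound {A B : List HalfN} (h : subHN A B = true) {a : HalfN} (ha : a ∈ A) : a ∈ B := by
  unfold subHN at h
  rw [List.all_eq_true] at h
  have := h a ha
  rw [List.any_eq_true] at this
  obtain ⟨g, hg, h1⟩ := this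
  simp only [Bool.and_eq_true] at h1
  obtain ⟨⟨h1, h2⟩, h3⟩ := h1
  replace h1 := Nat.eq_of_beq_eq_true h1
  replace h2 := Nat.eq_of_beq_eq_true h2
  replace h3 := Nat.eq_of_beq_eq_true h3
  obtain ⟨o, t, v⟩ := a
  obtain ⟨o', t', v'⟩ := g
  simp only at h1 h2 h3
  subst h1 h2 h3
  exact hg

theorem chkPN_sound {q : Prm} {pats : ℕ → ℕ → List Pat} {pn : ℕ → ℕ → ℕ → List PatN} {c c' : ℕ}
    (h : chkPN q pats pn c c' = true) {P : Pat} (hP : P ∈ pats c c') :
    0 ≤ P.e + q.Z - q.O ∧ codePat q P ∈ pn c c' (P.d + q.D).toNat := by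
  unfold chkPN at h
  rw [List.all_eq_true] at h
  have h1 := h P hP
  rw [Bool.and_eq_true, decide_eq_true_eq, List.any_eq_true] at h1
  obtain ⟨h1, p, hp, h2⟩ := h1
  refine ⟨h1, ?_⟩
  simp only [Bool.and_eq_true] at h2
  obtain ⟨⟨k2, k3⟩, k4⟩ := h2
  have k2 := Nat.eq_of_beq_eq_true k2
  have k3 := Nat.eq_of_beq_eq_true k3
  have k4 := Nat.eq_of_beq_eq_true k4
  obtain ⟨a2, a3, a4⟩ := p
  simp only at k2 k3 k4
  rw [k2, k3, k4] at hp
  exact hp

theorem nzv_evl (hb : 0 < S.b) (z : ℤ) : nzv (S.e0 - S.b) S.evl z = S.comb (dl 0) z := by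
  unfold evl
  refine nzv_map (f := S.comb (dl 0)) (fun y hy => ?_) z
  refine comb_zero' fun x k hk0 hk1 hyx => ?_
  push_cast at hy
  rcases dl_cases 0 x with k' | k' | k'
  · rw [k'.1] at hyx
    omega
  · rw [k'.1] at hyx
    omega
  · exact k'.2.2

theorem lets_eq (hb : 0 < S.b) (z : ℤ) : ∀ ps : List ℤ,
    lets (nzv (S.e0 - S.b) S.evl) S.b ps z = S.comb (dps ps) z
  | [] => by
    unfold lets
    rw [comb_zero' fun _ _ _ _ _ => by simp [dps]]
    rfl
  | p :: ps => by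
    have h1 := lets_eq hb z ps
    unfold lets at h1 ⊢
    rw [List.map_cons, List.sum_cons, h1, nzv_evl hb, dl_comb hb, ← comb_add]
    rfl

/-- digits of a unimodal number -/
theorem uni_of_digits {K Z : ℕ} {F : ℤ → ℤ} (hF : ∀ z, z < -(Z : ℤ) ∨ (Z : ℤ) < z → F z = 0)
    (hb : ∀ z, |F z| < 2 ^ K) {M R x : ℕ} (hM : M = pf (K + 1) (2 * Z + 1) fun _ => 2 ^ K)
    (hR : R = pf (K + 1) (2 * Z + 1) fun _ => 1)
    (hx : x = pf (K + 1) (2 * Z + 1) fun k => (F ((k : ℤ) - Z) + 2 ^ K).toNat)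
    (h : uniN M R x = true) : Uni F := by
  intro u v huv hu hv
  have hu' : ¬ (u < -(Z : ℤ) ∨ (Z : ℤ) < u) := fun e => by rw [hF u e] at hu; omega
  have hv' : ¬ (v < -(Z : ℤ) ∨ (Z : ℤ) < v) := fun e => by rw [hF v e] at hv; omega
  rw [hx] at h
  have e2 : ((2 ^ K : ℕ) : ℤ) = 2 ^ K := by push_cast; rfl
  have e3 : 2 ^ (K + 1) = 2 ^ K + 2 ^ K := by rw [pow_succ]; ring
  have := uniN_sound (K := K) (N := 2 * Z + 1) (f := fun k => (F ((k : ℤ) - Z) + 2 ^ K).toNat)
    (fun k _ => by have := abs_lt.1 (hb ((k : ℤ) - Z)); omega)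
    (fun k _ => by have := abs_lt.1 (hb ((k : ℤ) - Z)); omega) hM hR h
    (u := (u + Z).toNat) (v := (v + Z).toNat) (by omega) (by omega) (by
      have : (((u + Z).toNat : ℕ) : ℤ) - Z = u := by omega
      simp only [this]
      have := Nat.two_pow_pos K
      omega)
  have e4 : (((v + Z).toNat : ℕ) : ℤ) - Z = v := by omega
  rw [e4] at this
  omega

theorem patOk_sound {K1 N x oA : ℕ} {P : PatN} (h : patOk K1 N x oA P = true) :
    oA + P.s + P.w ≤ N ∧ x / 2 ^ (K1 * (oA + P.s)) % 2 ^ (K1 * P.w) ≠ P.r := by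
  unfold patOk at h
  rcases h1 : Nat.ble (Nat.add (Nat.add oA P.s) P.w) N with _ | _
  · rw [h1] at h
    exact absurd h (by simp)
  · rw [h1] at h
    refine ⟨Nat.le_of_ble_eq_true h1, fun h2 => ?_⟩
    have h3 : Nat.beq (Nat.mod (Nat.shiftRight x (Nat.mul K1 (Nat.add oA P.s)))
        (Nat.pow 2 (Nat.mul K1 P.w))) P.r = true := by
      have : Nat.mod (Nat.shiftRight x (Nat.mul K1 (Nat.add oA P.s)))
          (Nat.pow 2 (Nat.mul K1 P.w)) = P.r := by
        change (x >>> (K1 * (oA + P.s))) % 2 ^ (K1 * P.w) = P.r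
        rw [Nat.shiftRight_eq_div_pow]
        exact h2
      rw [this]
      exact Nat.beq_refl _
    rw [h3] at h
    simp at h

theorem winOk_sound {K1 N M R x oA : ℕ} {l : List PatN} (h : winOk K1 N M R x oA l = true) :
    uniN M R x = true ∧ ∀ P ∈ l, patOk K1 N x oA P = true := by
  unfold winOk at h
  rcases h1 : uniN M R x with _ | _
  · rw [h1] at h
    exact absurd h (by simp)
  · rw [h1] at h
    exact ⟨rfl, allL_iff.1 h⟩

theorem twoN_sound {pats : ℕ → ℕ → List Pat} {pn : ℕ → ℕ → ℕ → List PatN} {q : Prm} {EP EM M R : ℕ}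
    (hb : 0 < S.b) (hC : S.chkCN q EP EM M R = true) {c c' : ℕ}
    (hc : S.chkOff q.z0 q.wl c = true) (hc' : S.chkOff q.z0 q.wl c' = true)
    (hd : S.chkBdN q c = true) (hd' : S.chkBdN q c' = true) {A B : List HalfN}
    (hA : subHN (S.halfAN q c) A = true) (hB : subHN (S.halfBN q c') B = true) {d : ℤ} {ps : List ℤ}
    (h : S.chkTwoN q pn EP EM M R A B d ps = true) {i j : ℕ} (hi : i < S.L) (hj : j < S.L)
    (hP : chkPN q pats pn (S.chd c i) (S.chd c' j) = true) :
    NoEv pats (S.chd c i) (S.chd c' j) (S.off c i) (S.b * d + S.off c' j) (S.Fn c i c' j d (dps ps)) := by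
  unfold chkTwoN at h
  rcases hZ : S.inZN q d ps with _ | _
  · rw [hZ] at h
    exact absurd h (by simp)
  rw [hZ] at h
  simp only at h
  rw [allL_iff] at h
  unfold inZN at hZ
  simp only [Bool.and_eq_true, decide_eq_true_eq, List.all_eq_true] at hZ
  obtain ⟨⟨⟨⟨⟨⟨z1, z2⟩, z3⟩, z4⟩, z5⟩, z6⟩, z7⟩ := hZ
  unfold chkCN at hC
  simp only [Bool.and_eq_true, decide_eq_true_eq, List.all_eq_true] at hC
  obtain ⟨⟨⟨⟨c1, c2⟩, c3⟩, c4⟩, c5⟩ := hC
  have c1 := Nat.eq_of_beq_eq_true c1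
  have c2 := Nat.eq_of_beq_eq_true c2
  have c3 := Nat.eq_of_beq_eq_true c3
  have c4 := Nat.eq_of_beq_eq_true c4
  obtain ⟨va, hva⟩ : ∃ va : List ℤ, va = (List.range q.wl).map fun (k : ℕ) => S.part c i S.L (q.z0 + k) :=
    ⟨_, rfl⟩
  obtain ⟨vb, hvb⟩ : ∃ vb : List ℤ, vb = (List.range q.wl).map fun (k : ℕ) => S.part c' 0 (j + 1) (q.z0 + k) :=
    ⟨_, rfl⟩
  have la : va.length = q.wl := by rw [hva, List.length_map, List.length_range]
  have lb : vb.length = q.wl := by rw [hvb, List.length_map, List.length_range]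
  have le : S.evl.length = S.e.length + S.b := by
    unfold evl
    rw [List.length_map, List.length_range]
  have ha : (⟨(S.off c i + q.O).toNat, S.chd c i, pkL (q.K + 1) (va.map (bias q.HA))⟩ : HalfN) ∈ A :=
    subHN_sound hA (List.mem_map.2 ⟨i, List.mem_range.2 hi, by rw [hva]⟩)
  have hh : (⟨(S.off c' j + q.O).toNat, S.chd c' j, pkL (q.K + 1) (vb.map (bias q.HA))⟩ : HalfN) ∈ B :=
    subHN_sound hB (List.mem_map.2 ⟨j, List.mem_range.2 hj, by rw [hvb]⟩)
  have h1 := h _ ha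
  rw [allL_iff] at h1
  obtain ⟨h2, h3⟩ := winOk_sound (h1 _ hh)
  unfold chkBdN at hd hd'
  simp only [Bool.and_eq_true, decide_eq_true_eq, List.all_eq_true, List.mem_range] at hd hd'
  have ba : ∀ x ∈ va, |x| ≤ q.HA := fun x hx => by
    rw [hva] at hx
    obtain ⟨k, hk, rfl⟩ := List.mem_map.1 hx
    have := (hd i hi).2 k (List.mem_range.1 hk)
    exact abs_le.2 ⟨this.1.1.2, this.1.1.1⟩
  have bb : ∀ x ∈ vb, |x| ≤ q.HA := fun x hx => by
    rw [hvb] at hx
    obtain ⟨k, hk, rfl⟩ := List.mem_map.1 hx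
    have := (hd' j hj).2 k (List.mem_range.1 hk)
    exact abs_le.2 ⟨this.2, this.1.2⟩
  have be : ∀ x ∈ S.evl, |x| ≤ q.Em := fun x hx => abs_le.2 ⟨(c5 x hx).2, (c5 x hx).1⟩
  have pA : ∀ y, y < q.z0 ∨ q.z0 + q.wl ≤ y → S.part c i S.L y = 0 := fun y hy => part_out hc le_rfl hy
  have pB : ∀ y, y < q.z0 ∨ q.z0 + q.wl ≤ y → S.part c' 0 (j + 1) y = 0 := fun y hy =>
    part_out hc' (by omega) hy
  have eA : ∀ z, nzv q.z0 va z = S.part c i S.L z := fun z => by rw [hva]; exact nzv_map pA z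
  have eB : ∀ z, nzv q.z0 vb z = S.part c' 0 (j + 1) z := fun z => by rw [hvb]; exact nzv_map pB z
  -- the closed window
  obtain ⟨G, hG⟩ : ∃ G : ℤ → ℤ, G = fun z => S.part c i S.L z + S.comb (dps ps) z +
    S.part c' 0 (j + 1) (z - S.b * d) := ⟨_, rfl⟩
  have hx : Nat.add (Nat.add (base q.K (2 * q.Z + 1) q.HA q.wl EP EM S.b (q.Z + (S.e0 - S.b))
      (q.Z + q.z0).toNat (q.Z + q.z0 + S.b * d).toNat ps)
      (Nat.shiftLeft (pkL (q.K + 1) (va.map (bias q.HA))) (Nat.mul (q.K + 1) (q.Z + q.z0).toNat)))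
      (Nat.shiftLeft (pkL (q.K + 1) (vb.map (bias q.HA))) (Nat.mul (q.K + 1) (q.Z + q.z0 + S.b * d).toNat)) =
      pf (q.K + 1) (2 * q.Z + 1) fun k => (G ((k : ℤ) - q.Z) + 2 ^ q.K).toNat := by
    have := win_eq (K := q.K) (N := 2 * q.Z + 1) (HA := q.HA) (Em := q.Em) (b := S.b) (Z := q.Z)
      (z0 := q.z0) (e1 := S.e0 - S.b) (bd := S.b * d) (ev := S.evl) (va := va) (vb := vb) (ps := ps)
      (fun p hp => by
        rw [le]
        have := z7 p hp
        push_cast
        exact this) z1 (by rw [la]; push_cast; exact z2) z3 (by rw [la]; push_cast; exact z4)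
      (by rw [la, lb]) be ba bb z6
    rw [la] at this
    rw [c1, c2]
    refine this.trans ?_
    rw [hG]
    simp only [eA, eB, lets_eq hb]
  have habs : ∀ z, |G z| < 2 ^ q.K := fun z => by
    have := win_abs (K := q.K) (HA := q.HA) (Em := q.Em) (b := S.b) (z0 := q.z0) (e1 := S.e0 - S.b)
      (bd := S.b * d) (z := z) (ps := ps) be ba bb z6
    rw [hG]
    simp only [eA, eB, lets_eq hb] at this
    exact this
  have hG0 : ∀ z, z < -(q.Z : ℤ) ∨ (q.Z : ℤ) < z → G z = 0 := fun z hz => by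
    rw [hG]
    simp only
    rw [pA z (by omega), pB (z - S.b * d) (by omega), comb_zero' fun y k hk0 hk1 hgy =>
      dps_zero fun p hp => ?_]
    · rfl
    · obtain ⟨q1, q2⟩ := z7 p hp
      refine ⟨fun e => ?_, fun e => ?_⟩
      · subst e
        have : (S.b : ℤ) * p = S.b * (p - 1) + S.b := by ring
        omega
      · subst e
        have : (S.b : ℤ) * y = S.b * (y - 1) + S.b := by ring
        omega
  have hM : M = pf (q.K + 1) (2 * q.Z + 1) fun _ => 2 ^ q.K := by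
    rw [c3, pkL_eq, List.length_replicate]
    refine pf_congr fun k hk => ?_
    rw [List.getD_eq_getElem?_getD, List.getElem?_replicate, if_pos hk, Option.getD_some]
  have hR : R = pf (q.K + 1) (2 * q.Z + 1) fun _ => 1 := by rw [c4, rp_eq]
  rw [hx] at h2
  have hU : Uni G := uni_of_digits hG0 habs hM hR rfl h2
  have hGF : G = fun y => S.Fn c i c' j d (dps ps) y + dl (S.off c i) y + dl (S.b * d + S.off c' j) y := by
    rw [hG]
    funext y
    unfold Fn
    have k1 := part_add (S := S) c (Nat.le_succ i) y S.L hi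
    have k2 := part_succ (S := S) c (le_refl i) y
    rw [part_self, zero_add] at k2
    have k3 := part_succ (S := S) c' (Nat.zero_le j) (y - S.b * d)
    have k4 := dl_shift (S.b * d) (S.off c' j) y
    rw [k3, k4, ← k1, Nat.succ_eq_add_one, k2]
    ring
  obtain ⟨u1, u2, u3⟩ := ev_of_uni (hGF ▸ hU)
  refine ⟨u1, u2, u3, fun P hPm hPd hAgr => ?_⟩
  obtain ⟨hs, hcode⟩ := chkPN_sound hP hPm
  have hδ : (P.d + (q.D : ℤ)).toNat = ((S.b * d + (q.D : ℤ)).toNat + (S.off c' j + (q.O : ℤ)).toNat) -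
      (S.off c i + (q.O : ℤ)).toNat := by
    have o1 := (hd i hi).1
    have o2 := (hd' j hj).1
    omega
  rw [hδ] at hcode
  have h4 := patOk_sound (h3 _ hcode)
  obtain ⟨h5, h6⟩ := h4
  refine h6 ?_
  unfold codePat at h5 ⊢
  simp only at h5 ⊢
  rw [hx, pf_digits (fun k _ => by
    have := abs_lt.1 (habs ((k : ℤ) - q.Z))
    have e2 : ((2 ^ q.K : ℕ) : ℤ) = 2 ^ q.K := by push_cast; rfl
    have e3 : 2 ^ (q.K + 1) = 2 ^ q.K + 2 ^ q.K := by rw [pow_succ]; ring
    omega) h5, pkL_eq, adj_length]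
  refine pf_congr fun k hk => ?_
  rw [adj_getD (F := S.Fn c i c' j d (dps ps)) (a := S.off c i) P.v P.e hAgr k hk, hGF]
  simp only
  have o1 := (hd i hi).1
  have e1 : (((S.off c i + (q.O : ℤ)).toNat + (P.e + (q.Z : ℤ) - q.O).toNat + k : ℕ) : ℤ) - q.Z =
      S.off c i + P.e + k := by omega
  rw [e1]
  have d1 : dl (S.off c i) (S.off c i + P.e + k) = dl 0 (P.e + k) := by
    have := dl_shift (S.off c i) 0 (S.off c i + P.e + k)
    rw [add_zero] at this
    rw [this]
    congr 1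
    ring
  have d2 : dl (S.b * d + S.off c' j) (S.off c i + P.e + k) = dl P.d (P.e + k) := by
    rw [hPd, show S.b * d + S.off c' j = S.off c i + (S.b * d + S.off c' j - S.off c i) by ring,
      dl_shift]
    congr 1 <;> ring
  rw [d1, d2]
  push_cast
  rfl

/-- **The hypothesis `hS` of `good_sub`.** -/
theorem hS_ofN {pats : ℕ → ℕ → List Pat} {pn : ℕ → ℕ → ℕ → List PatN} {q : Prm} {EP EM M R : ℕ}
    {SA SB : ℕ → List HalfN} (K : S.OK) (hC : S.chkCN q EP EM M R = true)
    (hO : ∀ c < S.T, S.chkOff q.z0 q.wl c = true) (hD : ∀ c < S.T, S.chkBdN q c = true)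
    (hA : ∀ c < S.T, subHN (S.halfAN q c) (SA c) = true)
    (hB : ∀ c < S.T, subHN (S.halfBN q c) (SB c) = true)
    (hP : ∀ c < S.T, ∀ c' < S.T, chkPN q pats pn c c' = true)
    (h : ∀ c < S.T, S.chkShortN q pn EP EM M R SA SB c = true)
    (W : ℤ → ℤ) (ty : ℤ → ℕ) (hW : S.Path W ty) (s e : ℤ) (hse : s < e) (he : e ≤ s + 2 * S.m)
    (i : ℕ) (hi : i < S.L) (j : ℕ) (hj : j < S.L) :
    NoEv pats (S.chd (ty s) i) (S.chd (ty e) j) (S.off (ty s) i)
      (S.b * (W e - W s) + S.off (ty e) j) (S.Fn (ty s) i (ty e) j (W e - W s) (Lw W s e)) := by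
  have h1 := h _ (hW.lt s)
  unfold chkShortN at h1
  obtain ⟨n, hn, rfl⟩ : ∃ n : ℕ, 0 < n ∧ e = s + n := ⟨(e - s).toNat, by omega, by omega⟩
  obtain ⟨qs, h2, h3⟩ := walks_sound K.m1 hW s (2 * S.m) 0 [] (by simpa using h1)
    (fun y => by simp [E_self, dps]) n hn (by omega)
  have h4 : Lw W s (s + n) = dps qs := funext h2
  rw [h4]
  exact twoN_sound K.b0 hC (hO _ (hW.lt _)) (hO _ (hW.lt _)) (hD _ (hW.lt _)) (hD _ (hW.lt _))
    (hA _ (hW.lt _)) (hB _ (hW.lt _)) h3 hi hj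
    (hP _ (K.chd_lt _ (hW.lt _) _ hi) _ (K.chd_lt _ (hW.lt _) _ hj))

end Tab

end LWG
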