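import Pool.Agent.LWG.KStart
import Pool.Agent.LWG.ShortN

/-!
# Substitution words with a kernel: windows inside a block, short windows

A window is one natural number, as in `ShortN`. **`hB_ofK`**, **`hS_ofK`**: the hypotheses `hB`, `hS` of
`kgood_sub`.
-/

set_option autoImplicit false

namespace LWG

open LevelWords

/-! ### one window -/

/-- everything happens in `[-Z, Z]`, and the digits are small; `e1`, `len`: the edges of one letter -/
def inK (q : Prm) (b : ℕ) (e1 : ℤ) (len : ℕ) (bd : ℤ) (ps : List ℤ) : Bool :=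
  decide (0 ≤ q.Z + q.z0) && decide (q.Z + q.z0 + q.wl ≤ 2 * q.Z + 1) &&
    decide (0 ≤ q.Z + q.z0 + bd) && decide (q.Z + q.z0 + bd + q.wl ≤ 2 * q.Z + 1) &&
    decide (0 ≤ bd + q.D) && decide (ps.length * q.Em + q.HA + q.HA < 2 ^ q.K) &&
    ps.all fun p => decide (0 ≤ q.Z + e1 + b * p) && decide (q.Z + e1 + b * p + len ≤ 2 * q.Z + 1)

/-- the check of one window -/
noncomputable def win2 (q : Prm) (pn : ℕ → ℕ → ℕ → List PatN) (EP EM M R b : ℕ) (e1 bd : ℤ)
    (ps : List ℤ) (a h : HalfN) : Bool :=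
  winOk (q.K + 1) (2 * q.Z + 1) M R (Nat.add (Nat.add
    (base q.K (2 * q.Z + 1) q.HA q.wl EP EM b (q.Z + e1) (q.Z + q.z0).toNat (q.Z + q.z0 + bd).toNat ps)
    (Nat.shiftLeft a.x (Nat.mul (q.K + 1) (q.Z + q.z0).toNat)))
    (Nat.shiftLeft h.x (Nat.mul (q.K + 1) (q.Z + q.z0 + bd).toNat)))
    a.o (pn a.t h.t (Nat.sub (Nat.add (bd + q.D).toNat h.o) a.o))

/-- **one window**: `A`, `B` positions of the two letters -/
theorem win2_sound {q : Prm} {pn : ℕ → ℕ → ℕ → List PatN} {EP EM M R b : ℕ} {e1 bd A B : ℤ}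
    {ps : List ℤ} {ev va vb : List ℤ} {tA tB : ℕ} (hin : inK q b e1 ev.length bd ps = true)
    (hEP : EP = pkL (q.K + 1) (ev.map Int.toNat)) (hEM : EM = pkL (q.K + 1) (ev.map fun x => (-x).toNat))
    (hM : M = pf (q.K + 1) (2 * q.Z + 1) fun _ => 2 ^ q.K) (hR : R = pf (q.K + 1) (2 * q.Z + 1) fun _ => 1)
    (la : va.length = q.wl) (lb : vb.length = q.wl) (be : ∀ x ∈ ev, |x| ≤ q.Em)
    (ba : ∀ x ∈ va, |x| ≤ q.HA) (bb : ∀ x ∈ vb, |x| ≤ q.HA) (hA : 0 ≤ A + q.O) (hB : 0 ≤ B - bd + q.O)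
    (h : win2 q pn EP EM M R b e1 bd ps ⟨(A + q.O).toNat, tA, pkL (q.K + 1) (va.map (bias q.HA))⟩
      ⟨(B - bd + q.O).toNat, tB, pkL (q.K + 1) (vb.map (bias q.HA))⟩ = true)
    {G : ℤ → ℤ} (hG : ∀ z, G z = nzv q.z0 va z + lets (nzv e1 ev) b ps z + nzv q.z0 vb (z - bd)) :
    Uni G ∧ ∀ P ∈ pn tA tB (B - A + q.D).toNat, (A + q.O).toNat + P.s + P.w ≤ 2 * q.Z + 1 ∧
      pf (q.K + 1) P.w (fun k => (G (((((A + q.O).toNat + P.s + k : ℕ)) : ℤ) - q.Z) + 2 ^ q.K).toNat) ≠
        P.r := by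
  unfold inK at hin
  simp only [Bool.and_eq_true, decide_eq_true_eq, List.all_eq_true] at hin
  obtain ⟨⟨⟨⟨⟨⟨z1, z2⟩, z3⟩, z4⟩, z5⟩, z6⟩, z7⟩ := hin
  unfold win2 at h
  obtain ⟨h2, h3⟩ := Tab.winOk_sound h
  have hx : Nat.add (Nat.add (base q.K (2 * q.Z + 1) q.HA q.wl EP EM b (q.Z + e1)
      (q.Z + q.z0).toNat (q.Z + q.z0 + bd).toNat ps)
      (Nat.shiftLeft (pkL (q.K + 1) (va.map (bias q.HA))) (Nat.mul (q.K + 1) (q.Z + q.z0).toNat)))
      (Nat.shiftLeft (pkL (q.K + 1) (vb.map (bias q.HA))) (Nat.mul (q.K + 1) (q.Z + q.z0 + bd).toNat)) =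
      pf (q.K + 1) (2 * q.Z + 1) fun k => (G ((k : ℤ) - q.Z) + 2 ^ q.K).toNat := by
    have := win_eq (K := q.K) (N := 2 * q.Z + 1) (HA := q.HA) (Em := q.Em) (b := b) (Z := q.Z)
      (z0 := q.z0) (e1 := e1) (bd := bd) (ev := ev) (va := va) (vb := vb) (ps := ps)
      (fun p hp => by
        have := z7 p hp
        push_cast
        exact this) z1 (by rw [la]; push_cast; exact z2) z3 (by rw [la]; push_cast; exact z4)
      (by rw [la, lb]) be ba bb z6
    rw [la, ← hEP, ← hEM] at this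
    refine this.trans ?_
    simp only [hG]
  have habs : ∀ z, |G z| < 2 ^ q.K := fun z => by
    have := win_abs (K := q.K) (HA := q.HA) (Em := q.Em) (b := b) (z0 := q.z0) (e1 := e1)
      (bd := bd) (z := z) (ps := ps) be ba bb z6
    rw [hG]
    exact this
  have nz0 : ∀ (v : List ℤ) (z0 z : ℤ), z < z0 ∨ z0 + v.length ≤ z → nzv z0 v z = 0 := by
    intro v z0 z hz
    unfold nzv
    split_ifs with h1
    · rfl
    · rw [List.getD_eq_default _ _ (by omega)]
      rfl
  have hG0 : ∀ z, z < -(q.Z : ℤ) ∨ (q.Z : ℤ) < z → G z = 0 := fun z hz => by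
    rw [hG, nz0 va _ _ (by rw [la]; omega), nz0 vb _ _ (by rw [lb]; omega)]
    unfold lets
    rw [List.sum_eq_zero fun x hx => ?_]
    · rfl
    · obtain ⟨p, hp, rfl⟩ := List.mem_map.1 hx
      have := z7 p hp
      exact nz0 ev _ _ (by omega)
  rw [hx] at h2 h3
  refine ⟨Tab.uni_of_digits hG0 habs hM hR rfl h2, fun P hP => ?_⟩
  have hδ : (B - A + (q.D : ℤ)).toNat = ((bd + (q.D : ℤ)).toNat + (B - bd + (q.O : ℤ)).toNat) -
      (A + (q.O : ℤ)).toNat := by omega
  rw [hδ] at hP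
  obtain ⟨h5, h6⟩ := Tab.patOk_sound (h3 _ hP)
  refine ⟨h5, fun h7 => h6 ?_⟩
  rw [pf_digits (fun k _ => by
    have := abs_lt.1 (habs ((k : ℤ) - q.Z))
    have e2 : ((2 ^ q.K : ℕ) : ℤ) = 2 ^ q.K := by push_cast; rfl
    have e3 : 2 ^ (q.K + 1) = 2 ^ q.K + 2 ^ q.K := by rw [pow_succ]; ring
    omega) h5, ← h7]

/-! ### patterns -/

/-- values of a closed window with a pattern -/
def adjK (g : List ℤ) (d H : ℤ) : ℤ → List ℤ → List ℕ
  | _, [] => []
  | e, v :: vs => (v + prof g 0 e + prof g 0 (e - d) + H).toNat :: adjK g d H (e + 1) vs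

theorem adjK_length (g : List ℤ) (d H : ℤ) : ∀ (e : ℤ) (l : List ℤ), (adjK g d H e l).length = l.length
  | _, [] => rfl
  | e, _ :: vs => by
    unfold adjK
    rw [List.length_cons, List.length_cons, adjK_length g d H (e + 1) vs]

theorem adjK_getD {g : List ℤ} {F : ℤ → ℤ} {a d H : ℤ} : ∀ (l : List ℤ) (e : ℤ), Agr F (a + e) l →
    ∀ k < l.length, (adjK g d H e l).getD k 0 =
      (F (a + e + k) + prof g 0 (e + k) + prof g 0 (e + k - d) + H).toNat
  | [], _, _, k, hk => by simp at hk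
  | v :: vs, e, h, 0, _ => by
    unfold adjK
    rw [List.getD_cons_zero, Nat.cast_zero, add_zero, add_zero, h.1]
  | v :: vs, e, h, k + 1, hk => by
    unfold adjK
    rw [List.getD_cons_succ, adjK_getD vs (e + 1) (by rw [← add_assoc]; exact h.2) k (by simpa using hk)]
    rw [show a + (e + 1) + (k : ℤ) = a + e + ((k + 1 : ℕ) : ℤ) by push_cast; ring,
      show e + 1 + (k : ℤ) = e + ((k + 1 : ℕ) : ℤ) by push_cast; ring]

/-- packed form of a pattern -/
def codeK (g : List ℤ) (q : Prm) (P : Pat) : PatN :=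
  ⟨(P.e + q.Z - q.O).toNat, P.v.length, pkL (q.K + 1) (adjK g P.d (2 ^ q.K : ℕ) P.e P.v)⟩

/-- the packed patterns -/
def chkPK (g : List ℤ) (q : Prm) (pats : ℕ → ℕ → List Pat) (pn : ℕ → ℕ → ℕ → List PatN) (c c' : ℕ) :
    Bool :=
  (pats c c').all fun P => decide (0 ≤ P.e + q.Z - q.O) && (pn c c' (P.d + q.D).toNat).any fun p =>
    Nat.beq p.s (codeK g q P).s && Nat.beq p.w (codeK g q P).w && Nat.beq p.r (codeK g q P).r

theorem chkPK_sound {g : List ℤ} {q : Prm} {pats : ℕ → ℕ → List Pat} {pn : ℕ → ℕ → ℕ → List PatN}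
    {c c' : ℕ} (h : chkPK g q pats pn c c' = true) {P : Pat} (hP : P ∈ pats c c') :
    0 ≤ P.e + q.Z - q.O ∧ codeK g q P ∈ pn c c' (P.d + q.D).toNat := by
  unfold chkPK at h
  rw [List.all_eq_true] at h
  have h1 := h P hP
  rw [Bool.and_eq_true, decide_eq_true_eq, List.any_eq_true] at h1
  obtain ⟨h1, p, hp, h2⟩ := h1
  refine ⟨h1, ?_⟩
  simp only [Bool.and_eq_true] at h2
  obtain ⟨⟨k2, k3⟩, k4⟩ := h2
  have k2 := Nat.eq_of_beq_eq_true k2
  have k3 := Nat.eq_of_beq_eq_true k3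
  have k4 := Nat.eq_of_beq_eq_true k4
  obtain ⟨a2, a3, a4⟩ := p
  simp only at k2 k3 k4
  rw [k2, k3, k4] at hp
  exact hp

/-- **one window, with its patterns** -/
theorem noKE_of {g : List ℤ} {q : Prm} {pats : ℕ → ℕ → List Pat} {pn : ℕ → ℕ → ℕ → List PatN}
    {A B : ℤ} {tA tB : ℕ} {G F : ℤ → ℤ} (hP : chkPK g q pats pn tA tB = true) (hA : 0 ≤ A + q.O)
    (hF : ∀ z, G z = F z + prof g A z + prof g B z)
    (h : Uni G ∧ ∀ P ∈ pn tA tB (B - A + q.D).toNat, (A + q.O).toNat + P.s + P.w ≤ 2 * q.Z + 1 ∧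
      pf (q.K + 1) P.w (fun k => (G (((((A + q.O).toNat + P.s + k : ℕ)) : ℤ) - q.Z) + 2 ^ q.K).toNat) ≠
        P.r) : NoKE g pats tA tB A B G F := by
  obtain ⟨hU, h⟩ := h
  refine ⟨?_, fun P hPm hPd hAgr => ?_⟩
  · rintro ⟨x, y, h1, h2, h3, -⟩
    exact hU x y h1 h2 h3
  · obtain ⟨hs, hcode⟩ := chkPK_sound hP hPm
    rw [hPd] at hcode
    obtain ⟨-, h6⟩ := h _ hcode
    refine h6 ?_
    unfold codeK
    simp only
    rw [pkL_eq, adjK_length]
    refine pf_congr fun k hk => ?_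
    rw [adjK_getD (F := F) (a := A) P.v P.e hAgr k hk, hF]
    have e1 : (((A + (q.O : ℤ)).toNat + (P.e + (q.Z : ℤ) - q.O).toNat + k : ℕ) : ℤ) - q.Z =
        A + P.e + k := by omega
    rw [e1, prof_eq g A, prof_eq g B, hPd, show A + P.e + (k : ℤ) - A = P.e + k by ring,
      show A + P.e + (k : ℤ) - B = P.e + k - (B - A) by ring]
    push_cast
    rfl

/-! ### lists of half blocks -/

/-- two lists of half blocks are equal -/
def eqHN : List HalfN → List HalfN → Bool
  | [], [] => true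
  | a :: A, b :: B => Nat.beq a.o b.o && Nat.beq a.t b.t && Nat.beq a.x b.x && eqHN A B
  | _, _ => false

theorem eqHN_sound : ∀ {A B : List HalfN}, eqHN A B = true → A = B
  | [], [], _ => rfl
  | [], _ :: _, h => by simp [eqHN] at h
  | _ :: _, [], h => by simp [eqHN] at h
  | ⟨a1, a2, a3⟩ :: A, ⟨b1, b2, b3⟩ :: B, h => by
    unfold eqHN at h
    simp only [Bool.and_eq_true] at h
    obtain ⟨⟨⟨h1, h2⟩, h3⟩, h4⟩ := h
    rw [Nat.eq_of_beq_eq_true h1, Nat.eq_of_beq_eq_true h2, Nat.eq_of_beq_eq_true h3, eqHN_sound h4]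

/-- `f` holds for an element of the first list and a later one of the second list -/
noncomputable def chkIn (f : HalfN → HalfN → Bool) (A : List HalfN) : List HalfN → Bool :=
  List.rec (motive := fun _ => List HalfN → Bool) (fun _ => true)
    (fun a _ ih B => List.rec (motive := fun _ => Bool) true
      (fun _ B' _ => Bool.rec (motive := fun _ => Bool) false (ih B') (allL (f a) B')) B) A

theorem chkIn_sound {f : HalfN → HalfN → Bool} : ∀ {A B : List HalfN}, chkIn f A B = true →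
    ∀ {i j : ℕ} {a h : HalfN}, i < j → A[i]? = some a → B[j]? = some h → f a h = true
  | [], _, _, i, j, a, h, _, hA, _ => by simp at hA
  | a0 :: A, [], _, i, j, a, h, _, _, hB => by simp at hB
  | a0 :: A, b0 :: B, hc, i, j, a, h, hij, hA, hB => by
    have e : chkIn f (a0 :: A) (b0 :: B) = Bool.rec (motive := fun _ => Bool) false (chkIn f A B)
      (allL (f a0) B) := rfl
    rw [e] at hc
    rcases h1 : allL (f a0) B with _ | _
    · rw [h1] at hc
      exact absurd hc (by simp)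
    · rw [h1] at hc
      obtain ⟨j, rfl⟩ : ∃ j', j = j' + 1 := ⟨j - 1, by omega⟩
      rw [List.getElem?_cons_succ] at hB
      rcases i with _ | i
      · rw [List.getElem?_cons_zero, Option.some.injEq] at hA
        subst hA
        exact allL_iff.1 h1 _ (List.mem_of_getElem? hB)
      · rw [List.getElem?_cons_succ] at hA
        exact chkIn_sound (f := f) hc (by omega) hA hB

namespace Tab

variable (S : Tab) (K : Ker)

/-- convolved differences of a block for the letter `0` -/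
def kevl : List ℤ := (List.range (K.e.length + S.b * K.g.length)).map fun (k : ℕ) =>
  (S.ref K).comb (prof K.g 0) (K.e0 - S.b + k)

/-- letters of a block from the letter `i` on -/
def kvA (q : Prm) (c i : ℕ) : List ℤ := (List.range q.wl).map fun (k : ℕ) =>
  S.kpre K c S.L (q.z0 + k) - S.kpre K c i (q.z0 + k)

/-- letters of a block up to the letter `j` -/
def kvB (q : Prm) (c j : ℕ) : List ℤ := (List.range q.wl).map fun (k : ℕ) => S.kpre K c (j + 1) (q.z0 + k)

/-- the half blocks after the letters of a block of type `c` -/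
def halfAK (q : Prm) (c : ℕ) : List HalfN := (List.range S.L).map fun i =>
  ⟨(S.off c i + q.O).toNat, S.chd c i, pkL (q.K + 1) ((S.kvA K q c i).map (bias q.HA))⟩

/-- the half blocks before the letters of a block of type `c` -/
def halfBK (q : Prm) (c : ℕ) : List HalfN := (List.range S.L).map fun j =>
  ⟨(S.off c j + q.O).toNat, S.chd c j, pkL (q.K + 1) ((S.kvB K q c j).map (bias q.HA))⟩

/-- bounds for a block of type `c` -/
def chkBdK (q : Prm) (c : ℕ) : Bool := (List.range S.L).all fun i =>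
  decide (0 ≤ S.off c i + q.O) && decide (q.z0 + 1 ≤ S.off c i) &&
    decide (S.off c i + K.g.length ≤ q.z0 + q.wl) &&
    (S.kvA K q c i).all (fun x => decide (x ≤ q.HA) && decide (-(q.HA : ℤ) ≤ x)) &&
    (S.kvB K q c i).all fun x => decide (x ≤ q.HA) && decide (-(q.HA : ℤ) ≤ x)

/-- the constants -/
def chkCK (q : Prm) (EP EM M R : ℕ) : Bool :=
  Nat.beq EP (pkL (q.K + 1) ((S.kevl K).map Int.toNat)) &&
    Nat.beq EM (pkL (q.K + 1) ((S.kevl K).map fun x => (-x).toNat)) &&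
    Nat.beq M (pkL (q.K + 1) (List.replicate (2 * q.Z + 1) (2 ^ q.K))) &&
    Nat.beq R (rp (q.K + 1) (2 * q.Z + 1)) &&
    (S.kevl K).all fun x => decide (x ≤ q.Em) && decide (-(q.Em : ℤ) ≤ x)

/-- windows inside a block -/
noncomputable def chkBlK (q : Prm) (pn : ℕ → ℕ → ℕ → List PatN) (EP EM M R : ℕ) (A B : List HalfN) : Bool :=
  Bool.rec (motive := fun _ => Bool) false
    (chkIn (win2 q pn EM EP M R S.b (K.e0 - S.b) 0 [.ofNat 0]) A B)
    (inK q S.b (K.e0 - S.b) (K.e.length + S.b * K.g.length) 0 [.ofNat 0])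

/-- the windows between two blocks with the explicit letters `ps` between them -/
noncomputable def chkTwoK (q : Prm) (pn : ℕ → ℕ → ℕ → List PatN) (EP EM M R : ℕ) (A B : List HalfN)
    (d : ℤ) (ps : List ℤ) : Bool :=
  Bool.rec (motive := fun _ => Bool) false
    (allL (fun a => allL (win2 q pn EP EM M R S.b (K.e0 - S.b) (S.b * d) ps a) B) A)
    (inK q S.b (K.e0 - S.b) (K.e.length + S.b * K.g.length) (S.b * d) ps)

/-- short windows which begin in a block of type `c` -/
noncomputable def chkShortK (q : Prm) (pn : ℕ → ℕ → ℕ → List PatN) (EP EM M R : ℕ)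
    (SA SB : ℕ → List HalfN) (c : ℕ) : Bool :=
  S.walks (fun c' d ps => S.chkTwoK K q pn EP EM M R (SA c) (SB c') d ps) (2 * S.m) c 0 []

/-- all facts which are used below -/
structure FK (q : Prm) (pats : ℕ → ℕ → List Pat) (pn : ℕ → ℕ → ℕ → List PatN) (EP EM M R : ℕ)
    (SA SB : ℕ → List HalfN) : Prop where
  con : S.chkCK K q EP EM M R = true
  bd : ∀ c < S.T, S.chkBdK K q c = true
  a : ∀ c < S.T, eqHN (S.halfAK K q c) (SA c) = true
  b : ∀ c < S.T, eqHN (S.halfBK K q c) (SB c) = true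
  p : ∀ c < S.T, ∀ c' < S.T, chkPK K.g q pats pn c c' = true

variable {S} {K}

theorem length_kevl : (S.kevl K).length = K.e.length + S.b * K.g.length := by
  unfold kevl
  rw [List.length_map, List.length_range]

theorem prof_out (g : List ℤ) {y : ℤ} (hy : y < -1 ∨ (g.length : ℤ) ≤ y) : prof g 0 y = 0 :=
  cv_off (lo := -1) (hi := 0) (fun z hz => by
    rcases dl_cases 0 z with k | k | k <;> omega) (by omega)

theorem nzv_kevl (hb : 0 < S.b) (z : ℤ) : nzv (K.e0 - S.b) (S.kevl K) z =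
    (S.ref K).comb (prof K.g 0) z := by
  unfold kevl
  refine nzv_map (f := (S.ref K).comb (prof K.g 0)) (fun y hy => ?_) z
  refine comb_zero' (S := S.ref K) fun x k hk0 hk1 hyx => ?_
  have e0 : (S.ref K).e0 = K.e0 := rfl
  have e1 : ((S.ref K).b : ℤ) = S.b := rfl
  have e2 : (S.ref K).e = K.e := rfl
  rw [e0, e1] at hyx
  rw [e2] at hk1
  push_cast at hy
  have hb' : (0 : ℤ) < S.b := by exact_mod_cast hb
  refine prof_out _ ?_
  by_contra hc
  rw [not_or, not_lt, not_le] at hc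
  have k1 : (S.b : ℤ) * (-1) ≤ S.b * x := mul_le_mul_of_nonneg_left hc.1 hb'.le
  have k2 : (S.b : ℤ) * (x + 1) ≤ S.b * K.g.length := mul_le_mul_of_nonneg_left (by omega) hb'.le
  have k3 : (S.b : ℤ) * (x + 1) = S.b * x + S.b := by ring
  rcases hy with hy | hy <;> omega

theorem klets (hb : 0 < S.b) (z : ℤ) : ∀ ps : List ℤ,
    lets (nzv (K.e0 - S.b) (S.kevl K)) S.b ps z = (S.ref K).comb (cv K.g (dps ps)) z
  | [] => by
    have h1 : cv K.g (dps []) = fun _ => 0 := funext fun y => by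
      rw [show dps [] = fun _ => 0 from funext fun y => by simp [dps]]
      exact cv_zero _ _
    unfold lets
    rw [h1, comb_zero' fun _ _ _ _ _ => rfl]
    rfl
  | p :: ps => by
    have h1 := klets hb z ps
    have h2 : cv K.g (dps (p :: ps)) = fun y => prof K.g p y + cv K.g (dps ps) y := funext fun y => by
      unfold prof
      rw [← cv_add]
      rfl
    have h3 : (S.ref K).comb (prof K.g p) z = (S.ref K).comb (prof K.g 0) (z - S.b * p) := by
      have := comb_shift (S := S.ref K) hb (prof K.g p) p (z - S.b * p)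
      have e1 : ((S.ref K).b : ℤ) = S.b := rfl
      rw [e1, show S.b * p + (z - S.b * p) = z by ring] at this
      rw [this]
      refine comb_congr (fun y => ?_) _
      rw [prof_eq]
      congr 1
      ring
    unfold lets at h1 ⊢
    rw [List.map_cons, List.sum_cons, h1, nzv_kevl hb, h2, comb_add, h3]

theorem kpre_succ (c i : ℕ) (y : ℤ) : S.kpre K c (i + 1) y = S.kpre K c i y + prof K.g (S.off c i) y := by
  unfold kpre prof
  rw [← cv_add]
  exact cv_congr K.g (fun z => part_succ c (Nat.zero_le i) z) y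

theorem kpre_out {q : Prm} {c : ℕ} (h : S.chkBdK K q c = true) {i : ℕ} (hi : i ≤ S.L) {y : ℤ}
    (hy : y < q.z0 ∨ q.z0 + q.wl ≤ y) : S.kpre K c i y = 0 := by
  unfold chkBdK at h
  simp only [Bool.and_eq_true, decide_eq_true_eq, List.all_eq_true, List.mem_range] at h
  unfold kpre
  refine cv_off (lo := q.z0) (hi := q.z0 + q.wl - K.g.length) (fun z hz => ?_) (by omega)
  unfold part
  refine List.sum_eq_zero fun x hx => ?_
  obtain ⟨r, hr, rfl⟩ := List.mem_map.1 hx
  rw [List.mem_range] at hr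
  have := (h (0 + r) (by omega)).1.1
  rcases dl_cases (S.off c (0 + r)) z with k | k | k <;> omega

section

variable {pats : ℕ → ℕ → List Pat} {pn : ℕ → ℕ → ℕ → List PatN} {q : Prm} {EP EM M R : ℕ}
  {SA SB : ℕ → List HalfN}

theorem getElem_halfA {c i : ℕ} (hi : i < S.L) : (S.halfAK K q c)[i]? =
    some ⟨(S.off c i + q.O).toNat, S.chd c i, pkL (q.K + 1) ((S.kvA K q c i).map (bias q.HA))⟩ := by
  unfold halfAK
  rw [List.getElem?_map, List.getElem?_range hi]
  rfl

theorem getElem_halfB {c i : ℕ} (hi : i < S.L) : (S.halfBK K q c)[i]? =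
    some ⟨(S.off c i + q.O).toNat, S.chd c i, pkL (q.K + 1) ((S.kvB K q c i).map (bias q.HA))⟩ := by
  unfold halfBK
  rw [List.getElem?_map, List.getElem?_range hi]
  rfl

theorem nz_kvA {c i : ℕ} (h : S.chkBdK K q c = true) (hi : i ≤ S.L) (z : ℤ) :
    nzv q.z0 (S.kvA K q c i) z = S.kpre K c S.L z - S.kpre K c i z :=
  nzv_map (f := fun z => S.kpre K c S.L z - S.kpre K c i z) (fun y hy => by
    rw [kpre_out h le_rfl hy, kpre_out h hi hy, sub_zero]) z

theorem nz_kvB {c j : ℕ} (h : S.chkBdK K q c = true) (hj : j < S.L) (z : ℤ) :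
    nzv q.z0 (S.kvB K q c j) z = S.kpre K c (j + 1) z :=
  nzv_map (f := fun z => S.kpre K c (j + 1) z) (fun _ hy => kpre_out h hj hy) z

theorem FK.M_eq (H : S.FK K q pats pn EP EM M R SA SB) :
    M = pf (q.K + 1) (2 * q.Z + 1) fun _ => 2 ^ q.K := by
  have hC := H.con
  unfold chkCK at hC
  simp only [Bool.and_eq_true] at hC
  rw [Nat.eq_of_beq_eq_true hC.1.1.2, pkL_eq, List.length_replicate]
  refine pf_congr fun k hk => ?_
  rw [List.getD_eq_getElem?_getD, List.getElem?_replicate, if_pos hk, Option.getD_some]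

theorem FK.R_eq (H : S.FK K q pats pn EP EM M R SA SB) :
    R = pf (q.K + 1) (2 * q.Z + 1) fun _ => 1 := by
  have hC := H.con
  unfold chkCK at hC
  simp only [Bool.and_eq_true] at hC
  rw [Nat.eq_of_beq_eq_true hC.1.2, rp_eq]

theorem FK.EP_eq (H : S.FK K q pats pn EP EM M R SA SB) :
    EP = pkL (q.K + 1) ((S.kevl K).map Int.toNat) := by
  have hC := H.con
  unfold chkCK at hC
  simp only [Bool.and_eq_true] at hC
  exact Nat.eq_of_beq_eq_true hC.1.1.1.1

theorem FK.EM_eq (H : S.FK K q pats pn EP EM M R SA SB) :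
    EM = pkL (q.K + 1) ((S.kevl K).map fun x => (-x).toNat) := by
  have hC := H.con
  unfold chkCK at hC
  simp only [Bool.and_eq_true] at hC
  exact Nat.eq_of_beq_eq_true hC.1.1.1.2

theorem FK.be (H : S.FK K q pats pn EP EM M R SA SB) : ∀ x ∈ S.kevl K, |x| ≤ q.Em := fun x hx => by
  have hC := H.con
  unfold chkCK at hC
  simp only [Bool.and_eq_true, List.all_eq_true, decide_eq_true_eq] at hC
  exact abs_le.2 ⟨(hC.2 x hx).2, (hC.2 x hx).1⟩

theorem FK.bA (H : S.FK K q pats pn EP EM M R SA SB) {c : ℕ} (hc : c < S.T) {i : ℕ} (hi : i < S.L) :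
    0 ≤ S.off c i + q.O ∧ (∀ x ∈ S.kvA K q c i, |x| ≤ q.HA) ∧ ∀ x ∈ S.kvB K q c i, |x| ≤ q.HA := by
  have h := H.bd c hc
  unfold chkBdK at h
  simp only [Bool.and_eq_true, decide_eq_true_eq, List.all_eq_true, List.mem_range] at h
  have h1 := h i hi
  exact ⟨h1.1.1.1.1, fun x hx => abs_le.2 ⟨(h1.1.2 x hx).2, (h1.1.2 x hx).1⟩,
    fun x hx => abs_le.2 ⟨(h1.2 x hx).2, (h1.2 x hx).1⟩⟩

theorem length_kvA (c i : ℕ) : (S.kvA K q c i).length = q.wl := by
  unfold kvA
  rw [List.length_map, List.length_range]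

theorem length_kvB (c i : ℕ) : (S.kvB K q c i).length = q.wl := by
  unfold kvB
  rw [List.length_map, List.length_range]

/-- **The hypothesis `hB` of `kgood_sub`.** -/
theorem hB_ofK (O : S.OK) (KO : S.KOK K) (H : S.FK K q pats pn EP EM M R SA SB)
    (h : ∀ c < S.T, S.chkBlK K q pn EP EM M R (SA c) (SB c) = true) :
    ∀ c < S.T, ∀ i j, i < j → j < S.L →
      NoKE K.g pats (S.chd c i) (S.chd c j) (S.off c i) (S.off c j)
        (fun y => S.kpre K c (j + 1) y - S.kpre K c i y)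
        (fun y => S.kpre K c j y - S.kpre K c (i + 1) y) := by
  intro c hc i j hij hj
  have h1 := h c hc
  unfold chkBlK at h1
  rcases hZ : inK q S.b (K.e0 - S.b) (K.e.length + S.b * K.g.length) 0 [.ofNat 0] with _ | _
  · rw [hZ] at h1
    exact absurd h1 (by simp)
  rw [hZ] at h1
  simp only at h1
  rw [← eqHN_sound (H.a c hc), ← eqHN_sound (H.b c hc)] at h1
  have h2 := chkIn_sound h1 hij (getElem_halfA (hij.trans hj)) (getElem_halfB hj)
  have hl : ((S.kevl K).map fun x => -x).length = K.e.length + S.b * K.g.length := by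
    rw [List.length_map, length_kevl]
  rw [← hl] at hZ
  refine noKE_of (H.p _ (O.chd_lt c hc i (hij.trans hj)) _ (O.chd_lt c hc j hj)) (H.bA hc (hij.trans hj)).1
    (fun z => ?_) (win2_sound (ev := (S.kevl K).map fun x => -x) (va := S.kvA K q c i)
      (vb := S.kvB K q c j) (B := S.off c j) (bd := 0) hZ ?_ ?_ H.M_eq H.R_eq (length_kvA c i)
      (length_kvB c j) (fun x hx => ?_) (H.bA hc (hij.trans hj)).2.1 (H.bA hc hj).2.2
      (H.bA hc (hij.trans hj)).1 (by rw [sub_zero]; exact (H.bA hc hj).1) (by rw [sub_zero]; exact h2)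
      fun z => ?_)
  · rw [kpre_succ, kpre_succ]
    ring
  · rw [H.EM_eq, List.map_map]
    rfl
  · rw [H.EP_eq, List.map_map]
    congr 1
    refine List.map_congr_left fun x _ => ?_
    simp
  · obtain ⟨y, hy, rfl⟩ := List.mem_map.1 hx
    rw [abs_neg]
    exact H.be y hy
  · have e1 : nzv (K.e0 - S.b) ((S.kevl K).map fun x => -x) z = -nzv (K.e0 - S.b) (S.kevl K) z := by
      unfold nzv
      split_ifs
      · rfl
      · have := getD_map0 (fun x : ℤ => -x) 0 (S.kevl K) (z - (K.e0 - S.b)).toNat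
        simp only [neg_zero] at this
        exact this
    have e2 : lets (nzv (K.e0 - S.b) ((S.kevl K).map fun x => -x)) S.b [Int.ofNat 0] z =
        - S.kpre K c S.L z := by
      unfold lets
      rw [List.map_singleton, List.sum_singleton, Int.ofNat_eq_natCast, Nat.cast_zero, mul_zero,
        sub_zero, e1, nzv_kevl O.b0, KO.id c hc]
      rfl
    rw [nz_kvA (H.bd c hc) (hij.trans hj).le, e2, sub_zero, nz_kvB (H.bd c hc) hj]
    ring

theorem twoK_sound (O : S.OK) (H : S.FK K q pats pn EP EM M R SA SB) {c c' : ℕ} (hc : c < S.T)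
    (hc' : c' < S.T) {d : ℤ} {ps : List ℤ}
    (h : S.chkTwoK K q pn EP EM M R (SA c) (SB c') d ps = true) {i j : ℕ} (hi : i < S.L)
    (hj : j < S.L) :
    NoKE K.g pats (S.chd c i) (S.chd c' j) (S.off c i) (S.b * d + S.off c' j)
      (S.kFn K c i c' (j + 1) d (cv K.g (dps ps))) (S.kFn K c (i + 1) c' j d (cv K.g (dps ps))) := by
  unfold chkTwoK at h
  rcases hZ : inK q S.b (K.e0 - S.b) (K.e.length + S.b * K.g.length) (S.b * d) ps with _ | _
  · rw [hZ] at h
    exact absurd h (by simp)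
  rw [hZ] at h
  simp only at h
  rw [← eqHN_sound (H.a c hc), ← eqHN_sound (H.b c' hc')] at h
  rw [allL_iff] at h
  have h2 := h _ (List.mem_of_getElem? (getElem_halfA hi))
  rw [allL_iff] at h2
  have h3 := h2 _ (List.mem_of_getElem? (getElem_halfB hj))
  rw [← length_kevl] at hZ
  refine noKE_of (H.p _ (O.chd_lt c hc i hi) _ (O.chd_lt c' hc' j hj)) (H.bA hc hi).1
    (fun z => ?_) (win2_sound (ev := S.kevl K) (va := S.kvA K q c i)
      (vb := S.kvB K q c' j) (B := S.b * d + S.off c' j) (bd := S.b * d) hZ H.EP_eq H.EM_eq H.M_eq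
      H.R_eq (length_kvA c i) (length_kvB c' j) H.be (H.bA hc hi).2.1 (H.bA hc' hj).2.2 (H.bA hc hi).1
      (by rw [add_sub_cancel_left]; exact (H.bA hc' hj).1) (by rw [add_sub_cancel_left]; exact h3)
      fun z => ?_)
  · unfold kFn
    rw [kpre_succ, kpre_succ, prof_shift]
    ring
  · rw [nz_kvA (H.bd c hc) hi.le, klets O.b0, nz_kvB (H.bd c' hc') hj]
    rfl

/-- **The hypothesis `hS` of `kgood_sub`.** -/
theorem hS_ofK (O : S.OK) (H : S.FK K q pats pn EP EM M R SA SB)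
    (h : ∀ c < S.T, S.chkShortK K q pn EP EM M R SA SB c = true)
    (W : ℤ → ℤ) (ty : ℤ → ℕ) (hW : S.Path W ty) (s e : ℤ) (hse : s < e) (he : e ≤ s + 2 * S.m)
    (i : ℕ) (hi : i < S.L) (j : ℕ) (hj : j < S.L) :
    NoKE K.g pats (S.chd (ty s) i) (S.chd (ty e) j) (S.off (ty s) i)
      (S.b * (W e - W s) + S.off (ty e) j)
      (S.kFn K (ty s) i (ty e) (j + 1) (W e - W s) (kLw K.g W s e))
      (S.kFn K (ty s) (i + 1) (ty e) j (W e - W s) (kLw K.g W s e)) := by
  have h1 := h _ (hW.lt s)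
  unfold chkShortK at h1
  obtain ⟨n, hn, rfl⟩ : ∃ n : ℕ, 0 < n ∧ e = s + n := ⟨(e - s).toNat, by omega, by omega⟩
  obtain ⟨qs, h2, h3⟩ := walks_sound O.m1 hW s (2 * S.m) 0 [] (by simpa using h1)
    (fun y => by simp [E_self, dps]) n hn (by omega)
  have h4 : kLw K.g W s (s + n) = cv K.g (dps qs) := funext fun y => by
    unfold kLw
    rw [cv_at]
    exact cv_congr K.g h2 y
  rw [h4]
  exact twoK_sound O H (hW.lt _) (hW.lt _) h3 hi hj

end

end Tab

end LWG
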