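import Pool.Agent.LWG.KFar
import Pool.Agent.LWG.KNear
import Pool.Agent.LWG.KOkT
import Pool.Agent.LWG.KShort
import Pool.Agent.LWG.GrowTab

/-!
# Substitution words with a kernel: a table which passes all checks

* `KChkT`: the checks of the table, of the blocks and of the short windows;
* `KChkN`: the checks of the near and the far windows;
* **`kgood_all`**: every iterate of a start word has the invariant, **`klines_all`**,
  **`klines_all_rat`**: pseudolines with a level of `n ^ e` vertices.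
-/

set_option autoImplicit false

namespace LWG

open LevelWords LevelPseudo LevelLower

/-- The table, its kernel, its blocks and the short windows. `N` is a range. -/
structure KChkT (S : Tab) (K : Ker) (pats : ℕ → ℕ → List Pat) (N : ℕ) (q : Prm)
    (pn : ℕ → ℕ → ℕ → List PatN) (EP EM M R : ℕ) (SA SB : ℕ → List HalfN) : Prop where
  okG : S.okG N = true
  okC : ∀ c < S.T, S.okC N c = true
  b2 : 2 ≤ S.b
  ker : okKer K.g = true
  kokG : S.kokG K N = true
  kokC : ∀ c < S.T, S.kokC K N c = true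
  fk : S.FK K q pats pn EP EM M R SA SB
  bl : ∀ c < S.T, S.chkBlK K q pn EP EM M R (SA c) (SB c) = true
  short : ∀ c < S.T, S.chkShortK K q pn EP EM M R SA SB c = true

/-- the data of the far windows, from those of the near windows -/
def farD (T : Dat) (M : DatM) (NA NB : ℕ → List (List ℤ)) (gN gP : List ℤ) (n : ℕ)
    (Y Z Z' lo hi : ℤ) : FarD where
  X := T.X
  m := T.m
  N := M.N
  n := n
  Y := Y
  n0 := T.n0
  Z := Z
  Z' := Z'
  lo := lo
  hi := hi
  K := T.K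
  K' := M.K
  σ := T.σ
  σ' := M.σ
  lv := T.lv
  rv := T.rv
  lv' := M.lv
  rv' := M.rv
  NA := NA
  NB := fun c => (NB c).tail
  gN := gN
  gP := gP

/-- The near windows, `|d| ≤ n + 1`, and the far windows. -/
structure KChkN (S : Tab) (K : Ker) (pats : ℕ → ℕ → List Pat) (lo hi : ℤ) (mp : ℕ)
    (T : Dat) (M : DatM) (len : ℕ) (NA NB : ℕ → List (List ℤ)) (PA PB : ℕ → List Ltr)
    (gN gP : List ℤ) (n : ℕ) (Y Z Z' lo' hi' : ℤ) : Prop where
  okR : ∀ c < S.T, S.okR lo hi c = true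
  small : ∀ c < S.T, ∀ c' < S.T, Tab.smallP pats (S.b * (n + 2) - (hi - lo)) c c' = true
  sgn : okSgn K.g gN gP = true
  dat : KDatOK S K mp T
  datM : KDatMOK S K T pats NA NB M
  nz : ∀ c < S.T, S.kokNz K.g T.n0 len NA NB c = true
  par : ∀ c < S.T, S.kokPar NA NB PA PB c = true
  cP : ∀ f < S.T, ∀ f' < S.T, ∀ Q ∈ pats f f', ∀ A ∈ PA f, ∀ B ∈ PB f',
    cellP T pats ((n : ℤ) + 1) Q A B = true
  cE : ∀ c < S.T, ∀ c' < S.T, ∀ d : ℤ, -((n : ℤ) + 1) ≤ d → d ≤ n + 1 → ∀ i < S.L, ∀ j < S.L,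
    kcellE T pats M gN gP d ⟨c, S.off c i, (NA c).getD i []⟩
      ⟨c', S.off c' j, (NB c').getD (j + 1) []⟩ = true
  num : (farD T M NA NB gN gP n Y Z Z' lo' hi').num S = true
  rng : ∀ c < S.T, ∀ i < S.L, (farD T M NA NB gN gP n Y Z Z' lo' hi').rng S c i = true
  zer : ∀ c < S.T, (farD T M NA NB gN gP n Y Z Z' lo' hi').zer c = true
  far : ∀ c < S.T, ∀ i < S.L, (farD T M NA NB gN gP n Y Z Z' lo' hi').chk c (S.off c i)
    ((NA c).getD i []) ((NB c).getD (i + 1) []) = true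

theorem getD_tailL {l : List (List ℤ)} (j : ℕ) : l.tail.getD j [] = l.getD (j + 1) [] := by
  rcases l with _ | ⟨a, l⟩
  · simp
  · simp

theorem KChkN.farOK {S : Tab} {K : Ker} {pats : ℕ → ℕ → List Pat} {lo hi : ℤ} {mp : ℕ} {T : Dat}
    {M : DatM} {len : ℕ} {NA NB : ℕ → List (List ℤ)} {PA PB : ℕ → List Ltr} {gN gP : List ℤ} {n : ℕ}
    {Y Z Z' lo' hi' : ℤ} (h : KChkN S K pats lo hi mp T M len NA NB PA PB gN gP n Y Z Z' lo' hi') :
    FarOK S K (farD T M NA NB gN gP n Y Z Z' lo' hi') where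
  tie := h.dat.tie
  tie' := h.datM.tie
  sol := h.dat.sol
  sol' := h.datM.sol
  sgn := sgn_of h.sgn
  num := h.num
  rng := h.rng
  zer := h.zer
  len c hc v hv := length_klvec (h.dat.lv c hc v hv)
  len' c hc v hv := length_krvec (h.dat.rv c hc v hv)
  lv := h.datM.lv
  rv := h.datM.rv
  na c hc i hi := ⟨h.datM.na c hc i hi.le, fun y => (knzOK_of h.nz).a c hc i hi.le y⟩
  nb c hc j hj := by
    refine ⟨?_, fun y => ?_⟩
    · change ((NB c).tail.getD j []).length = M.N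
      rw [getD_tailL]
      exact h.datM.nb c hc (j + 1) hj
    · change LWG.nz T.n0 ((NB c).tail.getD j []) y = _
      rw [getD_tailL]
      exact (knzOK_of h.nz).b c hc (j + 1) hj y
  chk c hc i hi := by
    change (farD T M NA NB gN gP n Y Z Z' lo' hi').chk c (S.off c i) ((NA c).getD i [])
      ((NB c).tail.getD i []) = true
    rw [getD_tailL]
    exact h.far c hc i hi

section

variable {S : Tab} {K : Ker} {pats : ℕ → ℕ → List Pat} {N : ℕ} {q : Prm}
  {pn : ℕ → ℕ → ℕ → List PatN} {EP EM M R : ℕ} {SA SB : ℕ → List HalfN} {lo hi : ℤ} {mp : ℕ}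
  {T : Dat} {M' : DatM} {len : ℕ} {NA NB : ℕ → List (List ℤ)} {PA PB : ℕ → List Ltr}
  {gN gP : List ℤ} {n : ℕ} {Y X X' lo' hi' : ℤ}

theorem KChkT.ok (h : KChkT S K pats N q pn EP EM M R SA SB) : S.OK := Tab.ok_of h.okG h.okC

theorem KChkT.kok (h : KChkT S K pats N q pn EP EM M R SA SB) : S.KOK K :=
  Tab.kok_of (h.ok.bas h.b2) h.kokG h.kokC

/-- **the invariant is preserved** -/
theorem kgood_step (h : KChkT S K pats N q pn EP EM M R SA SB)
    (hn : KChkN S K pats lo hi mp T M' len NA NB PA PB gN gP n Y X X' lo' hi') {W : ℤ → ℤ} {ty : ℤ → ℕ}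
    (hG : KGood S K.g pats W ty) : KGood S K.g pats (S.subW W ty) (S.subT ty) := by
  refine kgood_sub h.ok h.kok (oker_of h.ker) (Tab.hB_ofK h.ok h.kok h.fk h.bl)
    (Tab.hS_ofK h.ok h.fk h.short) (khN_of h.ok hn.farOK hn.okR hn.small
      (fun _ hc _ hc' _ _ hL => hn.dat.loc hc hc' hL) ?_) hG
  · intro c hc c' hc' d hd1 hd2 D hL i hi j hj
    exact noKE_near hn.dat (knzOK_of hn.nz) (kparOK_of hn.par) hn.datM (sgn_of hn.sgn) hn.cP hn.cE
      h.ok.chd_lt hc hc' hd1 hd2 hL hi hj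

/-- **all iterates of a start word** -/
theorem kgood_all (h : KChkT S K pats N q pn EP EM M R SA SB)
    (hn : KChkN S K pats lo hi mp T M' len NA NB PA PB gN gP n Y X X' lo' hi') {l : List (ℤ × ℕ)} {Z1 Z Q : ℕ}
    {B : ℤ} (hl : chkKStart S K.g pats l Z1 Z Q B = true) (k : ℕ) :
    KGood S K.g pats (iterW S (pW l) (pT l) k).1 (iterW S (pW l) (pT l) k).2 :=
  kgood_iter (fun _ _ => kgood_step h hn) (kgood_start hl) k

/-- the letters of a periodic word are bounded -/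
theorem pW_bddK {g : List ℤ} {l : List (ℤ × ℕ)} {Z1 Z Q : ℕ} {B : ℤ}
    (hl : chkKStart S g pats l Z1 Z Q B = true) (t : ℤ) : |pW l t| ≤ Z1 := by
  unfold chkKStart at hl
  simp only [Bool.and_eq_true, decide_eq_true_eq] at hl
  have := ((St1 hl.1.1.2).2 t).1
  rw [abs_le]
  constructor <;> omega

/-- **pseudolines from a table, exact exponent** -/
theorem klines_all (h : KChkT S K pats N q pn EP EM M R SA SB)
    (hn : KChkN S K pats lo hi mp T M' len NA NB PA PB gN gP n Y X X' lo' hi') {l : List (ℤ × ℕ)} {Z1 Z Q : ℕ}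
    {B : ℤ} (hl : chkKStart S K.g pats l Z1 Z Q B = true) {q' v : ℕ} (hq : 2 ≤ q')
    (hc : S.okCol q' = true) (hv : S.okOff v = true) {e : ℝ} (he : ((S.b * q' : ℕ) : ℝ) ^ e = S.L)
    (he0 : 0 ≤ e) :
    ∃ c : ℝ, 0 < c ∧ ∃ n₀ : ℕ, ∀ n ≥ n₀,
    (∃ f : Fin n → ℝ → ℝ, (∀ i, Continuous (f i)) ∧
      (∀ i j, i ≠ j → ∃ x, Crosses (f i) (f j) x) ∧
      ∃ k < n, c * (n : ℝ) ^ e ≤ psiT f k) ∧
    ∀ s ≥ 1, c * (n : ℝ) ^ e ≤ Psi s n := by
  obtain ⟨A, B', u, hOp⟩ := refOp_cv h.kok.g0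
  exact lines_tab h.ok h.b2 (kgood_start hl).path hq hc hv (pW_bddK hl) hOp
    (fun k => (kgood_all h hn hl k).uni) he he0

/-- **pseudolines from a table, rational exponent** -/
theorem klines_all_rat (h : KChkT S K pats N q pn EP EM M R SA SB)
    (hn : KChkN S K pats lo hi mp T M' len NA NB PA PB gN gP n Y X X' lo' hi') {l : List (ℤ × ℕ)} {Z1 Z Q : ℕ}
    {B : ℤ} (hl : chkKStart S K.g pats l Z1 Z Q B = true) {q' v : ℕ} (hq : 2 ≤ q')
    (hc : S.okCol q' = true) (hv : S.okOff v = true) {x y : ℕ} (hy : 0 < y)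
    (he : (S.b * q') ^ x < S.L ^ y) :
    ∃ n₀ : ℕ, ∀ n ≥ n₀,
    (∃ f : Fin n → ℝ → ℝ, (∀ i, Continuous (f i)) ∧
      (∀ i j, i ≠ j → ∃ x, Crosses (f i) (f j) x) ∧
      ∃ k < n, (n : ℝ) ^ ((x : ℝ) / y) ≤ psiT f k) ∧
    ∀ s ≥ 1, (n : ℝ) ^ ((x : ℝ) / y) ≤ Psi s n := by
  obtain ⟨A, B', u, hOp⟩ := refOp_cv h.kok.g0
  exact lines_tab_rat h.ok h.b2 (kgood_start hl).path hq hc hv (pW_bddK hl) hOp
    (fun k => (kgood_all h hn hl k).uni) hy he

end

end LWG
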