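import Pool.Agent.LWG.KCloseP
import Pool.Agent.LWG.KOkT

/-!
# Several tables in turn: the decidable check of a table

* **`okp_of`**: `okGP S S'` and `okCP S S' c` for all `c < S.T` give `OKP S S'`;
* **`bas2_of`**: `okRgP`, `okIdP` give `Tab.Bas2`;
* **`kid_of`**: `kokG K N` and `kokC K N c` give `KId S K`.
-/

set_option autoImplicit false

namespace LWG

open LevelWords

/-- general facts about a table `S`, child types of `S'` -/
def okGP (S S' : Tab) : Bool :=
  decide (0 < S.L) && decide (0 < S.b) && decide (1 ≤ S.m) && decide (S'.m ≤ S.L)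

/-- facts about the block of the type `c` -/
def okCP (S S' : Tab) (c : ℕ) : Bool :=
  (List.range S.L).all (fun r => decide (S.chd c r < S'.T)) &&
  (List.range (S.L - 1)).all (fun r => decide (S.chd c (r + 1) ∈ S'.nxt (S.chd c r))) &&
  (S.nxt c).all (fun c' => decide (S.chd c' 0 ∈ S'.nxt (S.chd c (S.L - 1))) &&
    (List.range S.L).all fun r => (List.range S'.m).all fun j =>
      decide (S'.step (S.chd c r) j = S.two c c' (r + j + 1) - S.two c c' (r + j)) &&
      decide (S'.step (S.chd c' r) (-(j + 1 : ℕ)) =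
        S.two c c' (S.L + r - j) - S.two c c' (S.L + r - (j + 1))))

theorem okp_of {S S' : Tab} (hG : okGP S S' = true) (hC : ∀ c < S.T, okCP S S' c = true) :
    OKP S S' := by
  unfold okGP at hG
  simp only [Bool.and_eq_true, decide_eq_true_eq] at hG
  obtain ⟨⟨⟨hL, hb⟩, hm⟩, hmL⟩ := hG
  have key : ∀ c < S.T, _ := fun c hc => hC c hc
  simp only [okCP, Bool.and_eq_true, List.all_eq_true, decide_eq_true_eq, List.mem_range] at key
  exact ⟨hL, hb, hm, hmL, fun c hc r hr => (key c hc).1.1 r hr,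
    fun c hc r hr => (key c hc).1.2 r (by omega),
    fun c hc c' hc' => ((key c hc).2 c' hc').1,
    fun c hc c' hc' r hr j hj => (((key c hc).2 c' hc').2 r hr j hj).1,
    fun c hc c' hc' r hr j hj => (((key c hc).2 c' hc').2 r hr j hj).2⟩

/-- the identity for the differences of a block of type `c` -/
def okIdP (S : Tab) (N c : ℕ) : Bool :=
  (List.range S.L).all (fun r => decide (-(N : ℤ) ≤ S.off c r - 1) &&
    decide (S.off c r < (N : ℤ))) &&
  (List.range (2 * N)).all fun k => decide (S.part c 0 S.L ((k : ℤ) - N) =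
    S.comb (dl 0) ((k : ℤ) - N))

/-- bounds -/
def okRgP (S : Tab) (N : ℕ) : Bool :=
  decide (2 ≤ S.b) && decide (-(N : ℤ) ≤ S.e0 - S.b) && decide (S.e0 + S.e.length ≤ (N : ℤ))

theorem bas2_of {S S' : Tab} (h : OKP S S') {N : ℕ} (hG : okRgP S N = true)
    (hC : ∀ c < S.T, okIdP S N c = true) : S.Bas2 S' := by
  unfold okRgP at hG
  simp only [Bool.and_eq_true, decide_eq_true_eq] at hG
  obtain ⟨⟨hb, he1⟩, he2⟩ := hG
  refine ⟨h.L0, hb, h.chd_lt, fun c hc y => ?_⟩
  have h0 := hC c hc
  simp only [okIdP, Bool.and_eq_true, List.all_eq_true, decide_eq_true_eq, List.mem_range] at h0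
  obtain ⟨h1, h2⟩ := h0
  rcases lt_or_ge y (-(N : ℤ)) with h | h
  · rw [Tab.part_nil S.L fun r hr => ?_, Tab.comb_dl_zero (by omega) (Or.inl (by omega))]
    have := h1 r hr
    rcases dl_cases (S.off c r) y with h' | h' | h' <;> omega
  rcases lt_or_ge y N with h' | h'
  · have := h2 (y + N).toNat (by omega)
    rwa [show (((y + N).toNat : ℕ) : ℤ) - N = y by omega] at this
  · rw [Tab.part_nil S.L fun r hr => ?_, Tab.comb_dl_zero (by omega) (Or.inr (by omega))]
    have := h1 r hr
    rcases dl_cases (S.off c r) y with h'' | h'' | h'' <;> omega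

/-- **the check of a kernel is sound** -/
theorem kid_of {S : Tab} {K : Ker} (hb : 0 < S.b) (hL : 0 < S.L) {N : ℕ} (hG : S.kokG K N = true)
    (hC : ∀ c < S.T, S.kokC K N c = true) : KId S K := by
  simp only [Tab.kokG, Bool.and_eq_true, decide_eq_true_eq] at hG
  obtain ⟨⟨h0, h1⟩, h2⟩ := hG
  refine ⟨hb, hL, fun c hc y => ?_⟩
  have h3 := hC c hc
  simp only [Tab.kokC, Bool.and_eq_true, List.all_eq_true, decide_eq_true_eq,
    List.mem_range] at h3
  obtain ⟨h3, h4⟩ := h3
  rcases lt_or_ge y (-(N : ℤ)) with h | h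
  · rw [Tab.kpre_nil S.L fun r hr => prof_out (by have := h3 r hr; omega),
      Tab.comb_cv_zero hb h0 (Or.inl (by omega))]
  rcases lt_or_ge y N with h' | h'
  · have := h4 (y + N).toNat (by omega)
    rwa [show (((y + N).toNat : ℕ) : ℤ) - N = y by omega] at this
  · rw [Tab.kpre_nil S.L fun r hr => prof_out (by have := h3 r hr; omega),
      Tab.comb_cv_zero hb h0 (Or.inr (by omega))]

end LWG
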