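import Pool.Agent.LWG.Phase
import Pool.Agent.LWG.KCloseP

/-!
# Typed substitutions with phases, scales `b ≥ 1`

Only the product of the scales over one period has to be at least `2`, and less than the product of the factors `Q k` of the
lines. `Q k` = sum of the coefficients `|e|` of the refinement of the convolved differences (kernel). Only the windows between
two letters of the tree of the letter `0` are used.

* `kseq_rec_env`, `rec_exact_env`: lines from bounds of the convolved heights;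
* `Env`, `env_step`: bounds of the convolved heights of the child word;
* **`lines_phase_env`**, **`lines_phase_env_rat`**; `kid_one`, `cv_one`: tables without kernel.
-/

set_option autoImplicit false

open Finset LevelLower LevelPseudo LevelWords

namespace LWG

open Tab

/-! ### one word -/

/-- **one word, recorded times `S`, bounds of the heights of the image** -/
theorem kseq_rec_env {Op : (ℤ → ℤ) → ℤ → ℤ} {A B w : ℕ} (h : RefOp Op A B w)
    {W : ℤ → ℤ} {T R N : ℕ} {ν : ℤ → ℕ} (hN : B * R + w ≤ N)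
    (hR : ∀ t : ℕ, t < T → -(R : ℤ) ≤ W t - 1 ∧ W t < R)
    (hM : ∀ t : ℕ, t ≤ T → ∀ y, |Op (fun x => C W x t) y| ≤ ν y) (hν : ∀ y, ν y ≠ 0 → -(N : ℤ) ≤ y ∧ y < N)
    (S : Finset ℕ) (hS : ∀ t ∈ S, t ≤ T)
    (hU : ∀ a ∈ S, ∀ b ∈ S, a < b → Uni (Op (E W a b))) :
    KSeq 1 (2 * ∑ y ∈ Ico (-(N : ℤ)) N, ν y) (S.card - 1) := by
  rcases Nat.eq_zero_or_pos S.card with h0 | h0
  · rw [h0]
    exact ⟨0, fun _ => ∅, fun _ _ => card_empty, fun t ht => absurd ht (Nat.not_lt_zero t),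
      fun a b _ => ⟨0, fun _ => 0, monotone_const, fun t => ⟨le_rfl, Nat.zero_le _⟩,
        fun t _ _ => by simp⟩⟩
  obtain ⟨m, hm⟩ : ∃ m, S.card = m + 1 := ⟨S.card - 1, by omega⟩
  obtain ⟨a, ha⟩ : ∃ a : ℕ → ℕ, a = fun j => if hj : j < m + 1 then
    S.orderEmbOfFin hm ⟨j, hj⟩ else 0 := ⟨_, rfl⟩
  have haS : ∀ j ≤ m, a j ∈ S := fun j hj => by
    rw [ha]
    simp only
    rw [dif_pos (by omega)]
    exact orderEmbOfFin_mem S hm _
  have hlt : ∀ i j, i < j → j ≤ m → a i < a j := fun i j hij hj => by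
    rw [ha]
    simp only
    rw [dif_pos (by omega), dif_pos (by omega)]
    exact (S.orderEmbOfFin hm).strictMono hij
  obtain ⟨G, hG⟩ : ∃ G : ℕ → ℤ → ℤ, G = fun t : ℕ => Op fun x => C W x (t : ℤ) := ⟨_, rfl⟩
  have hd : ∀ (t' t : ℕ) y, G t y - G t' y = Op (E W t' t) y := fun t' t y => by
    have h1 := congrFun (h.sub (fun x => C W x t) fun x => C W x t') y
    rw [hG]
    exact h1.symm
  have c1 := C_supp hR
  have c2 := C_sum0 hR
  have hsp : ∀ t : ℕ, t ≤ T → ∀ y, G t y ≠ 0 → -((B * R + w : ℕ) : ℤ) ≤ y ∧ y < (B * R + w : ℕ) := by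
    intro t ht y hy
    rw [hG] at hy
    exact h.supp _ R (c1 t ht) y hy
  have hSum : ∀ t : ℕ, t ≤ T → ∑ i ∈ Ico (-((N + 1 : ℕ) : ℤ)) (N + 1 : ℕ),
      -G t (i - 1) = 0 := by
    intro t ht
    have h2 := h.sum _ R (c1 t ht) (c2 t ht)
    have e1 := sum_shift (N := N) (fun y => -G t y) fun y hy => by
      have := hsp t ht y (by simpa using hy)
      omega
    rw [e1, sum_neg_distrib, neg_eq_zero]
    have e2 : ∑ y ∈ Ico (-((B * R + w : ℕ) : ℤ)) (B * R + w : ℕ), G t y = ∑ y ∈ Ico (-(N : ℤ)) N, G t y := by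
      refine sum_subset (fun y hy => ?_) fun y _ hy => ?_
      · rw [mem_Ico] at hy ⊢
        omega
      · by_contra h3
        exact hy (mem_Ico.2 (hsp t ht y h3))
    rw [← e2, hG]
    exact h2
  have haT : ∀ j ≤ m, a j ≤ T := fun j hj => hS _ (haS j hj)
  rw [hm, Nat.add_sub_cancel]
  have key : KSeq 1 (2 * ∑ i ∈ Ico (-((N + 1 : ℕ) : ℤ)) (N + 1 : ℕ), ν (i - 1)) m := by
    refine kseq_heights_sum (T := m) (R := N + 1) (fun t i => -G (a t) (i - 1))
      (fun i => ν (i - 1)) (fun t ht i => ?_) (fun t ht => ?_) (fun t ht => ?_)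
      (fun t' t htt ht i i' hi h1 h2 => ?_)
    · have h3 : |G (a t) (i - 1)| ≤ ν (i - 1) := by
        rw [hG]
        exact hM (a t) (haT t ht) (i - 1)
      rw [abs_le] at h3
      constructor <;> omega
    · show ∑ i ∈ _, -G (a t) (i - 1) = ∑ i ∈ _, -G (a 0) (i - 1)
      rw [hSum (a t) (haT t ht), hSum (a 0) (haT 0 (Nat.zero_le _))]
    · have hab := hlt t (t + 1) (Nat.lt_succ_self t) ht
      obtain ⟨n, hn⟩ : ∃ n, a (t + 1) = a t + n + 1 := ⟨a (t + 1) - a t - 1, by omega⟩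
      have hs : ∀ x, E W (a t) (a (t + 1)) x ≠ 0 → -(R : ℤ) ≤ x ∧ x < R := fun x hx => by
        by_cases h5 : C W x (a (t + 1)) = 0
        · refine c1 (a t) (haT t (by omega)) x fun h6 => hx ?_
          unfold E
          rw [h5, h6, sub_zero]
        · exact c1 (a (t + 1)) (haT (t + 1) (by omega)) x h5
      obtain ⟨x, hx, -⟩ := E_lead W (a t) n
      rw [← hn] at hx
      obtain ⟨y, hy⟩ := h.ne _ R hs ⟨x, hx.ne'⟩
      obtain ⟨h4, h5⟩ := h.supp _ R hs y hy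
      have h6 := hd (a t) (a (t + 1)) y
      refine ⟨y + 1, by omega, by omega, ?_⟩
      show -G (a t) (y + 1 - 1) ≠ -G (a (t + 1)) (y + 1 - 1)
      rw [add_sub_cancel_right]
      intro h7
      apply hy
      omega
    · have h3 := hd (a t') (a t) (i - 1)
      have h4 := hd (a t') (a t) (i' - 1)
      refine hU (a t') (haS t' (by omega)) (a t) (haS t ht) (hlt t' t htt ht) (i - 1) (i' - 1)
        (by omega) ?_ ?_
      · have h1' : -G (a t') (i - 1) < -G (a t) (i - 1) := h1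
        omega
      · have h2' : -G (a t) (i' - 1) < -G (a t') (i' - 1) := h2
        omega
  rw [sum_shift (N := N) ν hν] at key
  exact key

/-- **a family of words with recorded times, bounds of the heights of the image** -/
theorem rec_exact_env {Op : (ℤ → ℤ) → ℤ → ℤ} {A B w : ℕ} (h : RefOp Op A B w)
    (W : ℕ → ℤ → ℤ) (T : ℕ → ℕ) {Q m : ℕ} {e ρ D : ℝ} (hQ : 2 ≤ Q)
    (hD : 0 < D) (hρ : 0 < ρ) (he : (Q : ℝ) ^ e = ρ) (he0 : 0 ≤ e) (R N : ℕ → ℕ) (hN : ∀ k, B * R k + w ≤ N k)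
    (hR : ∀ k (t : ℕ), t < T k → -(R k : ℤ) ≤ W k t - 1 ∧ W k t < R k) (ν : ℕ → ℤ → ℕ)
    (hM : ∀ k (t : ℕ), t ≤ T k → ∀ y, |Op (fun x => C (W k) x t) y| ≤ ν k y)
    (hν : ∀ k y, ν k y ≠ 0 → -(N k : ℤ) ≤ y ∧ y < N k)
    (hνs : ∀ k, ∑ y ∈ Ico (-(N k : ℤ)) (N k), ν k y ≤ m * Q ^ k) (S : ℕ → Finset ℕ)
    (hS : ∀ k, ∀ t ∈ S k, t ≤ T k) (hc : ∀ k, 2 ≤ (S k).card ∧ D * ρ ^ k + 1 ≤ (S k).card)
    (hU : ∀ k, ∀ i ∈ S k, ∀ j ∈ S k, i < j → Uni (Op (E (W k) i j))) :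
    ∃ c : ℝ, 0 < c ∧ ∃ n₀ : ℕ, ∀ n ≥ n₀,
    (∃ f : Fin n → ℝ → ℝ, (∀ i, Continuous (f i)) ∧
      (∀ i j, i ≠ j → ∃ x, Crosses (f i) (f j) x) ∧
      ∃ k < n, c * (n : ℝ) ^ e ≤ psiT f k) ∧
    ∀ s ≥ 1, c * (n : ℝ) ^ e ≤ Psi s n := by
  have size : ∀ K, 2 * (∑ y ∈ Ico (-(N K : ℤ)) (N K), ν K y) ≤ (2 * m + 1) * Q ^ K := by
    intro K
    have h1 := Nat.mul_le_mul_left 2 (hνs K)
    calc 2 * (∑ y ∈ Ico (-(N K : ℤ)) (N K), ν K y) ≤ 2 * (m * Q ^ K) := h1
      _ ≤ (2 * m + 1) * Q ^ K := by nlinarith [Nat.zero_le (Q ^ K)]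
  obtain ⟨c, hc', h1⟩ := growth_real (s := 1) (h := 2 * m + 1) (H := Q)
    hD hρ hQ (by positivity) he he0 (fun K => ⟨(S K).card - 1, by have := (hc K).1; omega, by
      have h2 := (hc K).2
      have h3 : (((S K).card - 1 : ℕ) : ℝ) = (S K).card - 1 := by
        rw [Nat.cast_sub (by have := (hc K).1; omega), Nat.cast_one]
      rw [h3]
      linarith, (kseq_rec_env h (hN K) (hR K) (hM K) (hν K) (S K) (hS K) (hU K)).mono le_rfl (size K)
        le_rfl⟩)
  exact ⟨c, hc', _, lines_exact h1⟩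

/-! ### the child word -/

/-- bounds of the convolved heights -/
def Env (g : List ℤ) (W : ℤ → ℤ) (T N s : ℕ) : Prop :=
  ∃ ν : ℤ → ℕ, (∀ t : ℕ, t ≤ T → ∀ y, |cv g (fun x => C W x t) y| ≤ ν y) ∧
    (∀ y, ν y ≠ 0 → -(N : ℤ) ≤ y ∧ y < N) ∧ ∑ y ∈ Ico (-(N : ℤ)) N, ν y ≤ s

/-- the whole range with the constant bound -/
theorem env_of {g : List ℤ} {W : ℤ → ℤ} {T N M : ℕ}
    (h1 : ∀ t : ℕ, t ≤ T → ∀ y, |cv g (fun x => C W x t) y| ≤ M)
    (h2 : ∀ t : ℕ, t ≤ T → ∀ y, cv g (fun x => C W x t) y ≠ 0 → -(N : ℤ) ≤ y ∧ y < N) :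
    Env g W T N (2 * N * M) := by
  refine ⟨fun y => if -(N : ℤ) ≤ y ∧ y < N then M else 0, fun t ht y => ?_, fun y hy => ?_, ?_⟩
  · show _ ≤ ((if _ then _ else _ : ℕ) : ℤ)
    split_ifs with h3
    · exact h1 t ht y
    · by_contra h4
      refine h3 (h2 t ht y fun h5 => h4 ?_)
      rw [h5, abs_zero]
      norm_num
  · by_contra h3
    exact hy (if_neg h3)
  · rw [sum_congr rfl fun x hx => if_pos (mem_Ico.1 hx), sum_const, smul_eq_mul, Int.card_Ico,
      show ((N : ℤ) - -(N : ℤ)).toNat = 2 * N by omega]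

/-- **bounds of the convolved heights of the child word** -/
theorem env_step {S : Tab} {K : Ker} {W : ℤ → ℤ} {ty : ℤ → ℕ} (H : KId S K) (h : ∀ t, ty t < S.T) {Q : ℕ}
    (hc : (S.ref K).okSum Q = true) {T N N' R' s A B w : ℕ} (hOp : RefOp (cv K.g) A B w)
    (hR : ∀ t : ℕ, t < S.L * T → -(R' : ℤ) ≤ S.subW W ty t - 1 ∧ S.subW W ty t < R') (hN : B * R' + w ≤ N')
    (hE : Env K.g W T N s) : Env K.g (S.subW W ty) (S.L * T) N' (Q * s + 2 * N' * (A * S.L)) := by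
  obtain ⟨ν, n1, n2, n3⟩ := hE
  have hb : 0 < (S.ref K).b := H.b0
  refine ⟨fun y => if -(N' : ℤ) ≤ y ∧ y < N' then (S.ref K).cmu ν y + A * S.L else 0, fun t ht y => ?_,
    fun y hy => ?_, ?_⟩
  · have h2 : |cv K.g (fun x => C (S.subW W ty) x t) y| ≤ (((S.ref K).cmu ν y + A * S.L : ℕ) : ℤ) := by
      have hL := H.L0
      obtain ⟨p, r, hr, e⟩ : ∃ p r : ℕ, r < S.L ∧ t = S.L * p + r :=
        ⟨t / S.L, t % S.L, Nat.mod_lt _ hL, (Nat.div_add_mod t S.L).symm⟩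
      have hp : p ≤ T := by
        rw [e] at ht
        have : S.L * p ≤ S.L * T := by omega
        exact Nat.le_of_mul_le_mul_left this hL
      have e1 : cv K.g (fun x => C (S.subW W ty) x t) y =
          cv K.g (fun x => C (S.subW W ty) x (S.L * (p : ℤ))) y +
            cv K.g (fun x => S.part (ty p) 0 r (x - S.b * W p)) y := by
        rw [← cv_add]
        refine cv_congr K.g (fun x => ?_) y
        rw [e, show (((S.L * p + r : ℕ)) : ℤ) = S.L * (p : ℤ) + r by push_cast; ring]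
        exact C_block W ty (p : ℤ) x r hr.le
      have e2 : cv K.g (fun x => C (S.subW W ty) x (S.L * (p : ℤ))) y =
          (S.ref K).comb (fun z => cv K.g (fun x => C W x p) z) y := by
        have h3 := H.cv_blocks (W := W) h 0 y p
        have h4 : E (S.subW W ty) (S.L * 0) (S.L * (0 + p)) = fun x => C (S.subW W ty) x (S.L * (p : ℤ)) := by
          funext x
          unfold E
          rw [mul_zero, zero_add, show C (S.subW W ty) x 0 = 0 from rfl, sub_zero]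
        have h5 : E W 0 (0 + p) = fun x => C W x p := by
          funext x
          unfold E
          rw [zero_add, show C W x 0 = 0 from rfl, sub_zero]
        rw [h4, h5] at h3
        exact h3
      have h6 := comb_mu (S := S.ref K) (n1 p hp) y
      have h7 := hOp.bd (fun x => S.part (ty p) 0 r (x - S.b * W p)) r (fun x => part_bd _ _ _) y
      have h8 : A * r ≤ A * S.L := Nat.mul_le_mul_left _ hr.le
      rw [e1, e2]
      have h9 := abs_add_le ((S.ref K).comb (fun z => cv K.g (fun x => C W x p) z) y)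
        (cv K.g (fun x => S.part (ty p) 0 r (x - S.b * W p)) y)
      have h10 : ((A * r : ℕ) : ℤ) ≤ ((A * S.L : ℕ) : ℤ) := by exact_mod_cast h8
      rw [Nat.cast_add]
      linarith
    show _ ≤ ((if _ then _ else _ : ℕ) : ℤ)
    split_ifs with h3
    · exact h2
    · by_contra h4
      have h5 := hOp.supp _ R' (C_supp hR t ht) y fun h5 => h4 (by
        rw [h5, abs_zero]
        norm_num)
      exact h3 (by omega)
  · by_contra h3
    exact hy (if_neg h3)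
  · rw [sum_congr rfl fun x hx => if_pos (mem_Ico.1 hx), sum_add_distrib, sum_const, smul_eq_mul,
      Int.card_Ico, show ((N' : ℤ) - -(N' : ℤ)).toNat = 2 * N' by omega]
    have h2 := sum_cmu hb hc n2 (Ico (-(N' : ℤ)) N')
    have h3 := Nat.mul_le_mul_left Q n3
    omega

/-! ### sequences -/

/-- one period -/
theorem seq_blk {q z : ℕ → ℕ} {u K : ℕ} (hq : ∀ k, 1 ≤ q k) {P : ℕ} (hz : ∀ r < P, z (K + r + 1) ≤ q (K + r) * z (K + r) + u)
    (r : ℕ) (hr : r ≤ P) : z (K + r) ≤ (∏ j ∈ range r, q (K + j)) * (z K + r * u) := by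
  induction r with
  | zero => simp
  | succ r ih =>
    have h1 := hz r (by omega)
    have h2 := Nat.mul_le_mul_left (q (K + r)) (ih (by omega))
    rw [prod_range_succ]
    obtain ⟨p, hp⟩ : ∃ p, p = ∏ j ∈ range r, q (K + j) := ⟨_, rfl⟩
    rw [← hp] at h2 ⊢
    have h3 : 1 ≤ p * q (K + r) := by
      have h4 : 1 ≤ p := by
        rw [hp]
        exact Nat.one_le_iff_ne_zero.2 (prod_ne_zero_iff.2 fun j _ => by have := hq (K + j); omega)
      exact Nat.one_le_iff_ne_zero.2 (Nat.mul_ne_zero (by omega) (by have := hq (K + r); omega))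
    have h5 : p * q (K + r) * (z K + (r + 1) * u) = q (K + r) * (p * (z K + r * u)) + p * q (K + r) * u := by
      ring
    have h6 : u ≤ p * q (K + r) * u := Nat.le_mul_of_pos_left u h3
    show z (K + r + 1) ≤ _
    omega

theorem prod_blk {q : ℕ → ℕ} {P : ℕ} (hq : ∀ k, 1 ≤ q k) (hp : Function.Periodic q P) (i r : ℕ) (hr : r ≤ P) :
    ∏ j ∈ range r, q (P * i + j) ≤ ∏ j ∈ range P, q j := by
  have e1 : ∀ j, q (P * i + j) = q j := fun j => by
    have h1 := hp.nat_mul i j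
    rw [add_comm, mul_comm]
    exact h1
  rw [prod_congr rfl fun j _ => e1 j]
  exact Nat.le_of_dvd (Nat.pos_of_ne_zero (prod_ne_zero_iff.2 fun j _ => by have := hq j; omega))
    (prod_dvd_prod_of_subset _ _ _ (range_subset_range.2 hr))

/-- growth of the range: `x (k + 1) ≤ b k * x k + w` -/
theorem seq_range {b x : ℕ → ℕ} {P w : ℕ} (hb : ∀ k, 1 ≤ b k) (hp : Function.Periodic b P)
    (h2 : 2 ≤ ∏ j ∈ range P, b j) (hx : ∀ k, x (k + 1) ≤ b k * x k + w) (i r : ℕ) (hr : r ≤ P) :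
    x (P * i + r) ≤ (∏ j ∈ range P, b j) * (x 0 + 3 * P * w) * (∏ j ∈ range P, b j) ^ i := by
  obtain ⟨β, hβ⟩ : ∃ β, β = ∏ j ∈ range P, b j := ⟨_, rfl⟩
  rw [← hβ] at h2 ⊢
  have step : ∀ i r, r ≤ P → x (P * i + r) ≤ β * (x (P * i) + P * w) := by
    intro i r hr
    have h3 := seq_blk (K := P * i) (P := P) hb (fun r _ => hx (P * i + r)) r hr
    have h4 := prod_blk hb hp i r hr
    rw [← hβ] at h4
    have h5 : r * w ≤ P * w := Nat.mul_le_mul_right _ hr
    exact h3.trans (Nat.mul_le_mul h4 (by omega))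
  have key : ∀ i, x (P * i) + 2 * P * w ≤ (x 0 + 2 * P * w) * β ^ i := by
    intro i
    induction i with
    | zero => simp
    | succ i ih =>
      have h3 := step i P le_rfl
      have h4 := Nat.mul_le_mul_left β ih
      rw [show P * (i + 1) = P * i + P by ring]
      have e1 : (x 0 + 2 * P * w) * β ^ (i + 1) = β * ((x 0 + 2 * P * w) * β ^ i) := by ring
      rw [e1]
      have e2 : 2 * (P * w) ≤ β * (P * w) := Nat.mul_le_mul_right _ h2
      have e3 : β * (x (P * i) + P * w) = β * x (P * i) + β * (P * w) := by ring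
      have e4 : β * (x (P * i) + 2 * P * w) = β * x (P * i) + (β * (P * w) + β * (P * w)) := by ring
      have e5 : 2 * P * w = 2 * (P * w) := by ring
      rw [e3] at h3
      rw [e4] at h4
      omega
  have h6 := step i r hr
  have h7 := key i
  have h8 : 1 ≤ β ^ i := Nat.one_le_pow _ _ (by omega)
  have h9 : P * w ≤ P * w * β ^ i := Nat.le_mul_of_pos_right _ h8
  have h10 : x (P * i) + P * w ≤ (x 0 + 3 * P * w) * β ^ i := by nlinarith
  calc x (P * i + r) ≤ β * (x (P * i) + P * w) := h6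
    _ ≤ β * ((x 0 + 3 * P * w) * β ^ i) := Nat.mul_le_mul_left _ h10
    _ = _ := by ring

/-- growth of the sums: `s (k + 1) ≤ Q k * s k + u (k + 1)`, `u ≤ v β ^ i` in the period `i` -/
theorem seq_sum {q s u : ℕ → ℕ} {P β v : ℕ} (hq : ∀ k, 1 ≤ q k) (hp : Function.Periodic q P)
    (h2 : β < ∏ j ∈ range P, q j) (hs : ∀ k, s (k + 1) ≤ q k * s k + u (k + 1))
    (hu : ∀ i r, r ≤ P → u (P * i + r) ≤ v * β ^ i) (i : ℕ) :
    s (P * i) ≤ (s 0 + (∏ j ∈ range P, q j) * (P * v)) * (∏ j ∈ range P, q j) ^ i := by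
  obtain ⟨H, hH⟩ : ∃ H, H = ∏ j ∈ range P, q j := ⟨_, rfl⟩
  rw [← hH] at h2 ⊢
  have step : ∀ i, s (P * i + P) ≤ H * (s (P * i) + P * (v * β ^ i)) := by
    intro i
    have h3 := seq_blk (z := s) (K := P * i) (P := P) (u := v * β ^ i) hq (fun r hr => by
      have h4 := hs (P * i + r)
      have h5 := hu i (r + 1) (by omega)
      have e1 : P * i + r + 1 = P * i + (r + 1) := by ring
      rw [← e1] at h5
      omega) P le_rfl
    have h4 := prod_blk hq hp i P le_rfl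
    rw [← hH] at h4
    exact h3.trans (Nat.mul_le_mul_right _ h4)
  have key : ∀ i, s (P * i) + H * (P * v) * β ^ i ≤ (s 0 + H * (P * v)) * H ^ i := by
    intro i
    induction i with
    | zero => simp
    | succ i ih =>
      have h3 := step i
      have h4 := Nat.mul_le_mul_left H ih
      rw [show P * (i + 1) = P * i + P by ring]
      have e1 : (s 0 + H * (P * v)) * H ^ (i + 1) = H * ((s 0 + H * (P * v)) * H ^ i) := by ring
      rw [e1]
      have e2 : H * (s (P * i) + P * (v * β ^ i)) = H * s (P * i) + H * (P * v) * β ^ i := by ring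
      have e3 : H * (s (P * i) + H * (P * v) * β ^ i) = H * s (P * i) + H * (P * v) * β ^ i * H := by ring
      have e4 : H * (P * v) * β ^ (i + 1) = H * (P * v) * β ^ i * β := by ring
      have e5 : H * (P * v) * β ^ i * (β + 1) ≤ H * (P * v) * β ^ i * H := Nat.mul_le_mul_left _ h2
      have e6 : H * (P * v) * β ^ i * (β + 1) = H * (P * v) * β ^ i * β + H * (P * v) * β ^ i := by ring
      rw [e2] at h3
      rw [e3] at h4
      rw [e4]
      omega
  exact (Nat.le_add_right _ _).trans (key i)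

/-! ### phases -/

section phases

variable {S : ℕ → Tab} {K : ℕ → Ker} {W0 : ℤ → ℤ} {ty0 : ℤ → ℕ}

theorem phb_ty (hL : ∀ k, 0 < (S k).L) (hch : ∀ k, ∀ c < (S k).T, ∀ r < (S k).L, (S k).chd c r < (S (k + 1)).T)
    (h : ∀ t, ty0 t < (S 0).T) : ∀ k t, (iterP S W0 ty0 k).2 t < (S k).T
  | 0, t => h t
  | k + 1, t => by
    obtain ⟨p, r, hr, rfl⟩ := exists_pr (hL k) t
    show (S k).subT (iterP S W0 ty0 k).2 ((S k).L * p + r) < _
    rw [subT_eq _ p hr]
    exact hch k _ (phb_ty hL hch h k p) r hr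

/-- the bound of the letters -/
def rgB (b : ℕ → ℕ) (w A0 : ℕ) : ℕ → ℕ
  | 0 => A0
  | k + 1 => b k * rgB b w A0 k + w

theorem phb_bd (hL : ∀ k, 0 < (S k).L) (hch : ∀ k, ∀ c < (S k).T, ∀ r < (S k).L, (S k).chd c r < (S (k + 1)).T)
    (h : ∀ t, ty0 t < (S 0).T) {w A0 : ℕ} (hw : ∀ k, (S k).okOff w = true) (h0 : ∀ t, |W0 t| ≤ A0) (k : ℕ) (t : ℤ) :
    |(iterP S W0 ty0 k).1 t| ≤ rgB (fun k => (S k).b) w A0 k := by
  induction k generalizing t with
  | zero => exact h0 t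
  | succ k ih =>
    obtain ⟨p, r, hr, rfl⟩ := exists_pr (hL k) t
    show |(S k).subW (iterP S W0 ty0 k).1 (iterP S W0 ty0 k).2 ((S k).L * p + r)| ≤ _
    rw [subW_eq _ _ p hr]
    have h2 := off_le (hw k) (phb_ty (W0 := W0) hL hch h k p) hr
    refine (abs_add_le _ _).trans ?_
    rw [rgB, abs_mul, abs_of_nonneg (Int.natCast_nonneg _)]
    push_cast
    exact add_le_add (mul_le_mul_of_nonneg_left (ih p) (Int.natCast_nonneg _)) h2

/-- the bound of the sums -/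
def smB (Q u : ℕ → ℕ) (s0 : ℕ) : ℕ → ℕ
  | 0 => s0
  | k + 1 => Q k * smB Q u s0 k + u (k + 1)

/-- **pseudolines from tables with phases and a kernel, scales `b ≥ 1`, exact exponent** -/
theorem lines_phase_env {P : ℕ} (hP : 0 < P) {g : List ℤ} (hS : Function.Periodic S P)
    (hg : ∀ k, (K k).g = g) (g0 : g.getD 0 0 ≠ 0) {Q : ℕ → ℕ} (hQp : Function.Periodic Q P)
    (H : ∀ k, KId (S k) (K k)) (hch : ∀ k, ∀ c < (S k).T, ∀ r < (S k).L, (S k).chd c r < (S (k + 1)).T)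
    (h : ∀ t, ty0 t < (S 0).T) {w A0 : ℕ} (hb2 : 2 ≤ ∏ p ∈ range P, (S p).b)
    (hbQ : ∏ p ∈ range P, (S p).b < ∏ p ∈ range P, Q p) (hc : ∀ k, ((S k).ref (K k)).okSum (Q k) = true)
    (hw : ∀ k, (S k).okOff w = true) (h0 : ∀ t, |W0 t| ≤ A0) (hL2 : 2 ≤ ∏ p ∈ range P, (S p).L)
    (hU : ∀ k, ∀ i j : ℕ, i < j → j < ∏ p ∈ range (P * k), (S p).L →
      Uni (cv g (E (iterP S W0 ty0 (P * k)).1 i j))) {e : ℝ}
    (he : ((∏ p ∈ range P, Q p : ℕ) : ℝ) ^ e = ((∏ p ∈ range P, (S p).L : ℕ) : ℝ)) (he0 : 0 ≤ e) :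
    ∃ c : ℝ, 0 < c ∧ ∃ n₀ : ℕ, ∀ n ≥ n₀,
    (∃ f : Fin n → ℝ → ℝ, (∀ i, Continuous (f i)) ∧
      (∀ i j, i ≠ j → ∃ x, Crosses (f i) (f j) x) ∧
      ∃ k < n, c * (n : ℝ) ^ e ≤ psiT f k) ∧
    ∀ s ≥ 1, c * (n : ℝ) ^ e ≤ Psi s n := by
  obtain ⟨A, B, u, hOp⟩ := refOp_cv g0
  have hSb : ∀ f : Tab → ℕ, Function.Periodic (fun k => f (S k)) P := fun f k => by
    show f (S (k + P)) = f (S k)
    rw [hS]
  have hL0 : ∀ k, 0 < (S k).L := fun k => (H k).L0
  have hb1 : ∀ k, 1 ≤ (S k).b := fun k => (H k).b0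
  obtain ⟨β, hβ⟩ : ∃ β, β = ∏ p ∈ range P, (S p).b := ⟨_, rfl⟩
  obtain ⟨G, hG⟩ : ∃ G, G = ∏ p ∈ range P, Q p := ⟨_, rfl⟩
  obtain ⟨ρ, hρ⟩ : ∃ ρ, ρ = ∏ p ∈ range P, (S p).L := ⟨_, rfl⟩
  have hQ1 : ∀ k, 1 ≤ Q k := by
    intro k
    have h1 : Q (k % P) = Q k := hQp.map_mod_nat k
    rw [← h1]
    have h2 : G ≠ 0 := by omega
    rw [hG, prod_ne_zero_iff] at h2
    exact Nat.one_le_iff_ne_zero.2 (h2 _ (mem_range.2 (Nat.mod_lt _ hP)))
  -- a common bound of the lengths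
  obtain ⟨M, hM⟩ : ∃ M, ∀ k, (S k).L ≤ M := by
    refine ⟨∑ p ∈ range P, (S p).L, fun k => ?_⟩
    have h1 : S (k % P) = S k := hS.map_mod_nat k
    rw [← h1]
    exact single_le_sum (f := fun p => (S p).L) (fun _ _ => Nat.zero_le _) (mem_range.2 (Nat.mod_lt _ hP))
  obtain ⟨x, hx⟩ : ∃ x : ℕ → ℕ, x = rgB (fun k => (S k).b) w A0 := ⟨_, rfl⟩
  have hbd : ∀ k t, |(iterP S W0 ty0 k).1 t| ≤ x k := fun k t => by
    rw [hx]
    exact phb_bd hL0 hch h hw h0 k t
  have hR : ∀ k (t : ℕ), -((x k + 1 : ℕ) : ℤ) ≤ (iterP S W0 ty0 k).1 t - 1 ∧ (iterP S W0 ty0 k).1 t < (x k + 1 : ℕ) := by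
    intro k t
    have h3 := hbd k t
    have h4 := neg_abs_le ((iterP S W0 ty0 k).1 (t : ℤ))
    have h5 := le_abs_self ((iterP S W0 ty0 k).1 (t : ℤ))
    constructor <;> omega
  obtain ⟨N, hN⟩ : ∃ N : ℕ → ℕ, N = fun k => B * (x k + 1) + u := ⟨_, rfl⟩
  obtain ⟨s, hs⟩ : ∃ s : ℕ → ℕ, s = smB Q (fun k => 2 * N k * (A * M)) (2 * N 0 * A) := ⟨_, rfl⟩
  -- the envelopes
  have env : ∀ k, Env g (iterP S W0 ty0 k).1 (∏ j ∈ range k, (S j).L) (N k) (s k) := by
    intro k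
    induction k with
    | zero =>
      rw [range_zero, prod_empty]
      have e1 : s 0 = 2 * N 0 * A := by rw [hs]; rfl
      rw [e1]
      refine env_of (fun t ht y => ?_) fun t ht y hy => ?_
      · have h2 := hOp.bd (fun x => C (iterP S W0 ty0 0).1 x t) 1 (fun x => by
          have : t = 0 ∨ t = 1 := by omega
          rcases this with rfl | rfl
          · rw [show C (iterP S W0 ty0 0).1 x ((0 : ℕ) : ℤ) = 0 from rfl, abs_zero]
            norm_num
          · have h2 := C_succ (iterP S W0 ty0 0).1 x 0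
            rw [show (0 : ℤ) + 1 = ((1 : ℕ) : ℤ) by norm_num,
              show C (iterP S W0 ty0 0).1 x 0 = 0 from rfl, zero_add] at h2
            rw [h2]
            exact abs_dl_le _ x) y
        rwa [mul_one] at h2
      · have h3 := hOp.supp _ (x 0 + 1) (C_supp (T := 1) (fun t _ => hR 0 t) t ht) y hy
        rw [hN]
        exact h3
    | succ k ih =>
      have hOp' : RefOp (cv (K k).g) A B u := by rw [hg]; exact hOp
      have h2 := env_step (S := S k) (K := K k) (N' := N (k + 1)) (R' := x (k + 1) + 1) (H k)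
        (phb_ty (W0 := W0) hL0 hch h k) (hc k) hOp' (fun t _ => hR (k + 1) t)
        (by rw [hN]) (by rw [hg]; exact ih)
      rw [hg] at h2
      rw [prod_range_succ, mul_comm]
      obtain ⟨ν, n1, n2, n3⟩ := h2
      refine ⟨ν, n1, n2, n3.trans ?_⟩
      have e1 : s (k + 1) = Q k * s k + 2 * N (k + 1) * (A * M) := by rw [hs]; rfl
      rw [e1]
      have h3 : A * (S k).L ≤ A * M := Nat.mul_le_mul_left _ (hM k)
      have h4 := Nat.mul_le_mul_left (2 * N (k + 1)) h3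
      omega
  -- the growth of the bounds
  have hxg : ∀ i r, r ≤ P → x (P * i + r) ≤ β * (x 0 + 3 * P * w) * β ^ i := fun i r hr => by
    rw [hβ]
    exact seq_range hb1 (hSb fun T => T.b) hb2 (fun k => by rw [hx]; exact le_rfl) i r hr
  have hβ0 : ∀ i, 1 ≤ β ^ i := fun i => Nat.one_le_pow _ _ (by omega)
  have hug : ∀ i r, r ≤ P → 2 * N (P * i + r) * (A * M) ≤
      2 * (B * (β * (x 0 + 3 * P * w) + 1) + u) * (A * M) * β ^ i := by
    intro i r hr
    have h2 := hxg i r hr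
    have h3 := hβ0 i
    have h4 : N (P * i + r) ≤ (B * (β * (x 0 + 3 * P * w) + 1) + u) * β ^ i := by
      rw [hN]
      show B * (x (P * i + r) + 1) + u ≤ _
      have h5 : x (P * i + r) + 1 ≤ (β * (x 0 + 3 * P * w) + 1) * β ^ i := by
        rw [Nat.add_mul, one_mul]
        omega
      have h6 := Nat.mul_le_mul_left B h5
      have h7 : u ≤ u * β ^ i := Nat.le_mul_of_pos_right _ h3
      calc B * (x (P * i + r) + 1) + u ≤ B * ((β * (x 0 + 3 * P * w) + 1) * β ^ i) + u * β ^ i := by omega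
        _ = _ := by ring
    calc 2 * N (P * i + r) * (A * M) = 2 * (A * M) * N (P * i + r) := by ring
      _ ≤ 2 * (A * M) * ((B * (β * (x 0 + 3 * P * w) + 1) + u) * β ^ i) := Nat.mul_le_mul_left _ h4
      _ = _ := by ring
  have hsg : ∀ i, s (P * i) ≤ (s 0 + G * (P * (2 * (B * (β * (x 0 + 3 * P * w) + 1) + u) * (A * M)))) * G ^ i := by
    intro i
    rw [hG]
    refine seq_sum (u := fun k => 2 * N k * (A * M)) (β := β) hQ1 hQp (by rw [hβ]; exact hbQ) (fun k => ?_) hug i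
    rw [hs]
    exact le_rfl
  choose ν n1 n2 n3 using env
  have hρr : (0 : ℝ) < ρ := by
    have : 0 < ρ := by omega
    exact_mod_cast this
  refine rec_exact_env hOp (fun k => (iterP S W0 ty0 (P * (k + 1))).1)
    (fun k => ∏ j ∈ range (P * (k + 1)), (S j).L) (Q := G)
    (m := (s 0 + G * (P * (2 * (B * (β * (x 0 + 3 * P * w) + 1) + u) * (A * M)))) * G) (ρ := (ρ : ℝ))
    (D := (ρ : ℝ) / 2) (by omega) (by positivity) hρr (by rw [hG, hρ]; exact he) he0
    (fun k => x (P * (k + 1)) + 1) (fun k => N (P * (k + 1))) (fun k => by rw [hN]) (fun k t _ => hR _ t)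
    (fun k => ν (P * (k + 1))) (fun k => n1 (P * (k + 1))) (fun k => n2 (P * (k + 1))) (fun k => ?_)
    (fun k => range (∏ j ∈ range (P * (k + 1)), (S j).L)) (fun k t ht => (mem_range.1 ht).le) (fun k => ?_)
    (fun k i _ j hj hij => hU (k + 1) i j hij (mem_range.1 hj))
  · refine (n3 _).trans ((hsg (k + 1)).trans (le_of_eq ?_))
    ring
  · rw [card_range, prod_period (hSb fun T => T.L) (k + 1), ← hρ]
    have h3 : 2 ≤ ρ ^ (k + 1) := by
      calc 2 ≤ ρ := by omega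
        _ = ρ ^ 1 := (pow_one _).symm
        _ ≤ ρ ^ (k + 1) := Nat.pow_le_pow_right (by omega) (by omega)
    refine ⟨h3, ?_⟩
    have h4 : (2 : ℝ) ≤ (ρ : ℝ) ^ (k + 1) := by exact_mod_cast h3
    push_cast
    rw [pow_succ] at h4 ⊢
    linarith

/-- **pseudolines from tables with phases and a kernel, scales `b ≥ 1`, a rational exponent** -/
theorem lines_phase_env_rat {P : ℕ} (hP : 0 < P) {g : List ℤ} (hS : Function.Periodic S P)
    (hg : ∀ k, (K k).g = g) (g0 : g.getD 0 0 ≠ 0) {Q : ℕ → ℕ} (hQp : Function.Periodic Q P)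
    (H : ∀ k, KId (S k) (K k)) (hch : ∀ k, ∀ c < (S k).T, ∀ r < (S k).L, (S k).chd c r < (S (k + 1)).T)
    (h : ∀ t, ty0 t < (S 0).T) {w A0 : ℕ} (hb2 : 2 ≤ ∏ p ∈ range P, (S p).b)
    (hbQ : ∏ p ∈ range P, (S p).b < ∏ p ∈ range P, Q p) (hc : ∀ k, ((S k).ref (K k)).okSum (Q k) = true)
    (hw : ∀ k, (S k).okOff w = true) (h0 : ∀ t, |W0 t| ≤ A0)
    (hU : ∀ k, ∀ i j : ℕ, i < j → j < ∏ p ∈ range (P * k), (S p).L →
      Uni (cv g (E (iterP S W0 ty0 (P * k)).1 i j))) {x y : ℕ} (hy : 0 < y)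
    (he : (∏ p ∈ range P, Q p) ^ x < (∏ p ∈ range P, (S p).L) ^ y) :
    ∃ n₀ : ℕ, ∀ n ≥ n₀,
    (∃ f : Fin n → ℝ → ℝ, (∀ i, Continuous (f i)) ∧
      (∀ i j, i ≠ j → ∃ x, Crosses (f i) (f j) x) ∧
      ∃ k < n, (n : ℝ) ^ ((x : ℝ) / y) ≤ psiT f k) ∧
    ∀ s ≥ 1, (n : ℝ) ^ ((x : ℝ) / y) ≤ Psi s n := by
  have hL2 : 2 ≤ ∏ p ∈ range P, (S p).L := by
    obtain ⟨ρ, hρ⟩ : ∃ ρ, ρ = ∏ p ∈ range P, (S p).L := ⟨_, rfl⟩
    rw [← hρ] at he ⊢
    have h1 : 1 ≤ (∏ p ∈ range P, Q p) ^ x := Nat.one_le_pow _ _ (by omega)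
    rcases Nat.lt_or_ge ρ 2 with h2 | h2
    · have h3 : ρ ^ y ≤ 1 := by
        calc ρ ^ y ≤ 1 ^ y := Nat.pow_le_pow_left (by omega) y
          _ = 1 := one_pow y
      omega
    · exact h2
  obtain ⟨e, e1, e2, e3⟩ := exp_lt (by omega) hy he
  exact lines_lt e2 (lines_phase_env hP hS hg g0 hQp H hch h hb2 hbQ hc hw h0 hL2 hU e1 e3)

end phases

/-! ### no kernel -/

theorem cv_one (f : ℤ → ℤ) (y : ℤ) : cv [1] f y = f y := by
  unfold cv
  simp

/-- a table without kernel -/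
theorem kid_one {S : Tab} (hb : 0 < S.b) (hL : 0 < S.L)
    (hid : ∀ c < S.T, ∀ y, S.part c 0 S.L y = S.comb (dl 0) y) : KId S ⟨[1], S.e0, S.e⟩ := by
  refine ⟨hb, hL, fun c hc y => ?_⟩
  show cv [1] (S.part c 0 S.L) y = (S.ref ⟨[1], S.e0, S.e⟩).comb (cv [1] (dl 0)) y
  rw [cv_one, hid c hc, show cv [1] (dl 0) = dl 0 from funext fun y => cv_one _ y]
  rfl

end LWG
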