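import Pool.Agent.LWG.KCloseI
import Pool.Agent.LWG.KFarE
import Pool.Agent.LWG.KNearE
import Pool.Agent.LWG.KBlkE
import Pool.Agent.LWG.KMain
import Pool.Agent.LWG.OkP
import Pool.Agent.LWG.PhaseB

/-!
# Labelled tables in turn, with a kernel: tables which pass all checks

Nothing is known about the neighbours of a letter (`S.m = 0`), and all windows are inside the tree
of one letter. The table `S p` refines the words of phase `p`; `S (p + 1)` follows.

* `StepI`: the invariant is preserved by one table;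
* `KChkI`: all checks for one table, **`KChkI.step`**;
* **`lines_stepI`**, **`lines_stepI_rat`**: pseudolines from a cyclic list of tables.
-/

set_option autoImplicit false

open Finset LevelLower LevelPseudo LevelWords

namespace LWG

/-- The hypotheses of `kgood_subI` for one table `S`, child types of `S'`. -/
structure StepI (S S' : Tab) (K : Ker) (pats pats' : ℕ → ℕ → List PatE) : Prop where
  L0 : 0 < S.L
  m0 : S.m = 0
  chd : ∀ c < S.T, ∀ r < S.L, S.chd c r < S'.T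
  kid : KId S K
  hB : ∀ c < S.T, ∀ i j, i < j → j < S.L →
    NoKEE K.g pats' (S.chd c i) (S.chd c j) (S.off c i) (S.off c j)
      (fun y => S.kpre K c (j + 1) y - S.kpre K c i y)
      (fun y => S.kpre K c j y - S.kpre K c (i + 1) y)
  hN : ∀ c < S.T, ∀ c' < S.T, ∀ d D, KLocE S K.g pats c c' d D → ∀ i < S.L, ∀ j < S.L,
    NoKEE K.g pats' (S.chd c i) (S.chd c' j) (S.off c i) (S.b * d + S.off c' j)
      (S.kFn K c i c' (j + 1) d D) (S.kFn K c (i + 1) c' j d D)

/-- All checks for one table. `n + 1` bounds the near distances, `ns` the splittings. -/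
structure KChkI (S S' : Tab) (K : Ker) (pats pats' : ℕ → ℕ → List PatE) (N : ℕ) (lo hi : ℤ)
    (mp : ℕ) (T : Dat) (M : DatM) (len : ℕ) (NA NB : ℕ → List (List ℤ)) (PA PB : ℕ → List Ltr)
    (gN gP : List ℤ) (n ns : ℕ) (Y Z Z' lo' hi' : ℤ) : Prop where
  L0 : 0 < S.L
  b0 : 0 < S.b
  m0 : S.m = 0
  chd : ∀ c < S.T, ∀ r < S.L, S.chd c r < S'.T
  kokG : S.kokG K N = true
  kokC : ∀ c < S.T, S.kokC K N c = true
  bl : ∀ c < S.T, S.chkBlE pats' T.n0 NB c = true
  okR : ∀ c < S.T, S.okR lo hi c = true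
  small : ∀ c < S'.T, ∀ c' < S'.T, smallPE pats' (S.b * (n + 2) - (hi - lo)) c c' = true
  sgn : okSgn K.g gN gP = true
  dat : KDatOK S K mp T
  datM : KDatMOK S K T (fun _ _ => []) NA NB M
  nz : ∀ c < S.T, S.kokNz K.g T.n0 len NA NB c = true
  par : ∀ c < S.T, S.kokPar NA NB PA PB c = true
  cP : ∀ f < S'.T, ∀ f' < S'.T, kpatChkE T pats pats' PA PB ns ((n : ℤ) + 1) f f' = true
  cE : ∀ c < S.T, ∀ c' < S.T,
    kevChkE T pats M gN gP (S.kltrA NA) (S.kltrB NB) (n + 1) c c' = true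
  num : (farD T M NA NB gN gP n Y Z Z' lo' hi').num S = true
  rng : ∀ c < S.T, ∀ i < S.L, (farD T M NA NB gN gP n Y Z Z' lo' hi').rng S c i = true
  zer : ∀ c < S.T, (farD T M NA NB gN gP n Y Z Z' lo' hi').zer c = true
  far : ∀ c < S.T, ∀ i < S.L, (farD T M NA NB gN gP n Y Z Z' lo' hi').chkE c (S.off c i)
    ((NA c).getD i []) ((NB c).getD (i + 1) []) = true

section

variable {S S' : Tab} {K : Ker} {pats pats' : ℕ → ℕ → List PatE} {N : ℕ} {lo hi : ℤ} {mp : ℕ}
  {T : Dat} {M : DatM} {len : ℕ} {NA NB : ℕ → List (List ℤ)} {PA PB : ℕ → List Ltr}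
  {gN gP : List ℤ} {n ns : ℕ} {Y Z Z' lo' hi' : ℤ}

theorem KChkI.farOK (h : KChkI S S' K pats pats' N lo hi mp T M len NA NB PA PB gN gP n ns
    Y Z Z' lo' hi') : FarOKE S K (farD T M NA NB gN gP n Y Z Z' lo' hi') where
  tie := h.dat.tie
  tie' := h.datM.tie
  sol := h.dat.sol
  sol' := h.datM.sol
  sgn := sgn_of h.sgn
  num := h.num
  rng := h.rng
  zer := h.zer
  len c hc v hv := length_klvec (h.dat.lv c hc v hv)
  len' c hc v hv := length_krvec (h.dat.rv c hc v hv)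
  lv := h.datM.lv
  rv := h.datM.rv
  na c hc i hi := ⟨h.datM.na c hc i hi.le, fun y => (knzOK_of h.nz).a c hc i hi.le y⟩
  nb c hc j hj := by
    refine ⟨?_, fun y => ?_⟩
    · change ((NB c).tail.getD j []).length = M.N
      rw [getD_tailL]
      exact h.datM.nb c hc (j + 1) hj
    · change LWG.nz T.n0 ((NB c).tail.getD j []) y = _
      rw [getD_tailL]
      exact (knzOK_of h.nz).b c hc (j + 1) hj y
  chk c hc i hi := by
    change (farD T M NA NB gN gP n Y Z Z' lo' hi').chkE c (S.off c i) ((NA c).getD i [])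
      ((NB c).tail.getD i []) = true
    rw [getD_tailL]
    exact h.far c hc i hi

/-- **one table** -/
theorem KChkI.step (h : KChkI S S' K pats pats' N lo hi mp T M len NA NB PA PB gN gP n ns
    Y Z Z' lo' hi') : StepI S S' K pats pats' where
  L0 := h.L0
  m0 := h.m0
  chd := h.chd
  kid := kid_of h.b0 h.L0 h.kokG h.kokC
  hB := hB_ofE (NA := NA) (knzOK_of h.nz) h.bl
  hN := by
    have hcP := kpatChkE_sound h.cP
    have hcE := kevChkE_sound (kltrOK_of S NA NB) h.cE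
    refine khN_ofEE h.chd h.farOK h.okR h.small
      (fun c hc c' hc' d D hL => (h.dat.locE hc hc' hL).base) fun c hc c' hc' d hd1 hd2 D hL i hi
        j hj => ?_
    refine noKE_nearE (DM := (n : ℤ) + 1) h.dat (knzOK_of h.nz) (kparOK_of h.par) h.datM
      (sgn_of h.sgn) hcP (fun c hc c' hc' d h1 h2 i hi j hj => ?_) h.chd hc hc' hd1 hd2 hL hi hj
    exact hcE c hc c' hc' d (by push_cast; omega) (by push_cast; omega) i hi j hj

end

/-! ## The lines -/

theorem lenP_eq (S : ℕ → Tab) : ∀ k, lenP S 1 k = ((∏ p ∈ range k, (S p).L : ℕ) : ℤ)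
  | 0 => by simp [lenP]
  | k + 1 => by
    rw [lenP, lenP_eq S k, prod_range_succ]
    push_cast
    ring

section lines

variable {P : ℕ} {S : ℕ → Tab} {K : ℕ → Ker} {pats : ℕ → ℕ → ℕ → List PatE} {g : List ℤ}

theorem stepI_mod (hP : 0 < P) (h : ∀ p < P, StepI (S p) (S ((p + 1) % P)) (K p) (pats p)
    (pats ((p + 1) % P))) (k : ℕ) :
    StepI (S (k % P)) (S ((k + 1) % P)) (K (k % P)) (pats (k % P)) (pats ((k + 1) % P)) := by
  have h1 := h (k % P) (Nat.mod_lt k hP)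
  rwa [Nat.mod_add_mod] at h1

theorem period_mod {α : Type} (f : ℕ → α) (P : ℕ) : Function.Periodic (fun k => f (k % P)) P :=
  fun k => by simp only [Nat.add_mod_right]

theorem prod_mod (f : ℕ → ℕ) (P : ℕ) : ∏ p ∈ range P, f (p % P) = ∏ p ∈ range P, f p :=
  prod_congr rfl fun p hp => by rw [Nat.mod_eq_of_lt (mem_range.1 hp)]

/-- **all iterates of a letter** -/
theorem kgood_allI (hP : 0 < P) (hg : ∀ p < P, (K p).g = g) (hk : okKer g = true)
    (h : ∀ p < P, StepI (S p) (S ((p + 1) % P)) (K p) (pats p) (pats ((p + 1) % P))) {c : ℕ}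
    (hc : c < (S 0).T) (k : ℕ) :
    KGoodI (S (k % P)) g (pats (k % P)) (lenP (fun k => S (k % P)) 1 k)
      (iterP (fun k => S (k % P)) (fun _ => 0) (fun _ => c) k).1
      (iterP (fun k => S (k % P)) (fun _ => 0) (fun _ => c) k).2 := by
  refine kgood_iterI (S := fun k => S (k % P)) (pats := fun k => pats (k % P))
    (fun k N W ty hG => ?_) ?_ k
  · have h1 := stepI_mod hP h k
    have h2 := hg (k % P) (Nat.mod_lt k hP)
    have h3 := kgood_subI h1.L0 h1.m0 h1.chd h1.kid (by rw [h2]; exact oker_of hk) h1.hB h1.hN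
      (N := N) (W := W) (ty := ty) (by rw [h2]; exact hG)
    rw [h2] at h3
    exact h3
  · simp only [Nat.zero_mod]
    exact kgood_one (oker_of hk) _ hc

/-- **pseudolines from a cyclic list of tables, exact exponent** -/
theorem lines_stepI (hP : 0 < P) (hg : ∀ p < P, (K p).g = g) (hk : okKer g = true)
    (g0 : g.getD 0 0 ≠ 0)
    (h : ∀ p < P, StepI (S p) (S ((p + 1) % P)) (K p) (pats p) (pats ((p + 1) % P))) {c : ℕ}
    (hc : c < (S 0).T) {Q : ℕ → ℕ} {w : ℕ} (hb2 : 2 ≤ ∏ p ∈ range P, (S p).b)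
    (hbQ : ∏ p ∈ range P, (S p).b < ∏ p ∈ range P, Q p)
    (hQ : ∀ p < P, ((S p).ref (K p)).okSum (Q p) = true) (hw : ∀ p < P, (S p).okOff w = true)
    (hL2 : 2 ≤ ∏ p ∈ range P, (S p).L) {e : ℝ}
    (he : ((∏ p ∈ range P, Q p : ℕ) : ℝ) ^ e = ((∏ p ∈ range P, (S p).L : ℕ) : ℝ)) (he0 : 0 ≤ e) :
    ∃ c : ℝ, 0 < c ∧ ∃ n₀ : ℕ, ∀ n ≥ n₀,
    (∃ f : Fin n → ℝ → ℝ, (∀ i, Continuous (f i)) ∧
      (∀ i j, i ≠ j → ∃ x, Crosses (f i) (f j) x) ∧
      ∃ k < n, c * (n : ℝ) ^ e ≤ psiT f k) ∧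
    ∀ s ≥ 1, c * (n : ℝ) ^ e ≤ Psi s n := by
  have hm : ∀ k, k % P < P := fun k => Nat.mod_lt k hP
  refine lines_phase_env (S := fun k => S (k % P)) (K := fun k => K (k % P)) hP
    (period_mod S P) (fun k => hg _ (hm k)) g0 (period_mod Q P)
    (fun k => (stepI_mod hP h k).kid) (fun k => (stepI_mod hP h k).chd) (W0 := fun _ => 0)
    (ty0 := fun _ => c) (fun _ => by simpa only [Nat.zero_mod] using hc) (w := w) (A0 := 0) ?_ ?_
    (fun k => hQ _ (hm k)) (fun k => hw _ (hm k)) (fun _ => by simp) ?_ (fun k i j hij hj => ?_)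
    ?_ he0
  · rw [prod_mod (fun p => (S p).b) P]
    exact hb2
  · rw [prod_mod (fun p => (S p).b) P, prod_mod Q P]
    exact hbQ
  · rw [prod_mod (fun p => (S p).L) P]
    exact hL2
  · refine (kgood_allI hP hg hk h hc (P * k)).uni i j (by omega) (by omega) ?_
    rw [lenP_eq]
    exact_mod_cast hj.le
  · rw [prod_mod (fun p => (S p).L) P, prod_mod Q P]
    exact he

/-- **pseudolines from a cyclic list of tables, rational exponent** -/
theorem lines_stepI_rat (hP : 0 < P) (hg : ∀ p < P, (K p).g = g) (hk : okKer g = true)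
    (g0 : g.getD 0 0 ≠ 0)
    (h : ∀ p < P, StepI (S p) (S ((p + 1) % P)) (K p) (pats p) (pats ((p + 1) % P))) {c : ℕ}
    (hc : c < (S 0).T) {Q : ℕ → ℕ} {w : ℕ} (hb2 : 2 ≤ ∏ p ∈ range P, (S p).b)
    (hbQ : ∏ p ∈ range P, (S p).b < ∏ p ∈ range P, Q p)
    (hQ : ∀ p < P, ((S p).ref (K p)).okSum (Q p) = true) (hw : ∀ p < P, (S p).okOff w = true)
    {x y : ℕ} (hy : 0 < y)
    (he : (∏ p ∈ range P, Q p) ^ x < (∏ p ∈ range P, (S p).L) ^ y) :
    ∃ n₀ : ℕ, ∀ n ≥ n₀,
    (∃ f : Fin n → ℝ → ℝ, (∀ i, Continuous (f i)) ∧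
      (∀ i j, i ≠ j → ∃ x, Crosses (f i) (f j) x) ∧
      ∃ k < n, (n : ℝ) ^ ((x : ℝ) / y) ≤ psiT f k) ∧
    ∀ s ≥ 1, (n : ℝ) ^ ((x : ℝ) / y) ≤ Psi s n := by
  have hm : ∀ k, k % P < P := fun k => Nat.mod_lt k hP
  refine lines_phase_env_rat (S := fun k => S (k % P)) (K := fun k => K (k % P)) hP
    (period_mod S P) (fun k => hg _ (hm k)) g0 (period_mod Q P)
    (fun k => (stepI_mod hP h k).kid) (fun k => (stepI_mod hP h k).chd) (W0 := fun _ => 0)
    (ty0 := fun _ => c) (fun _ => by simpa only [Nat.zero_mod] using hc) (w := w) (A0 := 0) ?_ ?_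
    (fun k => hQ _ (hm k)) (fun k => hw _ (hm k)) (fun _ => by simp) (fun k i j hij hj => ?_)
    hy ?_
  · rw [prod_mod (fun p => (S p).b) P]
    exact hb2
  · rw [prod_mod (fun p => (S p).b) P, prod_mod Q P]
    exact hbQ
  · refine (kgood_allI hP hg hk h hc (P * k)).uni i j (by omega) (by omega) ?_
    rw [lenP_eq]
    exact_mod_cast hj.le
  · rw [prod_mod (fun p => (S p).L) P, prod_mod Q P]
    exact he

end lines

end LWG
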