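import Pool.Agent.LWG.KeyX
import Pool.Agent.LWG.KMainI
import Pool.Agent.LWG.Chunk

/-!
# Tables with keyed cells

`KChkJ`: all checks for one table, as `KChkI`, with keyed cells; **`KChkJ.step`**.
-/

set_option autoImplicit false

open LevelWords

namespace LWG

/-- Data for the keyed cells: trees, open letters, patterns; closed letters, violations. -/
structure KDat where
  q : KQ
  tu : KT
  tr : KT
  KA : ℕ → List LN
  KB : ℕ → List (List LN)
  kp : ℕ → ℕ → List PK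
  CA : List LN
  CB : List (List LN)
  kx : List PK
  m : ℕ

/-- All checks for one table. `n + 1` bounds the near distances, `ns` the splittings. -/
structure KChkJ (S S' : Tab) (K : Ker) (pats pats' : ℕ → ℕ → List PatE) (N : ℕ) (lo hi : ℤ)
    (mp : ℕ) (T : Dat) (M : DatM) (len : ℕ) (NA NB : ℕ → List (List ℤ)) (Q : KDat)
    (gN gP : List ℤ) (n ns : ℕ) (Y Z Z' lo' hi' : ℤ) : Prop where
  L0 : 0 < S.L
  b0 : 0 < S.b
  m0 : S.m = 0
  chd : ∀ c < S.T, ∀ r < S.L, S.chd c r < S'.T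
  kokG : S.kokG K N = true
  kokC : ∀ c < S.T, S.kokC K N c = true
  bl : ∀ c < S.T, S.chkBlE pats' T.n0 NB c = true
  okR : ∀ c < S.T, S.okR lo hi c = true
  small : ∀ c < S'.T, ∀ c' < S'.T, smallPE pats' (S.b * (n + 2) - (hi - lo)) c c' = true
  sgn : okSgn K.g gN gP = true
  dat : KDatOK S K mp T
  datM : KDatMOK S K T (fun _ _ => []) NA NB M
  nz : ∀ c < S.T, S.kokNz K.g T.n0 len NA NB c = true
  okD : Q.q.okD (n + 1) = true
  qb : Q.q.b = S.b
  tu : Q.tu.okU Q.q T ns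
  tr : Q.tr.ok Q.q T pats ns
  KA : ∀ c < S.T, okKA S Q.q T.n0 NA Q.KA c = true
  KB : ∀ c < S.T, okKB S Q.q T.n0 NB Q.KB c = true
  kp : ∀ f < S'.T, ∀ f' < S'.T, okPKs Q.q (pats' f f') (Q.kp f f') = true
  cP : ∀ f < S'.T, ∀ f' < S'.T, patK Q.q Q.tu Q.tr (n + 1) (Q.kp f f') (Q.KA f) (Q.KB f') = true
  CA : ∀ c < S.T, okCA S Q.q T.n0 NA Q.CA c = true
  CB : ∀ c < S.T, okCB S Q.q T.n0 NB Q.CB c = true
  kx : okPKs Q.q (vps gN gP Q.m (lo - hi - S.b * ((n + 1 : ℕ) : ℤ))) Q.kx = true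
  m : 2 * (S.b * ((n + 1 : ℕ) : ℤ) + hi - lo) < Q.m
  cX : patK Q.q Q.tu Q.tr (n + 1) Q.kx Q.CA Q.CB = true
  cS : ∀ c < S.T, ∀ c' < S.T, kevSA T pats M gN gP (S.kltrB NB) (n + 1) c' (S.kltrA NA c) = true
  num : (farD T M NA NB gN gP n Y Z Z' lo' hi').num S = true
  rng : ∀ c < S.T, ∀ i < S.L, (farD T M NA NB gN gP n Y Z Z' lo' hi').rng S c i = true
  zer : ∀ c < S.T, (farD T M NA NB gN gP n Y Z Z' lo' hi').zer c = true
  far : ∀ c < S.T, ∀ i < S.L, (farD T M NA NB gN gP n Y Z Z' lo' hi').chkE c (S.off c i)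
    ((NA c).getD i []) ((NB c).getD (i + 1) []) = true

section

variable {S S' : Tab} {K : Ker} {pats pats' : ℕ → ℕ → List PatE} {N : ℕ} {lo hi : ℤ} {mp : ℕ}
  {T : Dat} {M : DatM} {len : ℕ} {NA NB : ℕ → List (List ℤ)} {Q : KDat}
  {gN gP : List ℤ} {n ns : ℕ} {Y Z Z' lo' hi' : ℤ}

theorem KChkJ.farOK (h : KChkJ S S' K pats pats' N lo hi mp T M len NA NB Q gN gP n ns
    Y Z Z' lo' hi') : FarOKE S K (farD T M NA NB gN gP n Y Z Z' lo' hi') where
  tie := h.dat.tie
  tie' := h.datM.tie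
  sol := h.dat.sol
  sol' := h.datM.sol
  sgn := sgn_of h.sgn
  num := h.num
  rng := h.rng
  zer := h.zer
  len c hc v hv := length_klvec (h.dat.lv c hc v hv)
  len' c hc v hv := length_krvec (h.dat.rv c hc v hv)
  lv := h.datM.lv
  rv := h.datM.rv
  na c hc i hi := ⟨h.datM.na c hc i hi.le, fun y => (knzOK_of h.nz).a c hc i hi.le y⟩
  nb c hc j hj := by
    refine ⟨?_, fun y => ?_⟩
    · change ((NB c).tail.getD j []).length = M.N
      rw [getD_tailL]
      exact h.datM.nb c hc (j + 1) hj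
    · change LWG.nz T.n0 ((NB c).tail.getD j []) y = _
      rw [getD_tailL]
      exact (knzOK_of h.nz).b c hc (j + 1) hj y
  chk c hc i hi := by
    change (farD T M NA NB gN gP n Y Z Z' lo' hi').chkE c (S.off c i) ((NA c).getD i [])
      ((NB c).tail.getD i []) = true
    rw [getD_tailL]
    exact h.far c hc i hi

/-- **one table** -/
theorem KChkJ.step (h : KChkJ S S' K pats pats' N lo hi mp T M len NA NB Q gN gP n ns
    Y Z Z' lo' hi') : StepI S S' K pats pats' where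
  L0 := h.L0
  m0 := h.m0
  chd := h.chd
  kid := kid_of h.b0 h.L0 h.kokG h.kokC
  hB := hB_ofE (NA := NA) (knzOK_of h.nz) h.bl
  hN := by
    refine khN_ofEE h.chd h.farOK h.okR h.small
      (fun c hc c' hc' d D hL => (h.dat.locE hc hc' hL).base) fun c hc c' hc' d hd1 hd2 D hL i hi
        j hj => ?_
    have hd1 : -(((n + 1 : ℕ) : ℤ)) ≤ d := by
      push_cast
      exact hd1
    have hd2 : d ≤ ((n + 1 : ℕ) : ℤ) := by
      push_cast
      exact hd2
    refine ⟨?_, fun P hP1 hP2 => ?_⟩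
    · exact kev_key h.dat (knzOK_of h.nz) h.okD h.qb h.tu h.tr h.CA h.CB h.kx h.m h.okR h.cX h.datM
        (sgn_of h.sgn) (kltrOK_of S NA NB) h.cS hc hc' hL hd1 hd2 hi hj
    · exact kpat_key h.dat (knzOK_of h.nz) h.okD h.qb h.tu h.tr h.KA h.KB h.kp h.cP h.chd hc hc' hL
        hd1 hd2 hi hj P hP1 (by rw [hP2])

end

/-! ## The loops in pieces -/

theorem allL_append {α : Type} {f : α → Bool} {l l' : List α} (h : allL f l = true)
    (h' : allL f l' = true) : allL f (l ++ l') = true := by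
  rw [allL_iff] at h h' ⊢
  intro a ha
  rw [List.mem_append] at ha
  exact ha.elim (h a) (h' a)

/-- the list in pieces of `k` -/
theorem patK_of {q : KQ} {tu tr : KT} {DM : ℕ} {Ps : List PK} {As : List LN} {Bs : List (List LN)}
    (k m : ℕ) (hl : Ps.length ≤ m * k)
    (h : ∀ t < m, patK q tu tr DM ((Ps.drop (t * k)).take k) As Bs = true) :
    patK q tu tr DM Ps As Bs = true := by
  unfold patK
  rw [allL_iff]
  intro A hA
  have h1 := all_chunk (p := fun p => forceN (Nat.mod (Nat.add p.d A.o) q.b) fun r =>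
    allL (cellK q tu tr DM A p) (nthL Bs r)) k m hl fun t ht => by
      rw [List.all_eq_true]
      exact allL_iff.1 (allL_iff.1 (h t ht) A hA)
  rw [List.all_eq_true] at h1
  exact allL_iff.2 h1

theorem kevSA_of {T : Dat} {pats : ℕ → ℕ → List PatE} {M : DatM} {gN gP : List ℤ}
    {LB : ℕ → List Ltr} {n c' : ℕ} {As : List Ltr} (k m : ℕ) (hl : As.length ≤ m * k)
    (h : ∀ t < m, kevSA T pats M gN gP LB n c' ((As.drop (t * k)).take k) = true) :
    kevSA T pats M gN gP LB n c' As = true := by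
  unfold kevSA
  exact all_chunk k m hl h

end LWG
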