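import Pool.Agent.LWG.KCloseE
import Pool.Agent.LWG.KShort

/-!
# Substitution words with a kernel: windows inside a block, short windows (patterns with inequalities,
two tables)

As `KShort`, for `kgood_subE`: the child types belong to a table `S'`, the patterns are `PatE`.

* `CmpN`, `PatM`, `patOkE`: a packed pattern; exact values by one `land`, bounds digit by digit;
* `codeE`, `chkPKE`: packed forms of the patterns;
* **`hB_ofKE`**, **`hS_ofKE`**: the hypotheses `hB`, `hS` of `kgood_subE`.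
-/

set_option autoImplicit false

namespace LWG

open LevelWords

/-- a bound for the digit `k` of a pattern: `up = true`: the digit is `≤ n`; otherwise it is `≥ n` -/
structure CmpN where
  k : ℕ
  n : ℕ
  up : Bool

/-- A pattern: `e + Z - O`, length, mask of the exact entries, packed exact values of the closed
window, bounds. -/
structure PatM where
  s : ℕ
  w : ℕ
  m : ℕ
  r : ℕ
  l : List CmpN

/-- the digit number `i` of `x` satisfies the bound -/
noncomputable def cmpOk (K1 x i : ℕ) (c : CmpN) : Bool :=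
  Bool.rec (motive := fun _ => Bool)
    (Nat.ble c.n (Nat.mod (Nat.shiftRight x (Nat.mul K1 (Nat.add i c.k))) (Nat.pow 2 K1)))
    (Nat.ble (Nat.mod (Nat.shiftRight x (Nat.mul K1 (Nat.add i c.k))) (Nat.pow 2 K1)) c.n) c.up

/-- a pattern does not occur in the window `x` from a letter at `oA` -/
noncomputable def patOkE (K1 N x oA : ℕ) (P : PatM) : Bool :=
  Bool.rec (motive := fun _ => Bool) false
    (Bool.rec (motive := fun _ => Bool) true
      (Bool.rec (motive := fun _ => Bool) true false (allL (cmpOk K1 x (Nat.add oA P.s)) P.l))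
      (Nat.beq (Nat.land (Nat.shiftRight x (Nat.mul K1 (Nat.add oA P.s))) P.m) P.r))
    (Nat.ble (Nat.add (Nat.add oA P.s) P.w) N)

/-- a window is unimodal and has no pattern -/
noncomputable def winOkE (K1 N M R x oA : ℕ) (l : List PatM) : Bool :=
  Bool.rec (motive := fun _ => Bool) false (allL (patOkE K1 N x oA) l) (uniN M R x)

theorem cmpOk_iff {K1 x i : ℕ} {c : CmpN} : cmpOk K1 x i c = true ↔
    (if c.up = true then x / 2 ^ (K1 * (i + c.k)) % 2 ^ K1 ≤ c.n
      else c.n ≤ x / 2 ^ (K1 * (i + c.k)) % 2 ^ K1) := by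
  obtain ⟨k, n, up⟩ := c
  have e : Nat.mod (Nat.shiftRight x (Nat.mul K1 (Nat.add i k))) (Nat.pow 2 K1) =
      x / 2 ^ (K1 * (i + k)) % 2 ^ K1 := by
    change (x >>> (K1 * (i + k))) % 2 ^ K1 = _
    rw [Nat.shiftRight_eq_div_pow]
  cases up
  · have : cmpOk K1 x i ⟨k, n, false⟩ = Nat.ble n (Nat.mod (Nat.shiftRight x
        (Nat.mul K1 (Nat.add i k))) (Nat.pow 2 K1)) := rfl
    rw [this, e]
    simp [Nat.ble_eq]
  · have : cmpOk K1 x i ⟨k, n, true⟩ = Nat.ble (Nat.mod (Nat.shiftRight x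
        (Nat.mul K1 (Nat.add i k))) (Nat.pow 2 K1)) n := rfl
    rw [this, e]
    simp [Nat.ble_eq]

theorem patOkE_sound {K1 N x oA : ℕ} {P : PatM} (h : patOkE K1 N x oA P = true) :
    oA + P.s + P.w ≤ N ∧ ¬ ((x >>> (K1 * (oA + P.s))) &&& P.m = P.r ∧
      ∀ c ∈ P.l, cmpOk K1 x (oA + P.s) c = true) := by
  unfold patOkE at h
  rcases h1 : Nat.ble (Nat.add (Nat.add oA P.s) P.w) N with _ | _
  · rw [h1] at h
    exact absurd h (by simp)
  · rw [h1] at h
    refine ⟨Nat.le_of_ble_eq_true h1, fun ⟨h2, h4⟩ => ?_⟩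
    have h3 : Nat.beq (Nat.land (Nat.shiftRight x (Nat.mul K1 (Nat.add oA P.s))) P.m) P.r = true := by
      have : Nat.land (Nat.shiftRight x (Nat.mul K1 (Nat.add oA P.s))) P.m = P.r := h2
      rw [this]
      exact Nat.beq_refl _
    have h5 : allL (cmpOk K1 x (Nat.add oA P.s)) P.l = true := allL_iff.2 h4
    rw [h3, h5] at h
    simp at h

theorem winOkE_sound {K1 N M R x oA : ℕ} {l : List PatM} (h : winOkE K1 N M R x oA l = true) :
    uniN M R x = true ∧ ∀ P ∈ l, patOkE K1 N x oA P = true := by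
  unfold winOkE at h
  rcases h1 : uniN M R x with _ | _
  · rw [h1] at h
    exact absurd h (by simp)
  · rw [h1] at h
    exact ⟨rfl, allL_iff.1 h⟩

/-! ### masks -/

theorem testBit_pf {K N s r : ℕ} {f : ℕ → ℕ} (h : ∀ k < N, f k < 2 ^ K) (hr : r < K) :
    (pf K N f).testBit (K * s + r) = (decide (s < N) && (f s).testBit r) := by
  by_cases hs : s < N
  · rw [pf_testBit h hs hr]
    simp [hs]
  · have h1 := pf_lt h
    have h2 : pf K N f < 2 ^ (K * s + r) :=
      lt_of_lt_of_le h1 (Nat.pow_le_pow_right (by norm_num) (by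
        have : K * N ≤ K * s := Nat.mul_le_mul_left _ (by omega)
        omega))
    rw [Nat.testBit_lt_two_pow h2]
    simp [hs]

/-- **digits under a mask** -/
theorem pf_land {K N s w : ℕ} {f m : ℕ → ℕ} (hK : 0 < K) (h : ∀ k < N, f k < 2 ^ K)
    (hm : ∀ k < w, m k < 2 ^ K) (hs : s + w ≤ N) :
    (pf K N f >>> (K * s)) &&& pf K w m = pf K w fun k => f (s + k) &&& m k := by
  refine Nat.eq_of_testBit_eq fun i => ?_
  obtain ⟨q, r, hr, rfl⟩ : ∃ q r, r < K ∧ i = K * q + r :=
    ⟨i / K, i % K, Nat.mod_lt _ hK, (Nat.div_add_mod i K).symm⟩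
  rw [Nat.testBit_and, Nat.testBit_shiftRight, testBit_pf hm hr, testBit_pf (fun k hk => by
    exact lt_of_le_of_lt Nat.and_le_right (hm k hk)) hr]
  by_cases hq : q < w
  · rw [show K * s + (K * q + r) = K * (s + q) + r by ring, testBit_pf h hr, Nat.testBit_and]
    simp [hq, show s + q < N by omega]
  · simp [hq]

/-! ### packed patterns -/

/-- masks of the entries -/
def mskE (K1 : ℕ) : List En → List ℕ
  | [] => []
  | .ex _ :: v => (2 ^ K1 - 1) :: mskE K1 v
  | .ge _ :: v => 0 :: mskE K1 v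
  | .le _ :: v => 0 :: mskE K1 v
  | .un :: v => 0 :: mskE K1 v

/-- exact values of a closed window with a pattern -/
def adjE (g : List ℤ) (d H : ℤ) : ℤ → List En → List ℕ
  | _, [] => []
  | e, .ex n :: v => (n + prof g 0 e + prof g 0 (e - d) + H).toNat :: adjE g d H (e + 1) v
  | e, .ge _ :: v => 0 :: adjE g d H (e + 1) v
  | e, .le _ :: v => 0 :: adjE g d H (e + 1) v
  | e, .un :: v => 0 :: adjE g d H (e + 1) v

/-- bounds of a closed window with a pattern -/
def cmpE (g : List ℤ) (d H : ℤ) : ℕ → ℤ → List En → List CmpN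
  | _, _, [] => []
  | k, e, .ex _ :: v => cmpE g d H (k + 1) (e + 1) v
  | k, e, .ge n :: v => ⟨k, (n + prof g 0 e + prof g 0 (e - d) + H).toNat, false⟩ ::
      cmpE g d H (k + 1) (e + 1) v
  | k, e, .le n :: v => ⟨k, (n + prof g 0 e + prof g 0 (e - d) + H).toNat, true⟩ ::
      cmpE g d H (k + 1) (e + 1) v
  | k, e, .un :: v => cmpE g d H (k + 1) (e + 1) v

theorem mskE_length (K1 : ℕ) : ∀ v : List En, (mskE K1 v).length = v.length
  | [] => rfl
  | .ex _ :: v => by unfold mskE; rw [List.length_cons, List.length_cons, mskE_length K1 v]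
  | .ge _ :: v => by unfold mskE; rw [List.length_cons, List.length_cons, mskE_length K1 v]
  | .le _ :: v => by unfold mskE; rw [List.length_cons, List.length_cons, mskE_length K1 v]
  | .un :: v => by unfold mskE; rw [List.length_cons, List.length_cons, mskE_length K1 v]

theorem adjE_length (g : List ℤ) (d H : ℤ) : ∀ (e : ℤ) (v : List En), (adjE g d H e v).length = v.length
  | _, [] => rfl
  | e, .ex _ :: v => by unfold adjE; rw [List.length_cons, List.length_cons, adjE_length g d H (e + 1) v]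
  | e, .ge _ :: v => by unfold adjE; rw [List.length_cons, List.length_cons, adjE_length g d H (e + 1) v]
  | e, .le _ :: v => by unfold adjE; rw [List.length_cons, List.length_cons, adjE_length g d H (e + 1) v]
  | e, .un :: v => by unfold adjE; rw [List.length_cons, List.length_cons, adjE_length g d H (e + 1) v]

theorem mskE_lt (K1 : ℕ) : ∀ (v : List En) (k : ℕ), (mskE K1 v).getD k 0 < 2 ^ K1
  | [], k => by simp [mskE]
  | a :: v, 0 => by
    have := Nat.two_pow_pos K1
    rcases a with n | n | n | _ <;> unfold mskE <;> rw [List.getD_cons_zero] <;> omega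
  | a :: v, k + 1 => by
    have := mskE_lt K1 v k
    rcases a with n | n | n | _ <;> unfold mskE <;> rw [List.getD_cons_succ] <;> exact this

/-- the digits of a window with a pattern -/
theorem adjE_getD {g : List ℤ} {F G : ℤ → ℤ} {a d H : ℤ} {K1 : ℕ}
    (hG : ∀ z, G (a + z) = F (a + z) + prof g 0 z + prof g 0 (z - d))
    (hb : ∀ z, (G z + H).toNat < 2 ^ K1) :
    ∀ (v : List En) (e : ℤ), SatA F (a + e) v → ∀ k,
    (if k < v.length then (G (a + e + k) + H).toNat &&& (mskE K1 v).getD k 0 else 0) =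
      (adjE g d H e v).getD k 0
  | [], _, _, k => by simp [adjE]
  | x :: v, e, h, 0 => by
    rw [if_pos (by simp), Nat.cast_zero, add_zero]
    have h0 := hb (a + e)
    rcases x with n | n | n | _
    · have h1 : F (a + e) = n := h.1
      unfold mskE adjE
      rw [List.getD_cons_zero, List.getD_cons_zero, Nat.and_two_pow_sub_one_eq_mod,
        Nat.mod_eq_of_lt h0, hG, h1]
    all_goals
      unfold mskE adjE
      rw [List.getD_cons_zero, List.getD_cons_zero, Nat.and_zero]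
  | x :: v, e, h, k + 1 => by
    have h1 := adjE_getD hG hb v (e + 1) (by rw [← add_assoc]; exact h.2) k
    rw [show a + (e + 1) + (k : ℤ) = a + e + ((k + 1 : ℕ) : ℤ) by push_cast; ring] at h1
    have h2 : (if k + 1 < (x :: v).length then (G (a + e + ((k + 1 : ℕ) : ℤ)) + H).toNat &&&
        (mskE K1 (x :: v)).getD (k + 1) 0 else 0) = if k < v.length then
        (G (a + e + ((k + 1 : ℕ) : ℤ)) + H).toNat &&& (mskE K1 v).getD k 0 else 0 := by
      have e1 : (mskE K1 (x :: v)).getD (k + 1) 0 = (mskE K1 v).getD k 0 := by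
        rcases x with n | n | n | _ <;> rfl
      rw [e1]
      by_cases hk : k < v.length
      · rw [if_pos hk, if_pos (by rw [List.length_cons]; omega)]
      · rw [if_neg hk, if_neg (by rw [List.length_cons]; omega)]
    rw [h2, h1]
    rcases x with n | n | n | _ <;> rfl

/-- the bounds of a window with a pattern -/
theorem cmpE_sound {g : List ℤ} {F G : ℤ → ℤ} {a d H : ℤ}
    (hG : ∀ z, G (a + z) = F (a + z) + prof g 0 z + prof g 0 (z - d)) {k0 : ℕ} :
    ∀ (v : List En) (e : ℤ) (k : ℕ), SatA F (a + e) v → ∀ c ∈ cmpE g d H (k0 + k) e v,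
      k0 + k ≤ c.k ∧ c.k < k0 + k + v.length ∧
      (if c.up = true then (G (a + e + c.k - k0 - k) + H).toNat ≤ c.n
        else c.n ≤ (G (a + e + c.k - k0 - k) + H).toNat)
  | [], _, _, _, c, hc => by simp [cmpE] at hc
  | x :: v, e, k, h, c, hc => by
    have rec' : ∀ c ∈ cmpE g d H (k0 + k + 1) (e + 1) v, k0 + k ≤ c.k ∧
        c.k < k0 + k + (x :: v).length ∧
        (if c.up = true then (G (a + e + c.k - k0 - k) + H).toNat ≤ c.n
        else c.n ≤ (G (a + e + c.k - k0 - k) + H).toNat) := by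
      intro c hc
      have h1 := cmpE_sound hG v (e + 1) (k + 1) (by rw [← add_assoc]; exact h.2) c (by
        rw [← add_assoc]; exact hc)
      rw [show a + (e + 1) + (c.k : ℤ) - k0 - ((k + 1 : ℕ) : ℤ) = a + e + c.k - k0 - k by
        push_cast; ring] at h1
      refine ⟨by omega, ?_, h1.2.2⟩
      rw [List.length_cons]
      omega
    have e0 : a + e + ((k0 + k : ℕ) : ℤ) - k0 - k = a + e := by push_cast; ring
    rcases x with n | n | n | _
    · exact rec' c hc
    · unfold cmpE at hc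
      rcases List.mem_cons.1 hc with rfl | hc
      · have h1 : n ≤ F (a + e) := h.1
        refine ⟨le_rfl, by simp, ?_⟩
        simp only [Bool.false_eq_true, if_false]
        rw [e0, hG]
        omega
      · exact rec' c hc
    · unfold cmpE at hc
      rcases List.mem_cons.1 hc with rfl | hc
      · have h1 : F (a + e) ≤ n := h.1
        refine ⟨le_rfl, by simp, ?_⟩
        simp only [if_true]
        rw [e0, hG]
        omega
      · exact rec' c hc
    · exact rec' c hc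

/-- packed form of a pattern -/
def codeE (g : List ℤ) (q : Prm) (P : PatE) : PatM :=
  ⟨(P.e + q.Z - q.O).toNat, P.v.length, pkL (q.K + 1) (mskE (q.K + 1) P.v),
    pkL (q.K + 1) (adjE g P.d (2 ^ q.K : ℕ) P.e P.v), cmpE g P.d (2 ^ q.K : ℕ) 0 P.e P.v⟩

def eqCmp : List CmpN → List CmpN → Bool
  | [], [] => true
  | a :: A, b :: B => Nat.beq a.k b.k && Nat.beq a.n b.n && (a.up == b.up) && eqCmp A B
  | _, _ => false

theorem eqCmp_sound : ∀ {A B : List CmpN}, eqCmp A B = true → A = B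
  | [], [], _ => rfl
  | [], _ :: _, h => by simp [eqCmp] at h
  | _ :: _, [], h => by simp [eqCmp] at h
  | ⟨a1, a2, a3⟩ :: A, ⟨b1, b2, b3⟩ :: B, h => by
    unfold eqCmp at h
    simp only [Bool.and_eq_true, beq_iff_eq] at h
    obtain ⟨⟨⟨h1, h2⟩, h3⟩, h4⟩ := h
    rw [Nat.eq_of_beq_eq_true h1, Nat.eq_of_beq_eq_true h2, h3, eqCmp_sound h4]

def eqPM (p p' : PatM) : Bool := Nat.beq p.s p'.s && Nat.beq p.w p'.w && Nat.beq p.m p'.m &&
  Nat.beq p.r p'.r && eqCmp p.l p'.l

theorem eqPM_sound {p p' : PatM} (h : eqPM p p' = true) : p = p' := by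
  unfold eqPM at h
  simp only [Bool.and_eq_true] at h
  obtain ⟨⟨⟨⟨h1, h2⟩, h3⟩, h4⟩, h5⟩ := h
  obtain ⟨a1, a2, a3, a4, a5⟩ := p
  obtain ⟨b1, b2, b3, b4, b5⟩ := p'
  simp only at h1 h2 h3 h4 h5
  rw [Nat.eq_of_beq_eq_true h1, Nat.eq_of_beq_eq_true h2, Nat.eq_of_beq_eq_true h3,
    Nat.eq_of_beq_eq_true h4, eqCmp_sound h5]

/-- the packed patterns -/
def chkPKE (g : List ℤ) (q : Prm) (pats : ℕ → ℕ → List PatE) (pn : ℕ → ℕ → ℕ → List PatM) (c c' : ℕ) :
    Bool :=
  (pats c c').all fun P => decide (0 ≤ P.e + q.Z - q.O) &&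
    (pn c c' (P.d + q.D).toNat).any fun p => eqPM p (codeE g q P)

theorem chkPKE_sound {g : List ℤ} {q : Prm} {pats : ℕ → ℕ → List PatE} {pn : ℕ → ℕ → ℕ → List PatM}
    {c c' : ℕ} (h : chkPKE g q pats pn c c' = true) {P : PatE} (hP : P ∈ pats c c') :
    0 ≤ P.e + q.Z - q.O ∧ codeE g q P ∈ pn c c' (P.d + q.D).toNat := by
  unfold chkPKE at h
  rw [List.all_eq_true] at h
  have h1 := h P hP
  rw [Bool.and_eq_true, decide_eq_true_eq, List.any_eq_true] at h1
  obtain ⟨h1, p, hp, h2⟩ := h1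
  rw [eqPM_sound h2] at hp
  exact ⟨h1, hp⟩

/-! ### one window -/

/-- the check of one window -/
noncomputable def win2E (q : Prm) (pn : ℕ → ℕ → ℕ → List PatM) (EP EM M R b : ℕ) (e1 bd : ℤ)
    (ps : List ℤ) (a h : HalfN) : Bool :=
  winOkE (q.K + 1) (2 * q.Z + 1) M R (Nat.add (Nat.add
    (base q.K (2 * q.Z + 1) q.HA q.wl EP EM b (q.Z + e1) (q.Z + q.z0).toNat (q.Z + q.z0 + bd).toNat ps)
    (Nat.shiftLeft a.x (Nat.mul (q.K + 1) (q.Z + q.z0).toNat)))
    (Nat.shiftLeft h.x (Nat.mul (q.K + 1) (q.Z + q.z0 + bd).toNat)))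
    a.o (pn a.t h.t (Nat.sub (Nat.add (bd + q.D).toNat h.o) a.o))

/-- **one window, with its patterns**: `A`, `B` positions of the two letters -/
theorem win2E_sound {g : List ℤ} {q : Prm} {pats : ℕ → ℕ → List PatE}
    {pn : ℕ → ℕ → ℕ → List PatM} {EP EM M R b : ℕ} {e1 bd A B : ℤ}
    {ps : List ℤ} {ev va vb : List ℤ} {tA tB : ℕ} (hin : inK q b e1 ev.length bd ps = true)
    (hP : chkPKE g q pats pn tA tB = true)
    (hEP : EP = pkL (q.K + 1) (ev.map Int.toNat)) (hEM : EM = pkL (q.K + 1) (ev.map fun x => (-x).toNat))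
    (hM : M = pf (q.K + 1) (2 * q.Z + 1) fun _ => 2 ^ q.K) (hR : R = pf (q.K + 1) (2 * q.Z + 1) fun _ => 1)
    (la : va.length = q.wl) (lb : vb.length = q.wl) (be : ∀ x ∈ ev, |x| ≤ q.Em)
    (ba : ∀ x ∈ va, |x| ≤ q.HA) (bb : ∀ x ∈ vb, |x| ≤ q.HA) (hA : 0 ≤ A + q.O) (hB : 0 ≤ B - bd + q.O)
    (h : win2E q pn EP EM M R b e1 bd ps ⟨(A + q.O).toNat, tA, pkL (q.K + 1) (va.map (bias q.HA))⟩
      ⟨(B - bd + q.O).toNat, tB, pkL (q.K + 1) (vb.map (bias q.HA))⟩ = true)
    {G F : ℤ → ℤ} (hG : ∀ z, G z = nzv q.z0 va z + lets (nzv e1 ev) b ps z + nzv q.z0 vb (z - bd))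
    (hF : ∀ z, G z = F z + prof g A z + prof g B z) : NoKEE g pats tA tB A B G F := by
  unfold inK at hin
  simp only [Bool.and_eq_true, decide_eq_true_eq, List.all_eq_true] at hin
  obtain ⟨⟨⟨⟨⟨⟨z1, z2⟩, z3⟩, z4⟩, z5⟩, z6⟩, z7⟩ := hin
  unfold win2E at h
  obtain ⟨h2, h3⟩ := winOkE_sound h
  have hx : Nat.add (Nat.add (base q.K (2 * q.Z + 1) q.HA q.wl EP EM b (q.Z + e1)
      (q.Z + q.z0).toNat (q.Z + q.z0 + bd).toNat ps)
      (Nat.shiftLeft (pkL (q.K + 1) (va.map (bias q.HA))) (Nat.mul (q.K + 1) (q.Z + q.z0).toNat)))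
      (Nat.shiftLeft (pkL (q.K + 1) (vb.map (bias q.HA))) (Nat.mul (q.K + 1) (q.Z + q.z0 + bd).toNat)) =
      pf (q.K + 1) (2 * q.Z + 1) fun k => (G ((k : ℤ) - q.Z) + 2 ^ q.K).toNat := by
    have := win_eq (K := q.K) (N := 2 * q.Z + 1) (HA := q.HA) (Em := q.Em) (b := b) (Z := q.Z)
      (z0 := q.z0) (e1 := e1) (bd := bd) (ev := ev) (va := va) (vb := vb) (ps := ps)
      (fun p hp => by
        have := z7 p hp
        push_cast
        exact this) z1 (by rw [la]; push_cast; exact z2) z3 (by rw [la]; push_cast; exact z4)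
      (by rw [la, lb]) be ba bb z6
    rw [la, ← hEP, ← hEM] at this
    refine this.trans ?_
    simp only [hG]
  have habs : ∀ z, |G z| < 2 ^ q.K := fun z => by
    have := win_abs (K := q.K) (HA := q.HA) (Em := q.Em) (b := b) (z0 := q.z0) (e1 := e1)
      (bd := bd) (z := z) (ps := ps) be ba bb z6
    rw [hG]
    exact this
  have nz0 : ∀ (v : List ℤ) (z0 z : ℤ), z < z0 ∨ z0 + v.length ≤ z → nzv z0 v z = 0 := by
    intro v z0 z hz
    unfold nzv
    split_ifs with h1
    · rfl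
    · rw [List.getD_eq_default _ _ (by omega)]
      rfl
  have hG0 : ∀ z, z < -(q.Z : ℤ) ∨ (q.Z : ℤ) < z → G z = 0 := fun z hz => by
    rw [hG, nz0 va _ _ (by rw [la]; omega), nz0 vb _ _ (by rw [lb]; omega)]
    unfold lets
    rw [List.sum_eq_zero fun x hx => ?_]
    · rfl
    · obtain ⟨p, hp, rfl⟩ := List.mem_map.1 hx
      have := z7 p hp
      exact nz0 ev _ _ (by omega)
  have hdig : ∀ z, (G z + 2 ^ q.K).toNat < 2 ^ (q.K + 1) := fun z => by
    have := abs_lt.1 (habs z)
    have e2 : ((2 ^ q.K : ℕ) : ℤ) = 2 ^ q.K := by push_cast; rfl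
    have e3 : 2 ^ (q.K + 1) = 2 ^ q.K + 2 ^ q.K := by rw [pow_succ]; ring
    omega
  rw [hx] at h2 h3
  refine ⟨?_, fun P hPm hPd hAgr => ?_⟩
  · have hU := Tab.uni_of_digits hG0 habs hM hR rfl h2
    rintro ⟨x, y, h1, h2, h3, -⟩
    exact hU x y h1 h2 h3
  · obtain ⟨hs, hcode⟩ := chkPKE_sound hP hPm
    have hδ : (P.d + (q.D : ℤ)).toNat = ((bd + (q.D : ℤ)).toNat + (B - bd + (q.O : ℤ)).toNat) -
        (A + (q.O : ℤ)).toNat := by omega
    rw [hδ] at hcode
    obtain ⟨h5, h6⟩ := patOkE_sound (h3 _ hcode)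
    refine h6 ?_
    have hGA : ∀ z, G (A + z) = F (A + z) + prof g 0 z + prof g 0 (z - P.d) := fun z => by
      rw [hF, prof_eq g A, prof_eq g B, hPd, show A + z - A = z by ring,
        show A + z - B = z - (B - A) by ring]
    have c2 : ((2 ^ q.K : ℕ) : ℤ) = 2 ^ q.K := by push_cast; rfl
    unfold codeE at h5 ⊢
    simp only at h5 ⊢
    have e1 : ∀ k : ℕ, (((A + (q.O : ℤ)).toNat + (P.e + (q.Z : ℤ) - q.O).toNat + k : ℕ) : ℤ) - q.Z =
        A + P.e + k := fun k => by omega
    refine ⟨?_, fun c hc => ?_⟩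
    · rw [pkL_eq, mskE_length, pf_land (Nat.succ_pos _) (fun k _ => hdig _)
        (fun k _ => mskE_lt _ _ _) h5, pkL_eq, adjE_length]
      refine pf_congr fun k hk => ?_
      have h7 := adjE_getD (g := g) (F := F) (G := G) (a := A) (d := P.d) (H := (2 ^ q.K : ℕ))
        (K1 := q.K + 1) hGA (fun z => by rw [c2]; exact hdig z) P.v P.e hAgr k
      rw [if_pos hk] at h7
      rw [e1, ← h7, c2]
    · have h7 := cmpE_sound (g := g) (F := F) (G := G) (a := A) (d := P.d) (H := (2 ^ q.K : ℕ)) hGA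
        (k0 := 0) P.v P.e 0 hAgr c hc
      rw [cmpOk_iff]
      obtain ⟨-, k2, k3⟩ := h7
      rw [zero_add, zero_add] at k2
      rw [pf_digit (s := (A + (q.O : ℤ)).toNat + (P.e + (q.Z : ℤ) - q.O).toNat + c.k)
        (fun k _ => hdig _) (by omega), e1]
      rw [show A + P.e + (c.k : ℤ) - ((0 : ℕ) : ℤ) - ((0 : ℕ) : ℤ) = A + P.e + c.k by
        push_cast; ring, c2] at k3
      exact k3

namespace Tab

variable (S : Tab) (K : Ker)

/-- windows inside a block -/
noncomputable def chkBlKE (q : Prm) (pn : ℕ → ℕ → ℕ → List PatM) (EP EM M R : ℕ)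
    (A B : List HalfN) : Bool :=
  Bool.rec (motive := fun _ => Bool) false
    (chkIn (win2E q pn EM EP M R S.b (K.e0 - S.b) 0 [.ofNat 0]) A B)
    (inK q S.b (K.e0 - S.b) (K.e.length + S.b * K.g.length) 0 [.ofNat 0])

/-- the windows between two blocks with the explicit letters `ps` between them -/
noncomputable def chkTwoKE (q : Prm) (pn : ℕ → ℕ → ℕ → List PatM) (EP EM M R : ℕ)
    (A B : List HalfN) (d : ℤ) (ps : List ℤ) : Bool :=
  Bool.rec (motive := fun _ => Bool) false
    (allL (fun a => allL (win2E q pn EP EM M R S.b (K.e0 - S.b) (S.b * d) ps a) B) A)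
    (inK q S.b (K.e0 - S.b) (K.e.length + S.b * K.g.length) (S.b * d) ps)

/-- short windows which begin in a block of type `c` -/
noncomputable def chkShortKE (q : Prm) (pn : ℕ → ℕ → ℕ → List PatM) (EP EM M R : ℕ)
    (SA SB : ℕ → List HalfN) (c : ℕ) : Bool :=
  S.walks (fun c' d ps => S.chkTwoKE K q pn EP EM M R (SA c) (SB c') d ps) (2 * S.m) c 0 []

/-- all facts which are used below; `T'`: number of child types -/
structure FKE (T' : ℕ) (q : Prm) (pats : ℕ → ℕ → List PatE) (pn : ℕ → ℕ → ℕ → List PatM)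
    (EP EM M R : ℕ) (SA SB : ℕ → List HalfN) : Prop where
  con : S.chkCK K q EP EM M R = true
  bd : ∀ c < S.T, S.chkBdK K q c = true
  a : ∀ c < S.T, eqHN (S.halfAK K q c) (SA c) = true
  b : ∀ c < S.T, eqHN (S.halfBK K q c) (SB c) = true
  p : ∀ c < T', ∀ c' < T', chkPKE K.g q pats pn c c' = true

variable {S} {K}

section

variable {pats : ℕ → ℕ → List PatE} {pn : ℕ → ℕ → ℕ → List PatM} {q : Prm} {EP EM M R T' : ℕ}
  {SA SB : ℕ → List HalfN}

/-- the facts without patterns, in the form of `FK` -/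
theorem FKE.fk (H : S.FKE K T' q pats pn EP EM M R SA SB) :
    S.FK K q (fun _ _ => []) (fun _ _ _ => []) EP EM M R SA SB :=
  ⟨H.con, H.bd, H.a, H.b, fun _ _ _ _ => rfl⟩

/-- **The hypothesis `hB` of `kgood_subE`.** -/
theorem hB_ofKE (hb : 0 < S.b) (hch : ∀ c < S.T, ∀ i < S.L, S.chd c i < T') (KO : KId S K)
    (H : S.FKE K T' q pats pn EP EM M R SA SB)
    (h : ∀ c < S.T, S.chkBlKE K q pn EP EM M R (SA c) (SB c) = true) :
    ∀ c < S.T, ∀ i j, i < j → j < S.L →
      NoKEE K.g pats (S.chd c i) (S.chd c j) (S.off c i) (S.off c j)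
        (fun y => S.kpre K c (j + 1) y - S.kpre K c i y)
        (fun y => S.kpre K c j y - S.kpre K c (i + 1) y) := by
  intro c hc i j hij hj
  have h1 := h c hc
  unfold chkBlKE at h1
  rcases hZ : inK q S.b (K.e0 - S.b) (K.e.length + S.b * K.g.length) 0 [.ofNat 0] with _ | _
  · rw [hZ] at h1
    exact absurd h1 (by simp)
  rw [hZ] at h1
  simp only at h1
  have H' := H.fk
  rw [← eqHN_sound (H.a c hc), ← eqHN_sound (H.b c hc)] at h1
  have h2 := chkIn_sound h1 hij (getElem_halfA (hij.trans hj)) (getElem_halfB hj)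
  have hl : ((S.kevl K).map fun x => -x).length = K.e.length + S.b * K.g.length := by
    rw [List.length_map, length_kevl]
  rw [← hl] at hZ
  refine win2E_sound (ev := (S.kevl K).map fun x => -x) (va := S.kvA K q c i)
      (vb := S.kvB K q c j) (B := S.off c j) (bd := 0) hZ
      (H.p _ (hch c hc i (hij.trans hj)) _ (hch c hc j hj)) ?_ ?_ H'.M_eq H'.R_eq (length_kvA c i)
      (length_kvB c j) (fun x hx => ?_) (H'.bA hc (hij.trans hj)).2.1 (H'.bA hc hj).2.2
      (H'.bA hc (hij.trans hj)).1 (by rw [sub_zero]; exact (H'.bA hc hj).1) (by rw [sub_zero]; exact h2)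
      (fun z => ?_) (fun z => ?_)
  · rw [H'.EM_eq, List.map_map]
    rfl
  · rw [H'.EP_eq, List.map_map]
    congr 1
    refine List.map_congr_left fun x _ => ?_
    simp
  · obtain ⟨y, hy, rfl⟩ := List.mem_map.1 hx
    rw [abs_neg]
    exact H'.be y hy
  · have e1 : nzv (K.e0 - S.b) ((S.kevl K).map fun x => -x) z = -nzv (K.e0 - S.b) (S.kevl K) z := by
      unfold nzv
      split_ifs
      · rfl
      · have := getD_map0 (fun x : ℤ => -x) 0 (S.kevl K) (z - (K.e0 - S.b)).toNat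
        simp only [neg_zero] at this
        exact this
    have e2 : lets (nzv (K.e0 - S.b) ((S.kevl K).map fun x => -x)) S.b [Int.ofNat 0] z =
        - S.kpre K c S.L z := by
      unfold lets
      rw [List.map_singleton, List.sum_singleton, Int.ofNat_eq_natCast, Nat.cast_zero, mul_zero,
        sub_zero, e1, nzv_kevl hb, KO.id c hc]
      rfl
    rw [nz_kvA (H.bd c hc) (hij.trans hj).le, e2, sub_zero, nz_kvB (H.bd c hc) hj]
    ring
  · rw [kpre_succ, kpre_succ]
    ring

theorem twoKE_sound (hb : 0 < S.b) (hch : ∀ c < S.T, ∀ i < S.L, S.chd c i < T')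
    (H : S.FKE K T' q pats pn EP EM M R SA SB) {c c' : ℕ} (hc : c < S.T)
    (hc' : c' < S.T) {d : ℤ} {ps : List ℤ}
    (h : S.chkTwoKE K q pn EP EM M R (SA c) (SB c') d ps = true) {i j : ℕ} (hi : i < S.L)
    (hj : j < S.L) :
    NoKEE K.g pats (S.chd c i) (S.chd c' j) (S.off c i) (S.b * d + S.off c' j)
      (S.kFn K c i c' (j + 1) d (cv K.g (dps ps))) (S.kFn K c (i + 1) c' j d (cv K.g (dps ps))) := by
  unfold chkTwoKE at h
  rcases hZ : inK q S.b (K.e0 - S.b) (K.e.length + S.b * K.g.length) (S.b * d) ps with _ | _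
  · rw [hZ] at h
    exact absurd h (by simp)
  rw [hZ] at h
  simp only at h
  have H' := H.fk
  rw [← eqHN_sound (H.a c hc), ← eqHN_sound (H.b c' hc')] at h
  rw [allL_iff] at h
  have h2 := h _ (List.mem_of_getElem? (getElem_halfA hi))
  rw [allL_iff] at h2
  have h3 := h2 _ (List.mem_of_getElem? (getElem_halfB hj))
  rw [← length_kevl] at hZ
  refine win2E_sound (ev := S.kevl K) (va := S.kvA K q c i)
      (vb := S.kvB K q c' j) (B := S.b * d + S.off c' j) (bd := S.b * d) hZ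
      (H.p _ (hch c hc i hi) _ (hch c' hc' j hj)) H'.EP_eq H'.EM_eq H'.M_eq
      H'.R_eq (length_kvA c i) (length_kvB c' j) H'.be (H'.bA hc hi).2.1 (H'.bA hc' hj).2.2
      (H'.bA hc hi).1 (by rw [add_sub_cancel_left]; exact (H'.bA hc' hj).1)
      (by rw [add_sub_cancel_left]; exact h3) (fun z => ?_) (fun z => ?_)
  · rw [nz_kvA (H.bd c hc) hi.le, klets hb, nz_kvB (H.bd c' hc') hj]
    rfl
  · unfold kFn
    rw [kpre_succ, kpre_succ, prof_shift]
    ring

/-- **The hypothesis `hS` of `kgood_subE`.** -/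
theorem hS_ofKE (hb : 0 < S.b) (hm : 1 ≤ S.m) (hch : ∀ c < S.T, ∀ i < S.L, S.chd c i < T')
    (H : S.FKE K T' q pats pn EP EM M R SA SB)
    (h : ∀ c < S.T, S.chkShortKE K q pn EP EM M R SA SB c = true)
    (W : ℤ → ℤ) (ty : ℤ → ℕ) (hW : S.Path W ty) (s e : ℤ) (hse : s < e) (he : e ≤ s + 2 * S.m)
    (i : ℕ) (hi : i < S.L) (j : ℕ) (hj : j < S.L) :
    NoKEE K.g pats (S.chd (ty s) i) (S.chd (ty e) j) (S.off (ty s) i)
      (S.b * (W e - W s) + S.off (ty e) j)
      (S.kFn K (ty s) i (ty e) (j + 1) (W e - W s) (kLw K.g W s e))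
      (S.kFn K (ty s) (i + 1) (ty e) j (W e - W s) (kLw K.g W s e)) := by
  have h1 := h _ (hW.lt s)
  unfold chkShortKE at h1
  obtain ⟨n, hn, rfl⟩ : ∃ n : ℕ, 0 < n ∧ e = s + n := ⟨(e - s).toNat, by omega, by omega⟩
  obtain ⟨qs, h2, h3⟩ := walks_sound hm hW s (2 * S.m) 0 [] (by simpa using h1)
    (fun y => by simp [E_self, dps]) n hn (by omega)
  have h4 : kLw K.g W s (s + n) = cv K.g (dps qs) := funext fun y => by
    unfold kLw
    rw [cv_at]
    exact cv_congr K.g h2 y
  rw [h4]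
  exact twoKE_sound hb hch H (hW.lt _) (hW.lt _) h3 hi hj

end

end Tab

end LWG
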