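import Pool.Agent.LWG.KClose
import Pool.Agent.LWG.Start

/-!
# Substitution words with a kernel: the start word

**`kgood_start`**: a periodic typed word satisfies the invariant, from a finite check.
-/

set_option autoImplicit false

namespace LWG

open LevelWords

/-- convolved differences of the window of `n` letters beginning with the letter `a` -/
def kDn (g : List ℤ) (l : List (ℤ × ℕ)) (a : ℤ) (n : ℕ) (x : ℤ) : ℤ := cv g (Dn l a n) x

/-- windows of less than `N` letters -/
def chkKSt2 (g : List ℤ) (pats : ℕ → ℕ → List Pat) (l : List (ℤ × ℕ)) (Z N : ℕ) : Bool :=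
  (List.range l.length).all fun (a : ℕ) => (List.range N).all fun (n : ℕ) =>
    uniZ Z (kDn g l a n) && (pats (pT l a) (pT l (a + 1 + n))).all fun P =>
      decide (P.d ≠ pW l (a + 1 + n) - pW l a) || difl (fun y => kDn g l (a + 1) n (pW l a + y)) P.e P.v

/-- the windows of `N, ..., N + p - 1` letters are typical -/
def chkKSt3 (g : List ℤ) (pats : ℕ → ℕ → List Pat) (l : List (ℤ × ℕ)) (Z N : ℕ) (B : ℤ) : Bool :=
  (List.range l.length).all fun (a : ℕ) => (List.range l.length).all fun (r : ℕ) =>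
    ((List.range (2 * Z + 1)).all fun (i : ℕ) => decide (kDn g l 0 l.length (-Z + i) = 0) ||
      (decide (0 < kDn g l 0 l.length (-Z + i)) && decide (B < kDn g l a (N + r) (-Z + i))) ||
      (decide (kDn g l 0 l.length (-Z + i) < 0) && decide (kDn g l a (N + r) (-Z + i) < -B))) &&
    (pats (pT l a) (pT l (a + 1 + (N + r : ℕ)))).all fun P => P.v.all fun v =>
      decide (-B ≤ v) && decide (v ≤ B)

/-- all checks for the start word; `Q` periods; letters in `[-Z1 + 1, Z1]` -/
def chkKStart (S : Tab) (g : List ℤ) (pats : ℕ → ℕ → List Pat) (l : List (ℤ × ℕ)) (Z1 Z Q : ℕ)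
    (B : ℤ) : Bool :=
  decide (0 ≤ B) && decide (Z1 + g.length ≤ Z) && chkSt1 S l Z1 &&
    chkKSt2 g pats l Z (Q * l.length + l.length) && chkKSt3 g pats l Z (Q * l.length) B

theorem cv_mul (g : List ℤ) (c : ℤ) (f : ℤ → ℤ) (y : ℤ) : cv g (fun x => c * f x) y = c * cv g f y := by
  unfold cv
  rw [← List.sum_map_mul_left]
  congr 1
  exact List.map_congr_left fun k _ => by ring

theorem cv_off {g : List ℤ} {f : ℤ → ℤ} {lo hi : ℤ} (hf : ∀ y, y < lo ∨ hi < y → f y = 0) {y : ℤ}
    (hy : y < lo ∨ hi + g.length ≤ y) : cv g f y = 0 := by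
  unfold cv
  refine List.sum_eq_zero fun x hx => ?_
  obtain ⟨k, hk, rfl⟩ := List.mem_map.1 hx
  rw [List.mem_range] at hk
  rw [hf (y - k) (by omega), mul_zero]

theorem kDn_per (g : List ℤ) (l : List (ℤ × ℕ)) (a x k : ℤ) (n : ℕ) :
    kDn g l (a + l.length * k) n x = kDn g l a n x :=
  cv_congr g (fun y => Dn_per l a y k n) x

theorem kDn_add (g : List ℤ) (l : List (ℤ × ℕ)) (a x : ℤ) (n k : ℕ) :
    kDn g l a (n + l.length * k) x = kDn g l a n x + k * kDn g l 0 l.length x := by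
  unfold kDn
  rw [← cv_mul, ← cv_add]
  exact cv_congr g (fun y => Dn_add l a y n k) x

section

variable {S : Tab} {l : List (ℤ × ℕ)} {g : List ℤ} {Z1 Z : ℕ} {pats : ℕ → ℕ → List Pat} {N : ℕ} {B : ℤ}

theorem kDn_out (hZ : Z1 + g.length ≤ Z) (h : ∀ t : ℤ, -(Z1 : ℤ) + 1 ≤ pW l t ∧ pW l t ≤ Z1) (a : ℤ)
    (n : ℕ) {z : ℤ} (hz : z < -(Z : ℤ) ∨ (Z : ℤ) < z) : kDn g l a n z = 0 :=
  cv_off (lo := -(Z1 : ℤ)) (hi := Z1) (fun y hy => Dn_out h a n hy) (by omega)

theorem KSt2 (hZ : Z1 + g.length ≤ Z) (h1 : chkSt1 S l Z1 = true) (h : chkKSt2 g pats l Z N = true)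
    (t : ℤ) {n : ℕ} (hn : n < N) :
    Uni (kDn g l t n) ∧ ∀ P ∈ pats (pT l t) (pT l (t + 1 + n)), P.d = pW l (t + 1 + n) - pW l t →
      ¬ Agr (fun y => kDn g l (t + 1) n (pW l t + y)) P.e P.v := by
  obtain ⟨h0, h1⟩ := St1 h1
  obtain ⟨a, k, ha, rfl⟩ := exists_red h0 t
  unfold chkKSt2 at h
  rw [List.all_eq_true] at h
  have h2 := h a (List.mem_range.2 ha)
  rw [List.all_eq_true] at h2
  have h3 := h2 n (List.mem_range.2 hn)
  rw [Bool.and_eq_true, List.all_eq_true] at h3
  have e1 : (a : ℤ) + l.length * k + 1 + n = a + 1 + n + l.length * k := by ring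
  have e2 : (a : ℤ) + l.length * k + 1 = a + 1 + l.length * k := by ring
  rw [e1, e2, pT_per, pT_per, pW_per, pW_per]
  refine ⟨?_, fun P hP hd => ?_⟩
  · have := uniZ_sound h3.1 fun z hz => kDn_out hZ (fun t => (h1 t).1) a n hz
    have hh : kDn g l (a + l.length * k) n = kDn g l a n := funext fun x => kDn_per g l a x k n
    rw [hh]
    exact this
  · have h4 := h3.2 P hP
    rw [Bool.or_eq_true, decide_eq_true_eq] at h4
    rcases h4 with h4 | h4
    · exact absurd hd h4
    · have h5 := difl_sound _ _ h4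
      have hh : (fun y => kDn g l (a + 1 + l.length * k) n (pW l a + y)) =
          fun y => kDn g l (a + 1) n (pW l a + y) := funext fun y => kDn_per g l (a + 1) _ k n
      rw [hh]
      exact h5

theorem KSt3 (hZ : Z1 + g.length ≤ Z) (h1 : chkSt1 S l Z1 = true) (h : chkKSt3 g pats l Z N B = true)
    (t : ℤ) {r : ℕ} (hr : r < l.length) : (∀ x, kDn g l 0 l.length x = 0 ∨
      (0 < kDn g l 0 l.length x ∧ B < kDn g l t (N + r) x) ∨
      (kDn g l 0 l.length x < 0 ∧ kDn g l t (N + r) x < -B)) ∧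
    ∀ P ∈ pats (pT l t) (pT l (t + 1 + (N + r : ℕ))), ∀ v ∈ P.v, -B ≤ v ∧ v ≤ B := by
  obtain ⟨h0, h1⟩ := St1 h1
  obtain ⟨a, k, ha, rfl⟩ := exists_red h0 t
  unfold chkKSt3 at h
  rw [List.all_eq_true] at h
  have h2 := h a (List.mem_range.2 ha)
  rw [List.all_eq_true] at h2
  have h3 := h2 r (List.mem_range.2 hr)
  rw [Bool.and_eq_true, List.all_eq_true, List.all_eq_true] at h3
  have e1 : (a : ℤ) + l.length * k + 1 + (N + r : ℕ) = a + 1 + (N + r : ℕ) + l.length * k := by ring
  rw [e1, pT_per, pT_per]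
  refine ⟨fun x => ?_, fun P hP v hv => ?_⟩
  · rw [kDn_per]
    by_cases hx : x < -(Z : ℤ) ∨ (Z : ℤ) < x
    · exact Or.inl (kDn_out hZ (fun t => (h1 t).1) 0 _ hx)
    · have h4 := h3.1 (x + Z).toNat (List.mem_range.2 (by omega))
      rw [show -(Z : ℤ) + ((x + Z).toNat : ℕ) = x by omega] at h4
      simp only [Bool.or_eq_true, Bool.and_eq_true, decide_eq_true_eq] at h4
      tauto
  · have h4 := h3.2 P hP
    rw [List.all_eq_true] at h4
    have h5 := h4 v hv
    rw [Bool.and_eq_true, decide_eq_true_eq, decide_eq_true_eq] at h5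
    exact h5

/-- **The start word satisfies the invariant.** -/
theorem kgood_start {Q : ℕ} (h : chkKStart S g pats l Z1 Z Q B = true) :
    KGood S g pats (pW l) (pT l) := by
  unfold chkKStart at h
  simp only [Bool.and_eq_true, decide_eq_true_eq] at h
  obtain ⟨⟨⟨⟨hB, hZ⟩, h1⟩, h2⟩, h3⟩ := h
  obtain ⟨h0, k1⟩ := St1 h1
  obtain ⟨N, hN⟩ : ∃ N, N = Q * l.length := ⟨_, rfl⟩
  rw [← hN] at h2 h3
  -- reduction of a long window
  have red : ∀ n : ℕ, n < N + l.length ∨ ∃ r k : ℕ, r < l.length ∧ n = N + r + l.length * k := by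
    intro n
    rcases lt_or_ge n (N + l.length) with e | e
    · exact Or.inl e
    · right
      refine ⟨(n - N) % l.length, (n - N) / l.length, Nat.mod_lt _ h0, ?_⟩
      have := Nat.mod_add_div (n - N) l.length
      omega
  have key : ∀ (t : ℤ) (r k : ℕ), r < l.length → ∀ x,
      kDn g l t (N + r + l.length * k) x = kDn g l t (N + r) x ∨
      (B < kDn g l t (N + r + l.length * k) x ∧ B < kDn g l t (N + r) x) ∨
      (kDn g l t (N + r + l.length * k) x < -B ∧ kDn g l t (N + r) x < -B) := by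
    intro t r k hr x
    rw [kDn_add]
    rcases (KSt3 hZ h1 h3 t hr).1 x with e | ⟨e1, e2⟩ | ⟨e1, e2⟩
    · left
      rw [e]
      ring
    · right; left
      have : 0 ≤ (k : ℤ) * kDn g l 0 l.length x := by positivity
      omega
    · right; right
      have : (k : ℤ) * kDn g l 0 l.length x ≤ 0 :=
        mul_nonpos_of_nonneg_of_nonpos (by positivity) e1.le
      omega
  refine ⟨⟨fun t => (k1 t).2.1, fun t => (k1 t).2.2.1, fun t => (k1 t).2.2.2⟩, fun a b hab => ?_,
    fun s t hst P hP hd hA => ?_⟩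
  · obtain ⟨n, rfl⟩ : ∃ n : ℕ, b = a + n := ⟨(b - a).toNat, by omega⟩
    have hE : cv g (E (pW l) a (a + n)) = kDn g l a n :=
      funext fun x => cv_congr g (fun y => E_Dn l a y n) x
    rw [hE]
    rcases red n with e | ⟨r, k, hr, rfl⟩
    · exact (KSt2 hZ h1 h2 a e).1
    · intro x y hxy hx hy
      have u := (KSt2 hZ h1 h2 a (show N + r < N + l.length by omega)).1 x y hxy
      have q1 := key a r k hr x
      have q2 := key a r k hr y
      refine u ?_ ?_ <;> omega
  · obtain ⟨n, rfl⟩ : ∃ n : ℕ, t = s + 1 + n := ⟨(t - s - 1).toNat, by omega⟩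
    have hL : kLw g (pW l) s (s + 1 + n) = fun y => kDn g l (s + 1) n (pW l s + y) := by
      funext y
      unfold kLw
      exact cv_congr g (fun z => E_Dn l (s + 1) z n) _
    rw [hL] at hA
    rcases red n with e | ⟨r, k, hr, rfl⟩
    · exact (KSt2 hZ h1 h2 s e).2 P hP hd hA
    · have e1 : s + 1 + ((N + r + l.length * k : ℕ) : ℤ) = s + 1 + (N + r : ℕ) + l.length * k := by
        push_cast; ring
      rw [e1, pT_per] at hP
      rw [e1, pW_per] at hd
      refine (KSt2 hZ h1 h2 s (show N + r < N + l.length by omega)).2 P hP hd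
        (agr_of (B := B) (fun y => ?_) _ _ ((KSt3 hZ h1 h3 s hr).2 P hP) hA)
      rcases key (s + 1) r k hr (pW l s + y) with e | e | e
      · exact Or.inl e
      · exact Or.inr (Or.inl e.1)
      · exact Or.inr (Or.inr e.1)

end

end LWG
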