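import Pool.Agent.LWG.KCloseE
import Pool.Agent.LWG.KStart

/-!
# Substitution words with a kernel, patterns with inequalities: the start word

**`kgood_startE`**: a periodic typed word satisfies the invariant, from a finite check. If all
constants of the patterns are in `[-B, B]`, values above `B` satisfy the same entries, and so do
values below `-B`.
-/

set_option autoImplicit false

namespace LWG

open LevelWords

/-- the decidable form of `En.Sat` -/
def En.satB : En → ℤ → Bool
  | .ex n, x => zeB (x - n)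
  | .ge n, x => !negB (x - n)
  | .le n, x => !posB (x - n)
  | .un, _ => true

theorem En.satB_of {a : En} {x : ℤ} (h : a.Sat x) : a.satB x = true := by
  rcases a with n | n | n | _
  · have h : x = n := h
    exact zeB_iff.2 (by omega)
  · have h : n ≤ x := h
    change (!negB (x - n)) = true
    rcases h1 : negB (x - n) with _ | _
    · rfl
    · have := negB_iff.1 h1
      omega
  · have h : x ≤ n := h
    change (!posB (x - n)) = true
    rcases h1 : posB (x - n) with _ | _
    · rfl
    · have := posB_iff.1 h1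
      omega
  · rfl

/-- the decidable form of `SatA` -/
def satAB (F : ℤ → ℤ) : ℤ → List En → Bool
  | _, [] => true
  | e, a :: v => a.satB (F e) && satAB F (e + 1) v

theorem satAB_of {F : ℤ → ℤ} : ∀ {v : List En} {e : ℤ}, SatA F e v → satAB F e v = true
  | [], _, _ => rfl
  | _ :: v, e, h => by
    unfold satAB
    rw [En.satB_of h.1, satAB_of h.2, Bool.true_and]

/-- the constant is in `[-B, B]` -/
def En.bdB (B : ℤ) : En → Bool
  | .ex n => decide (-B ≤ n) && decide (n ≤ B)
  | .ge n => decide (-B ≤ n) && decide (n ≤ B)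
  | .le n => decide (-B ≤ n) && decide (n ≤ B)
  | .un => true

/-- far values satisfy the same entries -/
theorem En.sat_far {B x y : ℤ} {a : En} (hb : a.bdB B = true)
    (h : x = y ∨ (B < x ∧ B < y) ∨ (x < -B ∧ y < -B)) (hx : a.Sat x) : a.Sat y := by
  rcases h with rfl | h
  · exact hx
  rcases a with n | n | n | _
  · simp only [En.bdB, Bool.and_eq_true, decide_eq_true_eq] at hb
    have hx : x = n := hx
    omega
  · simp only [En.bdB, Bool.and_eq_true, decide_eq_true_eq] at hb
    have hx : n ≤ x := hx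
    change n ≤ y
    omega
  · simp only [En.bdB, Bool.and_eq_true, decide_eq_true_eq] at hb
    have hx : x ≤ n := hx
    change y ≤ n
    omega
  · trivial

theorem satA_far {B : ℤ} {F G : ℤ → ℤ}
    (h : ∀ y, F y = G y ∨ (B < F y ∧ B < G y) ∨ (F y < -B ∧ G y < -B)) :
    ∀ (v : List En) (e : ℤ), (∀ a ∈ v, En.bdB B a = true) → SatA F e v → SatA G e v
  | [], _, _, _ => trivial
  | a :: v, e, hb, h' => ⟨En.sat_far (hb a (by simp)) (h e) h'.1,
      satA_far h v (e + 1) (fun a' ha' => hb a' (by simp [ha'])) h'.2⟩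

/-- windows of less than `N` letters -/
def chkKSt2E (g : List ℤ) (pats : ℕ → ℕ → List PatE) (l : List (ℤ × ℕ)) (Z N : ℕ) : Bool :=
  (List.range l.length).all fun (a : ℕ) => (List.range N).all fun (n : ℕ) =>
    uniZ Z (kDn g l a n) && (pats (pT l a) (pT l (a + 1 + n))).all fun P =>
      decide (P.d ≠ pW l (a + 1 + n) - pW l a) ||
        !satAB (fun y => kDn g l (a + 1) n (pW l a + y)) P.e P.v

/-- the windows of `N, ..., N + p - 1` letters are typical -/
def chkKSt3E (g : List ℤ) (pats : ℕ → ℕ → List PatE) (l : List (ℤ × ℕ)) (Z N : ℕ) (B : ℤ) : Bool :=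
  (List.range l.length).all fun (a : ℕ) => (List.range l.length).all fun (r : ℕ) =>
    ((List.range (2 * Z + 1)).all fun (i : ℕ) => decide (kDn g l 0 l.length (-Z + i) = 0) ||
      (decide (0 < kDn g l 0 l.length (-Z + i)) && decide (B < kDn g l a (N + r) (-Z + i))) ||
      (decide (kDn g l 0 l.length (-Z + i) < 0) && decide (kDn g l a (N + r) (-Z + i) < -B))) &&
    (pats (pT l a) (pT l (a + 1 + (N + r : ℕ)))).all fun P => P.v.all (En.bdB B)

/-- all checks for the start word; `Q` periods; letters in `[-Z1 + 1, Z1]` -/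
def chkKStartE (S : Tab) (g : List ℤ) (pats : ℕ → ℕ → List PatE) (l : List (ℤ × ℕ)) (Z1 Z Q : ℕ)
    (B : ℤ) : Bool :=
  decide (0 ≤ B) && decide (Z1 + g.length ≤ Z) && chkSt1 S l Z1 &&
    chkKSt2E g pats l Z (Q * l.length + l.length) && chkKSt3E g pats l Z (Q * l.length) B

section

variable {S : Tab} {l : List (ℤ × ℕ)} {g : List ℤ} {Z1 Z : ℕ} {pats : ℕ → ℕ → List PatE} {N : ℕ}
  {B : ℤ}

theorem KSt2E (hZ : Z1 + g.length ≤ Z) (h1 : chkSt1 S l Z1 = true)
    (h : chkKSt2E g pats l Z N = true) (t : ℤ) {n : ℕ} (hn : n < N) :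
    Uni (kDn g l t n) ∧ ∀ P ∈ pats (pT l t) (pT l (t + 1 + n)), P.d = pW l (t + 1 + n) - pW l t →
      ¬ SatA (fun y => kDn g l (t + 1) n (pW l t + y)) P.e P.v := by
  obtain ⟨h0, h1⟩ := St1 h1
  obtain ⟨a, k, ha, rfl⟩ := exists_red h0 t
  unfold chkKSt2E at h
  rw [List.all_eq_true] at h
  have h2 := h a (List.mem_range.2 ha)
  rw [List.all_eq_true] at h2
  have h3 := h2 n (List.mem_range.2 hn)
  rw [Bool.and_eq_true, List.all_eq_true] at h3
  have e1 : (a : ℤ) + l.length * k + 1 + n = a + 1 + n + l.length * k := by ring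
  have e2 : (a : ℤ) + l.length * k + 1 = a + 1 + l.length * k := by ring
  rw [e1, e2, pT_per, pT_per, pW_per, pW_per]
  refine ⟨?_, fun P hP hd => ?_⟩
  · have := uniZ_sound h3.1 fun z hz => kDn_out hZ (fun t => (h1 t).1) a n hz
    have hh : kDn g l (a + l.length * k) n = kDn g l a n := funext fun x => kDn_per g l a x k n
    rw [hh]
    exact this
  · have h4 := h3.2 P hP
    rw [Bool.or_eq_true, decide_eq_true_eq] at h4
    rcases h4 with h4 | h4
    · exact absurd hd h4
    · have hh : (fun y => kDn g l (a + 1 + l.length * k) n (pW l a + y)) =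
          fun y => kDn g l (a + 1) n (pW l a + y) := funext fun y => kDn_per g l (a + 1) _ k n
      rw [hh]
      intro h5
      rw [satAB_of h5] at h4
      simp at h4

theorem KSt3E (hZ : Z1 + g.length ≤ Z) (h1 : chkSt1 S l Z1 = true)
    (h : chkKSt3E g pats l Z N B = true) (t : ℤ) {r : ℕ} (hr : r < l.length) :
    (∀ x, kDn g l 0 l.length x = 0 ∨
      (0 < kDn g l 0 l.length x ∧ B < kDn g l t (N + r) x) ∨
      (kDn g l 0 l.length x < 0 ∧ kDn g l t (N + r) x < -B)) ∧
    ∀ P ∈ pats (pT l t) (pT l (t + 1 + (N + r : ℕ))), ∀ a ∈ P.v, En.bdB B a = true := by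
  obtain ⟨h0, h1⟩ := St1 h1
  obtain ⟨a, k, ha, rfl⟩ := exists_red h0 t
  unfold chkKSt3E at h
  rw [List.all_eq_true] at h
  have h2 := h a (List.mem_range.2 ha)
  rw [List.all_eq_true] at h2
  have h3 := h2 r (List.mem_range.2 hr)
  rw [Bool.and_eq_true, List.all_eq_true, List.all_eq_true] at h3
  have e1 : (a : ℤ) + l.length * k + 1 + (N + r : ℕ) = a + 1 + (N + r : ℕ) + l.length * k := by ring
  rw [e1, pT_per, pT_per]
  refine ⟨fun x => ?_, fun P hP => List.all_eq_true.1 (h3.2 P hP)⟩
  rw [kDn_per]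
  by_cases hx : x < -(Z : ℤ) ∨ (Z : ℤ) < x
  · exact Or.inl (kDn_out hZ (fun t => (h1 t).1) 0 _ hx)
  · have h4 := h3.1 (x + Z).toNat (List.mem_range.2 (by omega))
    rw [show -(Z : ℤ) + ((x + Z).toNat : ℕ) = x by omega] at h4
    simp only [Bool.or_eq_true, Bool.and_eq_true, decide_eq_true_eq] at h4
    tauto

/-- **The start word satisfies the invariant.** -/
theorem kgood_startE {Q : ℕ} (h : chkKStartE S g pats l Z1 Z Q B = true) :
    KGoodE S g pats (pW l) (pT l) := by
  unfold chkKStartE at h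
  simp only [Bool.and_eq_true, decide_eq_true_eq] at h
  obtain ⟨⟨⟨⟨hB, hZ⟩, h1⟩, h2⟩, h3⟩ := h
  obtain ⟨h0, k1⟩ := St1 h1
  obtain ⟨N, hN⟩ : ∃ N, N = Q * l.length := ⟨_, rfl⟩
  rw [← hN] at h2 h3
  -- reduction of a long window
  have red : ∀ n : ℕ, n < N + l.length ∨ ∃ r k : ℕ, r < l.length ∧ n = N + r + l.length * k := by
    intro n
    rcases lt_or_ge n (N + l.length) with e | e
    · exact Or.inl e
    · right
      refine ⟨(n - N) % l.length, (n - N) / l.length, Nat.mod_lt _ h0, ?_⟩
      have := Nat.mod_add_div (n - N) l.length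
      omega
  have key : ∀ (t : ℤ) (r k : ℕ), r < l.length → ∀ x,
      kDn g l t (N + r + l.length * k) x = kDn g l t (N + r) x ∨
      (B < kDn g l t (N + r + l.length * k) x ∧ B < kDn g l t (N + r) x) ∨
      (kDn g l t (N + r + l.length * k) x < -B ∧ kDn g l t (N + r) x < -B) := by
    intro t r k hr x
    rw [kDn_add]
    rcases (KSt3E hZ h1 h3 t hr).1 x with e | ⟨e1, e2⟩ | ⟨e1, e2⟩
    · left
      rw [e]
      ring
    · right; left
      have : 0 ≤ (k : ℤ) * kDn g l 0 l.length x := by positivity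
      omega
    · right; right
      have : (k : ℤ) * kDn g l 0 l.length x ≤ 0 :=
        mul_nonpos_of_nonneg_of_nonpos (by positivity) e1.le
      omega
  refine ⟨⟨fun t => (k1 t).2.1, fun t => (k1 t).2.2.1, fun t => (k1 t).2.2.2⟩, fun a b hab => ?_,
    fun s t hst P hP hd hA => ?_⟩
  · obtain ⟨n, rfl⟩ : ∃ n : ℕ, b = a + n := ⟨(b - a).toNat, by omega⟩
    have hE : cv g (E (pW l) a (a + n)) = kDn g l a n :=
      funext fun x => cv_congr g (fun y => E_Dn l a y n) x
    rw [hE]
    rcases red n with e | ⟨r, k, hr, rfl⟩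
    · exact (KSt2E hZ h1 h2 a e).1
    · intro x y hxy hx hy
      have u := (KSt2E hZ h1 h2 a (show N + r < N + l.length by omega)).1 x y hxy
      have q1 := key a r k hr x
      have q2 := key a r k hr y
      refine u ?_ ?_ <;> omega
  · obtain ⟨n, rfl⟩ : ∃ n : ℕ, t = s + 1 + n := ⟨(t - s - 1).toNat, by omega⟩
    have hL : kLw g (pW l) s (s + 1 + n) = fun y => kDn g l (s + 1) n (pW l s + y) := by
      funext y
      unfold kLw
      exact cv_congr g (fun z => E_Dn l (s + 1) z n) _
    rw [hL] at hA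
    rcases red n with e | ⟨r, k, hr, rfl⟩
    · exact (KSt2E hZ h1 h2 s e).2 P hP hd hA
    · have e1 : s + 1 + ((N + r + l.length * k : ℕ) : ℤ) = s + 1 + (N + r : ℕ) + l.length * k := by
        push_cast; ring
      rw [e1, pT_per] at hP
      rw [e1, pW_per] at hd
      exact (KSt2E hZ h1 h2 s (show N + r < N + l.length by omega)).2 P hP hd
        (satA_far (B := B) (fun y => key (s + 1) r k hr (pW l s + y)) _ _
          ((KSt3E hZ h1 h3 s hr).2 P hP) hA)

end

end LWG
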