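import Pool.Agent.LWG.Sim

/-!
# Minimal violations, for differences convolved with a kernel

`prof g A`: convolved differences of one letter `A`; `OKer g`: values in `{-1, 0, 1}`, unimodal.
`KEv g A B F`: the window from a letter `A` to a letter `B`, both included, with convolved
differences `F`, is a minimal violation of unimodality. **`kuni_all`**: without them all windows are
unimodal.
-/

namespace LWG

open LevelWords

/-- convolved differences of one letter -/
def prof (g : List ℤ) (A y : ℤ) : ℤ := cv g (dl A) y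

theorem prof_shift (g : List ℤ) (a o y : ℤ) : prof g (a + o) y = prof g o (y - a) := by
  unfold prof
  rw [← cv_shift]
  exact cv_congr g (fun z => dl_shift a o z) y

theorem prof_eq (g : List ℤ) (A y : ℤ) : prof g A y = prof g 0 (y - A) := by
  have := prof_shift g A 0 y
  rwa [add_zero] at this

/-- a kernel with small values -/
structure OKer (g : List ℤ) : Prop where
  lo : ∀ y, -1 ≤ prof g 0 y
  hi : ∀ y, prof g 0 y ≤ 1
  uni : Uni (prof g 0)

/-- The window from a letter `A` to a letter `B`, both included, with convolved differences `F`, is a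
minimal violation. -/
def KEv (g : List ℤ) (A B : ℤ) (F : ℤ → ℤ) : Prop :=
  ∃ x y, x < y ∧ F x < 0 ∧ 0 < F y ∧ (∀ z, x < z → z < y → F z = 0) ∧
    ((prof g A x = -1 ∧ F x = -1) ∨ (prof g A y = 1 ∧ F y = 1)) ∧
    ((prof g B x = -1 ∧ F x = -1) ∨ (prof g B y = 1 ∧ F y = 1))

/-- a closest violation -/
theorem exists_close {F : ℤ → ℤ} : ∀ (n : ℕ) {x y : ℤ}, y - x ≤ n → x < y → F x < 0 → 0 < F y →
    ∃ x' y', x ≤ x' ∧ x' < y' ∧ y' ≤ y ∧ F x' < 0 ∧ 0 < F y' ∧ ∀ z, x' < z → z < y' → F z = 0
  | 0, x, y, h, h1, _, _ => by omega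
  | n + 1, x, y, h, h1, h2, h3 => by
    by_cases hz : ∀ z, x < z → z < y → F z = 0
    · exact ⟨x, y, le_rfl, h1, le_rfl, h2, h3, hz⟩
    · push Not at hz
      obtain ⟨z, h4, h5, h6⟩ := hz
      push_cast at h
      rcases lt_or_gt_of_ne h6 with h7 | h7
      · obtain ⟨x', y', k1, k2, k3, k4, k5, k6⟩ := exists_close n (x := z) (by omega) h5 h7 h3
        exact ⟨x', y', by omega, k2, k3, k4, k5, k6⟩
      · obtain ⟨x', y', k1, k2, k3, k4, k5, k6⟩ := exists_close n (y := z) (by omega) h4 h2 h7
        exact ⟨x', y', k1, k2, by omega, k4, k5, k6⟩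

variable {g : List ℤ}

/-- removing a letter from a violation -/
theorem OKer.cases (K : OKer g) {A : ℤ} {f : ℤ → ℤ} (hf : Uni f) {F : ℤ → ℤ}
    (hF : ∀ y, F y = f y + prof g A y) {x y : ℤ} (hxy : x < y) (hx : F x < 0) (hy : 0 < F y) :
    (prof g A x = -1 ∧ F x = -1) ∨ (prof g A y = 1 ∧ F y = 1) := by
  have h1 := hf x y hxy
  have h2 := K.lo (x - A)
  have h3 := K.hi (y - A)
  rw [← prof_eq] at h2 h3
  have h4 := hF x
  have h5 := hF y
  by_cases h6 : f x < 0
  · have h7 := h1 h6
    right
    omega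
  · left
    omega

theorem cv_E_left (W : ℤ → ℤ) (a b y : ℤ) :
    cv g (E W a b) y = cv g (E W (a + 1) b) y + prof g (W a) y := by
  unfold prof
  rw [← cv_add]
  exact cv_congr g (fun z => by rw [E_left]; ring) y

theorem cv_E_right (W : ℤ → ℤ) (a b y : ℤ) :
    cv g (E W a (b + 1)) y = cv g (E W a b) y + prof g (W b) y := by
  unfold prof
  rw [← cv_add]
  exact cv_congr g (fun z => by rw [E_right]) y

/-- **all windows are unimodal, if there is no minimal violation** -/
theorem kuni_all (K : OKer g) {W : ℤ → ℤ}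
    (h : ∀ s e, s < e → ¬ KEv g (W s) (W e) (cv g (E W s (e + 1)))) :
    ∀ (n : ℕ) (a b : ℤ), b - a = n → Uni (cv g (E W a b)) := by
  intro n
  induction n using Nat.strong_induction_on with
  | _ n ih =>
  intro a b hab x y hxy hx hy
  rcases n with _ | _ | n
  · have : b = a := by omega
    subst this
    have h0 : cv g (E W b b) x = 0 := by
      rw [cv_congr g (fun z => E_self W b z)]
      exact cv_zero g x
    omega
  · have hb : b = a + 1 := by omega
    subst hb
    have h0 : ∀ z, cv g (E W (a + 1) (a + 1)) z = 0 := fun z => by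
      rw [cv_congr g (fun z => E_self W (a + 1) z)]
      exact cv_zero g z
    rw [cv_E_left, h0, prof_eq] at hx hy
    exact K.uni (x - W a) (y - W a) (by omega) (by simpa using hx) (by simpa using hy)
  · obtain ⟨e, rfl⟩ : ∃ e, b = e + 1 := ⟨b - 1, by omega⟩
    obtain ⟨x', y', -, h1, -, h2, h3, h4⟩ :=
      exists_close (y - x).toNat (by omega) hxy hx hy
    have kA := ih (n + 1) (by omega) (a + 1) (e + 1) (by omega)
    have kB := ih (n + 1) (by omega) a e (by omega)
    refine h a e (by omega) ⟨x', y', h1, h2, h3, h4, ?_, ?_⟩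
    · exact K.cases kA (fun z => cv_E_left W a (e + 1) z) h1 h2 h3
    · exact K.cases kB (fun z => cv_E_right W a e z) h1 h2 h3

end LWG
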