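import Pool.Agent.LWG.KNearE
import Pool.Agent.LWG.KShortE

/-!
# Keyed cells

A cell (a forbidden box, two letters with their noise) asks for the impossibility of entries for
`Co.comb D`: the box minus the noise. These entries, their place, the types and the distance are one
natural number, the key, which is computed with a few operations from packed data. The keys of all
boxes which have been refuted are the leaves of a tree.

* `Rc`, `Rc.key`, **`Rc.key_inj`**; `KT`, `KT.find`, `KT.toL`;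
* `LN`, `AK`, `uA`, `wB`, **`dif_eq`**, **`key_eq`**: the number which a cell computes.
-/

set_option autoImplicit false

namespace LWG

/-- parameters: values are below `2 ^ u`, digits have `u + 2` bits; scale `b`; `H` bounds the noise;
biases `B` (entries), `O` (offsets, a multiple of `b`), `E` (edges), `D` (distances); `M` bounds
offset plus `O`; `N` edges -/
structure KQ where
  u : ℕ
  b : ℕ
  H : ℕ
  B : ℕ
  O : ℕ
  E : ℕ
  D : ℕ
  M : ℕ
  N : ℕ

/-- bits of a digit -/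
def KQ.w (q : KQ) : ℕ := q.u + 2

/-- entries `t` at the fine edges `g, g + 1, ...`, for coarse letters of the types `c`, `c'` at the
distance `d` -/
structure Rc where
  c : ℕ
  c' : ℕ
  d : ℤ
  g : ℤ
  t : List En

/-- the digit of an entry -/
def eD (q : KQ) : En → ℕ
  | .ex n => (n + q.B).toNat
  | .ge n => (n + q.B).toNat + 2 ^ q.u
  | .le n => (n + q.B).toNat + 2 * 2 ^ q.u
  | .un => 3 * 2 ^ q.u

/-- the header -/
def Rc.hdr (q : KQ) (r : Rc) : ℕ := r.c + 2 ^ q.w * (r.c' + 2 ^ q.w * ((r.d + q.D).toNat +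
  2 ^ q.w * ((r.g + q.O + q.E).toNat + 2 ^ q.w * r.t.length)))

/-- the key -/
def Rc.key (q : KQ) (r : Rc) : ℕ := r.hdr q + 2 ^ (5 * q.w) * pkL q.w (r.t.map (eD q))

/-- the constant of the entry is in the range -/
def En.rg (q : KQ) : En → Bool
  | .ex n => decide (0 ≤ n + q.B) && decide (n + q.B < 2 ^ q.u)
  | .ge n => decide (0 ≤ n + q.B) && decide (n + q.B < 2 ^ q.u)
  | .le n => decide (0 ≤ n + q.B) && decide (n + q.B < 2 ^ q.u)
  | .un => true

/-- everything is in the range -/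
def Rc.rg (q : KQ) (r : Rc) : Bool :=
  Nat.blt r.c (2 ^ q.w) && Nat.blt r.c' (2 ^ q.w) && decide (0 ≤ r.d + q.D) &&
    decide (r.d + q.D < 2 ^ q.w) && decide (0 ≤ r.g + q.O + q.E) &&
    decide (r.g + q.O + q.E < 2 ^ q.w) && Nat.blt r.t.length (2 ^ q.w) && r.t.all (En.rg q)

theorem eD_lt {q : KQ} {e : En} (h : e.rg q = true) : eD q e < 2 ^ q.w := by
  have e1 : 2 ^ q.w = 4 * 2 ^ q.u := by
    unfold KQ.w
    rw [pow_add]
    ring
  have e2 : ((2 ^ q.u : ℕ) : ℤ) = 2 ^ q.u := by push_cast; rfl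
  have e3 := Nat.two_pow_pos q.u
  rcases e with n | n | n | _ <;> simp only [eD] <;>
    simp only [En.rg, Bool.and_eq_true, decide_eq_true_eq] at h <;> omega

theorem eD_inj {q : KQ} {e e' : En} (h : e.rg q = true) (h' : e'.rg q = true)
    (he : eD q e = eD q e') : e = e' := by
  have e2 : ((2 ^ q.u : ℕ) : ℤ) = 2 ^ q.u := by push_cast; rfl
  have e3 := Nat.two_pow_pos q.u
  rcases e with n | n | n | _ <;> rcases e' with m | m | m | _ <;> simp only [eD] at he <;>
    simp only [En.rg, Bool.and_eq_true, decide_eq_true_eq] at h h' <;>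
    first
      | rfl
      | (exfalso; omega)
      | (have : n = m := by omega
         rw [this])

theorem split_inj {M a a' x x' : ℕ} (ha : a < M) (ha' : a' < M) (h : a + M * x = a' + M * x') :
    a = a' ∧ x = x' := by
  have hM : 0 < M := by omega
  have h1 : (a + M * x) % M = (a' + M * x') % M := by rw [h]
  rw [Nat.add_mul_mod_self_left, Nat.add_mul_mod_self_left, Nat.mod_eq_of_lt ha,
    Nat.mod_eq_of_lt ha'] at h1
  refine ⟨h1, ?_⟩
  subst h1
  exact Nat.eq_of_mul_eq_mul_left hM (by omega)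

theorem pkL_inj {K : ℕ} : ∀ {l l' : List ℕ}, l.length = l'.length → (∀ x ∈ l, x < 2 ^ K) →
    (∀ x ∈ l', x < 2 ^ K) → pkL K l = pkL K l' → l = l'
  | [], [], _, _, _, _ => rfl
  | [], _ :: _, h, _, _, _ => by simp at h
  | _ :: _, [], h, _, _, _ => by simp at h
  | a :: l, a' :: l', h, h1, h2, h3 => by
    have e : ∀ (x : ℕ) (m : List ℕ), pkL K (x :: m) = x + 2 ^ K * pkL K m := fun x m => by
      change x + pkL K m <<< K = _
      rw [Nat.shiftLeft_eq, mul_comm]
    rw [e, e] at h3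
    obtain ⟨k1, k2⟩ := split_inj (h1 a (by simp)) (h2 a' (by simp)) h3
    rw [k1, pkL_inj (by simpa using h) (fun x hx => h1 x (by simp [hx]))
      (fun x hx => h2 x (by simp [hx])) k2]

theorem hdr_lt {q : KQ} {r : Rc} (h : r.rg q = true) : r.hdr q < 2 ^ (5 * q.w) := by
  unfold Rc.rg at h
  simp only [Bool.and_eq_true, decide_eq_true_eq, Nat.blt_eq] at h
  obtain ⟨⟨⟨⟨⟨⟨⟨h1, h2⟩, h3⟩, h4⟩, h5⟩, h6⟩, h7⟩, -⟩ := h
  have e2 : ((2 ^ q.w : ℕ) : ℤ) = 2 ^ q.w := by push_cast; rfl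
  have step : ∀ {a x : ℕ} (k : ℕ), a < 2 ^ q.w → x < 2 ^ (k * q.w) →
      a + 2 ^ q.w * x < 2 ^ ((k + 1) * q.w) := fun {a x} k ha hx => by
    have : 2 ^ q.w * (x + 1) ≤ 2 ^ q.w * 2 ^ (k * q.w) := Nat.mul_le_mul_left _ hx
    rw [← pow_add, show q.w + k * q.w = (k + 1) * q.w by ring] at this
    rw [Nat.mul_succ] at this
    omega
  unfold Rc.hdr
  refine step 4 h1 (step 3 h2 (step 2 (by omega) (step 1 (by omega) ?_)))
  rwa [one_mul]

theorem Rc.key_inj {q : KQ} {r r' : Rc} (h : r.rg q = true) (h' : r'.rg q = true)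
    (hk : r.key q = r'.key q) : r = r' := by
  unfold Rc.key at hk
  obtain ⟨k1, k2⟩ := split_inj (hdr_lt h) (hdr_lt h') hk
  have e2 : ((2 ^ q.w : ℕ) : ℤ) = 2 ^ q.w := by push_cast; rfl
  unfold Rc.rg at h h'
  simp only [Bool.and_eq_true, decide_eq_true_eq, Nat.blt_eq, List.all_eq_true] at h h'
  obtain ⟨⟨⟨⟨⟨⟨⟨h1, h2⟩, h3⟩, h4⟩, h5⟩, h6⟩, h7⟩, h8⟩ := h
  obtain ⟨⟨⟨⟨⟨⟨⟨g1, g2⟩, g3⟩, g4⟩, g5⟩, g6⟩, g7⟩, g8⟩ := h'
  unfold Rc.hdr at k1
  obtain ⟨a1, k1⟩ := split_inj h1 g1 k1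
  obtain ⟨a2, k1⟩ := split_inj h2 g2 k1
  obtain ⟨a3, k1⟩ := split_inj (by omega) (by omega) k1
  obtain ⟨a4, k1⟩ := split_inj (by omega) (by omega) k1
  have a5 : r.t.length = r'.t.length := Nat.eq_of_mul_eq_mul_left (Nat.two_pow_pos q.w)
    (by omega) |> fun h => h
  have a6 := pkL_inj (by rw [List.length_map, List.length_map, a5]) (fun x hx => by
    obtain ⟨e, he, rfl⟩ := List.mem_map.1 hx
    exact eD_lt (h8 e he)) (fun x hx => by
    obtain ⟨e, he, rfl⟩ := List.mem_map.1 hx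
    exact eD_lt (g8 e he)) k2
  have a7 : r.t = r'.t := by
    refine List.ext_getElem a5 fun i hi hi' => ?_
    have : (r.t.map (eD q))[i]'(by simpa using hi) = (r'.t.map (eD q))[i]'(by simpa using hi') := by
      simp only [a6]
    rw [List.getElem_map, List.getElem_map] at this
    exact eD_inj (h8 _ (List.getElem_mem hi)) (g8 _ (List.getElem_mem hi')) this
  obtain ⟨c, c', d, g, t⟩ := r
  obtain ⟨c1, c1', d1, g1', t1⟩ := r'
  simp only at a1 a2 a3 a4 a7 h3 h5 g3 g5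
  subst a1 a2 a7
  have b1 : d = d1 := by omega
  have b2 : g = g1' := by omega
  rw [b1, b2]

/-! ## The tree of keys -/

inductive KT where
  | leaf (k : ℕ)
  | node (k : ℕ) (l r : KT)

/-- the number `x` is a leaf -/
noncomputable def KT.find (x : ℕ) : KT → Bool :=
  KT.rec (motive := fun _ => Bool) (fun k => Nat.beq x k)
    (fun k _ _ hl hr => Bool.rec (motive := fun _ => Bool) hr hl (Nat.ble x k))

/-- the leaves -/
def KT.toL : KT → List ℕ
  | .leaf k => [k]
  | .node _ l r => l.toL ++ r.toL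

theorem KT.find_sound {x : ℕ} : ∀ {T : KT}, T.find x = true → x ∈ T.toL
  | .leaf k, h => by
    have h1 : Nat.beq x k = true := h
    rw [Nat.eq_of_beq_eq_true h1]
    simp [KT.toL]
  | .node k l r, h => by
    have e : (KT.node k l r).find x = Bool.rec (motive := fun _ => Bool) (r.find x) (l.find x)
      (Nat.ble x k) := rfl
    rw [e] at h
    unfold KT.toL
    rw [List.mem_append]
    rcases h1 : Nat.ble x k with _ | _
    · rw [h1] at h
      exact Or.inr (find_sound h)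
    · rw [h1] at h
      exact Or.inl (find_sound h)

/-! ## What a cell computes -/

/-- a letter: type of its block, offset plus `O`, packed noise (plus `H`) on the edges from
`-(O + E)` on -/
structure LN where
  c : ℕ
  o : ℕ
  x : ℕ

/-- packed noise -/
def pkN (q : KQ) (n0 : ℤ) (v : List ℤ) : ℕ := pkL q.w ((List.range q.N).map fun (k : ℕ) =>
  (nz n0 v ((k : ℤ) - q.O - q.E) + q.H).toNat)

/-- a box: distance plus `b * D`, first edge relative to the first letter plus `E`, the same relative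
to the second letter, length, packed constants, mask -/
structure AK where
  d : ℕ
  e : ℕ
  i : ℕ
  l : ℕ
  v : ℕ
  m : ℕ

/-- the digit of an entry, before the noise is subtracted -/
def vD (q : KQ) : En → ℕ
  | .ex n => (n + q.B + 2 * q.H).toNat
  | .ge n => (n + q.B + 2 * q.H).toNat + 2 ^ q.u
  | .le n => (n + q.B + 2 * q.H).toNat + 2 * 2 ^ q.u
  | .un => 3 * 2 ^ q.u + 4 * q.H

/-- the mask of an entry -/
def mD (q : KQ) : En → ℕ
  | .un => 3 * 2 ^ q.u
  | _ => 2 ^ q.w - 1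

/-- the packed form of a box -/
def akOf (q : KQ) (P : PatE) : AK :=
  ⟨(P.d + q.b * q.D).toNat, (P.e + q.E).toNat, (P.e - P.d + q.E).toNat, P.v.length,
    pkL q.w (P.v.map (vD q)),
    Nat.add (Nat.shiftLeft (pkL q.w (P.v.map (mD q))) (Nat.mul 5 q.w))
      (Nat.sub (Nat.pow 2 (Nat.mul 5 q.w)) 1)⟩

/-- the contribution of the first letter -/
def uA (q : KQ) (a : AK) (A : LN) : ℕ :=
  Nat.add (Nat.shiftLeft (Nat.sub a.v (Nat.mod (Nat.shiftRight A.x (Nat.mul q.w (Nat.add A.o a.e)))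
    (Nat.pow 2 (Nat.mul q.w a.l)))) (Nat.mul 5 q.w))
    (Nat.add A.c (Nat.shiftLeft (Nat.add (Nat.div (Nat.add a.d A.o) q.b)
      (Nat.shiftLeft (Nat.add (Nat.add A.o a.e) (Nat.shiftLeft a.l q.w)) q.w)) (Nat.mul 2 q.w)))

/-- the contribution of the second letter -/
def wB (q : KQ) (a : AK) (B : LN) : ℕ :=
  Nat.add (Nat.shiftLeft (Nat.mod (Nat.shiftRight B.x (Nat.mul q.w (Nat.add a.i B.o)))
    (Nat.pow 2 (Nat.mul q.w a.l))) (Nat.mul 5 q.w))
    (Nat.sub (Nat.shiftLeft (Nat.div B.o q.b) (Nat.mul 2 q.w)) (Nat.shiftLeft B.c q.w))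

/-- targets -/
def tgF (nf : ℤ → ℤ) : List En → ℤ → List En
  | [], _ => []
  | e :: v, g => e.sub (nf g) :: tgF nf v (g + 1)

theorem tgF_length (nf : ℤ → ℤ) : ∀ (v : List En) (g : ℤ), (tgF nf v g).length = v.length
  | [], _ => rfl
  | _ :: v, g => by
    unfold tgF
    rw [List.length_cons, List.length_cons, tgF_length nf v (g + 1)]

theorem tgF_getD (nf : ℤ → ℤ) : ∀ (v : List En) (g : ℤ) (k : ℕ), k < v.length →
    (tgF nf v g).getD k .un = (v.getD k .un).sub (nf (g + k))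
  | [], _, k, h => by simp at h
  | e :: v, g, 0, _ => by
    unfold tgF
    rw [List.getD_cons_zero, List.getD_cons_zero, Nat.cast_zero, add_zero]
  | e :: v, g, k + 1, h => by
    unfold tgF
    rw [List.getD_cons_succ, List.getD_cons_succ, tgF_getD nf v (g + 1) k (by simpa using h),
      show g + 1 + (k : ℤ) = g + ((k + 1 : ℕ) : ℤ) by push_cast; ring]

theorem tgF_sat {F nf cf : ℤ → ℤ} (hF : ∀ z, F z = nf z + cf z) : ∀ (v : List En) {g : ℤ},
    SatA F g v → SatA cf g (tgF nf v g)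
  | [], _, _ => trivial
  | e :: v, g, h => ⟨En.sub_sat (by
      have := h.1
      rw [hF] at this
      rwa [add_comm]), tgF_sat hF v h.2⟩

theorem getD_mapE {α : Type} (f : En → α) (a : α) : ∀ (l : List En) (k : ℕ), k < l.length →
    (l.map f).getD k a = f (l.getD k .un)
  | [], k, h => by simp at h
  | _ :: _, 0, _ => rfl
  | _ :: l, k + 1, h => by
    rw [List.map_cons, List.getD_cons_succ, List.getD_cons_succ]
    exact getD_mapE f a l k (by simpa using h)

/-- the constant stays in the range when noise is subtracted -/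
def En.rg2 (q : KQ) : En → Bool
  | .ex n => decide (2 * q.H ≤ n + q.B) && decide (n + q.B + 2 * q.H < 2 ^ q.u)
  | .ge n => decide (2 * q.H ≤ n + q.B) && decide (n + q.B + 2 * q.H < 2 ^ q.u)
  | .le n => decide (2 * q.H ≤ n + q.B) && decide (n + q.B + 2 * q.H < 2 ^ q.u)
  | .un => true

theorem land_low {m h y z : ℕ} (hh : h < 2 ^ m) :
    (h + 2 ^ m * y) &&& (z <<< m + (2 ^ m - 1)) = h + 2 ^ m * (y &&& z) := by
  have e1 : h + 2 ^ m * y = y <<< m ||| h := by
    rw [← Nat.shiftLeft_add_eq_or_of_lt hh, Nat.shiftLeft_eq]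
    ring
  have e2 : z <<< m + (2 ^ m - 1) = z <<< m ||| (2 ^ m - 1) :=
    Nat.shiftLeft_add_eq_or_of_lt (by have := Nat.two_pow_pos m; omega) z
  have e3 : h + 2 ^ m * (y &&& z) = (y &&& z) <<< m ||| h := by
    rw [← Nat.shiftLeft_add_eq_or_of_lt hh, Nat.shiftLeft_eq]
    ring
  rw [e1, e2, e3]
  refine Nat.eq_of_testBit_eq fun i => ?_
  simp only [Nat.testBit_and, Nat.testBit_or, Nat.testBit_shiftLeft, Nat.testBit_two_pow_sub_one]
  by_cases hi : i < m
  · simp [hi, show ¬ m ≤ i by omega]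
  · have h1 : h.testBit i = false := Nat.testBit_lt_two_pow (lt_of_lt_of_le hh
      (Nat.pow_le_pow_right (by norm_num) (by omega)))
    simp [hi, show m ≤ i by omega, h1]

/-- the digit of the difference -/
theorem dig_eq {q : KQ} {e : En} {a b : ℤ} (he : e.rg2 q = true) (hH : 4 * q.H < 2 ^ q.u)
    (ha : |a| ≤ q.H) (hb : |b| ≤ q.H) :
    (a + q.H).toNat + (b + q.H).toNat ≤ vD q e ∧
    vD q e - (a + q.H).toNat - (b + q.H).toNat < 2 ^ q.w ∧
    (vD q e - (a + q.H).toNat - (b + q.H).toNat) &&& mD q e = eD q (e.sub (a + b)) ∧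
    (e.sub (a + b)).rg q = true := by
  have e1 : 2 ^ q.w = 4 * 2 ^ q.u := by
    unfold KQ.w
    rw [pow_add]
    ring
  have e2 : ((2 ^ q.u : ℕ) : ℤ) = 2 ^ q.u := by push_cast; rfl
  have e3 := Nat.two_pow_pos q.u
  have a1 := abs_le.1 ha
  have b1 := abs_le.1 hb
  have msk : ∀ x < 2 ^ q.w, x &&& (2 ^ q.w - 1) = x := fun x hx => by
    rw [Nat.and_two_pow_sub_one_eq_mod, Nat.mod_eq_of_lt hx]
  rcases e with n | n | n | _
  · simp only [En.rg2, Bool.and_eq_true, decide_eq_true_eq] at he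
    simp only [vD]
    refine ⟨by omega, by omega, ?_, ?_⟩
    · have : mD q (.ex n) = 2 ^ q.w - 1 := rfl
      rw [this, msk _ (by omega)]
      simp only [En.sub, eD]
      omega
    · simp only [En.sub, En.rg, Bool.and_eq_true, decide_eq_true_eq]
      omega
  · simp only [En.rg2, Bool.and_eq_true, decide_eq_true_eq] at he
    simp only [vD]
    refine ⟨by omega, by omega, ?_, ?_⟩
    · have : mD q (.ge n) = 2 ^ q.w - 1 := rfl
      rw [this, msk _ (by omega)]
      simp only [En.sub, eD]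
      omega
    · simp only [En.sub, En.rg, Bool.and_eq_true, decide_eq_true_eq]
      omega
  · simp only [En.rg2, Bool.and_eq_true, decide_eq_true_eq] at he
    simp only [vD]
    refine ⟨by omega, by omega, ?_, ?_⟩
    · have : mD q (.le n) = 2 ^ q.w - 1 := rfl
      rw [this, msk _ (by omega)]
      simp only [En.sub, eD]
      omega
    · simp only [En.sub, En.rg, Bool.and_eq_true, decide_eq_true_eq]
      omega
  · simp only [vD]
    refine ⟨by omega, by omega, ?_, rfl⟩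
    have e4 : mD q .un = 3 * 2 ^ q.u := rfl
    have e5 : eD q (En.un.sub (a + b)) = 3 * 2 ^ q.u := rfl
    rw [e4, e5]
    obtain ⟨x, hx, hx'⟩ : ∃ x, x < 2 ^ q.u ∧
        3 * 2 ^ q.u + 4 * q.H - (a + q.H).toNat - (b + q.H).toNat = x + 2 ^ q.u * 3 :=
      ⟨4 * q.H - (a + q.H).toNat - (b + q.H).toNat, by omega, by omega⟩
    rw [hx']
    have e6 : x + 2 ^ q.u * 3 = 3 <<< q.u ||| x := by
      rw [← Nat.shiftLeft_add_eq_or_of_lt hx, Nat.shiftLeft_eq]
      ring
    have e7 : 3 * 2 ^ q.u = 3 <<< q.u := by rw [Nat.shiftLeft_eq]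
    rw [e6, e7]
    refine Nat.eq_of_testBit_eq fun i => ?_
    simp only [Nat.testBit_and, Nat.testBit_or, Nat.testBit_shiftLeft]
    by_cases hi : q.u ≤ i
    · simp only [hi, decide_true, Bool.true_and]
      rcases Nat.testBit 3 (i - q.u) with _ | _ <;> simp
    · simp [hi]

/-- the box is in the range -/
def PatE.rg (q : KQ) (P : PatE) : Bool :=
  decide (0 ≤ P.d + q.b * q.D) && decide (0 ≤ P.e + q.E) && decide (0 ≤ P.e - P.d + q.E) &&
    P.v.all (En.rg2 q)

/-- general conditions -/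
def KQ.ok (q : KQ) : Bool :=
  Nat.blt 0 q.b && Nat.beq (Nat.mod q.O q.b) 0 && Nat.blt (4 * q.H) (2 ^ q.u) &&
    Nat.blt q.N (2 ^ q.w)

/-- the letter is in the range -/
def LN.rg (q : KQ) (A : LN) : Bool :=
  Nat.blt A.c (Nat.pow 2 q.w) && Nat.ble q.b A.o && Nat.ble A.o q.M

/-- the box stays in the range, for all letters -/
def AK.fit (q : KQ) (a : AK) : Bool :=
  Nat.ble (Nat.add (Nat.add q.M a.e) a.l) q.N && Nat.ble (Nat.add (Nat.add a.i q.M) a.l) q.N

/-- **the digits which a cell computes** -/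
theorem dif_eq {q : KQ} (hH : 4 * q.H < 2 ^ q.u) {P : PatE} (hP : P.rg q = true)
    {o o' d : ℤ} {nA nB : ℤ → ℤ} {A B : LN} (ho : A.o = o + q.O) (ho' : B.o = o' + q.O)
    (hA : A.rg q = true) (hB : B.rg q = true)
    (xA : A.x = pf q.w q.N fun (k : ℕ) => (nA ((k : ℤ) - q.O - q.E) + q.H).toNat)
    (xB : B.x = pf q.w q.N fun (k : ℕ) => (nB ((k : ℤ) - q.O - q.E) + q.H).toNat)
    (bA : ∀ z, |nA z| ≤ q.H) (bB : ∀ z, |nB z| ≤ q.H) (hd : P.d = q.b * d + o' - o)
    (hfit : (akOf q P).fit q = true) :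
    ∃ x, pkL q.w (P.v.map (vD q)) =
        x + (B.x >>> (q.w * ((P.e - P.d + q.E).toNat + B.o))) % 2 ^ (q.w * P.v.length) +
          (A.x >>> (q.w * (A.o + (P.e + q.E).toNat))) % 2 ^ (q.w * P.v.length) ∧
      x &&& pkL q.w (P.v.map (mD q)) =
        pkL q.w ((tgF (fun z => nA z + nB (z - q.b * d)) P.v (o + P.e)).map (eD q)) ∧
      ∀ e ∈ tgF (fun z => nA z + nB (z - q.b * d)) P.v (o + P.e), e.rg q = true := by
  unfold PatE.rg at hP
  simp only [Bool.and_eq_true, decide_eq_true_eq, List.all_eq_true] at hP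
  obtain ⟨⟨⟨p1, p2⟩, p3⟩, p4⟩ := hP
  unfold LN.rg at hA hB
  simp only [Bool.and_eq_true, Nat.blt_eq, Nat.ble_eq] at hA hB
  obtain ⟨⟨a1, a2⟩, a3⟩ := hA
  obtain ⟨⟨b1, b2⟩, b3⟩ := hB
  unfold AK.fit at hfit
  simp only [Bool.and_eq_true, Nat.ble_eq] at hfit
  obtain ⟨f1, f2⟩ := hfit
  have f1 : q.M + (P.e + q.E).toNat + P.v.length ≤ q.N := f1
  have f2 : (P.e - P.d + q.E).toNat + q.M + P.v.length ≤ q.N := f2
  have f1 : A.o + (P.e + q.E).toNat + P.v.length ≤ q.N := by omega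
  have f2 : (P.e - P.d + q.E).toNat + B.o + P.v.length ≤ q.N := by omega
  have w1 : 2 ^ q.w = 4 * 2 ^ q.u := by
    unfold KQ.w
    rw [pow_add]
    ring
  have w3 := Nat.two_pow_pos q.u
  have hbH : ∀ (f : ℤ → ℤ), (∀ z, |f z| ≤ q.H) → ∀ z, (f z + q.H).toNat < 2 ^ q.w := fun f hf z => by
    have := abs_le.1 (hf z)
    omega
  obtain ⟨l, hl⟩ : ∃ l, l = P.v.length := ⟨_, rfl⟩
  obtain ⟨v, hv⟩ : ∃ v : ℕ → En, v = fun k => P.v.getD k .un := ⟨_, rfl⟩
  have hvr : ∀ k < l, (v k).rg2 q = true := fun k hk => by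
    rw [hv]
    simp only
    rw [List.getD_eq_getElem?_getD, List.getElem?_eq_getElem (by omega), Option.getD_some]
    exact p4 _ (List.getElem_mem _)
  have eA : (A.x >>> (q.w * (A.o + (P.e + q.E).toNat))) % 2 ^ (q.w * P.v.length) =
      pf q.w l fun k => (nA (o + P.e + k) + q.H).toNat := by
    rw [Nat.shiftRight_eq_div_pow, xA, pf_digits (fun k _ => hbH nA bA _) f1, ← hl]
    refine pf_congr fun k _ => ?_
    rw [show (((A.o + (P.e + q.E).toNat + k : ℕ)) : ℤ) - q.O - q.E = o + P.e + k by omega]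
  have eB : (B.x >>> (q.w * ((P.e - P.d + q.E).toNat + B.o))) % 2 ^ (q.w * P.v.length) =
      pf q.w l fun k => (nB (o + P.e + k - q.b * d) + q.H).toNat := by
    rw [Nat.shiftRight_eq_div_pow, xB, pf_digits (fun k _ => hbH nB bB _) f2, ← hl]
    refine pf_congr fun k _ => ?_
    rw [show ((((P.e - P.d + q.E).toNat + B.o + k : ℕ)) : ℤ) - q.O - q.E =
      o + P.e + k - q.b * d by omega]
  have eV : pkL q.w (P.v.map (vD q)) = pf q.w l fun k => vD q (v k) := by
    rw [pkL_eq, List.length_map, ← hl]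
    refine pf_congr fun k hk => ?_
    rw [getD_mapE _ _ _ _ (by omega), hv]
  have dg := fun k (hk : k < l) => dig_eq (hvr k hk) hH (bA (o + P.e + k))
    (bB (o + P.e + k - q.b * d))
  obtain ⟨x, hx⟩ : ∃ x : ℕ → ℕ, x = fun k => vD q (v k) - (nA (o + P.e + k) + q.H).toNat -
    (nB (o + P.e + k - q.b * d) + q.H).toNat := ⟨_, rfl⟩
  refine ⟨pf q.w l x, ?_, ?_, ?_⟩
  · rw [eV, eA, eB, ← pf_add, ← pf_add]
    refine pf_congr fun k hk => ?_
    have := (dg k hk).1
    rw [hx]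
    simp only
    omega
  · have h1 := pf_land (K := q.w) (N := l) (s := 0) (w := l) (f := x) (m := fun k => mD q (v k))
      (by unfold KQ.w; omega) (fun k hk => by rw [hx]; exact (dg k hk).2.1) (fun k _ => by
        rcases v k with n | n | n | _ <;> simp only [mD] <;> omega) (by omega)
    have h2 : pkL q.w (P.v.map (mD q)) = pf q.w l fun k => mD q (v k) := by
      rw [pkL_eq, List.length_map, ← hl]
      refine pf_congr fun k hk => ?_
      rw [getD_mapE _ _ _ _ (by omega), hv]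
    rw [h2]
    rw [Nat.mul_zero, Nat.shiftRight_zero] at h1
    rw [h1, pkL_eq, List.length_map, tgF_length, ← hl]
    refine pf_congr fun k hk => ?_
    rw [zero_add, getD_mapE _ _ _ _ (by rw [tgF_length]; omega), tgF_getD _ _ _ _ (by omega), hx]
    have := (dg k hk).2.2.1
    rw [hv] at this ⊢
    exact this
  · intro e he
    obtain ⟨k, hk, rfl⟩ := List.getElem_of_mem he
    rw [tgF_length] at hk
    have h1 := tgF_getD (fun z => nA z + nB (z - q.b * d)) P.v (o + P.e) k hk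
    rw [List.getD_eq_getElem?_getD, List.getElem?_eq_getElem (by rw [tgF_length]; exact hk),
      Option.getD_some] at h1
    rw [h1]
    have := (dg k (by omega)).2.2.2
    rw [hv] at this
    exact this

/-- **the number which a cell computes is a key** -/
theorem key_eq {q : KQ} (hq : q.ok = true) {P : PatE} (hP : P.rg q = true) {c c' : ℕ}
    {o o' d : ℤ} {nA nB : ℤ → ℤ} {A B : LN} (hc : A.c = c) (hc' : B.c = c') (ho : A.o = o + q.O)
    (ho' : B.o = o' + q.O) (hA : A.rg q = true) (hB : B.rg q = true)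
    (xA : A.x = pf q.w q.N fun (k : ℕ) => (nA ((k : ℤ) - q.O - q.E) + q.H).toNat)
    (xB : B.x = pf q.w q.N fun (k : ℕ) => (nB ((k : ℤ) - q.O - q.E) + q.H).toNat)
    (bA : ∀ z, |nA z| ≤ q.H) (bB : ∀ z, |nB z| ≤ q.H) (hd : P.d = q.b * d + o' - o)
    (hD : 0 ≤ d + q.D) (hD' : d + q.D < 2 ^ q.w) (hfit : (akOf q P).fit q = true) :
    Nat.land (Nat.sub (uA q (akOf q P) A) (wB q (akOf q P) B)) (akOf q P).m =
      Rc.key q ⟨c, c', d, o + P.e, tgF (fun z => nA z + nB (z - q.b * d)) P.v (o + P.e)⟩ ∧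
    Rc.rg q ⟨c, c', d, o + P.e, tgF (fun z => nA z + nB (z - q.b * d)) P.v (o + P.e)⟩ = true := by
  unfold KQ.ok at hq
  simp only [Bool.and_eq_true, Nat.blt_eq] at hq
  obtain ⟨⟨⟨hb, hO⟩, hH⟩, hN⟩ := hq
  have hO : q.O % q.b = 0 := Nat.eq_of_beq_eq_true hO
  obtain ⟨x, hx1, hx2, hx3⟩ := dif_eq hH hP ho ho' hA hB xA xB bA bB hd hfit
  unfold PatE.rg at hP
  simp only [Bool.and_eq_true, decide_eq_true_eq, List.all_eq_true] at hP
  obtain ⟨⟨⟨p1, p2⟩, p3⟩, p4⟩ := hP
  unfold LN.rg at hA hB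
  simp only [Bool.and_eq_true, Nat.blt_eq, Nat.ble_eq] at hA hB
  obtain ⟨⟨a1, a2⟩, a3⟩ := hA
  obtain ⟨⟨b1, b2⟩, b3⟩ := hB
  have a1 : A.c < 2 ^ q.w := a1
  have b1 : B.c < 2 ^ q.w := b1
  unfold AK.fit at hfit
  simp only [Bool.and_eq_true, Nat.ble_eq] at hfit
  obtain ⟨f1, f2⟩ := hfit
  have f1 : q.M + (P.e + q.E).toNat + P.v.length ≤ q.N := f1
  have w2 : ((2 ^ q.w : ℕ) : ℤ) = 2 ^ q.w := by push_cast; rfl
  -- the header
  have hqd : q.b * (d + q.D).toNat + (B.o : ℤ) = (P.d + q.b * q.D) + A.o := by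
    rw [Int.toNat_of_nonneg hD, hd, ho, ho']
    ring
  have hqd' : (akOf q P).d + A.o = B.o + q.b * (d + q.D).toNat := by
    change (P.d + q.b * q.D).toNat + A.o = _
    have : (((P.d + q.b * q.D).toNat + A.o : ℕ) : ℤ) = ((B.o + q.b * (d + q.D).toNat : ℕ) : ℤ) := by
      push_cast
      rw [Int.toNat_of_nonneg p1, Int.toNat_of_nonneg hD]
      rw [Int.toNat_of_nonneg hD] at hqd
      linarith
    exact_mod_cast this
  have hdiv : Nat.div (Nat.add (akOf q P).d A.o) q.b = B.o / q.b + (d + q.D).toNat := by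
    change ((akOf q P).d + A.o) / q.b = _
    rw [hqd', Nat.add_mul_div_left _ _ hb]
  have hq1 : 1 ≤ B.o / q.b := (Nat.one_le_div_iff hb).2 b2
  obtain ⟨q', hq'⟩ : ∃ q', q' = B.o / q.b := ⟨_, rfl⟩
  have hhd : A.c + (q' + (d + q.D).toNat + (A.o + (P.e + q.E).toNat + P.v.length <<< q.w) <<< q.w)
      <<< (2 * q.w) = Rc.hdr q ⟨c, c', d, o + P.e,
        tgF (fun z => nA z + nB (z - q.b * d)) P.v (o + P.e)⟩ +
      (q' <<< (2 * q.w) - B.c <<< q.w) := by
    unfold Rc.hdr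
    simp only [tgF_length, Nat.shiftLeft_eq, hc, hc']
    have k1 : (o + P.e + q.O + q.E).toNat = A.o + (P.e + q.E).toNat := by omega
    rw [k1]
    have k2 : c' * 2 ^ q.w ≤ q' * 2 ^ (2 * q.w) := by
      have : 2 ^ (2 * q.w) = 2 ^ q.w * 2 ^ q.w := by rw [two_mul, pow_add]
      rw [this, ← mul_assoc]
      refine Nat.mul_le_mul_right _ ?_
      have k3 : 1 * 2 ^ q.w ≤ q' * 2 ^ q.w := Nat.mul_le_mul_right _ (by omega)
      omega
    have k4 : 2 ^ (2 * q.w) = 2 ^ q.w * 2 ^ q.w := by rw [two_mul, pow_add]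
    zify [k2]
    rw [show ((2 : ℤ) ^ (2 * q.w)) = 2 ^ q.w * 2 ^ q.w by rw [two_mul, pow_add]]
    ring
  have hrg : Rc.rg q ⟨c, c', d, o + P.e, tgF (fun z => nA z + nB (z - q.b * d)) P.v (o + P.e)⟩ =
      true := by
    unfold Rc.rg
    simp only [Bool.and_eq_true, decide_eq_true_eq, Nat.blt_eq, List.all_eq_true, tgF_length]
    exact ⟨⟨⟨⟨⟨⟨⟨by omega, by omega⟩, hD⟩, hD'⟩, by omega⟩, by omega⟩, by omega⟩, hx3⟩
  refine ⟨?_, hrg⟩
  have hsub : Nat.sub (uA q (akOf q P) A) (wB q (akOf q P) B) =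
      Rc.hdr q ⟨c, c', d, o + P.e, tgF (fun z => nA z + nB (z - q.b * d)) P.v (o + P.e)⟩ +
        2 ^ (5 * q.w) * x := by
    unfold uA wB
    rw [hdiv]
    change (pkL q.w (P.v.map (vD q)) -
      (A.x >>> (q.w * (A.o + (P.e + q.E).toNat))) % 2 ^ (q.w * P.v.length)) <<< (5 * q.w) + (A.c +
      (B.o / q.b + (d + q.D).toNat + (A.o + (P.e + q.E).toNat + P.v.length <<< q.w) <<< q.w)
      <<< (2 * q.w)) - (((B.x >>> (q.w * ((P.e - P.d + q.E).toNat + B.o))) %
      2 ^ (q.w * P.v.length)) <<< (5 * q.w) + ((B.o / q.b) <<< (2 * q.w) - B.c <<< q.w)) = _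
    rw [hx1, Nat.add_sub_cancel, ← hq', hhd]
    simp only [Nat.shiftLeft_eq]
    rw [Nat.add_mul]
    generalize B.x >>> (q.w * ((P.e - P.d + q.E).toNat + B.o)) % 2 ^ (q.w * P.v.length) *
      2 ^ (5 * q.w) = Y
    generalize q' * 2 ^ (2 * q.w) - B.c * 2 ^ q.w = Z
    rw [mul_comm (2 ^ (5 * q.w))]
    omega
  rw [hsub]
  have hm : (akOf q P).m = (pkL q.w (P.v.map (mD q))) <<< (5 * q.w) + (2 ^ (5 * q.w) - 1) := rfl
  rw [hm]
  refine (land_low (hdr_lt hrg)).trans ?_
  rw [hx2]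
  rfl

end LWG
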