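import Mathlib.Tactic

/-!
# Integer and list operations which are fast in the kernel

Everything is written with recursors; arithmetic happens on natural numbers. A kernel reduction of
`addZ` costs a quarter of one of `Int.add`.
-/

namespace LWG

/-- `a - b` -/
noncomputable def snn (a b : ℕ) : ℤ :=
  Bool.rec (motive := fun _ => ℤ) (Int.negSucc (Nat.pred (Nat.sub b a))) (Int.ofNat (Nat.sub a b))
    (Nat.ble b a)

theorem snn_eq (a b : ℕ) : snn a b = (a : ℤ) - b := by
  unfold snn
  rcases h : Nat.ble b a with _ | _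
  · have h' : a < b := by
      by_contra hc
      rw [← Bool.not_eq_true, Nat.ble_eq] at h
      omega
    change Int.negSucc (Nat.pred (b - a)) = _
    rw [Int.negSucc_eq, Nat.pred_eq_sub_one]
    omega
  · have h' : b ≤ a := by rwa [Nat.ble_eq] at h
    change ((a - b : ℕ) : ℤ) = _
    omega

/-- `x + y` -/
noncomputable def addZ (x y : ℤ) : ℤ := Int.rec (motive := fun _ => ℤ)
  (fun a => Int.rec (motive := fun _ => ℤ) (fun b => Int.ofNat (Nat.add a b))
    (fun b => snn a (Nat.succ b)) y)
  (fun a => Int.rec (motive := fun _ => ℤ) (fun b => snn b (Nat.succ a))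
    (fun b => Int.negSucc (Nat.succ (Nat.add a b))) y) x

theorem addZ_eq (x y : ℤ) : addZ x y = x + y := by
  rcases x with a | a <;> rcases y with b | b
  · rfl
  · change snn a (b + 1) = _
    rw [snn_eq]
    change (a : ℤ) - ((b + 1 : ℕ) : ℤ) = (a : ℤ) + Int.negSucc b
    rw [Int.negSucc_eq]
    push_cast
    ring
  · change snn b (a + 1) = _
    rw [snn_eq]
    change (b : ℤ) - ((a + 1 : ℕ) : ℤ) = Int.negSucc a + (b : ℤ)
    rw [Int.negSucc_eq]
    push_cast
    ring
  · rfl

/-- `x - y` -/
noncomputable def subZ (x y : ℤ) : ℤ := Int.rec (motive := fun _ => ℤ)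
  (fun a => Int.rec (motive := fun _ => ℤ) (fun b => snn a b)
    (fun b => Int.ofNat (Nat.succ (Nat.add a b))) y)
  (fun a => Int.rec (motive := fun _ => ℤ) (fun b => Int.negSucc (Nat.add a b))
    (fun b => snn b a) y) x

theorem subZ_eq (x y : ℤ) : subZ x y = x - y := by
  rcases x with a | a <;> rcases y with b | b
  · change snn a b = _
    rw [snn_eq]
    rfl
  · change ((a + b + 1 : ℕ) : ℤ) = (a : ℤ) - Int.negSucc b
    rw [Int.negSucc_eq]
    push_cast
    ring
  · change Int.negSucc (a + b) = Int.negSucc a - (b : ℤ)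
    rw [Int.negSucc_eq, Int.negSucc_eq]
    push_cast
    ring
  · change snn b a = _
    rw [snn_eq]
    rw [Int.negSucc_eq, Int.negSucc_eq]
    ring

/-- `- x` -/
noncomputable def ngZ (x : ℤ) : ℤ := Int.rec (motive := fun _ => ℤ) (fun a => snn 0 a)
  (fun a => Int.ofNat (Nat.succ a)) x

theorem ngZ_eq (x : ℤ) : ngZ x = -x := by
  rcases x with a | a
  · change snn 0 a = _
    rw [snn_eq]
    change ((0 : ℕ) : ℤ) - a = -(a : ℤ)
    simp
  · change ((a + 1 : ℕ) : ℤ) = -Int.negSucc a
    rw [Int.negSucc_eq]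
    push_cast
    ring

/-- `x * y` -/
noncomputable def mulZ (x y : ℤ) : ℤ := Int.rec (motive := fun _ => ℤ)
  (fun a => Int.rec (motive := fun _ => ℤ) (fun b => Int.ofNat (Nat.mul a b))
    (fun b => snn 0 (Nat.mul a (Nat.succ b))) y)
  (fun a => Int.rec (motive := fun _ => ℤ) (fun b => snn 0 (Nat.mul (Nat.succ a) b))
    (fun b => Int.ofNat (Nat.mul (Nat.succ a) (Nat.succ b))) y) x

theorem mulZ_eq (x y : ℤ) : mulZ x y = x * y := by
  rcases x with a | a <;> rcases y with b | b
  · rfl
  · change snn 0 (a * (b + 1)) = _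
    rw [snn_eq]
    change ((0 : ℕ) : ℤ) - ((a * (b + 1) : ℕ) : ℤ) = (a : ℤ) * Int.negSucc b
    rw [Int.negSucc_eq]
    push_cast
    ring
  · change snn 0 ((a + 1) * b) = _
    rw [snn_eq]
    change ((0 : ℕ) : ℤ) - (((a + 1) * b : ℕ) : ℤ) = Int.negSucc a * (b : ℤ)
    rw [Int.negSucc_eq]
    push_cast
    ring
  · rfl

/-- `x < 0` -/
noncomputable def negZ (x : ℤ) : Bool :=
  Int.rec (motive := fun _ => Bool) (fun _ => false) (fun _ => true) x

theorem negZ_iff {x : ℤ} : negZ x = true ↔ x < 0 := by
  rcases x with n | n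
  · change false = true ↔ ((n : ℕ) : ℤ) < 0
    simp
  · change true = true ↔ Int.negSucc n < 0
    simp [Int.negSucc_lt_zero]

/-- `0 < x` -/
noncomputable def posZ (x : ℤ) : Bool :=
  Int.rec (motive := fun _ => Bool) (fun n => Nat.ble 1 n) (fun _ => false) x

theorem posZ_iff {x : ℤ} : posZ x = true ↔ 0 < x := by
  rcases x with n | n
  · change Nat.ble 1 n = true ↔ 0 < ((n : ℕ) : ℤ)
    rw [Nat.ble_eq]
    omega
  · change false = true ↔ 0 < Int.negSucc n
    have := Int.negSucc_lt_zero n
    simp only [Bool.false_eq_true, false_iff]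
    omega

/-- `x = 0` -/
noncomputable def zeZ (x : ℤ) : Bool :=
  Int.rec (motive := fun _ => Bool) (fun n => Nat.beq n 0) (fun _ => false) x

theorem zeZ_iff {x : ℤ} : zeZ x = true ↔ x = 0 := by
  rcases x with n | n
  · change Nat.beq n 0 = true ↔ ((n : ℕ) : ℤ) = 0
    rw [Nat.beq_eq]
    omega
  · change false = true ↔ Int.negSucc n = 0
    have := Int.negSucc_lt_zero n
    simp only [Bool.false_eq_true, false_iff]
    omega

/-- `f n`, where `n` is evaluated to a literal first -/
noncomputable def forceN {α : Type} (n : ℕ) (f : ℕ → α) : α :=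
  Nat.rec (motive := fun _ => α) (f 0) (fun m _ => f (Nat.succ m)) n

theorem forceN_eq {α : Type} (n : ℕ) (f : ℕ → α) : forceN n f = f n := by cases n <;> rfl

/-- `f x`, where `x` is evaluated first -/
noncomputable def forceZ {α : Type} (x : ℤ) (f : ℤ → α) : α :=
  Int.rec (motive := fun _ => α) (fun n => forceN n fun m => f (Int.ofNat m))
    (fun n => forceN n fun m => f (Int.negSucc m)) x

theorem forceZ_eq {α : Type} (x : ℤ) (f : ℤ → α) : forceZ x f = f x := by
  rcases x with n | n
  · exact forceN_eq n fun m => f (Int.ofNat m)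
  · exact forceN_eq n fun m => f (Int.negSucc m)

/-- `f (x / k)` if `k` divides `x`, else `true` -/
noncomputable def divK (k : ℕ) (x : ℤ) (f : ℤ → Bool) : Bool := Int.rec (motive := fun _ => Bool)
  (fun a => Bool.rec (motive := fun _ => Bool) true
    (forceN (Nat.div a k) fun q => f (Int.ofNat q)) (Nat.beq (Nat.mod a k) 0))
  (fun a => Bool.rec (motive := fun _ => Bool) true
    (forceN (Nat.pred (Nat.div (Nat.succ a) k)) fun q => f (Int.negSucc q))
      (Nat.beq (Nat.mod (Nat.succ a) k) 0)) x

theorem divK_mul {k : ℕ} (hk : 0 < k) (y : ℤ) (f : ℤ → Bool) : divK k (k * y) f = f y := by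
  rcases y with a | a
  · change divK k (Int.ofNat (k * a)) f = f (Int.ofNat a)
    unfold divK
    simp only
    rw [show Nat.mod (k * a) k = 0 from Nat.mul_mod_right k a,
      show Nat.div (k * a) k = a from Nat.mul_div_cancel_left a hk]
    exact forceN_eq a fun q => f (Int.ofNat q)
  · have e : ((k : ℤ) * Int.negSucc a) = Int.negSucc (k * (a + 1) - 1) := by
      have h1 : 1 ≤ k * (a + 1) := Nat.mul_pos hk (Nat.succ_pos a)
      rw [Int.negSucc_eq, Int.negSucc_eq]
      push_cast [Nat.cast_sub h1]
      ring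
    rw [e]
    unfold divK
    simp only
    have h1 : Nat.succ (k * (a + 1) - 1) = k * (a + 1) := by
      have h1 : 1 ≤ k * (a + 1) := Nat.mul_pos hk (Nat.succ_pos a)
      omega
    rw [h1, show Nat.mod (k * (a + 1)) k = 0 from Nat.mul_mod_right k (a + 1),
      show Nat.div (k * (a + 1)) k = a + 1 from Nat.mul_div_cancel_left (a + 1) hk]
    exact forceN_eq a fun q => f (Int.negSucc q)

/-- `List.all` -/
noncomputable def allL {α : Type} (f : α → Bool) (l : List α) : Bool :=
  List.rec (motive := fun _ => Bool) true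
    (fun a _ ih => Bool.rec (motive := fun _ => Bool) false ih (f a)) l

theorem allL_iff {α : Type} {f : α → Bool} : ∀ {l : List α}, allL f l = true ↔
    ∀ a ∈ l, f a = true
  | [] => by simp [allL]
  | a :: l => by
    have ih := allL_iff (f := f) (l := l)
    have e : allL f (a :: l) = Bool.rec (motive := fun _ => Bool) false (allL f l) (f a) := rfl
    rw [e, List.forall_mem_cons, ← ih]
    cases f a <;> simp

/-- `List.any` -/
noncomputable def anyL {α : Type} (f : α → Bool) (l : List α) : Bool :=
  List.rec (motive := fun _ => Bool) false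
    (fun a _ ih => Bool.rec (motive := fun _ => Bool) ih true (f a)) l

theorem anyL_iff {α : Type} {f : α → Bool} : ∀ {l : List α}, anyL f l = true ↔
    ∃ a ∈ l, f a = true
  | [] => by simp [anyL]
  | a :: l => by
    have ih := anyL_iff (f := f) (l := l)
    have e : anyL f (a :: l) = Bool.rec (motive := fun _ => Bool) (anyL f l) true (f a) := rfl
    rw [e, List.exists_mem_cons_iff, ← ih]
    cases f a <;> simp

end LWG
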