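import Pool.Agent.LWG.Key
import Pool.Agent.LWG.Ops

/-!
# Keyed cells: patterns

* `dec`, `chkK`: a leaf of the tree is the key of a record, and the record is impossible;
* `keyU`, `chkU`, **`refU_sound`**: the same for entries which are impossible for all unimodal
  differences, everywhere (modulo `b`);
* `Al`, `Au`, `PK`, `okPK`: alternatives for a box: sub-boxes, packed;
* `hitU`, `hitK`, `cellK`, `patK`: the loops; **`kpat_key`**: no forbidden pattern between two child
  letters.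
-/

set_option autoImplicit false

namespace LWG

variable {S : Tab} {Kr : Ker} {D F : ℤ → ℤ}

/-! ## The leaves of the tree -/

/-- the digit `i` -/
def dgt (q : KQ) (k i : ℕ) : ℕ := Nat.mod (Nat.shiftRight k (Nat.mul i q.w)) (Nat.pow 2 q.w)

/-- the entry of a digit -/
noncomputable def dEn (q : KQ) (x : ℕ) : En :=
  match Nat.div x (Nat.pow 2 q.u) with
  | 0 => .ex (snn (Nat.mod x (Nat.pow 2 q.u)) q.B)
  | 1 => .ge (snn (Nat.mod x (Nat.pow 2 q.u)) q.B)
  | 2 => .le (snn (Nat.mod x (Nat.pow 2 q.u)) q.B)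
  | _ => .un

/-- the entries, from the digit `i` on -/
noncomputable def dEns (q : KQ) (k : ℕ) : ℕ → ℕ → List En
  | 0, _ => []
  | n + 1, i => dEn q (dgt q k i) :: dEns q k n (i + 1)

/-- the record of a key -/
noncomputable def dec (q : KQ) (k : ℕ) : Rc :=
  ⟨dgt q k 0, dgt q k 1, snn (dgt q k 2) q.D, snn (dgt q k 3) (Nat.add q.O q.E),
    dEns q k (dgt q k 4) 5⟩

/-- force an entry -/
noncomputable def forceE (e : En) (f : En → Bool) : Bool :=
  En.rec (motive := fun _ => Bool) (fun n => forceZ n fun n => f (.ex n))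
    (fun n => forceZ n fun n => f (.ge n)) (fun n => forceZ n fun n => f (.le n)) (f .un) e

theorem forceE_eq (e : En) (f : En → Bool) : forceE e f = f e := by
  rcases e with n | n | n | _
  · exact forceZ_eq n fun n => f (.ex n)
  · exact forceZ_eq n fun n => f (.ge n)
  · exact forceZ_eq n fun n => f (.le n)
  · rfl

/-- force entries -/
noncomputable def forceEs (l : List En) : (List En → Bool) → Bool :=
  List.rec (motive := fun _ => (List En → Bool) → Bool) (fun f => f [])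
    (fun e _ ih f => forceE e fun e => ih fun l => f (e :: l)) l

theorem forceEs_eq : ∀ (l : List En) (f : List En → Bool), forceEs l f = f l
  | [], _ => rfl
  | e :: l, f => by
    have : forceEs (e :: l) f = forceE e fun e => forceEs l fun l => f (e :: l) := rfl
    rw [this, forceE_eq, forceEs_eq l]

/-- the record is impossible -/
def Rc.bad (T : Dat) (pats : ℕ → ℕ → List PatE) (n : ℕ) (r : Rc) : Bool :=
  goAt T.K T.σ T.X n (leafE T.m (T.lv r.c) (T.rv r.c') (psD r.d (pats r.c r.c')) r.d) r.g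
    (bestX 0 0 0 r.t) r.t

/-- the leaf `k`: the key of a record which is impossible -/
noncomputable def chkK (q : KQ) (T : Dat) (pats : ℕ → ℕ → List PatE) (n : ℕ) (k : ℕ) : Bool :=
  forceN (dec q k).c fun c => forceN (dec q k).c' fun c' => forceZ (dec q k).d fun d =>
    forceZ (dec q k).g fun g => forceEs (dec q k).t fun t =>
      Bool.rec (motive := fun _ => Bool) false
        (Bool.rec (motive := fun _ => Bool) false (Rc.bad T pats n ⟨c, c', d, g, t⟩)
          (Rc.rg q ⟨c, c', d, g, t⟩)) (Nat.beq (Rc.key q ⟨c, c', d, g, t⟩) k)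

theorem chkK_iff {q : KQ} {T : Dat} {pats : ℕ → ℕ → List PatE} {n k : ℕ}
    (h : chkK q T pats n k = true) : (dec q k).key q = k ∧ (dec q k).rg q = true ∧
      (dec q k).bad T pats n = true := by
  unfold chkK at h
  simp only [forceN_eq, forceZ_eq, forceEs_eq] at h
  change (Bool.rec false (Bool.rec false ((dec q k).bad T pats n) ((dec q k).rg q))
    (Nat.beq ((dec q k).key q) k) : Bool) = true at h
  rcases h1 : Nat.beq ((dec q k).key q) k with _ | _
  · rw [h1] at h
    exact absurd h Bool.false_ne_true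
  rcases h2 : (dec q k).rg q with _ | _
  · rw [h1, h2] at h
    exact absurd h Bool.false_ne_true
  rw [h1, h2] at h
  exact ⟨Nat.eq_of_beq_eq_true h1, rfl, h⟩

/-- all leaves are checked -/
def KT.ok (q : KQ) (T : Dat) (pats : ℕ → ℕ → List PatE) (n : ℕ) (tr : KT) : Prop :=
  ∀ k ∈ tr.toL, chkK q T pats n k = true

/-- all leaves -/
noncomputable def KT.allK (f : ℕ → Bool) (tr : KT) : Bool :=
  KT.rec (motive := fun _ => Bool) (fun k => f k)
    (fun _ _ _ hl hr => Bool.rec (motive := fun _ => Bool) false hr hl) tr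

theorem KT.allK_iff {f : ℕ → Bool} : ∀ {tr : KT}, tr.allK f = true → ∀ k ∈ tr.toL, f k = true
  | .leaf k, h, x, hx => by
    have h1 : f k = true := h
    simp only [KT.toL, List.mem_singleton] at hx
    rwa [hx]
  | .node k l r, h, x, hx => by
    have e : (KT.node k l r).allK f = Bool.rec (motive := fun _ => Bool) false (r.allK f)
      (l.allK f) := rfl
    rw [e] at h
    rcases h1 : l.allK f with _ | _
    · rw [h1] at h
      exact absurd h Bool.false_ne_true
    · rw [h1] at h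
      unfold KT.toL at hx
      rw [List.mem_append] at hx
      exact hx.elim (allK_iff h1 x) (allK_iff h x)

theorem KT.ok_leaf {q : KQ} {T : Dat} {pats : ℕ → ℕ → List PatE} {n : ℕ} {tr : KT}
    (h : tr.allK (chkK q T pats n) = true) : tr.ok q T pats n := KT.allK_iff h

theorem KT.ok_node {q : KQ} {T : Dat} {pats : ℕ → ℕ → List PatE} {n k : ℕ} {l r : KT}
    (hl : l.ok q T pats n) (hr : r.ok q T pats n) : (KT.node k l r).ok q T pats n := by
  intro x hx
  unfold KT.toL at hx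
  rw [List.mem_append] at hx
  exact hx.elim (hl x) (hr x)

/-! ## Entries which are impossible everywhere -/

theorem Co.comb_shift (K : Co) (hb : K.b ≠ 0) (D : ℤ → ℤ) (k z : ℤ) :
    K.comb D (z + K.b * k) = K.comb (fun y => D (y + k)) z := by
  have e1 : K.ks (z + K.b * k) = K.ks z := by
    unfold Co.ks
    rw [show z + K.b * k - K.e0 = z - K.e0 + K.b * k by ring, Int.add_mul_emod_self_left]
  have e2 : K.tp (z + K.b * k) = K.tp z + k := by
    unfold Co.tp
    rw [show z + K.b * k - K.e0 = z - K.e0 + K.b * k by ring, Int.add_mul_ediv_left _ _ hb]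
  have e3 : ∀ (ks : List ℤ) (x : ℤ), dotZ D (x + k) ks = dotZ (fun y => D (y + k)) x ks := by
    intro ks
    induction ks with
    | nil => intro x; rfl
    | cons a ks ih =>
      intro x
      have h1 : dotZ D (x + k) (a :: ks) = a * D (x + k) + dotZ D (x + k - 1) ks := rfl
      have h2 : dotZ (fun y => D (y + k)) x (a :: ks) = a * D (x + k) +
          dotZ (fun y => D (y + k)) (x - 1) ks := rfl
      rw [h1, h2, ← ih, show x + k - 1 = x - 1 + k by ring]
  unfold Co.comb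
  rw [e1, e2, e3]

/-- the entries `t` at `g, g + 1, ...` are impossible for unimodal differences -/
def refU (T : Dat) (n : ℕ) (g : ℤ) (t : List En) : Bool :=
  goAt T.K T.σ T.X n (leafE T.m [[]] [[]] [] 0) g (bestX 0 0 0 t) t

theorem satA_shiftC {F G : ℤ → ℤ} {k : ℤ} (h : ∀ z, F (z + k) = G z) : ∀ (v : List En) (g : ℤ),
    SatA F (g + k) v → SatA G g v
  | [], _, _ => trivial
  | _ :: v, g, h' => ⟨by have := h'.1; rwa [h] at this, satA_shiftC h v (g + 1) (by
      have := h'.2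
      rwa [show g + k + 1 = g + 1 + k by ring] at this)⟩

theorem uni_shift {k : ℤ} (h : LevelWords.Uni D) : LevelWords.Uni fun y => D (y + k) :=
  fun x y hxy => h (x + k) (y + k) (by omega)

theorem vf_nil (m y : ℤ) : vf m [] y = 0 := by
  unfold vf
  rcases m - y with n | n
  · simp
  · rfl

/-- **soundness** -/
theorem refU_sound {T : Dat} (hN : T.K.Nn) (hσ : okSol T.K T.σ 5 = true) (hb : T.K.b ≠ 0)
    (hU : LevelWords.Uni D) {n : ℕ} {g : ℤ} {t : List En} (h : refU T n g t = true) (k : ℤ) :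
    ¬ SatA (T.K.comb D) (g + T.K.b * k) t := by
  intro hS
  have h1 := satA_shiftC (F := T.K.comb D) (G := T.K.comb fun y => D (y + k))
    (fun z => T.K.comb_shift hb D k z) t g hS
  have hV : LocE T.m [[]] [[]] [] 0 fun y => D (y + k) := by
    refine ⟨⟨fun l hl r hr => ?_, fun P hP => absurd hP List.not_mem_nil⟩,
      fun P hP => absurd hP List.not_mem_nil⟩
    rw [List.mem_singleton] at hl hr
    rw [hl, hr]
    simp only [vf_nil, add_zero]
    exact uni_shift hU
  exact goAt_sound hV.leaf hN hσ h1 h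

/-- the key: residue of the first edge plus `O + E`, length, digits -/
def keyU (q : KQ) (p : ℕ) (t : List En) : ℕ :=
  p + 2 ^ q.w * t.length + 2 ^ (2 * q.w) * pkL q.w (t.map (eD q))

/-- the leaf `k`: the key of entries which are impossible everywhere -/
noncomputable def chkU (q : KQ) (T : Dat) (n : ℕ) (k : ℕ) : Bool :=
  forceN (dgt q k 0) fun p => forceEs (dEns q k (dgt q k 1) 2) fun t =>
    Bool.rec (motive := fun _ => Bool) false
      (Bool.rec (motive := fun _ => Bool) false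
        (forceZ (snn p (Nat.add q.O q.E)) fun g => refU T n g t)
        (Nat.blt p (Nat.pow 2 q.w) && Nat.blt t.length (Nat.pow 2 q.w) && t.all (En.rg q)))
      (Nat.beq (keyU q p t) k)

theorem chkU_iff {q : KQ} {T : Dat} {n k : ℕ} (h : chkU q T n k = true) : ∃ p t,
    keyU q p t = k ∧ p < 2 ^ q.w ∧ t.length < 2 ^ q.w ∧ (∀ e ∈ t, e.rg q = true) ∧
      refU T n (p - (q.O + q.E)) t = true := by
  unfold chkU at h
  simp only [forceN_eq, forceZ_eq, forceEs_eq] at h
  generalize dgt q k 0 = p at h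
  generalize dEns q k (dgt q k 1) 2 = t at h
  change (Bool.rec false (Bool.rec false (refU T n (snn p (Nat.add q.O q.E)) t)
    (Nat.blt p (Nat.pow 2 q.w) && Nat.blt t.length (Nat.pow 2 q.w) && t.all (En.rg q)))
    (Nat.beq (keyU q p t) k) : Bool) = true at h
  rcases h1 : Nat.beq (keyU q p t) k with _ | _
  · rw [h1] at h
    exact absurd h Bool.false_ne_true
  rcases h2 : (Nat.blt p (Nat.pow 2 q.w) && Nat.blt t.length (Nat.pow 2 q.w) &&
    t.all (En.rg q)) with _ | _
  · rw [h1, h2] at h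
    exact absurd h Bool.false_ne_true
  rw [h1, h2] at h
  simp only [Bool.and_eq_true, Nat.blt_eq, List.all_eq_true] at h2
  have h : refU T n (snn p (Nat.add q.O q.E)) t = true := h
  rw [snn_eq, show ((Nat.add q.O q.E : ℕ) : ℤ) = q.O + q.E by
    change ((q.O + q.E : ℕ) : ℤ) = _
    push_cast
    rfl] at h
  exact ⟨p, t, Nat.eq_of_beq_eq_true h1, h2.1.1, h2.1.2, h2.2, h⟩

theorem keyU_inj {q : KQ} {p p' : ℕ} {t t' : List En} (hp : p < 2 ^ q.w) (hp' : p' < 2 ^ q.w)
    (hl : t.length < 2 ^ q.w) (hl' : t'.length < 2 ^ q.w) (ht : ∀ e ∈ t, e.rg q = true)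
    (ht' : ∀ e ∈ t', e.rg q = true) (h : keyU q p t = keyU q p' t') : p = p' ∧ t = t' := by
  unfold keyU at h
  have lt : ∀ {a x : ℕ}, a < 2 ^ q.w → x < 2 ^ q.w → a + 2 ^ q.w * x < 2 ^ (2 * q.w) :=
    fun {a x} ha hx => by
      have : 2 ^ q.w * (x + 1) ≤ 2 ^ q.w * 2 ^ q.w := Nat.mul_le_mul_left _ hx
      rw [two_mul, pow_add]
      rw [Nat.mul_succ] at this
      omega
  obtain ⟨k1, k2⟩ := split_inj (lt hp hl) (lt hp' hl') h
  obtain ⟨k3, k4⟩ := split_inj hp hp' k1
  refine ⟨k3, ?_⟩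
  have a6 := pkL_inj (by rw [List.length_map, List.length_map, k4]) (fun x hx => by
    obtain ⟨e, he, rfl⟩ := List.mem_map.1 hx
    exact eD_lt (ht e he)) (fun x hx => by
    obtain ⟨e, he, rfl⟩ := List.mem_map.1 hx
    exact eD_lt (ht' e he)) k2
  refine List.ext_getElem k4 fun i hi hi' => ?_
  have : (t.map (eD q))[i]'(by simpa using hi) = (t'.map (eD q))[i]'(by simpa using hi') := by
    simp only [a6]
  rw [List.getElem_map, List.getElem_map] at this
  exact eD_inj (ht _ (List.getElem_mem hi)) (ht' _ (List.getElem_mem hi')) this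

/-- all leaves are checked -/
def KT.okU (q : KQ) (T : Dat) (n : ℕ) (tr : KT) : Prop := ∀ k ∈ tr.toL, chkU q T n k = true

theorem KT.okU_leaf {q : KQ} {T : Dat} {n : ℕ} {tr : KT}
    (h : tr.allK (chkU q T n) = true) : tr.okU q T n := KT.allK_iff h

theorem KT.okU_node {q : KQ} {T : Dat} {n k : ℕ} {l r : KT}
    (hl : l.okU q T n) (hr : r.okU q T n) : (KT.node k l r).okU q T n := by
  intro x hx
  unfold KT.toL at hx
  rw [List.mem_append] at hx
  exact hx.elim (hl x) (hr x)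

/-- a packed box: first edge relative to both letters plus `E`, length, constants, mask -/
structure AU where
  e : ℕ
  i : ℕ
  l : ℕ
  v : ℕ
  m : ℕ

/-- the packed form of a box -/
def auOf (q : KQ) (P : PatE) : AU :=
  ⟨(P.e + q.E).toNat, (P.e - P.d + q.E).toNat, P.v.length, pkL q.w (P.v.map (vD q)),
    Nat.add (Nat.shiftLeft (pkL q.w (P.v.map (mD q))) (Nat.mul 2 q.w))
      (Nat.sub (Nat.pow 2 (Nat.mul 2 q.w)) 1)⟩

/-- the contribution of the first letter -/
def uU (q : KQ) (a : AU) (A : LN) : ℕ :=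
  Nat.add (Nat.shiftLeft (Nat.sub a.v (Nat.mod (Nat.shiftRight A.x (Nat.mul q.w (Nat.add A.o a.e)))
    (Nat.pow 2 (Nat.mul q.w a.l)))) (Nat.mul 2 q.w))
    (Nat.add (Nat.mod (Nat.add A.o a.e) q.b) (Nat.shiftLeft a.l q.w))

/-- the contribution of the second letter -/
def wU (q : KQ) (a : AU) (B : LN) : ℕ :=
  Nat.shiftLeft (Nat.mod (Nat.shiftRight B.x (Nat.mul q.w (Nat.add a.i B.o)))
    (Nat.pow 2 (Nat.mul q.w a.l))) (Nat.mul 2 q.w)

/-- **the number which a cell computes is a key** -/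
theorem keyU_eq {q : KQ} (hq : q.ok = true) {P : PatE} (hP : P.rg q = true)
    {o o' d : ℤ} {nA nB : ℤ → ℤ} {A B : LN} (ho : A.o = o + q.O)
    (ho' : B.o = o' + q.O) (hA : A.rg q = true) (hB : B.rg q = true)
    (xA : A.x = pf q.w q.N fun (k : ℕ) => (nA ((k : ℤ) - q.O - q.E) + q.H).toNat)
    (xB : B.x = pf q.w q.N fun (k : ℕ) => (nB ((k : ℤ) - q.O - q.E) + q.H).toNat)
    (bA : ∀ z, |nA z| ≤ q.H) (bB : ∀ z, |nB z| ≤ q.H) (hd : P.d = q.b * d + o' - o)
    (hfit : (akOf q P).fit q = true) :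
    Nat.land (Nat.sub (uU q (auOf q P) A) (wU q (auOf q P) B)) (auOf q P).m =
      keyU q ((A.o + (P.e + q.E).toNat) % q.b)
        (tgF (fun z => nA z + nB (z - q.b * d)) P.v (o + P.e)) ∧
    (A.o + (P.e + q.E).toNat) % q.b < 2 ^ q.w ∧ P.v.length < 2 ^ q.w ∧
      ∀ e ∈ tgF (fun z => nA z + nB (z - q.b * d)) P.v (o + P.e), e.rg q = true := by
  unfold KQ.ok at hq
  simp only [Bool.and_eq_true, Nat.blt_eq] at hq
  obtain ⟨⟨⟨hb, -⟩, hH⟩, hN⟩ := hq
  obtain ⟨x, hx1, hx2, hx3⟩ := dif_eq hH hP ho ho' hA hB xA xB bA bB hd hfit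
  unfold AK.fit at hfit
  simp only [Bool.and_eq_true, Nat.ble_eq] at hfit
  obtain ⟨f1, f2⟩ := hfit
  have f1 : q.M + (P.e + q.E).toNat + P.v.length ≤ q.N := f1
  have f3 : A.o ≤ q.M := by
    unfold LN.rg at hA
    simp only [Bool.and_eq_true, Nat.ble_eq] at hA
    exact hA.2
  have hp : (A.o + (P.e + q.E).toNat) % q.b < 2 ^ q.w := by
    have := Nat.mod_le (A.o + (P.e + q.E).toNat) q.b
    omega
  have hl : P.v.length < 2 ^ q.w := by omega
  refine ⟨?_, hp, hl, hx3⟩
  have hh : (A.o + (P.e + q.E).toNat) % q.b + P.v.length <<< q.w < 2 ^ (2 * q.w) := by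
    have : 2 ^ q.w * (P.v.length + 1) ≤ 2 ^ q.w * 2 ^ q.w := Nat.mul_le_mul_left _ hl
    rw [two_mul, pow_add, Nat.shiftLeft_eq]
    rw [Nat.mul_succ, mul_comm] at this
    omega
  have hsub : Nat.sub (uU q (auOf q P) A) (wU q (auOf q P) B) =
      (A.o + (P.e + q.E).toNat) % q.b + P.v.length <<< q.w + 2 ^ (2 * q.w) * x := by
    unfold uU wU
    change (pkL q.w (P.v.map (vD q)) -
      (A.x >>> (q.w * (A.o + (P.e + q.E).toNat))) % 2 ^ (q.w * P.v.length)) <<< (2 * q.w) +
      ((A.o + (P.e + q.E).toNat) % q.b + P.v.length <<< q.w) -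
      ((B.x >>> (q.w * ((P.e - P.d + q.E).toNat + B.o))) % 2 ^ (q.w * P.v.length)) <<< (2 * q.w)
      = _
    rw [hx1, Nat.add_sub_cancel]
    simp only [Nat.shiftLeft_eq]
    rw [Nat.add_mul]
    generalize B.x >>> (q.w * ((P.e - P.d + q.E).toNat + B.o)) % 2 ^ (q.w * P.v.length) *
      2 ^ (2 * q.w) = Y
    rw [mul_comm (2 ^ (2 * q.w))]
    omega
  rw [hsub]
  have hm : (auOf q P).m = (pkL q.w (P.v.map (mD q))) <<< (2 * q.w) + (2 ^ (2 * q.w) - 1) := rfl
  rw [hm]
  refine (land_low hh).trans ?_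
  rw [hx2]
  unfold keyU
  rw [tgF_length, Nat.shiftLeft_eq, mul_comm P.v.length]

theorem KLocE.uni {g : List ℤ} {pats : ℕ → ℕ → List PatE} {c c' : ℕ} {d : ℤ}
    (h : KLocE S g pats c c' d D) : LevelWords.Uni D := by
  have h1 : (fun _ => 0 : ℤ → ℤ) ∈ S.lops c := by
    unfold Tab.lops
    rw [List.mem_append]
    refine Or.inl (List.mem_map.2 ⟨0, List.mem_range.2 (by omega), ?_⟩)
    funext y
    exact dls_zero _ _
  have h2 : (fun _ => 0 : ℤ → ℤ) ∈ S.rops c' d := by
    unfold Tab.rops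
    rw [List.mem_append]
    refine Or.inl (List.mem_map.2 ⟨0, List.mem_range.2 (by omega), ?_⟩)
    funext y
    exact dls_zero _ _
  have h3 := h.base.adm _ h1 _ h2
  simp only [cv_zero, add_zero] at h3
  exact h3

/-! ## Sub-boxes -/

/-- `l` entries of the box, from the entry `s` on -/
def sbP (P : PatE) (s l : ℕ) : PatE := ⟨P.d, P.e + s, (P.v.drop s).take l⟩

theorem sbP_sat {P : PatE} {x : ℤ} (s l : ℕ) (h : SatA F (x + P.e) P.v) :
    SatA F (x + (sbP P s l).e) (sbP P s l).v := by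
  have := satA_take l (satA_drop s h)
  rwa [show x + P.e + s = x + (P.e + s) by ring] at this

/-- an alternative -/
structure Al where
  s : ℕ
  l : ℕ
  a : AK

/-- an alternative, everywhere -/
structure Au where
  s : ℕ
  l : ℕ
  a : AU

/-- a box: distance plus `b * D`, alternatives -/
structure PK where
  d : ℕ
  au : List Au
  al : List Al

/-- equality -/
def eqAK (a b : AK) : Bool := Nat.beq a.d b.d && Nat.beq a.e b.e && Nat.beq a.i b.i &&
  Nat.beq a.l b.l && Nat.beq a.v b.v && Nat.beq a.m b.m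

theorem eqAK_sound {a b : AK} (h : eqAK a b = true) : a = b := by
  unfold eqAK at h
  simp only [Bool.and_eq_true] at h
  obtain ⟨⟨⟨⟨⟨h1, h2⟩, h3⟩, h4⟩, h5⟩, h6⟩ := h
  obtain ⟨a1, a2, a3, a4, a5, a6⟩ := a
  obtain ⟨b1, b2, b3, b4, b5, b6⟩ := b
  simp only at h1 h2 h3 h4 h5 h6
  rw [Nat.eq_of_beq_eq_true h1, Nat.eq_of_beq_eq_true h2, Nat.eq_of_beq_eq_true h3,
    Nat.eq_of_beq_eq_true h4, Nat.eq_of_beq_eq_true h5, Nat.eq_of_beq_eq_true h6]

/-- equality -/
def eqAU (a b : AU) : Bool := Nat.beq a.e b.e && Nat.beq a.i b.i &&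
  Nat.beq a.l b.l && Nat.beq a.v b.v && Nat.beq a.m b.m

theorem eqAU_sound {a b : AU} (h : eqAU a b = true) : a = b := by
  unfold eqAU at h
  simp only [Bool.and_eq_true] at h
  obtain ⟨⟨⟨⟨h1, h2⟩, h3⟩, h4⟩, h5⟩ := h
  obtain ⟨a1, a2, a3, a4, a5⟩ := a
  obtain ⟨b1, b2, b3, b4, b5⟩ := b
  simp only at h1 h2 h3 h4 h5
  rw [Nat.eq_of_beq_eq_true h1, Nat.eq_of_beq_eq_true h2, Nat.eq_of_beq_eq_true h3,
    Nat.eq_of_beq_eq_true h4, Nat.eq_of_beq_eq_true h5]

/-- the packed sub-box is right -/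
def okAu (q : KQ) (P : PatE) (α : Au) : Bool :=
  eqAU α.a (auOf q (sbP P α.s α.l)) && (sbP P α.s α.l).rg q && (akOf q (sbP P α.s α.l)).fit q

/-- the packed sub-box is right -/
def okAl (q : KQ) (P : PatE) (α : Al) : Bool :=
  eqAK α.a (akOf q (sbP P α.s α.l)) && (sbP P α.s α.l).rg q && α.a.fit q

/-- the packed box is right -/
def okPK (q : KQ) (P : PatE) (p : PK) : Bool :=
  Nat.beq p.d (P.d + q.b * q.D).toNat && !negB (P.d + q.b * q.D) && p.au.all (okAu q P) &&
    p.al.all (okAl q P)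

/-- lists of boxes -/
def okPKs (q : KQ) : List PatE → List PK → Bool
  | [], _ => true
  | _ :: _, [] => false
  | P :: Ps, p :: ps => okPK q P p && okPKs q Ps ps

theorem okPKs_sound {q : KQ} : ∀ {Ps : List PatE} {ps : List PK}, okPKs q Ps ps = true →
    ∀ P ∈ Ps, ∃ p ∈ ps, okPK q P p = true
  | [], _, _, P, hP => absurd hP List.not_mem_nil
  | _ :: _, [], h, _, _ => by simp [okPKs] at h
  | Q :: Qs, p :: ps, h, P, hP => by
    simp only [okPKs, Bool.and_eq_true] at h
    rcases List.mem_cons.1 hP with h1 | h1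
    · exact ⟨p, List.mem_cons_self, h1 ▸ h.1⟩
    · obtain ⟨p', h2, h3⟩ := okPKs_sound h.2 P h1
      exact ⟨p', List.mem_cons_of_mem _ h2, h3⟩

/-! ## Cells -/

/-- the key is in the tree -/
noncomputable def hitU (q : KQ) (tu : KT) (a : AU) (A B : LN) : Bool :=
  forceN (Nat.land (Nat.sub (uU q a A) (wU q a B)) a.m) fun x => tu.find x

/-- the key is in the tree -/
noncomputable def hitK (q : KQ) (tr : KT) (a : AK) (A B : LN) : Bool :=
  forceN (Nat.land (Nat.sub (uA q a A) (wB q a B)) a.m) fun x => tr.find x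

/-- the coarse letters are far apart -/
def farK (q : KQ) (DM d : ℕ) (A B : LN) : Bool :=
  Nat.blt (Nat.add B.o (Nat.mul q.b (Nat.add q.D DM))) (Nat.add d A.o) ||
    Nat.blt (Nat.add d A.o) (Nat.add B.o (Nat.mul q.b (Nat.sub q.D DM)))

/-- a cell -/
noncomputable def cellK (q : KQ) (tu tr : KT) (DM : ℕ) (A : LN) (p : PK) (B : LN) : Bool :=
  Bool.rec (motive := fun _ => Bool)
    (Bool.rec (motive := fun _ => Bool) (farK q DM p.d A B) true
      (anyL (fun α => hitK q tr α.a A B) p.al)) true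
    (anyL (fun α => hitU q tu α.a A B) p.au)

/-- entry of a list -/
noncomputable def nthL (l : List (List LN)) : ℕ → List LN :=
  List.rec (motive := fun _ => ℕ → List LN) (fun _ => [])
    (fun a _ ih n => Nat.rec (motive := fun _ => List LN) a (fun m _ => ih m) n) l

/-- the boxes `Ps` between the letters `As` and `Bs` (in groups: residues) -/
noncomputable def patK (q : KQ) (tu tr : KT) (DM : ℕ) (Ps : List PK) (As : List LN)
    (Bs : List (List LN)) : Bool :=
  allL (fun A => allL (fun p => forceN (Nat.mod (Nat.add p.d A.o) q.b) fun r =>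
    allL (cellK q tu tr DM A p) (nthL Bs r)) Ps) As

theorem patK_iff {q : KQ} {tu tr : KT} {DM : ℕ} {Ps : List PK} {As : List LN}
    {Bs : List (List LN)} (h : patK q tu tr DM Ps As Bs = true) : ∀ A ∈ As, ∀ p ∈ Ps,
    ∀ B ∈ nthL Bs ((p.d + A.o) % q.b), cellK q tu tr DM A p B = true := by
  intro A hA p hp B hB
  unfold patK at h
  have h1 := allL_iff.1 h A hA
  have h2 := allL_iff.1 h1 p hp
  rw [forceN_eq] at h2
  exact allL_iff.1 h2 B hB

/-- the conditions on the parameters and the distances -/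
def KQ.okD (q : KQ) (DM : ℕ) : Bool :=
  q.ok && Nat.ble DM q.D && Nat.blt (Nat.add DM q.D) (Nat.pow 2 q.w)

/-- a packed letter: type, offset, packed noise -/
structure LN.Is (q : KQ) (A : LN) (c : ℕ) (o : ℤ) (f : ℤ → ℤ) : Prop where
  c : A.c = c
  o : A.o = o + q.O
  x : A.x = pf q.w q.N fun (k : ℕ) => (f ((k : ℤ) - q.O - q.E) + q.H).toNat
  rg : A.rg q = true
  bd : ∀ z, |f z| ≤ q.H

/-- **a cell with noise** -/
theorem cellK_sound {mp : ℕ} {T : Dat} (hT : KDatOK S Kr mp T) {q : KQ} {DM n : ℕ}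
    (hq : q.okD DM = true) (hb : q.b = S.b) {pats : ℕ → ℕ → List PatE} {tu tr : KT}
    (htu : tu.okU q T n) (htr : tr.ok q T pats n) {P : PatE} {p : PK} (hp : okPK q P p = true) {A B : LN} {c c' : ℕ}
    {o o' d : ℤ} {nA nB : ℤ → ℤ} (hA : A.Is q c o nA) (hB : B.Is q c' o' nB) (hc : c < S.T)
    (hc' : c' < S.T) (hL : KLocE S Kr.g pats c c' d D) (hd : P.d = S.b * d + o' - o)
    (hd1 : -(DM : ℤ) ≤ d) (hd2 : d ≤ DM) (hF : ∀ z, F z = nA z + T.K.comb D z + nB (z - S.b * d))
    (h : cellK q tu tr DM A p B = true) : ¬ SatA F (o + P.e) P.v := by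
  intro hS
  unfold KQ.okD at hq
  simp only [Bool.and_eq_true, Nat.ble_eq, Nat.blt_eq] at hq
  obtain ⟨⟨hq, q1⟩, q2⟩ := hq
  have q2 : DM + q.D < 2 ^ q.w := q2
  have w2 : ((2 ^ q.w : ℕ) : ℤ) = 2 ^ q.w := by push_cast; rfl
  unfold okPK at hp
  simp only [Bool.and_eq_true, Bool.not_eq_true'] at hp
  obtain ⟨⟨⟨p1, p2⟩, p4⟩, p3⟩ := hp
  have p1 := Nat.eq_of_beq_eq_true p1
  have p2 := negB_false p2
  have hb0 : 0 < q.b := by
    have : 0 < S.b := hT.tie.b0
    omega
  unfold cellK at h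
  rcases h0 : anyL (fun α => hitU q tu α.a A B) p.au with _ | _
  swap
  · obtain ⟨α, hα, h2⟩ := anyL_iff.1 h0
    rw [List.all_eq_true] at p4
    have h3 := p4 α hα
    unfold okAu at h3
    simp only [Bool.and_eq_true] at h3
    obtain ⟨⟨h3, h4⟩, h5⟩ := h3
    have h3 := eqAU_sound h3
    unfold hitU at h2
    rw [forceN_eq, h3] at h2
    obtain ⟨h6, h7, h8, h9⟩ := keyU_eq hq h4 hA.o hB.o hA.rg hB.rg hA.x hB.x hA.bd hB.bd
      (d := d) (by change P.d = _; rw [hd, hb]) h5
    rw [h6] at h2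
    obtain ⟨r, t, k1, k2, k3, k4, k5⟩ := chkU_iff (htu _ (KT.find_sound h2))
    obtain ⟨k6, k7⟩ := keyU_inj k2 h7 k3 (by rw [tgF_length]; exact h8) k4 h9 k1
    rw [k6, k7] at k5
    have hb2 : T.K.b = (S.b : ℤ) := hT.tie.b
    have hbz : T.K.b ≠ 0 := by
      rw [hb2, ← hb]
      exact_mod_cast hb0.ne'
    obtain ⟨x, hx⟩ : ∃ x : ℕ, x = A.o + ((sbP P α.s α.l).e + q.E).toNat := ⟨_, rfl⟩
    have ex : (x : ℤ) = o + q.O + ((sbP P α.s α.l).e + q.E) := by
      have h10 : 0 ≤ (sbP P α.s α.l).e + q.E := by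
        unfold PatE.rg at h4
        simp only [Bool.and_eq_true, decide_eq_true_eq] at h4
        exact h4.1.1.2
      have := hA.o
      rw [hx]
      push_cast
      rw [Int.toNat_of_nonneg h10, this]
    rw [← hx] at k5
    refine refU_sound hT.tie.nn' hT.sol hbz hL.uni k5 ((x / q.b : ℕ) : ℤ) ?_
    have e1 : ((x % q.b : ℕ) : ℤ) - (q.O + q.E) + T.K.b * ((x / q.b : ℕ) : ℤ) =
        o + (sbP P α.s α.l).e := by
      have h11 := Nat.mod_add_div x q.b
      have h12 : ((x % q.b : ℕ) : ℤ) + q.b * ((x / q.b : ℕ) : ℤ) = x := by exact_mod_cast h11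
      rw [hb2, ← hb]
      linarith
    rw [e1]
    exact tgF_sat (F := F) (fun z => by rw [hF, hb]; ring) _ (sbP_sat α.s α.l hS)
  rw [h0] at h
  rcases h1 : anyL (fun α => hitK q tr α.a A B) p.al with _ | _
  · -- far
    rw [h1] at h
    have h : farK q DM p.d A B = true := h
    unfold farK at h
    simp only [Bool.or_eq_true, Nat.blt_eq] at h
    have e1 : (p.d : ℤ) + A.o = B.o + q.b * (q.D + d) := by
      rw [p1, Int.toNat_of_nonneg p2, hd, hA.o, hB.o, ← hb]
      ring
    have e2 : (q.b : ℤ) * (q.D + d) ≤ q.b * (q.D + DM) :=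
      mul_le_mul_of_nonneg_left (by omega) (by omega)
    have e3 : (q.b : ℤ) * (q.D - DM) ≤ q.b * (q.D + d) :=
      mul_le_mul_of_nonneg_left (by omega) (by omega)
    rcases h with h | h
    · have h : B.o + q.b * (q.D + DM) < p.d + A.o := h
      zify at h
      omega
    · have h : p.d + A.o < B.o + q.b * (q.D - DM) := h
      zify [q1] at h
      omega
  · obtain ⟨α, hα, h2⟩ := anyL_iff.1 h1
    rw [List.all_eq_true] at p3
    have h3 := p3 α hα
    unfold okAl at h3
    simp only [Bool.and_eq_true] at h3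
    obtain ⟨⟨h3, h4⟩, h5⟩ := h3
    have h3 := eqAK_sound h3
    unfold hitK at h2
    rw [forceN_eq, h3] at h2
    rw [h3] at h5
    have h6 := key_eq hq h4 hA.c hB.c hA.o hB.o hA.rg hB.rg hA.x hB.x hA.bd hB.bd
      (d := d) (by change P.d = _; rw [hd, hb]) (by omega) (by omega) h5
    rw [h6.1] at h2
    obtain ⟨k1, k2, k3⟩ := chkK_iff (htr _ (KT.find_sound h2))
    have k4 := Rc.key_inj k2 h6.2 k1
    unfold Rc.bad at k3
    rw [k4] at k3
    have hV := (hT.locE hc hc' hL).psD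
    refine goAt_sound hV.leaf hT.tie.nn' hT.sol (tgF_sat (F := F) (fun z => ?_) _
      (sbP_sat α.s α.l hS)) k3
    rw [hF, hb]
    ring

/-! ## Packed letters -/

/-- the noise is bounded -/
def okVec (q : KQ) (v : List ℤ) : Bool := v.all fun x => !negB (x + q.H) && !posB (x - q.H)

theorem okVec_sound {q : KQ} {n0 : ℤ} {v : List ℤ} (h : okVec q v = true) (z : ℤ) :
    |nz n0 v z| ≤ q.H := by
  unfold nz
  have h0 : |(0 : ℤ)| ≤ q.H := by
    rw [abs_zero]
    omega
  rcases z - n0 with n | n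
  · simp only
    rcases lt_or_ge n v.length with h1 | h1
    · unfold okVec at h
      simp only [List.all_eq_true, Bool.and_eq_true, Bool.not_eq_true'] at h
      rw [List.getD_eq_getElem?_getD, List.getElem?_eq_getElem h1, Option.getD_some]
      have h2 := h _ (List.getElem_mem h1)
      have h3 := negB_false h2.1
      have h4 := posB_false h2.2
      rw [abs_le]
      omega
    · rw [List.getD_eq_getElem?_getD, List.getElem?_eq_none h1]
      exact h0
  · exact h0

/-- the letter is in the list -/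
noncomputable def memLN (c o x : ℕ) (l : List LN) : Bool :=
  anyL (fun A => Nat.beq A.c c && Nat.beq A.o o && Nat.beq A.x x) l

theorem memLN_sound {c o x : ℕ} {l : List LN} (h : memLN c o x l = true) :
    (⟨c, o, x⟩ : LN) ∈ l := by
  obtain ⟨A, h1, h2⟩ := anyL_iff.1 h
  simp only [Bool.and_eq_true] at h2
  obtain ⟨⟨h2, h3⟩, h4⟩ := h2
  obtain ⟨c1, o1, x1⟩ := A
  rw [← Nat.eq_of_beq_eq_true h2, ← Nat.eq_of_beq_eq_true h3, ← Nat.eq_of_beq_eq_true h4]
  exact h1

/-- the packed letter is in the list, and in the range -/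
noncomputable def okLN (q : KQ) (n0 : ℤ) (c : ℕ) (o : ℤ) (v : List ℤ) (l : ℕ → List LN) : Bool :=
  forceN (o + q.O).toNat fun x => forceN (pkN q n0 v) fun y =>
    memLN c x y (l (Nat.mod x q.b)) && LN.rg q ⟨c, x, y⟩ && okVec q v

theorem okLN_sound {q : KQ} (hq : q.ok = true) {n0 : ℤ} {c : ℕ} {o : ℤ} {v : List ℤ}
    {l : ℕ → List LN} (h : okLN q n0 c o v l = true) :
    ∃ A ∈ l ((o + q.O).toNat % q.b), A.Is q c o (nz n0 v) := by
  unfold okLN at h
  simp only [forceN_eq, Bool.and_eq_true] at h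
  obtain ⟨⟨h1, h2⟩, h3⟩ := h
  refine ⟨_, memLN_sound h1, rfl, ?_, ?_, h2, okVec_sound h3⟩
  · unfold LN.rg at h2
    simp only [Bool.and_eq_true, Nat.ble_eq] at h2
    have := h2.1.2
    unfold KQ.ok at hq
    simp only [Bool.and_eq_true, Nat.blt_eq] at hq
    have := hq.1.1.1
    simp only
    omega
  · simp only
    unfold pkN
    rw [pkL_eq, List.length_map, List.length_range]
    refine pf_congr fun k hk => ?_
    rw [List.getD_eq_getElem?_getD, List.getElem?_eq_getElem (by simpa using hk),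
      Option.getD_some, List.getElem_map, List.getElem_range]

/-- open letters of the first block of the type `c` -/
noncomputable def okKA (S : Tab) (q : KQ) (n0 : ℤ) (NA : ℕ → List (List ℤ)) (KA : ℕ → List LN)
    (c : ℕ) : Bool :=
  allL (fun i => okLN q n0 c (S.off c i) ((NA c).getD (i + 1) []) fun _ => KA (S.chd c i))
    (List.range S.L)

/-- open letters of the last block of the type `c` -/
noncomputable def okKB (S : Tab) (q : KQ) (n0 : ℤ) (NB : ℕ → List (List ℤ))
    (KB : ℕ → List (List LN)) (c : ℕ) : Bool :=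
  allL (fun j => okLN q n0 c (S.off c j) ((NB c).getD j []) fun r => nthL (KB (S.chd c j)) r)
    (List.range S.L)

/-- **the boxes `Ps` do not occur**, with noise -/
theorem cell_of {mp : ℕ} {T : Dat} (hT : KDatOK S Kr mp T) {q : KQ} {DM n : ℕ}
    (hq : q.okD DM = true) (hb : q.b = S.b) {pats : ℕ → ℕ → List PatE} {tu tr : KT}
    (htu : tu.okU q T n) (htr : tr.ok q T pats n) {Ps : List PatE} {ps : List PK}
    (hps : okPKs q Ps ps = true)
    {As : List LN} {Bs : List (List LN)} (hc : patK q tu tr DM ps As Bs = true) {c c' : ℕ}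
    (hc1 : c < S.T) (hc2 : c' < S.T) {o o' d : ℤ} {nA nB : ℤ → ℤ}
    (hA : ∃ A ∈ As, A.Is q c o nA) (hB : ∃ B ∈ nthL Bs ((o' + q.O).toNat % q.b), B.Is q c' o' nB)
    (hL : KLocE S Kr.g pats c c' d D) (hd1 : -(DM : ℤ) ≤ d) (hd2 : d ≤ DM)
    (hF : ∀ z, F z = nA z + T.K.comb D z + nB (z - S.b * d)) :
    ∀ P ∈ Ps, P.d = S.b * d + o' - o → ¬ SatA F (o + P.e) P.v := by
  intro P hP1 hP2
  obtain ⟨p, hp1, hp2⟩ := okPKs_sound hps P hP1
  obtain ⟨A, hA1, hA2⟩ := hA
  obtain ⟨B, hB1, hB2⟩ := hB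
  have hres : (o' + q.O).toNat % q.b = (p.d + A.o) % q.b := by
    unfold okPK at hp2
    simp only [Bool.and_eq_true, Bool.not_eq_true'] at hp2
    obtain ⟨⟨⟨p1, p2⟩, -⟩, -⟩ := hp2
    have p1 := Nat.eq_of_beq_eq_true p1
    have p2 := negB_false p2
    have e1 : (o' + q.O).toNat = B.o := by
      have := hB2.o
      omega
    have e2 : (p.d : ℤ) + A.o = B.o + q.b * (q.D + d) := by
      rw [p1, Int.toNat_of_nonneg p2, hP2, hA2.o, hB2.o, ← hb]
      ring
    have e3 : 0 ≤ (q.D : ℤ) + d := by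
      unfold KQ.okD at hq
      simp only [Bool.and_eq_true, Nat.ble_eq] at hq
      have := hq.1.2
      omega
    have e4 : p.d + A.o = B.o + q.b * ((q.D : ℤ) + d).toNat := by
      have : ((p.d + A.o : ℕ) : ℤ) = ((B.o + q.b * ((q.D : ℤ) + d).toNat : ℕ) : ℤ) := by
        push_cast
        rw [Int.toNat_of_nonneg e3]
        exact e2
      exact_mod_cast this
    rw [e1, e4, Nat.add_mul_mod_self_left]
  rw [hres] at hB1
  exact cellK_sound hT hq hb htu htr hp2 hA2 hB2 hc1 hc2 hL hP2 hd1 hd2 hF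
    (patK_iff hc A hA1 p hp1 B hB1)

theorem KQ.okD_ok {q : KQ} {DM : ℕ} (h : q.okD DM = true) : q.ok = true := by
  unfold KQ.okD at h
  simp only [Bool.and_eq_true] at h
  exact h.1.1

/-- **no forbidden pattern between two child letters** -/
theorem kpat_key {mp : ℕ} {T : Dat} (hT : KDatOK S Kr mp T) {NA NB : ℕ → List (List ℤ)}
    (hZ : KNzOK S Kr T.n0 NA NB) {q : KQ} {DM n : ℕ} (hq : q.okD DM = true) (hb : q.b = S.b)
    {pats pats' : ℕ → ℕ → List PatE} {T' : ℕ} {tu tr : KT} (htu : tu.okU q T n)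
    (htr : tr.ok q T pats n) {KA : ℕ → List LN} {KB : ℕ → List (List LN)} {kp : ℕ → ℕ → List PK}
    (hKA : ∀ c < S.T, okKA S q T.n0 NA KA c = true) (hKB : ∀ c < S.T, okKB S q T.n0 NB KB c = true)
    (hkp : ∀ f < T', ∀ f' < T', okPKs q (pats' f f') (kp f f') = true)
    (hc : ∀ f < T', ∀ f' < T', patK q tu tr DM (kp f f') (KA f) (KB f') = true)
    (hchd : ∀ c < S.T, ∀ r < S.L, S.chd c r < T')
    {c c' : ℕ} (hc1 : c < S.T) (hc2 : c' < S.T) {d : ℤ} {D : ℤ → ℤ}
    (hL : KLocE S Kr.g pats c c' d D) (hd1 : -(DM : ℤ) ≤ d) (hd2 : d ≤ DM) {i j : ℕ}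
    (hi : i < S.L) (hj : j < S.L) :
    ∀ P ∈ pats' (S.chd c i) (S.chd c' j), P.d = S.b * d + S.off c' j - S.off c i →
      ¬ SatA (S.kFn Kr c (i + 1) c' j d D) (S.off c i + P.e) P.v := by
  refine cell_of hT hq hb htu htr (hkp _ (hchd c hc1 i hi) _ (hchd c' hc2 j hj))
    (hc _ (hchd c hc1 i hi) _ (hchd c' hc2 j hj)) hc1 hc2
    (okLN_sound (KQ.okD_ok hq) (allL_iff.1 (hKA c hc1) i (List.mem_range.2 hi)))
    (okLN_sound (KQ.okD_ok hq) (allL_iff.1 (hKB c' hc2) j (List.mem_range.2 hj)))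
    hL hd1 hd2 fun z => ?_
  rw [hZ.a c hc1 (i + 1) hi, hZ.b c' hc2 j hj.le, hT.tie.comb]
  rfl

end LWG
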