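import Pool.Agent.LWG.KeyC
import Pool.Agent.LWG.Asm

/-!
# Keyed cells: minimal violations

A minimal violation between two letters is `-1`, zeros, `1` at places given by the two letters, or the
profiles of both letters are negative (positive) at the same place.

* `vX`, `vps`: the boxes of the first kind, for all distances; **`kX_key`**;
* `kcellS`, `kevS`: the cells of the second kind; **`kev_key`**: no minimal violation;
* **`noKE_key`**: the hypothesis `hN` of `kgood_subE` for near coarse letters.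
-/

set_option autoImplicit false

namespace LWG

open LevelWords (Uni dl)

variable {S : Tab} {Kr : Ker} {K K' : Co} {D F : ℤ → ℤ} {g : List ℤ}

/-- `-1`, `n` zeros, `1` -/
def vX (n : ℕ) : List En := .ex (.negSucc 0) :: (List.replicate n (.ex (.ofNat 0)) ++ [.ex (.ofNat 1)])

theorem satA_rep : ∀ (n : ℕ) {x : ℤ} {l : List En}, (∀ z, x ≤ z → z < x + n → F z = 0) →
    SatA F (x + n) l → SatA F x (List.replicate n (.ex (.ofNat 0)) ++ l)
  | 0, x, l, _, h => by
    rw [Nat.cast_zero, add_zero] at h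
    exact h
  | n + 1, x, l, h0, h => by
    rw [List.replicate_succ, List.cons_append]
    refine ⟨h0 x le_rfl (by push_cast; omega), satA_rep n (fun z h1 h2 => h0 z (by omega)
      (by push_cast; omega)) ?_⟩
    rwa [show x + 1 + (n : ℤ) = x + ((n + 1 : ℕ) : ℤ) by push_cast; ring]

theorem satA_vX {x y : ℤ} (hxy : x < y) (hx : F x = -1) (hy : F y = 1)
    (h0 : ∀ z, x < z → z < y → F z = 0) : SatA F x (vX (y - x - 1).toNat) := by
  have e : ((y - x - 1).toNat : ℤ) = y - x - 1 := Int.toNat_of_nonneg (by omega)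
  refine ⟨hx, satA_rep _ (fun z h1 h2 => h0 z (by omega) (by omega)) ?_⟩
  rw [e, show x + 1 + (y - x - 1) = y by ring]
  exact ⟨hy, trivial⟩

/-- the violations `-1`, zeros, `1` for two letters at the distance `δ` -/
def vps1 (gN gP : List ℤ) (δ : ℤ) : List PatE :=
  gN.flatMap fun x => gP.flatMap fun y =>
    (bif posB (δ + y - x) then [⟨δ, x, vX (δ + y - x - 1).toNat⟩] else []) ++
    bif posB (y - (δ + x)) then [⟨δ, δ + x, vX (y - (δ + x) - 1).toNat⟩] else []

/-- all distances `δ, δ + 1, ...` -/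
def vps (gN gP : List ℤ) : ℕ → ℤ → List PatE
  | 0, _ => []
  | n + 1, δ => vps1 gN gP δ ++ vps gN gP n (δ + 1)

theorem mem_vps {gN gP : List ℤ} {P : PatE} : ∀ {n : ℕ} {δ x : ℤ}, δ ≤ x → x < δ + n →
    P ∈ vps1 gN gP x → P ∈ vps gN gP n δ
  | 0, δ, x, h1, h2, _ => by omega
  | n + 1, δ, x, h1, h2, h => by
    unfold vps
    rw [List.mem_append]
    rcases eq_or_lt_of_le h1 with h3 | h3
    · exact Or.inl (h3 ▸ h)
    · exact Or.inr (mem_vps (x := x) (by omega) (by push_cast at h2; omega) h)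

theorem mem_vps1 {gN gP : List ℤ} {δ x y : ℤ} (hx : x ∈ gN) (hy : y ∈ gP) (h : 0 < δ + y - x) :
    (⟨δ, x, vX (δ + y - x - 1).toNat⟩ : PatE) ∈ vps1 gN gP δ := by
  unfold vps1
  rw [List.mem_flatMap]
  refine ⟨x, hx, ?_⟩
  rw [List.mem_flatMap]
  refine ⟨y, hy, ?_⟩
  rw [List.mem_append]
  refine Or.inl ?_
  rw [posB_iff.2 h, cond_true]
  exact List.mem_singleton_self _

theorem mem_vps2 {gN gP : List ℤ} {δ x y : ℤ} (hx : x ∈ gN) (hy : y ∈ gP) (h : 0 < y - (δ + x)) :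
    (⟨δ, δ + x, vX (y - (δ + x) - 1).toNat⟩ : PatE) ∈ vps1 gN gP δ := by
  unfold vps1
  rw [List.mem_flatMap]
  refine ⟨x, hx, ?_⟩
  rw [List.mem_flatMap]
  refine ⟨y, hy, ?_⟩
  rw [List.mem_append]
  refine Or.inr ?_
  rw [posB_iff.2 h, cond_true]
  exact List.mem_singleton_self _

/-- closed letters of the first block of the type `c` -/
noncomputable def okCA (S : Tab) (q : KQ) (n0 : ℤ) (NA : ℕ → List (List ℤ)) (CA : List LN)
    (c : ℕ) : Bool :=
  allL (fun i => okLN q n0 c (S.off c i) ((NA c).getD i []) fun _ => CA) (List.range S.L)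

/-- closed letters of the last block of the type `c` -/
noncomputable def okCB (S : Tab) (q : KQ) (n0 : ℤ) (NB : ℕ → List (List ℤ)) (CB : List (List LN))
    (c : ℕ) : Bool :=
  allL (fun j => okLN q n0 c (S.off c j) ((NB c).getD (j + 1) []) fun r => nthL CB r)
    (List.range S.L)

/-- **no violation of the first kind** -/
theorem kX_key {mp : ℕ} {T : Dat} (hT : KDatOK S Kr mp T) {NA NB : ℕ → List (List ℤ)}
    (hZ : KNzOK S Kr T.n0 NA NB) {q : KQ} {DM n m : ℕ} (hq : q.okD DM = true) (hb : q.b = S.b)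
    {pats : ℕ → ℕ → List PatE} {tu tr : KT} (htu : tu.okU q T n) (htr : tr.ok q T pats n)
    {CA : List LN} {CB : List (List LN)} {kx : List PK} {gN gP : List ℤ} {δ : ℤ}
    (hCA : ∀ c < S.T, okCA S q T.n0 NA CA c = true) (hCB : ∀ c < S.T, okCB S q T.n0 NB CB c = true)
    (hkx : okPKs q (vps gN gP m δ) kx = true) (hc : patK q tu tr DM kx CA CB = true)
    {c c' : ℕ} (hc1 : c < S.T) (hc2 : c' < S.T) {d : ℤ} {D : ℤ → ℤ}
    (hL : KLocE S Kr.g pats c c' d D) (hd1 : -(DM : ℤ) ≤ d) (hd2 : d ≤ DM) {i j : ℕ}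
    (hi : i < S.L) (hj : j < S.L) (h1 : δ ≤ S.b * d + S.off c' j - S.off c i)
    (h2 : S.b * d + S.off c' j - S.off c i < δ + m) :
    ∀ P ∈ vps1 gN gP (S.b * d + S.off c' j - S.off c i),
      P.d = S.b * d + S.off c' j - S.off c i →
      ¬ SatA (S.kFn Kr c i c' (j + 1) d D) (S.off c i + P.e) P.v := by
  intro P hP
  refine cell_of hT hq hb htu htr hkx hc hc1 hc2
    (okLN_sound (KQ.okD_ok hq) (allL_iff.1 (hCA c hc1) i (List.mem_range.2 hi)))
    (okLN_sound (KQ.okD_ok hq) (allL_iff.1 (hCB c' hc2) j (List.mem_range.2 hj)))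
    hL hd1 hd2 (fun z => ?_) P (mem_vps h1 h2 hP)
  rw [hZ.a c hc1 i hi.le, hZ.b c' hc2 (j + 1) hj, hT.tie.comb]
  rfl

/-- no violation of the second kind -/
def kevS (K K' : Co) (σ σ' : Sol) (X : ℕ) (m : ℤ) (lv rv : List (List ℤ)) (ps : List PatE)
    (lv' rv' : List (List ℤ)) (ps' : List PatE) (d n0 : ℤ) (N : ℕ) (bd Z Z' nk : ℤ)
    (gN gP : List ℤ) (A B : ℤ) (u w : List ℤ) : Bool :=
  (gN.all fun x => !memB (A + x - B) gN ||
    kSE K σ X m lv rv ps d n0 bd (mx Z (A + x + nk)) nk (A + x) u w) &&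
  (gP.all fun y => !memB (A + y - B) gP ||
    kSE K' σ' X m lv' rv' ps' (-d) (-n0 - N) (-bd) (mx Z' (nk - 1 - (A + y))) nk (-1 - (A + y))
      (mv u) (mv w))

theorem kevS_sound (hN : K.Nn) (hN' : K'.Nn) {σ σ' : Sol} (hσ : okSol K σ 5 = true)
    (hσ' : okSol K' σ' 5 = true) (hb : 0 < K.b) (hb' : 0 < K'.b) {nk : ℤ}
    (hl : ∀ z, ((K.ks z).length : ℤ) ≤ nk + 1) (hl' : ∀ z, ((K'.ks z).length : ℤ) ≤ nk + 1)
    (hm : ∀ z, K'.comb (mir D) z = mir (K.comb D) z) {m : ℤ} {lv rv : List (List ℤ)}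
    {ps : List PatE} {d : ℤ} (h : LocE m lv rv ps d D)
    {lv' rv' : List (List ℤ)} {ps' : List PatE} (h' : LocE m lv' rv' ps' (-d) (mir D)) {X N : ℕ}
    {n0 bd Z Z' A B : ℤ} {u w : List ℤ}
    (hF : ∀ z, F z = nz n0 u z + K.comb D z + nz n0 w (z - bd)) (hu : u.length = N)
    (hw : w.length = N) (hZ : max (n0 + N) (bd + n0 + N) ≤ Z + 1)
    (hZ' : max (-n0) (-bd - n0) ≤ Z' + 1) {gN gP : List ℤ} (hg : Sgn g gN gP)
    (hc : kevS K K' σ σ' X m lv rv ps lv' rv' ps' d n0 N bd Z Z' nk gN gP A B u w = true)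
    (hx1 : ∀ x ∈ gN, ∀ y ∈ gP, 0 < B + y - (A + x) →
      ¬ SatA F (A + x) (vX (B + y - (A + x) - 1).toNat))
    (hx2 : ∀ x ∈ gN, ∀ y ∈ gP, 0 < A + y - (B + x) →
      ¬ SatA F (B + x) (vX (A + y - (B + x) - 1).toNat)) :
    ¬ KEv g A B F := by
  unfold kevS at hc
  simp only [Bool.and_eq_true, List.all_eq_true] at hc
  obtain ⟨hc1, hc2⟩ := hc
  rintro ⟨x, y, hxy, hx, hy, h0, hA, hB⟩
  simp only [prof_eq g A, prof_eq g B] at hA hB
  have e1 := mx_ge Z (x + nk)
  have e2 := mx_ge Z' (nk - 1 - y)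
  rcases hA with ⟨a1, a2⟩ | ⟨a1, a2⟩ <;> rcases hB with ⟨b1, b2⟩ | ⟨b1, b2⟩
  · -- both negative at `x`
    have h1 := hc1 _ (hg.n _ a1)
    rw [show A + (x - A) = x by ring] at h1
    have h2 := or_not h1 (memB_of (hg.n _ b1))
    exact kSE_sound hN hσ hb hl h hF (by omega) (by omega) h2 hxy a2 hy h0
  · -- negative at `x`, positive at `y`
    refine hx1 _ (hg.n _ a1) _ (hg.p _ b1) (by omega) ?_
    rw [show A + (x - A) = x by ring, show B + (y - B) - x - 1 = y - x - 1 by ring]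
    exact satA_vX hxy a2 b2 h0
  · refine hx2 _ (hg.n _ b1) _ (hg.p _ a1) (by omega) ?_
    rw [show B + (x - B) = x by ring, show A + (y - A) - x - 1 = y - x - 1 by ring]
    exact satA_vX hxy b2 a2 h0
  · -- both positive at `y`: mirror image
    have h1 := hc2 _ (hg.p _ a1)
    rw [show A + (y - A) = y by ring] at h1
    have h2 := or_not h1 (memB_of (hg.p _ b1))
    have hF' : ∀ z, mir F z = nz (-n0 - N) (mv u) z + K'.comb (mir D) z +
        nz (-n0 - N) (mv w) (z - -bd) := fun z => by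
      rw [hm, nz_mv hu, nz_mv hw]
      unfold mir
      rw [hF, show -1 - z - bd = -1 - (z - -bd) by ring]
      ring
    refine kSE_sound hN' hσ' hb' hl' h' hF' ?_ ?_ h2 (y := -1 - x) (by omega) ?_ ?_ ?_
    · rw [mv_length, hu]
      omega
    · rw [mv_length, hw]
      omega
    · unfold mir
      rw [show -1 - (-1 - y) = y by ring, a2]
    · unfold mir
      rw [show -1 - (-1 - x) = x by ring]
      omega
    · intro z h3 h4
      unfold mir
      rw [h0 (-1 - z) (by omega) (by omega)]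
      rfl

/-- no violation of the second kind between the letters `A` and `B`, at the coarse distance `d` -/
def kcellS (T : Dat) (pats : ℕ → ℕ → List PatE) (M : DatM) (gN gP : List ℤ) (d : ℤ)
    (A B : Ltr) : Bool :=
  kevS T.K M.K T.σ M.σ T.X T.m (T.lv A.c) (T.rv B.c) (psD d (pats A.c B.c)) (M.lv A.c)
    (M.rv B.c) ((psD d (pats A.c B.c)).map PatE.mr) d T.n0 M.N (T.K.b * d)
    (mx (T.n0 + M.N) (T.K.b * d + T.n0 + M.N) - 1)
    (mx (-T.n0) (-(T.K.b * d) - T.n0) - 1) M.nk gN gP A.o (T.K.b * d + B.o) A.v B.v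

/-- all near distances, the first letters `As` -/
def kevSA (T : Dat) (pats : ℕ → ℕ → List PatE) (M : DatM) (gN gP : List ℤ) (LB : ℕ → List Ltr)
    (n c' : ℕ) (As : List Ltr) : Bool :=
  As.all fun A => (nearD n).all fun d => (LB c').all fun B => kcellS T pats M gN gP d A B

/-- **no minimal violation between two child letters** -/
theorem kev_key {mp : ℕ} {T : Dat} (hT : KDatOK S Kr mp T) {NA NB : ℕ → List (List ℤ)}
    (hZ : KNzOK S Kr T.n0 NA NB) {q : KQ} {DM n m : ℕ} (hq : q.okD DM = true) (hb : q.b = S.b)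
    {pats : ℕ → ℕ → List PatE} {tu tr : KT} (htu : tu.okU q T n) (htr : tr.ok q T pats n)
    {CA : List LN} {CB : List (List LN)} {kx : List PK} {gN gP : List ℤ} {lo hi : ℤ}
    (hCA : ∀ c < S.T, okCA S q T.n0 NA CA c = true) (hCB : ∀ c < S.T, okCB S q T.n0 NB CB c = true)
    (hkx : okPKs q (vps gN gP m (lo - hi - S.b * DM)) kx = true)
    (hm : 2 * (S.b * DM + hi - lo) < m) (hrng : ∀ c < S.T, S.okR lo hi c = true)
    (hc : patK q tu tr DM kx CA CB = true) {M : DatM}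
    (hM : KDatMOK S Kr T (fun _ _ => []) NA NB M) (hg : Sgn Kr.g gN gP)
    {LA LB : ℕ → List Ltr} (hLt : KLtrOK S NA NB LA LB)
    (hS : ∀ c < S.T, ∀ c' < S.T, kevSA T pats M gN gP LB DM c' (LA c) = true)
    {c c' : ℕ} (hc1 : c < S.T) (hc2 : c' < S.T) {d : ℤ} {D : ℤ → ℤ}
    (hL : KLocE S Kr.g pats c c' d D) (hd1 : -(DM : ℤ) ≤ d) (hd2 : d ≤ DM) {i j : ℕ}
    (hi : i < S.L) (hj : j < S.L) :
    ¬ KEv Kr.g (S.off c i) (S.b * d + S.off c' j) (S.kFn Kr c i c' (j + 1) d D) := by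
  have hX := kX_key hT hZ hq hb htu htr hCA hCB hkx hc hc1 hc2 hL hd1 hd2 hi hj
  have hSS : kcellS T pats M gN gP d ⟨c, S.off c i, (NA c).getD i []⟩
      ⟨c', S.off c' j, (NB c').getD (j + 1) []⟩ = true := by
    have h1 := hS c hc1 c' hc2
    unfold kevSA at h1
    simp only [List.all_eq_true] at h1
    exact h1 _ (hLt.a c hc1 i hi) d (mem_nearD DM hd1 hd2) _ (hLt.b c' hc2 j hj)
  have r1 := hrng c hc1
  have r2 := hrng c' hc2
  unfold Tab.okR at r1 r2
  simp only [List.all_eq_true, Bool.and_eq_true, decide_eq_true_eq, List.mem_range] at r1 r2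
  have r1 := r1 i hi
  have r2 := r2 j hj
  have hb0 : (0 : ℤ) < S.b := by exact_mod_cast hT.tie.b0
  have e3 : (S.b : ℤ) * d ≤ S.b * DM := mul_le_mul_of_nonneg_left hd2 hb0.le
  have e4 : -((S.b : ℤ) * DM) ≤ S.b * d := by
    rw [← mul_neg]
    exact mul_le_mul_of_nonneg_left hd1 hb0.le
  have hX := hX (by omega) (by omega)
  unfold kcellS at hSS
  simp only [hM.lv c hc1, hM.rv c' hc2] at hSS
  have hV := (hT.locE hc1 hc2 hL).psD
  have hb2 : T.K.b = (S.b : ℤ) := hT.tie.b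
  have hb2' : M.K.b = (S.b : ℤ) := hM.tie.b
  have e1 := mx_ge (T.n0 + M.N) (T.K.b * d + T.n0 + M.N)
  have e2 := mx_ge (-T.n0) (-(T.K.b * d) - T.n0)
  rw [← hb2]
  refine kevS_sound hT.tie.nn' hM.tie.nn' hT.sol hM.sol (by rw [hb2]; exact hb0)
    (by rw [hb2']; exact hb0) (Co.len_of hT.tie hM.ln) (Co.len_of hM.tie hM.ln')
    (fun z => ?_) hV
    (hV.mirror (fun v hv => length_klvec (hT.lv c hc1 v hv))
      fun v hv => length_krvec (hT.rv c' hc2 v hv))
    (fun z => ?_) (hM.na c hc1 i hi.le) (hM.nb c' hc2 (j + 1) hj) (by omega) (by omega) hg hSS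
    (fun x hx y hy h => ?_) fun x hx y hy h => ?_
  · rw [hM.tie.comb, comb_mir hT.tie.b0]
    unfold mir
    rw [hT.tie.comb]
  · rw [hZ.a c hc1 i hi.le, hZ.b c' hc2 (j + 1) hj, hT.tie.comb, hb2]
    rfl
  · have h1 := hX _ (mem_vps1 hx hy (by rw [hb2] at h; omega)) rfl
    rw [hb2]
    rwa [show S.b * d + S.off c' j - S.off c i + y - x - 1 =
      S.b * d + S.off c' j + y - (S.off c i + x) - 1 by ring] at h1
  · have h1 := hX _ (mem_vps2 hx hy (by rw [hb2] at h; omega)) rfl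
    rw [hb2]
    rwa [show S.off c i + (S.b * d + S.off c' j - S.off c i + x) = S.b * d + S.off c' j + x by ring,
      show y - (S.b * d + S.off c' j - S.off c i + x) - 1 =
        S.off c i + y - (S.b * d + S.off c' j + x) - 1 by ring] at h1

end LWG
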