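import Pool.Agent.LWG.Leaf
import Pool.Agent.LWG.Ops

/-!
# Substitution words: fast leaves

Exact values `D x` are natural numbers `D x + 1000`, edges are `x + 64`, changes are `+ 8`.
`vioP`: some change violates unimodality. Instead of all changes `l + r` it uses PAIR TABLES: for
two edges `y < z` the pairs `(l y, l z)` and `(r y, r z)` (only the extreme ones need be listed).
`leafN`: that, or a forbidden pattern occurs.
-/

namespace LWG

open LevelWords (Uni)

/-- pair table: rows for the edges `z = top, top - 1, ...`; a row lists, for `y = z - 1, z - 2, ...`,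
pairs (change at `y` plus 8, change at `z` plus 8) -/
abbrev PT := List (List (List (ℕ × ℕ)))

def dflt : List (ℕ × ℕ) := [(8, 8)]

noncomputable def hdR (l : PT) : List (List (ℕ × ℕ)) :=
  List.rec (motive := fun _ => List (List (ℕ × ℕ))) [] (fun a _ _ => a) l

noncomputable def tlR (l : PT) : PT := List.rec (motive := fun _ => PT) [] (fun _ l _ => l) l

noncomputable def hdP (l : List (List (ℕ × ℕ))) : List (ℕ × ℕ) :=
  List.rec (motive := fun _ => List (ℕ × ℕ)) dflt (fun a _ _ => a) l

noncomputable def tlP (l : List (List (ℕ × ℕ))) : List (List (ℕ × ℕ)) :=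
  List.rec (motive := fun _ => List (List (ℕ × ℕ))) [] (fun _ l _ => l) l

/-- `a && b`, by the recursor -/
noncomputable def andB (a b : Bool) : Bool := Bool.rec (motive := fun _ => Bool) false b a

/-- `a || b`, by the recursor -/
noncomputable def orB (a b : Bool) : Bool := Bool.rec (motive := fun _ => Bool) b true a

theorem andB_iff {a b : Bool} : andB a b = true ↔ a = true ∧ b = true := by
  cases a <;> simp [andB]

theorem orB_iff {a b : Bool} : orB a b = true ↔ a = true ∨ b = true := by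
  cases a <;> simp [orB]

/-- some pair of changes makes the lower value `xy` negative and the upper value `xz` positive -/
noncomputable def pairV (Lp Rp : List (ℕ × ℕ)) (xy xz : ℕ) : Bool :=
  anyL (fun p => anyL (fun q =>
    andB (Nat.ble (Nat.add (Nat.add xy p.1) q.1) 1015)
      (Nat.ble 1017 (Nat.add (Nat.add xz p.2) q.2))) Rp) Lp

/-- the upper value `xz`, and all lower values -/
noncomputable def rowV (xz : ℕ) (xs : List ℕ) : List (List (ℕ × ℕ)) → List (List (ℕ × ℕ)) → Bool :=
  List.rec (motive := fun _ => List (List (ℕ × ℕ)) → List (List (ℕ × ℕ)) → Bool)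
    (fun _ _ => false)
    (fun xy _ ih L R => orB (pairV (hdP L) (hdP R) xy xz) (ih (tlP L) (tlP R))) xs

/-- all pairs of values -/
noncomputable def vioP (vec : List ℕ) : PT → PT → Bool :=
  List.rec (motive := fun _ => PT → PT → Bool) (fun _ _ => false)
    (fun x xs ih L R => orB (rowV x xs (hdR L) (hdR R)) (ih (tlR L) (tlR R))) vec

/-- `n` empty rows before the table -/
noncomputable def padR (pl : PT) (n : ℕ) : PT :=
  Nat.rec (motive := fun _ => PT) pl (fun _ ih => [] :: ih) n

/-- the rows from the edge `I` on, of a table with the top edge `TE` -/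
noncomputable def shfR (TE : ℕ) (pl : PT) (I : ℕ) : PT :=
  Bool.rec (motive := fun _ => PT) (padR pl (Nat.sub I TE)) (pl.drop (Nat.sub TE I)) (Nat.ble I TE)

/-- the values `v` begin the list -/
noncomputable def preN (v : List ℕ) : List ℕ → Bool :=
  List.rec (motive := fun _ => List ℕ → Bool) (fun _ => true)
    (fun a _ ih l => List.rec (motive := fun _ => Bool) false
      (fun b l' _ => andB (Nat.beq a b) (ih l')) l) v

/-- a forbidden pattern: distance, top edge, values from the top down -/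
structure PatN where
  d : ℕ
  e : ℕ
  v : List ℕ

/-- the values, from the lowest edge up -/
def decV (v : List ℕ) : List ℤ := v.reverse.map (fun n : ℕ => (n : ℤ) - 1000)

/-- the pattern -/
def PatN.dec (q : PatN) : Pat :=
  ⟨(q.d : ℤ) - 64, (q.e : ℤ) - 64 - q.v.length + 1, decV q.v⟩

/-- a pattern occurs -/
noncomputable def hitN (ps : List PatN) (d I : ℕ) (vec : List ℕ) : Bool :=
  anyL (fun q => andB (Nat.beq q.d d) (andB (Nat.ble q.e I)
    (preN q.v (vec.drop (Nat.sub I q.e))))) ps

/-- **The leaf.** `TL`, `TR` are the pair tables with the top edge `TE` (the one at the end is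
relative to the end), `d` the distance, `I` the top edge of `vec`. -/
noncomputable def leafN (TE : ℕ) (TL TR : PT) (ps : List PatN) (d I : ℕ) (vec : List ℕ) : Bool :=
  orB (vioP vec (shfR TE TL I) (shfR TE TR (Nat.sub (Nat.add I 64) d))) (hitN ps d I vec)

/-! ## Soundness -/

/-- exact values at the edges `I, I - 1, ...` -/
def CodD (D : ℤ → ℤ) : ℤ → List ℕ → Prop
  | _, [] => True
  | I, x :: xs => (x : ℤ) = D I + 1000 ∧ CodD D (I - 1) xs

/-- row of the edge `z` -/
def rowAt (TE : ℤ) (pl : PT) (z : ℤ) : List (List (ℕ × ℕ)) :=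
  match TE - z with
  | .ofNat n => pl.getD n []
  | .negSucc _ => []

/-- `L` lists the rows of the edges `I, I - 1, ...` -/
def AlR (TE : ℤ) (pl : PT) (I : ℤ) (L : PT) : Prop := ∀ i : ℕ, L.getD i [] = rowAt TE pl (I - i)

/-- all listed pairs are pairs of values of some change -/
def PTok (m : ℤ) (lv : List (List ℤ)) (TE : ℤ) (pl : PT) : Prop :=
  ∀ z : ℤ, ∀ j : ℕ, ∀ p ∈ (rowAt TE pl z).getD j dflt,
    ∃ l ∈ lv, (p.1 : ℤ) = vf m l (z - 1 - j) + 8 ∧ (p.2 : ℤ) = vf m l z + 8

theorem hdR_eq (l : PT) : hdR l = l.getD 0 [] := by cases l <;> rfl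

theorem tlR_eq (l : PT) (i : ℕ) : (tlR l).getD i [] = l.getD (i + 1) [] := by
  rcases l with _ | ⟨a, l⟩
  · rfl
  · rw [List.getD_cons_succ]
    rfl

theorem hdP_eq (l : List (List (ℕ × ℕ))) : hdP l = l.getD 0 dflt := by cases l <;> rfl

theorem tlP_eq (l : List (List (ℕ × ℕ))) (i : ℕ) : (tlP l).getD i dflt = l.getD (i + 1) dflt := by
  rcases l with _ | ⟨a, l⟩
  · rfl
  · rw [List.getD_cons_succ]
    rfl

variable {D : ℤ → ℤ} {m TE : ℤ} {pl pr : PT} {lv rv : List (List ℤ)} {d : ℤ}

theorem AlR.hd {I : ℤ} {L : PT} (h : AlR TE pl I L) : hdR L = rowAt TE pl I := by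
  rw [hdR_eq, h 0]
  simp

theorem AlR.tl {I : ℤ} {L : PT} (h : AlR TE pl I L) : AlR TE pl (I - 1) (tlR L) := by
  intro i
  rw [tlR_eq, h (i + 1)]
  congr 1
  push_cast
  ring

/-- some change is not unimodal -/
def Bad (D : ℤ → ℤ) (m : ℤ) (lv rv : List (List ℤ)) (d : ℤ) : Prop :=
  ∃ l ∈ lv, ∃ r ∈ rv, ∃ y z, y < z ∧ D y + (vf m l y + vf m r (y - d)) < 0 ∧
    0 < D z + (vf m l z + vf m r (z - d))

theorem rowV_sound (hL : PTok m lv TE pl) (hR : PTok m rv TE pr) {z : ℤ} {xz : ℕ}
    (hz : (xz : ℤ) = D z + 1000) : ∀ (xs : List ℕ) (k : ℕ) (L R : List (List (ℕ × ℕ))),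
    (∀ j, L.getD j dflt = (rowAt TE pl z).getD (k + j) dflt) →
    (∀ j, R.getD j dflt = (rowAt TE pr (z - d)).getD (k + j) dflt) →
    CodD D (z - 1 - k) xs → rowV xz xs L R = true → Bad D m lv rv d
  | [], k, L, R, _, _, _, h => by simp [rowV] at h
  | xy :: xs, k, L, R, h1, h2, h3, h => by
    have h : orB (pairV (hdP L) (hdP R) xy xz) (rowV xz xs (tlP L) (tlP R)) = true := h
    rw [orB_iff] at h
    rcases h with h | h
    · unfold pairV at h
      rw [anyL_iff] at h
      obtain ⟨p, hp, h⟩ := h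
      rw [anyL_iff] at h
      obtain ⟨q, hq, h⟩ := h
      rw [andB_iff, Nat.ble_eq, Nat.ble_eq] at h
      obtain ⟨h4, h5⟩ := h
      rw [hdP_eq, h1 0] at hp
      rw [hdP_eq, h2 0] at hq
      obtain ⟨l, hl, e1, e2⟩ := hL z _ p hp
      obtain ⟨r, hr, e3, e4⟩ := hR (z - d) _ q hq
      have e5 := h3.1
      simp only [add_zero] at e1 e3
      refine ⟨l, hl, r, hr, z - 1 - k, z, by omega, ?_, ?_⟩
      · rw [show z - 1 - (k : ℤ) - d = z - d - 1 - k by ring]
        change xy + p.1 + q.1 ≤ 1015 at h4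
        omega
      · change 1017 ≤ xz + p.2 + q.2 at h5
        omega
    · refine rowV_sound hL hR hz xs (k + 1) (tlP L) (tlP R) (fun j => ?_) (fun j => ?_) ?_ h
      · rw [tlP_eq, h1 (j + 1)]
        congr 1
        ring
      · rw [tlP_eq, h2 (j + 1)]
        congr 1
        ring
      · rw [show z - 1 - ((k + 1 : ℕ) : ℤ) = z - 1 - k - 1 by push_cast; ring]
        exact h3.2

theorem vioP_sound (hL : PTok m lv TE pl) (hR : PTok m rv TE pr) : ∀ (vec : List ℕ) (I : ℤ)
    (L R : PT), AlR TE pl I L → AlR TE pr (I - d) R → CodD D I vec → vioP vec L R = true →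
    Bad D m lv rv d
  | [], I, L, R, _, _, _, h => by simp [vioP] at h
  | x :: xs, I, L, R, h1, h2, h3, h => by
    have h : orB (rowV x xs (hdR L) (hdR R)) (vioP xs (tlR L) (tlR R)) = true := h
    rw [orB_iff] at h
    rcases h with h | h
    · rw [h1.hd, h2.hd] at h
      refine rowV_sound hL hR h3.1 xs 0 _ _ (fun j => by rw [Nat.zero_add])
        (fun j => by rw [Nat.zero_add]) ?_ h
      rw [Nat.cast_zero, sub_zero]
      exact h3.2
    · refine vioP_sound hL hR xs (I - 1) _ _ h1.tl ?_ h3.2 h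
      have := h2.tl
      rwa [show I - d - 1 = I - 1 - d by ring] at this

theorem getD_padR (pl : PT) : ∀ (n i : ℕ), (padR pl n).getD i [] =
    if i < n then [] else pl.getD (i - n) []
  | 0, i => by simp [padR]
  | n + 1, i => by
    have e : padR pl (n + 1) = [] :: padR pl n := rfl
    rw [e]
    rcases i with _ | i
    · simp
    · rw [List.getD_cons_succ, getD_padR pl n i]
      simp only [Nat.add_lt_add_iff_right, Nat.add_sub_add_right]

theorem alR_shfR (TE : ℕ) (pl : PT) (I : ℕ) :
    AlR ((TE : ℤ) - 64) pl ((I : ℤ) - 64) (shfR TE pl I) := by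
  intro i
  unfold shfR rowAt
  rcases h : Nat.ble I TE with _ | _
  · have h' : TE < I := by
      by_contra hc
      rw [← Bool.not_eq_true, Nat.ble_eq] at h
      omega
    change (padR pl (I - TE)).getD i [] = _
    rw [getD_padR]
    split_ifs with h1
    · rw [show (TE : ℤ) - 64 - ((I : ℤ) - 64 - i) = Int.negSucc (I - TE - i - 1) by
        rw [Int.negSucc_eq]
        omega]
    · rw [show (TE : ℤ) - 64 - ((I : ℤ) - 64 - i) = Int.ofNat (i - (I - TE)) by
        change _ = ((i - (I - TE) : ℕ) : ℤ)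
        omega]
  · have h' : I ≤ TE := by rwa [Nat.ble_eq] at h
    change (pl.drop (TE - I)).getD i [] = _
    rw [show (TE : ℤ) - 64 - ((I : ℤ) - 64 - i) = Int.ofNat (TE - I + i) by
      change _ = ((TE - I + i : ℕ) : ℤ)
      omega]
    simp [List.getD_eq_getElem?_getD, List.getElem?_drop]

theorem codD_drop : ∀ (n : ℕ) {I : ℤ} {vec : List ℕ}, CodD D I vec → CodD D (I - n) (vec.drop n)
  | 0, I, vec, h => by simpa using h
  | n + 1, I, [], _ => by simp [CodD]
  | n + 1, I, e :: es, h => by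
    rw [List.drop_succ_cons, show I - ((n + 1 : ℕ) : ℤ) = I - 1 - n by push_cast; ring]
    exact codD_drop n h.2

theorem preN_sound : ∀ (v l : List ℕ) (I : ℤ), preN v l = true → CodD D I l → CodD D I v
  | [], _, _, _, _ => trivial
  | a :: v, [], I, h, _ => by simp [preN] at h
  | a :: v, b :: l, I, h, h2 => by
    have h : andB (Nat.beq a b) (preN v l) = true := h
    rw [andB_iff, Nat.beq_eq] at h
    exact ⟨by rw [h.1]; exact h2.1, preN_sound v l (I - 1) h.2 h2.2⟩

theorem agr_append : ∀ (l₁ l₂ : List ℤ) (x : ℤ), Agr D x (l₁ ++ l₂) ↔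
    Agr D x l₁ ∧ Agr D (x + l₁.length) l₂
  | [], l₂, x => by simp [Agr]
  | e :: l₁, l₂, x => by
    have ih := agr_append l₁ l₂ (x + 1)
    simp only [List.cons_append, Agr, List.length_cons, ih]
    rw [show x + 1 + (l₁.length : ℤ) = x + ((l₁.length + 1 : ℕ) : ℤ) by push_cast; ring]
    tauto

theorem codD_agr : ∀ (v : List ℕ) (I : ℤ), CodD D I v →
    Agr D (I - v.length + 1) (decV v)
  | [], I, _ => by simp [Agr, decV]
  | a :: v, I, h => by
    have ih := codD_agr v (I - 1) h.2
    unfold decV at ih ⊢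
    rw [List.reverse_cons, List.map_append, agr_append]
    refine ⟨?_, ?_, trivial⟩
    · rwa [show I - ((a :: v).length : ℤ) + 1 = I - 1 - v.length + 1 by
        rw [List.length_cons]; push_cast; ring]
    · rw [List.length_map, List.length_reverse, show I - ((a :: v).length : ℤ) + 1 + v.length = I by
        rw [List.length_cons]; push_cast; ring]
      have := h.1
      change D I = (a : ℤ) - 1000
      omega

theorem hitN_sound {ps : List PatN} (hP : ∀ P ∈ ps.map PatN.dec, P.d = d → ¬ Agr D P.e P.v)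
    {d' I : ℕ} (hd : (d' : ℤ) = d + 64) {vec : List ℕ} (hv : CodD D ((I : ℤ) - 64) vec)
    (h : hitN ps d' I vec = true) : False := by
  unfold hitN at h
  rw [anyL_iff] at h
  obtain ⟨q, hq, h⟩ := h
  rw [andB_iff, andB_iff, Nat.beq_eq, Nat.ble_eq] at h
  obtain ⟨h1, h2, h3⟩ := h
  have h4 := preN_sound q.v _ _ h3 (codD_drop (I - q.e) hv)
  rw [show (I : ℤ) - 64 - ((I - q.e : ℕ) : ℤ) = (q.e : ℤ) - 64 by omega] at h4
  refine hP q.dec (List.mem_map.2 ⟨q, hq, rfl⟩) ?_ ?_
  · change (q.d : ℤ) - 64 = d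
    omega
  · exact codD_agr q.v _ h4

/-- **Soundness of the fast leaf.** -/
theorem leafN_sound {ps : List PatN} {TE : ℕ} {TL TR : PT}
    (h : LocV m lv rv (ps.map PatN.dec) d D) (hL : PTok m lv ((TE : ℤ) - 64) TL)
    (hR : PTok m rv ((TE : ℤ) - 64) TR) {d' I : ℕ} (hd : (d' : ℤ) = d + 64) (hI : d' ≤ I + 64)
    {vec : List ℕ} (hv : CodD D ((I : ℤ) - 64) vec)
    (hl : leafN TE TL TR ps d' I vec = true) : False := by
  unfold leafN at hl
  rw [orB_iff] at hl
  rcases hl with hl | hl
  · have h2 := alR_shfR TE TR (I + 64 - d')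
    rw [show (((I + 64 - d' : ℕ) : ℤ) - 64) = (I : ℤ) - 64 - d by omega] at h2
    obtain ⟨l, hl', r, hr', y, z, hyz, h3, h4⟩ := vioP_sound (D := D) hL hR vec ((I : ℤ) - 64) _ _
      (alR_shfR TE TL I) h2 hv hl
    exact h.adm l hl' r hr' y z hyz h3 h4
  · exact hitN_sound h.pat hd hv hl

/-! ## The check of a pair table -/

/-- one pair -/
def okPair (m : ℤ) (lv : List (List ℤ)) (y z : ℤ) (p : ℕ × ℕ) : Bool :=
  lv.any fun l => zeB (vf m l y + 8 - (p.1 : ℤ)) && zeB (vf m l z + 8 - (p.2 : ℤ))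

def okRow (m : ℤ) (lv : List (List ℤ)) (z : ℤ) : List (List (ℕ × ℕ)) → ℤ → Bool
  | [], _ => true
  | ps :: rs, y => (ps.all fun p => okPair m lv y z p) && okRow m lv z rs (y - 1)

def okRows (m : ℤ) (lv : List (List ℤ)) : PT → ℤ → Bool
  | [], _ => true
  | r :: rs, z => okRow m lv z r (z - 1) && okRows m lv rs (z - 1)

/-- the pair table `pl` with the top edge `TE` -/
def okPT (m : ℤ) (lv : List (List ℤ)) (TE : ℤ) (pl : PT) : Bool :=
  (lv.any fun l => l.all fun x => zeB x) && okRows m lv pl TE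

theorem okRow_sound {lv : List (List ℤ)} {z : ℤ} : ∀ (rs : List (List (ℕ × ℕ))) (y : ℤ),
    okRow m lv z rs y = true → ∀ j < rs.length, ∀ p ∈ rs.getD j dflt,
    ∃ l ∈ lv, (p.1 : ℤ) = vf m l (y - j) + 8 ∧ (p.2 : ℤ) = vf m l z + 8
  | [], y, _, j, hj, _, _ => by simp at hj
  | ps :: rs, y, h, j, hj, p, hp => by
    simp only [okRow, Bool.and_eq_true, List.all_eq_true] at h
    rcases j with _ | j
    · have := h.1 p (by simpa using hp)
      simp only [okPair, List.any_eq_true, Bool.and_eq_true, zeB_iff] at this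
      obtain ⟨l, hl, h1, h2⟩ := this
      exact ⟨l, hl, by simp only [Nat.cast_zero, sub_zero]; omega, by omega⟩
    · rw [List.getD_cons_succ] at hp
      have := okRow_sound rs (y - 1) h.2 j (by simpa using hj) p hp
      rwa [show y - ((j + 1 : ℕ) : ℤ) = y - 1 - j by push_cast; ring]

theorem okRows_sound {lv : List (List ℤ)} : ∀ (rs : PT) (z : ℤ), okRows m lv rs z = true →
    ∀ i < rs.length, ∀ j < (rs.getD i []).length, ∀ p ∈ (rs.getD i []).getD j dflt,
    ∃ l ∈ lv, (p.1 : ℤ) = vf m l (z - i - 1 - j) + 8 ∧ (p.2 : ℤ) = vf m l (z - i) + 8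
  | [], z, _, i, hi, _, _, _, _ => by simp at hi
  | r :: rs, z, h, i, hi, j, hj, p, hp => by
    simp only [okRows, Bool.and_eq_true] at h
    rcases i with _ | i
    · have := okRow_sound r (z - 1) h.1 j (by simpa using hj) p (by simpa using hp)
      simpa only [Nat.cast_zero, sub_zero] using this
    · rw [List.getD_cons_succ] at hp hj
      have := okRows_sound rs (z - 1) h.2 i (by simpa using hi) j hj p hp
      rwa [show z - ((i + 1 : ℕ) : ℤ) = z - 1 - i by push_cast; ring]

theorem vf_allZero {l : List ℤ} (h : ∀ x ∈ l, x = 0) (y : ℤ) : vf m l y = 0 := by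
  unfold vf
  rcases m - y with n | n
  · simp only
    rw [List.getD_eq_getElem?_getD]
    rcases h' : l[n]? with _ | x
    · rfl
    · exact h x (List.mem_of_getElem? h')
  · rfl

/-- **the check of a pair table is sound** -/
theorem ptok_of {lv : List (List ℤ)} {TE : ℤ} {pl : PT} (h : okPT m lv TE pl = true) :
    PTok m lv TE pl := by
  simp only [okPT, Bool.and_eq_true, List.any_eq_true, List.all_eq_true, zeB_iff] at h
  obtain ⟨⟨l0, hl0, h0⟩, h⟩ := h
  intro z j p hp
  have hz : p ∈ dflt → ∃ l ∈ lv, (p.1 : ℤ) = vf m l (z - 1 - j) + 8 ∧ (p.2 : ℤ) = vf m l z + 8 := by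
    intro hp
    simp only [dflt, List.mem_singleton] at hp
    subst hp
    exact ⟨l0, hl0, by rw [vf_allZero h0]; rfl, by rw [vf_allZero h0]; rfl⟩
  unfold rowAt at hp
  rcases hn : TE - z with n | n
  · rw [hn] at hp
    simp only at hp
    have hn' : TE - z = (n : ℤ) := hn
    rcases lt_or_ge n pl.length with h1 | h1
    · rcases lt_or_ge j (pl.getD n []).length with h2 | h2
      · have := okRows_sound pl TE h n h1 j h2 p hp
        rw [show TE - (n : ℤ) = z by omega] at this
        exact this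
      · rw [List.getD_eq_getElem?_getD (l := pl.getD n []), List.getElem?_eq_none h2] at hp
        exact hz hp
    · rw [List.getD_eq_getElem?_getD (l := pl), List.getElem?_eq_none h1] at hp
      exact hz hp
  · rw [hn] at hp
    exact hz hp

end LWG
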