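import Pool.Agent.LWG.Asm
import Pool.Agent.LWG.Short
import Pool.Agent.LWG.Start
import Pool.Agent.LWG.EvT
import Pool.Agent.LWG.GrowTab

/-!
# Typed substitutions of words: a table which passes all checks

* `ChkT`: the checks of the table, of the blocks and of the short windows;
* `ChkN`: the checks of the near and the far windows;
* **`good_all`**: every iterate of a start word has the invariant, **`lines_all`**, **`lines_all_rat`**:
  pseudolines with a level of `n ^ e` vertices.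
-/

set_option autoImplicit false

namespace LWG

open LevelWords LevelPseudo LevelLower

/-- The table, its blocks and the short windows. `N`, `lo`, `w`, `z0`, `wl`, `Z` are ranges. -/
structure ChkT (S : Tab) (pats : ℕ → ℕ → List Pat) (N : ℕ) (lo : ℤ) (w : ℕ) (z0 : ℤ) (wl Z : ℕ)
    (SA SB : ℕ → List Half) : Prop where
  okG : S.okG N = true
  okC : ∀ c < S.T, S.okC N c = true
  bl : ∀ c < S.T, S.chkBl pats lo w c = true
  off : ∀ c < S.T, S.chkOff z0 wl c = true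
  ha : ∀ c < S.T, Tab.subH (S.halfA z0 wl c) (SA c) = true
  hb : ∀ c < S.T, Tab.subH (S.halfB z0 wl c) (SB c) = true
  short : ∀ c < S.T, S.chkShort pats z0 wl Z SA SB c = true

theorem ChkT.ok {S : Tab} {pats : ℕ → ℕ → List Pat} {N : ℕ} {lo : ℤ} {w : ℕ} {z0 : ℤ} {wl Z : ℕ}
    {SA SB : ℕ → List Half} (h : ChkT S pats N lo w z0 wl Z SA SB) : S.OK := Tab.ok_of h.okG h.okC

/-- The near and the far windows; `n + 1` bounds the coarse distances of the near windows. -/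
structure ChkN (S : Tab) (pats : ℕ → ℕ → List Pat) (lo hi : ℤ) (n : ℕ) (zc : List (List ℤ))
    (T : Dat) (M : DatM) (len : ℕ) (NA NB : ℕ → List (List ℤ)) (PA PB : ℕ → List Ltr) : Prop where
  okN : S.okN lo hi = true
  okR : ∀ c < S.T, S.okR lo hi c = true
  zr : S.zrun lo hi n zc = true
  small : ∀ c < S.T, ∀ c' < S.T, Tab.smallP pats (S.b * (n + 2) - (hi - lo)) c c' = true
  dat : DatOK S T
  datM : DatMOK S T pats NA NB M
  nz : ∀ c < S.T, S.okNz T.n0 len NA NB c = true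
  par : ∀ c < S.T, S.okPar NA NB PA PB c = true
  cP : ∀ f < S.T, ∀ f' < S.T, ∀ P ∈ pats f f', ∀ A ∈ PA f, ∀ B ∈ PB f',
    cellP T pats ((n : ℤ) + 1) P A B = true
  cE : ∀ c < S.T, ∀ c' < S.T, ∀ d : ℤ, -((n : ℤ) + 1) ≤ d → d ≤ n + 1 → ∀ i < S.L, ∀ j < S.L,
    cellE T pats M d ⟨c, S.off c i, (NA c).getD i []⟩ ⟨c', S.off c' j, (NB c').getD j []⟩ = true

section

variable {S : Tab} {pats : ℕ → ℕ → List Pat} {N : ℕ} {lo : ℤ} {w : ℕ} {z0 : ℤ} {wl Z : ℕ}
  {SA SB : ℕ → List Half} {lo' hi' : ℤ} {n : ℕ} {zc : List (List ℤ)} {T : Dat} {M : DatM} {len : ℕ}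
  {NA NB : ℕ → List (List ℤ)} {PA PB : ℕ → List Ltr}

/-- **the invariant is preserved** -/
theorem good_step (h : ChkT S pats N lo w z0 wl Z SA SB)
    (hn : ChkN S pats lo' hi' n zc T M len NA NB PA PB) {W : ℤ → ℤ} {ty : ℤ → ℕ}
    (hG : Good S pats W ty) : Good S pats (S.subW W ty) (S.subT ty) :=
  good_sub h.ok (Tab.hB_of h.bl) (Tab.hS_of h.ok.m1 h.ok.b0 h.off h.ha h.hb h.short)
    (Tab.hN_of h.ok (Tab.nice_of h.ok hn.okN hn.okR) hn.zr hn.small
      fun _ hc _ hc' _ hd1 hd2 _ hL _ hi _ hj => noEv_near hn.dat (nzOK_of hn.nz) (parOK_of hn.par)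
        hn.datM hn.cP hn.cE h.ok.chd_lt hc hc' hd1 hd2 hL hi hj) hG

/-- **all iterates of a start word** -/
theorem good_all (h : ChkT S pats N lo w z0 wl Z SA SB)
    (hn : ChkN S pats lo' hi' n zc T M len NA NB PA PB) {l : List (ℤ × ℕ)} {Z' Q : ℕ} {B : ℤ}
    (hl : chkStart S pats l Z' Q B = true) (k : ℕ) :
    Good S pats (iterW S (pW l) (pT l) k).1 (iterW S (pW l) (pT l) k).2 :=
  good_iter (fun _ _ => good_step h hn) (good_start hl) k

/-- the letters of a periodic word are bounded -/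
theorem pW_bdd {l : List (ℤ × ℕ)} {Z' Q : ℕ} {B : ℤ} (hl : chkStart S pats l Z' Q B = true) (t : ℤ) :
    |pW l t| ≤ Z' := by
  unfold chkStart at hl
  simp only [Bool.and_eq_true, decide_eq_true_eq] at hl
  have := ((St1 hl.1.1.2).2 t).1
  rw [abs_le]
  constructor <;> omega

/-- **pseudolines from a table, exact exponent** -/
theorem lines_all (h : ChkT S pats N lo w z0 wl Z SA SB)
    (hn : ChkN S pats lo' hi' n zc T M len NA NB PA PB) {l : List (ℤ × ℕ)} {Z' Q : ℕ} {B : ℤ}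
    (hl : chkStart S pats l Z' Q B = true) (hb : 2 ≤ S.b) {q v : ℕ} (hq : 2 ≤ q)
    (hc : S.okCol q = true) (hv : S.okOff v = true) {e : ℝ} (he : ((S.b * q : ℕ) : ℝ) ^ e = S.L)
    (he0 : 0 ≤ e) :
    ∃ c : ℝ, 0 < c ∧ ∃ n₀ : ℕ, ∀ n ≥ n₀,
    (∃ f : Fin n → ℝ → ℝ, (∀ i, Continuous (f i)) ∧
      (∀ i j, i ≠ j → ∃ x, Crosses (f i) (f j) x) ∧
      ∃ k < n, c * (n : ℝ) ^ e ≤ psiT f k) ∧
    ∀ s ≥ 1, c * (n : ℝ) ^ e ≤ Psi s n :=
  lines_tab h.ok hb (good_start hl).path hq hc hv (pW_bdd hl) RefOp.id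
    (fun k => (good_all h hn hl k).uni) he he0

/-- **pseudolines from a table, rational exponent** -/
theorem lines_all_rat (h : ChkT S pats N lo w z0 wl Z SA SB)
    (hn : ChkN S pats lo' hi' n zc T M len NA NB PA PB) {l : List (ℤ × ℕ)} {Z' Q : ℕ} {B : ℤ}
    (hl : chkStart S pats l Z' Q B = true) (hb : 2 ≤ S.b) {q v : ℕ} (hq : 2 ≤ q)
    (hc : S.okCol q = true) (hv : S.okOff v = true) {x y : ℕ} (hy : 0 < y)
    (he : (S.b * q) ^ x < S.L ^ y) :
    ∃ n₀ : ℕ, ∀ n ≥ n₀,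
    (∃ f : Fin n → ℝ → ℝ, (∀ i, Continuous (f i)) ∧
      (∀ i j, i ≠ j → ∃ x, Crosses (f i) (f j) x) ∧
      ∃ k < n, (n : ℝ) ^ ((x : ℝ) / y) ≤ psiT f k) ∧
    ∀ s ≥ 1, (n : ℝ) ^ ((x : ℝ) / y) ≤ Psi s n :=
  lines_tab_rat h.ok hb (good_start hl).path hq hc hv (pW_bdd hl) RefOp.id
    (fun k => (good_all h hn hl k).uni) hy he

end

end LWG
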