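import Pool.Agent.LWG.Sim
import Pool.Agent.LWG.Close

/-!
# Typed substitutions with a kernel and recorded letters

Only the windows between recorded letters are considered; the differences are convolved with the kernel.

* `RTab`, `RPath`, `klops`, `krops`, `KLoc`, `kFn`, `NoBad`, `RGood`;
* `okF`: the flags, **`RPath.sub`**;
* **`RGood.loc`**: what is known about long windows; **`rgood_sub`**: the invariant is preserved;
* **`lines_rgood`**: pseudolines.
-/

set_option autoImplicit false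

open Finset LevelLower LevelPseudo LevelWords

namespace LWG

/-- A table with a kernel and recorded letters. `fl c j = true`: the letter `j` steps after a letter
of type `c` is recorded, `-m ≤ j ≤ m`. -/
structure RTab where
  S : Tab
  K : Ker
  fl : ℕ → ℤ → Bool

namespace RTab

variable (X : RTab)

/-- recorded types -/
def rcd (c : ℕ) : Bool := X.fl c 0

/-- a typed path with flags -/
structure RPath (W : ℤ → ℤ) (ty : ℤ → ℕ) : Prop where
  path : X.S.Path W ty
  fl : ∀ t j, -(X.S.m : ℤ) ≤ j → j ≤ X.S.m → X.fl (ty t) j = true → X.rcd (ty (t + j)) = true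

/-- Changes of a window at its start `s`, in the window of the letters strictly between. -/
def klops (c : ℕ) : List (ℤ → ℤ) :=
  (((List.range (X.S.m + 2)).filter fun (k : ℕ) => X.fl c (1 - k)).map fun (k : ℕ) =>
    cv X.K.g (Tab.dls (X.S.posL c) k)) ++
  (((List.range (X.S.m - 1)).filter fun (k : ℕ) => X.fl c (k + 2)).map fun (k : ℕ) y =>
    - cv X.K.g (Tab.dls (fun j => X.S.posR c (j + 1)) (k + 1)) y)

/-- Changes of a window at its end, at the distance `d`. -/
def krops (c : ℕ) (d : ℤ) : List (ℤ → ℤ) :=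
  (((List.range (X.S.m + 1)).filter fun (k : ℕ) => X.fl c k).map fun (k : ℕ) =>
    cv X.K.g (Tab.dls (fun j => d + X.S.posR c j) k)) ++
  (((List.range X.S.m).filter fun (k : ℕ) => X.fl c (-(k + 1))).map fun (k : ℕ) y =>
    - cv X.K.g (Tab.dls (fun j => d + X.S.posL c (j + 1)) (k + 1)) y)

/-- What is known about the convolved differences strictly between two recorded letters. -/
structure KLoc (pats : ℕ → ℕ → List Pat) (c c' : ℕ) (d : ℤ) (D : ℤ → ℤ) : Prop where
  adm : ∀ l ∈ X.klops c, ∀ r ∈ X.krops c' d, Uni fun y => D y + (l y + r y)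
  pat : ∀ P ∈ pats c c', P.d = d → ¬ Agr D P.e P.v

/-- Convolved differences strictly between the letter `i` of a block of type `c` and the letter `j`
of a later block of type `c'`. -/
def kFn (c i c' j : ℕ) (d : ℤ) (D : ℤ → ℤ) (y : ℤ) : ℤ :=
  cv X.K.g (X.S.part c (i + 1) X.S.L) y + (X.S.ref X.K).comb D y +
    cv X.K.g (X.S.part c' 0 j) (y - X.S.b * d)

/-- No violation and no forbidden pattern between two letters of the types `c`, `c'`, at the
positions `A`, `B`; `F` are the convolved differences strictly between them. -/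
structure NoBad (pats : ℕ → ℕ → List Pat) (c c' : ℕ) (A B : ℤ) (F : ℤ → ℤ) : Prop where
  uni : Uni fun y => F y + cv X.K.g (dl A) y
  pat : ∀ P ∈ pats c c', P.d = B - A → ¬ Agr F (A + P.e) P.v

/-- The invariant. -/
structure RGood (pats : ℕ → ℕ → List Pat) (W : ℤ → ℤ) (ty : ℤ → ℕ) : Prop where
  path : X.RPath W ty
  uni : ∀ s e, s < e → X.rcd (ty s) = true → X.rcd (ty e) = true → Uni (cv X.K.g (E W s e))
  pat : ∀ s e, s < e → X.rcd (ty s) = true → X.rcd (ty e) = true →
    ∀ P ∈ pats (ty s) (ty e), P.d = W e - W s → ¬ Agr (cv X.K.g (Lw W s e)) P.e P.v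

/-- types of the letters of a block of type `c` and of the next block, of type `c'` -/
def twoT (c c' r : ℕ) : ℕ := if r < X.S.L then X.S.chd c r else X.S.chd c' (r - X.S.L)

/-- the flags of the type `c` -/
def okF (c : ℕ) : Bool :=
  (List.range X.S.L).all (fun r => !X.rcd (X.S.chd c r) || X.rcd c) &&
  (X.S.nxt c).all fun c' => (List.range X.S.L).all fun r => (List.range (X.S.m + 1)).all fun j =>
    (!X.fl (X.S.chd c r) j || X.rcd (X.twoT c c' (r + j))) &&
    (!X.fl (X.S.chd c' r) (-j) || X.rcd (X.twoT c c' (X.S.L + r - j)))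

variable {X} {pats : ℕ → ℕ → List Pat} {W : ℤ → ℤ} {ty : ℤ → ℕ}

/-! ### flags -/

theorem rcd_parent {c r : ℕ} (hF : X.okF c = true) (hr : r < X.S.L)
    (h : X.rcd (X.S.chd c r) = true) : X.rcd c = true := by
  unfold okF at hF
  simp only [Bool.and_eq_true, List.all_eq_true, List.mem_range, Bool.or_eq_true,
    Bool.not_eq_true'] at hF
  rcases hF.1 r hr with h1 | h1
  · rw [h] at h1
    exact absurd h1 (by decide)
  · exact h1

theorem subT_two (p : ℤ) {r : ℕ} (hr : r < 2 * X.S.L) :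
    X.S.subT ty (X.S.L * p + r) = X.twoT (ty p) (ty (p + 1)) r := by
  unfold twoT
  split_ifs with h1
  · exact Tab.subT_eq ty p h1
  · have h2 : (X.S.L * p + r : ℤ) = X.S.L * (p + 1) + ((r - X.S.L : ℕ) : ℤ) := by
      have : ((r - X.S.L : ℕ) : ℤ) = r - X.S.L := by omega
      rw [this]
      ring
    rw [h2, Tab.subT_eq ty (p + 1) (by omega)]

/-- **the child of a typed path with flags** -/
theorem RPath.sub (K : X.S.OK) (hF : ∀ c < X.S.T, X.okF c = true) (h : X.RPath W ty) :
    X.RPath (X.S.subW W ty) (X.S.subT ty) where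
  path := K.path h.path
  fl t j hj1 hj2 hf := by
    obtain ⟨p, r, hr, rfl⟩ := Tab.exists_pr K.L0 t
    have hmL := K.mL
    rw [Tab.subT_eq ty p hr] at hf
    rcases lt_or_ge j 0 with h0 | h0
    · obtain ⟨i, hi⟩ : ∃ i : ℕ, j = -(i : ℤ) := ⟨(-j).toNat, by omega⟩
      subst hi
      have h1 := hF _ (h.path.lt (p - 1))
      have hn := h.path.nxt (p - 1)
      rw [show p - 1 + 1 = p by ring] at hn
      unfold okF at h1
      simp only [Bool.and_eq_true, List.all_eq_true, List.mem_range, Bool.or_eq_true,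
        Bool.not_eq_true'] at h1
      have h2 := (h1.2 _ hn r hr i (by omega)).2
      have e4 : (X.S.L * p + r + -(i : ℤ) : ℤ) =
          X.S.L * (p - 1) + ((X.S.L + r - i : ℕ) : ℤ) := by
        have : ((X.S.L + r - i : ℕ) : ℤ) = X.S.L + r - i := by omega
        rw [this]
        ring
      rw [e4, subT_two (p - 1) (by omega), show p - 1 + 1 = p by ring]
      rcases h2 with h2 | h2
      · rw [hf] at h2
        exact absurd h2 (by decide)
      · exact h2
    · obtain ⟨i, rfl⟩ : ∃ i : ℕ, j = (i : ℤ) := ⟨j.toNat, by omega⟩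
      have h1 := hF _ (h.path.lt p)
      unfold okF at h1
      simp only [Bool.and_eq_true, List.all_eq_true, List.mem_range, Bool.or_eq_true,
        Bool.not_eq_true'] at h1
      have h2 := (h1.2 _ (h.path.nxt p) r hr i (by omega)).1
      rw [show (X.S.L * p + r + (i : ℤ) : ℤ) = X.S.L * p + ((r + i : ℕ) : ℤ) by push_cast; ring,
        subT_two p (by omega)]
      rcases h2 with h2 | h2
      · rw [hf] at h2
        exact absurd h2 (by decide)
      · exact h2

/-! ### long windows -/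

theorem cv_at (g : List ℤ) (f : ℤ → ℤ) (a y : ℤ) : cv g (fun x => f (a + x)) y = cv g f (a + y) := by
  have h := cv_shift g f (-a) y
  rw [show y - -a = a + y by ring] at h
  rw [← h]
  refine cv_congr g (fun x => ?_) y
  congr 1
  ring

theorem cv_opp (g : List ℤ) (f : ℤ → ℤ) (y : ℤ) : cv g (fun x => - f x) y = - cv g f y := by
  have h := cv_sub g (fun _ => 0) f y
  rw [cv_zero, zero_sub] at h
  rw [← h]
  exact cv_congr g (fun x => by ring) y

/-- **long windows** -/
theorem RGood.loc (hm : 1 ≤ X.S.m) (h : X.RGood pats W ty) {s e : ℤ} (hs : X.rcd (ty s) = true)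
    (he : X.rcd (ty e) = true) (hse : s + 2 * X.S.m + 1 ≤ e) :
    X.KLoc pats (ty s) (ty e) (W e - W s) (cv X.K.g (Lw W s e)) where
  pat P hP hd := h.pat s e (by omega) hs he P hP hd
  adm l hl r hr := by
    have hL : ∃ a ≤ s + 1 + X.S.m, X.rcd (ty a) = true ∧ ∃ l' : ℤ → ℤ, (∀ y, l y = cv X.K.g l' y) ∧
        ∀ b y, E W a b (W s + y) = E W (s + 1) b (W s + y) + l' y := by
      unfold klops at hl
      rw [List.mem_append, List.mem_map, List.mem_map] at hl
      rcases hl with ⟨k, hk, rfl⟩ | ⟨k, hk, rfl⟩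
      · rw [List.mem_filter, List.mem_range] at hk
        refine ⟨s + 1 - k, by omega, ?_, _, fun y => rfl,
          fun b y => E_addL h.path.path s b y k (by omega)⟩
        have := h.path.fl s (1 - k) (by omega) (by omega) hk.2
        rwa [show s + (1 - (k : ℤ)) = s + 1 - k by ring] at this
      · rw [List.mem_filter, List.mem_range] at hk
        refine ⟨s + 1 + ((k + 1 : ℕ) : ℤ), by omega, ?_,
          fun y => - Tab.dls (fun j => X.S.posR (ty s) (j + 1)) (k + 1) y,
          fun y => (cv_opp _ _ _).symm, fun b y => ?_⟩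
        · have := h.path.fl s (k + 2) (by omega) (by omega) hk.2
          rwa [show s + ((k : ℤ) + 2) = s + 1 + ((k + 1 : ℕ) : ℤ) by push_cast; ring] at this
        · rw [E_remL h.path.path s b y (k + 1) (by omega)]
          ring
    have hR : ∃ b, e - X.S.m ≤ b ∧ X.rcd (ty b) = true ∧ ∃ r' : ℤ → ℤ, (∀ y, r y = cv X.K.g r' y) ∧
        ∀ a y, E W a b (W s + y) = E W a e (W s + y) + r' y := by
      unfold krops at hr
      rw [List.mem_append, List.mem_map, List.mem_map] at hr
      rcases hr with ⟨k, hk, rfl⟩ | ⟨k, hk, rfl⟩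
      · rw [List.mem_filter, List.mem_range] at hk
        exact ⟨e + k, by omega, h.path.fl e k (by omega) (by omega) hk.2, _, fun y => rfl,
          fun a y => E_addR h.path.path a s e y k (by omega)⟩
      · rw [List.mem_filter, List.mem_range] at hk
        refine ⟨e - ((k + 1 : ℕ) : ℤ), by omega, ?_,
          fun y => - Tab.dls (fun j => W e - W s + X.S.posL (ty e) (j + 1)) (k + 1) y,
          fun y => (cv_opp _ _ _).symm, fun a y => ?_⟩
        · have := h.path.fl e (-(k + 1)) (by omega) (by omega) hk.2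
          rwa [show e + -((k : ℤ) + 1) = e - ((k + 1 : ℕ) : ℤ) by push_cast; ring] at this
        · rw [E_remR h.path.path a s e y (k + 1) (by omega)]
          ring
    obtain ⟨a, ha, hra, l', hl', hL⟩ := hL
    obtain ⟨b, hb, hrb, r', hr', hR⟩ := hR
    have key : ∀ y, cv X.K.g (E W a b) (W s + y) =
        cv X.K.g (Lw W s e) y + (l y + r y) := by
      intro y
      rw [hl', hr', ← cv_at, ← cv_add, ← cv_add]
      refine cv_congr X.K.g (fun x => ?_) y
      rw [hR, hL]
      unfold Lw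
      ring
    have hab : a < b ∨ a = b := by omega
    rcases hab with hab | hab
    · have hU := h.uni a b hab hra hrb
      intro x y hxy
      have := hU (W s + x) (W s + y) (by omega)
      rw [key, key] at this
      exact this
    · subst hab
      intro x y _ hx
      have h1 := key x
      rw [show E W a a = fun _ => 0 from funext fun z => E_self W a z, cv_zero] at h1
      simp only at hx
      omega

/-! ### the child windows -/

theorem kFn_eq (H : X.S.KOK X.K) (h : ∀ t, ty t < X.S.T) {s e : ℤ} (hse : s < e) (y : ℤ) {i j : ℕ}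
    (hi : i < X.S.L) (hj : j < X.S.L) :
    cv X.K.g (E (X.S.subW W ty) (X.S.L * s + i + 1) (X.S.L * e + j)) (X.S.b * W s + y) =
      X.kFn (ty s) i (ty e) j (W e - W s) (cv X.K.g (Lw W s e)) y := by
  obtain ⟨n, rfl⟩ : ∃ n : ℕ, e = s + 1 + n := ⟨(e - s - 1).toNat, by omega⟩
  have h1 : E (X.S.subW W ty) (X.S.L * s + i + 1) (X.S.L * (s + 1 + n) + j) = fun z =>
      X.S.part (ty s) (i + 1) X.S.L (z - X.S.b * W s) +
      E (X.S.subW W ty) (X.S.L * (s + 1)) (X.S.L * (s + 1 + n)) z +
        X.S.part (ty (s + 1 + n)) 0 j (z - X.S.b * W (s + 1 + n)) := by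
    funext z
    have h2 := Tab.C_block (S := X.S) W ty s z (i + 1) hi
    have h3 := Tab.C_block (S := X.S) W ty (s + 1 + n) z j hj.le
    have h4 := Tab.C_block (S := X.S) W ty s z X.S.L le_rfl
    have h5 := Tab.part_add (S := X.S) (ty s) (Nat.zero_le (i + 1)) (z - X.S.b * W s) X.S.L hi
    rw [show (X.S.L * s + ((i + 1 : ℕ) : ℤ)) = X.S.L * s + i + 1 by push_cast; ring] at h2
    rw [show (X.S.L * s + (X.S.L : ℕ) : ℤ) = X.S.L * (s + 1) by ring] at h4
    unfold E
    rw [h2, h3, h4, ← h5]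
    ring
  rw [h1, cv_add, cv_add, H.cv_blocks h, cv_shift, cv_shift]
  unfold kFn
  have h2 := Tab.comb_shift (S := X.S.ref X.K) H.bas.b0 (cv X.K.g (E W (s + 1) (s + 1 + n))) (W s) y
  have h3 : ((X.S.ref X.K).b : ℤ) = X.S.b := rfl
  rw [h3] at h2
  rw [h2, show X.S.b * W s + y - X.S.b * W s = y by ring,
    show X.S.b * W s + y - X.S.b * W (s + 1 + n) = y - X.S.b * (W (s + 1 + n) - W s) by ring]
  congr 2
  exact Tab.comb_congr (fun x => (cv_at _ _ _ _).symm) y

/-- **the invariant is preserved** -/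
theorem rgood_sub (K : X.S.OK) (H : X.S.KOK X.K) (hF : ∀ c < X.S.T, X.okF c = true)
    (hB : ∀ c < X.S.T, ∀ i j, i < j → j < X.S.L → X.rcd (X.S.chd c i) = true →
      X.rcd (X.S.chd c j) = true →
      X.NoBad pats (X.S.chd c i) (X.S.chd c j) (X.S.off c i) (X.S.off c j)
        (cv X.K.g (X.S.part c (i + 1) j)))
    (hS : ∀ W ty, X.RPath W ty → ∀ s e : ℤ, s < e → e ≤ s + 2 * X.S.m → X.rcd (ty s) = true →
      X.rcd (ty e) = true → ∀ i < X.S.L, ∀ j < X.S.L, X.rcd (X.S.chd (ty s) i) = true →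
      X.rcd (X.S.chd (ty e) j) = true →
      X.NoBad pats (X.S.chd (ty s) i) (X.S.chd (ty e) j) (X.S.off (ty s) i)
        (X.S.b * (W e - W s) + X.S.off (ty e) j)
        (X.kFn (ty s) i (ty e) j (W e - W s) (cv X.K.g (Lw W s e))))
    (hN : ∀ c < X.S.T, ∀ c' < X.S.T, X.rcd c = true → X.rcd c' = true → ∀ d D,
      X.KLoc pats c c' d D → ∀ i < X.S.L, ∀ j < X.S.L, X.rcd (X.S.chd c i) = true →
      X.rcd (X.S.chd c' j) = true →
      X.NoBad pats (X.S.chd c i) (X.S.chd c' j) (X.S.off c i) (X.S.b * d + X.S.off c' j)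
        (X.kFn c i c' j d D))
    (h : X.RGood pats W ty) : X.RGood pats (X.S.subW W ty) (X.S.subT ty) := by
  have key : ∀ s' e' : ℤ, s' < e' → X.rcd (X.S.subT ty s') = true →
      X.rcd (X.S.subT ty e') = true → ∃ (a A B : ℤ) (F : ℤ → ℤ),
      X.S.subW W ty s' = a + A ∧ X.S.subW W ty e' = a + B ∧
      (∀ y, cv X.K.g (E (X.S.subW W ty) (s' + 1) e') (a + y) = F y) ∧
      X.NoBad pats (X.S.subT ty s') (X.S.subT ty e') A B F := by
    intro s' e' hse' hrs hre
    obtain ⟨s, i, hi, rfl⟩ := Tab.exists_pr K.L0 s'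
    obtain ⟨e, j, hj, rfl⟩ := Tab.exists_pr K.L0 e'
    have hL0 : (0 : ℤ) < X.S.L := by exact_mod_cast K.L0
    have hse : s ≤ e := by
      by_contra hc
      have h1 : e + 1 ≤ s := by omega
      have h2 : (X.S.L : ℤ) * (e + 1) ≤ X.S.L * s := mul_le_mul_of_nonneg_left h1 hL0.le
      have h3 : (X.S.L : ℤ) * (e + 1) = X.S.L * e + X.S.L := by ring
      omega
    rw [Tab.subT_eq ty s hi] at hrs
    rw [Tab.subT_eq ty e hj] at hre
    rw [Tab.subT_eq ty s hi, Tab.subT_eq ty e hj]
    have hps := rcd_parent (hF _ (h.path.path.lt s)) hi hrs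
    have hpe := rcd_parent (hF _ (h.path.path.lt e)) hj hre
    rcases eq_or_lt_of_le hse with h1 | h1
    · subst h1
      have hij : i < j := by omega
      refine ⟨X.S.b * W s, X.S.off (ty s) i, X.S.off (ty s) j, _, Tab.subW_eq W ty s hi,
        Tab.subW_eq W ty s hj, fun y => ?_, hB _ (h.path.path.lt s) i j hij hj hrs hre⟩
      rw [show E (X.S.subW W ty) (X.S.L * s + i + 1) (X.S.L * s + j) = fun z =>
        X.S.part (ty s) (i + 1) j (z - X.S.b * W s) from
          funext fun z => Tab.E_same s z hij hj.le, cv_shift]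
      congr 1
      ring
    · refine ⟨X.S.b * W s, X.S.off (ty s) i, X.S.b * (W e - W s) + X.S.off (ty e) j,
        X.kFn (ty s) i (ty e) j (W e - W s) (cv X.K.g (Lw W s e)), Tab.subW_eq W ty s hi, ?_,
        fun y => kFn_eq H h.path.path.lt h1 y hi hj, ?_⟩
      · rw [Tab.subW_eq W ty e hj]
        ring
      · rcases le_or_gt e (s + 2 * X.S.m) with h2 | h2
        · exact hS W ty h.path s e h1 h2 hps hpe i hi j hj hrs hre
        · exact hN _ (h.path.path.lt s) _ (h.path.path.lt e) hps hpe _ _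
            (h.loc K.m1 hps hpe (by omega)) i hi j hj hrs hre
  refine ⟨h.path.sub K hF, fun s e hse hrs hre => ?_, fun s e hse hrs hre P hP hd hA => ?_⟩
  · obtain ⟨a, A, B, F, h1, h2, h3, h4⟩ := key s e hse hrs hre
    have h5 : ∀ y, cv X.K.g (E (X.S.subW W ty) s e) (a + y) = F y + cv X.K.g (dl A) y := by
      intro y
      rw [← h3 y, ← cv_at, ← cv_at, ← cv_add]
      refine cv_congr X.K.g (fun x => ?_) y
      rw [E_left, h1, dl_at]
      ring
    intro x y hxy hx hy
    refine h4.uni (x - a) (y - a) (by omega) ?_ ?_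
    · simp only
      rw [← h5, show a + (x - a) = x by ring]
      exact hx
    · simp only
      rw [← h5, show a + (y - a) = y by ring]
      exact hy
  · obtain ⟨a, A, B, F, h1, h2, h3, h4⟩ := key s e hse hrs hre
    refine h4.pat P hP (by rw [hd, h1, h2]; ring) (agr_shift _ _ ?_)
    have h5 : (fun y => F (A + y)) = cv X.K.g (Lw (X.S.subW W ty) s e) := by
      funext y
      unfold Lw
      rw [cv_at, h1, add_assoc, h3]
    rwa [h5]

/-- all iterates -/
theorem rgood_iter (hs : ∀ W ty, X.RGood pats W ty → X.RGood pats (X.S.subW W ty) (X.S.subT ty))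
    (h : X.RGood pats W ty) : ∀ k, X.RGood pats (iterW X.S W ty k).1 (iterW X.S W ty k).2
  | 0 => h
  | k + 1 => hs _ _ (rgood_iter hs h k)

/-- recorded letters of a block of a recorded type -/
def rcB (c r : ℕ) : Bool := X.rcd (X.S.chd c r) || !X.rcd c

/-- recorded times are recorded -/
theorem rcd_recd (hl : X.rcd (ty 0) = true) :
    ∀ k, ∀ t ∈ recd X.S X.rcB W ty k, X.rcd ((iterW X.S W ty k).2 t) = true
  | 0, t, ht => by
    have : t = 0 := by simpa [recd] using ht
    rw [this]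
    exact hl
  | k + 1, t, ht => by
    rw [recd, mem_biUnion] at ht
    obtain ⟨p, hp, ht⟩ := ht
    rw [mem_image] at ht
    obtain ⟨r, hr, rfl⟩ := ht
    rw [rcs, mem_filter, mem_range] at hr
    have h1 := rcd_recd hl k p hp
    have h2 := hr.2
    unfold rcB at h2
    rw [h1, Bool.not_true, Bool.or_false] at h2
    show X.rcd (X.S.subT (iterW X.S W ty k).2 ((X.S.L * p + r : ℕ) : ℤ)) = true
    rw [show ((X.S.L * p + r : ℕ) : ℤ) = X.S.L * (p : ℤ) + r by push_cast; ring,
      Tab.subT_eq _ _ hr.1]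
    exact h2

/-- **pseudolines** from the invariant; weights of the types as in `lines_rec` -/
theorem lines_rgood (H : X.S.KOK X.K)
    (hs : ∀ W ty, X.RGood pats W ty → X.RGood pats (X.S.subW W ty) (X.S.subT ty))
    (hG : X.RGood pats W ty) (hl : X.rcd (ty 0) = true) {q w A0 : ℕ} (hq : 2 ≤ q)
    (hc : X.S.okCol q = true) (hw : X.S.okOff w = true) (h0 : ∀ t, |W t| ≤ A0)
    {v : ℕ → ℕ} {V ρ₁ ρ₂ : ℕ} (hρ₂ : 0 < ρ₂) (hρ : ρ₂ < ρ₁)
    (hv1 : ∀ c < X.S.T, 1 ≤ v c ∧ v c ≤ V)
    (hv : ∀ c < X.S.T, ρ₁ * v c ≤ ρ₂ * ∑ r ∈ rcs X.S X.rcB c, v (X.S.chd c r))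
    (h2 : ∀ c < X.S.T, 2 ≤ (rcs X.S X.rcB c).card) {e : ℝ}
    (he : ((X.S.b * q : ℕ) : ℝ) ^ e = (ρ₁ : ℝ) / ρ₂) (he0 : 0 ≤ e) :
    ∃ c : ℝ, 0 < c ∧ ∃ n₀ : ℕ, ∀ n ≥ n₀,
    (∃ f : Fin n → ℝ → ℝ, (∀ i, Continuous (f i)) ∧
      (∀ i j, i ≠ j → ∃ x, Crosses (f i) (f j) x) ∧
      ∃ k < n, c * (n : ℝ) ^ e ≤ psiT f k) ∧
    ∀ s ≥ 1, c * (n : ℝ) ^ e ≤ Psi s n := by
  obtain ⟨A, B, u, hOp⟩ := refOp_cv H.g0
  refine lines_rec H.bas hG.path.path.lt hq hc hw h0 hρ₂ hρ hv1 hv h2 hOp ?_ he he0
  intro k i hi j hj hij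
  exact (rgood_iter hs hG k).uni i j (by exact_mod_cast hij)
    (rcd_recd hl k i hi) (rcd_recd hl k j hj)

end RTab

end LWG
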