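import Pool.Agent.LWG.Main
import Pool.Agent.LWG.KMain
import Pool.Agent.LWG.Rec
import Pool.Agent.LWG.GrowSum

/-!
# Typed substitutions: the final theorems with the sum version of the count of lines

The number of lines of the level `k` is at most `C Q ^ k`, `Q` = sum of the coefficients `|e|` (`okSum`), `b < Q`. In particular
the exponent is `log L / log (L / b)` for a table with nonnegative coefficients, also if the column sums are not equal.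

* without kernel: `lines_all_sum`, `lines_all_sum_rat`; with kernel: `klines_all_sum`, `klines_all_sum_rat`;
* recorded letters: `lines_rgood_sum`, `lines_sim_sum`.
-/

set_option autoImplicit false

open Finset LevelLower LevelPseudo LevelWords

namespace LWG

section plain

variable {S : Tab} {pats : ℕ → ℕ → List Pat} {N : ℕ} {lo : ℤ} {w : ℕ} {z0 : ℤ} {wl Z : ℕ}
  {SA SB : ℕ → List Half} {lo' hi' : ℤ} {n : ℕ} {zc : List (List ℤ)} {T : Dat} {M : DatM} {len : ℕ}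
  {NA NB : ℕ → List (List ℤ)} {PA PB : ℕ → List Ltr}

/-- **pseudolines from a table, sum version, exact exponent** -/
theorem lines_all_sum (h : ChkT S pats N lo w z0 wl Z SA SB)
    (hn : ChkN S pats lo' hi' n zc T M len NA NB PA PB) {l : List (ℤ × ℕ)} {Z' q : ℕ} {B : ℤ}
    (hl : chkStart S pats l Z' q B = true) (hb : 2 ≤ S.b) (hL : 2 ≤ S.L) {Q v : ℕ} (hQ : S.b < Q)
    (hc : S.okSum Q = true) (hv : S.okOff v = true) {e : ℝ} (he : (Q : ℝ) ^ e = S.L)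
    (he0 : 0 ≤ e) :
    ∃ c : ℝ, 0 < c ∧ ∃ n₀ : ℕ, ∀ n ≥ n₀,
    (∃ f : Fin n → ℝ → ℝ, (∀ i, Continuous (f i)) ∧
      (∀ i j, i ≠ j → ∃ x, Crosses (f i) (f j) x) ∧
      ∃ k < n, c * (n : ℝ) ^ e ≤ psiT f k) ∧
    ∀ s ≥ 1, c * (n : ℝ) ^ e ≤ Psi s n :=
  lines_tab_sum (h.ok.bas hb) hL (good_start hl).path.lt hQ hc hv (pW_bdd hl) RefOp.id SumOp.id
    (fun k => (good_all h hn hl k).uni) he he0

/-- **pseudolines from a table, sum version, rational exponent** -/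
theorem lines_all_sum_rat (h : ChkT S pats N lo w z0 wl Z SA SB)
    (hn : ChkN S pats lo' hi' n zc T M len NA NB PA PB) {l : List (ℤ × ℕ)} {Z' q : ℕ} {B : ℤ}
    (hl : chkStart S pats l Z' q B = true) (hb : 2 ≤ S.b) (hL : 2 ≤ S.L) {Q v : ℕ} (hQ : S.b < Q)
    (hc : S.okSum Q = true) (hv : S.okOff v = true) {x y : ℕ} (hy : 0 < y) (he : Q ^ x < S.L ^ y) :
    ∃ n₀ : ℕ, ∀ n ≥ n₀,
    (∃ f : Fin n → ℝ → ℝ, (∀ i, Continuous (f i)) ∧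
      (∀ i j, i ≠ j → ∃ x, Crosses (f i) (f j) x) ∧
      ∃ k < n, (n : ℝ) ^ ((x : ℝ) / y) ≤ psiT f k) ∧
    ∀ s ≥ 1, (n : ℝ) ^ ((x : ℝ) / y) ≤ Psi s n :=
  lines_tab_sum_rat (h.ok.bas hb) hL (good_start hl).path.lt hQ hc hv (pW_bdd hl) RefOp.id SumOp.id
    (fun k => (good_all h hn hl k).uni) hy he

end plain

section ker

variable {S : Tab} {K : Ker} {pats : ℕ → ℕ → List Pat} {N : ℕ} {q : Prm}
  {pn : ℕ → ℕ → ℕ → List PatN} {EP EM M R : ℕ} {SA SB : ℕ → List HalfN} {lo hi : ℤ} {mp : ℕ}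
  {T : Dat} {M' : DatM} {len : ℕ} {NA NB : ℕ → List (List ℤ)} {PA PB : ℕ → List Ltr}
  {gN gP : List ℤ} {n : ℕ} {Y X X' lo' hi' : ℤ}

/-- **pseudolines from a table with a kernel, sum version, exact exponent** -/
theorem klines_all_sum (h : KChkT S K pats N q pn EP EM M R SA SB)
    (hn : KChkN S K pats lo hi mp T M' len NA NB PA PB gN gP n Y X X' lo' hi') {l : List (ℤ × ℕ)} {Z1 Z q' : ℕ}
    {B : ℤ} (hl : chkKStart S K.g pats l Z1 Z q' B = true) (hL : 2 ≤ S.L) {Q v : ℕ} (hQ : S.b < Q)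
    (hc : S.okSum Q = true) (hv : S.okOff v = true) {e : ℝ} (he : (Q : ℝ) ^ e = S.L)
    (he0 : 0 ≤ e) :
    ∃ c : ℝ, 0 < c ∧ ∃ n₀ : ℕ, ∀ n ≥ n₀,
    (∃ f : Fin n → ℝ → ℝ, (∀ i, Continuous (f i)) ∧
      (∀ i j, i ≠ j → ∃ x, Crosses (f i) (f j) x) ∧
      ∃ k < n, c * (n : ℝ) ^ e ≤ psiT f k) ∧
    ∀ s ≥ 1, c * (n : ℝ) ^ e ≤ Psi s n := by
  obtain ⟨A, B', u, hOp, hOs⟩ := sumOp_cv h.kok.g0
  exact lines_tab_sum h.kok.bas hL (kgood_start hl).path.lt hQ hc hv (pW_bddK hl) hOp hOs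
    (fun k => (kgood_all h hn hl k).uni) he he0

/-- **pseudolines from a table with a kernel, sum version, rational exponent** -/
theorem klines_all_sum_rat (h : KChkT S K pats N q pn EP EM M R SA SB)
    (hn : KChkN S K pats lo hi mp T M' len NA NB PA PB gN gP n Y X X' lo' hi') {l : List (ℤ × ℕ)} {Z1 Z q' : ℕ}
    {B : ℤ} (hl : chkKStart S K.g pats l Z1 Z q' B = true) (hL : 2 ≤ S.L) {Q v : ℕ} (hQ : S.b < Q)
    (hc : S.okSum Q = true) (hv : S.okOff v = true) {x y : ℕ} (hy : 0 < y) (he : Q ^ x < S.L ^ y) :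
    ∃ n₀ : ℕ, ∀ n ≥ n₀,
    (∃ f : Fin n → ℝ → ℝ, (∀ i, Continuous (f i)) ∧
      (∀ i j, i ≠ j → ∃ x, Crosses (f i) (f j) x) ∧
      ∃ k < n, (n : ℝ) ^ ((x : ℝ) / y) ≤ psiT f k) ∧
    ∀ s ≥ 1, (n : ℝ) ^ ((x : ℝ) / y) ≤ Psi s n := by
  obtain ⟨A, B', u, hOp, hOs⟩ := sumOp_cv h.kok.g0
  exact lines_tab_sum_rat h.kok.bas hL (kgood_start hl).path.lt hQ hc hv (pW_bddK hl) hOp hOs
    (fun k => (kgood_all h hn hl k).uni) hy he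

end ker

section recorded

/-- **pseudolines from a simulation, sum version** -/
theorem lines_sim_sum {S : Tab} {K : Ker} {rc : ℕ → ℕ → Bool} {R : ℕ → ℕ → ℤ → (ℤ → ℤ) → Prop}
    {W0 : ℤ → ℤ} {ty0 : ℤ → ℕ} (H : S.KOK K) (hR : S.Sim K rc R) (h : ∀ t, ty0 t < S.T) {Q w A0 : ℕ}
    (hQ : S.b < Q) (hc : S.okSum Q = true) (hw : S.okOff w = true) (h0 : ∀ t, |W0 t| ≤ A0)
    {v : ℕ → ℕ} {V ρ₁ ρ₂ : ℕ} (hρ₂ : 0 < ρ₂) (hρ : ρ₂ < ρ₁) (hv1 : ∀ c < S.T, 1 ≤ v c ∧ v c ≤ V)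
    (hv : ∀ c < S.T, ρ₁ * v c ≤ ρ₂ * ∑ r ∈ rcs S rc c, v (S.chd c r))
    (h2 : ∀ c < S.T, 2 ≤ (rcs S rc c).card) {e : ℝ}
    (he : (Q : ℝ) ^ e = (ρ₁ : ℝ) / ρ₂) (he0 : 0 ≤ e) :
    ∃ c : ℝ, 0 < c ∧ ∃ n₀ : ℕ, ∀ n ≥ n₀,
    (∃ f : Fin n → ℝ → ℝ, (∀ i, Continuous (f i)) ∧
      (∀ i j, i ≠ j → ∃ x, Crosses (f i) (f j) x) ∧
      ∃ k < n, c * (n : ℝ) ^ e ≤ psiT f k) ∧
    ∀ s ≥ 1, c * (n : ℝ) ^ e ≤ Psi s n := by
  obtain ⟨A, B, u, hOp, hOs⟩ := sumOp_cv H.g0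
  exact lines_rec_sum H.bas h hQ hc hw h0 hρ₂ hρ hv1 hv h2 hOp hOs (sim_uni H h hR) he he0

/-- **pseudolines from the invariant with recorded letters, sum version** -/
theorem RTab.lines_rgood_sum {X : RTab} {pats : ℕ → ℕ → List Pat} {W : ℤ → ℤ} {ty : ℤ → ℕ}
    (H : X.S.KOK X.K)
    (hs : ∀ W ty, X.RGood pats W ty → X.RGood pats (X.S.subW W ty) (X.S.subT ty))
    (hG : X.RGood pats W ty) (hl : X.rcd (ty 0) = true) {Q w A0 : ℕ} (hQ : X.S.b < Q)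
    (hc : X.S.okSum Q = true) (hw : X.S.okOff w = true) (h0 : ∀ t, |W t| ≤ A0)
    {v : ℕ → ℕ} {V ρ₁ ρ₂ : ℕ} (hρ₂ : 0 < ρ₂) (hρ : ρ₂ < ρ₁)
    (hv1 : ∀ c < X.S.T, 1 ≤ v c ∧ v c ≤ V)
    (hv : ∀ c < X.S.T, ρ₁ * v c ≤ ρ₂ * ∑ r ∈ rcs X.S X.rcB c, v (X.S.chd c r))
    (h2 : ∀ c < X.S.T, 2 ≤ (rcs X.S X.rcB c).card) {e : ℝ}
    (he : (Q : ℝ) ^ e = (ρ₁ : ℝ) / ρ₂) (he0 : 0 ≤ e) :
    ∃ c : ℝ, 0 < c ∧ ∃ n₀ : ℕ, ∀ n ≥ n₀,
    (∃ f : Fin n → ℝ → ℝ, (∀ i, Continuous (f i)) ∧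
      (∀ i j, i ≠ j → ∃ x, Crosses (f i) (f j) x) ∧
      ∃ k < n, c * (n : ℝ) ^ e ≤ psiT f k) ∧
    ∀ s ≥ 1, c * (n : ℝ) ^ e ≤ Psi s n := by
  obtain ⟨A, B, u, hOp, hOs⟩ := sumOp_cv H.g0
  refine lines_rec_sum H.bas hG.path.path.lt hQ hc hw h0 hρ₂ hρ hv1 hv h2 hOp hOs ?_ he he0
  intro k i hi j hj hij
  exact (rgood_iter hs hG k).uni i j (by exact_mod_cast hij)
    (rcd_recd hl k i hi) (rcd_recd hl k j hj)

end recorded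

end LWG
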