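import Pool.Agent.LWG.Defs

/-!
# Substitution words: the refuter

The differences of the letter counts of a refined window are linear combinations `Co.comb` of the
differences `D` of the coarse window (plus known noise near the two ends). `run` and `start`
refute systems of equations for `Co.comb D` on consecutive fine edges, by computing `D` edge by
edge; what is known about `D` is a list of entries (`En`): exact value, lower bound, upper bound.
Nothing depends on the base or on the mask.
-/

namespace LWG

open LevelWords (Uni)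

/-! ## Tests on integers, fast in the kernel -/

def negB : ℤ → Bool
  | .ofNat _ => false
  | .negSucc _ => true

def posB : ℤ → Bool
  | .ofNat n => Nat.ble 1 n
  | .negSucc _ => false

def zeB : ℤ → Bool
  | .ofNat n => Nat.beq n 0
  | .negSucc _ => false

theorem negB_iff {x : ℤ} : negB x = true ↔ x < 0 := by
  rcases x with n | n
  · change false = true ↔ ((n : ℕ) : ℤ) < 0
    simp
  · change true = true ↔ Int.negSucc n < 0
    simp [Int.negSucc_lt_zero]

theorem posB_iff {x : ℤ} : posB x = true ↔ 0 < x := by
  rcases x with n | n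
  · change Nat.ble 1 n = true ↔ 0 < ((n : ℕ) : ℤ)
    rw [Nat.ble_eq]
    omega
  · change false = true ↔ 0 < Int.negSucc n
    have := Int.negSucc_lt_zero n
    simp only [Bool.false_eq_true, false_iff]
    omega

theorem zeB_iff {x : ℤ} : zeB x = true ↔ x = 0 := by
  rcases x with n | n
  · change Nat.beq n 0 = true ↔ ((n : ℕ) : ℤ) = 0
    rw [Nat.beq_eq]
    omega
  · change false = true ↔ Int.negSucc n = 0
    have := Int.negSucc_lt_zero n
    simp only [Bool.false_eq_true, false_iff]
    omega

/-! ## Coefficients -/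

/-- coefficients: base, first index, and the coefficients by residue (from the top coarse edge
down) -/
structure Co where
  b : ℤ
  e0 : ℤ
  cs : ℤ → List ℤ

/-- `∑ ks_i D (x - i)` -/
def dotZ (D : ℤ → ℤ) : ℤ → List ℤ → ℤ
  | _, [] => 0
  | x, k :: ks => k * D x + dotZ D (x - 1) ks

/-- top coarse edge at the fine edge `z` -/
def Co.tp (K : Co) (z : ℤ) : ℤ := (z - K.e0) / K.b

/-- coefficients at the fine edge `z` -/
def Co.ks (K : Co) (z : ℤ) : List ℤ := K.cs ((z - K.e0) % K.b)

/-- fine differences from coarse ones -/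
def Co.comb (K : Co) (D : ℤ → ℤ) (z : ℤ) : ℤ := dotZ D (K.tp z) (K.ks z)

/-- all coefficients are nonnegative -/
def Co.Nn (K : Co) : Prop := ∀ z, ∀ k ∈ K.ks z, 0 ≤ k

/-- what is known about one value -/
inductive En where
  | ex (n : ℤ)
  | ge (n : ℤ)
  | le (n : ℤ)
  | un

def En.Sat : En → ℤ → Prop
  | .ex n, x => x = n
  | .ge n, x => n ≤ x
  | .le n, x => x ≤ n
  | .un, _ => True

/-- entries at the edges `I, I - 1, ...` -/
def SatD (D : ℤ → ℤ) : ℤ → List En → Prop
  | _, [] => True
  | I, e :: es => e.Sat (D I) ∧ SatD D (I - 1) es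

/-- entries at the edges `x, x + 1, ...` -/
def SatA (D : ℤ → ℤ) : ℤ → List En → Prop
  | _, [] => True
  | x, e :: es => e.Sat (D x) ∧ SatA D (x + 1) es

/-- a partial sum: value; is it a lower bound; is it an upper bound -/
structure Sm where
  v : ℤ
  lo : Bool
  hi : Bool

def Sm.add (s : Sm) (k : ℤ) : En → Sm
  | .ex n => ⟨s.v + k * n, s.lo, s.hi⟩
  | .ge n => ⟨s.v + k * n, s.lo, false⟩
  | .le n => ⟨s.v + k * n, false, s.hi⟩
  | .un => ⟨s.v, false, false⟩

def dot : List ℤ → List En → Sm
  | [], _ => ⟨.ofNat 0, true, true⟩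
  | k :: ks, [] => bif zeB k then dot ks [] else ⟨.ofNat 0, false, false⟩
  | k :: ks, e :: es => bif zeB k then dot ks es else (dot ks es).add k e

/-- a constraint at a fine edge: the value is `t`; or the value is at least `t`, and if it is more
then nothing else is known -/
inductive Cn where
  | eq (t : ℤ)
  | zp (t : ℤ)

/-- the value `t` is impossible -/
def excl (s : Sm) (t : ℤ) : Bool :=
  (s.lo && posB (s.v - t)) || (s.hi && negB (s.v - t))

/-- all values `≥ y` at the top edge `I` are impossible -/
def pos (R U : ℤ → List En → Bool) (I : ℤ) (vec : List En) : ℕ → ℤ → Bool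
  | 0, _ => false
  | n + 1, y => U I (.ge y :: vec) || (R I (.ex y :: vec) && pos R U I vec n (y + 1))

/-- target -/
def Cn.t : Cn → ℤ
  | .eq t => t
  | .zp t => t

/-- the constraint does not stop here; `s` is the sum, all summands are known -/
def stopK (R : ℤ → List En → Bool) (I : ℤ) (vec : List En) (s : Sm) : Cn → Bool
  | .eq _ => true
  | .zp t => (s.hi && !posB (s.v - t)) || R I vec

/-- the constraint does not stop here; `s` is the sum without the top edge `I + 1` -/
def stopN (R U : ℤ → List En → Bool) (I : ℤ) (vec : List En) (k : ℤ) (s : Sm) : Cn → Bool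
  | .eq _ => true
  | .zp t => bif s.hi then pos R U (I + 1) vec 9 (-((s.v - t - 1) / k)) else R I vec

/-- the new entry, if `k D + s` has the value `t`; `U` refutes, `f` continues -/
def ext (U : En → Bool) (k : ℤ) (s : Sm) (t : ℤ) (f : En → Bool) : Bool :=
  bif s.lo then
    (bif s.hi then (bif zeB ((t - s.v) % k) then f (.ex ((t - s.v) / k)) else true)
    else U (.le ((t - s.v) / k)) || f (.le ((t - s.v) / k)))
  else bif s.hi then U (.ge (-((s.v - t) / k))) || f (.ge (-((s.v - t) / k)))
  else f .un

/-- the constraints `cs` at the fine edges `z, z + 1, ...` are impossible; `vec` lists the entries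
at the coarse edges `I, I - 1, ...` -/
def run (K : Co) (R U Q : ℤ → List En → Bool) : ℤ → List En → ℤ → List Cn → Bool
  | I, vec, _, [] => Q I vec
  | I, vec, z, c :: cs =>
    match I - K.tp z with
    | .ofNat n => stopK R I vec (dot (K.ks z) (vec.drop n)) c &&
        (excl (dot (K.ks z) (vec.drop n)) c.t || run K R U Q I vec (z + 1) cs)
    | .negSucc 0 =>
      match K.ks z with
      | [] => false
      | k :: ks => posB k && stopN R U I vec k (dot ks vec) c &&
        ext (fun e => U (I + 1) (e :: vec)) k (dot ks vec) c.t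
          (fun e => run K R U Q (I + 1) (e :: vec) (z + 1) cs)
    | .negSucc (_ + 1) => false

/-- values `- n, ..., n` -/
def exs : ℕ → List En
  | 0 => [.ex (.ofNat 0)]
  | n + 1 => .ex (.ofNat (n + 1)) :: .ex (.negSucc n) :: exs n

/-- enumeration of `m` unknown values, then `run` -/
def start (K : Co) (X : ℕ) (R U Q : ℤ → List En → Bool) : ℕ → ℤ → List En → ℤ → List Cn → Bool
  | 0, I, vec, z, cs => run K R U Q I vec z cs
  | m + 1, I, vec, z, cs =>
    ((exs X).all fun e => start K X R U Q m (I + 1) (e :: vec) z cs) &&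
    (U (I + 1) (.ge (.ofNat (X + 1)) :: vec) ||
      start K X R U Q m (I + 1) (.ge (.ofNat (X + 1)) :: vec) z cs) &&
    (U (I + 1) (.le (.negSucc X) :: vec) ||
      start K X R U Q m (I + 1) (.le (.negSucc X) :: vec) z cs)

/-- the constraints `cs` at the fine edges `g, g + 1, ...` are impossible -/
def go (K : Co) (X : ℕ) (R U Q : ℤ → List En → Bool) (g : ℤ) (cs : List Cn) : Bool :=
  start K X R U Q ((K.ks g).length - 1) (K.tp g - (K.ks g).length) [] g cs

/-- the same for two first equations which determine two values: at `g` the coarse edges `I` and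
`I - 1` occur, at `g + 1` only `I` -/
def go2 (K : Co) (X : ℕ) (R U Q : ℤ → List En → Bool) (g : ℤ) (cs : List Cn) : Bool :=
  match cs with
  | .eq t0 :: .eq t1 :: cs' =>
    match K.ks (g + 1) with
    | [k] =>
      match K.ks g with
      | [a, a'] =>
        posB k && posB a' && zeB (K.tp (g + 1) - K.tp g) &&
        (bif zeB (t1 % k) then
          (bif zeB ((t0 - a * (t1 / k)) % a') then
            run K R U Q (K.tp g) [.ex (t1 / k), .ex ((t0 - a * (t1 / k)) / a')] (g + 2) cs'
          else true)
        else true)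
      | _ => go K X R U Q g cs
    | _ => go K X R U Q g cs
  | _ => go K X R U Q g cs

/-! ## Soundness -/

variable {D : ℤ → ℤ} {K : Co}

/-- the constraints hold; `P` if none stops -/
def Holds (K : Co) (D : ℤ → ℤ) (P : Prop) : ℤ → List Cn → Prop
  | _, [] => P
  | z, .eq t :: cs => K.comb D z = t ∧ Holds K D P (z + 1) cs
  | z, .zp t :: cs => t < K.comb D z ∨ (K.comb D z = t ∧ Holds K D P (z + 1) cs)

theorem satD_drop : ∀ (n : ℕ) {I : ℤ} {vec : List En}, SatD D I vec → SatD D (I - n) (vec.drop n)
  | 0, I, vec, h => by simpa using h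
  | n + 1, I, [], _ => by simp [SatD]
  | n + 1, I, e :: es, h => by
    rw [List.drop_succ_cons, show I - ((n + 1 : ℕ) : ℤ) = I - 1 - n by push_cast; ring]
    exact satD_drop n h.2

theorem dot_sound : ∀ (ks : List ℤ) {I : ℤ} {vec : List En}, (∀ k ∈ ks, 0 ≤ k) → SatD D I vec →
    ((dot ks vec).lo = true → (dot ks vec).v ≤ dotZ D I ks) ∧
    ((dot ks vec).hi = true → dotZ D I ks ≤ (dot ks vec).v)
  | [], I, vec, _, _ => ⟨fun _ => le_rfl, fun _ => le_rfl⟩
  | k :: ks, I, [], hk, _ => by
    unfold dot
    rcases h0 : zeB k with _ | _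
    · exact ⟨fun h => by simp at h, fun h => by simp at h⟩
    · have ih := dot_sound ks (I := I - 1) (vec := [])
        (fun k h => hk k (List.mem_cons_of_mem _ h)) (show SatD D (I - 1) [] from trivial)
      have e : dotZ D I (k :: ks) = dotZ D (I - 1) ks := by
        change k * D I + dotZ D (I - 1) ks = _
        rw [zeB_iff.1 h0, zero_mul, zero_add]
      rw [e]
      exact ih
  | k :: ks, I, e :: es, hk, h => by
    have hk0 : 0 ≤ k := hk k (by simp)
    have ih := dot_sound ks (fun k h => hk k (List.mem_cons_of_mem _ h)) h.2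
    unfold dot
    rcases h0 : zeB k with _ | _
    · change (_ → _ ≤ k * D I + dotZ D (I - 1) ks) ∧ (_ → k * D I + dotZ D (I - 1) ks ≤ _)
      have h1 := h.1
      simp only [cond_false]
      rcases e with n | n | n | _
      · have h1 : D I = n := h1
        refine ⟨fun h2 => ?_, fun h2 => ?_⟩
        · have := ih.1 h2
          change (dot ks es).v + k * n ≤ _
          rw [h1]
          linarith
        · have := ih.2 h2
          change _ ≤ (dot ks es).v + k * n
          rw [h1]
          linarith
      · have h1 : n ≤ D I := h1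
        refine ⟨fun h2 => ?_, fun h2 => by simp [Sm.add] at h2⟩
        have := ih.1 h2
        change (dot ks es).v + k * n ≤ _
        have := mul_le_mul_of_nonneg_left h1 hk0
        linarith
      · have h1 : D I ≤ n := h1
        refine ⟨fun h2 => by simp [Sm.add] at h2, fun h2 => ?_⟩
        have := ih.2 h2
        change _ ≤ (dot ks es).v + k * n
        have := mul_le_mul_of_nonneg_left h1 hk0
        linarith
      · exact ⟨fun h2 => by simp [Sm.add] at h2, fun h2 => by simp [Sm.add] at h2⟩
    · have e : dotZ D I (k :: ks) = dotZ D (I - 1) ks := by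
        change k * D I + dotZ D (I - 1) ks = _
        rw [zeB_iff.1 h0, zero_mul, zero_add]
      rw [e]
      exact ih

theorem excl_sound {s : Sm} {t x : ℤ} (h : (s.lo = true → s.v ≤ x) ∧ (s.hi = true → x ≤ s.v))
    (he : excl s t = true) : x ≠ t := by
  rintro rfl
  simp only [excl, Bool.or_eq_true, Bool.and_eq_true, posB_iff, negB_iff] at he
  rcases he with ⟨h1, h2⟩ | ⟨h1, h2⟩
  · have := h.1 h1
    omega
  · have := h.2 h1
    omega

section run

variable {R U Q : ℤ → List En → Bool} {P : Prop}
  (hR : ∀ I vec, SatD D I vec → R I vec = true → False)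
  (hU : ∀ I vec, SatD D I vec → U I vec = true → False)
  (hQ : ∀ I vec, SatD D I vec → P → Q I vec = true → False)

include hR hU in
theorem pos_sound {I : ℤ} {vec : List En} (hv : SatD D (I - 1) vec) : ∀ (n : ℕ) (y : ℤ),
    y ≤ D I → pos R U I vec n y = true → False
  | 0, y, _, h2 => by simp [pos] at h2
  | n + 1, y, h1, h2 => by
    simp only [pos, Bool.or_eq_true, Bool.and_eq_true] at h2
    rcases h2 with h2 | ⟨h2, h3⟩
    · exact hU I (.ge y :: vec) ⟨h1, hv⟩ h2
    · rcases eq_or_lt_of_le h1 with h4 | h4
      · exact hR I (.ex y :: vec) ⟨h4.symm, hv⟩ h2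
      · exact pos_sound hv n (y + 1) (by omega) h3

theorem ext_sound {U : En → Bool} {f : En → Bool} {k : ℤ} {s : Sm} {t x y : ℤ} (hk : 0 < k)
    (hs : (s.lo = true → s.v ≤ y) ∧ (s.hi = true → y ≤ s.v)) (ht : k * x + y = t)
    (hU : ∀ e : En, e.Sat x → U e = true → False) (hf : ∀ e : En, e.Sat x → f e = true → False)
    (h : ext U k s t f = true) : False := by
  unfold ext at h
  rcases c1 : s.lo with _ | _ <;> rcases c2 : s.hi with _ | _ <;>
    simp only [c1, c2, cond_true, cond_false, Bool.or_eq_true] at h
  · exact hf .un trivial h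
  · have e1 := hs.2 c2
    have e3 : (En.ge (-((s.v - t) / k))).Sat x := by
      change -((s.v - t) / k) ≤ x
      have : -x ≤ (s.v - t) / k := by
        rw [Int.le_ediv_iff_mul_le hk]
        linarith
      omega
    exact h.elim (hU _ e3) (hf _ e3)
  · have e1 := hs.1 c1
    have e3 : (En.le ((t - s.v) / k)).Sat x := by
      change x ≤ (t - s.v) / k
      rw [Int.le_ediv_iff_mul_le hk]
      linarith
    exact h.elim (hU _ e3) (hf _ e3)
  · have e1 := hs.1 c1
    have e2 := hs.2 c2
    have e3 : t - s.v = k * x := by linarith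
    rcases c3 : zeB ((t - s.v) % k) with _ | _
    · rw [← Bool.not_eq_true, zeB_iff, e3] at c3
      exact c3 (Int.mul_emod_right _ _)
    · rw [c3, cond_true] at h
      refine hf (.ex ((t - s.v) / k)) ?_ h
      change x = (t - s.v) / k
      rw [e3, Int.mul_ediv_cancel_left _ hk.ne']

include hR hU hQ in
theorem run_sound (hN : K.Nn) : ∀ (cs : List Cn) (I : ℤ) (vec : List En) (z : ℤ),
    SatD D I vec → Holds K D P z cs → run K R U Q I vec z cs = true → False
  | [], I, vec, z, h1, h2, h3 => hQ _ _ h1 h2 h3
  | c :: cs, I, vec, z, h1, h2, h3 => by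
    -- continuing or stopping
    have hcs : (K.comb D z = c.t ∧ Holds K D P (z + 1) cs) ∨ ∃ t, c = .zp t ∧ t < K.comb D z := by
      rcases c with t | t
      · exact Or.inl h2
      · rcases h2 with h2 | h2
        · exact Or.inr ⟨t, rfl, h2⟩
        · exact Or.inl h2
    unfold run at h3
    rcases hz : I - K.tp z with n | _ | n
    · have hz' : I - (n : ℤ) = K.tp z := by
        have : I - K.tp z = (n : ℤ) := hz
        omega
      have hk : ((dot (K.ks z) (vec.drop n)).lo = true →
          (dot (K.ks z) (vec.drop n)).v ≤ K.comb D z) ∧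
          ((dot (K.ks z) (vec.drop n)).hi = true →
          K.comb D z ≤ (dot (K.ks z) (vec.drop n)).v) := by
        have h4 := satD_drop n h1
        rw [hz'] at h4
        exact dot_sound _ (hN z) h4
      rw [hz] at h3
      simp only [Bool.and_eq_true, Bool.or_eq_true] at h3
      rcases hcs with ⟨h4, h5⟩ | ⟨t, rfl, h4⟩
      · rcases h3.2 with h6 | h6
        · exact excl_sound hk h6 h4
        · exact run_sound hN cs I vec (z + 1) h1 h5 h6
      · have h6 := h3.1
        simp only [stopK, Bool.or_eq_true, Bool.and_eq_true, Bool.not_eq_true'] at h6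
        rcases h6 with h6 | h6
        · have h7 := hk.2 h6.1
          have h8 : 0 < (dot (K.ks z) (vec.drop n)).v - t := by omega
          rw [← posB_iff, h6.2] at h8
          exact absurd h8 (by simp)
        · exact hR _ _ h1 h6
    · have hz' : K.tp z = I + 1 := by
        have : I - K.tp z = -1 := hz
        omega
      rw [hz] at h3
      simp only at h3
      rcases hks : K.ks z with _ | ⟨k, ks⟩
      · rw [hks] at h3
        simp at h3
      rw [hks] at h3
      simp only [Bool.and_eq_true, posB_iff] at h3
      obtain ⟨⟨hk0, h3⟩, h7⟩ := h3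
      have hks0 : ∀ k ∈ ks, 0 ≤ k := fun k' h => hN z k' (by rw [hks]; exact List.mem_cons_of_mem _ h)
      have hd := dot_sound (D := D) ks hks0 h1
      have hc : K.comb D z = k * D (I + 1) + dotZ D I ks := by
        unfold Co.comb
        rw [hks, hz']
        change k * D (I + 1) + dotZ D (I + 1 - 1) ks = _
        rw [show I + 1 - 1 = I by ring]
      have hv : ∀ e : En, e.Sat (D (I + 1)) → SatD D (I + 1) (e :: vec) := fun e he =>
        ⟨he, by rwa [show I + 1 - 1 = I by ring]⟩
      rcases hcs with ⟨h4, h5⟩ | ⟨t, rfl, h4⟩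
      · exact ext_sound hk0 hd (hc.symm.trans h4) (fun e he => hU _ _ (hv e he))
          (fun e he => run_sound hN cs _ _ _ (hv e he) h5) h7
      · unfold stopN at h3
        rcases c1 : (dot ks vec).hi with _ | _
        · rw [c1] at h3
          exact hR _ _ h1 h3
        · rw [c1] at h3
          have e1 := hd.2 c1
          refine pos_sound hR hU (by rwa [show I + 1 - 1 = I by ring]) 9 _ ?_ h3
          have : - D (I + 1) ≤ ((dot ks vec).v - t - 1) / k := by
            rw [Int.le_ediv_iff_mul_le hk0]
            rw [hc] at h4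
            linarith
          omega
    · rw [hz] at h3
      simp at h3

theorem exs_mem : ∀ (X : ℕ) {x : ℤ}, -(X : ℤ) ≤ x → x ≤ X → ∃ e ∈ exs X, e.Sat x
  | 0, x, h1, h2 => ⟨.ex 0, by simp [exs], by
      change x = 0
      push_cast at h1 h2
      omega⟩
  | n + 1, x, h1, h2 => by
    push_cast at h1 h2
    by_cases h3 : x = n + 1
    · exact ⟨.ex (.ofNat (n + 1)), by simp [exs], by
        change x = ((n + 1 : ℕ) : ℤ)
        push_cast
        exact h3⟩
    · by_cases h4 : x = -(n + 1 : ℤ)
      · exact ⟨.ex (.negSucc n), by simp [exs], by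
          change x = Int.negSucc n
          rw [Int.negSucc_eq]
          exact h4⟩
      · obtain ⟨e, h5, h6⟩ := exs_mem n (x := x) (by omega) (by omega)
        exact ⟨e, by simp [exs, h5], h6⟩

include hR hU hQ in
theorem start_sound (hN : K.Nn) (X : ℕ) : ∀ (m : ℕ) (I : ℤ) (vec : List En) (z : ℤ) (cs : List Cn),
    SatD D I vec → Holds K D P z cs → start K X R U Q m I vec z cs = true → False
  | 0, I, vec, z, cs, h1, h2, h3 => run_sound hR hU hQ hN cs I vec z h1 h2 h3
  | m + 1, I, vec, z, cs, h1, h2, h3 => by
    simp only [start, Bool.and_eq_true, List.all_eq_true, Bool.or_eq_true] at h3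
    obtain ⟨⟨h4, h5⟩, h6⟩ := h3
    have hv : ∀ e : En, e.Sat (D (I + 1)) → SatD D (I + 1) (e :: vec) := fun e he =>
      ⟨he, by rwa [show I + 1 - 1 = I by ring]⟩
    rcases lt_or_ge (X : ℤ) (D (I + 1)) with h7 | h7
    · have h8 : (En.ge (.ofNat (X + 1))).Sat (D (I + 1)) := by
        change ((X + 1 : ℕ) : ℤ) ≤ _
        push_cast
        omega
      rcases h5 with h5 | h5
      · exact hU _ _ (hv _ h8) h5
      · exact start_sound hN X m _ _ _ _ (hv _ h8) h2 h5
    · rcases lt_or_ge (D (I + 1)) (-(X : ℤ)) with h9 | h9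
      · have h8 : (En.le (.negSucc X)).Sat (D (I + 1)) := by
          change _ ≤ Int.negSucc X
          rw [Int.negSucc_eq]
          omega
        rcases h6 with h6 | h6
        · exact hU _ _ (hv _ h8) h6
        · exact start_sound hN X m _ _ _ _ (hv _ h8) h2 h6
      · obtain ⟨e, h10, h11⟩ := exs_mem X h9 h7
        exact start_sound hN X m _ _ _ _ (hv _ h11) h2 (h4 e h10)

include hR hU hQ in
/-- **Soundness of the refuter.** -/
theorem go_sound (hN : K.Nn) {X : ℕ} {g : ℤ} {cs : List Cn} (h : Holds K D P g cs)
    (hg : go K X R U Q g cs = true) : False :=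
  start_sound hR hU hQ hN X _ _ [] g cs trivial h hg

include hR hU hQ in
theorem go2_sound (hN : K.Nn) {X : ℕ} {g : ℤ} {cs : List Cn} (h : Holds K D P g cs)
    (hg : go2 K X R U Q g cs = true) : False := by
  unfold go2 at hg
  split at hg
  · rename_i t0 t1 cs'
    split at hg
    · rename_i k hk
      split at hg
      · rename_i a a' ha
        simp only [Bool.and_eq_true, posB_iff, zeB_iff] at hg
        obtain ⟨⟨⟨hg1, hg2⟩, hg3⟩, hg4⟩ := hg
        obtain ⟨h0, h1, h2⟩ := h
        have e1 : k * D (K.tp g) = t1 := by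
          rw [← h1]
          unfold Co.comb
          rw [hk, show K.tp (g + 1) = K.tp g by omega]
          simp [dotZ]
        have e0 : a * D (K.tp g) + a' * D (K.tp g - 1) = t0 := by
          rw [← h0]
          unfold Co.comb
          rw [ha]
          simp [dotZ]
        have e2 : t1 / k = D (K.tp g) := by
          rw [← e1, Int.mul_ediv_cancel_left _ hg1.ne']
        have e3 : t1 % k = 0 := by
          rw [← e1]
          exact Int.mul_emod_right _ _
        have e4 : t0 - a * (t1 / k) = a' * D (K.tp g - 1) := by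
          rw [e2, ← e0]
          ring
        rw [zeB_iff.2 e3, cond_true, e4, zeB_iff.2 (Int.mul_emod_right _ _), cond_true,
          Int.mul_ediv_cancel_left _ hg2.ne'] at hg4
        refine run_sound hR hU hQ hN cs' _ _ _ ?_ ?_ hg4
        · exact ⟨e2.symm, rfl, trivial⟩
        · rwa [show g + 1 + 1 = g + 2 by ring] at h2
      · exact go_sound hR hU hQ hN h hg
    · exact go_sound hR hU hQ hN h hg
  · exact go_sound hR hU hQ hN h hg

end run

end LWG
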