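import Pool.Agent.LWG.EvK

/-!
# Substitution words: no violation of unimodality in a child window (root check)

For windows between recorded letters there are no minimal violations: it is checked that there are no
edges `x < y` with `F x < 0 < F y`, zeros between, for `x` (or `y`, mirror image) where the noise is
not zero; elsewhere `F` is the refinement of `D`, which is unimodal.

* `rootS`: a value `≤ t` at `x`, then the constraints `cs`, are impossible; `rootS_sound`;
* `rootV`: all edges of one pair of letters; **`rootV_sound`**.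
-/

namespace LWG

open LevelWords (Uni)

variable {D F : ℤ → ℤ} {K K' : Co}

/-- all values `≤ y` are impossible -/
def dnQ (f : En → Bool) : ℕ → ℤ → Bool
  | 0, _ => false
  | n + 1, y => (negB y && f (.le y)) || (f (.ex y) && dnQ f n (y - 1))

theorem dnQ_sound {f : En → Bool} {q : ℤ} (hf : ∀ e : En, e.Sat q → f e = true → False) :
    ∀ (n : ℕ) (y : ℤ), q ≤ y → dnQ f n y = true → False
  | 0, y, _, h => by simp [dnQ] at h
  | n + 1, y, h1, h => by
    simp only [dnQ, Bool.or_eq_true, Bool.and_eq_true] at h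
    rcases h with h | h
    · exact hf (.le y) h1 h.2
    · rcases eq_or_lt_of_le h1 with h2 | h2
      · exact hf (.ex y) h2 h.1
      · exact dnQ_sound hf n (y - 1) (by omega) h.2

/-- an upper bound from `U'` (`U' g`: all values `≥ g` are impossible), else `b` -/
def cutU (U' : ℤ → Bool) (f : ℤ → Bool) (b : Unit → Bool) : ℕ → ℤ → Bool
  | 0, _ => b ()
  | n + 1, g => bif U' g then f (g - 1) else cutU U' f b n (g + 1)

theorem cutU_sound {U' : ℤ → Bool} {f : ℤ → Bool} {b : Unit → Bool} {q : ℤ}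
    (hU : ∀ g, g ≤ q → U' g = true → False) (hf : ∀ y, q ≤ y → f y = true → False)
    (hb : b () = true → False) : ∀ (n : ℕ) (g : ℤ), cutU U' f b n g = true → False
  | 0, _, h => hb h
  | n + 1, g, h => by
    unfold cutU at h
    rcases h1 : U' g with _ | _
    · rw [h1, cond_false] at h
      exact cutU_sound hU hf hb n (g + 1) h
    · rw [h1, cond_true] at h
      refine hf (g - 1) ?_ h
      by_contra hc
      exact hU g (by omega) h1

/-- minimum -/
def mn (a b : ℤ) : ℤ := bif negB (a - b) then a else b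

theorem le_mn {a b q : ℤ} (h1 : q ≤ a) (h2 : q ≤ b) : q ≤ mn a b := by
  unfold mn
  rcases negB (a - b) with _ | _
  · exact h2
  · exact h1

/-- the top value, when the values below are known; `s` is the sum without it -/
def topS (U' : En → Bool) (f : En → Bool) (k t : ℤ) (s : Sm) : Bool :=
  bif s.lo then
    (bif negB ((t - s.v) / k) then dnQ f 14 ((t - s.v) / k)
    else cutU (fun g => U' (.ge g)) (fun y => dnQ f 14 (mn y ((t - s.v) / k)))
      (fun _ => dnQ f 14 ((t - s.v) / k)) 4 (.ofNat 0))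
  else cutU (fun g => U' (.ge g)) (fun y => dnQ f 14 y) (fun _ => false) 4 (.ofNat 0)

theorem topS_sound {U' f : En → Bool} {k t q y : ℤ} {s : Sm} (hk : 0 < k)
    (hs : s.lo = true → s.v ≤ y) (ht : k * q + y ≤ t)
    (hU : ∀ e : En, e.Sat q → U' e = true → False) (hf : ∀ e : En, e.Sat q → f e = true → False)
    (h : topS U' f k t s = true) : False := by
  unfold topS at h
  rcases c1 : s.lo with _ | _ <;> simp only [c1, cond_true, cond_false] at h
  · exact cutU_sound (fun g hg h' => hU (.ge g) hg h') (fun y hy h' => dnQ_sound hf 14 y hy h')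
      (by simp) _ _ h
  · have h0 : q ≤ (t - s.v) / k := by
      rw [Int.le_ediv_iff_mul_le hk]
      have := hs c1
      linarith
    rcases c2 : negB ((t - s.v) / k) with _ | _ <;> simp only [c2, cond_true, cond_false] at h
    · exact cutU_sound (fun g hg h' => hU (.ge g) hg h')
        (fun y hy h' => dnQ_sound hf 14 _ (le_mn hy h0) h') (dnQ_sound hf 14 _ h0) _ _ h
    · exact dnQ_sound hf 14 _ h0 h

/-- contradiction by the elimination of the top value from `≤ t` at `x`, `≥ t1` at `x + 1` -/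
def elimR (K : Co) (x t : ℤ) (cs : List Cn) (a : ℤ) (as : List ℤ) (vec : List En) : Bool :=
  match cs with
  | c1 :: _ => zeB (K.tp (x + 1) - K.tp x) &&
    (match K.ks (x + 1) with
    | k :: ks => posB k && (dotS (elC a k as ks) vec).lo &&
        posB ((dotS (elC a k as ks) vec).v - (k * t - a * c1.t))
    | _ => false)
  | _ => false

theorem elimR_sound {P : Prop} {x t a : ℤ} {as : List ℤ} (ha : K.ks x = a :: as) (ha0 : 0 < a)
    {cs : List Cn} (h1 : K.comb D x ≤ t) (hH : Holds K D P (x + 1) cs) {vec : List En}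
    (hv : SatD D (K.tp x - 1) vec) (h : elimR K x t cs a as vec = true) : False := by
  unfold elimR at h
  rcases cs with _ | ⟨c1, cs'⟩
  · simp at h
  simp only [Bool.and_eq_true, zeB_iff] at h
  obtain ⟨h2, h⟩ := h
  split at h
  · rename_i k ks hk
    simp only [Bool.and_eq_true, posB_iff] at h
    obtain ⟨⟨h3, h4⟩, h5⟩ := h
    have h6 := (dotS_sound (elC a k as ks) hv).1 h4
    rw [dotZ_elC] at h6
    have e0 : a * D (K.tp x) + dotZ D (K.tp x - 1) as ≤ t := by
      refine le_trans (le_of_eq ?_) h1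
      unfold Co.comb
      rw [ha]
      rfl
    have e1 : c1.t ≤ k * D (K.tp x) + dotZ D (K.tp x - 1) ks := by
      have e2 : K.comb D (x + 1) = k * D (K.tp x) + dotZ D (K.tp x - 1) ks := by
        unfold Co.comb
        rw [hk, show K.tp (x + 1) = K.tp x by omega]
        rfl
      rw [← e2]
      rcases c1 with t1 | t1
      · exact hH.1.ge
      · rcases hH with h7 | h7
        · exact h7.le
        · exact h7.1.ge
    have e2 := mul_le_mul_of_nonneg_left e1 ha0.le
    have e3 := mul_le_mul_of_nonneg_left e0 h3.le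
    have e4 : k * dotZ D (K.tp x - 1) as - a * dotZ D (K.tp x - 1) ks ≤ k * t - a * c1.t := by
      linarith
    omega
  · simp at h

/-- A value `≤ t` at the fine edge `x`, then the constraints `cs` from `x + 1` on, are impossible. -/
def rootS (K : Co) (X : ℕ) (R U Q : ℤ → List En → Bool) (x t : ℤ) (cs : List Cn) : Bool :=
  match K.ks x with
  | [] => false
  | k :: ks => posB k && startS X U [] (fun vec => elimR K x t cs k ks vec ||
      topS (fun e => U (K.tp x) (e :: vec))
        (fun e => U (K.tp x) (e :: vec) || run K R U Q (K.tp x) (e :: vec) (x + 1) cs) k t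
        (dot ks vec))
      (List.replicate ks.length none) (K.tp x - 1 - ks.length) []

theorem okSs_rep (K : Co) (r : ℤ) : ∀ n : ℕ, okSs K r (List.replicate n none) = true
  | 0 => rfl
  | n + 1 => by
    rw [List.replicate_succ]
    exact okSs_rep K r n

section sound

variable {R U Q : ℤ → List En → Bool} {P : Prop}
  (hR : ∀ I vec, SatD D I vec → R I vec = true → False)
  (hU : ∀ I vec, SatD D I vec → U I vec = true → False)
  (hQ : ∀ I vec, SatD D I vec → P → Q I vec = true → False)

include hR hU hQ in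
theorem rootS_sound (hN : K.Nn) (hb : 0 < K.b) {X : ℕ} {x t : ℤ} {cs : List Cn}
    (h1 : K.comb D x ≤ t) (h2 : Holds K D P (x + 1) cs) (h : rootS K X R U Q x t cs = true) :
    False := by
  unfold rootS at h
  rcases hks : K.ks x with _ | ⟨k, ks⟩
  · rw [hks] at h
    simp at h
  rw [hks] at h
  simp only [Bool.and_eq_true, posB_iff] at h
  obtain ⟨hk, h⟩ := h
  refine startS_sound (P := True) (g := x) (cs := []) hU trivial (fun vec hv hf => ?_) hb rfl
    (List.replicate ks.length none) (K.tp x - 1 - ks.length) []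
    (by rw [List.length_replicate]; ring) (okSs_rep K _ _) (show SatD D _ [] from trivial) h
  have hc : K.comb D x = k * D (K.tp x) + dotZ D (K.tp x - 1) ks := by
    unfold Co.comb
    rw [hks]
    rfl
  have hks0 : ∀ k ∈ ks, 0 ≤ k := fun k' h' => hN x k' (by rw [hks]; exact List.mem_cons_of_mem _ h')
  rw [hc] at h1
  have hv' : ∀ e : En, e.Sat (D (K.tp x)) → SatD D (K.tp x) (e :: vec) := fun e he => ⟨he, hv⟩
  rw [Bool.or_eq_true] at hf
  rcases hf with hf | hf
  · exact elimR_sound hks hk (by rw [hc]; exact h1) h2 hv hf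
  refine topS_sound hk (dot_sound ks hks0 hv).1 h1 (fun e he h' => hU _ _ (hv' e he) h')
    (fun e he h' => ?_) hf
  rw [Bool.or_eq_true] at h'
  exact h'.elim (hU _ _ (hv' e he)) (run_sound hR hU hQ hN cs _ _ _ (hv' e he) h2)

end sound

/-! ## One pair of letters -/

/-- a negative value at `x`, zeros, a positive value: impossible -/
def rS (K : Co) (X : ℕ) (m : ℤ) (lv rv : List (List ℤ)) (ps : List Pat)
    (d n0 bd Z nk x : ℤ) (u w : List ℤ) : Bool :=
  rootS K X (leaf m lv rv ps d) (inadm m lv rv d) (leafF m lv rv ps d (K.tp (Z + 1) - nk)) x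
    (.negSucc 0 - (hd (sha n0 u x) + hd (sha n0 w (x - bd))))
    (tgZ (Z - x).toNat (sha n0 u x).tail (sha n0 w (x - bd)).tail)

variable {m : ℤ} {lv rv : List (List ℤ)} {ps : List Pat} {d : ℤ}

theorem rS_sound (hN : K.Nn) (hb : 0 < K.b) {nk : ℤ}
    (hl : ∀ z, ((K.ks z).length : ℤ) ≤ nk + 1) (h : LocV m lv rv ps d D) {X : ℕ}
    {n0 bd Z x : ℤ} {u w : List ℤ} (hF : ∀ z, F z = nz n0 u z + K.comb D z + nz n0 w (z - bd))
    (hu : n0 + u.length ≤ Z + 1) (hw : bd + n0 + w.length ≤ Z + 1)
    (hc : rS K X m lv rv ps d n0 bd Z nk x u w = true) {y : ℤ} (hxy : x < y) (hx : F x < 0)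
    (hy : 0 < F y) (h0 : ∀ z, x < z → z < y → F z = 0) : False := by
  unfold rS at hc
  have a1 := val_sha n0 u x
  have a2 := val_sha' n0 w x bd
  rw [tgZ_eq (N := fun z => nz n0 u z + nz n0 w (z - bd)) (fun _ => rfl) _ a1.tail a2.tail] at hc
  rw [a1.hd, a2.hd] at hc
  have hZ : ∀ z, Z < z → nz n0 u z + nz n0 w (z - bd) = 0 := fun z hz => by
    rw [nz_zero (by omega), nz_zero (by omega)]
    rfl
  refine rootS_sound (P := ∃ y, Z < y ∧ 0 < K.comb D y) h.leaf (fun _ _ hv => h.inadm hv)
    (fun I vec hv hP => by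
      obtain ⟨y, hy, hy'⟩ := hP
      exact h.leafF (comb_pos hN hb hl hy hy') I vec hv) hN hb ?_
    (holds_zps' (F := F) (y := y) (fun z => by rw [hF]; ring) hZ hy _ _ (by omega) (by omega)
      fun w h1 h2 => h0 w (by omega) h2) hc
  have h1 := hF x
  have h2 : (Int.negSucc 0 : ℤ) = -1 := rfl
  rw [h2]
  linarith

/-- the edges `n0, ..., n0 + n - 1` -/
def edg : ℕ → ℤ → List ℤ
  | 0, _ => []
  | n + 1, x => x :: edg n (x + 1)

theorem mem_edg : ∀ {n : ℕ} {x0 x : ℤ}, x0 ≤ x → x < x0 + n → x ∈ edg n x0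
  | 0, x0, x, h1, h2 => by
    push_cast at h2
    omega
  | n + 1, x0, x, h1, h2 => by
    rcases eq_or_lt_of_le h1 with h3 | h3
    · rw [h3]
      exact List.mem_cons_self
    · exact List.mem_cons_of_mem _ (mem_edg (by omega) (by push_cast at h2; omega))

/-- `rS` at the edges with noise -/
def rZ (K : Co) (X : ℕ) (m : ℤ) (lv rv : List (List ℤ)) (ps : List Pat)
    (d n0 bd Z nk : ℤ) (u w : List ℤ) (x : ℤ) : Bool :=
  zeB (hd (sha n0 u x) + hd (sha n0 w (x - bd))) ||
    rS K X m lv rv ps d n0 bd (mx Z (x + nk)) nk x u w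

/-- `F` is unimodal: root check at all edges of the two noises, and of their mirror images -/
def rootV (K K' : Co) (X : ℕ) (m : ℤ) (lv rv : List (List ℤ)) (ps : List Pat)
    (lv' rv' : List (List ℤ)) (ps' : List Pat) (d n0 : ℤ) (N : ℕ) (bd Z Z' nk : ℤ)
    (u w : List ℤ) : Bool :=
  ((edg N n0).all (rZ K X m lv rv ps d n0 bd Z nk u w)) &&
  ((edg N (bd + n0)).all (rZ K X m lv rv ps d n0 bd Z nk u w)) &&
  ((edg N (-n0 - N)).all (rZ K' X m lv' rv' ps' (-d) (-n0 - N) (-bd) Z' nk (mv u) (mv w))) &&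
  ((edg N (-bd - n0 - N)).all (rZ K' X m lv' rv' ps' (-d) (-n0 - N) (-bd) Z' nk (mv u) (mv w)))

theorem rootV_sound (hN : K.Nn) (hN' : K'.Nn) (hb : 0 < K.b) (hb' : 0 < K'.b) {nk : ℤ}
    (hl : ∀ z, ((K.ks z).length : ℤ) ≤ nk + 1) (hl' : ∀ z, ((K'.ks z).length : ℤ) ≤ nk + 1)
    (hm : ∀ z, K'.comb (mir D) z = mir (K.comb D) z) (hU : Uni (K.comb D))
    (h : LocV m lv rv ps d D) {lv' rv' : List (List ℤ)} {ps' : List Pat}
    (h' : LocV m lv' rv' ps' (-d) (mir D)) {X N : ℕ} {n0 bd Z Z' : ℤ} {u w : List ℤ}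
    (hF : ∀ z, F z = nz n0 u z + K.comb D z + nz n0 w (z - bd)) (hu : u.length = N)
    (hw : w.length = N) (hZ : max (n0 + N) (bd + n0 + N) ≤ Z + 1)
    (hZ' : max (-n0) (-bd - n0) ≤ Z' + 1)
    (hc : rootV K K' X m lv rv ps lv' rv' ps' d n0 N bd Z Z' nk u w = true) : Uni F := by
  intro x0 y0 hxy0 hx0 hy0
  obtain ⟨x, y, -, hxy, -, hx, hy, h0⟩ := exists_close (y0 - x0).toNat (by omega) hxy0 hx0 hy0
  unfold rootV at hc
  simp only [Bool.and_eq_true, List.all_eq_true] at hc
  obtain ⟨⟨⟨hc1, hc2⟩, hc3⟩, hc4⟩ := hc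
  have hF' : ∀ z, mir F z = nz (-n0 - N) (mv u) z + K'.comb (mir D) z +
      nz (-n0 - N) (mv w) (z - -bd) := fun z => by
    rw [hm, nz_mv hu, nz_mv hw]
    unfold mir
    rw [hF, show -1 - z - bd = -1 - (z - -bd) by ring]
    ring
  have e1 := mx_ge Z (x + nk)
  have e2 := mx_ge Z' (-1 - y + nk)
  have c1 : ∀ z, ¬ (n0 ≤ z ∧ z < n0 + N) → nz n0 u z = 0 := fun z hz =>
    nz_out (by rw [hu]; omega)
  have c2 : ∀ z, ¬ (bd + n0 ≤ z ∧ z < bd + n0 + N) → nz n0 w (z - bd) = 0 := fun z hz =>
    nz_out (by rw [hw]; omega)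
  -- `x` in the noise
  by_cases a0 : nz n0 u x + nz n0 w (x - bd) = 0
  swap
  · have key : rZ K X m lv rv ps d n0 bd Z nk u w x = true := by
      by_cases a1 : n0 ≤ x ∧ x < n0 + N
      · exact hc1 x (mem_edg a1.1 a1.2)
      by_cases a2 : bd + n0 ≤ x ∧ x < bd + n0 + N
      · exact hc2 x (mem_edg a2.1 a2.2)
      rw [c1 x a1, c2 x a2] at a0
      exact absurd rfl a0
    unfold rZ at key
    rw [Bool.or_eq_true, zeB_iff, (val_sha n0 u x).hd, (val_sha' n0 w x bd).hd] at key
    rcases key with key | key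
    · exact a0 key
    exact rS_sound hN hb hl h hF (by omega) (by omega) key hxy hx hy h0
  -- mirror image
  by_cases a1 : nz n0 u y + nz n0 w (y - bd) = 0
  swap
  · have key : rZ K' X m lv' rv' ps' (-d) (-n0 - N) (-bd) Z' nk (mv u) (mv w) (-1 - y) = true := by
      by_cases a3 : n0 ≤ y ∧ y < n0 + N
      · exact hc3 _ (mem_edg (by omega) (by omega))
      by_cases a4 : bd + n0 ≤ y ∧ y < bd + n0 + N
      · exact hc4 _ (mem_edg (by omega) (by omega))
      rw [c1 y a3, c2 y a4] at a1
      exact absurd rfl a1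
    unfold rZ at key
    rw [Bool.or_eq_true, zeB_iff, (val_sha _ _ _).hd, (val_sha' _ _ _ _).hd, nz_mv hu, nz_mv hw] at key
    rw [show -1 - (-1 - y) = y by ring, show -1 - (-1 - y - -bd) = y - bd by ring] at key
    rcases key with key | key
    · exact a1 (by linarith)
    refine rS_sound hN' hb' hl' h' hF' ?_ ?_ key (y := -1 - x) (by omega) ?_ ?_ ?_
    · rw [mv_length, hu]
      omega
    · rw [mv_length, hw]
      omega
    · unfold mir
      rw [show -1 - (-1 - y) = y by ring]
      omega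
    · unfold mir
      rw [show -1 - (-1 - x) = x by ring]
      omega
    · intro z h3 h4
      unfold mir
      rw [h0 (-1 - z) (by omega) (by omega)]
      rfl
  have f1 := hF x
  have f2 := hF y
  exact hU x y hxy (by omega) (by omega)

end LWG
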