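import Pool.Agent.LWG.GrowRec

/-!
# Windows between recorded letters, with a kernel

The differences are convolved with a list `g`. The convolved differences of a child window are refined with the
coefficients of `Ker`. Only windows between recorded letters are considered.

* `Tab.kpre`: convolved differences of the first letters of a block, `Tab.kF`: of a child window;
* **`Tab.Sim`**: a relation which contains the windows inside a block, is preserved, and gives unimodality;
* **`sim_uni`**, **`lines_sim`**: pseudolines from a simulation.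
-/

set_option autoImplicit false

open Finset LevelLower LevelPseudo LevelWords

namespace LWG

/-! ### Convolution -/

/-- convolution with the list `g` -/
def cv (g : List ℤ) (f : ℤ → ℤ) (y : ℤ) : ℤ :=
  ((List.range g.length).map fun (k : ℕ) => g.getD k 0 * f (y - k)).sum

theorem cv_congr (g : List ℤ) {f h : ℤ → ℤ} (e : ∀ y, f y = h y) (y : ℤ) : cv g f y = cv g h y := by
  rw [funext e]

theorem cv_add (g : List ℤ) (f h : ℤ → ℤ) (y : ℤ) :
    cv g (fun x => f x + h x) y = cv g f y + cv g h y := by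
  unfold cv
  rw [← List.sum_map_add]
  congr 1
  exact List.map_congr_left fun k _ => by ring

theorem cv_sub (g : List ℤ) (f h : ℤ → ℤ) (y : ℤ) :
    cv g (fun x => f x - h x) y = cv g f y - cv g h y := by
  have h1 := cv_add g (fun x => f x - h x) h y
  have h2 : cv g (fun x => f x - h x + h x) y = cv g f y := cv_congr g (fun x => by ring) y
  rw [h2] at h1
  linarith

theorem cv_shift (g : List ℤ) (f : ℤ → ℤ) (a y : ℤ) : cv g (fun x => f (x - a)) y = cv g f (y - a) := by
  unfold cv
  congr 1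
  refine List.map_congr_left fun k _ => ?_
  simp only
  rw [show y - (k : ℤ) - a = y - a - k by ring]

theorem cv_zero (g : List ℤ) (y : ℤ) : cv g (fun _ => 0) y = 0 := by
  unfold cv
  refine List.sum_eq_zero fun x hx => ?_
  obtain ⟨k, -, rfl⟩ := List.mem_map.1 hx
  ring

private theorem sum_lr (f : ℕ → ℤ) (n : ℕ) : ((List.range n).map f).sum = ∑ i ∈ range n, f i := by
  induction n with
  | zero => simp
  | succ n ih =>
    rw [List.range_succ, List.map_append, List.sum_append, ih, sum_range_succ]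
    simp

theorem cv_re (g : List ℤ) (f : ℤ → ℤ) (y : ℤ) :
    cv g f y = Re 1 0 ((g.length : ℤ) - 1) (fun z => g.getD z.toNat 0) f y := by
  unfold cv Re
  rw [sum_lr]
  refine Finset.sum_bij (fun k _ => (k : ℤ)) (fun k hk => ?_) (fun a _ b _ h => by exact_mod_cast h)
    (fun z hz => ?_) (fun k hk => ?_)
  · rw [mem_range] at hk
    rw [mem_Icc]
    omega
  · rw [mem_Icc] at hz
    exact ⟨z.toNat, by rw [mem_range]; omega, by omega⟩
  · rw [if_pos (by simp)]
    simp only [Int.toNat_natCast]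
    congr 2
    push_cast
    rw [Int.ediv_one]
    ring

/-- **convolution is a refinement operator** -/
theorem refOp_cv {g : List ℤ} (h0 : g.getD 0 0 ≠ 0) : ∃ A B w, RefOp (cv g) A B w := by
  have hl : 0 < g.length := by
    rcases Nat.eq_zero_or_pos g.length with h | h
    · rw [List.length_eq_zero_iff.1 h] at h0
      exact absurd rfl h0
    · exact h
  have h1 := RefOp.re (B := 1) Nat.one_pos (lo := 0) (hi := (g.length : ℤ) - 1) (by omega)
    (e := fun z => g.getD z.toNat 0) h0
  rw [show Re 1 0 ((g.length : ℤ) - 1) (fun z => g.getD z.toNat 0) = cv g from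
    funext fun f => funext fun y => (cv_re g f y).symm] at h1
  exact ⟨_, _, _, h1⟩

/-- a kernel, and the coefficients of the refinement of the convolved differences -/
structure Ker where
  /-- kernel -/
  g : List ℤ
  /-- first index of `e` -/
  e0 : ℤ
  /-- coefficients -/
  e : List ℤ

namespace Tab

variable (S : Tab) (K : Ker)

/-- the table with the coefficients of the kernel -/
def ref : Tab := { S with e0 := K.e0, e := K.e }

/-- convolved differences of the first `i` letters of a block -/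
def kpre (c i : ℕ) (y : ℤ) : ℤ := cv K.g (S.part c 0 i) y

/-- Convolved differences of the window from the letter `i` of a block of type `c` to the letter `j`
of a block of type `c'`, when `D` are those of the coarse window, and `d` is the distance of its
ends. Edges relative to `b * (coarse start letter)`. -/
def kF (c i c' j : ℕ) (d : ℤ) (D : ℤ → ℤ) (y : ℤ) : ℤ :=
  (S.ref K).comb D y - S.kpre K c i y + S.kpre K c' j (y - S.b * d)

/-- facts about a table with a kernel -/
structure KOK : Prop where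
  bas : S.Bas
  g0 : K.g.getD 0 0 ≠ 0
  id : ∀ c < S.T, ∀ y, S.kpre K c S.L y = (S.ref K).comb (cv K.g (dl 0)) y

/-- **A simulation of the windows between recorded letters.** -/
structure Sim (rc : ℕ → ℕ → Bool) (R : ℕ → ℕ → ℤ → (ℤ → ℤ) → Prop) : Prop where
  init : ∀ c < S.T, ∀ i ∈ rcs S rc c, ∀ j ∈ rcs S rc c, i < j →
    R (S.chd c i) (S.chd c j) (S.off c j - S.off c i)
      (fun y => S.kpre K c j (S.off c i + y) - S.kpre K c i (S.off c i + y))
  step : ∀ c < S.T, ∀ c' < S.T, ∀ d D, R c c' d D → ∀ i ∈ rcs S rc c, ∀ j ∈ rcs S rc c',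
    R (S.chd c i) (S.chd c' j) (S.b * d + S.off c' j - S.off c i)
      (fun y => S.kF K c i c' j d D (S.off c i + y))
  uni : ∀ c < S.T, ∀ c' < S.T, ∀ d D, R c c' d D → Uni D

variable {S} {K} {W : ℤ → ℤ} {ty : ℤ → ℕ}

/-- differences of a child window, from the block borders -/
theorem E_block (i j z : ℤ) {r r' : ℕ} (hr : r ≤ S.L) (hr' : r' ≤ S.L) :
    E (S.subW W ty) (S.L * i + r) (S.L * j + r') z =
      E (S.subW W ty) (S.L * i) (S.L * j) z - S.part (ty i) 0 r (z - S.b * W i) +
        S.part (ty j) 0 r' (z - S.b * W j) := by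
  have h1 := C_block (S := S) W ty i z r hr
  have h2 := C_block (S := S) W ty j z r' hr'
  unfold E
  rw [h1, h2]
  ring

/-- convolved differences of whole blocks -/
theorem KOK.cv_next (H : S.KOK K) (h : ∀ t, ty t < S.T) (p y : ℤ) :
    cv K.g (fun z => S.part (ty p) 0 S.L (z - S.b * W p)) y =
      (S.ref K).comb (cv K.g (dl (W p))) y := by
  rw [cv_shift, show cv K.g (S.part (ty p) 0 S.L) = S.kpre K (ty p) S.L from rfl, H.id _ (h p)]
  have h1 := comb_shift (S := S.ref K) H.bas.b0 (cv K.g (dl (W p))) (W p) (y - S.b * W p)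
  have h2 : ((S.ref K).b : ℤ) = S.b := rfl
  rw [h2, show S.b * W p + (y - S.b * W p) = y by ring] at h1
  rw [h1]
  refine comb_congr (fun x => ?_) _
  rw [show cv K.g (dl (W p)) = cv K.g (fun z => dl 0 (z - W p)) from
    funext fun z => cv_congr K.g (fun z => by rw [← dl_shift, add_zero]) z, cv_shift]
  congr 1
  ring

theorem KOK.cv_blocks (H : S.KOK K) (h : ∀ t, ty t < S.T) (i y : ℤ) : ∀ n : ℕ,
    cv K.g (E (S.subW W ty) (S.L * i) (S.L * (i + n))) y =
      (S.ref K).comb (cv K.g (E W i (i + n))) y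
  | 0 => by
    have h1 : E (S.subW W ty) (S.L * i) (S.L * (i + (0 : ℕ))) = fun _ => 0 := by
      funext z
      rw [show (S.L * (i + (0 : ℕ)) : ℤ) = S.L * i by push_cast; ring, E_self]
    have h2 : cv K.g (E W i (i + (0 : ℕ))) = fun _ => 0 := by
      funext z
      rw [show E W i (i + (0 : ℕ)) = fun _ => 0 from funext fun z => by
        rw [show (i + (0 : ℕ) : ℤ) = i by push_cast; ring, E_self]]
      exact cv_zero _ _
    rw [h1, h2, cv_zero]
    unfold comb
    refine (List.sum_eq_zero fun x hx => ?_).symm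
    obtain ⟨k, -, rfl⟩ := List.mem_map.1 hx
    split_ifs <;> simp
  | n + 1 => by
    have h1 : E (S.subW W ty) (S.L * i) (S.L * (i + (n + 1 : ℕ))) = fun z =>
        E (S.subW W ty) (S.L * i) (S.L * (i + n)) z +
          S.part (ty (i + n)) 0 S.L (z - S.b * W (i + n)) := by
      funext z
      have h2 := C_block (S := S) W ty (i + n) z S.L le_rfl
      unfold E
      rw [show (S.L * (i + (n + 1 : ℕ)) : ℤ) = S.L * (i + n) + (S.L : ℕ) by push_cast; ring, h2]
      ring
    have h3 : ∀ x, cv K.g (E W i (i + (n + 1 : ℕ))) x =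
        cv K.g (E W i (i + n)) x + cv K.g (dl (W (i + n))) x := by
      intro x
      rw [← cv_add]
      refine cv_congr K.g (fun z => ?_) x
      rw [show (i + (n + 1 : ℕ) : ℤ) = i + n + 1 by push_cast; ring, E_right]
    rw [h1, cv_add, KOK.cv_blocks H h i y n, KOK.cv_next H h, ← comb_add]
    exact (comb_congr h3 _).symm

/-- **convolved differences of a child window** -/
theorem KOK.window (H : S.KOK K) (h : ∀ t, ty t < S.T) {i j : ℤ} (hij : i ≤ j) (y : ℤ) {r r' : ℕ}
    (hr : r ≤ S.L) (hr' : r' ≤ S.L) :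
    cv K.g (E (S.subW W ty) (S.L * i + r) (S.L * j + r')) (S.b * W i + y) =
      S.kF K (ty i) r (ty j) r' (W j - W i) (fun x => cv K.g (E W i j) (W i + x)) y := by
  obtain ⟨n, rfl⟩ : ∃ n : ℕ, j = i + n := ⟨(j - i).toNat, by omega⟩
  have h1 : E (S.subW W ty) (S.L * i + r) (S.L * (i + n) + r') = fun z =>
      E (S.subW W ty) (S.L * i) (S.L * (i + n)) z - S.part (ty i) 0 r (z - S.b * W i) +
        S.part (ty (i + n)) 0 r' (z - S.b * W (i + n)) := funext fun z => E_block i (i + n) z hr hr'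
  rw [h1, cv_add, cv_sub, H.cv_blocks h, cv_shift, cv_shift]
  unfold kF kpre
  have h2 := comb_shift (S := S.ref K) H.bas.b0 (cv K.g (E W i (i + n))) (W i) y
  have h3 : ((S.ref K).b : ℤ) = S.b := rfl
  rw [h3] at h2
  rw [h2, show S.b * W i + y - S.b * W i = y by ring,
    show S.b * W i + y - S.b * W (i + n) = y - S.b * (W (i + n) - W i) by ring]

/-- inside a block -/
theorem window_same (i y : ℤ) {r r' : ℕ} (hr : r ≤ S.L) (hr' : r' ≤ S.L) :
    cv K.g (E (S.subW W ty) (S.L * i + r) (S.L * i + r')) (S.b * W i + y) =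
      S.kpre K (ty i) r' y - S.kpre K (ty i) r y := by
  have h1 : E (S.subW W ty) (S.L * i + r) (S.L * i + r') = fun z =>
      S.part (ty i) 0 r' (z - S.b * W i) - S.part (ty i) 0 r (z - S.b * W i) := funext fun z => by
    rw [E_block i i z hr hr', E_self]
    ring
  rw [h1, cv_sub, cv_shift, cv_shift]
  unfold kpre
  rw [show S.b * W i + y - S.b * W i = y by ring]

end Tab

open Tab

section iter

variable {S : Tab} {K : Ker} {W0 : ℤ → ℤ} {ty0 : ℤ → ℕ} {rc : ℕ → ℕ → Bool}
  {R : ℕ → ℕ → ℤ → (ℤ → ℤ) → Prop}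

/-- **the windows between recorded letters are in the relation** -/
theorem sim_iter (H : S.KOK K) (h : ∀ t, ty0 t < S.T) (hR : S.Sim K rc R) (k : ℕ) :
    ∀ i ∈ recd S rc W0 ty0 k, ∀ j ∈ recd S rc W0 ty0 k, i < j →
      R ((iterW S W0 ty0 k).2 i) ((iterW S W0 ty0 k).2 j)
        ((iterW S W0 ty0 k).1 j - (iterW S W0 ty0 k).1 i)
        (fun y => cv K.g (E (iterW S W0 ty0 k).1 i j) ((iterW S W0 ty0 k).1 i + y)) := by
  induction k with
  | zero =>
    intro i hi j hj hij
    rw [recd, mem_singleton] at hi hj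
    omega
  | succ k ih =>
    intro i' hi' j' hj' hij'
    rw [recd, mem_biUnion] at hi' hj'
    obtain ⟨i, hi, hi'⟩ := hi'
    obtain ⟨j, hj, hj'⟩ := hj'
    rw [mem_image] at hi' hj'
    obtain ⟨r, hr, rfl⟩ := hi'
    obtain ⟨r', hr', rfl⟩ := hj'
    have hrL : r < S.L := by
      rw [rcs, mem_filter, mem_range] at hr
      exact hr.1
    have hrL' : r' < S.L := by
      rw [rcs, mem_filter, mem_range] at hr'
      exact hr'.1
    have hty := bas_ty (W0 := W0) H.bas h k
    obtain ⟨W, hW⟩ : ∃ W, W = (iterW S W0 ty0 k).1 := ⟨_, rfl⟩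
    obtain ⟨ty, hT⟩ : ∃ ty, ty = (iterW S W0 ty0 k).2 := ⟨_, rfl⟩
    have e1 : (iterW S W0 ty0 (k + 1)).1 = S.subW W ty := by rw [hW, hT]; rfl
    have e2 : (iterW S W0 ty0 (k + 1)).2 = S.subT ty := by rw [hT]; rfl
    rw [← hT] at hty
    rw [e1, e2]
    have c1 : ((S.L * i + r : ℕ) : ℤ) = S.L * (i : ℤ) + r := by push_cast; ring
    have c2 : ((S.L * j + r' : ℕ) : ℤ) = S.L * (j : ℤ) + r' := by push_cast; ring
    rw [c1, c2, subT_eq ty _ hrL, subT_eq ty _ hrL', subW_eq W ty _ hrL, subW_eq W ty _ hrL']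
    have hle : i ≤ j := by
      by_contra hc
      have h1 : S.L * (j + 1) ≤ S.L * i := Nat.mul_le_mul_left _ (by omega)
      have h2 : S.L * (j + 1) = S.L * j + S.L := by ring
      omega
    rcases eq_or_lt_of_le hle with h1 | h1
    · subst h1
      have h2 := hR.init _ (hty i) r (by rw [← hT] at hr; exact hr) r'
        (by rw [← hT] at hr'; exact hr') (by omega)
      have h3 : (fun y => cv K.g (E (S.subW W ty) (S.L * (i : ℤ) + r) (S.L * (i : ℤ) + r'))
          (S.b * W i + S.off (ty i) r + y)) = fun y => S.kpre K (ty i) r' (S.off (ty i) r + y) -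
            S.kpre K (ty i) r (S.off (ty i) r + y) := by
        funext y
        rw [add_assoc, window_same (i : ℤ) _ hrL.le hrL'.le]
      rw [h3, show S.b * W i + S.off (ty i) r' - (S.b * W i + S.off (ty i) r) =
        S.off (ty i) r' - S.off (ty i) r by ring]
      exact h2
    · have h2 := ih i hi j hj h1
      rw [← hW, ← hT] at h2
      have h3 := hR.step _ (hty i) _ (hty j) _ _ h2 r (by rw [← hT] at hr; exact hr) r'
        (by rw [← hT] at hr'; exact hr')
      have h4 : (fun y => cv K.g (E (S.subW W ty) (S.L * (i : ℤ) + r) (S.L * (j : ℤ) + r'))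
          (S.b * W i + S.off (ty i) r + y)) = fun y => S.kF K (ty i) r (ty j) r' (W j - W i)
            (fun x => cv K.g (E W i j) (W i + x)) (S.off (ty i) r + y) := by
        funext y
        rw [add_assoc, H.window hty (by omega) _ hrL.le hrL'.le]
      rw [h4, show S.b * W j + S.off (ty j) r' - (S.b * W i + S.off (ty i) r) =
        S.b * (W j - W i) + S.off (ty j) r' - S.off (ty i) r by ring]
      exact h3

/-- **unimodality of the windows between recorded letters** -/
theorem sim_uni (H : S.KOK K) (h : ∀ t, ty0 t < S.T) (hR : S.Sim K rc R) (k : ℕ) :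
    ∀ i ∈ recd S rc W0 ty0 k, ∀ j ∈ recd S rc W0 ty0 k, i < j →
      Uni (cv K.g (E (iterW S W0 ty0 k).1 i j)) := by
  intro i hi j hj hij x y hxy hx hy
  have hty := bas_ty (W0 := W0) H.bas h k
  have h1 := hR.uni _ (hty i) _ (hty j) _ _ (sim_iter H h hR k i hi j hj hij)
  refine h1 (x - (iterW S W0 ty0 k).1 i) (y - (iterW S W0 ty0 k).1 i) (by omega) ?_ ?_
  · simpa using hx
  · simpa using hy

/-- **pseudolines from a simulation** -/
theorem lines_sim (H : S.KOK K) (hR : S.Sim K rc R) (h : ∀ t, ty0 t < S.T) {q w A0 : ℕ} (hq : 2 ≤ q)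
    (hc : S.okCol q = true) (hw : S.okOff w = true) (h0 : ∀ t, |W0 t| ≤ A0)
    {v : ℕ → ℕ} {V ρ₁ ρ₂ : ℕ} (hρ₂ : 0 < ρ₂) (hρ : ρ₂ < ρ₁) (hv1 : ∀ c < S.T, 1 ≤ v c ∧ v c ≤ V)
    (hv : ∀ c < S.T, ρ₁ * v c ≤ ρ₂ * ∑ r ∈ rcs S rc c, v (S.chd c r))
    (h2 : ∀ c < S.T, 2 ≤ (rcs S rc c).card) {e : ℝ}
    (he : ((S.b * q : ℕ) : ℝ) ^ e = (ρ₁ : ℝ) / ρ₂) (he0 : 0 ≤ e) :
    ∃ c : ℝ, 0 < c ∧ ∃ n₀ : ℕ, ∀ n ≥ n₀,
    (∃ f : Fin n → ℝ → ℝ, (∀ i, Continuous (f i)) ∧
      (∀ i j, i ≠ j → ∃ x, Crosses (f i) (f j) x) ∧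
      ∃ k < n, c * (n : ℝ) ^ e ≤ psiT f k) ∧
    ∀ s ≥ 1, c * (n : ℝ) ^ e ≤ Psi s n := by
  obtain ⟨A, B, u, hOp⟩ := refOp_cv H.g0
  exact lines_rec H.bas h hq hc hw h0 hρ₂ hρ hv1 hv h2 hOp (sim_uni H h hR) he he0

end iter

end LWG
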