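import Pool.Agent.LWG.Base
import Mathlib.Algebra.Order.BigOperators.Group.Finset
import Mathlib.Algebra.BigOperators.Ring.Finset

/-!
# Refinement preserves unimodality

* `Tab.ke`: the coefficients as a function, `comb_ke`: `comb` as a sum over edges;
* `Tab.tp2`: the minors of order two of the coefficients are not negative (finite check);
* **`uni_comb`**: then `comb` preserves `Uni`.
-/

set_option autoImplicit false

open Finset LevelWords

namespace LWG

namespace Tab

variable (S : Tab)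

/-- the coefficient with the index `a` -/
def ke (a : ℤ) : ℤ := if S.e0 ≤ a then S.e.getD (a - S.e0).toNat 0 else 0

/-- The minors of order two: for `i < j` and a multiple `t` of `b`, `0 < t < j - i`,
`e i * e j ≤ e (i + t) * e (j - t)`. -/
def tp2 : Bool := S.e.all (fun x => decide (0 ≤ x)) &&
  (List.range S.e.length).all fun j => (List.range j).all fun i => (List.range (j - i)).all fun t =>
    decide (t = 0) || decide (t % S.b ≠ 0) ||
      decide (S.e.getD i 0 * S.e.getD j 0 ≤ S.e.getD (i + t) 0 * S.e.getD (j - t) 0)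

variable {S}

theorem ke_out {a : ℤ} (h : a < S.e0 ∨ S.e0 + S.e.length ≤ a) : S.ke a = 0 := by
  unfold ke
  split_ifs with h1
  · rw [List.getD_eq_getElem?_getD, List.getElem?_eq_none (by omega)]
    rfl
  · rfl

theorem tp2_nonneg (h : S.tp2 = true) (a : ℤ) : 0 ≤ S.ke a := by
  unfold tp2 at h
  rw [Bool.and_eq_true, List.all_eq_true] at h
  unfold ke
  split_ifs
  · rw [List.getD_eq_getElem?_getD]
    rcases lt_or_ge (a - S.e0).toNat S.e.length with hk | hk
    · rw [List.getElem?_eq_getElem hk, Option.getD_some]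
      simpa using h.1 _ (List.getElem_mem hk)
    · rw [List.getElem?_eq_none hk, Option.getD_none]
  · exact le_rfl

theorem tp2_minor (h : S.tp2 = true) {a s t : ℤ} (hs : 0 < s) (ht : 0 < t) (hb : (S.b : ℤ) ∣ t) :
    S.ke (a - t) * S.ke (a + s) ≤ S.ke a * S.ke (a + s - t) := by
  have h0 := tp2_nonneg h
  by_cases h1 : a - t < S.e0 ∨ S.e0 + S.e.length ≤ a - t
  · rw [ke_out h1, zero_mul]
    exact mul_nonneg (h0 _) (h0 _)
  by_cases h2 : a + s < S.e0 ∨ S.e0 + S.e.length ≤ a + s
  · rw [ke_out h2, mul_zero]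
    exact mul_nonneg (h0 _) (h0 _)
  obtain ⟨i, hi⟩ : ∃ i : ℕ, a - t = S.e0 + i := ⟨(a - t - S.e0).toNat, by omega⟩
  obtain ⟨j, hj⟩ : ∃ j : ℕ, a + s = S.e0 + j := ⟨(a + s - S.e0).toNat, by omega⟩
  obtain ⟨n, rfl⟩ : ∃ n : ℕ, t = n := ⟨t.toNat, by omega⟩
  have h3 : S.tp2 = true := h
  unfold tp2 at h3
  simp only [Bool.and_eq_true, List.all_eq_true, List.mem_range, Bool.or_eq_true,
    decide_eq_true_eq] at h3
  have h4 := h3.2 j (by omega) i (by omega) n (by omega)
  have hd : n % S.b = 0 := Nat.mod_eq_zero_of_dvd (by exact_mod_cast hb)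
  have h5 : S.e.getD i 0 * S.e.getD j 0 ≤ S.e.getD (i + n) 0 * S.e.getD (j - n) 0 := by
    rcases h4 with (h4 | h4) | h4
    · omega
    · exact absurd hd h4
    · exact h4
  unfold ke
  rw [if_pos (by omega), if_pos (by omega), if_pos (by omega), if_pos (by omega),
    show (a - (n : ℤ) - S.e0).toNat = i by omega, show (a + s - S.e0).toNat = j by omega,
    show (a - S.e0).toNat = i + n by omega, show (a + s - (n : ℤ) - S.e0).toNat = j - n by omega]
  exact h5

private theorem sum_lr (f : ℕ → ℤ) (n : ℕ) : ((List.range n).map f).sum = ∑ i ∈ range n, f i := by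
  induction n with
  | zero => simp
  | succ n ih =>
    rw [List.range_succ, List.map_append, List.sum_append, ih, sum_range_succ]
    simp

/-- `comb` as a sum over the coarse edges `lo, ..., hi` -/
theorem comb_ke (hb : 0 < S.b) (D : ℤ → ℤ) {g lo hi : ℤ}
    (h1 : S.b * (lo - 1) < g - S.e0 - S.e.length + 1) (h2 : g - S.e0 < S.b * (hi + 1)) :
    S.comb D g = ∑ z ∈ Icc lo hi, S.ke (g - S.b * z) * D z := by
  have hb' : (0 : ℤ) < S.b := by exact_mod_cast hb
  unfold comb
  rw [sum_lr, ← sum_filter]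
  refine Finset.sum_bij_ne_zero (fun (k : ℕ) _ _ => (g - S.e0 - k) / S.b) (fun k hk _ => ?_)
    (fun k hk _ k' hk' _ h => ?_) (fun z hz hne => ?_) (fun k hk _ => ?_)
  · rw [mem_filter, mem_range] at hk
    rw [mem_Icc]
    obtain ⟨q, hq⟩ := Int.dvd_of_emod_eq_zero hk.2
    rw [hq, Int.mul_ediv_cancel_left _ hb'.ne']
    constructor
    · by_contra hc
      have : (S.b : ℤ) * q ≤ S.b * (lo - 1) := mul_le_mul_of_nonneg_left (by omega) hb'.le
      omega
    · by_contra hc
      have : (S.b : ℤ) * (hi + 1) ≤ S.b * q := mul_le_mul_of_nonneg_left (by omega) hb'.le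
      omega
  · rw [mem_filter] at hk hk'
    obtain ⟨q, hq⟩ := Int.dvd_of_emod_eq_zero hk.2
    obtain ⟨q', hq'⟩ := Int.dvd_of_emod_eq_zero hk'.2
    rw [hq, hq', Int.mul_ediv_cancel_left _ hb'.ne', Int.mul_ediv_cancel_left _ hb'.ne'] at h
    subst h
    omega
  · have h3 : ¬ (g - S.b * z < S.e0 ∨ S.e0 + S.e.length ≤ g - S.b * z) := fun h =>
      hne (by rw [ke_out h, zero_mul])
    refine ⟨(g - S.b * z - S.e0).toNat, ?_, ?_, ?_⟩
    · rw [mem_filter, mem_range]
      refine ⟨by omega, ?_⟩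
      rw [show g - S.e0 - ((g - S.b * z - S.e0).toNat : ℤ) = S.b * z by omega]
      exact Int.mul_emod_right _ _
    · intro h4
      refine hne ?_
      rw [show g - S.e0 - ((g - S.b * z - S.e0).toNat : ℤ) = S.b * z by omega,
        Int.mul_ediv_cancel_left _ hb'.ne'] at h4
      unfold ke
      rw [if_pos (by omega)]
      exact h4
    · rw [show g - S.e0 - ((g - S.b * z - S.e0).toNat : ℤ) = S.b * z by omega,
        Int.mul_ediv_cancel_left _ hb'.ne']
  · rw [mem_filter, mem_range] at hk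
    obtain ⟨q, hq⟩ := Int.dvd_of_emod_eq_zero hk.2
    rw [hq, Int.mul_ediv_cancel_left _ hb'.ne']
    unfold ke
    rw [show g - S.b * q = S.e0 + k by omega, if_pos (by omega),
      show (S.e0 + (k : ℤ) - S.e0).toNat = k by omega]

/-- **refinement preserves unimodality** -/
theorem uni_comb (hb : 0 < S.b) (h : S.tp2 = true) {D : ℤ → ℤ} (hD : Uni D) : Uni (S.comb D) := by
  intro x y hxy hx hy
  have hb' : (0 : ℤ) < S.b := by exact_mod_cast hb
  have h0 := tp2_nonneg h
  -- a common range of coarse edges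
  obtain ⟨lo, hlo⟩ : ∃ lo : ℤ, lo = -(|x| + |y| + |S.e0| + S.e.length + 2) := ⟨_, rfl⟩
  obtain ⟨hi, hhi⟩ : ∃ hi : ℤ, hi = |x| + |y| + |S.e0| + S.e.length + 2 := ⟨_, rfl⟩
  have ax := abs_nonneg x
  have ay := abs_nonneg y
  have ae := abs_nonneg S.e0
  have bx := neg_abs_le x
  have by' := neg_abs_le y
  have be := neg_abs_le S.e0
  have cx := le_abs_self x
  have cy := le_abs_self y
  have ce := le_abs_self S.e0
  have hb1 : (1 : ℤ) ≤ S.b := hb'
  have e1 : (S.b : ℤ) * (lo - 1) ≤ lo - 1 := by nlinarith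
  have e2 : hi + 1 ≤ (S.b : ℤ) * (hi + 1) := by nlinarith
  rw [comb_ke hb D (lo := lo) (hi := hi) (by omega) (by omega)] at hx hy
  -- a negative value
  obtain ⟨z1, hz1, hn1⟩ : ∃ z ∈ Icc lo hi, S.ke (x - S.b * z) * D z < 0 := by
    by_contra hc
    push Not at hc
    exact absurd (sum_nonneg hc) (not_le.2 hx)
  have hD1 : D z1 < 0 := by
    by_contra hc
    exact absurd (mul_nonneg (h0 _) (not_lt.1 hc)) (not_le.2 hn1)
  -- the first negative value
  obtain ⟨m, hm1, hm2⟩ : ∃ m, (∀ z ∈ Icc lo hi, z < m → 0 ≤ D z) ∧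
      ∀ z ∈ Icc lo hi, m ≤ z → D z ≤ 0 := by
    have hne : ((Icc lo hi).filter fun z => D z < 0).Nonempty := ⟨z1, mem_filter.2 ⟨hz1, hD1⟩⟩
    refine ⟨((Icc lo hi).filter fun z => D z < 0).min' hne, fun z hz hlt => ?_, fun z hz hle => ?_⟩
    · by_contra hc
      have := min'_le ((Icc lo hi).filter fun z => D z < 0) z (mem_filter.2 ⟨hz, not_le.1 hc⟩)
      omega
    · have h3 := (mem_filter.1 (min'_mem _ hne)).2
      rcases eq_or_lt_of_le hle with h4 | h4
      · rw [← h4]
        exact h3.le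
      · exact not_lt.1 (hD _ z h4 h3)
  -- split the sums
  have split : ∀ g : ℤ, ∑ z ∈ Icc lo hi, S.ke (g - S.b * z) * D z =
      ∑ z ∈ (Icc lo hi).filter (· < m), S.ke (g - S.b * z) * D z -
        ∑ z ∈ (Icc lo hi).filter (fun z => ¬ z < m), S.ke (g - S.b * z) * -D z := by
    intro g
    rw [← sum_filter_add_sum_filter_not (Icc lo hi) (· < m), sub_eq_add_neg, ← sum_neg_distrib]
    congr 1
    exact sum_congr rfl fun z _ => by ring
  obtain ⟨P, hP⟩ : ∃ P : ℤ → ℤ, P = fun g => ∑ z ∈ (Icc lo hi).filter (· < m),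
    S.ke (g - S.b * z) * D z := ⟨_, rfl⟩
  obtain ⟨N, hN⟩ : ∃ N : ℤ → ℤ, N = fun g => ∑ z ∈ (Icc lo hi).filter (fun z => ¬ z < m),
    S.ke (g - S.b * z) * -D z := ⟨_, rfl⟩
  have px : 0 ≤ P x := by
    rw [hP]
    refine sum_nonneg fun z hz => ?_
    rw [mem_filter] at hz
    exact mul_nonneg (h0 _) (hm1 z hz.1 hz.2)
  have ny : 0 ≤ N y := by
    rw [hN]
    refine sum_nonneg fun z hz => ?_
    rw [mem_filter] at hz
    exact mul_nonneg (h0 _) (by have := hm2 z hz.1 (not_lt.1 hz.2); omega)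
  have key : N x * P y ≤ P x * N y := by
    rw [hP, hN]
    simp only
    rw [sum_mul_sum, sum_mul_sum, sum_comm]
    refine sum_le_sum fun z hz => sum_le_sum fun z' hz' => ?_
    rw [mem_filter] at hz hz'
    have d1 := hm1 z hz.1 hz.2
    have d2 := hm2 z' hz'.1 (not_lt.1 hz'.2)
    have h5 := tp2_minor h (a := x - S.b * z) (s := y - x) (t := S.b * (z' - z)) (by omega)
      (mul_pos hb' (by omega)) (Dvd.intro _ rfl)
    rw [show x - S.b * z - S.b * (z' - z) = x - S.b * z' by ring,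
      show x - S.b * z + (y - x) = y - S.b * z by ring,
      show y - S.b * z - S.b * (z' - z) = y - S.b * z' by ring] at h5
    have h6 : 0 ≤ D z * -D z' := mul_nonneg d1 (by omega)
    nlinarith [mul_le_mul_of_nonneg_right h5 h6]
  have hx' : P x < N x := by
    have := split x
    rw [hP, hN]
    simp only
    omega
  have hy' : N y < P y := by
    have := split y
    rw [hP, hN]
    simp only
    omega
  nlinarith [mul_pos (sub_pos.2 hx') (lt_of_le_of_lt ny hy'),
    mul_nonneg px (sub_nonneg.2 hy'.le)]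

end Tab

end LWG
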