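import Pool.Agent.LWG.Leaf
import Pool.Agent.LWG.Ev

/-!
# Substitution words: the refuter and the table

* `Tie S K`: the coefficients `K` belong to the table; `Tie.comb`, `Tie.nn`;
* `Tab.mirT`: the mirrored table, `comb_mir`;
* `exists_far`: a positive fine value far to the right comes from a positive coarse one;
* `tabD`: vectors of the changes, **`locV_of`**: `Tab.Loc` gives `LocV`;
* `mR`, `farN`: leaf functions for the mirror image.
-/

namespace LWG

open LevelWords (Uni dl dl_shift dl_cases)

/-! ## Coefficients -/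

/-- every `b`-th element, from the element `r` on -/
def strd (b : ℕ) : ℕ → List ℤ → List ℤ
  | _, [] => []
  | 0, k :: ks => k :: strd b (b - 1) ks
  | r + 1, _ :: ks => strd b r ks

/-- refinement of differences, as a recursion -/
def cl (b : ℕ) (D : ℤ → ℤ) : List ℤ → ℤ → ℤ
  | [], _ => 0
  | k :: ks, h => (if h % b = 0 then k * D (h / b) else 0) + cl b D ks (h - 1)

theorem comb_cl_aux (b : ℕ) (D : ℤ → ℤ) : ∀ (e : List ℤ) (h : ℤ),
    ((List.range e.length).map fun (k : ℕ) => if (h - k) % b = 0 then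
      e.getD k 0 * D ((h - k) / b) else 0).sum = cl b D e h
  | [], h => by simp [cl]
  | k :: ks, h => by
    have ih := comb_cl_aux b D ks (h - 1)
    rw [List.length_cons, List.range_succ_eq_map, List.map_cons, List.sum_cons, List.map_map, cl,
      ← ih]
    congr 1
    · simp
    · refine congrArg List.sum (List.map_congr_left fun i _ => ?_)
      simp only [Function.comp, List.getD_cons_succ]
      rw [show h - ((i + 1 : ℕ) : ℤ) = h - 1 - i by push_cast; ring]

theorem comb_cl (S : Tab) (D : ℤ → ℤ) (g : ℤ) : S.comb D g = cl S.b D S.e (g - S.e0) :=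
  comb_cl_aux S.b D S.e (g - S.e0)

theorem cl_dotZ {b : ℕ} (hb : 0 < b) (D : ℤ → ℤ) : ∀ (e : List ℤ) (h : ℤ),
    cl b D e h = dotZ D (h / b) (strd b (h % b).toNat e)
  | [], h => by
    rcases (h % b).toNat with _ | r <;> rfl
  | k :: ks, h => by
    have hb' : (0 : ℤ) < b := by exact_mod_cast hb
    have ih := cl_dotZ hb D ks (h - 1)
    have h0 := Int.emod_nonneg h hb'.ne'
    have h1 := Int.emod_lt_of_pos h hb'
    have h2 := Int.mul_ediv_add_emod h b
    rcases hr : (h % b).toNat with _ | r
    · have h3 : h % b = 0 := by omega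
      have e1 : (h - 1) / b = h / b - 1 := by
        have : h - 1 = (b - 1) + b * (h / b - 1) := by linarith
        rw [this, Int.add_mul_ediv_left _ _ hb'.ne', Int.ediv_eq_zero_of_lt (by omega) (by omega)]
        ring
      have e2 : (h - 1) % b = b - 1 := by
        have : h - 1 = (b - 1) + b * (h / b - 1) := by linarith
        rw [this, Int.add_mul_emod_self_left, Int.emod_eq_of_lt (by omega) (by omega)]
      rw [cl, if_pos h3, ih, e1, e2, show ((b : ℤ) - 1).toNat = b - 1 by omega]
      rfl
    · have h3 : h % b = r + 1 := by omega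
      have e1 : (h - 1) / b = h / b := by
        have : h - 1 = r + b * (h / b) := by linarith
        rw [this, Int.add_mul_ediv_left _ _ hb'.ne', Int.ediv_eq_zero_of_lt (by omega) (by omega)]
        ring
      have e2 : (h - 1) % b = r := by
        have : h - 1 = r + b * (h / b) := by linarith
        rw [this, Int.add_mul_emod_self_left, Int.emod_eq_of_lt (by omega) (by omega)]
      rw [cl, if_neg (by omega), ih, e1, e2, zero_add, Int.toNat_natCast]
      rfl

/-- the coefficients `K` belong to the table `S` -/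
structure Tie (S : Tab) (K : Co) : Prop where
  b0 : 0 < S.b
  b : K.b = S.b
  e0 : K.e0 = S.e0
  cs : ∀ r : ℕ, r < S.b → K.cs r = strd S.b r S.e
  nn : ∀ k ∈ S.e, 0 ≤ k

theorem mem_strd {b : ℕ} {k : ℤ} : ∀ (e : List ℤ) (r : ℕ), k ∈ strd b r e → k ∈ e
  | [], r, h => by rcases r with _ | r <;> simp [strd] at h
  | a :: e, 0, h => by
    simp only [strd, List.mem_cons] at h ⊢
    exact h.imp id (mem_strd e _)
  | a :: e, r + 1, h => by
    simp only [strd] at h
    exact List.mem_cons_of_mem _ (mem_strd e _ h)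

variable {S : Tab} {K : Co} {D : ℤ → ℤ}

theorem Tie.ks (h : Tie S K) (z : ℤ) :
    K.ks z = strd S.b ((z - S.e0) % S.b).toNat S.e := by
  have hb' : (0 : ℤ) < S.b := by exact_mod_cast h.b0
  have h0 := Int.emod_nonneg (z - S.e0) hb'.ne'
  have h1 := Int.emod_lt_of_pos (z - S.e0) hb'
  unfold Co.ks
  rw [h.b, h.e0, ← h.cs _ (by omega), Int.toNat_of_nonneg h0]

theorem Tie.comb (h : Tie S K) (D : ℤ → ℤ) (z : ℤ) : K.comb D z = S.comb D z := by
  rw [comb_cl, cl_dotZ h.b0, ← h.ks]
  unfold Co.comb Co.tp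
  rw [h.b, h.e0]

theorem Tie.nn' (h : Tie S K) : K.Nn := fun z k hk => by
  rw [h.ks] at hk
  exact h.nn k (mem_strd _ _ hk)

/-! ## The mirror image -/

theorem sum_range_list (f : ℕ → ℤ) (n : ℕ) :
    ((List.range n).map f).sum = ∑ k ∈ Finset.range n, f k := by
  induction n with
  | zero => rfl
  | succ n ih => rw [List.range_succ, List.map_append, List.sum_append, ih, Finset.sum_range_succ]; simp

/-- the mirrored table (only its coefficients matter) -/
def Tab.mirT (S : Tab) : Tab := { S with e0 := S.b - S.e0 - S.e.length, e := S.e.reverse }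

theorem comb_mir (hb : 0 < S.b) (D : ℤ → ℤ) (z : ℤ) :
    S.mirT.comb (mir D) z = mir (S.comb D) z := by
  have hb' : (S.b : ℤ) ≠ 0 := by exact_mod_cast hb.ne'
  unfold mir Tab.comb Tab.mirT
  simp only [List.length_reverse]
  rw [sum_range_list, sum_range_list, ← Finset.sum_range_reflect, ← Finset.sum_neg_distrib]
  refine Finset.sum_congr rfl fun k hk => ?_
  rw [Finset.mem_range] at hk
  have e1 : z - ((S.b : ℤ) - S.e0 - S.e.length) - ((S.e.length - 1 - k : ℕ) : ℤ) =
      -(-1 - z - S.e0 - k) + S.b * (-1) := by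
    have : ((S.e.length - 1 - k : ℕ) : ℤ) = S.e.length - 1 - k := by omega
    rw [this]
    ring
  rw [e1, Int.add_mul_emod_self_left, Int.add_mul_ediv_left _ _ hb']
  have e2 : (-(-1 - z - S.e0 - (k : ℤ))) % S.b = 0 ↔ (-1 - z - S.e0 - (k : ℤ)) % S.b = 0 := by
    rw [← Int.dvd_iff_emod_eq_zero, ← Int.dvd_iff_emod_eq_zero, dvd_neg]
  by_cases h : (-1 - z - S.e0 - (k : ℤ)) % S.b = 0
  · rw [if_pos (e2.2 h), if_pos h, Int.neg_ediv_of_dvd (Int.dvd_of_emod_eq_zero h)]
    rw [show -1 - (-((-1 - z - S.e0 - (k : ℤ)) / S.b) + -1) = (-1 - z - S.e0 - (k : ℤ)) / S.b by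
      ring]
    have e3 : S.e.reverse.getD (S.e.length - 1 - k) 0 = S.e.getD k 0 := by
      rw [List.getD_eq_getElem?_getD, List.getElem?_reverse (by omega), List.getD_eq_getElem?_getD,
        show S.e.length - 1 - (S.e.length - 1 - k) = k by omega]
    rw [e3]
    ring
  · rw [if_neg (fun h' => h (e2.1 h')), if_neg h, neg_zero]

/-! ## Far positive values -/

theorem exists_pos_comb (hn : ∀ k ∈ S.e, 0 ≤ k) {y : ℤ} (h : 0 < S.comb D y) :
    ∃ x, (y - S.e0 - S.e.length + 1 : ℤ) ≤ S.b * x ∧ 0 < D x := by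
  by_contra hc
  push Not at hc
  have : S.comb D y ≤ 0 := by
    unfold Tab.comb
    rw [sum_range_list]
    refine Finset.sum_nonpos fun k hk => ?_
    rw [Finset.mem_range] at hk
    split_ifs with hd
    · have h1 : S.b * ((y - S.e0 - k) / S.b) = y - S.e0 - k :=
        Int.mul_ediv_cancel' (Int.dvd_of_emod_eq_zero hd)
      have h2 := hc ((y - S.e0 - k) / S.b) (by rw [h1]; omega)
      have h3 : 0 ≤ S.e.getD k 0 := by
        rw [List.getD_eq_getElem?_getD, List.getElem?_eq_getElem hk]
        exact hn _ (List.getElem_mem hk)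
      exact mul_nonpos_of_nonneg_of_nonpos h3 h2
    · exact le_rfl
  omega

/-- **a positive fine value beyond `Z` comes from a positive coarse one at an edge `≥ x`** -/
theorem exists_far (hb : 0 < S.b) (hn : ∀ k ∈ S.e, 0 ≤ k) {Z x : ℤ}
    (hZ : S.b * (x - 1) < Z + 2 - S.e0 - S.e.length) (h : ∃ y, Z < y ∧ 0 < S.comb D y) :
    ∃ z, x ≤ z ∧ 0 < D z := by
  obtain ⟨y, h1, h2⟩ := h
  obtain ⟨z, h3, h4⟩ := exists_pos_comb hn h2
  refine ⟨z, ?_, h4⟩
  by_contra hc
  have hb' : (0 : ℤ) ≤ S.b := by positivity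
  have : S.b * z ≤ S.b * (x - 1) := mul_le_mul_of_nonneg_left (by omega) hb'
  omega

/-! ## The changes as vectors -/

/-- the values at the edges `m, m - 1, ..., - m - 1` -/
def tabD (m : ℕ) (f : ℤ → ℤ) : List ℤ := (List.range (2 * m + 2)).map fun k : ℕ => f (m - k)

theorem vf_tabD {m : ℕ} {f : ℤ → ℤ} (hf : ∀ y, y < -(m : ℤ) - 1 ∨ (m : ℤ) < y → f y = 0) (y : ℤ) :
    vf m (tabD m f) y = f y := by
  unfold vf
  rcases h : (m : ℤ) - y with n | n
  · have h' : (m : ℤ) - y = (n : ℤ) := h
    unfold tabD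
    simp only
    rw [List.getD_eq_getElem?_getD, List.getElem?_map]
    rcases lt_or_ge n (2 * m + 2) with hn | hn
    · rw [List.getElem?_range hn]
      simp only [Option.map_some, Option.getD_some]
      congr 1
      omega
    · rw [List.getElem?_eq_none (by simpa using hn)]
      simp only [Option.map_none, Option.getD_none]
      rw [hf y (Or.inl (by omega))]
  · have h' : (m : ℤ) - y = -(n + 1 : ℤ) := by rw [h, Int.negSucc_eq]
    simp only
    rw [hf y (Or.inr (by omega))]

theorem dls_out {p : ℕ → ℤ} {k : ℕ} {m : ℕ} (h : ∀ j < k, -(m : ℤ) ≤ p j ∧ p j ≤ m) (y : ℤ)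
    (hy : y < -(m : ℤ) - 1 ∨ (m : ℤ) < y) : Tab.dls p k y = 0 := by
  refine sum_range_dl_zero k fun r hr => ?_
  have := h r hr
  omega

theorem dls_shift (p : ℕ → ℤ) (k : ℕ) (d y : ℤ) :
    Tab.dls (fun j => d + p j) k y = Tab.dls p k (y - d) := by
  unfold Tab.dls
  simp only [dl_shift]

/-- all known positions are between `- m` and `m` -/
def Tab.okPos (S : Tab) (m c : ℕ) : Bool :=
  (List.range (S.m + 1)).all fun k => decide (-(m : ℤ) ≤ S.posR c k) && decide (S.posR c k ≤ m) &&
    decide (-(m : ℤ) ≤ S.posL c k) && decide (S.posL c k ≤ m)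

/-- the vectors of the changes at the start -/
def Tab.lvec (S : Tab) (m c : ℕ) : List (List ℤ) := (S.lops c).map (tabD m)

/-- the vectors of the changes at the end -/
def Tab.rvec (S : Tab) (m c : ℕ) : List (List ℤ) := (S.rops c 0).map (tabD m)

theorem lops_of_vec {m c : ℕ} (hp : S.okPos m c = true) {v : List ℤ} (hv : v ∈ S.lvec m c) :
    ∃ l ∈ S.lops c, ∀ y, vf m v y = l y := by
  unfold Tab.lvec at hv
  rw [List.mem_map] at hv
  obtain ⟨l, hl, rfl⟩ := hv
  refine ⟨l, hl, vf_tabD ?_⟩
  simp only [Tab.okPos, List.all_eq_true, List.mem_range, Bool.and_eq_true, decide_eq_true_eq] at hp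
  unfold Tab.lops at hl
  rw [List.mem_append, List.mem_map, List.mem_map] at hl
  rcases hl with ⟨k, hk, rfl⟩ | ⟨k, hk, rfl⟩
  · rw [List.mem_range] at hk
    exact fun y hy => dls_out (fun j hj => by have := hp j (by omega); omega) y hy
  · rw [List.mem_range] at hk
    intro y hy
    have := dls_out (p := fun j => S.posR c (j + 1)) (k := k + 1)
      (fun j hj => by have := hp (j + 1) (by omega); omega) y hy
    simp only
    rw [this, neg_zero]

theorem rops_of_vec {m c : ℕ} (hp : S.okPos m c = true) {v : List ℤ} (hv : v ∈ S.rvec m c) (d : ℤ) :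
    ∃ l ∈ S.rops c d, ∀ y, vf m v (y - d) = l y := by
  unfold Tab.rvec at hv
  rw [List.mem_map] at hv
  obtain ⟨l, hl, rfl⟩ := hv
  simp only [Tab.okPos, List.all_eq_true, List.mem_range, Bool.and_eq_true, decide_eq_true_eq] at hp
  unfold Tab.rops at hl ⊢
  rw [List.mem_append, List.mem_map, List.mem_map] at hl
  rcases hl with ⟨k, hk, rfl⟩ | ⟨k, hk, rfl⟩
  · rw [List.mem_range] at hk
    refine ⟨_, List.mem_append.2 (Or.inl (List.mem_map.2 ⟨k, List.mem_range.2 hk, rfl⟩)),
      fun y => ?_⟩
    rw [vf_tabD fun y hy => ?_, dls_shift, dls_shift, sub_zero]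
    exact dls_out (fun j hj => by have := hp j (by omega); omega) y hy
  · rw [List.mem_range] at hk
    refine ⟨_, List.mem_append.2 (Or.inr (List.mem_map.2 ⟨k, List.mem_range.2 hk, rfl⟩)),
      fun y => ?_⟩
    rw [vf_tabD fun y hy => ?_]
    · rw [dls_shift (fun j => S.posL c (j + 1)) (k + 1) 0,
        dls_shift (fun j => S.posL c (j + 1)) (k + 1) d, sub_zero]
    · have := dls_out (p := fun j => (0 : ℤ) + S.posL c (j + 1)) (k := k + 1)
        (fun j hj => by have := hp (j + 1) (by omega); omega) y hy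
      rw [this, neg_zero]

/-- **what is known about long windows, with vectors** -/
theorem locV_of {pats : ℕ → ℕ → List Pat} {c c' m : ℕ} {d : ℤ} (h : S.Loc pats c c' d D)
    (hp : S.okPos m c = true) (hp' : S.okPos m c' = true) {lv rv : List (List ℤ)}
    (hl : ∀ v ∈ lv, v ∈ S.lvec m c) (hr : ∀ v ∈ rv, v ∈ S.rvec m c') :
    LocV m lv rv (pats c c') d D where
  adm l hl' r hr' := by
    obtain ⟨l', h1, h2⟩ := lops_of_vec hp (hl l hl')
    obtain ⟨r', h3, h4⟩ := rops_of_vec hp' (hr r hr') d
    have := h.adm l' h1 r' h3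
    simpa only [h2, h4] using this
  pat := h.pat

/-! ## Leaf functions for the mirror image -/

/-- mirror image of an entry -/
def En.mr : En → En
  | .ex n => .ex (-n)
  | .ge n => .le (-n)
  | .le n => .ge (-n)
  | .un => .un

/-- a leaf function for the mirror image -/
def mR (R : ℤ → List En → Bool) (I : ℤ) (vec : List En) : Bool :=
  R (vec.length - 2 - I) (vec.reverse.map En.mr)

theorem En.mr_sat {e : En} {x : ℤ} (h : e.Sat (-x)) : e.mr.Sat x := by
  rcases e with n | n | n | _
  · have h : -x = n := h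
    change x = -n
    omega
  · have h : n ≤ -x := h
    change x ≤ -n
    omega
  · have h : -x ≤ n := h
    change -n ≤ x
    omega
  · trivial

theorem satD_append : ∀ (l₁ l₂ : List En) (x : ℤ), SatD D x (l₁ ++ l₂) ↔
    SatD D x l₁ ∧ SatD D (x - l₁.length) l₂
  | [], l₂, x => by simp [SatD]
  | e :: l₁, l₂, x => by
    have ih := satD_append l₁ l₂ (x - 1)
    simp only [List.cons_append, SatD, List.length_cons, ih]
    rw [show x - 1 - (l₁.length : ℤ) = x - ((l₁.length + 1 : ℕ) : ℤ) by push_cast; ring]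
    tauto

theorem satD_mir : ∀ (vec : List En) (I : ℤ), SatD (mir D) I vec →
    SatD D (vec.length - 2 - I) (vec.reverse.map En.mr)
  | [], I, _ => by simp [SatD]
  | e :: es, I, h => by
    have ih := satD_mir es (I - 1) h.2
    rw [List.reverse_cons, List.map_append, satD_append]
    refine ⟨?_, ?_, trivial⟩
    · rwa [show ((e :: es).length : ℤ) - 2 - I = es.length - 2 - (I - 1) by
        rw [List.length_cons]; push_cast; ring]
    · rw [List.length_map, List.length_reverse,
        show ((e :: es).length : ℤ) - 2 - I - es.length = -1 - I by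
          rw [List.length_cons]; push_cast; ring]
      exact En.mr_sat h.1

theorem mR_sound {R : ℤ → List En → Bool} (hR : ∀ I vec, SatD D I vec → R I vec = true → False)
    (I : ℤ) (vec : List En) (hv : SatD (mir D) I vec) (h : mR R I vec = true) : False :=
  hR _ _ (satD_mir vec I hv) h

/-- some entry is positive after the changes -/
def anyPos : List ℤ → List ℤ → List En → Bool
  | _, _, [] => false
  | L, R, e :: es => e.pos (hd L + hd R) || anyPos L.tail R.tail es

theorem anyPos_sound {l r : ℤ → ℤ} : ∀ (vec : List En) {I : ℤ} {L R : List ℤ},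
    Val l I L → Val r I R → SatD D I vec → anyPos L R vec = true →
    ∃ z, I - vec.length < z ∧ 0 < D z + (l z + r z)
  | [], I, L, R, _, _, _, h => by simp [anyPos] at h
  | e :: es, I, L, R, hL, hR, hv, h => by
    simp only [anyPos, Bool.or_eq_true, hL.hd, hR.hd] at h
    rcases h with h | h
    · exact ⟨I, by rw [List.length_cons]; push_cast; omega, En.pos_sound hv.1 h⟩
    · obtain ⟨z, h1, h2⟩ := anyPos_sound es hL.tail hR.tail hv.2 h
      exact ⟨z, by rw [List.length_cons]; push_cast; omega, h2⟩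

/-- contradiction if there is a negative value at an edge `≤ x`: some change is positive to the
right of `x` -/
def farN (m : ℤ) (lv rv : List (List ℤ)) (d x I : ℤ) (vec : List En) : Bool :=
  posB (-m - 1 - x) && posB (d - m - 1 - x) &&
  lv.any fun l => rv.any fun r =>
    anyPos (shf m l I) (shf m r (I - d)) (vec.take (I - x).toNat)

theorem satD_take : ∀ (n : ℕ) {I : ℤ} {vec : List En}, SatD D I vec → SatD D I (vec.take n)
  | 0, I, vec, h => by simp [SatD]
  | n + 1, I, [], _ => by simp [SatD]
  | n + 1, I, e :: es, h => ⟨h.1, satD_take n h.2⟩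

/-- the vectors vanish at low edges -/
def Low (m : ℤ) (lv : List (List ℤ)) : Prop := ∀ v ∈ lv, ∀ y, y < -m - 1 → vf m v y = 0

theorem LocV.farN {m : ℤ} {lv rv : List (List ℤ)} {ps : List Pat} {d : ℤ}
    (h : LocV m lv rv ps d D) (hlv : Low m lv) (hrv : Low m rv) {I x : ℤ} {vec : List En}
    (hv : SatD D I vec) (hx : ∃ z, z ≤ x ∧ D z < 0) (hi : farN m lv rv d x I vec = true) :
    False := by
  unfold LWG.farN at hi
  simp only [Bool.and_eq_true, posB_iff, List.any_eq_true] at hi
  obtain ⟨⟨h1, h2⟩, l, hl, r, hr, hi⟩ := hi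
  obtain ⟨z, h3, h4⟩ := anyPos_sound _ (val_shf m l I) (val_shf' m r I d)
    (satD_take (I - x).toNat hv) hi
  obtain ⟨y, h5, h6⟩ := hx
  have h7 : x < z := by
    have : (vec.take (I - x).toNat).length ≤ (I - x).toNat := List.length_take_le _ _
    rcases lt_or_ge (I - x) 0 with h8 | h8
    · have h9 : (I - x).toNat = 0 := by omega
      rw [h9] at hi
      simp [anyPos] at hi
    · omega
  refine h.adm l hl r hr y z (by omega) ?_ h4
  simp only
  rw [hlv l hl y (by omega), hrv r hr (y - d) (by omega)]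
  omega

theorem low_lvec {m c : ℕ} (hp : S.okPos m c = true) {lv : List (List ℤ)}
    (hl : ∀ v ∈ lv, v ∈ S.lvec m c) : Low m lv := by
  intro v hv y hy
  obtain ⟨l, h1, h2⟩ := lops_of_vec hp (hl v hv)
  have h3 := hl v hv
  unfold Tab.lvec at h3
  rw [List.mem_map] at h3
  obtain ⟨f, -, rfl⟩ := h3
  unfold vf
  rcases h : (m : ℤ) - y with n | n
  · have h' : (m : ℤ) - y = (n : ℤ) := h
    simp only
    rw [List.getD_eq_getElem?_getD, List.getElem?_eq_none]
    · rfl
    · unfold tabD
      simp only [List.length_map, List.length_range]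
      omega
  · rfl

theorem low_rvec {m c : ℕ} {rv : List (List ℤ)}
    (hl : ∀ v ∈ rv, v ∈ S.rvec m c) : Low m rv := by
  intro v hv y hy
  have h3 := hl v hv
  unfold Tab.rvec at h3
  rw [List.mem_map] at h3
  obtain ⟨f, -, rfl⟩ := h3
  unfold vf
  rcases h : (m : ℤ) - y with n | n
  · have h' : (m : ℤ) - y = (n : ℤ) := h
    simp only
    rw [List.getD_eq_getElem?_getD, List.getElem?_eq_none]
    · rfl
    · unfold tabD
      simp only [List.length_map, List.length_range]
      omega
  · rfl

end LWG
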